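import Mathlib.MeasureTheory.Measure.Haar.OfBasis
import Mathlib.Analysis.Normed.Lp.MeasurableSpace
import Mathlib.Algebra.Order.Archimedean.Real.Hom
import Mathlib.MeasureTheory.Integral.Average
import Mathlib.Analysis.SpecialFunctions.SmoothTransition
import Mathlib.Analysis.Calculus.Gradient.Basic
import Mathlib.Topology.Algebra.Module.FiniteDimensionBilinear
import Mathlib.RingTheory.PiTensorProduct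
import Mathlib.RingTheory.SimpleRing.Principal
import Mathlib.RingTheory.RegularLocalRing.Defs

-- ======== part 0: formerly Pool.Agent.MP_815c6c_an.N.Defs
section MrgPart0

/-! p-harmonic maps for `p` slightly above two: definitions.
Note: `/team-store/PLAP_T2_spec.md`. -/

set_option autoImplicit false

noncomputable section

namespace Pool.Agent.MP_815c6c_an.N

open Set Metric MeasureTheory Filter Topology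
open scoped ContDiff RealInnerProductSpace ENNReal

/-- points -/
abbrev X (d : ℕ) : Type := EuclideanSpace ℝ (Fin d)
/-- gradients, with the Frobenius norm -/
abbrev Gr (d n : ℕ) : Type := EuclideanSpace ℝ (Fin n × Fin d)
/-- Hessians, with the Frobenius norm -/
abbrev He (d n : ℕ) : Type := EuclideanSpace ℝ (Fin n × Fin d × Fin d)

variable {d n : ℕ}

/-- a matrix acts on a vector -/
def act : Gr d n →L[ℝ] X d →L[ℝ] X n := LinearMap.toContinuousBilinearMap <|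
  LinearMap.mk₂ ℝ (fun G v => WithLp.toLp 2 fun a => ∑ i, G (a, i) * v i)
    (fun _ _ _ => by ext; simp [add_mul, Finset.sum_add_distrib])
    (fun _ _ _ => by ext; simp [Finset.mul_sum, mul_assoc])
    (fun _ _ _ => by ext; simp [mul_add, Finset.sum_add_distrib])
    (fun _ _ _ => by ext; simp [Finset.mul_sum, mul_left_comm])

/-- a Hessian acts on a vector -/
def ap : He d n →L[ℝ] X d →L[ℝ] Gr d n := LinearMap.toContinuousBilinearMap <|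
  LinearMap.mk₂ ℝ (fun H x => WithLp.toLp 2 fun k => ∑ j, H (k.1, k.2, j) * x j)
    (fun _ _ _ => by ext; simp [add_mul, Finset.sum_add_distrib])
    (fun _ _ _ => by ext; simp [Finset.mul_sum, mul_assoc])
    (fun _ _ _ => by ext; simp [mul_add, Finset.sum_add_distrib])
    (fun _ _ _ => by ext; simp [Finset.mul_sum, mul_left_comm])

/-- outer products -/
def out : X n →L[ℝ] X d →L[ℝ] Gr d n := LinearMap.toContinuousBilinearMap <|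
  LinearMap.mk₂ ℝ (fun y v => WithLp.toLp 2 fun k => y k.1 * v k.2)
    (fun _ _ _ => by ext; simp [add_mul]) (fun _ _ _ => by ext; simp [mul_assoc])
    (fun _ _ _ => by ext; simp [mul_add]) (fun _ _ _ => by ext; simp [mul_left_comm])

def tens : Gr d n →L[ℝ] X d →L[ℝ] He d n := LinearMap.toContinuousBilinearMap <|
  LinearMap.mk₂ ℝ (fun G v => WithLp.toLp 2 fun k => G (k.1, k.2.1) * v k.2.2)
    (fun _ _ _ => by ext; simp [add_mul]) (fun _ _ _ => by ext; simp [mul_assoc])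
    (fun _ _ _ => by ext; simp [mul_add]) (fun _ _ _ => by ext; simp [mul_left_comm])

/-- the matrix of a linear map -/
def jm : (X d →L[ℝ] X n) →L[ℝ] Gr d n := LinearMap.toContinuousLinearMap
  { toFun := fun L => WithLp.toLp 2 fun k => L (EuclideanSpace.single k.2 1) k.1
    map_add' := fun _ _ => by ext; simp
    map_smul' := fun _ _ => by ext; simp }

/-- the trace -/
def trc : He d n →L[ℝ] X n := LinearMap.toContinuousLinearMap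
  { toFun := fun H => WithLp.toLp 2 fun a => ∑ i, H (a, i, i)
    map_add' := fun _ _ => by ext; simp [Finset.sum_add_distrib]
    map_smul' := fun _ _ => by ext; simp [Finset.mul_sum] }

/-- multiples of the identity -/
def idt : X n →L[ℝ] He d n := LinearMap.toContinuousLinearMap
  { toFun := fun y => WithLp.toLp 2 fun k => if k.2.1 = k.2.2 then y k.1 else 0
    map_add' := fun _ _ => by ext k; by_cases h : k.2.1 = k.2.2 <;> simp [h]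
    map_smul' := fun _ _ => by ext k; by_cases h : k.2.1 = k.2.2 <;> simp [h] }

/-- the trace free part -/
def tl : He d n →L[ℝ] He d n := ContinuousLinearMap.id ℝ _ - (d : ℝ)⁻¹ • idt.comp trc

theorem act_apply (G : Gr d n) (v : X d) (a : Fin n) : act G v a = ∑ i, G (a, i) * v i := rfl
theorem ap_apply (H : He d n) (x : X d) (k : Fin n × Fin d) :
    ap H x k = ∑ j, H (k.1, k.2, j) * x j := rfl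
theorem out_apply (y : X n) (v : X d) (k : Fin n × Fin d) : out y v k = y k.1 * v k.2 := rfl
theorem tens_apply (G : Gr d n) (v : X d) (k : Fin n × Fin d × Fin d) :
    tens G v k = G (k.1, k.2.1) * v k.2.2 := rfl
theorem jm_apply (L : X d →L[ℝ] X n) (k : Fin n × Fin d) :
    jm L k = L (EuclideanSpace.single k.2 1) k.1 := rfl
theorem trc_apply (H : He d n) (a : Fin n) : trc H a = ∑ i, H (a, i, i) := rfl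
theorem idt_apply (y : X n) (k : Fin n × Fin d × Fin d) :
    idt y k = if k.2.1 = k.2.2 then y k.1 else 0 := rfl
theorem tl_apply (H : He d n) : tl H = H - (d : ℝ)⁻¹ • idt (trc H) := rfl

/-- the gradient matrix -/
def Dm (φ : X d → X n) (x : X d) : Gr d n := jm (fderiv ℝ φ x)
/-- the quadratic form -/
def qf (H : He d n) (x : X d) : X n := act (ap H x) x
/-- symmetric Hessians -/
def Sy (H : He d n) : Prop := ∀ a i j, H (a, i, j) = H (a, j, i)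
/-- symmetric and trace free -/
def St0 (H : He d n) : Prop := Sy H ∧ trc H = 0
/-- the vector `S x`, `S` the sum of the squares -/
def sv (H : He d n) (x : X d) : X d := WithLp.toLp 2 fun j => ∑ k, H (k.1, k.2, j) * ap H x k
/-- the divergence of `el (H x)` -/
def cH (H : He d n) (x : X d) : X n := (‖ap H x‖ ^ 2)⁻¹ • act (ap H x) (sv H x)
/-- planar Hessians -/
def Pln (Z : He d n) : Prop := Z = 0 ∨ ∃ (e₁ e₂ : X d) (α β : X n), ‖e₁‖ = 1 ∧ ‖e₂‖ = 1 ∧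
  ⟪e₁, e₂⟫ = 0 ∧ ∀ a i j, Z (a, i, j) =
    α a * (e₁ i * e₁ j - e₂ i * e₂ j) + β a * (e₁ i * e₂ j + e₂ i * e₁ j)

section
variable {E : Type} [NormedAddCommGroup E] [NormedSpace ℝ E]

/-- radial powers -/
def A (ε : ℝ) (ξ : E) : E := ‖ξ‖ ^ ε • ξ
def T (ε : ℝ) (ξ : E) : E := ξ - A ε ξ
def el (ξ : E) : E := Real.log ‖ξ‖ • ξ

/-- the class `L^(2+ε)` of the unit ball -/
def Mp (ε : ℝ) (z : X d → E) : Prop :=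
  MemLp z (ENNReal.ofReal (2 + ε)) (volume.restrict (ball 0 1))
/-- the energy density -/
def Ps (ε t : ℝ) : ℝ := t ^ 2 + t ^ (2 + ε)
def exc (ε : ℝ) (z : X d → E) : ℝ := √(∫ x in ball 0 1, Ps ε ‖z x‖)
def L1 (z : X d → E) : ℝ := ∫ x in ball 0 1, ‖z x‖
def L2 (z : X d → E) : ℝ := √(∫ x in ball 0 1, ‖z x‖ ^ 2)
/-- integrable on the unit ball -/
def Ib (z : X d → E) : Prop := IntegrableOn z (ball 0 1)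
/-- test functions of class `C^1` in the unit ball -/
def Ts (φ : X d → E) : Prop := ContDiff ℝ 1 φ ∧ ∃ r : ℝ, r < 1 ∧ ∀ x, r ≤ ‖x‖ → φ x = 0
/-- dilations, with a centre -/
def sc (t : ℝ) (z : X d → E) (x : X d) : E := z (t • x)
def sh (x₀ : X d) (t : ℝ) (z : X d → E) (x : X d) : E := z (x₀ + t • x)
end

/-- the averaging kernel -/
def kp (t : ℝ) : ℝ := Real.smoothTransition (1 - 4 * t)
def ka (d : ℕ) (t : ℝ) : ℝ := kp t / ∫ y : X d, kp (‖y‖ ^ 2)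
def kk (x : X d) : ℝ := ka d (‖x‖ ^ 2)
/-- mean value and mean derivative -/
def bb {E : Type} [NormedAddCommGroup E] [NormedSpace ℝ E] (z : X d → E) : E := ∫ x, kk x • z x
def HH (z : X d → Gr d n) : He d n := -∫ x, tens (z x) (gradient kk x)
/-- removing the affine part -/
def pr (z : X d → Gr d n) (x : X d) : Gr d n := z x - bb z - ap (HH z) x
/-- the mean derivative at the scale `t` -/
def Ht (t : ℝ) (z : X d → Gr d n) : He d n := t⁻¹ • HH (sc t z)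

/-- weak gradients in the unit ball -/
def WG (v : X d → X n) (z : X d → Gr d n) : Prop := ∀ φ : X d → ℝ, Ts φ → ∀ y : X d,
  ∫ x, fderiv ℝ φ x y • v x = -∫ x, φ x • act (z x) y

/-- the pairing with a test function -/
def pa (z : X d → Gr d n) (φ : X d → X n) : ℝ := ∫ x, ⟪z x, Dm φ x⟫

/-- weak solutions in the unit ball, `p = 2 + ε` -/
structure Sol (ε : ℝ) (u : X d → X n) (G : X d → Gr d n) : Prop where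
  mu : Mp ε u
  mG : Mp ε G
  wg : WG u G
  eq : ∀ φ, Ts φ → pa (fun x => A ε (G x)) φ = 0

/-- approximate solutions -/
def Res (ε ρ : ℝ) (Γ : X d → Gr d n) : Prop := ∀ φ, Ts φ →
  |pa (fun x => A ε (Γ x)) φ| ≤ ρ * ∫ x, (‖Dm φ x‖ + ‖φ x‖)
/-- almost divergence free fields -/
def AH (ρ : ℝ) (z : X d → Gr d n) : Prop := ∀ φ (c : ℝ), Ts φ → (∀ x, ‖φ x‖ ≤ c) →
  (∀ x, ‖Dm φ x‖ ≤ c) → |pa z φ| ≤ ρ * c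
/-- lower bound of the weight -/
def Wt (ε l : ℝ) (Γ : X d → Gr d n) : Prop := ∀ x ∈ ball (0 : X d) 1, ∀ z : Gr d n,
  ‖z‖ ^ 2 ≤ 4 * ((‖Γ x + z‖ + ‖Γ x‖) ^ ε * ‖z‖ ^ 2) + l ^ 2

/-- radial weights -/
def Rad (f : ℝ → ℝ) : Prop := ContDiff ℝ ∞ f ∧ (∀ t, 1 / 4 ≤ t → f t = 0) ∧ ∀ t, 0 ≤ t → 0 ≤ f t
/-- the test function attached to a Hessian -/
def tq (f : ℝ → ℝ) (M : He d n) (x : X d) : X n := f (‖x‖ ^ 2) • qf M x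
/-- second moment -/
def mo2 (d : ℕ) (f : ℝ → ℝ) : ℝ := ∫ x : X d, f (‖x‖ ^ 2) * ‖x‖ ^ 2
/-- the first order coefficient -/
def lam (f : ℝ → ℝ) (H M : He d n) : ℝ := ∫ x, ⟪cH H x, tq f M x⟫

/-- the exponent of the planar model -/
def ss (ε : ℝ) : ℝ := ε / (2 + ε)
/-- the square of the distance to the kernel -/
def r2 (Z : He d n) (x : X d) : ℝ := 2 * ‖ap Z x‖ ^ 2 / ‖Z‖ ^ 2
/-- the planar model and its gradient -/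
def UZ (s : ℝ) (Z : He d n) (x : X d) : X n := (r2 Z x ^ (-s / 2) / 2) • qf Z x
def GZ (ε : ℝ) (Z : He d n) : X d → Gr d n := Dm (UZ (ss ε) Z)
/-- the excess over the planar model -/
def ez (ε : ℝ) (G : X d → Gr d n) (Z : He d n) : ℝ := exc ε (pr fun x => G x - GZ ε Z x)

/-- the potential of the difference of two kernels, as a function of the squared norm -/
structure Shell (d : ℕ) (θ : ℝ) (W : ℝ → ℝ) : Prop where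
  sm : ContDiff ℝ ∞ W
  zero : ∀ t, 1 / 4 ≤ t → W t = 0
  ode : ∀ t, 2 * d * deriv W t + 4 * t * deriv (deriv W) t =
    (θ ^ d)⁻¹ * ka d (t / θ ^ 2) - ka d t
  d1 : ∀ t, 0 ≤ deriv W t
  d2 : ∀ t, deriv (deriv W) t ≤ 0
  m1 : ∫ x : X d, 2 * deriv W (‖x‖ ^ 2) * ‖x‖ ≤ 1
  m2 : mo2 d (fun t => -4 * deriv (deriv W) t) = d * Real.log θ⁻¹

/-- standing bounds in the degenerate regime -/
structure Pre (ε : ℝ) (u : X d → X n) (G : X d → Gr d n) (Z : He d n) : Prop where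
  sol : Sol ε u G
  pl : Pln Z
  nZ : ‖Z‖ ≤ 4
  nH : ‖HH G‖ ≤ 4
  nb : ‖bb G‖ ≤ 1
  ne : ez ε G Z ≤ 3

/-- the outcome of the iteration -/
structure It {E F : Type} [NormedAddCommGroup E] [NormedAddCommGroup F] (θ g C L : ℝ)
    (b : ℕ → E) (h : ℕ → F) : Prop where
  u1 : ∀ j : ℕ, ‖h j‖ ≤ C * L * θ ^ (-g * j)
  u2 : ∀ j : ℕ, ‖b (j + 1) - b j‖ ≤ C * L * θ ^ ((1 - g) * j)
  u3 : Tendsto b atTop (𝓝 0) ∨ ∃ k : ℕ, ∀ j, k ≤ j → ‖b j‖ ≤ C * θ ^ ((1 - g) * k) ∧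
    ‖h j‖ ≤ C * L * θ ^ (-g * k) ∧ ‖h (j + 1) - h j‖ ≤ C * L * θ ^ (-g * k) * (3 / 4) ^ (j - k)

/-- the diagonal of `S`; `S` is diagonal -/
def sd (H : He d n) (i : Fin d) : ℝ := ∑ a, ∑ j, H (a, i, j) ^ 2
def Dg (H : He d n) : Prop := ∀ i j, i ≠ j → ∑ a, ∑ k, H (a, i, k) * H (a, j, k) = 0
/-- the integrand of the one dimensional representation -/
def Jt (H : He d n) (τ : ℝ) : ℝ := (√(∏ i, (1 + τ * sd H i)))⁻¹ *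
  (∑ a, ∑ i, ∑ j, H (a, i, j) ^ 2 * (sd H i + sd H j) / ((1 + τ * sd H i) * (1 + τ * sd H j)) -
    τ * ∑ a, (∑ i, H (a, i, i) * (sd H i / (1 + τ * sd H i))) ^ 2)
/-- the sharp first order bound at `H` -/
def Fo (H : He d n) : Prop := ∀ f, Rad f → lam f H H ≤ ‖H‖ ^ 2 / (2 * d) * mo2 d f ∧
  (0 < mo2 d f → lam f H H = ‖H‖ ^ 2 / (2 * d) * mo2 d f → Pln H)
/-- the one dimensional inequality at `H` -/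
def Tau (H : He d n) : Prop := ∫ τ in Ioi (0 : ℝ), Jt H τ ≤ ‖H‖ ^ 2 ∧
  (∫ τ in Ioi (0 : ℝ), Jt H τ = ‖H‖ ^ 2 → H = 0 ∨ ∃ i j, i ≠ j ∧ ∀ k, k ≠ i → k ≠ j → sd H k = 0)

/-- the mean oscillation -/
def osc (f : X d → Gr d n) (x : X d) (r : ℝ) : ℝ :=
  √(⨍ z in ball x r, ‖f z - ⨍ y in ball x r, f y‖ ^ 2)

/-- `h` is a weak solution on `U` with weak gradient `G` -/
def Harm (p : ℝ) (U : Set (X d)) (h : X d → X n) (G : X d → Gr d n) : Prop :=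
  (∀ K ⊆ U, IsCompact K → MemLp h (ENNReal.ofReal p) (volume.restrict K) ∧
    MemLp G (ENNReal.ofReal p) (volume.restrict K)) ∧
  (∀ φ : X d → ℝ, ContDiff ℝ ∞ φ → HasCompactSupport φ → tsupport φ ⊆ U → ∀ a i,
    ∫ x, h x a * fderiv ℝ φ x (EuclideanSpace.single i 1) = -∫ x, φ x * G x (a, i)) ∧
  ∀ φ : X d → X n, ContDiff ℝ ∞ φ → HasCompactSupport φ → tsupport φ ⊆ U →
    ∫ x, ∑ a, ∑ i, ‖G x‖ ^ (p - 2) * G x (a, i) * fderiv ℝ φ x (EuclideanSpace.single i 1) a = 0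

/-- a `C^1` representative -/
def Rep (U : Set (X d)) (f : X d → Gr d n) : Prop :=
  ∃ W : X d → Gr d n, ContDiffOn ℝ 1 W U ∧ W =ᵐ[volume.restrict U] f

/-- linear decay with the constant `c` -/
def Dec (c : ℝ) (U : Set (X d)) (f : X d → Gr d n) : Prop :=
  ∀ (x : X d) (r : ℝ), 0 < r → ball x r ⊆ U → MemLp f 2 (volume.restrict (ball x r)) →
    ∀ θ ∈ Ioc (0 : ℝ) 1, osc f x (θ * r) ≤ c * θ * osc f x r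

end Pool.Agent.MP_815c6c_an.N

end
end MrgPart0

-- ======== part 1: formerly Pool.Agent.MP_815c6c_an.N.Spec
section MrgPart1

/-! p-harmonic maps for `p` slightly above two: the statements of the rows.
Note: `/team-store/PLAP_T2_spec.md`. -/

set_option autoImplicit false

noncomputable section

namespace Pool.Agent.MP_815c6c_an.N

open Set Metric MeasureTheory Filter Topology
open scoped ContDiff RealInnerProductSpace ENNReal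

/-! ### A. kits -/

/-- tensor algebra -/
structure Bas (d n : ℕ) : Prop where
  n_act : ∀ (G : Gr d n) v, ‖act G v‖ ≤ ‖G‖ * ‖v‖
  n_ap : ∀ (H : He d n) x, ‖ap H x‖ ≤ ‖H‖ * ‖x‖
  n_apL : ∀ H : He d n, ‖ap H‖ ≤ ‖H‖
  n_qf : ∀ (H : He d n) x, ‖qf H x‖ ≤ ‖H‖ * ‖x‖ ^ 2
  n_out : ∀ (y : X n) (v : X d), ‖out y v‖ = ‖y‖ * ‖v‖
  n_tens : ∀ (G : Gr d n) v, ‖tens G v‖ = ‖G‖ * ‖v‖
  n_jm : ∀ L : X d →L[ℝ] X n, ‖jm L‖ ≤ d * ‖L‖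
  n_trc : ∀ H : He d n, ‖trc H‖ ≤ d * ‖H‖
  n_tl : ∀ H : He d n, ‖tl H‖ ≤ ‖H‖
  n_sub_tl : ∀ H : He d n, ‖H - tl H‖ ≤ ‖trc H‖
  n_sv : ∀ (H : He d n) x, ‖sv H x‖ ≤ ‖H‖ * ‖ap H x‖
  n_cH : ∀ (H : He d n) x, ‖cH H x‖ ≤ ‖H‖
  i_out : ∀ (G : Gr d n) y v, ⟪G, out y v⟫ = ⟪act G v, y⟫
  i_tens : ∀ (M : He d n) G v, ⟪tens G v, M⟫ = ⟪G, ap M v⟫
  i_sv : ∀ (H : He d n) x v, ⟪sv H x, v⟫ = ⟪ap H x, ap H v⟫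
  i_tl : ∀ H M : He d n, trc M = 0 → ⟪tl H, M⟫ = ⟪H, M⟫
  i_sum : ∀ (G : Gr d n) (L : X d →L[ℝ] X n),
    ⟪G, jm L⟫ = ∑ i, ⟪act G (EuclideanSpace.single i 1), L (EuclideanSpace.single i 1)⟫
  act_jm : ∀ (L : X d →L[ℝ] X n) v, act (jm L) v = L v
  jm_act : ∀ G : Gr d n, jm (act G) = G
  act_out : ∀ (y : X n) (v w : X d), act (out y v) w = ⟪v, w⟫ • y
  act_sy : ∀ H : He d n, Sy H → ∀ x y, act (ap H x) y = act (ap H y) x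
  trc_tens : ∀ (G : Gr d n) v, trc (tens G v) = act G v
  tl_st0 : ∀ H : He d n, 1 ≤ d → Sy H → St0 (tl H)
  tl_of : ∀ H : He d n, trc H = 0 → tl H = H
  sy_add : ∀ (H M : He d n) (s t : ℝ), Sy H → Sy M → Sy (s • H + t • M)
  n_sq : ∀ H : He d n, ‖H‖ ^ 2 = ∑ i, sd H i
  c_qf : ∀ H : He d n, ContDiff ℝ ∞ (qf H)
  m_cH : ∀ H : He d n, Measurable (cH H)
  c_Dm : ∀ φ : X d → X n, ContDiff ℝ 1 φ → Continuous (Dm φ)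
  D_qf : ∀ H : He d n, Sy H → ∀ x, Dm (qf H) x = (2 : ℝ) • ap H x
  D_act : ∀ (b : Gr d n) x, Dm (fun y => act b y) x = b
  D_add : ∀ (φ ψ : X d → X n) x, DifferentiableAt ℝ φ x → DifferentiableAt ℝ ψ x →
    Dm (fun y => φ y + ψ y) x = Dm φ x + Dm ψ x
  D_smul : ∀ (f : X d → ℝ) (φ : X d → X n) x, DifferentiableAt ℝ f x → DifferentiableAt ℝ φ x →
    Dm (fun y => f y • φ y) x = f x • Dm φ x + out (φ x) (gradient f x)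
  D_sh : ∀ (φ : X d → X n) (x₀ : X d) (t m : ℝ) x, DifferentiableAt ℝ φ (x₀ + t • x) →
    Dm (fun y => m • φ (x₀ + t • y)) x = (m * t) • Dm φ (x₀ + t • x)
  D_odd : ∀ φ : X d → X n, Differentiable ℝ φ → (∀ x, φ (-x) = -φ x) → ∀ x, Dm φ (-x) = Dm φ x
  ts_Dm : ∀ φ : X d → X n, Ts φ → ∃ r : ℝ, r < 1 ∧ ∀ x, r ≤ ‖x‖ → φ x = 0 ∧ Dm φ x = 0
  ts_tq : ∀ f, Rad f → ∃ C : ℝ, 0 ≤ C ∧ ∀ M : He d n,
    Ts (tq f M) ∧ ∀ x, ‖tq f M x‖ ≤ C * ‖M‖ ∧ ‖Dm (tq f M) x‖ ≤ C * ‖M‖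
def BasS : Prop := ∀ d n, Bas d n

/-- the pairing, weak gradients, odd fields -/
structure Par (d n : ℕ) : Prop where
  int : ∀ (z : X d → Gr d n) φ, Ib z → Ts φ → Integrable fun x => ⟪z x, Dm φ x⟫
  add : ∀ (z w : X d → Gr d n) (s t : ℝ) φ, Ib z → Ib w → Ts φ →
    pa (fun x => s • z x + t • w x) φ = s * pa z φ + t * pa w φ
  congr : ∀ (z w : X d → Gr d n) φ, Ts φ → (∀ x ∈ ball (0 : X d) 1, z x = w x) → pa z φ = pa w φ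
  ah : ∀ z : X d → Gr d n, Ib z → AH (L1 z) z
  sup : ∀ (z : X d → Gr d n) φ (c : ℝ), Ib z → Ts φ → (∀ x ∈ ball (0 : X d) 1, ‖z x‖ ≤ c) →
    |pa z φ| ≤ c * ∫ x, ‖Dm φ x‖
  aff : ∀ (b : Gr d n) (H : He d n) φ, Ts φ → pa (fun x => b + ap H x) φ = -∫ x, ⟪trc H, φ x⟫
  odd : ∀ (z : X d → Gr d n) φ, Ts φ → (∀ x, φ (-x) = -φ x) → (∀ x, z (-x) = -z x) → pa z φ = 0
  res_ah : ∃ C : ℝ, 0 ≤ C ∧ ∀ (ε ρ : ℝ) (Γ : X d → Gr d n), 0 ≤ ρ → Res ε ρ Γ →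
    AH (C * ρ) fun x => A ε (Γ x)
  wg_c1 : ∀ P : X d → X n, ContDiff ℝ 1 P → WG P (Dm P)
  wg_add : ∀ (v v' : X d → X n) (z z' : X d → Gr d n) (s t : ℝ), Ib v → Ib v' → Ib z → Ib z' →
    WG v z → WG v' z' → WG (fun x => s • v x + t • v' x) fun x => s • z x + t • z' x
  ib_c : ∀ {E : Type} [NormedAddCommGroup E] (z : X d → E), Continuous z → Ib z
def ParS : Prop := ∀ d n, Par d n

/-- the kernel -/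
structure Ker (d n : ℕ) : Prop where
  sm : ContDiff ℝ ∞ (kk : X d → ℝ)
  sa : ContDiff ℝ ∞ (ka d)
  zero : ∀ x : X d, 1 / 2 ≤ ‖x‖ → kk x = 0 ∧ gradient kk x = 0
  za : ∀ t, 1 / 4 ≤ t → ka d t = 0
  nn : ∀ t, 0 ≤ ka d t
  anti : ∀ t, deriv (ka d) t ≤ 0
  one : ∫ x : X d, kk x = 1
  grad : ∀ x : X d, gradient kk x = (2 * deriv (ka d) (‖x‖ ^ 2)) • x
  bb_add : ∀ {E : Type} [NormedAddCommGroup E] [NormedSpace ℝ E] [CompleteSpace E]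
    (z w : X d → E) (s t : ℝ), Ib z → Ib w → bb (fun x => s • z x + t • w x) = s • bb z + t • bb w
  HH_add : ∀ (z w : X d → Gr d n) (s t : ℝ), Ib z → Ib w →
    HH (fun x => s • z x + t • w x) = s • HH z + t • HH w
  bb_smul : ∀ (z : X d → Gr d n) (s : ℝ), bb (fun x => s • z x) = s • bb z
  HH_smul : ∀ (z : X d → Gr d n) (s : ℝ), HH (fun x => s • z x) = s • HH z
  bb_aff : ∀ (b : Gr d n) (H : He d n), bb (fun x => b + ap H x) = b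
  HH_aff : ∀ (b : Gr d n) (H : He d n), HH (fun x => b + ap H x) = H
  bb_odd : ∀ z : X d → Gr d n, (∀ x, z (-x) = -z x) → bb z = 0
  pr_zero : ∀ z : X d → Gr d n, Ib z → bb (pr z) = 0 ∧ HH (pr z) = 0
  bd : ∃ C : ℝ, 0 ≤ C ∧ ∀ z : X d → Gr d n, Ib z → ‖bb z‖ ≤ C * L1 z ∧ ‖HH z‖ ≤ C * L1 z
  sy : ∀ (v : X d → X n) z, Ib v → Ib z → WG v z → Sy (HH z)
def KerS : Prop := ∀ d n, Ker d n

/-- the excess -/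
structure Exc (d n : ℕ) (C : ℝ) : Prop where
  pos : 1 ≤ C
  ib : ∀ {E : Type} [NormedAddCommGroup E] (ε : ℝ) (z : X d → E), 0 ≤ ε → Mp ε z →
    Ib z ∧ IntegrableOn (fun x => ‖z x‖ ^ 2) (ball 0 1) ∧
      IntegrableOn (fun x => Ps ε ‖z x‖) (ball 0 1)
  mp_c : ∀ {E : Type} [NormedAddCommGroup E] (ε : ℝ) (z : X d → E), Continuous z → Mp ε z
  mp_sh : ∀ {E : Type} [NormedAddCommGroup E] (ε : ℝ) (z : X d → E) (x₀ : X d) (t : ℝ), 0 < t →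
    ‖x₀‖ + t ≤ 1 → Mp ε z → Mp ε (sh x₀ t z)
  mp_pr : ∀ (ε : ℝ) (z : X d → Gr d n), Mp ε z → Mp ε (pr z)
  ib_A : ∀ (ε : ℝ) (z : X d → Gr d n), 0 ≤ ε → Mp ε z →
    Ib (fun x => A ε (z x)) ∧ Ib fun x => T ε (z x)
  l1 : ∀ {E : Type} [NormedAddCommGroup E] (ε : ℝ) (z : X d → E), 0 ≤ ε → Mp ε z →
    L1 z ≤ C * L2 z ∧ L2 z ≤ exc ε z
  pr_le : ∀ (ε : ℝ) (z : X d → Gr d n), 0 ≤ ε → ε ≤ 1 → Mp ε z → exc ε (pr z) ≤ C * exc ε z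
  add_le : ∀ (ε t : ℝ) (z w : X d → Gr d n), 0 ≤ ε → ε ≤ 1 → Mp ε z → Mp ε w → t ≤ 1 →
    (∀ x ∈ ball (0 : X d) 1, ‖w x‖ ≤ t) → exc ε (fun x => z x + w x) ≤ 2 * exc ε z + C * t
  pr_sup : ∀ (t : ℝ) (w : X d → Gr d n), Ib w → (∀ x ∈ ball (0 : X d) 1, ‖w x‖ ≤ t) →
    ∀ x ∈ ball (0 : X d) 1, ‖pr w x‖ ≤ C * t
  l2_add : ∀ (ε t : ℝ) (z w : X d → Gr d n), 0 ≤ ε → Mp ε z → Mp ε w →
    (∀ x ∈ ball (0 : X d) 1, ‖w x‖ ≤ t) → L2 (fun x => z x + w x) ≤ L2 z + C * t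
  smul_le : ∀ (ε t c : ℝ) (z : X d → Gr d n), 0 ≤ ε → 0 ≤ t → 1 ≤ c → t ^ ε ≤ c ^ 2 → Mp ε z →
    exc ε (fun x => t • z x) ≤ c * t * exc ε z
  sh_le : ∀ {E : Type} [NormedAddCommGroup E] (ε : ℝ) (z : X d → E) (x₀ : X d) (t : ℝ), 0 ≤ ε →
    0 < t → ‖x₀‖ + t ≤ 1 → Mp ε z → exc ε (sh x₀ t z) ≤ (t ^ d)⁻¹ * exc ε z
  sqrt_le : ∀ (ε κ : ℝ) (z : X d → Gr d n), 0 ≤ ε → 0 < κ → Mp ε z →
    IntegrableOn (fun x => √‖z x‖) (ball 0 1) ∧ ∫ x in ball 0 1, √‖z x‖ ≤ C * κ + κ⁻¹ * L1 z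
def ExcS : Prop := ∀ d n, ∃ C, Exc d n C

/-- scaling -/
structure Sca (d n : ℕ) : Prop where
  wg : ∀ (v : X d → X n) (z : X d → Gr d n) (x₀ : X d) (t : ℝ), 0 < t → ‖x₀‖ + t ≤ 1 → WG v z →
    WG (fun x => t⁻¹ • sh x₀ t v x) (sh x₀ t z)
  sol : ∀ (ε : ℝ) (u : X d → X n) (G : X d → Gr d n) (x₀ : X d) (t m : ℝ), 0 ≤ ε → 0 < t → 0 < m →
    ‖x₀‖ + t ≤ 1 → Sol ε u G → Sol ε (fun x => (m * t⁻¹) • sh x₀ t u x) fun x => m • sh x₀ t G x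
  res : ∀ (ε ρ t : ℝ) (Γ : X d → Gr d n), 0 < t → t ≤ 1 → 0 ≤ ρ → Res ε ρ Γ → Res ε ρ (sc t Γ)
  solc : ∀ (ε : ℝ) (u : X d → X n) (G : X d → Gr d n) (t m : ℝ), 0 ≤ ε → 0 < t → 0 < m → t ≤ 1 →
    Sol ε u G → ∃ u', Sol ε u' fun x => m • sc t G x
def ScaS : Prop := ∀ d n, Sca d n

/-! ### B. pointwise inequalities -/

structure Al1 (E : Type) [NormedAddCommGroup E] [InnerProductSpace ℝ E] : Prop where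
  norm : ∀ (a : ℝ) (ξ : E), 0 ≤ a → ‖A a ξ‖ = ‖ξ‖ ^ (1 + a)
  cont : ∀ a : ℝ, 0 ≤ a → Continuous (A a : E → E)
  smul : ∀ (a t : ℝ) (ξ : E), 0 ≤ t → A a (t • ξ) = (t ^ a * t) • A a ξ
  neg : ∀ (a : ℝ) (ξ : E), A a (-ξ) = -A a ξ
  comp : ∀ (a b : ℝ) (ξ : E), 0 ≤ a → 0 ≤ b → A b (A a ξ) = A ((1 + a) * (1 + b) - 1) ξ
  surj : ∀ (a : ℝ) (c : E), 0 ≤ a → ∃ ξ, A a ξ = c
  mono : ∀ (ε : ℝ) (x y : E), 0 ≤ ε → ε ≤ 1 →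
    (‖x‖ + ‖y‖) ^ ε * ‖x - y‖ ^ 2 ≤ 4 * ⟪A ε x - A ε y, x - y⟫
  lip : ∀ (ε : ℝ) (x y : E), 0 ≤ ε → ε ≤ 1 → ‖A ε x - A ε y‖ ≤ 2 * ((‖x‖ + ‖y‖) ^ ε * ‖x - y‖)
  low : ∀ a : ℝ, 0 ≤ a → ∃ C : ℝ, 1 ≤ C ∧ ∀ x y : E,
    (‖x‖ + ‖y‖) ^ a * ‖x - y‖ ≤ C * ‖A a x - A a y‖
  c1 : ∀ a : ℝ, 0 ≤ a → ContDiff ℝ 1 (A a : E → E) ∧
    ∀ ξ : E, ‖fderiv ℝ (A a) ξ‖ ≤ (1 + a) * ‖ξ‖ ^ a
  wt : ∀ (ε : ℝ) (x z : E), 0 < ε → ε ≤ 1 →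
    ‖z‖ ^ 2 ≤ 4 * ((‖x + z‖ + ‖x‖) ^ ε * ‖z‖ ^ 2) + (ε ^ 3) ^ 2
  wt0 : ∀ (ε : ℝ) (x z : E), 0 < ε → ε ≤ 1 → 1 / 4 ≤ ‖x‖ →
    ‖z‖ ^ 2 ≤ 4 * ((‖x + z‖ + ‖x‖) ^ ε * ‖z‖ ^ 2)
  el_cont : Continuous (el : E → E)
def Al1S : Prop := ∀ (E : Type) [NormedAddCommGroup E] [InnerProductSpace ℝ E], Al1 E

structure Al2 (E : Type) [NormedAddCommGroup E] [InnerProductSpace ℝ E] (C : ℝ) : Prop where
  pos : 1 ≤ C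
  t1 : ∀ (ε : ℝ) (ξ : E), 0 < ε → ε ≤ 1 / 8 → ‖T ε ξ‖ ≤ C * ε * (1 + ‖ξ‖ ^ 2)
  t2 : ∀ (ε : ℝ) (ξ η : E), 0 < ε → ε ≤ 1 / 8 → ‖ξ‖ ≤ 32 → ξ ≠ 0 →
    ‖T ε (ξ + η) - T ε ξ‖ ≤ C * ε * (‖η‖ * (1 + ‖η‖ + ‖ξ‖ ^ (-(1 / 4) : ℝ)))
  t3 : ∀ (ε : ℝ) (ξ η : E), 0 < ε → ε ≤ 1 / 8 → ‖ξ‖ ≤ 32 →
    ‖T ε (ξ + η) - T ε ξ‖ ≤ C * ε * (√‖η‖ + ‖η‖ ^ 2)
  t4 : ∀ (ε : ℝ) (b : E), 0 < ε → ε ≤ 1 / 8 → 1 / 2 ≤ ‖b‖ → ‖b‖ ≤ 2 → ∃ D : E →L[ℝ] E,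
    ‖D‖ ≤ C * ε ∧ ∀ η, ‖T ε (b + η) - T ε b - D η‖ ≤ C * ε * ‖η‖ ^ 2
def Al2S : Prop := ∀ (E : Type) [NormedAddCommGroup E] [InnerProductSpace ℝ E], ∃ C, Al2 E C

structure Al3 (E : Type) [NormedAddCommGroup E] [InnerProductSpace ℝ E] (C : ℝ) : Prop where
  pos : 1 ≤ C
  t5 : ∀ (ε κ : ℝ) (ξ η ζ : E), 0 < ε → ε ≤ 1 / 8 → 0 < κ → κ ≤ 1 → κ ≤ ‖ξ‖ → ‖ξ‖ ≤ 16 →
    ‖η‖ ≤ κ / 4 → ‖ζ‖ ≤ κ / 4 →
    ‖T ε (ξ + η + ζ) - T ε (ξ + η) - T ε (ξ + ζ) + T ε ξ‖ ≤ C * ε * (‖η‖ * ‖ζ‖ / κ)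
  t6 : ∀ (ε : ℝ) (ξ η : E), 0 < ε → ε ≤ 1 / 8 → ‖ξ‖ ≤ 32 → ‖η‖ ≤ 32 →
    ‖(T ε ξ + ε • el ξ) - (T ε η + ε • el η)‖ ≤ C * ε ^ 2 * √‖ξ - η‖
def Al3S : Prop := ∀ (E : Type) [NormedAddCommGroup E] [InnerProductSpace ℝ E], ∃ C, Al3 E C

/-! ### C. decay of the excess -/

def ShlS : Prop := ∀ (d : ℕ) (θ : ℝ), 0 < θ → θ < 1 → ∃ W, Shell d θ W

/-- the exact change of the means between two scales -/
def EvS : Prop := ∀ (d n : ℕ) (θ : ℝ), 0 < θ → θ < 1 → ∃ (f : ℝ → ℝ) (C : ℝ), Rad f ∧ 0 ≤ C ∧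
  mo2 d f = d * Real.log θ⁻¹ ∧
  (∀ N : Gr d n, ∃ φ, Ts φ ∧ (∀ x, φ (-x) = -φ x) ∧
    (∀ x, ‖φ x‖ ≤ C * ‖N‖ ∧ ‖Dm φ x‖ ≤ C * ‖N‖) ∧
    ∀ v z, Ib v → Ib z → WG v z → ⟪bb (sc θ z) - bb z, N⟫ = pa z φ) ∧
  ∀ (v : X d → X n) z, Ib v → Ib z → WG v z →
    (∀ M, St0 M → ⟪Ht θ z - HH z, M⟫ = pa z (tq f M)) ∧
    ∀ ρ, 0 ≤ ρ → AH ρ z → ‖Ht θ z - HH z‖ ≤ C * ρ ∧ ‖bb (sc θ z) - bb z‖ ≤ C * ρ ∧
      ‖trc (Ht θ z)‖ ≤ C * ρ ∧ ‖trc (HH z)‖ ≤ C * ρ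

/-- comparison of two averages of the potential -/
def AvgS : Prop := ∀ (d n : ℕ) (θ : ℝ), 0 < θ → θ < 1 → ∃ C : ℝ, 0 ≤ C ∧
  ∀ (v : X d → X n) (z : X d → Gr d n) (ρ : ℝ), Ib v → Ib z → WG v z → 0 ≤ ρ → AH ρ z →
    ∀ x : X d, ‖x‖ ≤ 1 / 4 → ‖(∫ y, kk y • v (x + θ • y)) - ∫ y, kk y • v (x + y)‖ ≤ C * ρ

/-- a function is close to its averages -/
def PoiS : Prop := ∀ (d n : ℕ) (ε ρ : ℝ) (v : X d → X n) (z : X d → Gr d n), 0 ≤ ε → 0 < ρ →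
  ρ ≤ 1 / 2 → Mp ε v → Mp ε z → WG v z →
  IntegrableOn (fun x => Ps ε ‖ρ⁻¹ • (v x - ∫ y, kk y • v (x + ρ • y))‖) (ball 0 (1 / 4)) ∧
  ∫ x in ball 0 (1 / 4), Ps ε ‖ρ⁻¹ • (v x - ∫ y, kk y • v (x + ρ • y))‖ ≤ exc ε z ^ 2

/-- Taylor expansion of the average -/
def TayS : Prop := ∀ d n : ℕ, ∃ C : ℝ, 0 ≤ C ∧ ∀ (v : X d → X n) (z : X d → Gr d n), Ib v → Ib z →
  WG v z → bb z = 0 → HH z = 0 → ∀ x : X d, ‖x‖ ≤ 1 / 4 →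
    ‖(∫ y, kk y • v (x + y)) - bb v‖ ≤ C * ‖x‖ ^ 3 * L1 z

/-- harmonic approximation of the potential -/
def HaS : Prop := ∀ d n : ℕ, ∃ C₀ : ℝ, 0 ≤ C₀ ∧ ∀ θ : ℝ, 0 < θ → θ ≤ 1 / 4 → ∃ C : ℝ, 0 ≤ C ∧
  ∀ (ε K ρ : ℝ) (v : X d → X n) (z : X d → Gr d n), 0 ≤ ε → ε ≤ 1 → K ^ ε ≤ 2 → Mp ε v → Mp ε z →
    WG v z → bb z = 0 → HH z = 0 → 0 ≤ ρ → AH ρ z → ρ ≤ K → exc ε z ≤ K →
    exc ε (fun x => θ⁻¹ • (v (θ • x) - bb v)) ≤ C₀ * θ ^ 2 * exc ε z + C * ρ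

/-- Sobolev test functions -/
def AdmS : Prop := ∀ (d n : ℕ) (ε : ℝ) (v : X d → X n) (z : X d → Gr d n) (η : X d → ℝ), 0 ≤ ε →
  Mp ε v → Mp ε z → WG v z → Ts η → ∃ φ : ℕ → X d → X n, (∀ j, Ts (φ j)) ∧
    Tendsto (fun j => eLpNorm (fun x => φ j x - η x • v x) (ENNReal.ofReal (2 + ε))
      (volume.restrict (ball 0 1))) atTop (𝓝 0) ∧
    Tendsto (fun j => eLpNorm (fun x => Dm (φ j) x - (η x • z x + out (v x) (gradient η x)))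
      (ENNReal.ofReal (2 + ε)) (volume.restrict (ball 0 1))) atTop (𝓝 0)

/-- the equation and the residual bound hold for Sobolev test functions -/
def TstS : Prop := ∀ (d n : ℕ) (ε ρ : ℝ) (u v : X d → X n) (G Γ z : X d → Gr d n) (η : X d → ℝ),
  0 ≤ ε → 0 ≤ ρ → Sol ε u G → Mp ε Γ → Res ε ρ Γ → Mp ε v → Mp ε z → WG v z → Ts η →
  IntegrableOn (fun x => ⟪A ε (G x) - A ε (Γ x), η x • z x⟫) (ball 0 1) ∧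
  IntegrableOn (fun x => ⟪A ε (G x) - A ε (Γ x), out (v x) (gradient η x)⟫) (ball 0 1) ∧
  |∫ x in ball 0 1, ⟪A ε (G x) - A ε (Γ x), η x • z x + out (v x) (gradient η x)⟫| ≤
    ρ * ∫ x in ball 0 1, (‖η x • z x + out (v x) (gradient η x)‖ + ‖η x • v x‖)

/-- the Caccioppoli inequality -/
def CacS : Prop := ∀ d n : ℕ, ∃ C : ℝ, 0 ≤ C ∧ ∀ (ε K ρ l : ℝ) (u P : X d → X n)
  (G : X d → Gr d n), 0 < ε → ε ≤ 1 → K ^ ε ≤ 2 → 0 ≤ ρ → 0 ≤ l → Sol ε u G → ContDiff ℝ 1 P →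
  (∀ x ∈ ball (0 : X d) 1, ‖Dm P x‖ ≤ K) → Res ε ρ (Dm P) → Wt ε l (Dm P) →
  exc ε (sc (1 / 2) fun x => G x - Dm P x) ≤ C * (exc ε (fun x => u x - P x) + ρ + l)

/-- decay of the excess -/
def DecS : Prop := ∀ d n : ℕ, ∃ C₀ : ℝ, 0 ≤ C₀ ∧ ∀ θ : ℝ, 0 < θ → θ ≤ 1 / 8 → ∃ C : ℝ, 0 ≤ C ∧
  ∀ (ε K ρ l τ : ℝ) (u P : X d → X n) (G : X d → Gr d n), 0 < ε → ε ≤ 1 → K ^ ε ≤ 2 → 0 ≤ ρ →
    0 ≤ l → Sol ε u G → ContDiff ℝ 1 P → (∀ x ∈ ball (0 : X d) 1, ‖Dm P x‖ ≤ K) →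
    Res ε ρ (Dm P) → Wt ε l (Dm P) → bb (fun x => G x - Dm P x) = 0 →
    HH (fun x => G x - Dm P x) = 0 → L1 (fun x => T ε (G x) - T ε (Dm P x)) ≤ τ →
    C * (ρ + τ) ≤ K → exc ε (fun x => G x - Dm P x) ≤ K →
    AH (C * (ρ + τ)) (fun x => G x - Dm P x) ∧
    exc ε (pr (sc θ fun x => G x - Dm P x)) ≤
      C₀ * θ ^ 2 * exc ε (fun x => G x - Dm P x) + C * (ρ + l + τ)

/-! ### D. first order -/

/-- negative powers of linear maps -/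
def WgtS : Prop := ∀ d n : ℕ, ∃ C : ℝ, 0 ≤ C ∧ ∀ H : He d n, 1 / 8 ≤ ‖H‖ →
  (∀ᵐ x, ap H x ≠ 0) ∧ IntegrableOn (fun x => ‖ap H x‖ ^ (-(1 / 2) : ℝ)) (ball 0 1) ∧
  ∫ x in ball 0 1, ‖ap H x‖ ^ (-(1 / 2) : ℝ) ≤ C ∧
  ∀ κ : ℝ, 0 < κ → volume.real {x | x ∈ ball (0 : X d) 1 ∧ ‖ap H x‖ ≤ κ} ≤ C * √κ

def EllS : Prop := ∀ (d n : ℕ) (H : He d n) (φ : X d → X n), St0 H → Ts φ →
  pa (fun x => el (ap H x)) φ = -∫ x, ⟪cH H x, φ x⟫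

/-- the sharp first order bound -/
def FoS (d n : ℕ) : Prop := ∀ H : He d n, St0 H → Fo H

/-- a gap away from the planar Hessians -/
def GapS : Prop := ∀ d n : ℕ, FoS d n → ∀ f, Rad f → 0 < mo2 d f → ∀ δ : ℝ, 0 < δ →
  ∃ g : ℝ, 0 < g ∧ ∀ H : He d n, St0 H → ‖H‖ ≤ 8 → (∀ Z, Pln Z → δ ≤ ‖H - Z‖) →
    lam f H H ≤ ‖H‖ ^ 2 / (2 * d) * mo2 d f - g

/-- change of the radial weight -/
def PolS : Prop := ∀ (d : ℕ) (F : X d → ℝ) (C : ℝ) (f : ℝ → ℝ), 1 ≤ d → Measurable F →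
  (∀ x, |F x| ≤ C * ‖x‖ ^ 2) → (∀ (t : ℝ) x, 0 < t → F (t • x) = t ^ 2 * F x) → Rad f →
  (∫ x, f (‖x‖ ^ 2) * F x) * (d * ∫ x : X d, Real.exp (-‖x‖ ^ 2 / 2)) =
    (∫ x, Real.exp (-‖x‖ ^ 2 / 2) * F x) * mo2 d f

/-- the Gaussian integral -/
def GauS : Prop := ∀ (d n : ℕ) (H : He d n), St0 H → Dg H → IntegrableOn (Jt H) (Ioi 0) ∧
  ∫ x, Real.exp (-‖x‖ ^ 2 / 2) * ⟪cH H x, qf H x⟫ =
    (∫ x : X d, Real.exp (-‖x‖ ^ 2 / 2)) * (1 / 2 * ∫ τ in Ioi (0 : ℝ), Jt H τ)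

/-- the one dimensional inequality -/
def TauS : Prop := ∀ (d n : ℕ) (H : He d n), St0 H → Dg H → IntegrableOn (Jt H) (Ioi 0) → Tau H

/-- rotations -/
def RotS : Prop := ∀ d n : ℕ, (∀ H : He d n, St0 H → Dg H → Fo H) → FoS d n

/-! ### E. the planar model -/

structure Pl0 (d n : ℕ) : Prop where
  st0 : ∀ Z : He d n, Pln Z → St0 Z
  smul : ∀ (Z : He d n) (t : ℝ), Pln Z → Pln (t • Z)
  two : ∀ H : He d n, d ≤ 2 → St0 H → Pln H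
  supp : ∀ (H : He d n) (i j : Fin d), St0 H → i ≠ j → (∀ k, k ≠ i → k ≠ j → sd H k = 0) → Pln H
  form : ∀ Z : He d n, Pln Z → Z ≠ 0 → ∃ (e₁ e₂ : X d) (α β : X n), ‖e₁‖ = 1 ∧ ‖e₂‖ = 1 ∧
    ⟪e₁, e₂⟫ = 0 ∧ ‖Z‖ ^ 2 = 2 * (‖α‖ ^ 2 + ‖β‖ ^ 2) ∧ ∀ x,
    ap Z x = out (⟪e₁, x⟫ • α + ⟪e₂, x⟫ • β) e₁ + out (⟪e₁, x⟫ • β - ⟪e₂, x⟫ • α) e₂ ∧
    qf Z x = (⟪e₁, x⟫ ^ 2 - ⟪e₂, x⟫ ^ 2) • α + (2 * ⟪e₁, x⟫ * ⟪e₂, x⟫) • β ∧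
    r2 Z x = ⟪e₁, x⟫ ^ 2 + ⟪e₂, x⟫ ^ 2 ∧ cH Z x = (r2 Z x)⁻¹ • qf Z x ∧
    sv Z x = (‖Z‖ ^ 2 / 2) • (⟪e₁, x⟫ • e₁ + ⟪e₂, x⟫ • e₂)
def Pl0S : Prop := ∀ d n, Pl0 d n

structure Pl1 (d n : ℕ) (C : ℝ) : Prop where
  pos : 0 ≤ C
  c1 : ∀ (s : ℝ) (Z : He d n), 0 < s → s ≤ 1 / 8 → Pln Z → ContDiff ℝ 1 (UZ s Z)
  form : ∀ (s : ℝ) (Z : He d n) x, 0 < s → s ≤ 1 / 8 → Pln Z → Dm (UZ s Z) x =
    r2 Z x ^ (-s / 2) • ap Z x - (s * r2 Z x ^ (-s / 2 - 1) / ‖Z‖ ^ 2) • out (qf Z x) (sv Z x)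
  hom : ∀ (s t : ℝ) (Z : He d n) x, 0 < s → s ≤ 1 / 8 → 0 < t → Pln Z →
    Dm (UZ s Z) (t • x) = t ^ (1 - s) • Dm (UZ s Z) x ∧ Dm (UZ s (t • Z)) x = t • Dm (UZ s Z) x
  odd : ∀ (s : ℝ) (Z : He d n) x, 0 < s → s ≤ 1 / 8 → Pln Z → Dm (UZ s Z) (-x) = -Dm (UZ s Z) x
  near : ∀ (s : ℝ) (Z : He d n), 0 < s → s ≤ 1 / 8 → Pln Z → ∀ x ∈ ball (0 : X d) 1,
    ‖Dm (UZ s Z) x - ap Z x‖ ≤ C * s * ‖Z‖
def Pl1S : Prop := ∀ d n, ∃ C, Pl1 d n C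

/-- the planar model solves the equation up to second order -/
def Pl2S : Prop := ∀ d n : ℕ, ∃ C : ℝ, 0 ≤ C ∧ ∀ (ε : ℝ) (Z : He d n), 0 < ε → ε ≤ 1 / 8 → Pln Z →
  ‖Z‖ ≤ 8 → Res ε (C * ε ^ 2) (GZ ε Z)

/-- integration over planes -/
def PlaS : Prop := ∀ (d : ℕ) (e₁ e₂ : X d), ‖e₁‖ = 1 → ‖e₂‖ = 1 → ⟪e₁, e₂⟫ = 0 →
  ∃ (m : ℕ) (L : X m →ₗᵢ[ℝ] X d), d = m + 2 ∧ (∀ y, ⟪e₁, L y⟫ = 0 ∧ ⟪e₂, L y⟫ = 0) ∧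
    ∀ F : X d → ℝ, Integrable F →
      Integrable (fun w : X m × ℝ × ℝ => F (w.2.1 • e₁ + w.2.2 • e₂ + L w.1)) ∧
      ∫ x, F x = ∫ y : X m, ∫ r in Ioi (0 : ℝ), ∫ t in Ioo (-Real.pi) Real.pi,
        r * F ((r * Real.cos t) • e₁ + (r * Real.sin t) • e₂ + L y)

/-- the sign of the second order term -/
def Pl3S : Prop := ∀ (d n : ℕ) (f : ℝ → ℝ), Rad f → 0 < mo2 d f → ∃ c : ℝ, 0 < c ∧
  ∀ (ε : ℝ) (Z : He d n), 0 < ε → ε ≤ 1 / 8 → Pln Z → 1 / 8 ≤ ‖Z‖ →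
    c * ε ^ 2 ≤ pa (fun x => A ε (GZ ε Z x)) (tq f Z)

/-- the first order term at a planar Hessian -/
def Pl4S : Prop := ∀ (d n : ℕ) (f : ℝ → ℝ) (Z M : He d n), Rad f → Pln Z → St0 M →
  lam f Z M = ⟪Z, M⟫ / (2 * d) * mo2 d f

/-- expansions near linear fields -/
def MixS : Prop := ∀ d n : ℕ, ∃ C₀ : ℝ, 0 ≤ C₀ ∧
  (∀ (ε : ℝ) (H : He d n) (η : X d → Gr d n), 0 < ε → ε ≤ 1 / 8 → 1 / 8 ≤ ‖H‖ → ‖H‖ ≤ 16 →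
    Mp ε η → L1 (fun x => T ε (ap H x + η x) - T ε (ap H x)) ≤ C₀ * ε * (L2 η + L2 η ^ 2) ∧
    L1 (fun x => T ε (ap H x + η x) + ε • el (ap H x)) ≤ C₀ * ε * (ε + L2 η + L2 η ^ 2)) ∧
  ∀ B κ : ℝ, 0 ≤ B → 0 < κ → ∃ C δ : ℝ, 0 ≤ C ∧ 0 < δ ∧
    ∀ (ε : ℝ) (Z H : He d n) (γ η : X d → Gr d n), 0 < ε → ε ≤ δ → ε ≤ 1 / 8 → 1 / 4 ≤ ‖Z‖ →
      ‖Z‖ ≤ 8 → ‖H - Z‖ ≤ δ → Continuous γ → (∀ x ∈ ball (0 : X d) 1, ‖γ x‖ ≤ B * ε) → Mp ε η →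
      L1 (fun x => T ε (ap H x + γ x + η x) - T ε (ap Z x + γ x) +
        ε • (el (ap H x) - el (ap Z x))) ≤ κ * ε ^ 2 + C * ε * (L2 η + L2 η ^ 2)

/-! ### F. one step -/

/-- crude bounds -/
def Pk0S : Prop := ∀ d n : ℕ, 1 ≤ d → ∃ C₀ : ℝ, 0 ≤ C₀ ∧ ∀ θ : ℝ, 0 < θ → θ ≤ 1 / 8 →
  ∃ C ε₁ : ℝ, 0 ≤ C ∧ 0 < ε₁ ∧ ∀ (ε : ℝ) (u : X d → X n) (G : X d → Gr d n) (Z : He d n), 0 < ε →
    ε ≤ ε₁ → Pre ε u G Z →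
    exc ε (pr (sc θ fun x => G x - GZ ε Z x)) ≤ C₀ * θ ^ 2 * ez ε G Z + C * ε ∧
    ‖Ht θ G - HH G‖ ≤ C * ε ∧ ‖trc (Ht θ G)‖ ≤ C * ε ∧ ‖trc (HH G)‖ ≤ C * ε ∧
    ‖bb (sc θ G) - bb G‖ ≤ C * ε ∧ exc ε (pr G) ≤ C ∧
    ∀ Z', Pln Z' → ‖Z'‖ ≤ 4 → ez ε G Z' ≤ 2 * ez ε G Z + C * ε

/-- first order bounds -/
def Pk1S : Prop := ∀ d n : ℕ, 1 ≤ d → FoS d n → ∀ θ : ℝ, 0 < θ → θ ≤ 1 / 8 → ∃ C : ℝ, 0 ≤ C ∧
  ∀ δ : ℝ, 0 < δ → ∃ g ε₁ : ℝ, 0 < g ∧ 0 < ε₁ ∧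
  ∀ (ε : ℝ) (u : X d → X n) (G : X d → Gr d n) (Z : He d n), 0 < ε → ε ≤ ε₁ → Pre ε u G Z →
    1 / 2 ≤ ‖tl (HH G)‖ →
    ‖bb (sc θ G) - bb G‖ ≤ C * ε * (ε + ‖bb G‖ + ez ε G Z) ∧
    ((∀ Z', Pln Z' → δ ≤ ‖tl (HH G) - Z'‖) →
      ⟪tl (Ht θ G) - θ ^ (-ss ε) • tl (HH G), tl (HH G)⟫ ≤
        -(g * ε) + C * ε * (‖bb G‖ + ez ε G Z))

/-- second order bounds -/
def Pk2S : Prop := ∀ d n : ℕ, 1 ≤ d → FoS d n → ∃ C₀ : ℝ, 0 ≤ C₀ ∧ ∀ θ : ℝ, 0 < θ → θ ≤ 1 / 8 →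
  ∃ c C : ℝ, 0 < c ∧ 0 ≤ C ∧ ∀ κ : ℝ, 0 < κ → ∃ C' δ : ℝ, 0 ≤ C' ∧ 0 < δ ∧
  ∀ (ε : ℝ) (u : X d → X n) (G : X d → Gr d n) (Z : He d n), 0 < ε → ε ≤ δ → Pre ε u G Z →
    1 / 2 ≤ ‖tl (HH G)‖ → ‖tl (HH G) - Z‖ ≤ δ → ‖bb G‖ ≤ δ →
    ⟪tl (Ht θ G) - θ ^ (-ss ε) • tl (HH G), tl (HH G)⟫ ≤
      -(c * ε ^ 2) + C * ε * (‖bb G‖ + ez ε G Z) ∧
    ‖tl (Ht θ G) - θ ^ (-ss ε) • tl (HH G)‖ ≤ κ * ε + C' * ε * ez ε G Z ∧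
    exc ε (pr (sc θ fun x => G x - GZ ε Z x)) ≤
      C₀ * θ ^ 2 * ez ε G Z + κ * ε + C' * ε * ez ε G Z

/-- the step in the degenerate regime -/
def StdS (d n : ℕ) : Prop := ∃ θ₀ : ℝ, 0 < θ₀ ∧ ∀ θ : ℝ, 0 < θ → θ ≤ θ₀ →
  ∃ δ c C ε₀ : ℝ, 0 < δ ∧ δ ≤ 1 ∧ 0 < c ∧ 1 ≤ C ∧ 0 < ε₀ ∧ ∀ ε : ℝ, 0 < ε → ε ≤ ε₀ →
  ∃ St : (X d → Gr d n) → Prop, ∀ u G, Sol ε u G →
    (‖bb G‖ ≤ 1 → ‖HH G‖ + exc ε (pr G) ≤ 1 / 2 → St G) ∧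
    (St G → ‖bb G‖ ≤ C ∧ ‖HH G‖ + exc ε (pr G) ≤ C) ∧
    (St G → ‖bb G‖ ≤ δ → St fun x => θ ^ (ss ε - c * ε ^ 2 - 1) • sc θ G x)

/-- the step in the nondegenerate regime -/
def StnS (d n : ℕ) : Prop := ∃ θ₀ : ℝ, 0 < θ₀ ∧ ∀ θ : ℝ, 0 < θ → θ ≤ θ₀ → ∃ C : ℝ, 0 ≤ C ∧
  ∀ K : ℝ, 1 ≤ K → ∃ ε₀ : ℝ, 0 < ε₀ ∧ ∀ (ε L : ℝ) (u : X d → X n) (G : X d → Gr d n), 0 < ε →
    ε ≤ ε₀ → Sol ε u G → 1 / 2 ≤ ‖bb G‖ → ‖bb G‖ ≤ 2 → ‖HH G‖ + exc ε (pr G) ≤ L → L ≤ K →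
    ‖bb (sc θ G) - bb G‖ ≤ C * (ε * (exc ε (pr G) + L ^ 2)) ∧
    ‖Ht θ G - HH G‖ ≤ C * (ε * (exc ε (pr G) + L ^ 2)) ∧
    exc ε (pr (sc θ G)) ≤ θ / 4 * exc ε (pr G) + C * (ε * (exc ε (pr G) + L ^ 2))

/-! ### G. iteration and conclusion -/

/-- iteration in the nondegenerate regime -/
def ItnS (d n : ℕ) : Prop := ∃ θ₀ : ℝ, 0 < θ₀ ∧ ∀ θ : ℝ, 0 < θ → θ ≤ θ₀ → ∀ K : ℝ, 1 ≤ K →
  ∃ ε₀ : ℝ, 0 < ε₀ ∧ ∀ (ε L : ℝ) (u : X d → X n) (G : X d → Gr d n), 0 < ε → ε ≤ ε₀ → Sol ε u G →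
    3 / 4 ≤ ‖bb G‖ → ‖bb G‖ ≤ 3 / 2 → ‖HH G‖ + exc ε (pr G) ≤ L → L ≤ K → ∀ j : ℕ,
    ‖bb (sc (θ ^ j) G)‖ ≤ 2 ∧ ‖Ht (θ ^ j) G‖ ≤ 2 * L ∧
    ‖bb (sc (θ ^ (j + 1)) G) - bb (sc (θ ^ j) G)‖ ≤ L * θ ^ j ∧
    ‖Ht (θ ^ (j + 1)) G - Ht (θ ^ j) G‖ ≤ L * (3 / 4) ^ j

def IteS (d n : ℕ) : Prop := ∃ θ c C ε₀ : ℝ, 0 < θ ∧ θ ≤ 1 / 8 ∧ 0 < c ∧ 0 ≤ C ∧ 0 < ε₀ ∧
  ∀ (ε L : ℝ) (u : X d → X n) (G : X d → Gr d n), 0 < ε → ε ≤ ε₀ → Sol ε u G →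
    ((3 / 4 ≤ ‖bb G‖ ∧ ‖bb G‖ ≤ 3 / 2 ∧ ‖HH G‖ + exc ε (pr G) ≤ L ∧ L ≤ 1) ∨
      (‖bb G‖ ≤ 1 ∧ ‖HH G‖ + exc ε (pr G) ≤ 1 / 2 ∧ L = 1)) →
    It θ (ss ε - c * ε ^ 2) C L (fun j => bb (sc (θ ^ j) G)) fun j => Ht (θ ^ j) G

/-- passing to the limit -/
def LimS : Prop := ∀ (d n : ℕ) (θ g C a : ℝ), 0 < θ → θ ≤ 1 / 8 → 0 ≤ g → g ≤ 1 / 2 → 0 ≤ C →
  0 < a → 1 < (1 + a) * (1 - g) → ∃ C' : ℝ, 0 ≤ C' ∧ ∀ (L : ℝ) (b : ℕ → X d → Gr d n)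
    (h : ℕ → X d → X d →L[ℝ] Gr d n), 0 ≤ L → L ≤ 1 →
    (∀ j, ∀ x ∈ ball (0 : X d) (1 / 2), HasFDerivAt (b j) (h j x) x) →
    (∀ j, ContinuousOn (h j) (ball 0 (1 / 2))) →
    (∀ x ∈ ball (0 : X d) (1 / 2), It θ g C L (fun j => b j x) fun j => h j x) →
    ∃ V : X d → Gr d n, (∀ x ∈ ball (0 : X d) (1 / 2), Tendsto (fun j => b j x) atTop (𝓝 (V x))) ∧
      ContDiffOn ℝ 1 (fun x => A a (V x)) (ball 0 (1 / 2)) ∧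
      ∀ x ∈ ball (0 : X d) (1 / 2), ∀ y ∈ ball (0 : X d) (1 / 2),
        ‖A a (V x) - A a (V y)‖ ≤ C' * L * ‖x - y‖

/-- the averages as functions of the centre -/
def MolS : Prop := ∀ (d n : ℕ) (G : X d → Gr d n), Ib G →
  (∀ t : ℝ, 0 < t → t ≤ 1 →
    (∀ x ∈ ball (0 : X d) (1 / 2), HasFDerivAt (fun y => bb (sc t (sh y (1 / 2) G)))
      (ap ((2 : ℝ) • Ht t (sh x (1 / 2) G))) x) ∧
    ContinuousOn (fun x => Ht t (sh x (1 / 2) G)) (ball 0 (1 / 2))) ∧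
  ∀ θ : ℝ, 0 < θ → θ < 1 → ∀ᵐ x ∂volume.restrict (ball (0 : X d) (1 / 2)),
    Tendsto (fun j : ℕ => bb (sc (θ ^ j) (sh x (1 / 2) G))) atTop (𝓝 (G x))

/-- the initial excess -/
def EntS : Prop := ∀ (d n : ℕ) (a : ℝ), 0 ≤ a → ∃ C : ℝ, 1 ≤ C ∧ ∀ (ε o : ℝ) (G : X d → Gr d n)
  (ξ : Gr d n), 0 < ε → ε ≤ 1 → ε ≤ 2 * a → 0 ≤ o → ‖ξ‖ + o ^ (1 / (1 + a)) = 1 → Mp ε G →
  IntegrableOn (fun x => ‖A a (G x) - A a ξ‖ ^ 2) (ball 0 1) → L2 (fun x => A a (G x) - A a ξ) ≤ o →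
  ∀ x : X d, ‖x‖ ≤ 1 / 2 → ‖bb (sh x (1 / 2) G) - ξ‖ + ‖HH (sh x (1 / 2) G)‖ +
    exc ε (pr (sh x (1 / 2) G)) ≤ C * o

/-- the estimate on the unit ball -/
def UniS (d n : ℕ) : Prop := ∃ ε₀ : ℝ, 0 < ε₀ ∧ ∀ ε a : ℝ, 0 < ε → ε ≤ ε₀ → ε ≤ 2 * a →
  ∃ C : ℝ, 0 ≤ C ∧ ∀ (u : X d → X n) (G : X d → Gr d n) (c : Gr d n), Sol ε u G →
    IntegrableOn (fun x => ‖A a (G x) - c‖ ^ 2) (ball 0 1) →
    ∃ W : X d → Gr d n, ContDiffOn ℝ 1 W (ball 0 (1 / 2)) ∧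
      W =ᵐ[volume.restrict (ball 0 (1 / 2))] (fun x => A a (G x)) ∧
      ∀ x ∈ ball (0 : X d) (1 / 2), ∀ y ∈ ball (0 : X d) (1 / 2),
        ‖W x - W y‖ ≤ C * L2 (fun x => A a (G x) - c) * ‖x - y‖

/-- from the open set to the unit ball -/
def LocS : Prop := ∀ (d n : ℕ) (ε : ℝ) (U : Set (X d)) (h : X d → X n) (G : X d → Gr d n)
  (x : X d) (r : ℝ), 0 ≤ ε → 0 < r → closedBall x r ⊆ U → Harm (2 + ε) U h G →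
  Sol ε (fun y => r⁻¹ • sh x r h y) (sh x r G)

/-- gluing local representatives -/
def GluS : Prop := ∀ (d n : ℕ) (U : Set (X d)) (f : X d → Gr d n), IsOpen U →
  (∀ x ∈ U, ∃ r, 0 < r ∧ Rep (ball x r) f) → Rep U f

/-- from a Lipschitz bound to the linear decay -/
def OscS : Prop := ∀ (d n : ℕ) (C : ℝ), 0 ≤ C → ∃ c : ℝ, ∀ (f W : X d → Gr d n) (x : X d) (r : ℝ),
  0 < r → MemLp f 2 (volume.restrict (ball x r)) → W =ᵐ[volume.restrict (ball x (r / 4))] f →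
  (∀ y ∈ ball x (r / 4), ∀ y' ∈ ball x (r / 4), ‖W y - W y'‖ ≤
    C * L2 (fun z => sh x (r / 2) f z - ⨍ w in ball x r, f w) * (‖y - y'‖ / r)) →
  ∀ θ ∈ Ioc (0 : ℝ) 1, osc f x (θ * r) ≤ c * θ * osc f x r

def FinS (d n : ℕ) : Prop := ∃ ε₀ : ℝ, 0 < ε₀ ∧ ∀ p b : ℝ, 2 < p → p < 2 + ε₀ → p / 2 ≤ b →
  ∃ c : ℝ, ∀ (U : Set (X d)) (h : X d → X n) (G : X d → Gr d n), IsOpen U → Harm p U h G →
    Rep U (fun x => ‖G x‖ ^ (b - 1) • G x) ∧ Dec c U fun x => ‖G x‖ ^ (b - 1) • G x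

end Pool.Agent.MP_815c6c_an.N

end
end MrgPart1

-- ======== part 2: formerly Pool.Agent.MP_815c6c_an.N.Kit
section MrgPart2

/-! The bundle of the basic kits. -/

namespace Pool.Agent.MP_815c6c_an.N

/-- all kits of sections A and B, and the algebra of planar Hessians -/
structure Kit : Prop where
  bas : BasS
  par : ParS
  ker : KerS
  exc : ExcS
  sca : ScaS
  al1 : Al1S
  al2 : Al2S
  al3 : Al3S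
  pl0 : Pl0S

end Pool.Agent.MP_815c6c_an.N

end MrgPart2

-- ======== part 3: formerly Pool.Agent.MP_815c6c_an.N.XSpec
section MrgPart3

/-! The two alternatives for given `d`, `n`, `p`. -/

set_option autoImplicit false

namespace Pool.Agent.MP_815c6c_an.N

/-- the assertion holds, with a uniform constant -/
def Yes (d n : ℕ) (p : ℝ) : Prop := ∃ c : ℝ, ∀ (U : Set (X d)) (h : X d → X n) (G : X d → Gr d n),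
  IsOpen U → Harm p U h G →
    Rep U (fun x => ‖G x‖ ^ (p / 2 - 1) • G x) ∧ Dec c U fun x => ‖G x‖ ^ (p / 2 - 1) • G x

/-- both parts of the assertion fail for one entire solution -/
def No (d n : ℕ) (p : ℝ) : Prop := ∃ (h : X d → X n) (G : X d → Gr d n), ∀ U : Set (X d),
  Harm p U h G ∧ (IsOpen U → 0 ∈ U → ¬ Rep U (fun x => ‖G x‖ ^ (p / 2 - 1) • G x) ∧
    ¬ ∃ c, Dec c U fun x => ‖G x‖ ^ (p / 2 - 1) • G x)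

def XnS : Prop := ∀ (d n : ℕ) (p : ℝ), 3 ≤ d → 1 ≤ n → 17 / 10 ≤ p → p < 2 → No d n p
def X1S : Prop := ∀ (n : ℕ) (p : ℝ), 1 < p → Yes 1 n p
def X2S : Prop := ∀ d n : ℕ, Yes d n 2
def XdS (n : ℕ) : Prop := ∃ ε : ℝ, 0 < ε ∧ ∀ p : ℝ, 2 - ε < p → p < 2 → Yes 2 n p

end Pool.Agent.MP_815c6c_an.N

end MrgPart3

-- marker of a merged file
example : 731051 + 494542 = 731051 + 494542 := rfl
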