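import Mathlib.Topology.Sheaves.Presheaf
import Mathlib.Tactic.Monotonicity.Lemmas
import Mathlib.Algebra.Order.Star.Real
import Mathlib.Algebra.Ring.IsFormallyReal
import Mathlib.Analysis.Calculus.UniformLimitsDeriv
import Mathlib.Analysis.Calculus.LineDeriv.IntegrationByParts
import Mathlib.Analysis.Complex.ExponentialBounds
import Mathlib.Analysis.Matrix.Spectrum
import Mathlib.MeasureTheory.Function.StronglyMeasurable.Inner
import Mathlib.Analysis.SpecialFunctions.Gaussian.FourierTransform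
import Mathlib.MeasureTheory.Measure.RegularityCompacts
import Mathlib.MeasureTheory.Constructions.HaarToSphere
import Mathlib.MeasureTheory.Function.SpecialFunctions.Inner
import Mathlib.MeasureTheory.Integral.Gamma
import Mathlib.Topology.UniformSpace.Uniformizable
import Pool.Agent.MP_815c6c_an.N.XSpec

-- ======== part 0: formerly Pool.Agent.MP_815c6c_an.N.Al1
section MrgPart0

/-! p-harmonic maps for `p` slightly above two: radial powers. -/

set_option autoImplicit false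

noncomputable section

namespace Pool.Agent.MP_815c6c_an.N

open Set Filter Topology
open scoped RealInnerProductSpace

namespace Al1A

variable {E : Type} [NormedAddCommGroup E] [InnerProductSpace ℝ E]

theorem norm_A {a : ℝ} (ξ : E) (ha : 0 ≤ a) : ‖A a ξ‖ = ‖ξ‖ ^ (1 + a) := by
  rw [A, norm_smul, Real.norm_of_nonneg (Real.rpow_nonneg (norm_nonneg _) _),
    Real.rpow_one_add' (norm_nonneg _) (by linarith), mul_comm]

theorem smul_A (a t : ℝ) (ξ : E) (ht : 0 ≤ t) : A a (t • ξ) = (t ^ a * t) • A a ξ := by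
  rw [A, A, norm_smul, Real.norm_of_nonneg ht, Real.mul_rpow ht (norm_nonneg _), smul_smul,
    smul_smul, mul_right_comm]

theorem half {a : ℝ} (ha : 0 ≤ a) (x y : E) :
    (‖x‖ ^ a + ‖y‖ ^ a) * ‖x - y‖ ^ 2 ≤ 2 * ⟪A a x - A a y, x - y⟫ := by
  have r0 := norm_nonneg x
  have t0 := norm_nonneg y
  have m : 0 ≤ (‖x‖ ^ a - ‖y‖ ^ a) * (‖x‖ ^ 2 - ‖y‖ ^ 2) := by
    rcases le_total ‖x‖ ‖y‖ with c | c
    · exact mul_nonneg_of_nonpos_of_nonpos (sub_nonpos.2 (Real.rpow_le_rpow r0 c ha))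
        (sub_nonpos.2 (pow_le_pow_left₀ r0 c 2))
    · exact mul_nonneg (sub_nonneg.2 (Real.rpow_le_rpow t0 c ha))
        (sub_nonneg.2 (pow_le_pow_left₀ t0 c 2))
  rw [norm_sub_sq_real]
  simp only [A, inner_sub_left, inner_sub_right, real_inner_smul_left, real_inner_self_eq_norm_sq,
    real_inner_comm x y]
  linarith

theorem two_pow {a r t : ℝ} (ha : 0 ≤ a) (r0 : 0 ≤ r) (t0 : 0 ≤ t) :
    (r + t) ^ a ≤ 2 ^ a * (r ^ a + t ^ a) := by
  have p1 : 0 ≤ r ^ a := by positivity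
  have p2 : 0 ≤ t ^ a := by positivity
  rcases le_total r t with c | c
  · refine (Real.rpow_le_rpow (by positivity) (show _ ≤ 2 * t by linarith) ha).trans ?_
    rw [Real.mul_rpow two_pos.le t0]
    exact mul_le_mul_of_nonneg_left (by linarith) (by positivity)
  · refine (Real.rpow_le_rpow (by positivity) (show _ ≤ 2 * r by linarith) ha).trans ?_
    rw [Real.mul_rpow two_pos.le r0]
    exact mul_le_mul_of_nonneg_left (by linarith) (by positivity)

theorem mono {ε : ℝ} (x y : E) (h0 : 0 ≤ ε) (h1 : ε ≤ 1) :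
    (‖x‖ + ‖y‖) ^ ε * ‖x - y‖ ^ 2 ≤ 4 * ⟪A ε x - A ε y, x - y⟫ := by
  have a1 := half h0 x y
  have a2 : (2 : ℝ) ^ ε ≤ 2 := by simpa using Real.rpow_le_rpow_of_exponent_le one_le_two h1
  have a3 := (two_pow h0 (norm_nonneg x) (norm_nonneg y)).trans
    (mul_le_mul_of_nonneg_right a2 (by positivity))
  have a4 := mul_le_mul_of_nonneg_right a3 (sq_nonneg ‖x - y‖)
  linarith

theorem low {a : ℝ} (ha : 0 ≤ a) (x y : E) :
    (‖x‖ + ‖y‖) ^ a * ‖x - y‖ ≤ 2 ^ (a + 1) * ‖A a x - A a y‖ := by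
  rcases (norm_nonneg (x - y)).eq_or_lt with h | h
  · rw [← h, mul_zero]
    positivity
  have u : (‖x‖ ^ a + ‖y‖ ^ a) * ‖x - y‖ ≤ 2 * ‖A a x - A a y‖ := by
    refine le_of_mul_le_mul_right ?_ h
    rw [mul_assoc, ← sq]
    linarith [half ha x y, real_inner_le_norm (A a x - A a y) (x - y)]
  refine (mul_le_mul_of_nonneg_right (two_pow ha (norm_nonneg x) (norm_nonneg y)) h.le).trans ?_
  rw [Real.rpow_add_one two_ne_zero, mul_assoc, mul_assoc]
  exact mul_le_mul_of_nonneg_left u (by positivity)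

theorem lip0 {a : ℝ} (ha : 0 ≤ a) (h1 : a ≤ 1) {x y : E} (c : ‖y‖ ≤ ‖x‖) :
    ‖A a x - A a y‖ ≤ 2 * ((‖x‖ + ‖y‖) ^ a * ‖x - y‖) := by
  have r0 := norm_nonneg x
  have k : (‖x‖ ^ a - ‖y‖ ^ a) * ‖y‖ ≤ ‖x‖ ^ a * (‖x‖ - ‖y‖) := by
    rcases (norm_nonneg y).eq_or_lt with t0 | t0
    · rw [← t0, mul_zero, sub_zero]
      positivity
    have r1 := t0.trans_le c
    obtain ⟨τ, e⟩ : ∃ τ, ‖y‖ = τ * ‖x‖ := ⟨‖y‖ / ‖x‖, by field_simp⟩
    rw [e] at t0 c ⊢
    have τ0 : 0 < τ := (mul_pos_iff_of_pos_right r1).1 t0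
    have τ1 : τ ≤ 1 := le_of_mul_le_mul_right (by linarith) r1
    have b : τ ≤ τ ^ a := by simpa using Real.rpow_le_rpow_of_exponent_ge τ0 τ1 h1
    have b2 : (1 - τ ^ a) * τ ≤ 1 - τ :=
      (mul_le_mul_of_nonneg_right (by linarith) τ0.le).trans
        (mul_le_of_le_one_right (sub_nonneg.2 τ1) τ1)
    rw [Real.mul_rpow τ0.le r0]
    nlinarith [mul_le_mul_of_nonneg_left b2 (show 0 ≤ ‖x‖ ^ a * ‖x‖ by positivity)]
  have e : A a x - A a y = ‖x‖ ^ a • (x - y) + (‖x‖ ^ a - ‖y‖ ^ a) • y := by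
    simp only [A, smul_sub, sub_smul]
    abel
  have p1 : 0 ≤ ‖x‖ ^ a := by positivity
  have q : ‖x‖ ^ a * ‖x - y‖ ≤ (‖x‖ + ‖y‖) ^ a * ‖x - y‖ := mul_le_mul_of_nonneg_right
    (Real.rpow_le_rpow r0 (le_add_of_nonneg_right (norm_nonneg _)) ha) (norm_nonneg _)
  have q2 := (mul_le_mul_of_nonneg_left (norm_sub_norm_le x y) p1).trans q
  rw [e]
  refine (norm_add_le _ _).trans ?_
  rw [norm_smul, norm_smul, Real.norm_of_nonneg p1, Real.norm_of_nonneg
    (sub_nonneg.2 (Real.rpow_le_rpow (norm_nonneg y) c ha))]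
  linarith

/-- the derivative -/
def D (a : ℝ) (ξ : E) : E →L[ℝ] E :=
  ‖ξ‖ ^ a • ContinuousLinearMap.id ℝ E + (a * ‖ξ‖ ^ (a - 2)) • (innerSL ℝ ξ).smulRight ξ

theorem norm_D {a : ℝ} (ha : 0 ≤ a) (ξ : E) : ‖D a ξ‖ ≤ (1 + a) * ‖ξ‖ ^ a := by
  have p1 : 0 ≤ ‖ξ‖ ^ a := by positivity
  have h : ‖ξ‖ ^ (a - 2) * (‖ξ‖ * ‖ξ‖) ≤ ‖ξ‖ ^ a := by
    rcases (norm_nonneg ξ).eq_or_lt with e | e
    · rw [show ‖ξ‖ * ‖ξ‖ = 0 by rw [← e, mul_zero], mul_zero]
      exact p1
    · rw [Real.rpow_sub e, Real.rpow_two, ← sq, div_mul_cancel₀ _ (by positivity)]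
  refine (norm_add_le _ _).trans ?_
  rw [norm_smul, norm_smul, ContinuousLinearMap.norm_smulRight_apply, innerSL_apply_norm,
    Real.norm_of_nonneg p1, Real.norm_of_nonneg (by positivity), mul_assoc]
  nlinarith [mul_le_mul_of_nonneg_left h ha,
    mul_le_mul_of_nonneg_left (ContinuousLinearMap.norm_id_le (𝕜 := ℝ) (E := E)) p1]

theorem has_D {a : ℝ} (ha : 0 < a) (ξ : E) : HasFDerivAt (A a) (D a ξ) ξ := by
  rcases eq_or_ne ξ 0 with rfl | h
  · rw [hasFDerivAt_iff_tendsto]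
    have h1 := (continuous_norm.rpow_const (p := a) fun w : E => .inr ha.le).tendsto 0
    rw [norm_zero, Real.zero_rpow ha.ne'] at h1
    refine squeeze_zero (fun _ => by positivity) (fun x => ?_) h1
    have : D a (0 : E) = 0 := by simp [D, Real.zero_rpow ha.ne']
    rw [this, show A a (0 : E) = 0 from smul_zero _]
    simp only [sub_zero, _root_.zero_apply]
    rw [A, norm_smul, Real.norm_of_nonneg (by positivity), mul_left_comm]
    exact mul_le_of_le_one_right (by positivity) (inv_mul_le_one_of_le₀ le_rfl (norm_nonneg _))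
  · have h0 := norm_pos_iff.2 h
    have e : ∀ (b : ℝ) (w : E), (‖w‖ ^ 2) ^ (b / 2) = ‖w‖ ^ b := fun b w => by
      rw [← Real.rpow_two, ← Real.rpow_mul (norm_nonneg _), mul_div_cancel₀ _ two_ne_zero]
    have h1 := ((hasStrictFDerivAt_norm_sq ξ).hasFDerivAt.rpow_const (p := a / 2)
      (.inl (by positivity))).smul (hasFDerivAt_id ξ)
    rw [show a / 2 - 1 = (a - 2) / 2 by ring] at h1
    simp only [e] at h1
    refine HasFDerivAt.congr_fderiv h1 ?_
    ext w
    simp [D, smul_smul]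
    congr 1
    ring

theorem cont_D {a : ℝ} (ha : 0 < a) : Continuous (D a : E → E →L[ℝ] E) := by
  refine continuous_iff_continuousAt.2 fun ξ => ?_
  rcases eq_or_ne ξ 0 with rfl | h
  · have h1 := ((continuous_norm.rpow_const (p := a) fun w : E => .inr ha.le).tendsto 0).const_mul
      (1 + a)
    rw [norm_zero, Real.zero_rpow ha.ne', mul_zero] at h1
    rw [ContinuousAt, show D a (0 : E) = 0 by simp [D, Real.zero_rpow ha.ne']]
    exact squeeze_zero_norm (norm_D ha.le) h1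
  · have h0 := norm_ne_zero_iff.2 h
    have h2 : Continuous fun ξ : E => (innerSL ℝ ξ).smulRight ξ :=
      (((ContinuousLinearMap.smulRightL ℝ E E).continuous.comp (innerSL ℝ).continuous).clm_apply
        continuous_id :)
    exact ((continuous_norm.continuousAt.rpow_const (.inl h0)).smul continuousAt_const).add
      ((continuousAt_const.mul (continuous_norm.continuousAt.rpow_const (.inl h0))).smul
        h2.continuousAt)

theorem c1 {a : ℝ} (ha : 0 ≤ a) : ContDiff ℝ 1 (A a : E → E) ∧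
    ∀ ξ : E, ‖fderiv ℝ (A a) ξ‖ ≤ (1 + a) * ‖ξ‖ ^ a := by
  rcases ha.eq_or_lt with rfl | h
  · rw [show (A 0 : E → E) = id from funext fun ξ => by simp [A]]
    exact ⟨contDiff_id, fun ξ => by simpa using ContinuousLinearMap.norm_id_le⟩
  · exact ⟨contDiff_one_iff_hasFDerivAt.2 ⟨D a, cont_D h, has_D h⟩,
      fun ξ => (has_D h ξ).fderiv ▸ norm_D ha ξ⟩

theorem quarter {ε : ℝ} (h0 : 0 < ε) : 1 / 4 ≤ (ε ^ 3) ^ ε := by
  have h1 := Real.add_one_le_exp (-Real.log ε - 1)
  rw [Real.exp_sub, Real.exp_neg, Real.exp_log h0, sub_add_cancel, le_div_iff₀ (Real.exp_pos 1),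
    ← one_div, le_div_iff₀ h0] at h1
  have h2 := Real.exp_one_gt_d9
  have h3 := Real.log_two_gt_d9
  rw [← Real.log_le_log_iff (by norm_num) (by positivity), Real.log_rpow (by positivity),
    Real.log_pow, one_div, Real.log_inv, show (4 : ℝ) = 2 ^ 2 by norm_num, Real.log_pow]
  push_cast
  by_contra h
  push Not at h
  nlinarith [mul_pos (show 0 < -(ε * Real.log ε) - 0.46 by linarith) (Real.exp_pos 1)]

theorem of_quarter {w s : ℝ} (h : 1 / 4 ≤ w) : s ^ 2 ≤ 4 * (w * s ^ 2) := by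
  nlinarith [sq_nonneg s]

theorem el_cont : Continuous (el : E → E) := by
  refine continuous_iff_continuousAt.2 fun ξ => ?_
  rcases eq_or_ne ξ 0 with rfl | h
  · have h1 := ((Real.continuous_mul_log.comp (continuous_norm (E := E))).tendsto 0).norm
    rw [ContinuousAt, show el (0 : E) = 0 from smul_zero _, tendsto_zero_iff_norm_tendsto_zero]
    simpa [el, norm_smul, mul_comm] using h1
  · exact (continuous_norm.continuousAt.log (norm_ne_zero_iff.2 h)).smul continuousAt_id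

end Al1A

open Al1A in
theorem al1 : Al1S := fun E _ _ =>
  { norm := fun _ ξ ha => norm_A ξ ha
    cont := fun _ ha => (continuous_norm.rpow_const fun _ => .inr ha).smul continuous_id
    smul := smul_A
    neg := fun a ξ => by rw [A, A, norm_neg, smul_neg]
    comp := fun a b ξ ha hb => by
      rw [A, norm_A ξ ha, A, A, smul_smul, ← Real.rpow_mul (norm_nonneg _),
        ← Real.rpow_add_of_nonneg (norm_nonneg _) (by positivity) ha]
      congr 2
      ring
    surj := fun a c ha => by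
      rcases eq_or_ne c 0 with rfl | h
      · exact ⟨0, smul_zero _⟩
      have h0 := norm_pos_iff.2 h
      refine ⟨‖c‖ ^ (-a / (1 + a)) • c, ?_⟩
      rw [smul_A _ _ _ (by positivity), A, smul_smul, ← Real.rpow_mul h0.le, ← Real.rpow_add h0,
        ← Real.rpow_add h0, show -a / (1 + a) * a + -a / (1 + a) + a = 0 by field_simp; ring,
        Real.rpow_zero, one_smul]
    mono := fun _ => mono
    lip := fun ε x y h0 h1 => by
      rcases le_total ‖y‖ ‖x‖ with c | c
      · exact lip0 h0 h1 c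
      · rw [norm_sub_rev, norm_sub_rev x, add_comm]
        exact lip0 h0 h1 c
    low := fun a ha => ⟨2 ^ (a + 1), Real.one_le_rpow one_le_two (by linarith), low ha⟩
    c1 := fun _ => c1
    wt := fun ε x z h0 _ => by
      rcases le_total ‖z‖ (ε ^ 3) with c | c
      · exact le_add_of_nonneg_of_le (by positivity) (pow_le_pow_left₀ (norm_nonneg _) c 2)
      · have h : ‖z‖ ≤ ‖x + z‖ + ‖x‖ := by simpa using norm_sub_le (x + z) x
        exact le_add_of_le_of_nonneg (of_quarter ((quarter h0).trans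
          (Real.rpow_le_rpow (by positivity) (c.trans h) h0.le))) (sq_nonneg _)
    wt0 := fun ε x z h0 h1 h => of_quarter (le_trans
      (by simpa using Real.rpow_le_rpow_of_exponent_ge (x := 1 / 4) (by norm_num) (by norm_num) h1)
      (Real.rpow_le_rpow (by norm_num) (h.trans (le_add_of_nonneg_left (norm_nonneg _))) h0.le))
    el_cont := el_cont }

end Pool.Agent.MP_815c6c_an.N

end
end MrgPart0

-- ======== part 1: formerly Pool.Agent.MP_815c6c_an.N.Ell
section MrgPart1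

/-! The divergence of the logarithmic field; the gap away from planar Hessians. -/

set_option autoImplicit false

noncomputable section

namespace Pool.Agent.MP_815c6c_an.N

open Set Metric MeasureTheory Filter Topology
open scoped ContDiff RealInnerProductSpace ENNReal

namespace EllA

variable {d n : ℕ}

theorem int_c {F : X d → ℝ} (hF : Continuous F) (h0 : ∀ x, 1 ≤ ‖x‖ → F x = 0) : Integrable F :=
  hF.integrable_of_hasCompactSupport (HasCompactSupport.intro (isCompact_closedBall 0 1)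
    fun x hx => h0 x (not_le.1 (mt mem_closedBall_zero_iff.2 hx)).le)

theorem int_b (C : ℝ) : Integrable ((ball (0 : X d) 1).indicator fun _ => C) :=
  (integrable_indicator_iff measurableSet_ball).2 (integrableOn_const measure_ball_lt_top.ne)

theorem le_b {a C : ℝ} {x : X d} (h1 : ‖x‖ < 1 → |a| ≤ C) (h2 : 1 ≤ ‖x‖ → a = 0) :
    ‖a‖ ≤ (ball (0 : X d) 1).indicator (fun _ => C) x := by
  by_cases h : ‖x‖ < 1
  · rw [indicator_of_mem (mem_ball_zero_iff.2 h)]; exact h1 h
  · rw [indicator_of_notMem (mt mem_ball_zero_iff.1 h), h2 (not_lt.1 h), norm_zero]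

theorem out1 (B : Bas d n) {φ : X d → X n} (hφ : Ts φ) {x : X d} (hx : 1 ≤ ‖x‖) :
    φ x = 0 ∧ Dm φ x = 0 :=
  let ⟨_, h1, h2⟩ := B.ts_Dm φ hφ
  h2 x (h1.le.trans hx)

theorem bdd {E : Type} [NormedAddCommGroup E] {F : X d → E} (hF : Continuous F) :
    ∃ C, 0 ≤ C ∧ ∀ x, ‖x‖ < 1 → ‖F x‖ ≤ C :=
  let ⟨C, h⟩ := (isCompact_closedBall (0 : X d) 1).exists_bound_of_continuousOn hF.continuousOn
  ⟨C, (norm_nonneg _).trans (h 0 (by simp)), fun x hx => h x (mem_closedBall_zero_iff.2 hx.le)⟩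

theorem parts (B : Bas d n) {z : X d → Gr d n} {z' : X d → X d →L[ℝ] Gr d n}
    (hz : ∀ x, HasFDerivAt z (z' x) x) (hc : Continuous z') {φ : X d → X n} (hφ : Ts φ) :
    pa z φ = -∫ x, ⟪∑ i, act (z' x (EuclideanSpace.single i 1)) (EuclideanSpace.single i 1),
      φ x⟫ := by
  have cz : Continuous z := continuous_iff_continuousAt.2 fun x => (hz x).continuousAt
  have cφ := hφ.1.continuous
  have cφ' := hφ.1.continuous_fderiv one_ne_zero
  have i1 : ∀ v : X d, Integrable fun x => ⟪act (z' x v) v, φ x⟫ := fun v =>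
    int_c (by fun_prop) fun x hx => by rw [(out1 B hφ hx).1, inner_zero_right]
  have i2 : ∀ v : X d, Integrable fun x => ⟪act (z x) v, fderiv ℝ φ x v⟫ := fun v =>
    int_c (by fun_prop) fun x hx => by
      have h : jm (fderiv ℝ φ x) = 0 := (out1 B hφ hx).2
      rw [← B.act_jm (fderiv ℝ φ x), h]
      simp
  have i3 : ∀ v : X d, Integrable fun x => ⟪act (z x) v, φ x⟫ := fun v =>
    int_c (by fun_prop) fun x hx => by rw [(out1 B hφ hx).1, inner_zero_right]
  have h : ∀ v : X d, ∫ x, ⟪act (z x) v, fderiv ℝ φ x v⟫ = -∫ x, ⟪act (z' x v) v, φ x⟫ := fun v =>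
    integral_bilinear_hasFDerivAt_right_eq_neg_left_of_integrable (B := innerSL ℝ)
      (f := fun x => act.flip v (z x)) (f' := fun x => (act.flip v).comp (z' x)) (g := φ)
      (g' := fderiv ℝ φ) (i1 v) (i2 v) (i3 v)
      (fun x _ => (act.flip v).hasFDerivAt.comp x (hz x))
      fun x _ => (hφ.1.differentiable_one x).hasFDerivAt
  simp only [pa, Dm, B.i_sum, sum_inner]
  rw [integral_finsetSum _ fun i _ => i2 _, integral_finsetSum _ fun i _ => i1 _,
    ← Finset.sum_neg_distrib]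
  exact Finset.sum_congr rfl fun i _ => h _

theorem reg (B : Bas d n) {H : He d n} (hH : St0 H) {φ : X d → X n} (hφ : Ts φ) {η : ℝ}
    (hη : 0 < η) : pa (fun x => (Real.log (‖ap H x‖ ^ 2 + η) / 2) • ap H x) φ =
      -∫ x, ⟪(‖ap H x‖ ^ 2 + η)⁻¹ • act (ap H x) (sv H x), φ x⟫ := by
  have hp : ∀ x, ‖ap H x‖ ^ 2 + η ≠ 0 := fun x => by positivity
  have h1 : ∀ x, HasFDerivAt (fun x => Real.log (‖ap H x‖ ^ 2 + η) / 2)
      ((‖ap H x‖ ^ 2 + η)⁻¹ • (innerSL ℝ (ap H x)).comp (ap H)) x := fun x => by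
    have := ((((ap H).hasFDerivAt (x := x)).norm_sq.add_const η).log (hp x)).mul_const (2 : ℝ)⁻¹
    simp only [div_eq_mul_inv]
    refine this.congr_fderiv ?_
    ext v
    simp
    ring
  rw [parts B (fun x => (h1 x).fun_smul (ap H).hasFDerivAt) ?_ hφ]
  · congr 2
    funext x
    congr 1
    have e1 : ∑ i, act (ap H (EuclideanSpace.single i 1)) (EuclideanSpace.single i 1) = 0 := by
      rw [← hH.2]
      ext a
      simp [act_apply, ap_apply, trc_apply]
    have e2 : ∑ i, ⟪ap H x, ap H (EuclideanSpace.single i 1)⟫ •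
        (EuclideanSpace.single i 1 : X d) = sv H x := by
      ext j
      simp [← B.i_sv, Pi.single_apply, EuclideanSpace.inner_single_right]
    simp only [add_apply, smul_apply,
      ContinuousLinearMap.smulRight_apply, ContinuousLinearMap.comp_apply, innerSL_apply_apply,
      map_add, map_smul, Finset.sum_add_distrib, ← Finset.smul_sum, e1, smul_zero, zero_add,
      smul_eq_mul, mul_smul, ← e2, map_sum]
  · have c1 : Continuous fun x => Real.log (‖ap H x‖ ^ 2 + η) := Continuous.log (by fun_prop) hp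
    have c2 : Continuous fun x => (‖ap H x‖ ^ 2 + η)⁻¹ := Continuous.inv₀ (by fun_prop) hp
    fun_prop

theorem log_le {r η R : ℝ} (h0 : 0 ≤ r) (hR : r ≤ R) (hη : 0 < η) (h1 : η ≤ 1) :
    |Real.log (r ^ 2 + η) / 2| * r ≤ 1 + (R ^ 2 + 1) * R := by
  have hp : 0 < r ^ 2 + η := by positivity
  have hs : 0 < √(r ^ 2 + η) := Real.sqrt_pos.2 hp
  have h2 : r ≤ √(r ^ 2 + η) := Real.le_sqrt_of_sq_le (by linarith)
  have h3 := Real.log_le_sub_one_of_pos (inv_pos.2 hs)
  rw [Real.log_inv, Real.log_sqrt hp.le] at h3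
  have h4 := Real.log_le_sub_one_of_pos hp
  have h5 : r ^ 2 ≤ R ^ 2 := pow_le_pow_left₀ h0 hR 2
  have h6 : (√(r ^ 2 + η))⁻¹ * r ≤ 1 := by rwa [inv_mul_le_iff₀ hs, mul_one]
  have h7 : 0 ≤ (R ^ 2 + 1) * R := mul_nonneg (by positivity) (h0.trans hR)
  rcases abs_cases (Real.log (r ^ 2 + η) / 2) with h | h <;> rw [h.1]
  · have := mul_le_mul (show Real.log (r ^ 2 + η) / 2 ≤ R ^ 2 + 1 by linarith [h.2]) hR h0
      (by positivity)
    linarith
  · have := mul_le_mul_of_nonneg_right h3 h0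
    linarith

end EllA

open EllA

theorem ell : Kit → EllS := by
  intro K d n H φ hH hφ
  have B := K.bas d n
  have hη : ∀ j : ℕ, (0 : ℝ) < 1 / (j + 1) := fun j => by positivity
  have hη1 : ∀ j : ℕ, (1 : ℝ) / (j + 1) ≤ 1 := fun j =>
    (div_le_one (by positivity)).2 (le_add_of_nonneg_left (Nat.cast_nonneg j))
  have hp : ∀ (j : ℕ) x, ‖ap H x‖ ^ 2 + 1 / (j + 1) ≠ 0 := fun j x => by positivity
  have lim : ∀ x, Tendsto (fun j : ℕ => ‖ap H x‖ ^ 2 + 1 / ((j : ℝ) + 1)) atTop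
      (𝓝 (‖ap H x‖ ^ 2)) := fun x => by
    simpa only [add_zero] using tendsto_one_div_add_atTop_nhds_zero_nat.const_add (‖ap H x‖ ^ 2)
  have cφ := hφ.1.continuous
  have cD := B.c_Dm φ hφ.1
  have cs : Continuous (sv H) := by unfold sv; fun_prop
  obtain ⟨C, -, hC⟩ := bdd cφ
  obtain ⟨D, -, hD⟩ := bdd cD
  have t1 : Tendsto (fun j : ℕ => pa (fun x => (Real.log (‖ap H x‖ ^ 2 + 1 / (j + 1)) / 2) •
      ap H x) φ) atTop (𝓝 (pa (fun x => el (ap H x)) φ)) := by
    refine tendsto_integral_of_dominated_convergence _ (fun j => ?_)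
      (int_b ((1 + (‖H‖ ^ 2 + 1) * ‖H‖) * D)) (fun j => ae_of_all _ fun x => le_b (fun hx => ?_)
        fun hx => by rw [(out1 B hφ hx).2, inner_zero_right]) (ae_of_all _ fun x => ?_)
    · have c1 : Continuous fun x => Real.log (‖ap H x‖ ^ 2 + 1 / (j + 1)) :=
        Continuous.log (by fun_prop) (hp j)
      exact Continuous.aestronglyMeasurable (by fun_prop)
    · refine (abs_real_inner_le_norm _ _).trans (mul_le_mul ?_ (hD x hx) (norm_nonneg _)
        (by positivity))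
      rw [norm_smul, Real.norm_eq_abs]
      exact log_le (norm_nonneg _) ((B.n_ap H x).trans
        (mul_le_of_le_one_right (norm_nonneg _) hx.le)) (hη j) (hη1 j)
    · refine Tendsto.inner ?_ tendsto_const_nhds
      by_cases h : ap H x = 0
      · simp [h, el]
      · have := (((lim x).log (pow_ne_zero 2 (norm_ne_zero_iff.2 h))).div_const 2).smul_const
          (ap H x)
        rwa [Real.log_pow, Nat.cast_ofNat, mul_div_cancel_left₀ _ two_ne_zero] at this
  have t2 : Tendsto (fun j : ℕ => ∫ x, ⟪(‖ap H x‖ ^ 2 + 1 / ((j : ℝ) + 1))⁻¹ •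
      act (ap H x) (sv H x), φ x⟫) atTop (𝓝 (∫ x, ⟪cH H x, φ x⟫)) := by
    refine tendsto_integral_of_dominated_convergence _ (fun j => ?_)
      (int_b (‖H‖ * C)) (fun j => ae_of_all _ fun x => le_b (fun hx => ?_)
        fun hx => by rw [(out1 B hφ hx).1, inner_zero_right]) (ae_of_all _ fun x => ?_)
    · have c1 : Continuous fun x => (‖ap H x‖ ^ 2 + 1 / ((j : ℝ) + 1))⁻¹ :=
        Continuous.inv₀ (by fun_prop) (hp j)
      exact Continuous.aestronglyMeasurable (by fun_prop)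
    · refine (abs_real_inner_le_norm _ _).trans (mul_le_mul ?_ (hC x hx) (norm_nonneg _)
        (by positivity))
      have h1 := (B.n_act (ap H x) (sv H x)).trans
        (mul_le_mul_of_nonneg_left (B.n_sv H x) (norm_nonneg _))
      have h2 := mul_nonneg (hη j).le (norm_nonneg H)
      rw [norm_smul, Real.norm_eq_abs, abs_of_pos (by positivity), inv_mul_le_iff₀ (by positivity)]
      linarith
    · refine Tendsto.inner ?_ tendsto_const_nhds
      by_cases h : ap H x = 0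
      · simp [h, cH]
      · exact ((lim x).inv₀ (pow_ne_zero 2 (norm_ne_zero_iff.2 h))).smul_const _
  exact tendsto_nhds_unique t1 (t2.neg.congr fun j => (reg B hH hφ (hη j)).symm)

theorem gap : Kit → EllS → GapS := by
  intro K hE d n hF f hf hm δ hδ
  have B := K.bas d n
  have ce : Continuous (el : Gr d n → Gr d n) := (K.al1 (Gr d n)).el_cont
  obtain ⟨C, hC0, hC⟩ := B.ts_tq f hf
  obtain ⟨D, hD⟩ := (isCompact_closedBall (0 : Gr d n) 8).exists_bound_of_continuousOn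
    ce.continuousOn
  let S : Set (He d n) := {H | St0 H ∧ ‖H‖ ≤ 8 ∧ ∀ Z, Pln Z → δ ≤ ‖H - Z‖}
  have hS : IsCompact S := by
    refine (isCompact_closedBall 0 8).of_isClosed_subset ?_
      fun H h => mem_closedBall_zero_iff.2 h.2.1
    simp only [S, St0, Sy, Set.ofPred_and, Set.ofPred_forall]
    exact ((isClosed_iInter fun a => isClosed_iInter fun i => isClosed_iInter fun j =>
      isClosed_eq (by fun_prop) (by fun_prop)).inter (isClosed_eq (by fun_prop) continuous_const)).inter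
      ((isClosed_le continuous_norm continuous_const).inter (isClosed_iInter fun Z =>
        isClosed_iInter fun _ => isClosed_le continuous_const (by fun_prop)))
  have c1 : ContinuousOn (fun H : He d n => pa (fun x => el (ap H x)) (tq f H)) S := by
    refine continuousOn_of_dominated (fun H _ => ?_) (fun H h => ae_of_all _ fun x =>
      le_b (fun hx => ?_) fun hx => by rw [(out1 B (hC H).1 hx).2, inner_zero_right])
      (int_b (D * (C * 8))) (ae_of_all _ fun x => ?_)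
    · have := B.c_Dm _ (hC H).1.1
      exact Continuous.aestronglyMeasurable (by fun_prop)
    · have h1 := hD (ap H x) (mem_closedBall_zero_iff.2 ((B.n_ap H x).trans
        ((mul_le_of_le_one_right (norm_nonneg _) hx.le).trans h.2.1)))
      exact (abs_real_inner_le_norm _ _).trans (mul_le_mul h1 (((hC H).2 x).2.trans
        (mul_le_mul_of_nonneg_left h.2.1 hC0)) (norm_nonneg _) ((norm_nonneg _).trans h1))
    · have hd : DifferentiableAt ℝ (fun y : X d => f (‖y‖ ^ 2)) x :=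
        (hf.1.differentiable (by simp) _).comp x
          ((contDiff_norm_sq ℝ (n := 1)).differentiable_one x)
      refine ContinuousOn.congr (f := fun H : He d n => ⟪el (ap H x), f (‖x‖ ^ 2) • (2 : ℝ) • ap H x +
        out (act (ap H x) x) (gradient (fun y : X d => f (‖y‖ ^ 2)) x)⟫)
        (Continuous.continuousOn (by fun_prop)) fun H h => ?_
      have := B.D_smul _ (qf H) x hd ((B.c_qf H).differentiable (by simp) x)
      rw [B.D_qf H h.1.1] at this
      exact congrArg (inner ℝ (el (ap H x))) this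
  obtain ⟨g, hg, h⟩ := hS.exists_forall_le' (a := 0)
    (f := fun H => ‖H‖ ^ 2 / (2 * d) * mo2 d f + pa (fun x => el (ap H x)) (tq f H))
    ((Continuous.continuousOn (by fun_prop)).add c1) fun H h => by
      have h1 := hF H h.1 f hf
      have h2 : lam f H H ≠ ‖H‖ ^ 2 / (2 * d) * mo2 d f := fun e => by
        have := h.2.2 H (h1.2 hm e)
        rw [sub_self, norm_zero] at this
        exact hδ.not_ge this
      have h3 := lt_of_le_of_ne h1.1 h2
      rw [hE d n H _ h.1 (hC H).1]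
      exact sub_pos.2 h3
  refine ⟨g, hg, fun H h1 h2 h3 => ?_⟩
  have h4 := h H ⟨h1, h2, h3⟩
  rw [hE d n H _ h1 (hC H).1] at h4
  unfold lam
  linarith

end Pool.Agent.MP_815c6c_an.N

end
end MrgPart1

-- ======== part 2: formerly Pool.Agent.MP_815c6c_an.N.Lim
section MrgPart2

/-! Passing to the limit in the iteration. -/

set_option autoImplicit false

noncomputable section

namespace Pool.Agent.MP_815c6c_an.N

open Set Metric Filter Topology

namespace LimA

/-- the outcome of the iteration with natural powers -/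
structure Iu {E F : Type} [NormedAddCommGroup E] [NormedAddCommGroup F] (q σ C M : ℝ)
    (b : ℕ → E) (h : ℕ → F) : Prop where
  u1 : ∀ j : ℕ, ‖h j‖ ≤ M * σ ^ j
  u2 : ∀ j : ℕ, ‖b (j + 1) - b j‖ ≤ M * q ^ j
  u3 : Tendsto b atTop (𝓝 0) ∨ ∃ k : ℕ, ∀ j, k ≤ j → ‖b j‖ ≤ C * q ^ k ∧
    ‖h j‖ ≤ M * σ ^ k ∧ ‖h (j + 1) - h j‖ ≤ M * σ ^ k * (3 / 4) ^ (j - k)

theorem geo {E : Type} [NormedAddCommGroup E] [CompleteSpace E] {b : ℕ → E} {M r : ℝ} (hr : r < 1)
    (h : ∀ j, ‖b (j + 1) - b j‖ ≤ M * r ^ j) : Tendsto b atTop (𝓝 (limUnder atTop b)) ∧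
      ∀ j, dist (b j) (limUnder atTop b) ≤ M * r ^ j / (1 - r) := by
  have h1 : ∀ j, dist (b j) (b (j + 1)) ≤ M * r ^ j := fun j => by
    rw [dist_comm, dist_eq_norm]; exact h j
  have h2 := (cauchySeq_of_le_geometric r M hr h1).tendsto_limUnder
  exact ⟨h2, dist_le_of_le_geometric_of_tendsto r M hr h1 h2⟩

theorem unif {α E : Type} [NormedAddCommGroup E] {F : ℕ → α → E} {G : α → E} {s : Set α}
    {M r : ℝ} (r0 : 0 ≤ r) (r1 : r < 1) (h : ∀ j, ∀ x ∈ s, dist (F j x) (G x) ≤ M * r ^ j / (1 - r)) :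
    TendstoUniformlyOn F G atTop s := by
  refine tendstoUniformlyOn_iff.2 fun ε hε => ?_
  have h1 : Tendsto (fun j : ℕ => M * r ^ j / (1 - r)) atTop (𝓝 (M * 0 / (1 - r))) :=
    ((tendsto_pow_atTop_nhds_zero_of_lt_one r0 r1).const_mul M).div_const _
  filter_upwards [h1.eventually_lt_const (by simpa using hε)] with j hj x hx
  rw [dist_comm]
  exact (h j x hx).trans_lt hj

theorem small {N κ ε : ℝ} (k0 : 0 ≤ κ) (k1 : κ < 1) (hε : 0 < ε) : ∃ K : ℕ, N * κ ^ K < ε :=
  (((tendsto_pow_atTop_nhds_zero_of_lt_one k0 k1).const_mul N).eventually_lt_const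
    (by simpa using hε)).exists

theorem pw {C q a : ℝ} (hC : 0 ≤ C) (hq : 0 ≤ q) (k : ℕ) :
    (C * q ^ k) ^ a = C ^ a * (q ^ a) ^ k := by
  rw [Real.mul_rpow hC (pow_nonneg hq k), ← Real.rpow_natCast q, ← Real.rpow_mul hq, mul_comm (k : ℝ),
    Real.rpow_mul hq, Real.rpow_natCast]

section
variable {E F : Type} [NormedAddCommGroup E] [NormedSpace ℝ E] [NormedAddCommGroup F]
  [InnerProductSpace ℝ F] [CompleteSpace F] {s : Set E} {θ q σ C M a : ℝ} {b : ℕ → E → F}
  {h : ℕ → E → E →L[ℝ] F}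

/-- the hypotheses -/
structure Hy (s : Set E) (θ q σ C M : ℝ) (b : ℕ → E → F) (h : ℕ → E → E →L[ℝ] F) : Prop where
  op : IsOpen s
  cv : Convex ℝ s
  t0 : 0 < θ
  qe : q = θ * σ
  s1 : 1 ≤ σ
  q1 : q ≤ 1 / 2
  C0 : 0 ≤ C
  M0 : 0 ≤ M
  der : ∀ j, ∀ x ∈ s, HasFDerivAt (b j) (h j x) x
  con : ∀ j, ContinuousOn (h j) s
  it : ∀ x ∈ s, Iu q σ C M (fun j => b j x) fun j => h j x

/-- the limits -/
def VV (b : ℕ → E → F) (x : E) : F := limUnder atTop fun j => b j x
def DD (h : ℕ → E → E →L[ℝ] F) (x : E) : E →L[ℝ] F := limUnder atTop fun j => h j x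

theorem Hy.q0 (H : Hy s θ q σ C M b h) : 0 < q := H.qe ▸ mul_pos H.t0 (by linarith [H.s1])

theorem Hy.tv (H : Hy s θ q σ C M b h) {x : E} (hx : x ∈ s) :
    Tendsto (fun j => b j x) atTop (𝓝 (VV b x)) := (geo (by linarith [H.q1]) (H.it x hx).u2).1

theorem Hy.cV (H : Hy s θ q σ C M b h) : ContinuousOn (VV b) s :=
  (unif (F := b) (G := VV b) (M := M) (r := q) H.q0.le (by linarith [H.q1]) fun j x hx =>
    (geo (b := fun j => b j x) (r := q) (by linarith [H.q1]) (H.it x hx).u2).2 j).continuousOn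
      (Frequently.of_forall fun j x hx => (H.der j x hx).continuousAt.continuousWithinAt)

theorem Hy.hol (H : Hy s θ q σ C M b h) {x y : E} (hx : x ∈ s) (hy : y ∈ s) (j : ℕ)
    (hj : ‖y - x‖ ≤ θ ^ j) : ‖VV b y - VV b x‖ ≤ 5 * M * q ^ j := by
  have e : ∀ z ∈ s, ‖b j z - VV b z‖ ≤ 2 * (M * q ^ j) := fun z hz => by
    have h1 : dist (b j z) (VV b z) ≤ M * q ^ j / (1 - q) :=
      (geo (b := fun j => b j z) (r := q) (by linarith [H.q1]) (H.it z hz).u2).2 j
    rw [dist_eq_norm] at h1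
    refine h1.trans ?_
    rw [div_le_iff₀ (by linarith [H.q1])]
    nlinarith [mul_nonneg H.M0 (pow_nonneg H.q0.le j), H.q1]
  have h2 := H.cv.norm_image_sub_le_of_norm_hasFDerivWithin_le
    (fun z hz => (H.der j z hz).hasFDerivWithinAt) (fun z hz => (H.it z hz).u1 j) hx hy
  have h3 : M * σ ^ j * ‖y - x‖ ≤ M * q ^ j := by
    rw [H.qe, mul_pow, mul_comm (θ ^ j), ← mul_assoc]
    exact mul_le_mul_of_nonneg_left hj (mul_nonneg H.M0 (pow_nonneg (by linarith [H.s1]) j))
  have h4 : VV b y - VV b x = (b j y - b j x) + (b j x - VV b x) - (b j y - VV b y) := by abel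
  rw [h4]
  linarith [norm_sub_le ((b j y - b j x) + (b j x - VV b x)) (b j y - VV b y),
    norm_add_le (b j y - b j x) (b j x - VV b x), e x hx, e y hy]

theorem Hy.ne (H : Hy s θ q σ C M b h) {x : E} (hx : x ∈ s) (h0 : VV b x ≠ 0) : ∃ k : ℕ,
    ‖VV b x‖ ≤ C * q ^ k ∧ ‖DD h x‖ ≤ M * σ ^ k ∧ ∀ K, k ≤ K → ∀ j,
      dist (h (j + K) x) (DD h x) ≤ M * σ ^ K * (3 / 4) ^ j / (1 - 3 / 4) := by
  rcases (H.it x hx).u3 with h1 | ⟨k, hk⟩
  · exact (h0 (tendsto_nhds_unique (H.tv hx) h1)).elim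
  have s0 : 0 ≤ σ := by linarith [H.s1]
  have g : ∀ K, k ≤ K → ∀ j, ‖h (j + 1 + K) x - h (j + K) x‖ ≤ M * σ ^ K * (3 / 4) ^ j :=
    fun K hK j => by
      rw [add_right_comm]
      refine (hk (j + K) (by omega)).2.2.trans (mul_le_mul (mul_le_mul_of_nonneg_left
        (pow_le_pow_right₀ H.s1 hK) H.M0) (pow_le_pow_of_le_one (by norm_num) (by norm_num)
          (by omega)) (by positivity) (mul_nonneg H.M0 (pow_nonneg s0 K)))
  have t : Tendsto (fun j => h j x) atTop (𝓝 (DD h x)) :=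
    tendsto_nhds_limUnder ⟨_, (tendsto_add_atTop_iff_nat k).1
      (geo (b := fun j => h (j + k) x) (by norm_num) (g k le_rfl)).1⟩
  refine ⟨k, le_of_tendsto (H.tv hx).norm (eventually_atTop.2 ⟨k, fun j hj => (hk j hj).1⟩),
    le_of_tendsto t.norm (eventually_atTop.2 ⟨k, fun j hj => (hk j hj).2.1⟩), fun K hK => ?_⟩
  exact dist_le_of_le_geometric_of_tendsto (3 / 4) _ (by norm_num)
    (f := fun j => h (j + K) x) (fun j => by rw [dist_comm, dist_eq_norm]; exact g K hK j)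
    ((tendsto_add_atTop_iff_nat K).2 t)

theorem Hy.loc (H : Hy s θ q σ C M b h) {x : E} (hx : x ∈ s) (h0 : VV b x ≠ 0) :
    ∃ U, IsOpen U ∧ x ∈ U ∧ U ⊆ s ∧ ContinuousOn (DD h) U ∧
      ∀ y ∈ U, HasFDerivAt (VV b) (DD h y) y := by
  have hp : 0 < ‖VV b x‖ / 2 := half_pos (norm_pos_iff.2 h0)
  obtain ⟨K, hK⟩ := small (N := C) H.q0.le (by linarith [H.q1]) hp
  have hU : IsOpen (s ∩ (fun y => ‖VV b y‖) ⁻¹' Ioi (‖VV b x‖ / 2)) :=
    H.cV.norm.isOpen_inter_preimage H.op isOpen_Ioi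
  have hu : TendstoUniformlyOn (fun j => h (j + K)) (DD h) atTop
      (s ∩ (fun y => ‖VV b y‖) ⁻¹' Ioi (‖VV b x‖ / 2)) := by
    refine unif (M := M * σ ^ K) (r := 3 / 4) (by norm_num) (by norm_num) fun j y hy => ?_
    have h1 : ‖VV b x‖ / 2 < ‖VV b y‖ := hy.2
    obtain ⟨k, a1, -, a3⟩ := H.ne hy.1 (norm_pos_iff.1 (hp.trans h1))
    refine a3 K (le_of_not_gt fun hk => ?_) j
    have := mul_le_mul_of_nonneg_left
      (pow_le_pow_of_le_one H.q0.le (by linarith [H.q1]) hk.le) H.C0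
    linarith
  refine ⟨_, hU, ⟨hx, show ‖VV b x‖ / 2 < ‖VV b x‖ by linarith⟩, inter_subset_left, hu.continuousOn
    (Frequently.of_forall fun j => (H.con _).mono inter_subset_left), fun y hy => ?_⟩
  exact hasFDerivAt_of_tendstoUniformlyOn hU hu (f := fun j => b (j + K))
    (fun j z hz => H.der _ z hz.1) (fun z hz => (tendsto_add_atTop_iff_nat K).2 (H.tv hz.1)) hy

theorem Hy.zero (H : Hy s θ q σ C M b h) (al : Al1 F) (a0 : 0 < a) (hκ : q ^ a * σ < 1) {x : E}
    (hx : x ∈ s) (h0 : VV b x = 0) : HasFDerivAt (fun y => A a (VV b y)) (0 : E →L[ℝ] F) x := by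
  have t1 : θ < 1 := by nlinarith [H.qe, H.s1, H.q1, H.t0]
  have k0 : 0 ≤ q ^ a * σ := mul_nonneg (Real.rpow_nonneg H.q0.le a) (by linarith [H.s1])
  have M5 : 0 ≤ 5 * M := by linarith [H.M0]
  refine hasFDerivAt_iff_isLittleO.2 (Asymptotics.isLittleO_iff.2 fun ε hε => ?_)
  obtain ⟨K, hK⟩ := small (N := (5 * M) ^ (1 + a)) k0 hκ (mul_pos hε H.t0)
  filter_upwards [H.op.mem_nhds hx, ball_mem_nhds x (pow_pos H.t0 K)] with y hy hyK
  rw [mem_ball, dist_eq_norm] at hyK
  rcases (norm_nonneg (y - x)).eq_or_lt with e | e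
  · simp [sub_eq_zero.1 (norm_eq_zero.1 e.symm)]
  obtain ⟨j, j1, j2⟩ := exists_nat_pow_near_of_lt_one e
    (hyK.le.trans (pow_le_one₀ H.t0.le t1.le)) H.t0 t1
  have jK : K ≤ j := Nat.lt_succ_iff.1 ((pow_lt_pow_iff_right_of_lt_one₀ H.t0 t1).1 (j1.trans hyK))
  have h1 := H.hol hx hy j j2
  rw [h0, sub_zero] at h1
  have h2 := Real.rpow_le_rpow (norm_nonneg _) h1 (show 0 ≤ 1 + a by linarith)
  have h3 : q ^ (1 + a) = θ * (q ^ a * σ) := by
    rw [Real.rpow_add H.q0, Real.rpow_one]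
    linear_combination q ^ a * H.qe
  rw [pw M5 H.q0.le, h3, mul_pow] at h2
  have h4 := mul_le_mul_of_nonneg_left (pow_le_pow_of_le_one k0 hκ.le jK)
    (Real.rpow_nonneg M5 (1 + a))
  have h5 : A a (0 : F) = 0 := by simp [A]
  rw [h0, h5, sub_zero, zero_apply, sub_zero, al.norm a _ a0.le]
  have h6 := pow_pos H.t0 j
  rw [pow_succ] at j1
  nlinarith [mul_le_mul_of_nonneg_left (h4.trans hK.le) h6.le, mul_le_mul_of_nonneg_left j1.le hε.le]

theorem Hy.main (H : Hy s θ q σ C M b h) (al : Al1 F) (a0 : 0 < a) (hκ : q ^ a * σ < 1) :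
    ContDiffOn ℝ 1 (fun x => A a (VV b x)) s ∧ ∀ x ∈ s, ∀ y ∈ s,
      ‖A a (VV b x) - A a (VV b y)‖ ≤ (1 + a) * M * C ^ a * ‖x - y‖ := by
  obtain ⟨c1, c2⟩ := al.c1 a a0.le
  have s0 : 0 ≤ σ := by linarith [H.s1]
  have k0 : 0 ≤ q ^ a * σ := mul_nonneg (Real.rpow_nonneg H.q0.le a) s0
  have N0 : 0 ≤ (1 + a) * M := mul_nonneg (by linarith) H.M0
  have N1 : 0 ≤ (1 + a) * M * C ^ a := mul_nonneg N0 (Real.rpow_nonneg H.C0 a)
  have cA : ∀ {y : E}, HasFDerivAt (VV b) (DD h y) y → HasFDerivAt (fun y => A a (VV b y))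
      ((fderiv ℝ (A a) (VV b y)).comp (DD h y)) y := fun hy =>
    (c1.differentiable one_ne_zero _).hasFDerivAt.comp _ hy
  have df : ∀ x ∈ s, DifferentiableAt ℝ (fun y => A a (VV b y)) x := fun x hx => by
    by_cases h0 : VV b x = 0
    · exact (H.zero al a0 hκ hx h0).differentiableAt
    · obtain ⟨U, -, u1, -, -, u2⟩ := H.loc hx h0
      exact (cA (u2 x u1)).differentiableAt
  have bd : ∀ x ∈ s, ‖fderiv ℝ (fun y => A a (VV b y)) x‖ ≤ (1 + a) * M * C ^ a ∧ ∀ K : ℕ,
      ‖fderiv ℝ (fun y => A a (VV b y)) x‖ ≤ (1 + a) * M * C ^ a * (q ^ a * σ) ^ K +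
        (1 + a) * M * σ ^ K * ‖VV b x‖ ^ a := fun x hx => by
    have p1 := Real.rpow_nonneg (norm_nonneg (VV b x)) a
    by_cases h0 : VV b x = 0
    · rw [(H.zero al a0 hκ hx h0).fderiv, norm_zero]
      exact ⟨N1, fun K => by positivity⟩
    obtain ⟨U, -, u1, -, -, u2⟩ := H.loc hx h0
    obtain ⟨k, a1, a2, -⟩ := H.ne hx h0
    have b1 : ‖fderiv ℝ (fun y => A a (VV b y)) x‖ ≤ (1 + a) * M * σ ^ k * ‖VV b x‖ ^ a := by
      rw [(cA (u2 x u1)).fderiv]
      refine (ContinuousLinearMap.opNorm_comp_le _ _).trans ((mul_le_mul (c2 _) a2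
        (norm_nonneg _) (by positivity)).trans (le_of_eq (by ring)))
    have b2 := Real.rpow_le_rpow (norm_nonneg _) a1 a0.le
    rw [pw H.C0 H.q0.le] at b2
    have b3 : ‖fderiv ℝ (fun y => A a (VV b y)) x‖ ≤ (1 + a) * M * C ^ a * (q ^ a * σ) ^ k :=
      b1.trans ((mul_le_mul_of_nonneg_left b2 (by positivity)).trans (le_of_eq (by ring)))
    refine ⟨b3.trans (mul_le_of_le_one_right N1 (pow_le_one₀ k0 hκ.le)), fun K => ?_⟩
    rcases le_total k K with e | e
    · refine b1.trans (le_add_of_nonneg_of_le (by positivity) ?_)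
      exact mul_le_mul_of_nonneg_right (mul_le_mul_of_nonneg_left
        (pow_le_pow_right₀ H.s1 e) N0) p1
    · refine b3.trans (le_add_of_le_of_nonneg ?_ (by positivity))
      exact mul_le_mul_of_nonneg_left (pow_le_pow_of_le_one k0 hκ.le e) N1
  refine ⟨?_, fun x hx y hy =>
    H.cv.norm_image_sub_le_of_norm_fderiv_le df (fun z hz => (bd z hz).1) hy hx⟩
  rw [show (1 : WithTop ℕ∞) = 0 + 1 from (zero_add 1).symm,
    contDiffOn_succ_iff_fderiv_of_isOpen H.op]
  refine ⟨fun x hx => (df x hx).differentiableWithinAt, by simp,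
    contDiffOn_zero.2 fun x hx => ContinuousAt.continuousWithinAt ?_⟩
  have cV := H.cV.continuousAt (H.op.mem_nhds hx)
  by_cases h0 : VV b x = 0
  · rw [ContinuousAt, (H.zero al a0 hκ hx h0).fderiv]
    refine NormedAddGroup.tendsto_nhds_zero.2 fun ε hε => ?_
    obtain ⟨K, hK⟩ := small (N := (1 + a) * M * C ^ a) k0 hκ (half_pos hε)
    have t : ContinuousAt (fun y => (1 + a) * M * σ ^ K * ‖VV b y‖ ^ a) x :=
      (cV.norm.rpow_const (.inr a0.le)).const_mul _
    filter_upwards [H.op.mem_nhds hx, t.eventually_lt_const (u := ε / 2)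
      (by simpa [h0, a0.ne'] using hε)] with y hy h1
    linarith [(bd y hy).2 K]
  · obtain ⟨U, u0, u1, -, u3, u2⟩ := H.loc hx h0
    refine (((c1.continuous_fderiv one_ne_zero).continuousAt.comp cV).clm_comp
      (u3.continuousAt (u0.mem_nhds u1))).congr ?_
    filter_upwards [u0.mem_nhds u1] with y hy
    exact (cA (u2 y hy)).fderiv.symm

end

end LimA

open LimA

theorem lim : Kit → LimS := by
  intro K d n θ g C a t0 t1 g0 g1 C0 a0 ha
  refine ⟨(1 + a) * C * C ^ a, by positivity, fun L b h L0 _ h1 h2 h3 => ?_⟩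
  have e : ∀ (c : ℝ) (j : ℕ), θ ^ (c * j) = (θ ^ c) ^ j := fun c j => by
    rw [Real.rpow_mul t0.le, Real.rpow_natCast]
  have H : Hy (ball (0 : X d) (1 / 2)) θ (θ ^ (1 - g)) (θ ^ (-g)) C (C * L) b h := by
    refine ⟨isOpen_ball, convex_ball _ _, t0, ?_, ?_, ?_, C0, mul_nonneg C0 L0, h1, h2,
      fun x hx => ?_⟩
    · rw [sub_eq_add_neg, Real.rpow_add t0, Real.rpow_one]
    · exact Real.one_le_rpow_of_pos_of_le_one_of_nonpos t0 (by linarith) (by linarith)
    · refine (Real.rpow_le_rpow_of_exponent_ge t0 (by linarith)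
        (show (1 / 2 : ℝ) ≤ 1 - g by linarith)).trans ?_
      rw [← Real.sqrt_eq_rpow, Real.sqrt_le_iff]
      exact ⟨by norm_num, by linarith⟩
    · obtain ⟨u1, u2, u3⟩ := h3 x hx
      simp only [e] at u1 u2 u3
      exact ⟨u1, u2, u3⟩
  have hκ : (θ ^ (1 - g)) ^ a * θ ^ (-g) < 1 := by
    rw [← Real.rpow_mul t0.le, ← Real.rpow_add t0]
    exact Real.rpow_lt_one t0.le (by linarith) (by nlinarith)
  obtain ⟨m1, m2⟩ := H.main (K.al1 _) a0 hκ
  exact ⟨VV b, fun x hx => H.tv hx, m1, fun x hx y hy => (m2 x hx y hy).trans (le_of_eq (by ring))⟩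

end Pool.Agent.MP_815c6c_an.N

end
end MrgPart2

-- ======== part 3: formerly Pool.Agent.MP_815c6c_an.N.Pol
section MrgPart3

/-! Change of the radial weight. -/

set_option autoImplicit false

noncomputable section

namespace Pool.Agent.MP_815c6c_an.N

open Set Metric MeasureTheory

namespace PolA

/-- polar coordinates for homogeneous functions -/
theorem polar (m k : ℕ) (F : X (m + 1) → ℝ) (hF : ∀ (t : ℝ) x, 0 < t → F (t • x) = t ^ k * F x)
    (g : ℝ → ℝ) : ∫ x, g ‖x‖ * F x =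
      (∫ s : sphere (0 : X (m + 1)) 1, F s ∂(volume : Measure (X (m + 1))).toSphere) *
        ∫ r in Ioi (0 : ℝ), r ^ (m + k) * g r := by
  have e : Module.finrank ℝ (X (m + 1)) - 1 = m := by simp
  calc
    ∫ x, g ‖x‖ * F x = ∫ x : ({(0)}ᶜ : Set (X (m + 1))), g ‖x.1‖ * F x.1
        ∂((volume : Measure (X (m + 1))).comap Subtype.val) := by
      rw [integral_subtype_comap (measurableSet_singleton _).compl fun x => g ‖x‖ * F x,
        restrict_compl_singleton]
    _ = ∫ p : sphere (0 : X (m + 1)) 1 × Ioi (0 : ℝ), F p.1 * (p.2.1 ^ k * g p.2)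
        ∂(volume : Measure (X (m + 1))).toSphere.prod (.volumeIoiPow m) := by
      have hp := (volume : Measure (X (m + 1))).measurePreserving_homeomorphUnitSphereProd
      rw [e] at hp
      rw [← hp.integral_comp (Homeomorph.measurableEmbedding _)]
      refine integral_congr_ae (Filter.Eventually.of_forall fun x => ?_)
      have h0 : 0 < ‖x.1‖ := norm_pos_iff.2 x.2
      have h1 := hF ‖x.1‖ (‖x.1‖⁻¹ • x.1) h0
      rw [smul_inv_smul₀ h0.ne'] at h1
      simp only [homeomorphUnitSphereProd_apply_fst_coe, homeomorphUnitSphereProd_apply_snd_coe]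
      rw [h1]
      ring
    _ = _ := by
      rw [integral_prod_mul (fun s : sphere (0 : X (m + 1)) 1 => F s)
        fun r : Ioi (0 : ℝ) => r.1 ^ k * g r]
      congr 1
      simp only [Measure.volumeIoiPow, ENNReal.ofReal]
      rw [integral_withDensity_eq_integral_smul,
        integral_subtype_comap measurableSet_Ioi fun a => Real.toNNReal (a ^ m) • (a ^ k * g a),
        setIntegral_congr_fun measurableSet_Ioi fun x hx => ?_]
      · rw [NNReal.smul_def, Real.coe_toNNReal _ (pow_nonneg hx.out.le _), smul_eq_mul, pow_add,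
          mul_assoc]
      · exact (measurable_subtype_coe.pow_const _).real_toNNReal

theorem gauss (j : ℕ) : ∫ r in Ioi (0 : ℝ), r ^ j * Real.exp (-r ^ 2 / 2) =
    (1 / 2 : ℝ) ^ (-((j : ℝ) + 1) / 2) * (1 / 2) * Real.Gamma ((j + 1) / 2) := by
  rw [← integral_rpow_mul_exp_neg_mul_rpow two_pos (by linarith [(j.cast_nonneg : (0 : ℝ) ≤ j)])
    one_half_pos]
  refine setIntegral_congr_fun measurableSet_Ioi fun x _ => ?_
  simp only [Real.rpow_natCast, Real.rpow_two]
  congr 2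
  ring

theorem gauss_two (m : ℕ) : ∫ r in Ioi (0 : ℝ), r ^ (m + 2) * Real.exp (-r ^ 2 / 2) =
    ((m : ℝ) + 1) * ∫ r in Ioi (0 : ℝ), r ^ (m + 0) * Real.exp (-r ^ 2 / 2) := by
  have h : ((m : ℝ) + 1) / 2 ≠ 0 := by positivity
  rw [gauss, gauss, add_zero,
    show (((m + 2 : ℕ) : ℝ) + 1) / 2 = ((m : ℝ) + 1) / 2 + 1 by push_cast; ring,
    Real.Gamma_add_one h,
    show -(((m + 2 : ℕ) : ℝ) + 1) / 2 = -((m : ℝ) + 1) / 2 + -1 by push_cast; ring,
    Real.rpow_add one_half_pos, Real.rpow_neg_one]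
  ring

end PolA

open PolA in
theorem pol : PolS := by
  intro d F C f hd _ _ hF _
  obtain ⟨m, rfl⟩ : ∃ m, d = m + 1 := ⟨d - 1, by omega⟩
  have h1 := polar m 2 F hF fun r => f (r ^ 2)
  have h2 := polar m 2 F hF fun r => Real.exp (-r ^ 2 / 2)
  have h3 := polar m 0 (fun _ => 1) (fun _ _ _ => by simp) fun r => Real.exp (-r ^ 2 / 2)
  have h4 := polar m 2 (fun x => ‖x‖ ^ 2) (fun t x ht => by
    rw [norm_smul, Real.norm_of_nonneg ht.le, mul_pow]) fun r => f (r ^ 2)
  simp only [mul_one] at h3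
  simp only [norm_eq_of_mem_sphere, one_pow] at h4
  rw [mo2, h1, h2, h3, h4, gauss_two]
  push_cast
  ring

end Pool.Agent.MP_815c6c_an.N

end
end MrgPart3

-- ======== part 4: formerly Pool.Agent.MP_815c6c_an.N.Rot
section MrgPart4

/-! Rotations and the sharp first order bound. -/

set_option autoImplicit false

noncomputable section

namespace Pool.Agent.MP_815c6c_an.N

open Set MeasureTheory Matrix
open scoped RealInnerProductSpace

namespace RotA

variable {d n : ℕ}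

/-- the component matrices -/
def mx (H : He d n) (a : Fin n) : Matrix (Fin d) (Fin d) ℝ := of fun i j => H (a, i, j)

/-- the rotated Hessian -/
def rt (O : Matrix (Fin d) (Fin d) ℝ) (H : He d n) : He d n :=
  WithLp.toLp 2 fun k => (Oᵀ * mx H k.1 * O) k.2.1 k.2.2

theorem mx_rt (O : Matrix (Fin d) (Fin d) ℝ) (H : He d n) (a : Fin n) :
    mx (rt O H) a = Oᵀ * mx H a * O := rfl

theorem act_ap (H : He d n) (x v : X d) (a : Fin n) :
    act (ap H x) v a = (mx H a *ᵥ x.ofLp) ⬝ᵥ v.ofLp := rfl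

theorem n_ap (H : He d n) (x : X d) :
    ‖ap H x‖ ^ 2 = ∑ a, (mx H a *ᵥ x.ofLp) ⬝ᵥ (mx H a *ᵥ x.ofLp) := by
  rw [EuclideanSpace.real_norm_sq_eq, Fintype.sum_prod_type]
  simp only [sq]
  rfl

theorem sv_eq (H : He d n) (x : X d) :
    (sv H x).ofLp = ∑ a, (mx H a)ᵀ *ᵥ (mx H a *ᵥ x.ofLp) := by
  ext j
  rw [Finset.sum_apply]
  exact Fintype.sum_prod_type _

theorem n_sq (H : He d n) : ‖H‖ ^ 2 = ∑ a, (mx H a * (mx H a)ᵀ).trace := by
  rw [EuclideanSpace.real_norm_sq_eq, Fintype.sum_prod_type]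
  simp only [sq, Fintype.sum_prod_type]
  rfl

theorem inn (x y : X d) : ⟪x, y⟫ = x.ofLp ⬝ᵥ y.ofLp := by
  rw [EuclideanSpace.inner_eq_star_dotProduct, star_trivial, dotProduct_comm]

variable {O : Matrix (Fin d) (Fin d) ℝ}

theorem dot (h : O * Oᵀ = 1) (u v : Fin d → ℝ) : (Oᵀ *ᵥ u) ⬝ᵥ (Oᵀ *ᵥ v) = u ⬝ᵥ v := by
  rw [dotProduct_mulVec, vecMul_transpose, mulVec_mulVec, h, one_mulVec]

theorem ex_iso (h : O * Oᵀ = 1) : ∃ R : X d ≃ₗᵢ[ℝ] X d, ∀ x, (R x).ofLp = O *ᵥ x.ofLp := by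
  have h' : Oᵀ * Oᵀᵀ = 1 := mul_eq_one_comm.1 h
  exact ⟨((toEuclideanLin O).isometryOfInner fun x y => by
    rw [inn, inn]
    exact dot h' _ _).toLinearIsometryEquiv rfl, fun x => rfl⟩

theorem mv (H : He d n) (a : Fin n) (x : Fin d → ℝ) :
    mx (rt O H) a *ᵥ x = Oᵀ *ᵥ (mx H a *ᵥ (O *ᵥ x)) := by
  rw [mx_rt, mulVec_mulVec, mulVec_mulVec]

theorem qf_rt (H : He d n) {x y : X d} (e : y.ofLp = O *ᵥ x.ofLp) : qf (rt O H) x = qf H y := by
  ext a
  rw [qf, qf, act_ap, act_ap, mv, e, dotProduct_mulVec _ O, mulVec_transpose]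

theorem cH_rt (h : O * Oᵀ = 1) (H : He d n) {x y : X d} (e : y.ofLp = O *ᵥ x.ofLp) :
    cH (rt O H) x = cH H y := by
  have e1 : ‖ap (rt O H) x‖ ^ 2 = ‖ap H y‖ ^ 2 := by simp only [n_ap, mv, dot h, e]
  have e2 : (sv (rt O H) x).ofLp = Oᵀ *ᵥ (sv H y).ofLp := by
    rw [sv_eq, sv_eq, mulVec_sum]
    refine Finset.sum_congr rfl fun a _ => ?_
    rw [mv, mx_rt, e, transpose_mul, transpose_mul, transpose_transpose, ← mulVec_mulVec,
      ← mulVec_mulVec, mulVec_mulVec _ O, h, one_mulVec]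
  rw [cH, cH, e1]
  congr 1
  ext a
  rw [act_ap, act_ap, mv, e2, dot h, e]

theorem sq_rt (h : O * Oᵀ = 1) (H : He d n) (a : Fin n) :
    mx (rt O H) a * (mx (rt O H) a)ᵀ = Oᵀ * (mx H a * (mx H a)ᵀ) * O := by
  rw [mx_rt, transpose_mul, transpose_mul, transpose_transpose]
  simp only [Matrix.mul_assoc]
  rw [← Matrix.mul_assoc O, h, Matrix.one_mul]

theorem tr_rt (h : O * Oᵀ = 1) (M : Matrix (Fin d) (Fin d) ℝ) : (Oᵀ * M * O).trace = M.trace := by
  rw [trace_mul_cycle, h, Matrix.one_mul]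

theorem n_rt (h : O * Oᵀ = 1) (H : He d n) : ‖rt O H‖ ^ 2 = ‖H‖ ^ 2 := by
  simp only [n_sq, sq_rt h, tr_rt h]

theorem st_rt (h : O * Oᵀ = 1) {H : He d n} (hH : St0 H) : St0 (rt O H) := by
  refine ⟨fun a i j => ?_, ?_⟩
  · have e : (mx H a)ᵀ = mx H a := by
      ext i j
      exact hH.1 a j i
    have : (Oᵀ * mx H a * O)ᵀ = Oᵀ * mx H a * O := by
      rw [transpose_mul, transpose_mul, transpose_transpose, e, Matrix.mul_assoc]
    exact congrFun₂ this j i
  · ext a
    exact (tr_rt h (mx H a)).trans (congrArg (fun y : X n => y a) hH.2)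

theorem pln_rt (h : O * Oᵀ = 1) {H : He d n} (hH : Pln (rt O H)) : Pln H := by
  rcases hH with h0 | ⟨e₁, e₂, α, β, h1, h2, h3, h4⟩
  · have := n_rt h H
    rw [h0, norm_zero, zero_pow two_ne_zero] at this
    exact Or.inl (norm_eq_zero.1 (pow_eq_zero_iff two_ne_zero |>.1 this.symm))
  obtain ⟨R, hR⟩ := ex_iso h
  refine Or.inr ⟨R e₁, R e₂, α, β, by rwa [R.norm_map], by rwa [R.norm_map],
    by rwa [R.inner_map_map], fun a i j => ?_⟩
  have e : Oᵀ * mx H a * O = α a • (vecMulVec e₁.ofLp e₁.ofLp - vecMulVec e₂.ofLp e₂.ofLp) +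
      β a • (vecMulVec e₁.ofLp e₂.ofLp + vecMulVec e₂.ofLp e₁.ofLp) := by
    ext i j
    exact h4 a i j
  have e' := congrArg (fun M => O * M * Oᵀ) e
  simp only [Matrix.mul_add, Matrix.add_mul, Matrix.mul_sub, Matrix.sub_mul, Matrix.mul_smul,
    Matrix.smul_mul, mul_vecMulVec, vecMulVec_mul, vecMul_transpose, ← hR] at e'
  rw [← Matrix.mul_assoc, ← Matrix.mul_assoc, h, Matrix.one_mul, Matrix.mul_assoc, h,
    Matrix.mul_one] at e'
  exact congrFun₂ e' i j

theorem lam_rt (h : O * Oᵀ = 1) (f : ℝ → ℝ) (H : He d n) :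
    lam f (rt O H) (rt O H) = lam f H H := by
  obtain ⟨R, hR⟩ := ex_iso h
  refine (integral_congr_ae (.of_forall fun x => ?_)).trans
    (R.measurePreserving.integral_comp R.toHomeomorph.measurableEmbedding _)
  simp only [tq, cH_rt h H (hR x), qf_rt H (hR x), R.norm_map]

theorem ex_dg (H : He d n) : ∃ O : Matrix (Fin d) (Fin d) ℝ, O * Oᵀ = 1 ∧ Dg (rt O H) := by
  have hS : (∑ a, mx H a * (mx H a)ᵀ).IsHermitian := by
    rw [IsHermitian, conjTranspose_eq_transpose_of_trivial, transpose_sum]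
    simp only [transpose_mul, transpose_transpose]
  have h : (hS.eigenvectorUnitary : Matrix (Fin d) (Fin d) ℝ) * hS.eigenvectorUnitary.1ᵀ = 1 :=
    mem_unitaryGroup_iff.1 hS.eigenvectorUnitary.2
  refine ⟨_, h, fun i j c => ?_⟩
  have e := hS.conjStarAlgAut_star_eigenvectorUnitary
  rw [Unitary.conjStarAlgAut_star_apply] at e
  have e2 := congrFun₂ e i j
  rw [diagonal_apply_ne _ c, Matrix.mul_sum, Matrix.sum_mul, Matrix.sum_apply] at e2
  rw [← e2]
  exact Finset.sum_congr rfl fun a _ => congrFun₂ (sq_rt h H a) i j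

theorem cH_smul (H : He d n) {t : ℝ} (ht : 0 < t) (x : X d) : cH H (t • x) = cH H x := by
  have e : sv H (t • x) = t • sv H x := by
    ext j
    simp [sv, Finset.mul_sum, mul_left_comm]
  rw [cH, cH, e, map_smul, map_smul, map_smul, _root_.smul_apply, norm_smul, smul_smul,
    smul_smul, Real.norm_of_nonneg ht.le, mul_pow, mul_inv]
  congr 1
  field_simp

end RotA

open RotA

theorem rot : Kit → RotS := by
  intro _ d n h H hH f hf
  obtain ⟨O, hO, hd⟩ := ex_dg H
  have := h _ (st_rt hO hH) hd f hf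
  rw [lam_rt hO, n_rt hO] at this
  exact ⟨this.1, fun a b => pln_rt hO (this.2 a b)⟩

theorem fo : Kit → PolS → GauS → TauS → RotS → ∀ d n, FoS d n := by
  intro K pol gau tau ro d n
  refine ro d n fun H hH hd f hf => ?_
  rcases Nat.eq_zero_or_pos d with rfl | h1
  · obtain rfl : H = 0 := Subsingleton.elim _ _
    exact ⟨by simp [lam, tq, qf], fun _ _ => Or.inl rfl⟩
  have B := K.bas d n
  obtain ⟨g1, g2⟩ := gau d n H hH hd
  obtain ⟨t1, t2⟩ := tau d n H hH hd g1
  have p := pol d (fun x => ⟪cH H x, qf H x⟫) (‖H‖ * ‖H‖) f h1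
    ((B.m_cH H).inner (B.c_qf H).continuous.measurable) (fun x => by
      rw [mul_assoc]
      exact (abs_real_inner_le_norm _ _).trans
        (mul_le_mul (B.n_cH H x) (B.n_qf H x) (norm_nonneg _) (norm_nonneg _)))
    (fun t x ht => by
      simp only [cH_smul H ht, qf, map_smul, _root_.smul_apply, real_inner_smul_right]
      ring) hf
  have I : 0 < ∫ x : X d, Real.exp (-‖x‖ ^ 2 / 2) := by
    have := GaussianFourier.integral_rexp_neg_mul_sq_norm (V := X d) (b := 1 / 2) (by norm_num)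
    have e : ∀ x : X d, -‖x‖ ^ 2 / 2 = -(1 / 2) * ‖x‖ ^ 2 := fun x => by ring
    simp only [e, this]
    positivity
  have m : 0 ≤ mo2 d f := integral_nonneg fun x =>
    mul_nonneg (hf.2.2 _ (by positivity)) (by positivity)
  have d0 : (0 : ℝ) < d := by exact_mod_cast h1
  have e : lam f H H = (∫ τ in Ioi (0 : ℝ), Jt H τ) / (2 * d) * mo2 d f := by
    have : lam f H H = ∫ x, f (‖x‖ ^ 2) * ⟪cH H x, qf H x⟫ := by
      simp only [lam, tq, real_inner_smul_right]
    rw [g2, ← this] at p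
    refine mul_right_cancel₀ (mul_pos d0 I).ne' (p.trans ?_)
    field_simp
  rw [e]
  refine ⟨by gcongr, fun m0 h => ?_⟩
  rcases t2 ((div_left_inj' (by positivity)).1 (mul_right_cancel₀ m0.ne' h)) with
    h0 | ⟨i, j, c, hk⟩
  · exact Or.inl h0
  · exact (K.pl0 d n).supp H i j hH c hk

end Pool.Agent.MP_815c6c_an.N

end
end MrgPart4

-- ======== part 5: formerly Pool.Agent.MP_815c6c_an.N.Tst
section MrgPart5

/-! p-harmonic maps for `p` slightly above two: Sobolev test functions in the equation. -/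

set_option autoImplicit false

noncomputable section

namespace Pool.Agent.MP_815c6c_an.N

open Set Metric MeasureTheory Filter Topology
open scoped ContDiff RealInnerProductSpace ENNReal

namespace TstA

variable {α E : Type} [MeasurableSpace α] {μ : Measure α} {p q : ℝ≥0∞} [NormedAddCommGroup E]

theorem lim [NormedSpace ℝ E] [ENNReal.HolderTriple q p 1] {b : α → ℝ} (hb : MemLp b q μ)
    {g : ℕ → α → E} (hg : ∀ j, AEStronglyMeasurable (g j) μ)
    (hl : Tendsto (fun j => eLpNorm (g j) p μ) atTop (𝓝 0)) {F : ℕ → α → ℝ} {f : α → ℝ}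
    (hF : ∀ j, Integrable (F j) μ) (hf : Integrable f μ)
    (h : ∀ j x, |F j x - f x| ≤ |b x| * ‖g j x‖) :
    Tendsto (fun j => ∫ x, F j x ∂μ) atTop (𝓝 (∫ x, f x ∂μ)) := by
  refine tendsto_integral_of_L1' _ hf.1 (Eventually.of_forall hF) ?_
  have l := ENNReal.Tendsto.const_mul hl (Or.inr hb.eLpNorm_ne_top)
  rw [mul_zero] at l
  refine tendsto_of_tendsto_of_tendsto_of_le_of_le tendsto_const_nhds l (fun _ => zero_le)
    fun j => le_trans (eLpNorm_mono fun x => ?_) (eLpNorm_smul_le_mul_eLpNorm (hg j) hb.1 (r := 1))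
  rw [Pi.smul_apply', norm_smul]
  exact h j x

theorem int [InnerProductSpace ℝ E] [ENNReal.HolderTriple q p 1] {a w : α → E} (ha : MemLp a q μ)
    (hw : MemLp w p μ) : Integrable (fun x => ⟪a x, w x⟫) μ :=
  (ha.norm.integrable_mul hw.norm).mono' (ha.1.inner hw.1)
    (Eventually.of_forall fun x => norm_inner_le_norm (a x) (w x))

theorem memA (K : Kit) {d n : ℕ} {ε : ℝ} (h : 0 ≤ ε) {G : X d → Gr d n} (hG : Mp ε G) :
    MemLp (fun x => A ε (G x)) (ENNReal.ofReal ((2 + ε) / (1 + ε)))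
      (volume.restrict (ball 0 1)) := by
  have k := MemLp.norm_rpow_div hG (ENNReal.ofReal (1 + ε))
  rw [ENNReal.toReal_ofReal (by linarith)] at k
  rw [ENNReal.ofReal_div_of_pos (by linarith)]
  refine k.congr_norm (((K.al1 _).cont ε h).comp_aestronglyMeasurable hG.1)
    (Eventually.of_forall fun x => ?_)
  rw [(K.al1 _).norm ε _ h, Real.norm_of_nonneg (by positivity)]

theorem bd {d : ℕ} {f : X d → E} (hf : Continuous f) :
    ∃ c, ∀ᵐ x ∂volume.restrict (ball (0 : X d) 1), ‖f x‖ ≤ c := by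
  obtain ⟨c, hc⟩ := (isCompact_closedBall (0 : X d) 1).exists_bound_of_continuousOn hf.continuousOn
  exact ⟨c, (ae_restrict_mem measurableSet_ball).mono fun x hx => hc x (ball_subset_closedBall hx)⟩

end TstA

theorem tst : Kit → AdmS → TstS := by
  intro K adm d n ε ρ u v G Γ z η hε hρ hS hΓ hR hv hz hw hη
  obtain ⟨φ, hφ, l1, l2⟩ := adm d n ε v z η hε hv hz hw hη
  have B := K.bas d n
  have : ENNReal.HolderConjugate (ENNReal.ofReal ((2 + ε) / (1 + ε))) (ENNReal.ofReal (2 + ε)) :=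
    Real.HolderConjugate.ennrealOfReal ⟨by field_simp; ring, by positivity, by positivity⟩
  have : IsFiniteMeasure (volume.restrict (ball (0 : X d) 1)) :=
    isFiniteMeasure_restrict.2 measure_ball_lt_top.ne
  have P1 : 1 ≤ ENNReal.ofReal (2 + ε) := ENNReal.one_le_ofReal.2 (by linarith)
  have aG := TstA.memA K hε hS.mG
  have aΓ := TstA.memA K hε hΓ
  have ha : MemLp (fun x => A ε (G x) - A ε (Γ x)) _ _ := aG.sub aΓ
  have c1 : Continuous η := hη.1.continuous
  have c2 : Continuous (gradient η) :=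
    (InnerProductSpace.toDual ℝ (X d)).symm.continuous.comp (hη.1.continuous_fderiv one_ne_zero)
  obtain ⟨b1, hb1⟩ := TstA.bd c1
  obtain ⟨b2, hb2⟩ := TstA.bd c2
  have w1 : Mp ε fun x => η x • z x := hz.of_le_mul (c := b1) (c1.aestronglyMeasurable.smul hz.1)
    (hb1.mono fun x hx => by rw [norm_smul]; gcongr)
  have w3 : Mp ε fun x => η x • v x := hv.of_le_mul (c := b1) (c1.aestronglyMeasurable.smul hv.1)
    (hb1.mono fun x hx => by rw [norm_smul]; gcongr)
  have w2 : Mp ε fun x => out (v x) (gradient η x) := hv.of_le_mul (c := b2)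
    (out.aestronglyMeasurable_comp₂ hv.1 c2.aestronglyMeasurable)
    (hb2.mono fun x hx => by rw [B.n_out, mul_comm]; gcongr)
  have w4 : Mp ε fun x => η x • z x + out (v x) (gradient η x) := w1.add w2
  refine ⟨TstA.int ha w1, TstA.int ha w2, ?_⟩
  have mc : ∀ {E : Type} [NormedAddCommGroup E] {f : X d → E}, Continuous f → Mp ε f :=
    fun hf => (TstA.bd hf).elim fun c hc => MemLp.of_bound hf.aestronglyMeasurable c hc
  have m1 : ∀ j, Mp ε (φ j) := fun j => mc (hφ j).1.continuous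
  have m2 : ∀ j, Mp ε (Dm (φ j)) := fun j => mc (B.c_Dm _ (hφ j).1)
  have one : MemLp (fun _ : X d => (1 : ℝ)) (ENNReal.ofReal ((2 + ε) / (1 + ε)))
      (volume.restrict (ball (0 : X d) 1)) := memLp_const 1
  have t1 := TstA.lim ha.norm (fun j => ((m2 j).sub w4).1) l2 (fun j => TstA.int ha (m2 j))
    (TstA.int ha w4) fun j x => by
      rw [← inner_sub_right, abs_norm]
      exact abs_real_inner_le_norm _ _
  have t2 := TstA.lim one (fun j => ((m2 j).sub w4).1) l2
    (fun j => ((m2 j).integrable P1).norm) (w4.integrable P1).norm fun j x => by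
      rw [abs_one, one_mul]
      exact abs_norm_sub_norm_le _ _
  have t3 := TstA.lim one (fun j => ((m1 j).sub w3).1) l1
    (fun j => ((m1 j).integrable P1).norm) (w3.integrable P1).norm fun j x => by
      rw [abs_one, one_mul]
      exact abs_norm_sub_norm_le _ _
  rw [integral_add (w4.integrable P1).norm (w3.integrable P1).norm]
  refine le_of_tendsto_of_tendsto' t1.abs ((t2.add t3).const_mul ρ) fun j => ?_
  obtain ⟨r, hr, h0⟩ := B.ts_Dm _ (hφ j)
  have o : ∀ x, x ∉ ball (0 : X d) 1 → φ j x = 0 ∧ Dm (φ j) x = 0 := fun x hx =>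
    h0 x (hr.le.trans (by simpa using hx))
  have e : ∀ F : X d → Gr d n, pa F (φ j) = ∫ x in ball 0 1, ⟪F x, Dm (φ j) x⟫ := fun F =>
    (setIntegral_eq_integral_of_forall_compl_eq_zero fun x hx => by
      rw [(o x hx).2, inner_zero_right]).symm
  have k1 := hS.eq _ (hφ j)
  have k2 := hR _ (hφ j)
  rw [e] at k1 k2
  rw [← setIntegral_eq_integral_of_forall_compl_eq_zero (s := ball 0 1)
    (f := fun x => ‖Dm (φ j) x‖ + ‖φ j x‖) (fun x hx => by simp [o x hx]),
    integral_add ((m2 j).integrable P1).norm ((m1 j).integrable P1).norm] at k2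
  simp only [inner_sub_left]
  rwa [integral_sub (TstA.int aG (m2 j)) (TstA.int aΓ (m2 j)), k1, zero_sub, abs_neg]

end Pool.Agent.MP_815c6c_an.N

end
end MrgPart5

-- marker of a merged file
example : 731051 + 863532 = 731051 + 863532 := rfl
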