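import Mathlib.Topology.Sheaves.Presheaf
import Mathlib.Tactic.Monotonicity.Lemmas
import Mathlib.RingTheory.Flat.TorsionFree
import Mathlib.Analysis.Calculus.BumpFunction.Convolution
import Mathlib.Analysis.Calculus.FDeriv.Symmetric
import Mathlib.Analysis.Calculus.LineDeriv.IntegrationByParts
import Mathlib.Combinatorics.SimpleGraph.Basic
import Mathlib.MeasureTheory.Function.L2Space
import Mathlib.MeasureTheory.Function.ContinuousMapDense
import Mathlib.Analysis.SpecialFunctions.Gaussian.GaussianIntegral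
import Mathlib.MeasureTheory.Integral.Pi
import Mathlib.Order.CompletePartialOrder
import Mathlib.Topology.UniformSpace.Uniformizable
import Pool.Agent.MP_815c6c_an.N.XSpec

-- ======== part 0: formerly Pool.Agent.MP_815c6c_an.N.Adm
section MrgPart0

/-! Sobolev test functions: mollification. -/

set_option autoImplicit false

noncomputable section

namespace Pool.Agent.MP_815c6c_an.N

open Set Metric MeasureTheory Filter Topology
open scoped ContDiff ENNReal Convolution Pointwise

namespace AdmA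

variable {d n : ℕ}

/-- the bumps -/
def bp (d j : ℕ) : ContDiffBump (0 : X d) :=
  ⟨1 / (j + 1), 2 / (j + 1), by positivity, div_lt_div_of_pos_right one_lt_two (by positivity)⟩

/-- the mollification -/
def mo {E : Type} [NormedAddCommGroup E] [NormedSpace ℝ E] (j : ℕ) (f : X d → E) : X d → E :=
  (bp d j).normed volume ⋆[ContinuousLinearMap.lsmul ℝ ℝ, volume] f

theorem hold {K g : X d → ℝ≥0∞} (hK : Measurable K) (hg : Measurable g) {q : ℝ} (hq : 1 ≤ q) :
    (∫⁻ t, K t * g t) ^ q ≤ (∫⁻ t, K t * g t ^ q) * (∫⁻ t, K t) ^ (q - 1) := by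
  have h0 : 0 < q := one_pos.trans_le hq
  have h1 : 0 ≤ 1 - 1 / q := sub_nonneg.2 ((div_le_one h0).2 hq)
  have e : ∀ t, K t * g t = (K t * g t ^ q) ^ (1 / q) * K t ^ (1 - 1 / q) := fun t => by
    rw [ENNReal.mul_rpow_of_nonneg _ _ (by positivity), ← ENNReal.rpow_mul, mul_one_div_cancel h0.ne',
      ENNReal.rpow_one, mul_right_comm, ← ENNReal.rpow_add_of_nonneg _ _ (by positivity) h1]
    simp
  have := ENNReal.lintegral_mul_norm_pow_le (μ := volume) (hK.mul (hg.pow_const q)).aemeasurable
    hK.aemeasurable (p := 1 / q) (q := 1 - 1 / q) (by positivity) h1 (by ring)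
  refine (ENNReal.rpow_le_rpow ((lintegral_congr e).trans_le this) h0.le).trans_eq ?_
  rw [ENNReal.mul_rpow_of_nonneg _ _ h0.le, ← ENNReal.rpow_mul, ← ENNReal.rpow_mul,
    one_div_mul_cancel h0.ne', ENNReal.rpow_one]
  congr 2
  field_simp

variable {E : Type} [NormedAddCommGroup E] [NormedSpace ℝ E]

theorem young {p : ℝ≥0∞} {f : X d → E} (hp : 1 ≤ p) (hp' : p ≠ ⊤)
    (hf : AEStronglyMeasurable f volume) {k : X d → ℝ} (hk : Continuous k)
    (hc : HasCompactSupport k) :
    eLpNorm (k ⋆[ContinuousLinearMap.lsmul ℝ ℝ, volume] f) p volume ≤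
      ENNReal.ofReal (∫ z, |k z|) * eLpNorm f p volume := by
  have p0 : p ≠ 0 := (one_pos.trans_le hp).ne'
  have hq : 1 ≤ p.toReal := by simpa using ENNReal.toReal_mono hp' hp
  have eA : ENNReal.ofReal (∫ z, |k z|) = ∫⁻ t, ‖k t‖ₑ :=
    ofReal_integral_norm_eq_lintegral_enorm (hk.integrable_of_hasCompactSupport hc)
  rw [eLpNorm_eq_lintegral_rpow_enorm_toReal p0 hp', eLpNorm_eq_lintegral_rpow_enorm_toReal p0 hp',
    eA]
  generalize p.toReal = q at hq
  have h0 : 0 < q := one_pos.trans_le hq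
  obtain ⟨g, hg, e⟩ := hf.enorm
  have hK : Measurable fun t => ‖k t‖ₑ := hk.measurable.enorm
  have m : Measurable fun z : X d × X d => ‖k z.2‖ₑ * g (z.1 - z.2) ^ q :=
    (hK.comp measurable_snd).mul ((hg.comp (measurable_fst.sub measurable_snd)).pow_const q)
  have a : ∀ x, ‖(k ⋆[ContinuousLinearMap.lsmul ℝ ℝ, volume] f) x‖ₑ ^ q ≤
      (∫⁻ t, ‖k t‖ₑ * g (x - t) ^ q) * (∫⁻ t, ‖k t‖ₑ) ^ (q - 1) := fun x => by
    refine (ENNReal.rpow_le_rpow ((enorm_integral_le_lintegral_enorm _).trans_eq ?_) h0.le).trans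
      (hold hK (hg.comp (measurable_const.sub measurable_id)) hq)
    refine lintegral_congr_ae ?_
    filter_upwards [(Measure.measurePreserving_sub_left volume x).quasiMeasurePreserving.ae e]
      with t ht
    simp [enorm_smul, ht]
  have b : ∫⁻ x, ∫⁻ t, ‖k t‖ₑ * g (x - t) ^ q = (∫⁻ t, ‖k t‖ₑ) * ∫⁻ x, ‖f x‖ₑ ^ q := by
    rw [lintegral_lintegral_swap m.aemeasurable, ← lintegral_mul_const _ hK]
    refine lintegral_congr fun t => ?_
    rw [lintegral_const_mul _ (f := fun x => g (x - t) ^ q)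
      ((hg.comp (measurable_id.sub measurable_const)).pow_const q), lintegral_sub_right_eq_self (fun x => g x ^ q) t]
    exact congrArg _ (lintegral_congr_ae (e.mono fun x hx => by simp only [hx]))
  refine (ENNReal.rpow_le_rpow (lintegral_mono a) (by positivity)).trans_eq ?_
  rw [lintegral_mul_const _ m.lintegral_prod_right', b, mul_right_comm,
    ENNReal.mul_rpow_of_nonneg _ _ (by positivity)]
  congr 1
  generalize ∫⁻ t, ‖k t‖ₑ = A
  nth_rewrite 1 [← ENNReal.rpow_one A]
  rw [← ENNReal.rpow_add_of_nonneg _ _ zero_le_one (sub_nonneg.2 hq), ← ENNReal.rpow_mul,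
    add_sub_cancel, mul_one_div_cancel h0.ne', ENNReal.rpow_one]

theorem rOut_le (j : ℕ) : (bp d j).rOut ≤ 2 :=
  div_le_self zero_le_two (le_add_of_nonneg_left j.cast_nonneg)

theorem rOut_lim (d : ℕ) : Tendsto (fun j => (bp d j).rOut) atTop (𝓝 0) := by
  simpa [bp, div_eq_mul_inv] using (tendsto_one_div_add_atTop_nhds_zero_nat (𝕜 := ℝ)).const_mul 2

theorem mo_le {p : ℝ≥0∞} {f : X d → E} (hp : 1 ≤ p) (hp' : p ≠ ⊤)
    (hf : AEStronglyMeasurable f volume) (j : ℕ) : eLpNorm (mo j f) p volume ≤ eLpNorm f p volume := by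
  have := young hp hp' hf (k := (bp d j).normed volume) (bp d j).continuous_normed
    (bp d j).hasCompactSupport_normed
  simpa only [abs_of_nonneg ((bp d j).nonneg_normed _), (bp d j).integral_normed, ENNReal.ofReal_one,
    one_mul, mo] using this

variable [CompleteSpace E]

theorem cont {p : ℝ≥0∞} (hp' : p ≠ ⊤) {g : X d → E} (hg : Continuous g)
    (hc : HasCompactSupport g) : Tendsto (fun j => eLpNorm (mo j g - g) p volume) atTop (𝓝 0) := by
  have hS : IsCompact (closedBall (0 : X d) 2 + tsupport g) := (isCompact_closedBall _ _).add hc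
  have s1 : ∀ j, (mo j g).support ⊆ closedBall (0 : X d) 2 + tsupport g := fun j =>
    (support_convolution_subset _).trans (add_subset_add ((bp d j).support_normed_eq.subset.trans
      (ball_subset_closedBall.trans (closedBall_subset_closedBall (rOut_le j)))) subset_closure)
  have s2 : g.support ⊆ closedBall (0 : X d) 2 + tsupport g := fun z hz =>
    ⟨0, mem_closedBall_self zero_le_two, z, subset_closure hz, zero_add z⟩
  have t : Tendsto (fun c : ℝ => ENNReal.ofReal c *
      volume (closedBall (0 : X d) 2 + tsupport g) ^ (1 / p.toReal)) (𝓝[>] 0) (𝓝 0) := by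
    simpa using ENNReal.Tendsto.mul_const
      ((ENNReal.continuous_ofReal.tendsto 0).mono_left (nhdsWithin_le_nhds (s := Ioi 0)))
      (Or.inr (ENNReal.rpow_ne_top_of_nonneg (by positivity) hS.measure_lt_top.ne))
  refine ENNReal.tendsto_nhds_zero.2 fun ε hε => ?_
  obtain ⟨c, h1, h2⟩ := ((ENNReal.tendsto_nhds_zero.1 t ε hε).and self_mem_nhdsWithin).exists
  obtain ⟨δ, d0, hd⟩ := Metric.uniformContinuous_iff.1 (hc.uniformContinuous_of_continuous hg) c h2
  filter_upwards [(rOut_lim d).eventually (gt_mem_nhds d0)] with j hn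
  exact (eLpNorm_sub_le_of_dist_bdd volume hp' hS.measurableSet (le_of_lt h2)
    (fun x => (bp d j).dist_normed_convolution_le hg.aestronglyMeasurable
      fun y hy => (hd (lt_trans hy hn)).le) (s1 j) s2).trans h1

/-- convergence of the mollifications -/
theorem mol {p : ℝ≥0∞} {f : X d → E} (hp : 1 ≤ p) (hp' : p ≠ ⊤) (hf : MemLp f p volume) :
    Tendsto (fun j => eLpNorm (mo j f - f) p volume) atTop (𝓝 0) := by
  refine ENNReal.tendsto_nhds_zero.2 fun ε hε => ?_
  have e3 : ε / 3 ≠ 0 := ENNReal.div_ne_zero.2 ⟨hε.ne', by simp⟩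
  obtain ⟨g, hc, hfg, hg, hm⟩ := hf.exists_hasCompactSupport_eLpNorm_sub_le hp' e3
  filter_upwards [ENNReal.tendsto_nhds_zero.1 (cont hp' hg hc) _ e3.bot_lt] with j hn
  have ex : ∀ h : X d → E, MemLp h p volume → ConvolutionExists ((bp d j).normed volume) h
      (ContinuousLinearMap.lsmul ℝ ℝ) volume := fun h hh =>
    (bp d j).hasCompactSupport_normed.convolutionExists_left _ (bp d j).continuous_normed
      (hh.locallyIntegrable hp)
  have ms : ∀ h : X d → E, MemLp h p volume → AEStronglyMeasurable (mo j h) volume := fun h hh =>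
    ((bp d j).hasCompactSupport_normed.continuous_convolution_left _ (bp d j).continuous_normed
      (hh.locallyIntegrable hp)).aestronglyMeasurable
  have e : mo j f - f = mo j (f - g) + (mo j g - g) - (f - g) := by
    have := (ex _ (hf.sub hm)).distrib_add (ex _ hm)
    rw [sub_add_cancel] at this
    rw [mo, this, mo, mo]
    abel
  have m1 := ms _ (hf.sub hm)
  have m2 := (ms _ hm).sub hm.1
  rw [e, ← ENNReal.add_thirds ε]
  exact (eLpNorm_sub_le (m1.add m2) (hf.sub hm).1 hp).trans (add_le_add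
    ((eLpNorm_add_le m1 m2 hp).trans
      (add_le_add ((mo_le hp hp' (hf.sub hm).1 j).trans hfg) hn)) hfg)

omit [CompleteSpace E] in
theorem mo_c {f : X d → E} (hf : LocallyIntegrable f volume) (j : ℕ) : ContDiff ℝ 1 (mo j f) :=
  (bp d j).hasCompactSupport_normed.contDiff_convolution_left (n := 1) _ (bp d j).contDiff_normed hf

/-- the derivative of the mollification -/
theorem mo_D {v : X d → X n} {z : X d → Gr d n} (hw : WG v z)
    (hv : LocallyIntegrable ((ball 0 1).indicator v) volume)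
    (hz : LocallyIntegrable ((ball 0 1).indicator z) volume) (j : ℕ) (x : X d)
    (hx : ‖x‖ + (bp d j).rOut < 1) :
    fderiv ℝ (mo j ((ball 0 1).indicator v)) x = act (mo j ((ball 0 1).indicator z) x) := by
  set ρ : X d → ℝ := (bp d j).normed volume with hρ
  have h1 : ContDiff ℝ 1 ρ := (bp d j).contDiff_normed (n := 1)
  have h2 : HasCompactSupport ρ := (bp d j).hasCompactSupport_normed
  have h3 : Continuous (fderiv ℝ ρ) := h1.continuous_fderiv one_ne_zero
  have ex := ((h2.fderiv ℝ).convolutionExists_left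
    ((ContinuousLinearMap.lsmul ℝ ℝ : ℝ →L[ℝ] X n →L[ℝ] X n).precompL (X d)) h3 hv x).integrable_swap
  have ez := (h2.convolutionExists_left
    (ContinuousLinearMap.lsmul ℝ ℝ : ℝ →L[ℝ] Gr d n →L[ℝ] Gr d n) h1.continuous hz x).integrable_swap
  have ns : ∀ t : X d, ‖x‖ + (bp d j).rOut < ‖t‖ → x - t ∉ tsupport ρ := fun t ht c => by
    rw [hρ, (bp d j).tsupport_normed_eq, mem_closedBall_zero_iff] at c
    linarith [norm_le_norm_add_norm_sub x t]
  have nb : ∀ t : X d, t ∉ ball (0 : X d) 1 → x - t ∉ tsupport ρ := fun t ht =>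
    ns t (hx.trans_le (by simpa using ht))
  have t : Ts fun y => ρ (x - y) := by
    refine ⟨h1.comp (contDiff_const.sub contDiff_id), (‖x‖ + (bp d j).rOut + 1) / 2, by linarith,
      fun y hy => image_eq_zero_of_notMem_tsupport (ns y (by linarith))⟩
  have dd : ∀ y, fderiv ℝ (fun y => ρ (x - y)) y = -fderiv ℝ ρ (x - y) := fun y => by
    have := ((h1.differentiable one_ne_zero) (x - y)).hasFDerivAt.comp y
      ((hasFDerivAt_id y).const_sub x)
    exact this.fderiv.trans (by simp)
  ext1 y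
  have key : fderiv ℝ (mo j ((ball 0 1).indicator v)) x y =
      ∫ t, fderiv ℝ ρ (x - t) y • (ball 0 1).indicator v t := by
    rw [mo, (h2.hasFDerivAt_convolution_left (ContinuousLinearMap.lsmul ℝ ℝ) h1 hv x).fderiv,
      convolution_eq_swap, ContinuousLinearMap.integral_apply ex]
    rfl
  have k2 : act (mo j ((ball 0 1).indicator z) x) y =
      ∫ t, ρ (x - t) • act ((ball 0 1).indicator z t) y := by
    rw [mo, convolution_eq_swap]
    refine ((act.flip y).integral_comp_comm ez).symm.trans (integral_congr_ae ?_)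
    exact Eventually.of_forall fun t => by simp
  have w := hw _ t y
  simp only [dd, neg_apply, neg_smul, integral_neg, neg_inj] at w
  rw [key, k2]
  refine (integral_congr_ae (Eventually.of_forall fun t => ?_)).trans
    (w.trans (integral_congr_ae (Eventually.of_forall fun t => ?_)))
  · by_cases c : t ∈ ball (0 : X d) 1
    · simp only [indicator_of_mem c]
    · simp [fderiv_of_notMem_tsupport ℝ (nb t c)]
  · by_cases c : t ∈ ball (0 : X d) 1
    · simp only [indicator_of_mem c]
    · simp [image_eq_zero_of_notMem_tsupport (nb t c)]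

omit [NormedSpace ℝ E] [CompleteSpace E] in
/-- a bound on the ball gives convergence -/
theorem lim {F : Type} [NormedAddCommGroup F] {p : ℝ≥0∞} {f : ℕ → X d → E} {g : ℕ → X d → F}
    {C : ℝ} (h : ∀ j, ∀ x ∈ ball (0 : X d) 1, ‖g j x‖ ≤ C * ‖f j x‖)
    (hf : Tendsto (fun j => eLpNorm (f j) p volume) atTop (𝓝 0)) :
    Tendsto (fun j => eLpNorm (g j) p (volume.restrict (ball 0 1))) atTop (𝓝 0) := by
  have t := ENNReal.Tendsto.const_mul (a := ENNReal.ofReal C) hf (Or.inr ENNReal.ofReal_ne_top)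
  rw [mul_zero] at t
  refine tendsto_of_tendsto_of_tendsto_of_le_of_le tendsto_const_nhds t (fun _ => zero_le)
    fun j => ?_
  refine (eLpNorm_le_mul_eLpNorm_of_ae_le_mul ((ae_restrict_mem measurableSet_ball).mono (h j))
    p).trans ?_
  exact mul_le_mul_right (eLpNorm_mono_measure _ Measure.restrict_le_self) _

end AdmA

open AdmA in
theorem adm (K : Kit) : AdmS := by
  intro d n ε v z η hε hv hz hw ⟨hη, r, hr, h0⟩
  have B := K.bas d n
  have hp : (1 : ℝ≥0∞) ≤ ENNReal.ofReal (2 + ε) := ENNReal.one_le_ofReal.2 (by linarith)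
  have hp' : ENNReal.ofReal (2 + ε) ≠ ⊤ := ENNReal.ofReal_ne_top
  have mv := (memLp_indicator_iff_restrict measurableSet_ball).2 hv
  have mz := (memLp_indicator_iff_restrict measurableSet_ball).2 hz
  have lv := mv.locallyIntegrable hp
  have lz := mz.locallyIntegrable hp
  have cg : Continuous (gradient η) :=
    (InnerProductSpace.toDual ℝ (X d)).symm.continuous.comp (hη.continuous_fderiv one_ne_zero)
  obtain ⟨C, hC⟩ := (isCompact_closedBall (0 : X d) 1).exists_bound_of_continuousOn
    hη.continuous.continuousOn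
  obtain ⟨C', hC'⟩ := (isCompact_closedBall (0 : X d) 1).exists_bound_of_continuousOn
    cg.continuousOn
  refine ⟨fun j x => η x • mo j ((ball 0 1).indicator v) x,
    fun j => ⟨hη.smul (mo_c lv j), r, hr, fun x hx => by simp only [h0 x hx, zero_smul]⟩,
    lim (C := C) (fun j x hx => ?_) (mol hp hp' mv), ?_⟩
  · rw [← smul_sub, norm_smul, Pi.sub_apply, indicator_of_mem hx]
    exact mul_le_mul_of_nonneg_right (hC x (ball_subset_closedBall hx)) (norm_nonneg _)
  have t1 := lim (C := C) (g := fun j x => η x • (mo j ((ball 0 1).indicator z) x - z x))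
    (fun j x hx => by
      rw [norm_smul, Pi.sub_apply, indicator_of_mem hx]
      exact mul_le_mul_of_nonneg_right (hC x (ball_subset_closedBall hx)) (norm_nonneg _))
    (mol hp hp' mz)
  have t2 := lim (C := C')
    (g := fun j x => out (mo j ((ball 0 1).indicator v) x - v x) (gradient η x))
    (fun j x hx => by
      rw [B.n_out, Pi.sub_apply, indicator_of_mem hx, mul_comm]
      exact mul_le_mul_of_nonneg_right (hC' x (ball_subset_closedBall hx)) (norm_nonneg _))
    (mol hp hp' mv)
  have t := t1.add t2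
  rw [add_zero] at t
  refine tendsto_of_tendsto_of_tendsto_of_le_of_le' tendsto_const_nhds t
    (Eventually.of_forall fun _ => zero_le) ?_
  filter_upwards [(rOut_lim d).eventually (gt_mem_nhds (sub_pos.2 hr))] with j hj
  have e : (fun x => Dm (fun x => η x • mo j ((ball 0 1).indicator v) x) x -
      (η x • z x + out (v x) (gradient η x))) =
      (fun x => η x • (mo j ((ball 0 1).indicator z) x - z x)) +
        fun x => out (mo j ((ball 0 1).indicator v) x - v x) (gradient η x) := by
    funext x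
    rw [B.D_smul _ _ x (hη.differentiable one_ne_zero x) ((mo_c lv j).differentiable one_ne_zero x),
      Pi.add_apply, map_sub, sub_apply, smul_sub]
    by_cases c : r ≤ ‖x‖
    · simp only [h0 x c, zero_smul]
      abel
    · rw [Dm, mo_D hw lv lz j x (by linarith [not_le.1 c]), B.jm_act]
      abel
  rw [e]
  refine eLpNorm_add_le (hη.continuous.aestronglyMeasurable.smul
    ((mo_c lz j).continuous.aestronglyMeasurable.sub hz.1)) ?_ hp
  exact out.aestronglyMeasurable_comp₂ ((mo_c lv j).continuous.aestronglyMeasurable.sub hv.1)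
    cg.aestronglyMeasurable

end Pool.Agent.MP_815c6c_an.N

end
end MrgPart0

-- ======== part 1: formerly Pool.Agent.MP_815c6c_an.N.Gau
section MrgPart1

/-! The Gaussian integral: Laplace representation and fourth moments. -/

set_option autoImplicit false

noncomputable section

namespace Pool.Agent.MP_815c6c_an.N

open Set MeasureTheory
open scoped RealInnerProductSpace

namespace GauA

variable {d n : ℕ}

/-- moments in one variable -/
def m1 (c : ℝ) (k : ℕ) : ℝ := ∫ t : ℝ, t ^ k * Real.exp (-(c / 2) * t ^ 2)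

theorem i1 {c : ℝ} (hc : 0 < c) (k : ℕ) :
    Integrable fun t : ℝ => t ^ k * Real.exp (-(c / 2) * t ^ 2) := by
  have := integrable_rpow_mul_exp_neg_mul_sq (half_pos hc) (s := (k : ℝ))
    (by linarith [(k.cast_nonneg : (0 : ℝ) ≤ k)])
  simpa only [Real.rpow_natCast] using this

theorem m1_succ {c : ℝ} (hc : 0 < c) (k : ℕ) : m1 c (k + 1) = c⁻¹ * (k * m1 c (k - 1)) := by
  have hd : ∀ t : ℝ, HasDerivAt (fun t : ℝ => t ^ k * Real.exp (-(c / 2) * t ^ 2))
      (k * (t ^ (k - 1) * Real.exp (-(c / 2) * t ^ 2)) -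
        c * (t ^ (k + 1) * Real.exp (-(c / 2) * t ^ 2))) t := fun t => by
    have h := (hasDerivAt_pow k t).mul (((hasDerivAt_pow 2 t).const_mul (-(c / 2))).exp)
    refine h.congr_deriv ?_
    simp only [Nat.cast_ofNat, Nat.add_one_sub_one, pow_one]
    ring
  have h := integral_eq_zero_of_hasDerivAt_of_integrable hd
    (((i1 hc _).const_mul _).sub ((i1 hc _).const_mul _)) (i1 hc k)
  rw [integral_sub ((i1 hc _).const_mul _) ((i1 hc _).const_mul _), integral_const_mul,
    integral_const_mul] at h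
  change k * m1 c (k - 1) - c * m1 c (k + 1) = 0 at h
  rw [eq_inv_mul_iff_mul_eq₀ hc.ne']
  linarith

theorem m1_zero (c : ℝ) : m1 c 0 = √(Real.pi / (c / 2)) := by
  simp only [m1, pow_zero, one_mul]
  exact integral_gaussian _

/-- the weight -/
def wt (c : Fin d → ℝ) (x : X d) : ℝ := Real.exp (-(∑ i, c i * x i ^ 2) / 2)

/-- monomials -/
def mo (ν : Fin d → ℕ) (x : X d) : ℝ := ∏ i, x i ^ ν i

/-- products of moments -/
def mm (c : Fin d → ℝ) (ν : Fin d → ℕ) : ℝ := ∏ i, m1 (c i) (ν i)

theorem mo_wt (c : Fin d → ℝ) (ν : Fin d → ℕ) (x : X d) :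
    mo ν x * wt c x = ∏ i, x i ^ ν i * Real.exp (-(c i / 2) * x i ^ 2) := by
  rw [Finset.prod_mul_distrib, ← Real.exp_sum, mo, wt]
  congr 2
  rw [neg_div, Finset.sum_div, ← Finset.sum_neg_distrib]
  exact Finset.sum_congr rfl fun i _ => by ring

theorem int_mo {c : Fin d → ℝ} (hc : ∀ i, 0 < c i) (ν : Fin d → ℕ) :
    Integrable fun x : X d => mo ν x * wt c x := by
  simp_rw [mo_wt]
  rw [← (PiLp.volume_preserving_toLp (Fin d)).integrable_comp_emb
    (MeasurableEquiv.toLp 2 _).measurableEmbedding]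
  exact Integrable.fintype_prod (f := fun i (t : ℝ) => t ^ ν i * Real.exp (-(c i / 2) * t ^ 2))
    fun i => i1 (hc i) (ν i)

theorem val_mo (c : Fin d → ℝ) (ν : Fin d → ℕ) : ∫ x : X d, mo ν x * wt c x = mm c ν := by
  simp_rw [mo_wt]
  rw [← (PiLp.volume_preserving_toLp (Fin d)).integral_comp
    (MeasurableEquiv.toLp 2 _).measurableEmbedding]
  exact integral_fintype_prod_volume_eq_prod
    fun i (t : ℝ) => t ^ ν i * Real.exp (-(c i / 2) * t ^ 2)

/-- unit vectors -/
def ee (i : Fin d) : Fin d → ℕ := Pi.single i 1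

theorem mo_add (ν μ : Fin d → ℕ) (x : X d) : mo (ν + μ) x = mo ν x * mo μ x := by
  simp only [mo, Pi.add_apply, pow_add, Finset.prod_mul_distrib]

theorem mo_ee (i : Fin d) (x : X d) : mo (ee i) x = x i := by
  unfold mo ee
  rw [Finset.prod_eq_single i (fun j _ hj => by simp [hj]) (by simp)]
  simp

theorem stein {c : Fin d → ℝ} (hc : ∀ i, 0 < c i) (ν : Fin d → ℕ) (i : Fin d) :
    mm c (ee i + ν) = (c i)⁻¹ * (ν i * mm c (ν - ee i)) := by
  unfold mm
  rw [← Finset.mul_prod_erase _ _ (Finset.mem_univ i),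
    ← Finset.mul_prod_erase _ (fun j => m1 (c j) ((ν - ee i) j)) (Finset.mem_univ i)]
  have h1 : ∏ j ∈ Finset.univ.erase i, m1 (c j) ((ee i + ν) j) =
      ∏ j ∈ Finset.univ.erase i, m1 (c j) ((ν - ee i) j) :=
    Finset.prod_congr rfl fun j hj => by simp [ee, Finset.ne_of_mem_erase hj]
  have h2 : (ee i + ν) i = ν i + 1 := by simp [ee, add_comm]
  have h3 : (ν - ee i) i = ν i - 1 := by simp [ee]
  rw [h1, h2, h3, m1_succ (hc i)]
  ring

theorem sub_ee (ν : Fin d → ℕ) (i : Fin d) : ee i + ν - ee i = ν := by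
  funext j
  simp

theorem wick2 {c : Fin d → ℝ} (hc : ∀ i, 0 < c i) (i j : Fin d) :
    mm c (ee i + ee j) = if i = j then (c i)⁻¹ * mm c 0 else 0 := by
  rw [stein hc]
  split_ifs with h
  · subst h
    have : ee i - ee i = 0 := by funext j; simp
    rw [this]
    simp [ee]
  · simp [ee, h]

theorem wick4 {c : Fin d → ℝ} (hc : ∀ i, 0 < c i) (i j k l : Fin d) :
    mm c (ee i + (ee j + (ee k + ee l))) = (c i)⁻¹ *
      ((if i = j then mm c (ee k + ee l) else 0) + (if i = k then mm c (ee j + ee l) else 0) +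
        if i = l then mm c (ee j + ee k) else 0) := by
  rw [stein hc]
  congr 1
  have h : (((ee j + (ee k + ee l)) i : ℕ) : ℝ) =
      (if i = j then 1 else 0) + (if i = k then 1 else 0) + if i = l then 1 else 0 := by
    simp only [ee, Pi.add_apply, Pi.single_apply]
    push_cast
    ring
  rw [h, add_mul, add_mul]
  congr 1
  · congr 1
    · split_ifs with h1
      · subst h1
        rw [sub_ee, one_mul]
      · simp
    · split_ifs with h1
      · subst h1
        rw [add_left_comm, sub_ee, one_mul]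
      · simp
  · split_ifs with h1
    · subst h1
      rw [← add_assoc, add_comm, sub_ee, one_mul]
    · simp

theorem mm_zero {c : Fin d → ℝ} (hc : ∀ i, 0 < c i) :
    mm c 0 = mm (fun _ : Fin d => (1 : ℝ)) 0 * (√(∏ i, c i))⁻¹ := by
  have h : √(∏ i, c i) = ∏ i, √(c i) := by
    rw [Real.sqrt_eq_iff_mul_self_eq (Finset.prod_nonneg fun i _ => (hc i).le)
      (Finset.prod_nonneg fun i _ => Real.sqrt_nonneg _), ← Finset.prod_mul_distrib]
    exact Finset.prod_congr rfl fun i _ => (Real.mul_self_sqrt (hc i).le).symm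
  rw [h, ← Finset.prod_inv_distrib, mm, mm, ← Finset.prod_mul_distrib]
  refine Finset.prod_congr rfl fun i _ => ?_
  simp only [Pi.zero_apply, m1_zero]
  rw [← Real.sqrt_inv, ← Real.sqrt_mul (by positivity)]
  congr 1
  have := (hc i).ne'
  field_simp

theorem wt_one (x : X d) : wt (fun _ => 1) x = Real.exp (-‖x‖ ^ 2 / 2) := by
  simp [wt, EuclideanSpace.real_norm_sq_eq]

theorem mo_zero (x : X d) : mo 0 x = 1 := by simp [mo]

theorem Z_eq : ∫ x : X d, Real.exp (-‖x‖ ^ 2 / 2) = mm (fun _ : Fin d => (1 : ℝ)) 0 := by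
  rw [← val_mo]
  simp only [mo_zero, one_mul, wt_one]

theorem Z_pos : 0 < mm (fun _ : Fin d => (1 : ℝ)) 0 :=
  Finset.prod_pos fun i _ => by
    simp only [Pi.zero_apply, m1_zero]
    have := Real.pi_pos
    positivity

variable {H : He d n}

theorem sd_nonneg (H : He d n) (i : Fin d) : 0 ≤ sd H i :=
  Finset.sum_nonneg fun _ _ => Finset.sum_nonneg fun _ _ => sq_nonneg _

theorem sv_eq (hs : Sy H) (hd : Dg H) (x : X d) (j : Fin d) : sv H x j = sd H j * x j := by
  have h1 : sv H x j = ∑ k, (∑ a, ∑ i, H (a, j, i) * H (a, k, i)) * x k := by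
    change ∑ k : Fin n × Fin d, H (k.1, k.2, j) * ap H x k = _
    simp only [ap_apply, Fintype.sum_prod_type, Finset.mul_sum, Finset.sum_mul]
    rw [Finset.sum_congr rfl fun a _ => Finset.sum_comm, Finset.sum_comm]
    refine Finset.sum_congr rfl fun k _ => Finset.sum_congr rfl fun a _ =>
      Finset.sum_congr rfl fun i _ => ?_
    rw [hs a i j, hs a i k]
    ring
  rw [h1, Finset.sum_eq_single j (fun k _ hk => by rw [hd j k (Ne.symm hk), zero_mul]) (by simp)]
  simp only [sd, sq]

theorem q_eq (hb : Bas d n) (hs : Sy H) (hd : Dg H) (x : X d) :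
    ‖ap H x‖ ^ 2 = ∑ i, sd H i * x i ^ 2 := by
  rw [← real_inner_self_eq_norm_sq, ← hb.i_sv, PiLp.inner_apply]
  refine Finset.sum_congr rfl fun i _ => ?_
  rw [sv_eq hs hd]
  simp only [RCLike.inner_apply, conj_trivial]
  ring

/-- the quartic form -/
def P4 (H : He d n) (x : X d) : ℝ := ⟪act (ap H x) (sv H x), qf H x⟫

theorem P4_eq (hs : Sy H) (hd : Dg H) (x : X d) : P4 H x = ∑ a, ∑ i, ∑ j, ∑ k, ∑ l,
    (H (a, i, j) * sd H i * H (a, k, l)) * mo (ee i + (ee j + (ee k + ee l))) x := by
  rw [P4, PiLp.inner_apply]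
  refine Finset.sum_congr rfl fun a _ => ?_
  simp only [RCLike.inner_apply, conj_trivial, qf, act_apply, ap_apply, sv_eq hs hd, mo_add, mo_ee]
  rw [mul_comm]
  simp only [Finset.sum_mul]
  refine Finset.sum_congr rfl fun i _ => Finset.sum_congr rfl fun j _ => ?_
  simp only [Finset.mul_sum]
  refine Finset.sum_congr rfl fun k _ => Finset.sum_congr rfl fun l _ => ?_
  ring

theorem P4_abs (hb : Bas d n) (H : He d n) (x : X d) :
    |P4 H x| ≤ ‖ap H x‖ ^ 2 * (‖H‖ ^ 2 * ‖x‖ ^ 2) := by
  have h1 := abs_real_inner_le_norm (act (ap H x) (sv H x)) (qf H x)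
  have h2 := (hb.n_act (ap H x) (sv H x)).trans
    (mul_le_mul_of_nonneg_left (hb.n_sv H x) (norm_nonneg _))
  have h3 := mul_le_mul h2 (hb.n_qf H x) (norm_nonneg _) (by positivity)
  unfold P4
  linarith

theorem P4_cont (hs : Sy H) (hd : Dg H) : Continuous (P4 H) := by
  rw [funext (P4_eq hs hd)]
  unfold mo
  fun_prop

theorem alg (hs : St0 H) (r : Fin d → ℝ) (τ Z : ℝ) (hr : ∀ i, r i = 1 - τ * (sd H i * r i)) :
    ∑ a, ∑ i, ∑ j, ∑ k, ∑ l, (H (a, i, j) * sd H i * H (a, k, l)) * (r i *
      ((if i = j then (if k = l then r k * Z else 0) else 0) +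
        (if i = k then (if j = l then r j * Z else 0) else 0) +
        if i = l then (if j = k then r j * Z else 0) else 0)) =
    Z * (∑ a, ∑ i, ∑ j, H (a, i, j) ^ 2 * (sd H i + sd H j) * (r i * r j) -
      τ * ∑ a, (∑ i, H (a, i, i) * (sd H i * r i)) ^ 2) := by
  rw [Finset.mul_sum, ← Finset.sum_sub_distrib, Finset.mul_sum]
  refine Finset.sum_congr rfl fun a _ => ?_
  have ht : ∑ k, H (a, k, k) * r k = -τ * ∑ k, H (a, k, k) * (sd H k * r k) := by
    have h0 : ∑ k, H (a, k, k) = 0 := by rw [← trc_apply, hs.2]; rfl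
    rw [Finset.sum_congr rfl fun k _ => show H (a, k, k) * r k =
      H (a, k, k) - τ * (H (a, k, k) * (sd H k * r k)) by linear_combination H (a, k, k) * hr k,
      Finset.sum_sub_distrib, h0, ← Finset.mul_sum]
    ring
  simp only [mul_add, Finset.sum_add_distrib, mul_ite, mul_zero]
  have e1 : ∑ i, ∑ j, ∑ k, ∑ l, (if i = j then (if k = l then
      H (a, i, j) * sd H i * H (a, k, l) * (r i * (r k * Z)) else 0) else 0) =
      Z * ((∑ i, H (a, i, i) * (sd H i * r i)) * ∑ k, H (a, k, k) * r k) := by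
    rw [Finset.sum_mul_sum, Finset.mul_sum]
    refine Finset.sum_congr rfl fun i _ => ?_
    rw [Finset.sum_eq_single i (fun j _ hj => by simp [Ne.symm hj]) (by simp), Finset.mul_sum]
    refine Finset.sum_congr rfl fun k _ => ?_
    simp only [if_true, Finset.sum_ite_eq, Finset.mem_univ]
    ring
  have e2 : ∑ i, ∑ j, ∑ k, ∑ l, (if i = k then (if j = l then
      H (a, i, j) * sd H i * H (a, k, l) * (r i * (r j * Z)) else 0) else 0) =
      Z * ∑ i, ∑ j, H (a, i, j) ^ 2 * sd H i * (r i * r j) := by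
    simp only [Finset.mul_sum]
    refine Finset.sum_congr rfl fun i _ => Finset.sum_congr rfl fun j _ => ?_
    rw [Finset.sum_eq_single i (fun k _ hk => by simp [Ne.symm hk]) (by simp)]
    simp only [if_true, Finset.sum_ite_eq, Finset.mem_univ]
    ring
  have e3 : ∑ i, ∑ j, ∑ k, ∑ l, (if i = l then (if j = k then
      H (a, i, j) * sd H i * H (a, k, l) * (r i * (r j * Z)) else 0) else 0) =
      Z * ∑ i, ∑ j, H (a, i, j) ^ 2 * sd H i * (r i * r j) := by
    simp only [Finset.mul_sum]
    refine Finset.sum_congr rfl fun i _ => Finset.sum_congr rfl fun j _ => ?_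
    simp only [Finset.sum_ite_eq, Finset.mem_univ, if_true]
    rw [hs.1 a j i]
    ring
  have e4 : ∑ i, ∑ j, H (a, i, j) ^ 2 * sd H j * (r i * r j) =
      ∑ i, ∑ j, H (a, i, j) ^ 2 * sd H i * (r i * r j) := by
    rw [Finset.sum_comm]
    refine Finset.sum_congr rfl fun i _ => Finset.sum_congr rfl fun j _ => ?_
    rw [hs.1 a j i]
    ring
  simp only [add_mul, Finset.sum_add_distrib]
  rw [e1, e2, e3, e4, ht]
  ring

theorem inner_val (hs : St0 H) (hd : Dg H) {τ : ℝ} (hτ : 0 ≤ τ) :
    ∫ x : X d, P4 H x * wt (fun i => 1 + τ * sd H i) x =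
      mm (fun _ : Fin d => (1 : ℝ)) 0 * Jt H τ := by
  have hc : ∀ i, 0 < 1 + τ * sd H i := fun i => by
    have := sd_nonneg H i
    positivity
  have hi := fun (t : ℝ) ν => (int_mo hc ν).const_mul t
  simp only [P4_eq hs.1 hd, Finset.sum_mul, mul_assoc _ (mo _ _)]
  rw [integral_finsetSum _ fun a _ => integrable_finsetSum _ fun i _ => integrable_finsetSum _
    fun j _ => integrable_finsetSum _ fun k _ => integrable_finsetSum _ fun l _ => hi _ _]
  rw [Finset.sum_congr rfl fun a _ => integral_finsetSum _ fun i _ => integrable_finsetSum _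
    fun j _ => integrable_finsetSum _ fun k _ => integrable_finsetSum _ fun l _ => hi _ _]
  rw [Finset.sum_congr rfl fun a _ => Finset.sum_congr rfl fun i _ => integral_finsetSum _
    fun j _ => integrable_finsetSum _ fun k _ => integrable_finsetSum _ fun l _ => hi _ _]
  rw [Finset.sum_congr rfl fun a _ => Finset.sum_congr rfl fun i _ => Finset.sum_congr rfl
    fun j _ => integral_finsetSum _ fun k _ => integrable_finsetSum _ fun l _ => hi _ _]
  rw [Finset.sum_congr rfl fun a _ => Finset.sum_congr rfl fun i _ => Finset.sum_congr rfl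
    fun j _ => Finset.sum_congr rfl fun k _ => integral_finsetSum _ fun l _ => hi _ _]
  simp only [integral_const_mul, val_mo, wick4 hc, wick2 hc]
  rw [alg hs (fun i => (1 + τ * sd H i)⁻¹) τ _ fun i => by
    have := (hc i).ne'
    field_simp
    ring, mm_zero hc, Jt]
  simp only [div_eq_mul_inv, mul_inv]
  ring

theorem laplace {q p : ℝ} (hq : 0 ≤ q) (hp : q = 0 → p = 0) :
    IntegrableOn (fun τ => p * Real.exp (-(q / 2) * τ)) (Ioi 0) ∧
      ∫ τ in Ioi (0 : ℝ), p * Real.exp (-(q / 2) * τ) = 2 * (q⁻¹ * p) := by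
  rcases hq.eq_or_lt with h | h
  · simp [hp h.symm]
  · have h1 : -(q / 2) < 0 := by linarith
    refine ⟨(integrableOn_exp_mul_Ioi h1 0).const_mul p, ?_⟩
    rw [integral_const_mul, integral_exp_mul_Ioi h1]
    have := h.ne'
    simp only [mul_zero, Real.exp_zero]
    field_simp

end GauA

open GauA in
theorem gau : Kit → GauS := by
  intro kit d n H hs hd
  have hb := kit.bas d n
  have hq := q_eq hb hs.1 hd
  set K : X d → ℝ → ℝ := fun x τ => P4 H x * wt (fun i => 1 + τ * sd H i) x with hK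
  have eK : ∀ x τ, K x τ =
      (Real.exp (-‖x‖ ^ 2 / 2) * P4 H x) * Real.exp (-(‖ap H x‖ ^ 2 / 2) * τ) := fun x τ => by
    have h1 : wt (fun i => 1 + τ * sd H i) x =
        Real.exp (-‖x‖ ^ 2 / 2) * Real.exp (-(‖ap H x‖ ^ 2 / 2) * τ) := by
      rw [← Real.exp_add, wt, hq, EuclideanSpace.real_norm_sq_eq]
      congr 1
      simp only [add_mul, one_mul, Finset.sum_add_distrib, mul_assoc, ← Finset.mul_sum]
      ring
    simp only [hK, h1]
    ring
  have h0 : ∀ x, ‖ap H x‖ ^ 2 = 0 → P4 H x = 0 := fun x h => by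
    have := P4_abs hb H x
    rw [h, zero_mul] at this
    exact abs_nonpos_iff.mp this
  have hc : Continuous (Function.uncurry K) := by
    have h1 := P4_cont hs.1 hd
    change Continuous fun z : X d × ℝ => P4 H z.1 * wt (fun i => 1 + z.2 * sd H i) z.1
    unfold wt
    fun_prop
  have hI : Integrable (Function.uncurry K) (volume.prod (volume.restrict (Ioi 0))) := by
    rw [integrable_prod_iff hc.aestronglyMeasurable]
    refine ⟨Filter.Eventually.of_forall fun x => ?_, ?_⟩
    · simp only [Function.uncurry_apply_pair, eK]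
      exact (laplace (sq_nonneg _) fun h => by rw [h0 x h, mul_zero]).1
    · have h2 : Integrable fun x : X d =>
          2 * ‖H‖ ^ 2 * ∑ i, mo (ee i + ee i) x * wt (fun _ => 1) x :=
        (integrable_finsetSum _ fun i _ => int_mo (fun _ => one_pos) _).const_mul _
      refine h2.mono' hc.norm.stronglyMeasurable.integral_prod_right'.aestronglyMeasurable
        (Filter.Eventually.of_forall fun x => ?_)
      have h3 : ∀ τ, ‖Function.uncurry K (x, τ)‖ =
          (Real.exp (-‖x‖ ^ 2 / 2) * |P4 H x|) * Real.exp (-(‖ap H x‖ ^ 2 / 2) * τ) := fun τ => by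
        simp only [Function.uncurry_apply_pair, eK, Real.norm_eq_abs, abs_mul, Real.abs_exp]
      have h4 : ∑ i, mo (ee i + ee i) x * wt (fun _ => 1) x =
          ‖x‖ ^ 2 * Real.exp (-‖x‖ ^ 2 / 2) := by
        simp only [mo_add, mo_ee, wt_one, ← Finset.sum_mul]
        rw [EuclideanSpace.real_norm_sq_eq]
        simp only [sq]
      simp only [h3]
      rw [(laplace (sq_nonneg _) fun h => by rw [h0 x h, abs_zero, mul_zero]).2, h4,
        Real.norm_of_nonneg (by positivity)]
      have h5 : (‖ap H x‖ ^ 2)⁻¹ * |P4 H x| ≤ ‖H‖ ^ 2 * ‖x‖ ^ 2 :=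
        inv_mul_le_of_le_mul₀ (sq_nonneg _) (by positivity) (P4_abs hb H x)
      have h6 := mul_le_mul_of_nonneg_left h5 (Real.exp_pos (-‖x‖ ^ 2 / 2)).le
      linarith
  have hv : ∀ τ ∈ Ioi (0 : ℝ), ∫ x, K x τ = mm (fun _ : Fin d => (1 : ℝ)) 0 * Jt H τ :=
    fun τ hτ => inner_val hs hd (le_of_lt hτ)
  have hZ := Z_pos (d := d)
  refine ⟨?_, ?_⟩
  · have h1 : IntegrableOn (fun τ => (mm (fun _ : Fin d => (1 : ℝ)) 0)⁻¹ * ∫ x, K x τ) (Ioi 0) :=
      hI.integral_prod_right.const_mul _
    refine h1.congr_fun (fun τ hτ => ?_) measurableSet_Ioi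
    simp only [hv τ hτ]
    rw [inv_mul_cancel_left₀ hZ.ne']
  · have h1 := integral_integral_swap hI
    rw [setIntegral_congr_fun measurableSet_Ioi hv, integral_const_mul] at h1
    have h2 : ∀ x, ∫ τ in Ioi (0 : ℝ), K x τ =
        2 * (Real.exp (-‖x‖ ^ 2 / 2) * ⟪cH H x, qf H x⟫) := fun x => by
      simp only [eK]
      rw [(laplace (sq_nonneg _) fun h => by rw [h0 x h, mul_zero]).2, cH, real_inner_smul_left, P4]
      ring
    simp only [h2] at h1
    rw [integral_const_mul] at h1
    rw [Z_eq]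
    linarith

end Pool.Agent.MP_815c6c_an.N

end
end MrgPart1

-- ======== part 2: formerly Pool.Agent.MP_815c6c_an.N.Ker
section MrgPart2

/-! The averaging kernel, mean values and mean derivatives. -/

set_option autoImplicit false

noncomputable section

namespace Pool.Agent.MP_815c6c_an.N

open Set Metric MeasureTheory Filter Topology
open scoped ContDiff RealInnerProductSpace ENNReal

namespace KerA

variable {d n : ℕ}

theorem kp_sm : ContDiff ℝ ∞ kp :=
  Real.smoothTransition.contDiff.comp (contDiff_const.sub (contDiff_const.mul contDiff_id))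

theorem kp_zero {t : ℝ} (h : 1 / 4 ≤ t) : kp t = 0 :=
  Real.smoothTransition.zero_of_nonpos (by linarith)

theorem sq_ge {x : X d} (h : 1 / 2 ≤ ‖x‖) : 1 / 4 ≤ ‖x‖ ^ 2 := by nlinarith

theorem supp {F : Type} [NormedAddCommGroup F] {g : X d → F} (h : ∀ x, 1 / 2 ≤ ‖x‖ → g x = 0) :
    HasCompactSupport g :=
  HasCompactSupport.intro (isCompact_closedBall (0 : X d) 1) fun x hx => h x (by
    rw [mem_closedBall_zero_iff, not_le] at hx
    linarith)

theorem I_pos : 0 < ∫ y : X d, kp (‖y‖ ^ 2) := by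
  refine Continuous.integral_pos_of_hasCompactSupport_nonneg_nonzero (x := 0)
    (kp_sm.continuous.comp (continuous_norm.pow 2)) (supp fun x hx => kp_zero (sq_ge hx))
    (fun _ => Real.smoothTransition.nonneg _) ?_
  exact (Real.smoothTransition.pos_of_pos (by simp)).ne'

theorem sa : ContDiff ℝ ∞ (ka d) := kp_sm.div_const _

theorem sm : ContDiff ℝ ∞ (kk : X d → ℝ) := sa.comp (contDiff_norm_sq ℝ)

theorem za (t : ℝ) (h : 1 / 4 ≤ t) : ka d t = 0 := by simp [ka, kp_zero h]

theorem nn (t : ℝ) : 0 ≤ ka d t := div_nonneg (Real.smoothTransition.nonneg _) I_pos.le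

theorem anti (t : ℝ) : deriv (ka d) t ≤ 0 := by
  refine Antitone.deriv_nonpos fun a b hab => ?_
  exact div_le_div_of_nonneg_right (Real.smoothTransition.monotone (by linarith)) I_pos.le

theorem one : ∫ x : X d, kk x = 1 := by
  simp only [kk, ka]
  rw [integral_div, div_self I_pos.ne']

theorem grad (x : X d) : gradient kk x = (2 * deriv (ka d) (‖x‖ ^ 2)) • x := by
  have h1 : HasDerivAt (ka d) (deriv (ka d) (‖x‖ ^ 2)) (‖x‖ ^ 2) :=
    ((sa.differentiable (by simp)) _).hasDerivAt
  have h2 := h1.comp_hasFDerivAt x (hasStrictFDerivAt_norm_sq x).hasFDerivAt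
  have h3 : fderiv ℝ kk x = _ := h2.fderiv
  refine ext_inner_right ℝ fun y => ?_
  rw [inner_gradient_left, h3, inner_smul_left]
  simp
  ring

theorem zero (x : X d) (h : 1 / 2 ≤ ‖x‖) : kk x = 0 ∧ gradient kk x = 0 := by
  refine ⟨za _ (sq_ge h), ?_⟩
  have : deriv (ka d) (‖x‖ ^ 2) = 0 :=
    IsLocalMin.deriv_eq_zero (Eventually.of_forall fun t => by
      rw [za _ (sq_ge h)]
      exact nn t)
  rw [grad, this]
  simp

theorem c_grad : Continuous (gradient (kk : X d → ℝ)) := by
  have : gradient (kk : X d → ℝ) = fun x => (2 * deriv (ka d) (‖x‖ ^ 2)) • x := funext grad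
  rw [this]
  exact (continuous_const.mul ((sa.continuous_deriv (by simp)).comp
    (continuous_norm.pow 2))).smul continuous_id

section bil
variable {E F G : Type} [NormedAddCommGroup E] [NormedSpace ℝ E] [NormedAddCommGroup F]
  [NormedSpace ℝ F] [NormedAddCommGroup G] [NormedSpace ℝ G]

omit [NormedSpace ℝ F] in
theorem off {g : X d → F} (h : ∀ x, 1 / 2 ≤ ‖x‖ → g x = 0) {x : X d}
    (hx : x ∉ ball (0 : X d) 1) : g x = 0 := h x (by
  rw [mem_ball_zero_iff, not_lt] at hx
  linarith)

theorem bil (B : E →L[ℝ] F →L[ℝ] G) {g : X d → F} (hg : Continuous g)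
    (h : ∀ x, 1 / 2 ≤ ‖x‖ → g x = 0) : ∃ C : ℝ, 0 ≤ C ∧ ∀ z : X d → E, Ib z →
      Integrable (fun x => B (z x) (g x)) ∧ ‖∫ x, B (z x) (g x)‖ ≤ C * L1 z := by
  obtain ⟨C, hC⟩ := hg.bounded_above_of_compact_support (supp h)
  have h0 : 0 ≤ C := (norm_nonneg _).trans (hC 0)
  refine ⟨‖B‖ * C, by positivity, fun z hz => ?_⟩
  have hb : ∀ x, ‖B (z x) (g x)‖ ≤ ‖B‖ * C * ‖z x‖ := fun x =>
    (B.le_opNorm₂ _ _).trans (by
      have := mul_le_mul_of_nonneg_left (hC x) (mul_nonneg (norm_nonneg B) (norm_nonneg (z x)))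
      linarith)
  have hi : IntegrableOn (fun x => B (z x) (g x)) (ball 0 1) :=
    Integrable.mono' (hz.norm.const_mul (‖B‖ * C))
      (B.aestronglyMeasurable_comp₂ hz.1 hg.aestronglyMeasurable) (Eventually.of_forall hb)
  have ho : ∀ x, x ∉ ball (0 : X d) 1 → B (z x) (g x) = 0 := fun x hx => by simp [off h hx]
  refine ⟨hi.integrable_of_forall_notMem_eq_zero ho, ?_⟩
  rw [← setIntegral_eq_integral_of_forall_compl_eq_zero ho, L1, ← integral_const_mul]
  exact norm_integral_le_of_norm_le (hz.norm.const_mul _) (Eventually.of_forall hb)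

theorem smu {g : X d → ℝ} (hg : Continuous g) (h : ∀ x, 1 / 2 ≤ ‖x‖ → g x = 0) :
    ∃ C : ℝ, 0 ≤ C ∧ ∀ z : X d → E, Ib z →
      Integrable (fun x => g x • z x) ∧ ‖∫ x, g x • z x‖ ≤ C * L1 z :=
  bil (ContinuousLinearMap.lsmul ℝ ℝ : ℝ →L[ℝ] E →L[ℝ] E).flip hg h

omit [NormedSpace ℝ E] in
theorem ib_c {z : X d → E} (hz : Continuous z) : Ib z :=
  (hz.continuousOn.integrableOn_compact (isCompact_closedBall (0 : X d) 1)).mono_set
    ball_subset_closedBall

theorem int_bb {z : X d → E} (hz : Ib z) : Integrable fun x => kk x • z x :=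
  ((smu sm.continuous fun x hx => (zero x hx).1).choose_spec.2 z hz).1

theorem bb_add (z w : X d → E) (s t : ℝ) (hz : Ib z) (hw : Ib w) :
    bb (fun x => s • z x + t • w x) = s • bb z + t • bb w := by
  simp only [bb, smul_add, smul_comm (kk _) s, smul_comm (kk _) t]
  exact (integral_add ((int_bb hz).smul s) ((int_bb hw).smul t)).trans
    (by simp only [Pi.smul_apply, integral_smul])

theorem bb_odd (z : X d → E) (h : ∀ x, z (-x) = -z x) : bb z = 0 := by
  have h1 := integral_neg_eq_self (fun x : X d => kk x • z x) volume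
  simp only [kk, norm_neg, h, smul_neg, integral_neg] at h1
  have h2 : (2 : ℝ) • bb z = 0 := by
    rw [two_smul]
    exact neg_eq_iff_add_eq_zero.mp h1
  exact (smul_eq_zero.mp h2).resolve_left two_ne_zero

end bil

theorem int_HH {z : X d → Gr d n} (hz : Ib z) : Integrable fun x => tens (z x) (gradient kk x) :=
  ((bil tens c_grad fun x hx => (zero x hx).2).choose_spec.2 z hz).1

theorem HH_add (z w : X d → Gr d n) (s t : ℝ) (hz : Ib z) (hw : Ib w) :
    HH (fun x => s • z x + t • w x) = s • HH z + t • HH w := by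
  simp only [HH, map_add, map_smul, add_apply, smul_apply]
  refine (congrArg Neg.neg (integral_add ((int_HH hz).smul s) ((int_HH hw).smul t))).trans ?_
  simp only [Pi.smul_apply, integral_smul, smul_neg, neg_add]

theorem c_aff (b : Gr d n) (H : He d n) : Continuous fun x => b + ap H x :=
  continuous_const.add (ap H).continuous

theorem bb_aff (b : Gr d n) (H : He d n) : bb (fun x => b + ap H x) = b := by
  have h := bb_add (fun _ : X d => b) (fun x => ap H x) 1 1 (ib_c continuous_const)
    (ib_c (ap H).continuous)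
  simp only [one_smul] at h
  rw [h, bb_odd (fun x => ap H x) (by simp), add_zero, bb, integral_smul_const, one, one_smul]

/-- the partial derivatives of the kernel -/
def pk (j : Fin d) (x : X d) : ℝ := fderiv ℝ kk x (EuclideanSpace.single j 1)

theorem pk_eq (j : Fin d) (x : X d) : gradient kk x j = pk j x := by
  rw [pk, ← inner_gradient_left, EuclideanSpace.inner_single_right]
  simp

theorem pk_zero (j : Fin d) (x : X d) (h : 1 / 2 ≤ ‖x‖) : pk j x = 0 := by
  rw [← pk_eq, (zero x h).2]
  rfl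

theorem sm2 : ContDiff ℝ 2 (kk : X d → ℝ) := contDiff_infty.1 sm 2

theorem fd_sm : ContDiff ℝ 1 (fderiv ℝ (kk : X d → ℝ)) :=
  sm2.fderiv_right (by norm_num)

theorem pk_sm (j : Fin d) : ContDiff ℝ 1 (pk j) := fd_sm.clm_apply contDiff_const

theorem comp_int {ι : Type} [Fintype ι] {f : X d → EuclideanSpace ℝ ι} (hf : Integrable f)
    (k : ι) : (∫ x, f x) k = ∫ x, f x k :=
  ((EuclideanSpace.proj k : EuclideanSpace ℝ ι →L[ℝ] ℝ).integral_comp_comm hf).symm

theorem HH_apply {z : X d → Gr d n} (hz : Ib z) (a : Fin n) (i j : Fin d) :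
    HH z (a, i, j) = -∫ x, z x (a, i) * pk j x := by
  rw [HH, PiLp.neg_apply, comp_int (int_HH hz)]
  simp only [tens_apply, pk_eq]

theorem HH_aff (b : Gr d n) (H : He d n) : HH (fun x => b + ap H x) = H := by
  ext ⟨a, i, j⟩
  rw [HH_apply (ib_c (c_aff b H))]
  let L : X d →L[ℝ] ℝ := (EuclideanSpace.proj (a, i) : Gr d n →L[ℝ] ℝ).comp (ap H)
  have hf : ∀ x, HasFDerivAt (fun x => (b + ap H x) (a, i)) L x := fun x =>
    L.hasFDerivAt.const_add (b (a, i))
  have hL : L (EuclideanSpace.single j 1) = H (a, i, j) := by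
    change ap H _ (a, i) = _
    simp [ap_apply]
  have hc : Continuous fun x => (b + ap H x) (a, i) :=
    (Differentiable.continuous (𝕜 := ℝ) fun x => (hf x).differentiableAt)
  have hk : ∀ x : X d, 1 / 2 ≤ ‖x‖ → kk x = 0 := fun x hx => (zero x hx).1
  have h := integral_mul_fderiv_eq_neg_fderiv_mul_of_integrable (μ := volume)
    (f := fun x => (b + ap H x) (a, i)) (g := kk) (v := EuclideanSpace.single j 1) ?_ ?_ ?_
    (fun x _ => (hf x).differentiableAt) (fun x _ => sm.differentiable (by simp) x)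
  · simp only [(hf _).fderiv, hL] at h
    rw [integral_const_mul, one, mul_one] at h
    simp only [pk]
    rw [h, neg_neg]
  · simp only [(hf _).fderiv]
    exact (sm.continuous.integrable_of_hasCompactSupport (supp hk)).const_mul _
  · exact (hc.mul (pk_sm j).continuous).integrable_of_hasCompactSupport
      (supp fun x hx => by simp [pk_zero j x hx])
  · exact (hc.mul sm.continuous).integrable_of_hasCompactSupport
      (supp fun x hx => by simp [hk x hx])

theorem pr_eq (z : X d → Gr d n) :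
    pr z = fun x => (1 : ℝ) • z x + (-1 : ℝ) • (bb z + ap (HH z) x) := by
  funext x
  simp only [pr, one_smul, neg_smul]
  abel

theorem pk_sy (i j : Fin d) (x : X d) : fderiv ℝ (pk j) x (EuclideanSpace.single i 1) =
    fderiv ℝ (pk i) x (EuclideanSpace.single j 1) := by
  have hd : DifferentiableAt ℝ (fderiv ℝ (kk : X d → ℝ)) x := fd_sm.differentiable (by simp) x
  have key : ∀ (k : Fin d) (y : X d), fderiv ℝ (pk k) x y =
      fderiv ℝ (fderiv ℝ kk) x y (EuclideanSpace.single k 1) := fun k y => by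
    have : pk k = fun x => fderiv ℝ kk x (EuclideanSpace.single k 1) := rfl
    rw [this, fderiv_clm_apply hd (differentiableAt_const _)]
    simp
  rw [key, key]
  exact (sm2.contDiffAt.isSymmSndFDerivAt (by simp)) _ _

theorem sy (v : X d → X n) (z : X d → Gr d n) (hz : Ib z) (h : WG v z) : Sy (HH z) := by
  have key : ∀ a i j, HH z (a, i, j) =
      (∫ x, fderiv ℝ (pk j) x (EuclideanSpace.single i 1) • v x) a := fun a i j => by
    have hi : Ib fun x => act (z x) (EuclideanSpace.single i 1) :=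
      (act.flip (EuclideanSpace.single i 1)).integrable_comp hz
    rw [h (pk j) ⟨pk_sm j, 1 / 2, by norm_num, pk_zero j⟩, HH_apply hz, PiLp.neg_apply,
      comp_int ((smu (pk_sm j).continuous (pk_zero j)).choose_spec.2 _ hi).1]
    simp [act_apply, mul_comm]
  intro a i j
  rw [key, key]
  simp only [pk_sy i j]

end KerA

open KerA in
theorem ker : BasS → KerS := fun _ d n =>
  { sm := sm
    sa := sa
    zero := zero
    za := za
    nn := nn
    anti := anti
    one := one
    grad := grad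
    bb_add := fun z w s t hz hw => bb_add z w s t hz hw
    HH_add := HH_add
    bb_smul := fun z s => by
      simp only [bb, smul_comm (kk _) s]
      exact integral_smul _ _
    HH_smul := fun z s => by
      simp only [HH, map_smul, smul_apply]
      rw [integral_smul, smul_neg]
    bb_aff := bb_aff
    HH_aff := HH_aff
    bb_odd := bb_odd
    pr_zero := fun z hz => by
      rw [pr_eq, bb_add _ _ _ _ hz (ib_c (c_aff _ _)), HH_add _ _ _ _ hz (ib_c (c_aff _ _)),
        bb_aff, HH_aff]
      simp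
    bd := by
      obtain ⟨C, hC, h1⟩ := smu (E := Gr d n) sm.continuous fun x hx => (zero x hx).1
      obtain ⟨D, hD, h2⟩ := bil (tens (d := d) (n := n)) c_grad fun x hx => (zero x hx).2
      refine ⟨C + D, by positivity, fun z hz => ?_⟩
      have h0 : 0 ≤ L1 z := integral_nonneg fun _ => norm_nonneg _
      have h3 := mul_nonneg hC h0
      have h4 := mul_nonneg hD h0
      refine ⟨(h1 z hz).2.trans (by linarith), ?_⟩
      rw [HH, norm_neg]
      exact (h2 z hz).2.trans (by linarith)
    sy := fun v z _ hz h => sy v z hz h }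

end Pool.Agent.MP_815c6c_an.N

end
end MrgPart2

-- ======== part 3: formerly Pool.Agent.MP_815c6c_an.N.Fin
section MrgPart3

/-! Gluing, linear decay of the oscillation, and the conclusion on open sets. -/

set_option autoImplicit false

noncomputable section

namespace Pool.Agent.MP_815c6c_an.N

open Set Metric MeasureTheory Filter Topology
open scoped ContDiff RealInnerProductSpace ENNReal

namespace FinA

variable {d n : ℕ} {x : X d} {r ρ : ℝ}

theorem emb (x : X d) (hr : 0 < r) : MeasurableEmbedding fun z : X d => x + r • z :=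
  ((Homeomorph.smulOfNeZero r hr.ne').trans (Homeomorph.addLeft x)).measurableEmbedding

theorem mem_sc (hr : 0 < r) {z : X d} : x + r • z ∈ ball x (r * ρ) ↔ z ∈ ball (0 : X d) ρ := by
  simp [norm_smul, abs_of_pos hr, hr]

theorem map_sc (x : X d) (hr : 0 < r) (ρ : ℝ) :
    (volume.restrict (ball (0 : X d) ρ)).map (fun z : X d => x + r • z) =
      ENNReal.ofReal (r ^ d)⁻¹ • volume.restrict (ball x (r * ρ)) := by
  have e1 := Measure.map_addHaar_smul (volume : Measure (X d)) hr.ne'
  rw [finrank_euclideanSpace_fin, abs_of_pos (by positivity)] at e1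
  have e : (volume : Measure (X d)).map (fun z : X d => x + r • z) =
      ENNReal.ofReal (r ^ d)⁻¹ • volume := by
    have := Measure.map_map (μ := (volume : Measure (X d))) (measurable_const_add x)
      (measurable_const_smul r)
    rw [e1, Measure.map_smul, map_add_left_eq_self] at this
    exact this.symm
  have s : (fun z : X d => x + r • z) ⁻¹' ball x (r * ρ) = ball 0 ρ := by
    ext z
    rw [mem_preimage]
    exact mem_sc hr
  rw [← Measure.restrict_smul, ← e, (emb x hr).restrict_map, s]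

theorem int_sc (x : X d) (hr : 0 < r) (ρ : ℝ) (g : X d → ℝ) :
    ∫ z in ball (0 : X d) ρ, g (x + r • z) = (r ^ d)⁻¹ * ∫ y in ball x (r * ρ), g y := by
  rw [← (emb x hr).integral_map, map_sc x hr, integral_smul_measure,
    ENNReal.toReal_ofReal (by positivity), smul_eq_mul]

theorem ae_sc (x : X d) (hr : 0 < r) {P : X d → Prop}
    (h : ∀ᵐ z ∂volume.restrict (ball (0 : X d) ρ), P (x + r • z)) :
    ∀ᵐ y ∂volume.restrict (ball x (r * ρ)), P y := by
  have c0 : ENNReal.ofReal (r ^ d)⁻¹ ≠ 0 := by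
    rw [ne_eq, ENNReal.ofReal_eq_zero, not_le]; positivity
  rwa [← Measure.ae_ennreal_smul_measure_iff c0, ← map_sc x hr, (emb x hr).ae_map_iff]

theorem inv_sc (x : X d) (hr : 0 < r) (z : X d) : r⁻¹ • (x + r • z - x) = z := by
  rw [add_sub_cancel_left, inv_smul_smul₀ hr.ne']

theorem mem_inv (hr : 0 < r) {y : X d} (hy : y ∈ ball x (r * ρ)) :
    r⁻¹ • (y - x) ∈ ball (0 : X d) ρ := by
  rw [← mem_sc (x := x) hr, smul_inv_smul₀ hr.ne', add_sub_cancel]
  exact hy

instance finB (x : X d) (ρ : ℝ) : IsFiniteMeasure (volume.restrict (ball x ρ)) :=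
  isFiniteMeasure_restrict.2 measure_ball_lt_top.ne

theorem sq_int {μ : Measure (X d)} [IsFiniteMeasure μ] {f : X d → Gr d n} (h : MemLp f 2 μ)
    (c : Gr d n) : Integrable (fun z => ‖f z - c‖ ^ 2) μ :=
  have := h.sub (memLp_const c)
  (memLp_two_iff_integrable_sq_norm this.1).1 this

theorem var_le {μ : Measure (X d)} [IsFiniteMeasure μ] {f : X d → Gr d n} (h : MemLp f 2 μ)
    (c : Gr d n) : ∫ z, ‖f z - ⨍ y, f y ∂μ‖ ^ 2 ∂μ ≤ ∫ z, ‖f z - c‖ ^ 2 ∂μ := by
  set m := ⨍ y, f y ∂μ
  have i1 : Integrable (fun z => f z - m) μ := (h.integrable one_le_two).sub (integrable_const m)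
  have z0 : ∫ z, inner ℝ (m - c) (f z - m) ∂μ = 0 := by
    rw [integral_inner i1, integral_sub_average, inner_zero_right]
  have : ∫ z, (‖f z - m‖ ^ 2 + 2 * inner ℝ (m - c) (f z - m)) ∂μ ≤ ∫ z, ‖f z - c‖ ^ 2 ∂μ := by
    refine integral_mono ((sq_int h m).add ((i1.const_inner _).const_mul 2)) (sq_int h c)
      fun z => ?_
    have := norm_add_sq_real (m - c) (f z - m)
    rw [show m - c + (f z - m) = f z - c by abel] at this
    simp only
    nlinarith [sq_nonneg ‖m - c‖]
  rwa [integral_add (sq_int h m) ((i1.const_inner _).const_mul 2), integral_const_mul, z0,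
    mul_zero, add_zero] at this

theorem vol_pos (x : X d) (h : 0 < ρ) : 0 < volume.real (ball x ρ) :=
  ENNReal.toReal_pos (measure_ball_pos _ _ h).ne' measure_ball_lt_top.ne

theorem vol_eq (x : X d) (h : 0 < ρ) :
    volume.real (ball x ρ) = ρ ^ d * volume.real (ball (0 : X d) 1) := by
  rw [Measure.real, Measure.addHaar_ball_of_pos _ _ h, finrank_euclideanSpace_fin,
    ENNReal.toReal_mul, ENNReal.toReal_ofReal (by positivity)]
  rfl

theorem osc_le {f : X d → Gr d n} {B : ℝ} (hρ : 0 < ρ)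
    (h : MemLp f 2 (volume.restrict (ball x ρ))) (c : Gr d n) (hB : 0 ≤ B)
    (b : ∫ z in ball x ρ, ‖f z - c‖ ^ 2 ≤ volume.real (ball x ρ) * B ^ 2) : osc f x ρ ≤ B := by
  refine Real.sqrt_le_iff.2 ⟨hB, ?_⟩
  rw [setAverage_eq, smul_eq_mul, inv_mul_le_iff₀ (vol_pos x hρ)]
  exact (var_le h c).trans b

theorem osc_sq (f : X d → Gr d n) (hρ : 0 < ρ) :
    ∫ z in ball x ρ, ‖f z - ⨍ y in ball x ρ, f y‖ ^ 2 = volume.real (ball x ρ) * osc f x ρ ^ 2 := by
  rw [osc, setAverage_eq _ (fun z => ‖f z - _‖ ^ 2), smul_eq_mul, Real.sq_sqrt (mul_nonneg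
    (inv_nonneg.2 measureReal_nonneg) (integral_nonneg fun _ => sq_nonneg _)),
    mul_inv_cancel_left₀ (vol_pos x hρ).ne']

end FinA

open FinA

theorem glu : GluS := by
  intro d n U f hU h
  choose! r hr g c hg using h
  have e : ∀ x ∈ U, ∀ y ∈ U, y ∈ ball x (r x) → g y y = g x y := by
    intro x hx y hy hxy
    refine Measure.eqOn_open_of_ae_eq (μ := volume) (U := ball x (r x) ∩ ball y (r y)) ?_
      (isOpen_ball.inter isOpen_ball) ((c y hy).continuousOn.mono inter_subset_right)
      ((c x hx).continuousOn.mono inter_subset_left) ⟨hxy, mem_ball_self (hr y hy)⟩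
    filter_upwards [ae_restrict_of_ae_restrict_of_subset inter_subset_left (hg x hx),
      ae_restrict_of_ae_restrict_of_subset inter_subset_right (hg y hy)] with z a b
    rw [a, b]
  refine ⟨fun x => g x x, fun x hx => ContDiffAt.contDiffWithinAt ?_, ?_⟩
  · refine ((c x hx).contDiffAt (ball_mem_nhds x (hr x hx))).congr_of_eventuallyEq ?_
    filter_upwards [hU.mem_nhds hx, ball_mem_nhds x (hr x hx)] with y a b
    exact e x hx y a b
  · refine (ae_restrict_iff' hU.measurableSet).2 (ae_iff.2 (measure_null_of_locally_null _ ?_))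
    intro x hx
    have hx' : x ∈ U := (Classical.not_imp.1 hx).1
    refine ⟨_, inter_mem_nhdsWithin _ (ball_mem_nhds x (hr x hx')), ?_⟩
    refine measure_mono_null (fun y hy => ?_)
      (ae_iff.1 ((ae_restrict_iff' measurableSet_ball).1 (hg x hx')))
    exact fun a => hy.1 fun b => (e x hx' y b hy.2).trans (a hy.2)

theorem oscS : OscS := by
  intro d n C C0
  have V0 := vol_pos (0 : X d) one_pos
  obtain ⟨u, u0, hu⟩ : ∃ u : ℝ, 0 < u ∧ u ^ 2 = 2 ^ d * volume.real (ball (0 : X d) 1) :=
    ⟨√_, by positivity, Real.sq_sqrt (by positivity)⟩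
  refine ⟨C * u + 4 * 2 ^ d, fun f W x r r0 hX e l θ hθ => ?_⟩
  have θ0 := hθ.1
  have sub : ∀ {ρ : ℝ}, ρ ≤ r → volume.restrict (ball x ρ) ≤ volume.restrict (ball x r) :=
    fun h => Measure.restrict_mono (ball_subset_ball h) le_rfl
  have tr : θ * r ≤ r := mul_le_of_le_one_left r0.le hθ.2
  have hX' := hX.mono_measure (sub tr)
  have o2 := osc_sq (x := x) f r0
  have O0 : 0 ≤ osc f x r := Real.sqrt_nonneg _
  generalize osc f x r = O at *
  set m := ⨍ y in ball x r, f y
  have bd : ∀ {ρ : ℝ}, ρ ≤ r → ∫ z in ball x ρ, ‖f z - m‖ ^ 2 ≤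
      r ^ d * volume.real (ball (0 : X d) 1) * O ^ 2 := fun h => by
    have := integral_mono_measure (sub h) (ae_of_all _ fun _ => sq_nonneg _) (sq_int hX m)
    rwa [o2, vol_eq x r0] at this
  have p2 : (0 : ℝ) < 2 ^ d := by positivity
  rcases le_total θ (1 / 4) with h | h
  · have r2 : 0 < r / 2 := half_pos r0
    have L : L2 (fun z => sh x (r / 2) f z - m) ≤ u * O := by
      refine Real.sqrt_le_iff.2 ⟨by positivity, ?_⟩
      have := int_sc x r2 1 fun y => ‖f y - m‖ ^ 2
      simp only [sh]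
      rw [this, mul_pow, hu, inv_mul_le_iff₀ (by positivity)]
      refine (bd (by linarith)).trans_eq ?_
      rw [div_pow]
      field_simp
    have ss : ball x (θ * r) ⊆ ball x (r / 4) := ball_subset_ball (by nlinarith)
    refine (osc_le (B := C * (u * O) * θ) (by positivity) hX' (W x) (by positivity) ?_).trans
      (by nlinarith [mul_nonneg (mul_pos p2 θ0).le O0])
    refine (integral_mono_ae (sq_int hX' _) (integrable_const ((C * (u * O) * θ) ^ 2)) ?_).trans_eq
      (by rw [integral_const, measureReal_restrict_apply_univ, smul_eq_mul])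
    filter_upwards [ae_restrict_of_ae_restrict_of_subset ss e, ae_restrict_mem measurableSet_ball]
      with z hz mz
    refine pow_le_pow_left₀ (norm_nonneg _) ?_ 2
    rw [← hz]
    refine (l z (ss mz) x (mem_ball_self (by positivity))).trans ?_
    refine mul_le_mul (mul_le_mul_of_nonneg_left L C0) ?_ (by positivity) (by positivity)
    exact (div_le_iff₀ r0).2 (mem_ball_iff_norm.1 mz).le
  · refine (osc_le (B := 2 ^ d * O) (by positivity) hX' m (by positivity) ?_).trans
      (by nlinarith [mul_nonneg p2.le O0, mul_nonneg (mul_nonneg (mul_nonneg C0 u0.le) θ0.le) O0])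
    refine (bd tr).trans ?_
    rw [vol_eq x (show 0 < θ * r by positivity)]
    have t : r ^ d ≤ (θ * r) ^ d * (2 ^ d) ^ 2 := by
      rw [← pow_mul, mul_comm d 2, pow_mul, ← mul_pow]
      exact pow_le_pow_left₀ r0.le (by nlinarith) d
    nlinarith [mul_le_mul_of_nonneg_right t (mul_nonneg V0.le (sq_nonneg O))]

theorem fin : Kit → LocS → GluS → OscS → ∀ d n, UniS d n → FinS d n := by
  rintro kit loc glue osc d n ⟨ε₀, e0, uni⟩
  have al := kit.al1 (Gr d n)
  refine ⟨ε₀, e0, fun p b p2 pe pb => ?_⟩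
  obtain ⟨ε, rfl⟩ : ∃ ε, p = 2 + ε := ⟨p - 2, by ring⟩
  have ε0 : 0 < ε := by linarith
  obtain ⟨C, C0, hC⟩ := uni ε (b - 1) ε0 (by linarith) (by linarith)
  obtain ⟨C₁, -, hC₁⟩ := uni ε (ε / 2) ε0 (by linarith) (by linarith)
  obtain ⟨c, hc⟩ := osc d n (2 * C) (by positivity)
  refine ⟨c, fun U h G hU H => ⟨glue d n U _ hU fun x hx => ?_, fun x r r0 hr hX => ?_⟩⟩
  · obtain ⟨r, r0, hr⟩ := (Metric.nhds_basis_closedBall.mem_iff).1 (hU.mem_nhds hx)
    have S := loc d n ε U h G x r ε0.le r0 hr H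
    obtain ⟨W, c1, e, -⟩ := hC₁ _ _ 0 S (by
      have := S.mG.integrable_norm_rpow
        (by rw [ne_eq, ENNReal.ofReal_eq_zero, not_le]; positivity) ENNReal.ofReal_ne_top
      rw [ENNReal.toReal_ofReal (by positivity)] at this
      refine this.congr (ae_of_all _ fun z => ?_)
      simp only
      rw [sub_zero, al.norm _ _ (by positivity), ← Real.rpow_natCast,
        ← Real.rpow_mul (norm_nonneg _)]
      congr 1
      push_cast
      ring)
    have q0 : 0 < 1 + ε / 2 := by positivity
    have a0 : 0 ≤ b / (1 + ε / 2) - 1 := sub_nonneg.2 ((one_le_div q0).2 (by linarith))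
    refine ⟨r * (1 / 2), by positivity, fun y => A (b / (1 + ε / 2) - 1) (W (r⁻¹ • (y - x))),
      (al.c1 _ a0).1.comp_contDiffOn (c1.comp (by fun_prop) fun y hy => mem_inv r0 hy), ?_⟩
    refine ae_sc x r0 ?_
    filter_upwards [e] with z hz
    rw [inv_sc x r0, hz, al.comp _ _ _ (by positivity) a0,
      show (1 + ε / 2) * (1 + (b / (1 + ε / 2) - 1)) - 1 = b - 1 by field_simp; ring]
    rfl
  · have r2 : 0 < r / 2 := half_pos r0
    have S := loc d n ε U h G x (r / 2) ε0.le r2
      ((closedBall_subset_ball (half_lt_self r0)).trans hr) H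
    obtain ⟨W, -, e, l⟩ := hC _ _ (⨍ w in ball x r, ‖G w‖ ^ (b - 1) • G w) S (by
      have := sq_int (hX.mono_measure (Measure.restrict_mono
        (ball_subset_ball (show r / 2 * 1 ≤ r by linarith)) le_rfl))
        (⨍ w in ball x r, ‖G w‖ ^ (b - 1) • G w)
      have := this.smul_measure (c := ENNReal.ofReal ((r / 2) ^ d)⁻¹) ENNReal.ofReal_ne_top
      rw [← map_sc x r2, (emb x r2).integrable_map_iff] at this
      exact this)
    have r4 : r / 4 = r / 2 * (1 / 2) := by ring
    refine hc _ (fun y => W ((r / 2)⁻¹ • (y - x))) x r r0 hX ?_ fun y hy y' hy' => ?_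
    · rw [r4]
      refine ae_sc x r2 ?_
      filter_upwards [e] with z hz
      rw [inv_sc x r2, hz]
      rfl
    · rw [r4] at hy hy'
      refine (l _ (mem_inv r2 hy) _ (mem_inv r2 hy')).trans_eq ?_
      rw [← smul_sub, sub_sub_sub_cancel_right, norm_smul, norm_inv, Real.norm_of_nonneg r2.le]
      change C * L2 (fun z => sh x (r / 2) (fun x => ‖G x‖ ^ (b - 1) • G x) z - _) * _ = _
      field_simp

end Pool.Agent.MP_815c6c_an.N

end
end MrgPart3

-- marker of a merged file
example : 731051 + 352955 = 731051 + 352955 := rfl
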