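import Mathlib.Algebra.Order.Star.Real
import Pool.Agent.MP_815c6c_an.N.XSpec

/-! Elementary bounds for the map `ξ ↦ ξ - ‖ξ‖ ^ ε ξ`. -/

set_option autoImplicit false

noncomputable section

namespace Pool.Agent.MP_815c6c_an.N

open scoped RealInnerProductSpace

namespace Al2A

theorem one_add_le {ε m : ℝ} (hm : 0 < m) : 1 + ε * Real.log m ≤ m ^ ε := by
  rw [Real.rpow_def_of_pos hm]
  have := Real.add_one_le_exp (Real.log m * ε)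
  linarith

/-- the difference of two powers -/
theorem sub_le {ε r s : ℝ} (hε : 0 < ε) (hr : 0 ≤ r) (hrs : r ≤ s) :
    (s ^ ε - r ^ ε) * r ≤ ε * s ^ ε * (s - r) := by
  rcases hr.eq_or_lt with h0 | h0
  · subst h0
    have := Real.rpow_nonneg hrs ε
    rw [mul_zero, sub_zero]
    positivity
  have hs : 0 < s := h0.trans_le hrs
  have h1 : 1 + ε * Real.log (r / s) ≤ (r / s) ^ ε := one_add_le (div_pos h0 hs)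
  have h2 : 1 - (r / s)⁻¹ ≤ Real.log (r / s) := Real.one_sub_inv_le_log_of_pos (div_pos h0 hs)
  have h3 : r ^ ε = (r / s) ^ ε * s ^ ε := by
    rw [← Real.mul_rpow (div_pos h0 hs).le hs.le, div_mul_cancel₀ _ hs.ne']
  have h4 : 0 < s ^ ε := Real.rpow_pos_of_pos hs ε
  have h5 : (1 - (r / s)⁻¹) * r = r - s := by field_simp
  have h6 : 1 + ε * (1 - (r / s)⁻¹) ≤ (r / s) ^ ε := by nlinarith
  have h7 : (1 + ε * (1 - (r / s)⁻¹)) * r ≤ (r / s) ^ ε * r :=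
    mul_le_mul_of_nonneg_right h6 h0.le
  have h8 : r + ε * (r - s) ≤ (r / s) ^ ε * r := by
    rw [← h5]; linarith
  rw [h3]
  nlinarith [mul_le_mul_of_nonneg_right h8 h4.le]

/-- the scalar bound -/
theorem scal {ε m a : ℝ} (hε : 0 < ε) (hε1 : ε ≤ 1 / 8) (hm : 0 < m) (ha : 0 < a) :
    |1 - m ^ ε| + ε * m ^ ε ≤ ε * (1 + 3 * m + m ^ (-a) / a) := by
  have hp : 0 < m ^ (-a) / a := div_pos (Real.rpow_pos_of_pos hm _) ha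
  rcases le_total m 1 with h | h
  · have h1 : m ^ ε ≤ 1 := Real.rpow_le_one hm.le h hε.le
    have h2 := one_add_le (ε := ε) hm
    have h3 : Real.log m⁻¹ ≤ m⁻¹ ^ a / a := Real.log_le_rpow_div (inv_pos.2 hm).le ha
    rw [Real.log_inv, Real.inv_rpow hm.le, ← Real.rpow_neg hm.le] at h3
    rw [abs_of_nonneg (by linarith)]
    nlinarith
  · have h1 : 1 ≤ m ^ ε := Real.one_le_rpow h hε.le
    have h2 : m ^ ε ≤ m ^ (1 / 2 : ℝ) := Real.rpow_le_rpow_of_exponent_le h (by linarith)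
    have h3 : Real.log m ≤ m ^ (1 / 2 : ℝ) / (1 / 2) := Real.log_le_rpow_div hm.le (by norm_num)
    have h4 : m ^ (1 / 2 : ℝ) * m ^ (1 / 2 : ℝ) = m := by
      rw [← Real.rpow_add hm]; norm_num
    have h5 := one_add_le (ε := -ε) hm
    have h6 : m ^ (-ε) * m ^ ε = 1 := by
      rw [← Real.rpow_add hm]; simp
    have h7 : (1 + -ε * Real.log m) * m ^ ε ≤ 1 :=
      (mul_le_mul_of_nonneg_right h5 (by linarith)).trans h6.le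
    have h8 : 0 ≤ Real.log m := Real.log_nonneg h
    have h9 : Real.log m * m ^ ε ≤ 2 * m := by
      have := mul_le_mul h3 h2 (by linarith) (by positivity)
      linarith
    have h10 : m ^ ε ≤ m := by nlinarith
    rw [abs_of_nonpos (by linarith)]
    nlinarith

variable {E : Type} [NormedAddCommGroup E] [InnerProductSpace ℝ E]

theorem T_eq (ε : ℝ) (ξ : E) : T ε ξ = (1 - ‖ξ‖ ^ ε) • ξ := by
  rw [T, A, sub_smul, one_smul]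

theorem lip {ε : ℝ} (hε : 0 < ε) {x y : E} (h : ‖x‖ ≤ ‖y‖) :
    ‖T ε y - T ε x‖ ≤ (|1 - ‖y‖ ^ ε| + ε * ‖y‖ ^ ε) * ‖y - x‖ := by
  have e : T ε y - T ε x = (1 - ‖y‖ ^ ε) • (y - x) - (‖y‖ ^ ε - ‖x‖ ^ ε) • x := by
    rw [T_eq, T_eq]; module
  have h1 := sub_le hε (norm_nonneg x) h
  have h2 : ‖x‖ ^ ε ≤ ‖y‖ ^ ε := Real.rpow_le_rpow (norm_nonneg x) h hε.le
  have h3 : ‖y‖ - ‖x‖ ≤ ‖y - x‖ := norm_sub_norm_le y x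
  have h4 : 0 ≤ ε * ‖y‖ ^ ε := mul_nonneg hε.le (Real.rpow_nonneg (norm_nonneg y) ε)
  rw [e]
  refine (norm_sub_le _ _).trans ?_
  rw [norm_smul, norm_smul, Real.norm_eq_abs, Real.norm_eq_abs, abs_of_nonneg (sub_nonneg.2 h2)]
  nlinarith [mul_le_mul_of_nonneg_left h3 h4]

theorem lip2 {ε a : ℝ} (hε : 0 < ε) (hε1 : ε ≤ 1 / 8) (ha : 0 < a) (ξ η : E)
    (hm : 0 < max ‖ξ‖ ‖ξ + η‖) :
    ‖T ε (ξ + η) - T ε ξ‖ ≤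
      ε * (1 + 3 * max ‖ξ‖ ‖ξ + η‖ + (max ‖ξ‖ ‖ξ + η‖) ^ (-a) / a) * ‖η‖ := by
  have hs := scal hε hε1 hm ha
  rcases le_total ‖ξ‖ ‖ξ + η‖ with h | h
  · rw [max_eq_right h] at hs ⊢
    have h1 := lip hε h
    rw [add_sub_cancel_left] at h1
    exact h1.trans (mul_le_mul_of_nonneg_right hs (norm_nonneg _))
  · rw [max_eq_left h] at hs ⊢
    have h1 := lip hε h
    rw [sub_add_cancel_left, norm_neg, norm_sub_rev] at h1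
    exact h1.trans (mul_le_mul_of_nonneg_right hs (norm_nonneg _))

theorem t2 (ε : ℝ) (ξ η : E) (hε : 0 < ε) (hε1 : ε ≤ 1 / 8) (hξ : ‖ξ‖ ≤ 32) (h0 : ξ ≠ 0) :
    ‖T ε (ξ + η) - T ε ξ‖ ≤ 100 * ε * (‖η‖ * (1 + ‖η‖ + ‖ξ‖ ^ (-(1 / 4) : ℝ))) := by
  have hr : 0 < ‖ξ‖ := norm_pos_iff.2 h0
  have hm : 0 < max ‖ξ‖ ‖ξ + η‖ := hr.trans_le (le_max_left _ _)
  have h1 := lip2 (a := 1 / 4) hε hε1 (by norm_num) ξ η hm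
  have h2 : max ‖ξ‖ ‖ξ + η‖ ≤ 32 + ‖η‖ :=
    max_le (by linarith [norm_nonneg η]) (by linarith [norm_add_le ξ η])
  have h3 : (max ‖ξ‖ ‖ξ + η‖) ^ (-(1 / 4) : ℝ) ≤ ‖ξ‖ ^ (-(1 / 4) : ℝ) :=
    Real.rpow_le_rpow_of_nonpos hr (le_max_left _ _) (by norm_num)
  have h4 : 0 ≤ ‖ξ‖ ^ (-(1 / 4) : ℝ) := Real.rpow_nonneg hr.le _
  have h5 : 1 + 3 * max ‖ξ‖ ‖ξ + η‖ + (max ‖ξ‖ ‖ξ + η‖) ^ (-(1 / 4) : ℝ) / (1 / 4)
      ≤ 100 * (1 + ‖η‖ + ‖ξ‖ ^ (-(1 / 4) : ℝ)) := by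
    linarith [norm_nonneg η]
  refine h1.trans ?_
  have h6 := mul_le_mul_of_nonneg_right (mul_le_mul_of_nonneg_left h5 hε.le) (norm_nonneg η)
  linarith

theorem le_sqrt_add {t : ℝ} (ht : 0 ≤ t) : t ≤ √t + t ^ 2 := by
  have h1 := Real.sqrt_nonneg t
  have h2 := Real.mul_self_sqrt ht
  rcases le_total t 1 with h | h
  · have h3 : √t ≤ 1 := Real.sqrt_le_one.2 h
    nlinarith
  · nlinarith

theorem t3 (ε : ℝ) (ξ η : E) (hε : 0 < ε) (hε1 : ε ≤ 1 / 8) (hξ : ‖ξ‖ ≤ 32) :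
    ‖T ε (ξ + η) - T ε ξ‖ ≤ 101 * ε * (√‖η‖ + ‖η‖ ^ 2) := by
  by_cases h0 : η = 0
  · subst h0; simp
  have ht : 0 < ‖η‖ := norm_pos_iff.2 h0
  have h7 : ‖η‖ ≤ 2 * max ‖ξ‖ ‖ξ + η‖ := by
    have a1 : ‖η‖ ≤ ‖ξ + η‖ + ‖ξ‖ := by
      have := norm_sub_le (ξ + η) ξ
      rwa [add_sub_cancel_left] at this
    linarith [le_max_left ‖ξ‖ ‖ξ + η‖, le_max_right ‖ξ‖ ‖ξ + η‖]
  have hm : 0 < max ‖ξ‖ ‖ξ + η‖ := by linarith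
  have h1 := lip2 (a := 1 / 2) hε hε1 (by norm_num) ξ η hm
  have h2 : max ‖ξ‖ ‖ξ + η‖ ≤ 32 + ‖η‖ :=
    max_le (by linarith [norm_nonneg η]) (by linarith [norm_add_le ξ η])
  generalize max ‖ξ‖ ‖ξ + η‖ = m at h1 h2 h7 hm
  generalize ‖η‖ = t at h1 h2 h7 ht
  have h3 : m ^ (-(1 / 2) : ℝ) = (√m)⁻¹ := by
    rw [Real.rpow_neg hm.le, Real.sqrt_eq_rpow]
  have h4 : √t ≤ 2 * √m := by
    rw [Real.sqrt_le_iff]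
    refine ⟨by positivity, ?_⟩
    rw [mul_pow, Real.sq_sqrt hm.le]; linarith
  have h5 : 0 < √m := Real.sqrt_pos.2 hm
  have h6 : (√m)⁻¹ * t ≤ 2 * √t := by
    rw [inv_mul_le_iff₀ h5]
    nlinarith [Real.mul_self_sqrt ht.le, Real.sqrt_nonneg t]
  have h8 := le_sqrt_add ht.le
  have h9 : (1 + 3 * m + m ^ (-(1 / 2) : ℝ) / (1 / 2)) * t ≤ 101 * (√t + t ^ 2) := by
    rw [h3]
    nlinarith [mul_le_mul_of_nonneg_right h2 ht.le, Real.sqrt_nonneg t]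
  refine h1.trans ?_
  have h10 := mul_le_mul_of_nonneg_left h9 hε.le
  linarith

theorem t1 (ε : ℝ) (ξ : E) (hε : 0 < ε) (hε1 : ε ≤ 1 / 8) :
    ‖T ε ξ‖ ≤ 202 * ε * (1 + ‖ξ‖ ^ 2) := by
  have h1 := t3 ε 0 ξ hε hε1 (by simp)
  have h2 : T ε (0 : E) = 0 := by rw [T_eq, smul_zero]
  rw [zero_add, h2, sub_zero] at h1
  have h3 : √‖ξ‖ ≤ 2 + ‖ξ‖ ^ 2 := by
    nlinarith [Real.mul_self_sqrt (norm_nonneg ξ), sq_nonneg (√‖ξ‖ - 1), sq_nonneg (‖ξ‖ - 1)]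
  refine h1.trans ?_
  nlinarith [mul_le_mul_of_nonneg_left h3 hε.le]

/-- second order expansion of a small power -/
theorem second {δ w : ℝ} (hδ : 0 < δ) (hδ1 : δ ≤ 1) (hw : -(3 / 4) ≤ w) :
    |(1 + w) ^ δ - 1 - δ * w| ≤ 4 * δ * w ^ 2 := by
  have hu : 0 < 1 + w := by linarith
  have h1 : (1 + w) ^ δ ≤ 1 + δ * w :=
    rpow_one_add_le_one_add_mul_self (by linarith) hδ.le hδ1
  have h2 := one_add_le (ε := δ) hu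
  have h3 : 1 - (1 + w)⁻¹ ≤ Real.log (1 + w) := Real.one_sub_inv_le_log_of_pos hu
  have h4 : (1 + w)⁻¹ ≤ 1 - w + 4 * w ^ 2 := by
    rw [inv_eq_one_div, div_le_iff₀ hu]
    nlinarith [mul_nonneg (sq_nonneg w) (by linarith : (0 : ℝ) ≤ 3 + 4 * w)]
  rw [abs_of_nonpos (by linarith)]
  nlinarith

theorem t4 (ε : ℝ) (b : E) (hε : 0 < ε) (hε1 : ε ≤ 1 / 8) (hb : 1 / 2 ≤ ‖b‖) (hb2 : ‖b‖ ≤ 2) :
    ∃ D : E →L[ℝ] E, ‖D‖ ≤ 1000 * ε ∧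
      ∀ η, ‖T ε (b + η) - T ε b - D η‖ ≤ 1000 * ε * ‖η‖ ^ 2 := by
  have hβ : 0 < ‖b‖ := by linarith
  have hP : 0 < ‖b‖ ^ ε := Real.rpow_pos_of_pos hβ ε
  have hP2 : ‖b‖ ^ ε ≤ 2 := by
    have a1 : ‖b‖ ^ ε ≤ 2 ^ ε := Real.rpow_le_rpow hβ.le hb2 hε.le
    have a2 : (2 : ℝ) ^ ε ≤ 2 ^ (1 : ℝ) :=
      Real.rpow_le_rpow_of_exponent_le (by norm_num) (by linarith)
    rw [Real.rpow_one] at a2
    linarith
  have hs := scal (a := 1) hε hε1 hβ one_pos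
  have hi : ‖b‖ ^ (-1 : ℝ) ≤ 2 := by
    rw [Real.rpow_neg_one, inv_le_comm₀ hβ (by norm_num)]; linarith
  let D : E →L[ℝ] E := (1 - ‖b‖ ^ ε) • ContinuousLinearMap.id ℝ E
    - (ε * ‖b‖ ^ ε / ‖b‖ ^ 2) • (innerSL ℝ b).smulRight b
  have hD : ∀ η, D η = (1 - ‖b‖ ^ ε) • η - (ε * ‖b‖ ^ ε / ‖b‖ ^ 2 * ⟪b, η⟫) • b := fun η => by
    simp [D, smul_smul]
  have hDn : ∀ η, ‖D η‖ ≤ 9 * ε * ‖η‖ := fun η => by
    rw [hD]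
    refine (norm_sub_le _ _).trans ?_
    rw [norm_smul, norm_smul, Real.norm_eq_abs, Real.norm_eq_abs, abs_mul,
      abs_of_pos (by positivity : 0 < ε * ‖b‖ ^ ε / ‖b‖ ^ 2)]
    have a1 : |⟪b, η⟫| ≤ ‖b‖ * ‖η‖ := abs_real_inner_le_norm b η
    have a2 : ε * ‖b‖ ^ ε / ‖b‖ ^ 2 * |⟪b, η⟫| * ‖b‖
        ≤ ε * ‖b‖ ^ ε / ‖b‖ ^ 2 * (‖b‖ * ‖η‖) * ‖b‖ := by gcongr
    have a3 : ε * ‖b‖ ^ ε / ‖b‖ ^ 2 * (‖b‖ * ‖η‖) * ‖b‖ = ε * ‖b‖ ^ ε * ‖η‖ := by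
      field_simp
    have a4 : |1 - ‖b‖ ^ ε| + ε * ‖b‖ ^ ε ≤ 9 * ε := by nlinarith
    nlinarith [mul_le_mul_of_nonneg_right a4 (norm_nonneg η)]
  refine ⟨D, D.opNorm_le_bound (by positivity) fun η => (hDn η).trans ?_, fun η => ?_⟩
  · nlinarith [mul_nonneg hε.le (norm_nonneg η)]
  have ht := norm_nonneg η
  rcases le_total (1 / 4) ‖η‖ with h | h
  · have a1 := t3 ε b η hε hε1 (by linarith)
    have a2 : √‖η‖ ≤ 8 * ‖η‖ ^ 2 := by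
      have b1 : (1 / 2 : ℝ) ≤ √‖η‖ := Real.le_sqrt_of_sq_le (by linarith)
      have b2 := Real.mul_self_sqrt ht
      have b3 : √‖η‖ ≤ 2 * ‖η‖ := by nlinarith
      nlinarith
    have a3 : ‖η‖ ≤ 4 * ‖η‖ ^ 2 := by nlinarith
    refine (norm_sub_le _ _).trans ?_
    nlinarith [hDn η, mul_le_mul_of_nonneg_left a2 hε.le, mul_le_mul_of_nonneg_left a3 hε.le,
      mul_nonneg hε.le (sq_nonneg ‖η‖)]
  obtain ⟨w, hw⟩ : ∃ w : ℝ, w = (2 * ⟪b, η⟫ + ‖η‖ ^ 2) / ‖b‖ ^ 2 := ⟨_, rfl⟩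
  have hw1 : ‖b‖ ^ 2 * w = 2 * ⟪b, η⟫ + ‖η‖ ^ 2 := by rw [hw]; field_simp
  have a1 : |⟪b, η⟫| ≤ ‖b‖ * ‖η‖ := abs_real_inner_le_norm b η
  have hsq : ‖b + η‖ ^ 2 = ‖b‖ ^ 2 * (1 + w) := by
    rw [norm_add_sq_real]; linarith
  have hb4 : 1 / 4 ≤ ‖b‖ ^ 2 := by nlinarith
  have hwa : |w| ≤ 5 * ‖η‖ := by
    have b1 : ‖b‖ ^ 2 * |w| ≤ 2 * (‖b‖ * ‖η‖) + ‖η‖ ^ 2 := by
      rw [← abs_of_pos (pow_pos hβ 2), ← abs_mul, hw1]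
      refine (abs_add_le _ _).trans ?_
      rw [abs_mul, abs_two, abs_of_nonneg (sq_nonneg ‖η‖)]
      linarith
    have b2 : 2 * (‖b‖ * ‖η‖) + ‖η‖ ^ 2 ≤ ‖b‖ ^ 2 * (5 * ‖η‖) := by
      have c1 : 2 * ‖b‖ + ‖η‖ ≤ 5 * ‖b‖ ^ 2 := by nlinarith
      nlinarith [mul_le_mul_of_nonneg_right c1 ht]
    exact le_of_mul_le_mul_left (b1.trans b2) (pow_pos hβ 2)
  have hwl : -(3 / 4) ≤ w := by
    have b1 : ‖b‖ - ‖η‖ ≤ ‖b + η‖ := by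
      have := norm_sub_le (b + η) η
      rw [add_sub_cancel_right] at this
      linarith
    have b2 : ‖b‖ / 2 ≤ ‖b + η‖ := by linarith
    have b3 : (‖b‖ / 2) ^ 2 ≤ ‖b + η‖ ^ 2 := pow_le_pow_left₀ (by positivity) b2 2
    have b4 : ‖b‖ ^ 2 * (1 / 4) ≤ ‖b‖ ^ 2 * (1 + w) := by rw [← hsq]; linarith
    have := le_of_mul_le_mul_left b4 (pow_pos hβ 2)
    linarith
  have hpw : ∀ r : ℝ, 0 ≤ r → (r ^ 2) ^ (ε / 2) = r ^ ε := fun r hr => by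
    rw [← Real.rpow_natCast, ← Real.rpow_mul hr]
    congr 1
    push_cast
    ring
  have hq : ‖b + η‖ ^ ε = ‖b‖ ^ ε * (1 + w) ^ (ε / 2) := by
    rw [← hpw _ (norm_nonneg (b + η)), hsq, Real.mul_rpow (sq_nonneg _) (by linarith),
      hpw _ hβ.le]
  have h2 := second (δ := ε / 2) (w := w) (by linarith) (by linarith) hwl
  obtain ⟨ρ, hρ⟩ : ∃ ρ : ℝ, ρ = (1 + w) ^ (ε / 2) - 1 - ε / 2 * w := ⟨_, rfl⟩
  rw [← hρ] at h2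
  have hw2 : w ^ 2 ≤ 25 * ‖η‖ ^ 2 := by
    rw [← sq_abs]
    nlinarith [abs_nonneg w]
  have h3 : |ρ| ≤ 50 * ε * ‖η‖ ^ 2 := by nlinarith
  have e : T ε (b + η) - T ε b - D η = -((‖b‖ ^ ε * (ρ + ε / 2 * w)) • η)
      - (‖b‖ ^ ε * (ρ + ε / 2 * (‖η‖ ^ 2 / ‖b‖ ^ 2))) • b := by
    have b1 : ‖b + η‖ ^ ε = ‖b‖ ^ ε * (1 + ρ + ε / 2 * w) := by rw [hq, hρ]; ring
    have b2 : ε * ‖b‖ ^ ε / ‖b‖ ^ 2 * ⟪b, η⟫
        = ‖b‖ ^ ε * (ε / 2 * w - ε / 2 * (‖η‖ ^ 2 / ‖b‖ ^ 2)) := by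
      rw [hw]; field_simp; ring
    rw [T_eq, T_eq, hD, b1, b2]
    module
  have h4 : ‖η‖ ^ 2 / ‖b‖ ^ 2 ≤ 4 * ‖η‖ ^ 2 := by
    rw [div_le_iff₀ (pow_pos hβ 2)]
    nlinarith [sq_nonneg ‖η‖]
  have h5 : |ρ + ε / 2 * w| ≤ 20 * ε * ‖η‖ := by
    refine (abs_add_le _ _).trans ?_
    rw [abs_mul, abs_of_pos (by linarith : 0 < ε / 2)]
    have b1 : ‖η‖ ^ 2 ≤ ‖η‖ / 4 := by nlinarith
    nlinarith [mul_le_mul_of_nonneg_left b1 hε.le, mul_le_mul_of_nonneg_left hwa hε.le,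
      mul_nonneg hε.le ht]
  have h6 : |ρ + ε / 2 * (‖η‖ ^ 2 / ‖b‖ ^ 2)| ≤ 52 * ε * ‖η‖ ^ 2 := by
    refine (abs_add_le _ _).trans ?_
    rw [abs_of_nonneg (by positivity : 0 ≤ ε / 2 * (‖η‖ ^ 2 / ‖b‖ ^ 2))]
    nlinarith [mul_le_mul_of_nonneg_left h4 hε.le]
  rw [e]
  refine (norm_sub_le _ _).trans ?_
  rw [norm_neg, norm_smul, norm_smul, Real.norm_eq_abs, Real.norm_eq_abs, abs_mul, abs_mul,
    abs_of_pos hP]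
  have h7 : ‖b‖ ^ ε * |ρ + ε / 2 * w| * ‖η‖ ≤ 2 * (20 * ε * ‖η‖) * ‖η‖ := by gcongr
  have h8 : ‖b‖ ^ ε * |ρ + ε / 2 * (‖η‖ ^ 2 / ‖b‖ ^ 2)| * ‖b‖
      ≤ 2 * (52 * ε * ‖η‖ ^ 2) * 2 := by gcongr
  nlinarith [mul_nonneg hε.le (sq_nonneg ‖η‖)]

end Al2A

theorem al2 : Al2S := fun E _ _ => ⟨1000, by norm_num,
  fun ε ξ h1 h2 => (Al2A.t1 ε ξ h1 h2).trans (by gcongr; norm_num),
  fun ε ξ η h1 h2 h3 h4 => (Al2A.t2 ε ξ η h1 h2 h3 h4).trans (by gcongr; norm_num),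
  fun ε ξ η h1 h2 h3 => (Al2A.t3 ε ξ η h1 h2 h3).trans (by gcongr; norm_num),
  fun ε b h1 h2 h3 h4 => Al2A.t4 ε b h1 h2 h3 h4⟩

end Pool.Agent.MP_815c6c_an.N
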