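import Mathlib.Algebra.Order.Star.Real
import Mathlib.Analysis.SpecialFunctions.Pow.Deriv
import Pool.Agent.MP_815c6c_an.N.XSpec

/-! Row AL3: second differences of radial powers and the second order remainder. -/

set_option autoImplicit false

noncomputable section

namespace Pool.Agent.MP_815c6c_an.N

open Set
open scoped RealInnerProductSpace

namespace Al3A

lemma L1 {a m x y : ℝ} (ha : a ≤ 1) (hm : 0 < m) (hx : m ≤ x) (hy : m ≤ y) :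
    |x ^ a - y ^ a| ≤ |a| * m ^ (a - 1) * |x - y| :=
  (convex_Ici m).norm_image_sub_le_of_norm_hasDerivWithin_le (f := fun t : ℝ => t ^ a)
    (f' := fun t => a * t ^ (a - 1)) (C := |a| * m ^ (a - 1))
    (fun t ht => (Real.hasDerivAt_rpow_const (Or.inl (hm.trans_le ht).ne')).hasDerivWithinAt)
    (fun t ht => by
      rw [Real.norm_eq_abs, abs_mul, abs_of_nonneg (Real.rpow_nonneg (hm.le.trans ht) _)]
      exact mul_le_mul_of_nonneg_left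
        (Real.rpow_le_rpow_of_nonpos hm ht (by linarith)) (abs_nonneg _)) hy hx

lemma L2 {e m s a b : ℝ} (h0 : 0 < e) (h1 : e ≤ 1) (hm : 0 < m) (hs : m ≤ s) (ha : m ≤ s + a)
    (hb : m ≤ s + b) (hab : m ≤ s + a + b) :
    |(s + a + b) ^ e - (s + a) ^ e - ((s + b) ^ e - s ^ e)| ≤ e * m ^ (e - 1 - 1) * |b| * |a| := by
  have := (convex_Ici (max m (m - b))).norm_image_sub_le_of_norm_hasDerivWithin_le
    (f := fun t : ℝ => (t + b) ^ e - t ^ e)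
    (f' := fun t => 1 * e * (t + b) ^ (e - 1) - e * t ^ (e - 1)) (C := e * m ^ (e - 1 - 1) * |b|)
    (x := s) (y := s + a) (fun t ht => ?_) (fun t ht => ?_)
    (max_le hs (by linarith)) (max_le ha (by linarith))
  · simpa using this
  · have h2 : m ≤ t := (le_max_left _ _).trans ht
    have h3 : m - b ≤ t := (le_max_right _ _).trans ht
    exact ((((hasDerivAt_id t).add_const b).rpow_const
      (Or.inl (show t + b ≠ 0 by linarith))).sub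
      (Real.hasDerivAt_rpow_const (Or.inl (hm.trans_le h2).ne'))).hasDerivWithinAt
  · have h2 : m ≤ t := (le_max_left _ _).trans ht
    have h3 : m - b ≤ t := (le_max_right _ _).trans ht
    have h4 := L1 (a := e - 1) (x := t + b) (y := t) (by linarith) hm (by linarith) h2
    rw [add_sub_cancel_left] at h4
    have h5 : |e - 1| ≤ 1 := abs_le.2 ⟨by linarith, by linarith⟩
    rw [Real.norm_eq_abs, one_mul, ← mul_sub, abs_mul, abs_of_pos h0, mul_assoc]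
    refine mul_le_mul_of_nonneg_left (h4.trans ?_) h0.le
    rw [mul_assoc]
    exact mul_le_of_le_one_left (by positivity) h5

lemma pw {e t : ℝ} (h0 : 0 ≤ e) (h1 : e ≤ 1) (ht : 0 ≤ t) (ht' : t ≤ 32) : t ^ e ≤ 32 :=
  (Real.rpow_le_rpow ht ht' h0).trans
    ((Real.rpow_le_rpow_of_exponent_le (by norm_num) h1).trans_eq (Real.rpow_one _))

variable {E : Type} [NormedAddCommGroup E] [InnerProductSpace ℝ E]

omit [InnerProductSpace ℝ E] in
lemma sq_diff {x y : E} {ρ : ℝ} (hx : ‖x‖ ≤ 3 / 2 * ρ) (hy : ‖y‖ ≤ 3 / 2 * ρ) :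
    |‖x‖ ^ 2 - ‖y‖ ^ 2| ≤ 3 * ρ * ‖x - y‖ := by
  rw [sq_sub_sq, abs_mul, abs_of_nonneg (by positivity)]
  exact mul_le_mul (by linarith) (abs_norm_sub_norm_le x y) (abs_nonneg _)
    (by linarith [norm_nonneg x])

lemma t5 (ε κ : ℝ) (ξ η ζ : E) (h0 : 0 < ε) (h1 : ε ≤ 1 / 8) (hκ : 0 < κ) (hξ : κ ≤ ‖ξ‖)
    (hξ' : ‖ξ‖ ≤ 16) (hη : ‖η‖ ≤ κ / 4) (hζ : ‖ζ‖ ≤ κ / 4) :
    ‖T ε (ξ + η + ζ) - T ε (ξ + η) - T ε (ξ + ζ) + T ε ξ‖ ≤ 20000 * ε * (‖η‖ * ‖ζ‖ / κ) := by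
  have hp : ∀ x : E, ‖x‖ ^ ε = (‖x‖ ^ 2) ^ (ε / 2) := fun x => by
    rw [← Real.rpow_natCast, ← Real.rpow_mul (norm_nonneg x)]
    congr 1
    push_cast
    ring
  set ρ := ‖ξ‖ with hρ
  have ρ0 : 0 < ρ := hκ.trans_le hξ
  have nη := norm_nonneg η
  have nζ := norm_nonneg ζ
  have up : ∀ x : E, ‖x‖ ≤ ρ / 2 → ‖ξ + x‖ ≤ 3 / 2 * ρ := fun x hx => by
    linarith [norm_add_le ξ x]
  have lo : ∀ (x : E) (c : ℝ), ‖x‖ ≤ c * ρ → c ≤ 1 → (1 - c) ^ 2 * ρ ^ 2 ≤ ‖ξ + x‖ ^ 2 := by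
    intro x c hx hc
    have := norm_sub_le (ξ + x) x
    rw [add_sub_cancel_right] at this
    rw [← mul_pow]
    exact pow_le_pow_left₀ (mul_nonneg (by linarith) ρ0.le) (by linarith) 2
  have hηζ : ‖η + ζ‖ ≤ ρ / 2 := by linarith [norm_add_le η ζ]
  have u11 := up _ hηζ
  have u10 := up η (by linarith)
  have u01 := up ζ (by linarith)
  have l11 := lo _ (1 / 2) (show ‖η + ζ‖ ≤ 1 / 2 * ρ by linarith) (by norm_num)
  have l10 := lo η (1 / 4) (by linarith) (by norm_num)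
  have l01 := lo ζ (1 / 4) (by linarith) (by norm_num)
  rw [← add_assoc] at u11 l11
  have d10 := sq_diff u10 (show ‖ξ‖ ≤ 3 / 2 * ρ by linarith)
  have d01 := sq_diff u01 (show ‖ξ‖ ≤ 3 / 2 * ρ by linarith)
  have e10 := sq_diff u11 u10
  have e01 := sq_diff u11 u01
  rw [add_sub_cancel_left] at d10 d01 e10
  rw [show ξ + η + ζ - (ξ + ζ) = η by abel] at e01
  have hc : |‖ξ + η + ζ‖ ^ 2 - (ρ ^ 2 + (‖ξ + η‖ ^ 2 - ρ ^ 2) + (‖ξ + ζ‖ ^ 2 - ρ ^ 2))| ≤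
      2 * (‖η‖ * ‖ζ‖) := by
    have : ‖ξ + η + ζ‖ ^ 2 - (ρ ^ 2 + (‖ξ + η‖ ^ 2 - ρ ^ 2) + (‖ξ + ζ‖ ^ 2 - ρ ^ 2)) =
        2 * ⟪η, ζ⟫ := by
      rw [norm_add_sq_real (ξ + η), norm_add_sq_real ξ ζ, inner_add_left]
      ring
    rw [this, abs_mul, abs_two]
    linarith [abs_real_inner_le_norm η ζ]
  have ρ2 : 0 < ρ ^ 2 := by positivity
  have m0 : 0 < ρ ^ 2 / 8 := by positivity
  have m1 : (ρ ^ 2 / 8) ^ (ε / 2 - 1) ≤ 256 / ρ ^ 2 := by
    rw [Real.rpow_sub_one m0.ne', div_le_div_iff₀ m0 ρ2]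
    have := pw (e := ε / 2) (by linarith) (by linarith) m0.le (by nlinarith)
    nlinarith
  have m2 : (ρ ^ 2 / 8) ^ (ε / 2 - 1 - 1) ≤ 2048 / (ρ ^ 2 * ρ ^ 2) := by
    rw [Real.rpow_sub_one m0.ne']
    refine (div_le_div_of_nonneg_right m1 m0.le).trans_eq ?_
    field_simp
    norm_num
  have l1 : ∀ {x y D : ℝ}, ρ ^ 2 / 8 ≤ x → ρ ^ 2 / 8 ≤ y → |x - y| ≤ D →
      |x ^ (ε / 2) - y ^ (ε / 2)| ≤ ε / 2 * (256 / ρ ^ 2) * D := fun hx hy hD => by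
    refine (L1 (by linarith) m0 hx hy).trans ?_
    rw [abs_of_pos (by linarith)]
    gcongr
  generalize hs11 : ‖ξ + η + ζ‖ ^ 2 = s11 at *
  generalize hs10 : ‖ξ + η‖ ^ 2 = s10 at *
  generalize hs01 : ‖ξ + ζ‖ ^ 2 = s01 at *
  have b1 := l1 (x := s11) (y := s10) (by linarith) (by linarith) e10
  have b2 := l1 (x := s11) (y := s01) (by linarith) (by linarith) e01
  have b3 := l1 (x := s11) (y := ρ ^ 2 + (s10 - ρ ^ 2) + (s01 - ρ ^ 2)) (by linarith)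
    (by linarith) hc
  have b4 := L2 (e := ε / 2) (s := ρ ^ 2) (a := s10 - ρ ^ 2) (b := s01 - ρ ^ 2) (by linarith)
    (by linarith) m0 (by linarith) (by linarith) (by linarith) (by linarith)
  have b5 : ε / 2 * (ρ ^ 2 / 8) ^ (ε / 2 - 1 - 1) * |s01 - ρ ^ 2| * |s10 - ρ ^ 2| ≤
      ε / 2 * (2048 / (ρ ^ 2 * ρ ^ 2)) * (3 * ρ * ‖ζ‖) * (3 * ρ * ‖η‖) := by gcongr
  have b6 := (abs_add_le _ _).trans (add_le_add b3 (b4.trans b5))
  simp only [add_sub_cancel] at b6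
  have e : T ε (ξ + η + ζ) - T ε (ξ + η) - T ε (ξ + ζ) + T ε ξ =
      -((s11 ^ (ε / 2) - (s10 + (s01 - ρ ^ 2)) ^ (ε / 2) + ((s10 + (s01 - ρ ^ 2)) ^ (ε / 2) -
        s10 ^ (ε / 2) - (s01 ^ (ε / 2) - (ρ ^ 2) ^ (ε / 2)))) • ξ +
        (s11 ^ (ε / 2) - s10 ^ (ε / 2)) • η + (s11 ^ (ε / 2) - s01 ^ (ε / 2)) • ζ) := by
    simp only [T, A]
    rw [hp, hp (ξ + η), hp (ξ + ζ), hp ξ, hs11, hs10, hs01, ← hρ]
    module
  rw [e, norm_neg]
  refine (norm_add₃_le).trans ?_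
  simp only [norm_smul, Real.norm_eq_abs, ← hρ]
  refine (add_le_add_three (mul_le_mul_of_nonneg_right b6 ρ0.le)
    (mul_le_mul_of_nonneg_right b1 nη) (mul_le_mul_of_nonneg_right b2 nζ)).trans ?_
  calc _ = 10240 * ε * (‖η‖ * ‖ζ‖ / ρ) := by field_simp; ring
    _ ≤ _ := by gcongr; norm_num

lemma ex1 {u : ℝ} (h : Real.exp u ≤ 32) : |Real.exp u - 1| ≤ 32 * |u| := by
  have h1 := Real.add_one_le_exp u
  have h2 := Real.add_one_le_exp (-u)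
  have h3 : Real.exp u * Real.exp (-u) = 1 := by rw [← Real.exp_add]; simp
  have h4 := Real.exp_pos u
  rcases le_total 0 u with hu | hu
  · rw [abs_of_nonneg hu, abs_of_nonneg (by linarith)]
    nlinarith
  · have := Real.exp_le_one_iff.2 hu
    rw [abs_of_nonpos hu, abs_of_nonpos (by linarith)]
    linarith

lemma ex2 {u : ℝ} (h : Real.exp u ≤ 32) : |Real.exp u - 1 - u| ≤ 32 * u ^ 2 := by
  have h1 := Real.add_one_le_exp u
  have h2 := Real.add_one_le_exp (-u)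
  have h3 : Real.exp u * Real.exp (-u) = 1 := by rw [← Real.exp_add]; simp
  have h4 := Real.exp_pos u
  have h5 : u * (Real.exp u - 1) ≤ |u| * (32 * |u|) :=
    (le_abs_self _).trans (by rw [abs_mul]; exact mul_le_mul_of_nonneg_left (ex1 h) (abs_nonneg _))
  rw [abs_of_nonneg (by linarith), ← sq_abs u]
  nlinarith

lemma sq6 {t : ℝ} (h : t ≤ 32) : √t ≤ 6 := Real.sqrt_le_iff.2 ⟨by norm_num, by linarith⟩

lemma lg {t : ℝ} (h0 : 0 < t) (h : t ≤ 32) : √t * Real.log t ^ 2 ≤ 6144 := by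
  rcases le_total t 1 with h1 | h1
  · have w0 : 0 < √√t := by positivity
    have w1 : √√t ≤ 1 := Real.sqrt_le_one.2 (Real.sqrt_le_one.2 h1)
    have h2 := Real.abs_log_mul_self_lt _ w0 w1
    have h3 : Real.log t = 4 * Real.log √√t := by
      rw [Real.log_sqrt (Real.sqrt_nonneg t), Real.log_sqrt h0.le]
      ring
    have h4 : √t = √√t ^ 2 := (Real.sq_sqrt (Real.sqrt_nonneg t)).symm
    generalize √√t = w at *
    have h5 := sq_lt_one_iff_abs_lt_one _ |>.2 h2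
    rw [h3, h4]
    nlinarith
  · have h2 := Real.log_nonneg h1
    have h3 := Real.log_le_sub_one_of_pos h0
    calc _ ≤ 6 * (32 : ℝ) ^ 2 := by gcongr; exacts [sq6 h, by linarith]
      _ = _ := by norm_num

/-- the second order remainder -/
def ps (ε t : ℝ) : ℝ := Real.exp (ε * Real.log t) - 1 - ε * Real.log t

lemma ex3 {ε t : ℝ} (h0 : 0 < ε) (h1 : ε ≤ 1 / 8) (ht : 0 < t) (ht' : t ≤ 32) :
    Real.exp (ε * Real.log t) ≤ 32 := by
  rw [mul_comm, ← Real.rpow_def_of_pos ht]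
  exact pw h0.le (by linarith) ht.le ht'

lemma ps_le {ε t : ℝ} (h0 : 0 < ε) (h1 : ε ≤ 1 / 8) (ht : 0 < t) (ht' : t ≤ 32) :
    |ps ε t| * √t ≤ 200000 * ε ^ 2 := by
  have h2 := mul_le_mul_of_nonneg_right (ex2 (ex3 h0 h1 ht ht')) (Real.sqrt_nonneg t)
  have h3 := mul_le_mul_of_nonneg_left (lg ht ht') (sq_nonneg ε)
  refine h2.trans ?_
  nlinarith [sq_nonneg ε]

omit [InnerProductSpace ℝ E] in
lemma F_eq [NormedSpace ℝ E] (ε : ℝ) (x : E) : T ε x + ε • el x = -(ps ε ‖x‖ • x) := by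
  by_cases hx : x = 0
  · simp [hx, T, A, el]
  · simp only [T, A, el, ps, Real.rpow_def_of_pos (norm_pos_iff.2 hx), mul_comm (Real.log _) ε]
    module

lemma F_le {ε : ℝ} (h0 : 0 < ε) (h1 : ε ≤ 1 / 8) {x : E} (hx : ‖x‖ ≤ 32) :
    ‖ps ε ‖x‖ • x‖ ≤ 200000 * ε ^ 2 * √‖x‖ := by
  by_cases h : x = 0
  · simp [h]
  · have := mul_le_mul_of_nonneg_right (ps_le h0 h1 (norm_pos_iff.2 h) hx) (Real.sqrt_nonneg ‖x‖)
    rwa [mul_assoc, Real.mul_self_sqrt (norm_nonneg x), ← Real.norm_eq_abs, ← norm_smul] at this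

lemma ps_diff {ε r s δ : ℝ} (h0 : 0 < ε) (h1 : ε ≤ 1 / 8) (hs : 0 < s) (hsr : s ≤ r) (hr : r ≤ 32)
    (hδ : r - s ≤ δ) (hδ' : δ ≤ s) : |ps ε r - ps ε s| * s ≤ 300000 * ε ^ 2 * √δ := by
  have hr0 : 0 < r := hs.trans_le hsr
  have δ0 : 0 ≤ δ := by linarith
  set w := ε * Real.log (r / s) with hw
  have w0 : 0 ≤ w := mul_nonneg h0.le (Real.log_nonneg ((one_le_div hs).2 hsr))
  have w1 : w * s ≤ ε * δ := by
    have := mul_le_mul_of_nonneg_right (Real.log_le_sub_one_of_pos (div_pos hr0 hs)) hs.le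
    rw [sub_mul, div_mul_cancel₀ _ hs.ne', one_mul] at this
    rw [hw, mul_assoc]
    exact mul_le_mul_of_nonneg_left (this.trans hδ) h0.le
  have w2 : w ≤ ε := le_of_mul_le_mul_right (w1.trans (by gcongr)) hs
  have w3 : Real.exp w ≤ 32 := ex3 h0 h1 (div_pos hr0 hs) ((div_le_iff₀ hs).2 (by linarith))
  have e1 : ε * Real.log r = ε * Real.log s + w := by
    rw [hw, Real.log_div hr0.ne' hs.ne']
    ring
  have v3 := ex3 h0 h1 hs (hsr.trans hr)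
  have e2 : ps ε r - ps ε s = Real.exp (ε * Real.log s) * (Real.exp w - 1 - w) +
      (Real.exp (ε * Real.log s) - 1) * w := by
    rw [ps, ps, e1, Real.exp_add]
    ring
  have b1 : |ps ε r - ps ε s| ≤ 32 * (32 * (ε * w)) + 32 * (ε * |Real.log s|) * w := by
    rw [e2]
    refine (abs_add_le _ _).trans (add_le_add ?_ ?_)
    · rw [abs_mul, abs_of_pos (Real.exp_pos _)]
      refine mul_le_mul v3 ((ex2 w3).trans ?_) (abs_nonneg _) (by norm_num)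
      nlinarith
    · rw [abs_mul, abs_of_nonneg w0]
      refine mul_le_mul_of_nonneg_right ((ex1 v3).trans_eq ?_) w0
      rw [abs_mul, abs_of_pos h0]
  have b2 : δ ≤ √s * √δ := by
    nth_rewrite 1 [← Real.mul_self_sqrt δ0]
    gcongr
  have b3 : (1024 + 32 * |Real.log s|) * √s ≤ 300000 := by
    have h2 := lg hs (hsr.trans hr)
    have h3 := sq6 (hsr.trans hr)
    have h4 : |Real.log s| ≤ 1 + Real.log s ^ 2 := by
      rw [← sq_abs]
      nlinarith [abs_nonneg (Real.log s)]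
    have h5 := mul_le_mul_of_nonneg_right h4 (Real.sqrt_nonneg s)
    nlinarith
  calc _ ≤ (32 * (32 * (ε * w)) + 32 * (ε * |Real.log s|) * w) * s := by gcongr
    _ = (1024 + 32 * |Real.log s|) * ε * (w * s) := by ring
    _ ≤ (1024 + 32 * |Real.log s|) * ε * (ε * (√s * √δ)) :=
      mul_le_mul_of_nonneg_left (w1.trans (by gcongr)) (by positivity)
    _ = (1024 + 32 * |Real.log s|) * √s * ε ^ 2 * √δ := by ring
    _ ≤ _ := by gcongr

lemma t6' {ε : ℝ} {ξ η : E} (h0 : 0 < ε) (h1 : ε ≤ 1 / 8) (hξ : ‖ξ‖ ≤ 32) (h : ‖η‖ ≤ ‖ξ‖) :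
    ‖ps ε ‖ξ‖ • ξ - ps ε ‖η‖ • η‖ ≤ 600000 * ε ^ 2 * √‖ξ - η‖ := by
  have hd := norm_sub_norm_le ξ η
  have q0 : 0 ≤ ε ^ 2 * √‖ξ - η‖ := by positivity
  rcases le_or_gt ‖η‖ ‖ξ - η‖ with hc | hc
  · have b1 : √‖ξ‖ ≤ 2 * √‖ξ - η‖ := Real.sqrt_le_iff.2 ⟨by positivity, by
      rw [mul_pow, Real.sq_sqrt (norm_nonneg _)]
      linarith [norm_nonneg η]⟩
    have b2 : √‖η‖ ≤ √‖ξ - η‖ := Real.sqrt_le_sqrt hc
    refine (norm_sub_le _ _).trans ((add_le_add (F_le h0 h1 hξ) (F_le h0 h1 (h.trans hξ))).trans ?_)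
    nlinarith [sq_nonneg ε]
  · have hs : 0 < ‖η‖ := (norm_nonneg _).trans_lt hc
    have e : ps ε ‖ξ‖ • ξ - ps ε ‖η‖ • η = ps ε ‖ξ‖ • (ξ - η) + (ps ε ‖ξ‖ - ps ε ‖η‖) • η := by
      module
    have b1 := ps_diff h0 h1 hs h hξ hd hc.le
    have b2 := mul_le_mul_of_nonneg_right (ps_le h0 h1 (hs.trans_le h) hξ)
      (Real.sqrt_nonneg ‖ξ - η‖)
    have b3 : ‖ξ - η‖ ≤ √‖ξ‖ * √‖ξ - η‖ := by
      nth_rewrite 1 [← Real.mul_self_sqrt (norm_nonneg (ξ - η))]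
      gcongr
      exact hc.le.trans h
    have b4 := mul_le_mul_of_nonneg_left b3 (abs_nonneg (ps ε ‖ξ‖))
    rw [e]
    refine (norm_add_le _ _).trans ?_
    simp only [norm_smul, Real.norm_eq_abs]
    linarith

end Al3A

open Al3A in
theorem al3 : Al3S := fun E _ _ => ⟨600000, by norm_num,
  fun ε κ ξ η ζ h0 h1 hκ _ h2 h3 h4 h5 => (t5 ε κ ξ η ζ h0 h1 hκ h2 h3 h4 h5).trans (by
    gcongr; norm_num),
  fun ε ξ η h0 h1 h2 h3 => by
    rw [F_eq, F_eq, neg_sub_neg]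
    rcases le_total ‖η‖ ‖ξ‖ with h | h
    · rw [norm_sub_rev]
      exact t6' h0 h1 h2 h
    · rw [norm_sub_rev ξ]
      exact t6' h0 h1 h3 h⟩

end Pool.Agent.MP_815c6c_an.N
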