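import Mathlib.Tactic.Monotonicity.Lemmas
import Mathlib.Algebra.Order.Star.Real
import Mathlib.MeasureTheory.Measure.Haar.NormedSpace
import Pool.Agent.MP_815c6c_an.N.XSpec

/-! Rows HA and DEC: harmonic approximation of the potential and decay of the excess. -/

set_option autoImplicit false

noncomputable section

namespace Pool.Agent.MP_815c6c_an.N

open Set Metric MeasureTheory Filter Topology
open scoped ContDiff RealInnerProductSpace ENNReal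

namespace DecA

theorem Ps_nonneg (ε t : ℝ) (ht : 0 ≤ t) : 0 ≤ Ps ε t := by
  unfold Ps; positivity

theorem Ps_mono {ε s t : ℝ} (hε : 0 ≤ ε) (hs : 0 ≤ s) (h : s ≤ t) : Ps ε s ≤ Ps ε t := by
  unfold Ps
  exact add_le_add (pow_le_pow_left₀ hs h 2) (Real.rpow_le_rpow hs h (by linarith))

theorem Ps_two {ε s : ℝ} (hε1 : ε ≤ 1) (hs : 0 ≤ s) : Ps ε (2 * s) ≤ 8 * Ps ε s := by
  unfold Ps
  rw [Real.mul_rpow (by norm_num) hs]
  have h1 : (2 : ℝ) ^ (2 + ε) ≤ 8 := by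
    have : (2 : ℝ) ^ (2 + ε) ≤ (2 : ℝ) ^ ((3 : ℕ) : ℝ) :=
      Real.rpow_le_rpow_of_exponent_le (by norm_num) (by push_cast; linarith)
    rw [Real.rpow_natCast] at this
    linarith [show (2 : ℝ) ^ 3 = 8 by norm_num]
  have h2 : 0 ≤ s ^ (2 + ε) := Real.rpow_nonneg hs _
  nlinarith [sq_nonneg s, mul_le_mul_of_nonneg_right h1 h2]

theorem Ps_add {ε s t : ℝ} (hε : 0 ≤ ε) (hε1 : ε ≤ 1) (hs : 0 ≤ s) (ht : 0 ≤ t) :
    Ps ε (s + t) ≤ 8 * (Ps ε s + Ps ε t) := by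
  have h1 := Ps_nonneg ε s hs
  have h2 := Ps_nonneg ε t ht
  rcases le_total s t with h | h
  · have := (Ps_mono hε (add_nonneg hs ht) (by linarith : s + t ≤ 2 * t)).trans (Ps_two hε1 ht)
    linarith
  · have := (Ps_mono hε (add_nonneg hs ht) (by linarith : s + t ≤ 2 * s)).trans (Ps_two hε1 hs)
    linarith

theorem Ps_small {ε c t : ℝ} (hε : 0 ≤ ε) (hc : 0 ≤ c) (hc1 : c ≤ 1) (ht : 0 ≤ t) :
    Ps ε (c * t) ≤ c ^ 2 * Ps ε t := by
  unfold Ps
  rw [Real.mul_rpow hc ht]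
  have h1 : c ^ (2 + ε) ≤ c ^ 2 := by
    have : c ^ (2 + ε) ≤ c ^ ((2 : ℕ) : ℝ) :=
      Real.rpow_le_rpow_of_exponent_ge' hc hc1 (by norm_num) (by push_cast; linarith)
    rwa [Real.rpow_natCast] at this
  have h2 : 0 ≤ t ^ (2 + ε) := Real.rpow_nonneg ht _
  nlinarith [mul_le_mul_of_nonneg_right h1 h2]

theorem Ps_le {ε K M t : ℝ} (hε : 0 ≤ ε) (hε1 : ε ≤ 1) (hK : 0 ≤ K) (hK2 : K ^ ε ≤ 2) (hM : 0 ≤ M)
    (ht : 0 ≤ t) (h : t ≤ M * K) : Ps ε t ≤ (2 * M + 3) * t ^ 2 := by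
  unfold Ps
  have e1 : t ^ (2 + ε) = t ^ 2 * t ^ ε := by
    rw [Real.rpow_add' ht (by linarith)]
    norm_cast
  have h1 : t ^ ε ≤ ((M + 1) * K) ^ ε := Real.rpow_le_rpow ht (by nlinarith) hε
  rw [Real.mul_rpow (by linarith) hK] at h1
  have h2 : (M + 1) ^ ε ≤ M + 1 := by
    have : (M + 1) ^ ε ≤ (M + 1) ^ (1 : ℝ) := Real.rpow_le_rpow_of_exponent_le (by linarith) hε1
    rwa [Real.rpow_one] at this
  have h3 : (M + 1) ^ ε * K ^ ε ≤ (M + 1) * 2 :=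
    mul_le_mul h2 hK2 (Real.rpow_nonneg hK _) (by linarith)
  rw [e1]
  nlinarith [sq_nonneg t, mul_le_mul_of_nonneg_left (h1.trans h3) (sq_nonneg t)]

/-- change of variables on a small ball -/
theorem dil {d : ℕ} (F : X d → ℝ) (θ : ℝ) (h0 : 0 < θ) (h1 : θ ≤ 1 / 4) (hF : ∀ x, 0 ≤ F x)
    (hi : IntegrableOn F (ball 0 (1 / 4))) :
    IntegrableOn (fun x => F (θ • x)) (ball 0 1) ∧
      ∫ x in ball (0 : X d) 1, F (θ • x) ≤ (θ ^ d)⁻¹ * ∫ x in ball (0 : X d) (1 / 4), F x := by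
  have hs : ball (0 : X d) θ ⊆ ball 0 (1 / 4) := ball_subset_ball h1
  refine ⟨?_, ?_⟩
  · have h2 : Integrable (indicator (ball (0 : X d) θ) F) :=
      (integrable_indicator_iff measurableSet_ball).2 (hi.mono_set hs)
    have h3 := h2.comp_smul h0.ne'
    rw [← integrable_indicator_iff measurableSet_ball]
    refine h3.congr (Eventually.of_forall fun x => ?_)
    have hx : θ • x ∈ ball (0 : X d) θ ↔ x ∈ ball (0 : X d) 1 := by
      rw [mem_ball_zero_iff, mem_ball_zero_iff, norm_smul, Real.norm_of_nonneg h0.le]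
      constructor
      · intro h; nlinarith
      · intro h; nlinarith
    by_cases h : x ∈ ball (0 : X d) 1
    · simp only [indicator_of_mem h, indicator_of_mem (hx.2 h)]
    · simp only [indicator_of_notMem h, indicator_of_notMem (mt hx.1 h)]
  · rw [Measure.setIntegral_comp_smul_of_pos volume F _ h0, smul_unitBall_of_pos h0,
      finrank_euclideanSpace_fin, smul_eq_mul]
    refine mul_le_mul_of_nonneg_left ?_ (by positivity)
    exact setIntegral_mono_set hi (Eventually.of_forall hF) hs.eventuallyLE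

theorem AH_mono {d n : ℕ} {ρ ρ' : ℝ} {z : X d → Gr d n} (h : AH ρ z) (hρ : ρ ≤ ρ') : AH ρ' z :=
  fun φ c hφ h1 h2 => (h φ c hφ h1 h2).trans
    (mul_le_mul_of_nonneg_right hρ ((norm_nonneg _).trans (h1 0)))

end DecA

open DecA

theorem ha (k : Kit) (hA : AvgS) (hP : PoiS) (hT : TayS) : HaS := by
  intro d n
  obtain ⟨CE, hE⟩ := k.exc d n
  obtain ⟨CT, hCT, hT⟩ := hT d n
  have hCE := hE.pos
  set V : ℝ := volume.real (ball (0 : X d) 1) with hV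
  have hV0 : 0 ≤ V := measureReal_nonneg
  have hM2 : 0 ≤ CT * CE := mul_nonneg hCT (by linarith)
  set M2 : ℝ := CT * CE with hM2d
  refine ⟨√(8 + 64 * V * (2 * M2 + 3) * M2 ^ 2), Real.sqrt_nonneg _, fun θ h0 h1 => ?_⟩
  have hr0 : 0 < θ ^ (3 + d) := pow_pos h0 _
  have hθ1 : θ ≤ 1 := by linarith
  have hr1 : θ ^ (3 + d) ≤ θ := by
    rw [show 3 + d = (2 + d) + 1 by ring, pow_succ]
    exact mul_le_of_le_one_left h0.le (pow_le_one₀ h0.le hθ1)
  obtain ⟨CA, hCA, hA⟩ := hA d n (θ ^ (3 + d)) hr0 (by linarith)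
  have hM1 : 0 ≤ θ⁻¹ * CA := by positivity
  set M1 : ℝ := θ⁻¹ * CA with hM1d
  refine ⟨√(64 * V * (2 * M1 + 3) * M1 ^ 2), Real.sqrt_nonneg _,
    fun ε K ρ v z hε hε1 hK2 hv hz hw hb hH hρ hah hρK heK => ?_⟩
  have hK : 0 ≤ K := hρ.trans hρK
  have he : 0 ≤ exc ε z := Real.sqrt_nonneg _
  set e : ℝ := exc ε z with hed
  have iv := (hE.ib ε v hε hv).1
  have iz := (hE.ib ε z hε hz).1
  obtain ⟨hi, hle⟩ := hP d n ε (θ ^ (3 + d)) v z hε hr0 (by linarith) hv hz hw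
  set g : X d → X n := fun x => (θ ^ (3 + d))⁻¹ • (v x - ∫ y, kk y • v (x + θ ^ (3 + d) • y))
    with hg
  obtain ⟨hi', hle'⟩ := dil (fun x => Ps ε ‖g x‖) θ h0 h1
    (fun x => Ps_nonneg _ _ (norm_nonneg _)) hi
  have hL1 : L1 z ≤ CE * e := by
    have := hE.l1 ε z hε hz
    exact this.1.trans (mul_le_mul_of_nonneg_left this.2 (by linarith))
  have hc0 : 0 ≤ θ ^ (2 + d) := by positivity
  have hc1 : θ ^ (2 + d) ≤ 1 := pow_le_one₀ h0.le hθ1
  have ht1 : 0 ≤ M1 * ρ := by positivity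
  have ht2 : 0 ≤ M2 * θ ^ 2 * e := by positivity
  have hp1 : Ps ε (M1 * ρ) ≤ (2 * M1 + 3) * (M1 * ρ) ^ 2 :=
    Ps_le hε hε1 hK hK2 hM1 ht1 (mul_le_mul_of_nonneg_left hρK hM1)
  have hp2 : Ps ε (M2 * θ ^ 2 * e) ≤ (2 * M2 + 3) * (M2 * θ ^ 2 * e) ^ 2 := by
    refine Ps_le hε hε1 hK hK2 hM2 ht2 ?_
    rw [mul_assoc]
    refine mul_le_mul_of_nonneg_left ?_ hM2
    exact (mul_le_of_le_one_left he (pow_le_one₀ h0.le hθ1)).trans heK
  set Q : ℝ := 64 * ((2 * M1 + 3) * (M1 * ρ) ^ 2 + (2 * M2 + 3) * (M2 * θ ^ 2 * e) ^ 2) with hQ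
  have key : ∀ x ∈ ball (0 : X d) 1, Ps ε ‖θ⁻¹ • (v (θ • x) - bb v)‖ ≤
      8 * (θ ^ (2 + d)) ^ 2 * Ps ε ‖g (θ • x)‖ + Q := by
    intro x hx
    rw [mem_ball_zero_iff] at hx
    have hn : ‖θ • x‖ ≤ θ := by
      rw [norm_smul, Real.norm_of_nonneg h0.le]; exact mul_le_of_le_one_right h0.le hx.le
    have b1 := hA v z ρ iv iz hw hρ hah (θ • x) (hn.trans h1)
    have b2 := hT v z iv iz hw hb hH (θ • x) (hn.trans h1)
    have hL0 : 0 ≤ L1 z := integral_nonneg fun _ => norm_nonneg _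
    have b3 : CT * ‖θ • x‖ ^ 3 * L1 z ≤ CT * θ ^ 3 * (CE * e) :=
      mul_le_mul (mul_le_mul_of_nonneg_left (pow_le_pow_left₀ (norm_nonneg _) hn 3) hCT) hL1 hL0
        (by positivity)
    have e1 : θ⁻¹ • (v (θ • x) - bb v) = θ ^ (2 + d) • g (θ • x) +
        (θ⁻¹ • ((∫ y, kk y • v (θ • x + θ ^ (3 + d) • y)) - ∫ y, kk y • v (θ • x + y)) +
          θ⁻¹ • ((∫ y, kk y • v (θ • x + y)) - bb v)) := by
      have : θ ^ (2 + d) * (θ ^ (3 + d))⁻¹ = θ⁻¹ := by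
        rw [show 3 + d = (2 + d) + 1 by ring, pow_succ]; field_simp
      simp only [hg, smul_smul, this]
      module
    have hθi : 0 ≤ θ⁻¹ := by positivity
    have n1 : ‖θ⁻¹ • (v (θ • x) - bb v)‖ ≤
        θ ^ (2 + d) * ‖g (θ • x)‖ + (M1 * ρ + M2 * θ ^ 2 * e) := by
      rw [e1]
      refine (norm_add_le _ _).trans (add_le_add ?_ ((norm_add_le _ _).trans (add_le_add ?_ ?_)))
      · rw [norm_smul, Real.norm_of_nonneg hc0]
      · rw [norm_smul, Real.norm_of_nonneg hθi, hM1d, mul_assoc]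
        exact mul_le_mul_of_nonneg_left b1 hθi
      · rw [norm_smul, Real.norm_of_nonneg hθi]
        refine (mul_le_mul_of_nonneg_left (b2.trans b3) hθi).trans (le_of_eq ?_)
        rw [hM2d]; field_simp
    have s1 := Ps_mono hε (norm_nonneg _) n1
    have s2 := Ps_add hε hε1 (mul_nonneg hc0 (norm_nonneg (g (θ • x)))) (add_nonneg ht1 ht2)
    have s3 := Ps_add hε hε1 ht1 ht2
    have s4 := Ps_small hε hc0 hc1 (norm_nonneg (g (θ • x)))
    rw [hQ]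
    linarith
  have hc : IntegrableOn (fun _ : X d => Q) (ball 0 1) := integrableOn_const measure_ball_lt_top.ne
  have i1 : ∫ x in ball (0 : X d) 1, Ps ε ‖θ⁻¹ • (v (θ • x) - bb v)‖ ≤
      ∫ x in ball (0 : X d) 1, (8 * (θ ^ (2 + d)) ^ 2 * Ps ε ‖g (θ • x)‖ + Q) :=
    integral_mono_of_nonneg (Eventually.of_forall fun x => Ps_nonneg _ _ (norm_nonneg _))
      ((hi'.const_mul _).add hc) ((ae_restrict_mem measurableSet_ball).mono key)
  rw [integral_add (hi'.const_mul _) hc, integral_const_mul, setIntegral_const, smul_eq_mul,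
    ← hV] at i1
  have i2 : (θ ^ (2 + d)) ^ 2 * ∫ x in ball (0 : X d) 1, Ps ε ‖g (θ • x)‖ ≤ (θ ^ 2 * e) ^ 2 := by
    have a1 := mul_le_mul_of_nonneg_left (hle'.trans (mul_le_mul_of_nonneg_left hle
      (by positivity))) (sq_nonneg (θ ^ (2 + d)))
    refine a1.trans ?_
    have a2 : (θ ^ (2 + d)) ^ 2 * ((θ ^ d)⁻¹ * e ^ 2) = θ ^ d * (θ ^ 2 * e) ^ 2 := by
      rw [pow_add]; field_simp
    rw [a2]
    exact mul_le_of_le_one_left (sq_nonneg _) (pow_le_one₀ h0.le hθ1)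
  have q1 : √(8 + 64 * V * (2 * M2 + 3) * M2 ^ 2) ^ 2 = 8 + 64 * V * (2 * M2 + 3) * M2 ^ 2 :=
    Real.sq_sqrt (by positivity)
  have q2 : √(64 * V * (2 * M1 + 3) * M1 ^ 2) ^ 2 = 64 * V * (2 * M1 + 3) * M1 ^ 2 :=
    Real.sq_sqrt (by positivity)
  have p1 := Real.sqrt_nonneg (8 + 64 * V * (2 * M2 + 3) * M2 ^ 2)
  have p2 := Real.sqrt_nonneg (64 * V * (2 * M1 + 3) * M1 ^ 2)
  generalize √(8 + 64 * V * (2 * M2 + 3) * M2 ^ 2) = c1 at q1 p1 ⊢
  generalize √(64 * V * (2 * M1 + 3) * M1 ^ 2) = c2 at q2 p2 ⊢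
  show √(∫ x in ball (0 : X d) 1, Ps ε ‖θ⁻¹ • (v (θ • x) - bb v)‖) ≤ _
  refine Real.sqrt_le_iff.2 ⟨by positivity, i1.trans ?_⟩
  have r1 : (c1 * θ ^ 2 * e + c2 * ρ) ^ 2 =
      c1 ^ 2 * (θ ^ 2 * e) ^ 2 + c2 ^ 2 * ρ ^ 2 + 2 * (c1 * θ ^ 2 * e * (c2 * ρ)) := by ring
  have r2 : 0 ≤ c1 * θ ^ 2 * e * (c2 * ρ) := by positivity
  rw [r1, q1, q2, hQ]
  linarith only [i2, r2]

theorem dec (k : Kit) (hH : HaS) (hC : CacS) : DecS := by
  intro d n
  obtain ⟨CE, hE⟩ := k.exc d n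
  obtain ⟨C0, hC0, hH⟩ := hH d n
  obtain ⟨Cc, hCc, hC⟩ := hC d n
  have hB := k.bas d n
  have hP := k.par d n
  have hS := k.sca d n
  obtain ⟨Cr, hCr, hR⟩ := hP.res_ah
  have hCE := hE.pos
  have hCE0 : 0 ≤ CE := by linarith
  refine ⟨CE * Cc * (4 * C0), by positivity, fun θ h0 h1 => ?_⟩
  have h2 : 0 < 2 * θ := by linarith
  obtain ⟨CH, hCH, hH⟩ := hH (2 * θ) h2 (by linarith)
  have hX : 0 ≤ CE * Cc * (CH * (Cr + 1) + 1) := by positivity
  refine ⟨Cr + 1 + CE * Cc * (CH * (Cr + 1) + 1), by positivity,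
    fun ε K ρ l τ u P G hε hε1 hK2 hρ hl hs hP1 hK hres hwt hb hHH hτ hCK heK => ?_⟩
  have hτ0 : 0 ≤ τ := (integral_nonneg fun _ => norm_nonneg _).trans hτ
  have cΓ := hB.c_Dm P hP1
  have mΓ : Mp ε (Dm P) := hE.mp_c ε _ cΓ
  have mP : Mp ε P := hE.mp_c ε _ hP1.continuous
  have mz : Mp ε fun x => G x - Dm P x := MemLp.sub hs.mG mΓ
  have mv : Mp ε fun x => u x - P x := MemLp.sub hs.mu mP
  have iG := hE.ib_A ε G hε.le hs.mG
  have iΓ := hE.ib_A ε (Dm P) hε.le mΓ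
  have iT : Ib fun x => T ε (G x) - T ε (Dm P x) := Integrable.sub iG.2 iΓ.2
  have ah1 : AH ((Cr + 1) * (ρ + τ)) fun x => G x - Dm P x := by
    intro φ c hφ b1 b2
    have hc : 0 ≤ c := (norm_nonneg _).trans (b1 0)
    have iD : Ib fun x => (1 : ℝ) • A ε (G x) + (-1 : ℝ) • A ε (Dm P x) :=
      Integrable.add (iG.1.smul (1 : ℝ)) (iΓ.1.smul (-1 : ℝ))
    have e1 := hP.add _ _ 1 (-1) φ iG.1 iΓ.1 hφ
    have e2 := hP.add _ _ 1 1 φ iT iD hφ
    have e3 : (fun x => G x - Dm P x) = fun x => (1 : ℝ) • (T ε (G x) - T ε (Dm P x)) +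
        (1 : ℝ) • ((1 : ℝ) • A ε (G x) + (-1 : ℝ) • A ε (Dm P x)) := by
      funext x; simp only [T]; module
    rw [e3, e2, e1, hs.eq φ hφ]
    have a1 := hP.ah _ iT φ c hφ b1 b2
    have a2 := hR ε ρ (Dm P) hρ hres φ c hφ b1 b2
    have a3 := mul_le_mul_of_nonneg_right hτ hc
    have a4 : 0 ≤ ρ * c := by positivity
    have a5 : 0 ≤ Cr * τ * c := by positivity
    rw [abs_le] at a1 a2 ⊢
    constructor <;> linarith only [a1.1, a1.2, a2.1, a2.2, a3, a4, a5]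
  have hρτ : 0 ≤ ρ + τ := by positivity
  have hle : (Cr + 1) * (ρ + τ) ≤ (Cr + 1 + CE * Cc * (CH * (Cr + 1) + 1)) * (ρ + τ) :=
    mul_le_mul_of_nonneg_right (by linarith) hρτ
  refine ⟨AH_mono ah1 hle, ?_⟩
  have wg : WG (fun x => u x - P x) fun x => G x - Dm P x := by
    have := hP.wg_add u P G (Dm P) 1 (-1) (hE.ib ε u hε.le hs.mu).1 (hE.ib ε P hε.le mP).1
      (hE.ib ε G hε.le hs.mG).1 (hE.ib ε _ hε.le mΓ).1 hs.wg (hP.wg_c1 P hP1)
    simpa only [one_smul, neg_smul, ← sub_eq_add_neg] using this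
  have ha1 := hH ε K _ _ _ hε.le hε1 hK2 mv mz wg hb hHH (by positivity) ah1 (hle.trans hCK) heK
  set c : X n := bb fun x => u x - P x with hc
  have s1 := hS.sol ε u G 0 (2 * θ) 1 hε.le h2 one_pos (by rw [norm_zero]; linarith) hs
  set P' : X d → X n := fun y => (2 * θ)⁻¹ • (P (0 + (2 * θ) • y) + c) with hP'
  have c1 : ContDiff ℝ 1 P' := by
    rw [hP']
    exact ((hP1.comp (contDiff_const.add (contDiff_id.const_smul (2 * θ)))).add
      contDiff_const).const_smul _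
  have dP' : Dm P' = sc (2 * θ) (Dm P) := by
    funext x
    have hd : Differentiable ℝ P := hP1.differentiable one_ne_zero
    have := hB.D_sh (fun y => P y + c) 0 (2 * θ) (2 * θ)⁻¹ x ((hd _).add_const c)
    rw [hP', this, inv_mul_cancel₀ h2.ne', one_smul, zero_add]
    simp only [Dm, sc, fderiv_add_const]
  have hin : ∀ x ∈ ball (0 : X d) 1, (2 * θ) • x ∈ ball (0 : X d) 1 := by
    intro x hx
    rw [mem_ball_zero_iff] at hx ⊢
    rw [norm_smul, Real.norm_of_nonneg h2.le]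
    exact (mul_le_of_le_one_left (norm_nonneg x) (by linarith only [h1])).trans_lt hx
  have ca := hC ε K ρ l _ P' _ hε hε1 hK2 hρ hl s1 c1
    (by rw [dP']; exact fun x hx => hK _ (hin x hx))
    (by rw [dP']; exact hS.res ε ρ _ _ h2 (by linarith) hρ hres)
    (by rw [dP']; exact fun x hx z => hwt _ (hin x hx) z)
  have f1 : (sc (1 / 2) fun x => (1 : ℝ) • sh 0 (2 * θ) G x - Dm P' x) =
      sc θ fun x => G x - Dm P x := by
    funext x
    have : 2 * θ * (1 / 2) = θ := by ring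
    simp only [dP', sc, sh, one_smul, zero_add, smul_smul, this]
  have f2 : (fun x => (1 * (2 * θ)⁻¹) • sh 0 (2 * θ) u x - P' x) =
      fun x => (2 * θ)⁻¹ • (u ((2 * θ) • x) - P ((2 * θ) • x) - c) := by
    funext x
    simp only [hP', sh, one_mul, zero_add]
    module
  rw [f1, f2] at ca
  have msc : Mp ε (sc θ fun x => G x - Dm P x) := by
    have := hE.mp_sh ε _ 0 θ h0 (by rw [norm_zero]; linarith) mz
    have e : sh 0 θ (fun x => G x - Dm P x) = sc θ fun x => G x - Dm P x := by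
      funext x; simp only [sh, sc, zero_add]
    rwa [e] at this
  have pl := hE.pr_le ε _ hε.le hε1 msc
  have t1 := mul_le_mul_of_nonneg_left (add_le_add (add_le_add ha1 (le_refl ρ)) (le_refl l)) hCc
  have t2 := pl.trans (mul_le_mul_of_nonneg_left (ca.trans t1) hCE0)
  refine t2.trans ?_
  have z1 : 0 ≤ CE * Cc * τ := by positivity
  have z2 : 0 ≤ CE * Cc * (CH * (Cr + 1)) * l := by positivity
  have z3 : 0 ≤ (Cr + 1) * (ρ + l + τ) := by positivity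
  linarith only [z1, z2, z3]

end Pool.Agent.MP_815c6c_an.N
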