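import Mathlib.Topology.Sheaves.Presheaf
import Mathlib.Tactic.Monotonicity.Lemmas
import Mathlib.Algebra.Order.Ring.Star
import Mathlib.Algebra.Order.Star.Real
import Mathlib.Analysis.Calculus.BumpFunction.Convolution
import Mathlib.Order.CompletePartialOrder
import Mathlib.Topology.UniformSpace.Uniformizable
import Pool.Agent.MP_815c6c_an.N.XSpec

-- ======== part 0: formerly Pool.Agent.MP_815c6c_an.N.Ite
section MrgPart0

/-! The iteration of the one step estimates. -/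

set_option autoImplicit false

noncomputable section

namespace Pool.Agent.MP_815c6c_an.N

open Set Metric MeasureTheory Filter Topology

namespace IteA

variable {d n : ℕ}

theorem sc_sc (s t : ℝ) (z : X d → Gr d n) : sc s (sc t z) = sc (t * s) z := by
  funext x; simp [sc, smul_smul]

theorem sc_one (z : X d → Gr d n) : sc 1 z = z := by
  funext x; simp [sc]

theorem sc_smul (s t m : ℝ) (z : X d → Gr d n) :
    sc s (fun x => m • sc t z x) = fun x => m • sc (t * s) z x := by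
  funext x; simp [sc, smul_smul]

theorem bb_res (k : Ker d n) (s t m : ℝ) (z : X d → Gr d n) :
    bb (sc s fun x => m • sc t z x) = m • bb (sc (t * s) z) := by
  rw [sc_smul, k.bb_smul]

theorem Ht_res (k : Ker d n) (s t m : ℝ) (ht : t ≠ 0) (z : X d → Gr d n) :
    Ht s (fun x => m • sc t z x) = (m * t) • Ht (t * s) z := by
  unfold Ht
  rw [sc_smul, k.HH_smul, smul_smul, smul_smul]
  congr 1
  rw [mul_inv, mul_assoc, ← mul_assoc t, mul_inv_cancel₀ ht]; ring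

theorem Ht_one (z : X d → Gr d n) : Ht 1 z = HH z := by
  unfold Ht; rw [sc_one]; simp

theorem exc_nn (ε : ℝ) (z : X d → Gr d n) : 0 ≤ exc ε z := Real.sqrt_nonneg _

theorem pr_smul (k : Ker d n) (m : ℝ) (z : X d → Gr d n) :
    pr (fun x => m • z x) = fun x => m • pr z x := by
  funext x
  simp only [pr, k.bb_smul, k.HH_smul, map_smul, smul_apply, smul_sub]

/-- the abstract induction -/
theorem abs_it {E F : Type} [NormedAddCommGroup E] [NormedAddCommGroup F] (b : ℕ → E) (h : ℕ → F)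
    (e : ℕ → ℝ) (θ c L K : ℝ) (hθ : 0 < θ) (hθ' : θ ≤ 1 / 2) (hc : 0 ≤ c) (hK : 1 ≤ K)
    (hLK : L ≤ K) (hs : c * (1 + 9 * K) * K ≤ θ / 4) (he : ∀ j, 0 ≤ e j)
    (h1 : 3 / 4 ≤ ‖b 0‖) (h2 : ‖b 0‖ ≤ 3 / 2) (h3 : ‖h 0‖ + e 0 ≤ L)
    (step : ∀ j, 1 / 2 ≤ ‖b j‖ → ‖b j‖ ≤ 2 → θ ^ j * ‖h j‖ + e j ≤ 3 * L * θ ^ j →
      ‖b (j + 1) - b j‖ ≤ c * (e j + (3 * L * θ ^ j) ^ 2) ∧
      θ ^ j * ‖h (j + 1) - h j‖ ≤ c * (e j + (3 * L * θ ^ j) ^ 2) ∧
      e (j + 1) ≤ θ / 4 * e j + c * (e j + (3 * L * θ ^ j) ^ 2)) (j : ℕ) :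
    ‖b j‖ ≤ 2 ∧ ‖h j‖ ≤ 2 * L ∧ ‖b (j + 1) - b j‖ ≤ L * θ ^ j ∧
      ‖h (j + 1) - h j‖ ≤ L * (3 / 4) ^ j := by
  have hL : 0 ≤ L := le_trans (add_nonneg (norm_nonneg _) (he 0)) h3
  obtain ⟨η, hη⟩ : ∃ η, η = c * (1 + 9 * K) := ⟨_, rfl⟩
  have hη0 : 0 ≤ η := by rw [hη]; positivity
  rw [← hη] at hs
  have hη1 : η ≤ θ / 4 := by nlinarith
  have hηL : η * L ≤ 1 / 8 := by nlinarith
  have hηL' : η * L ≤ L / 8 := by nlinarith
  have hηL0 : 0 ≤ η * L := mul_nonneg hη0 hL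
  have key : ∀ j, e j ≤ L * (θ ^ j * (1 / 2) ^ j) → ‖h j‖ ≤ L + 2 * (η * L) * (1 - (1 / 2) ^ j) →
      ‖b j - b 0‖ ≤ 2 * (η * L) * (1 - (1 / 2) ^ j) →
      ‖b j‖ ≤ 2 ∧ ‖h j‖ ≤ 2 * L ∧ ‖b (j + 1) - b j‖ ≤ η * L * (θ ^ j * (1 / 2) ^ j) ∧
      ‖h (j + 1) - h j‖ ≤ η * L * (1 / 2) ^ j ∧
      e (j + 1) ≤ L * (θ ^ (j + 1) * (1 / 2) ^ (j + 1)) := by
    intro j i1 i2 i3
    have q0 : (0 : ℝ) < (1 / 2) ^ j := by positivity
    have q1 : ((1 : ℝ) / 2) ^ j ≤ 1 := pow_le_one₀ (by norm_num) (by norm_num)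
    have t0 : 0 < θ ^ j := pow_pos hθ j
    have t1 : θ ^ j ≤ (1 / 2) ^ j := pow_le_pow_left₀ hθ.le hθ' j
    have a1 : 2 * (η * L) * (1 - (1 / 2) ^ j) ≤ 2 * (η * L) := by nlinarith
    have n1 : ‖b j‖ ≤ ‖b j - b 0‖ + ‖b 0‖ := norm_le_norm_sub_add _ _
    have n2 : ‖b 0‖ ≤ ‖b j - b 0‖ + ‖b j‖ := by
      rw [norm_sub_rev]; exact norm_le_norm_sub_add _ _
    have b2 : ‖b j‖ ≤ 2 := by linarith
    have hh : ‖h j‖ ≤ 2 * L := by linarith
    have s3 : θ ^ j * ‖h j‖ + e j ≤ 3 * L * θ ^ j := by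
      have u1 : θ ^ j * ‖h j‖ ≤ θ ^ j * (2 * L) := mul_le_mul_of_nonneg_left hh t0.le
      have u2 : L * (θ ^ j * (1 / 2) ^ j) ≤ L * (θ ^ j * 1) := by gcongr
      linarith
    obtain ⟨r1, r2, r3⟩ := step j (by linarith) b2 s3
    have hR : c * (e j + (3 * L * θ ^ j) ^ 2) ≤ η * L * (θ ^ j * (1 / 2) ^ j) := by
      have u1 : (3 * L * θ ^ j) ^ 2 ≤ 9 * K * (L * (θ ^ j * (1 / 2) ^ j)) := by
        calc (3 * L * θ ^ j) ^ 2 = 9 * L * (L * (θ ^ j * θ ^ j)) := by ring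
          _ ≤ 9 * K * (L * (θ ^ j * (1 / 2) ^ j)) := by gcongr
      calc c * (e j + (3 * L * θ ^ j) ^ 2)
          ≤ c * (L * (θ ^ j * (1 / 2) ^ j) + 9 * K * (L * (θ ^ j * (1 / 2) ^ j))) := by gcongr
        _ = η * L * (θ ^ j * (1 / 2) ^ j) := by rw [hη]; ring
    refine ⟨b2, hh, r1.trans hR, ?_, ?_⟩
    · refine le_of_mul_le_mul_left ?_ t0
      calc θ ^ j * ‖h (j + 1) - h j‖ ≤ η * L * (θ ^ j * (1 / 2) ^ j) := r2.trans hR
        _ = θ ^ j * (η * L * (1 / 2) ^ j) := by ring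
    · have u1 : θ / 4 * e j ≤ θ / 4 * (L * (θ ^ j * (1 / 2) ^ j)) := by gcongr
      have u2 : η * L * (θ ^ j * (1 / 2) ^ j) ≤ θ / 4 * L * (θ ^ j * (1 / 2) ^ j) := by gcongr
      calc e (j + 1) ≤ θ / 4 * (L * (θ ^ j * (1 / 2) ^ j)) +
            θ / 4 * L * (θ ^ j * (1 / 2) ^ j) := by linarith
        _ = L * (θ ^ (j + 1) * (1 / 2) ^ (j + 1)) := by ring
  have inv : ∀ j, e j ≤ L * (θ ^ j * (1 / 2) ^ j) ∧ ‖h j‖ ≤ L + 2 * (η * L) * (1 - (1 / 2) ^ j) ∧
      ‖b j - b 0‖ ≤ 2 * (η * L) * (1 - (1 / 2) ^ j) := by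
    intro j
    induction j with
    | zero =>
      have := norm_nonneg (h 0)
      have := he 0
      refine ⟨?_, ?_, ?_⟩ <;> simp <;> linarith
    | succ j ih =>
      obtain ⟨-, -, k3, k4, k5⟩ := key j ih.1 ih.2.1 ih.2.2
      have n1 : ‖h (j + 1)‖ ≤ ‖h (j + 1) - h j‖ + ‖h j‖ := norm_le_norm_sub_add _ _
      have n2 : ‖b (j + 1) - b 0‖ ≤ ‖b (j + 1) - b j‖ + ‖b j - b 0‖ := norm_sub_le_norm_sub_add_norm_sub _ _ _
      have t1 : θ ^ j ≤ 1 := pow_le_one₀ hθ.le (by linarith)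
      have u : η * L * (θ ^ j * (1 / 2) ^ j) ≤ η * L * (1 * (1 / 2) ^ j) := by gcongr
      have v : 2 * (η * L) * (1 - (1 / 2) ^ (j + 1)) =
          2 * (η * L) * (1 - (1 / 2) ^ j) + η * L * (1 / 2) ^ j := by ring
      refine ⟨k5, ?_, ?_⟩
      · rw [v]; linarith [ih.2.1]
      · rw [v]; linarith [ih.2.2]
  obtain ⟨k1, k2, k3, k4, -⟩ := key j (inv j).1 (inv j).2.1 (inv j).2.2
  have q1 : ((1 : ℝ) / 2) ^ j ≤ 1 := pow_le_one₀ (by norm_num) (by norm_num)
  have q2 : ((1 : ℝ) / 2) ^ j ≤ (3 / 4) ^ j := pow_le_pow_left₀ (by norm_num) (by norm_num) j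
  have w : η * L ≤ L := by linarith
  refine ⟨k1, k2, k3.trans ?_, k4.trans ?_⟩
  · calc η * L * (θ ^ j * (1 / 2) ^ j) ≤ L * (θ ^ j * 1) := by gcongr
      _ = L * θ ^ j := by ring
  · gcongr

/-- the outcome of the iteration, with natural powers -/
theorem it_of {E F : Type} [NormedAddCommGroup E] [NormedAddCommGroup F] (θ g C L : ℝ)
    (hθ : 0 < θ) (b : ℕ → E) (h : ℕ → F) (u1 : ∀ j : ℕ, ‖h j‖ ≤ C * L * (θ ^ (-g)) ^ j)
    (u2 : ∀ j : ℕ, ‖b (j + 1) - b j‖ ≤ C * L * (θ ^ (1 - g)) ^ j)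
    (u3 : Tendsto b atTop (𝓝 0) ∨ ∃ k : ℕ, ∀ i, ‖b (k + i)‖ ≤ C * (θ ^ (1 - g)) ^ k ∧
      ‖h (k + i)‖ ≤ C * L * (θ ^ (-g)) ^ k ∧
      ‖h (k + i + 1) - h (k + i)‖ ≤ C * L * (θ ^ (-g)) ^ k * (3 / 4) ^ i) : It θ g C L b h := by
  have e : ∀ (a : ℝ) (j : ℕ), θ ^ (a * j) = (θ ^ a) ^ j := fun a j =>
    Real.rpow_mul_natCast hθ.le a j
  refine ⟨fun j => by rw [e]; exact u1 j, fun j => by rw [e]; exact u2 j, u3.imp id ?_⟩
  rintro ⟨k, hk⟩
  refine ⟨k, fun j hj => ?_⟩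
  obtain ⟨i, rfl⟩ := Nat.exists_eq_add_of_le hj
  rw [e, e, Nat.add_sub_cancel_left]
  exact hk i

/-- the abstract form of the degenerate iteration -/
theorem deg {E F : Type} [NormedAddCommGroup E] [NormedAddCommGroup F] (θ g C K : ℝ)
    (hθ : 0 < θ) (hθ' : θ < 1) (hg : 0 ≤ g) (hg' : g < 1) (hC : 1 ≤ C) (hK : 1 ≤ K) (b : ℕ → E)
    (h : ℕ → F) (S P : ℕ → Prop) (h0 : S 0) (hS : ∀ j, S j → P j → S (j + 1))
    (hb : ∀ j, S j → ‖b j‖ ≤ C * (θ ^ (1 - g)) ^ j ∧ ‖h j‖ ≤ C * (θ ^ (-g)) ^ j)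
    (hn : ∀ k, S k → ¬P k → ∀ i, ‖b (k + i)‖ ≤ 2 * C * (θ ^ (1 - g)) ^ k ∧
      ‖h (k + i)‖ ≤ 2 * C * K * (θ ^ (-g)) ^ k ∧
      ‖b (k + i + 1) - b (k + i)‖ ≤ C * K * (θ ^ (1 - g)) ^ k * θ ^ i ∧
      ‖h (k + i + 1) - h (k + i)‖ ≤ C * K * (θ ^ (-g)) ^ k * (3 / 4) ^ i) :
    It θ g (2 * C * K) 1 b h := by
  have n0 : 0 < θ ^ (1 - g) := Real.rpow_pos_of_pos hθ _
  have n1 : θ ^ (1 - g) < 1 := Real.rpow_lt_one hθ.le hθ' (by linarith)
  have n2 : θ ≤ θ ^ (1 - g) := by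
    simpa using Real.rpow_le_rpow_of_exponent_ge hθ hθ'.le (by linarith : 1 - g ≤ 1)
  have l1 : 1 ≤ θ ^ (-g) := Real.one_le_rpow_of_pos_of_le_one_of_nonpos hθ hθ'.le (by linarith)
  have c1 : C ≤ C * K := by nlinarith
  have c0 : 0 ≤ C * K := by nlinarith
  refine it_of θ g _ 1 hθ b h ?_ ?_ ?_ <;> simp only [mul_one] <;>
    generalize θ ^ (1 - g) = ν at * <;> generalize θ ^ (-g) = l at *
  all_goals
    have alt : (∀ j, S j) ∨ ∃ k, ¬P k ∧ ∀ j, j ≤ k → S j := by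
      classical
      by_cases hP : ∃ k, ¬P k
      · refine Or.inr ⟨Nat.find hP, Nat.find_spec hP, fun j => ?_⟩
        induction j with
        | zero => exact fun _ => h0
        | succ j ih => exact fun hj => hS j (ih (by omega)) (not_not.1 (Nat.find_min hP (by omega)))
      · refine Or.inl fun j => ?_
        induction j with
        | zero => exact h0
        | succ j ih => exact hS j ih (not_not.1 fun hj => hP ⟨j, hj⟩)
  · intro j
    have l0 : 0 ≤ l ^ j := by positivity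
    by_cases hj : S j
    · refine (hb j hj).2.trans ?_
      gcongr; linarith
    · obtain ⟨k, hk, hs⟩ := alt.resolve_left fun a => hj (a j)
      obtain ⟨i, rfl⟩ := Nat.exists_eq_add_of_le (le_of_not_ge fun a => hj (hs j a))
      refine (hn k (hs k le_rfl) hk i).2.1.trans ?_
      have : 0 ≤ 2 * C * K := by linarith
      gcongr; omega
  · intro j
    have p0 : 0 ≤ ν ^ j := by positivity
    by_cases hj : S j ∧ S (j + 1)
    · have a1 := (hb j hj.1).1
      have a2 := (hb _ hj.2).1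
      have a3 : ν ^ (j + 1) ≤ ν ^ j := pow_le_pow_of_le_one n0.le n1.le (by omega)
      have a4 : C * ν ^ (j + 1) ≤ C * ν ^ j := by gcongr
      have a5 : C * ν ^ j ≤ C * K * ν ^ j := by gcongr
      linarith [norm_sub_le (b (j + 1)) (b j)]
    · obtain ⟨k, hk, hs⟩ := alt.resolve_left fun a => hj ⟨a _, a _⟩
      obtain ⟨i, rfl⟩ := Nat.exists_eq_add_of_le
        (le_of_not_gt fun a : j < k => hj ⟨hs j a.le, hs _ a⟩)
      refine (hn k (hs k le_rfl) hk i).2.2.1.trans ?_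
      calc C * K * ν ^ k * θ ^ i ≤ C * K * ν ^ k * ν ^ i := by gcongr
        _ = C * K * ν ^ (k + i) := by ring
        _ ≤ 2 * C * K * ν ^ (k + i) := by gcongr; linarith
  · rcases alt with a | ⟨k, hk, hs⟩
    · refine Or.inl (squeeze_zero_norm (fun j => (hb j (a j)).1) ?_)
      simpa using (tendsto_pow_atTop_nhds_zero_of_lt_one n0.le n1).const_mul C
    · refine Or.inr ⟨k, fun i => ?_⟩
      obtain ⟨a1, a2, -, a4⟩ := hn k (hs k le_rfl) hk i
      have c2 : C * K ≤ 2 * C * K := by linarith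
      have c3 : 2 * C ≤ 2 * C * K := by linarith
      refine ⟨a1.trans (mul_le_mul_of_nonneg_right c3 (by positivity)), a2, a4.trans ?_⟩
      gcongr

end IteA

open IteA

theorem itn (k : Kit) (d n : ℕ) (hs : StnS d n) : ItnS d n := by
  obtain ⟨θ₀, h0, hs⟩ := hs
  refine ⟨min θ₀ (1 / 2), by positivity, fun θ hθ hθ' K hK => ?_⟩
  have hθ2 : θ ≤ 1 / 2 := hθ'.trans (min_le_right _ _)
  obtain ⟨C, hC, hs⟩ := hs θ hθ (hθ'.trans (min_le_left _ _))
  obtain ⟨ε₀, hε₀, hs⟩ := hs (3 * K) (by linarith)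
  have hD : 0 < (C + 1) * ((1 + 9 * K) * K) := by positivity
  refine ⟨min ε₀ (θ / 4 / ((C + 1) * ((1 + 9 * K) * K))), by positivity,
    fun ε L u G hε hε' hG h1 h2 h3 hL j => ?_⟩
  have hε1 : ε ≤ ε₀ := hε'.trans (min_le_left _ _)
  have hε2 : ε * ((C + 1) * ((1 + 9 * K) * K)) ≤ θ / 4 :=
    (le_div_iff₀ hD).1 (hε'.trans (min_le_right _ _))
  have hL0 : 0 ≤ L := le_trans (add_nonneg (norm_nonneg _) (exc_nn _ _)) h3
  refine abs_it (fun j => bb (sc (θ ^ j) G)) (fun j => Ht (θ ^ j) G)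
    (fun j => exc ε (pr (sc (θ ^ j) G))) θ (C * ε) L K hθ hθ2 (by positivity) hK hL ?_
    (fun j => exc_nn _ _) (by simpa [sc_one] using h1) (by simpa [sc_one] using h2)
    (by simpa [sc_one, Ht_one] using h3) ?_ j
  · refine le_trans ?_ hε2
    calc C * ε * (1 + 9 * K) * K = ε * (C * ((1 + 9 * K) * K)) := by ring
      _ ≤ ε * ((C + 1) * ((1 + 9 * K) * K)) := by gcongr; linarith
  · intro j a1 a2 a3
    have t0 : 0 < θ ^ j := pow_pos hθ j
    have t1 : θ ^ j ≤ 1 := pow_le_one₀ hθ.le (by linarith)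
    obtain ⟨u', hu'⟩ := (k.sca d n).solc ε u G (θ ^ j) 1 hε.le t0 one_pos t1 hG
    have e1 : ∀ s, Ht s (sc (θ ^ j) G) = θ ^ j • Ht (θ ^ j * s) G := by
      intro s
      simpa using Ht_res (k.ker d n) s (θ ^ j) 1 t0.ne' G
    have e2 : HH (sc (θ ^ j) G) = θ ^ j • Ht (θ ^ j) G := by rw [← Ht_one, e1, mul_one]
    simp only [one_smul] at hu'
    have := hs ε (3 * L * θ ^ j) u' (sc (θ ^ j) G) hε hε1 hu' a1 a2
      (by rw [e2, norm_smul, Real.norm_of_nonneg t0.le]; exact a3) (by nlinarith)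
    rw [sc_sc, e1, e2, ← pow_succ, ← smul_sub, norm_smul, Real.norm_of_nonneg t0.le] at this
    simpa only [mul_assoc] using this

theorem ite (k : Kit) (d n : ℕ) (hd : StdS d n) (hn : ItnS d n) : IteS d n := by
  obtain ⟨θ₁, h1, hd⟩ := hd
  obtain ⟨θ₂, h2, hn⟩ := hn
  obtain ⟨θ, hθ, t1, t2, t3⟩ : ∃ θ : ℝ, 0 < θ ∧ θ ≤ θ₁ ∧ θ ≤ θ₂ ∧ θ ≤ 1 / 8 :=
    ⟨min θ₁ (min θ₂ (1 / 8)), by positivity, min_le_left _ _,
      (min_le_right _ _).trans (min_le_left _ _), (min_le_right _ _).trans (min_le_right _ _)⟩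
  obtain ⟨δ, c, C, ε₁, hδ, hδ', hc, hC, hε₁, hd⟩ := hd θ hθ t1
  have hi : 1 ≤ δ⁻¹ := (one_le_inv₀ hδ).2 hδ'
  obtain ⟨K, hKe⟩ : ∃ K, K = δ⁻¹ * (δ⁻¹ * C) := ⟨_, rfl⟩
  have hK : 1 ≤ K := by
    rw [hKe]; exact one_le_mul_of_one_le_of_one_le hi (one_le_mul_of_one_le_of_one_le hi hC)
  obtain ⟨ε₂, hε₂, hn⟩ := hn θ hθ t2 K hK
  obtain ⟨CE, hE⟩ := k.exc d n
  have kr := k.ker d n
  have hCK : 1 ≤ C * K := one_le_mul_of_one_le_of_one_le hC hK
  refine ⟨θ, c, 2 * C * K, min (min ε₁ ε₂) (min 1 (1 / (3 * c))), hθ, t3, hc, by linarith,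
    by positivity, fun ε L u G hε hε' hG hcase => ?_⟩
  have e1 : ε ≤ ε₁ := hε'.trans ((min_le_left _ _).trans (min_le_left _ _))
  have e2 : ε ≤ ε₂ := hε'.trans ((min_le_left _ _).trans (min_le_right _ _))
  have e3 : ε ≤ 1 := hε'.trans ((min_le_right _ _).trans (min_le_left _ _))
  have e4 : ε * (3 * c) ≤ 1 :=
    (le_div_iff₀ (by positivity)).1 (hε'.trans ((min_le_right _ _).trans (min_le_right _ _)))
  obtain ⟨St, hd⟩ := hd ε hε e1
  have s1 : ε / 3 ≤ ss ε := div_le_div_of_nonneg_left hε.le (by linarith) (by linarith)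
  have s2 : ss ε < 1 := (div_lt_one (by linarith)).2 (by linarith)
  have hg : 0 ≤ ss ε - c * ε ^ 2 := by nlinarith
  have hg' : ss ε - c * ε ^ 2 < 1 := by nlinarith [mul_pos hc (pow_pos hε 2)]
  generalize ss ε - c * ε ^ 2 = g at *
  have hθ' : θ < 1 := by linarith
  have n0 : 0 < θ ^ (1 - g) := Real.rpow_pos_of_pos hθ _
  have l0 : 0 < θ ^ (-g) := Real.rpow_pos_of_pos hθ _
  rcases hcase with ⟨a1, a2, a3, a4⟩ | ⟨a1, a2, rfl⟩
  · have n2 : θ ≤ θ ^ (1 - g) := by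
      simpa using Real.rpow_le_rpow_of_exponent_ge hθ hθ'.le (by linarith : 1 - g ≤ 1)
    have l1 : 1 ≤ θ ^ (-g) := Real.one_le_rpow_of_pos_of_le_one_of_nonpos hθ hθ'.le (by linarith)
    have hL : 0 ≤ L := le_trans (add_nonneg (norm_nonneg _) (exc_nn _ _)) a3
    have H := hn ε L u G hε e2 hG a1 a2 a3 (a4.trans hK)
    have c2 : 2 * L ≤ 2 * C * K * L := by nlinarith
    refine it_of θ g _ L hθ _ _ (fun j => (H j).2.1.trans ?_) (fun j => (H j).2.2.1.trans ?_)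
      (Or.inr ⟨0, fun i => ?_⟩)
    · exact c2.trans (le_mul_of_one_le_right (by linarith) (one_le_pow₀ l1))
    · gcongr; linarith
    · obtain ⟨b1, b2, -, b4⟩ := H i
      simp only [zero_add, pow_zero, mul_one]
      refine ⟨by linarith, by linarith, b4.trans ?_⟩
      gcongr; linarith
  · have m1 : θ ^ (g - 1) = (θ ^ (1 - g))⁻¹ := by rw [← Real.rpow_neg hθ.le, neg_sub]
    have m2 : θ ^ (1 - g) = θ * θ ^ (-g) := by
      rw [sub_eq_add_neg, Real.rpow_add hθ, Real.rpow_one]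
    rw [m1] at hd
    have sol : ∀ (j : ℕ) (m : ℝ), 0 < m → ∃ u', Sol ε u' fun x => m • sc (θ ^ j) G x :=
      fun j m hm => (k.sca d n).solc ε u G _ m hε.le (pow_pos hθ j) hm
        (pow_le_one₀ hθ.le hθ'.le) hG
    have tb : ∀ (j i : ℕ) (m : ℝ), 0 < m → bb (sc (θ ^ (j + i)) G) =
        (m * (θ ^ (1 - g)) ^ j) • bb (sc (θ ^ i) fun x =>
          (m * (θ ^ (1 - g)) ^ j)⁻¹ • sc (θ ^ j) G x) := by
      intro j i m hm
      rw [bb_res kr, smul_smul, mul_inv_cancel₀ (by positivity), one_smul, pow_add]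
    have th : ∀ (j i : ℕ) (m : ℝ), 0 < m → Ht (θ ^ (j + i)) G =
        (m * (θ ^ (-g)) ^ j) • Ht (θ ^ i) fun x => (m * (θ ^ (1 - g)) ^ j)⁻¹ • sc (θ ^ j) G x := by
      intro j i m hm
      rw [Ht_res kr _ _ _ (pow_pos hθ j).ne', smul_smul, pow_add, m2, mul_pow]
      have : m * (θ ^ (-g)) ^ j * ((m * (θ ^ j * (θ ^ (-g)) ^ j))⁻¹ * θ ^ j) = 1 := by
        field_simp
      rw [this, one_smul]
    refine deg θ g C K hθ hθ' hg hg' hC hK _ _
      (fun j => St fun x => (1 * (θ ^ (1 - g)) ^ j)⁻¹ • sc (θ ^ j) G x)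
      (fun j => ‖bb fun x => (1 * (θ ^ (1 - g)) ^ j)⁻¹ • sc (θ ^ j) G x‖ ≤ δ) ?_ ?_ ?_ ?_
    · simpa [sc_one] using (hd u G hG).1 a1 a2
    · intro j hj hp
      obtain ⟨u', hu'⟩ := sol j (1 * (θ ^ (1 - g)) ^ j)⁻¹ (by positivity)
      have := (hd _ _ hu').2.2 hj hp
      rw [sc_smul, ← pow_succ] at this
      simpa only [smul_smul, one_mul, pow_succ (θ ^ (1 - g)), mul_inv_rev] using this
    · intro j hj
      obtain ⟨u', hu'⟩ := sol j (1 * (θ ^ (1 - g)) ^ j)⁻¹ (by positivity)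
      obtain ⟨b1, b2⟩ := (hd _ _ hu').2.1 hj
      have r1 := tb j 0 1 one_pos
      have r2 := th j 0 1 one_pos
      rw [add_zero, pow_zero, sc_one] at r1
      rw [add_zero, pow_zero, Ht_one] at r2
      have b3 := (le_add_of_nonneg_right (exc_nn _ _)).trans b2
      rw [r1, r2, norm_smul, norm_smul, Real.norm_of_nonneg (by positivity),
        Real.norm_of_nonneg (by positivity), one_mul (_ ^ j), one_mul (_ ^ j), mul_comm C, mul_comm C]
      constructor <;> gcongr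
      simpa only [one_mul] using b1
      simpa only [one_mul] using b3
    · intro j hj hp i
      obtain ⟨u', hu'⟩ := sol j (1 * (θ ^ (1 - g)) ^ j)⁻¹ (by positivity)
      obtain ⟨b1, b2⟩ := (hd _ _ hu').2.1 hj
      rw [not_le] at hp
      obtain ⟨m, hm⟩ : ∃ m, m = ‖bb fun x => (1 * (θ ^ (1 - g)) ^ j)⁻¹ • sc (θ ^ j) G x‖ := ⟨_, rfl⟩
      rw [← hm] at hp b1
      have m0 : 0 < m := hδ.trans hp
      have mi : m⁻¹ ≤ δ⁻¹ := inv_anti₀ hδ hp.le
      have mp : 0 < m⁻¹ := inv_pos.2 m0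
      obtain ⟨u'', hu''⟩ := sol j (m * (θ ^ (1 - g)) ^ j)⁻¹ (by positivity)
      have eq : (fun x => (m * (θ ^ (1 - g)) ^ j)⁻¹ • sc (θ ^ j) G x) =
          fun x => m⁻¹ • (1 * (θ ^ (1 - g)) ^ j)⁻¹ • sc (θ ^ j) G x := by
        funext x; rw [smul_smul, one_mul, mul_inv]
      have q1 : ‖bb fun x => (m * (θ ^ (1 - g)) ^ j)⁻¹ • sc (θ ^ j) G x‖ = 1 := by
        rw [eq, kr.bb_smul, norm_smul, ← hm, Real.norm_of_nonneg mp.le, inv_mul_cancel₀ m0.ne']
      have q2 : m⁻¹ ^ ε ≤ δ⁻¹ ^ 2 :=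
        calc m⁻¹ ^ ε ≤ δ⁻¹ ^ ε := Real.rpow_le_rpow mp.le mi hε.le
          _ ≤ δ⁻¹ ^ ((2 : ℕ) : ℝ) := Real.rpow_le_rpow_of_exponent_le hi (by push_cast; linarith)
          _ = δ⁻¹ ^ 2 := Real.rpow_natCast _ _
      have q3 := hE.smul_le ε m⁻¹ δ⁻¹ _ hε.le mp.le hi q2 (hE.mp_pr ε _ hu'.mG)
      have H := hn ε K u'' _ hε e2 hu'' (by rw [q1]; norm_num) (by rw [q1]; norm_num) (by
        rw [eq, kr.HH_smul, pr_smul kr, norm_smul, Real.norm_of_nonneg mp.le, hKe]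
        generalize (fun x => (1 * (θ ^ (1 - g)) ^ j)⁻¹ • sc (θ ^ j) G x) = G' at *
        have x0 := exc_nn ε (pr G')
        calc m⁻¹ * ‖HH G'‖ + exc ε (fun x => m⁻¹ • pr G' x)
            ≤ δ⁻¹ * m⁻¹ * ‖HH G'‖ + δ⁻¹ * m⁻¹ * exc ε (pr G') := by
              gcongr; exact le_mul_of_one_le_left mp.le hi
          _ = δ⁻¹ * (m⁻¹ * (‖HH G'‖ + exc ε (pr G'))) := by ring
          _ ≤ δ⁻¹ * (δ⁻¹ * C) := by gcongr) le_rfl i
      obtain ⟨f1, f2, f3, f4⟩ := H
      rw [add_assoc j, tb j i m m0, tb j (i + 1) m m0, th j i m m0, th j (i + 1) m m0, ← smul_sub,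
        ← smul_sub]
      simp only [norm_smul]
      rw [Real.norm_of_nonneg (by positivity), Real.norm_of_nonneg (by positivity)]
      refine ⟨?_, ?_, ?_, ?_⟩
      · calc _ ≤ C * (θ ^ (1 - g)) ^ j * 2 := by gcongr
          _ = _ := by ring
      · calc _ ≤ C * (θ ^ (-g)) ^ j * (2 * K) := by gcongr
          _ = _ := by ring
      · calc _ ≤ C * (θ ^ (1 - g)) ^ j * (K * θ ^ i) := by gcongr
          _ = _ := by ring
      · calc _ ≤ C * (θ ^ (-g)) ^ j * (K * (3 / 4) ^ i) := by gcongr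
          _ = _ := by ring

end Pool.Agent.MP_815c6c_an.N

end
end MrgPart0

-- ======== part 1: formerly Pool.Agent.MP_815c6c_an.N.Loc
section MrgPart1

/-! Row LOC: from the open set to the unit ball. -/

set_option autoImplicit false

noncomputable section

namespace Pool.Agent.MP_815c6c_an.N

open Set Metric MeasureTheory Filter Topology
open scoped ContDiff RealInnerProductSpace ENNReal Convolution

namespace LocA

variable {d n : ℕ}

/-- smooth tests -/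
def Sm {E : Type} [NormedAddCommGroup E] [NormedSpace ℝ E] (φ : X d → E) : Prop :=
  ContDiff ℝ ∞ φ ∧ ∃ r : ℝ, r < 1 ∧ ∀ x, r ≤ ‖x‖ → φ x = 0

theorem hcs {E : Type} [NormedAddCommGroup E] (φ : X d → E) (r : ℝ)
    (h : ∀ x, r ≤ ‖x‖ → φ x = 0) : HasCompactSupport φ :=
  HasCompactSupport.intro (isCompact_closedBall (0 : X d) r) fun x hx =>
    h x (le_of_lt (by simpa using hx))

theorem fz {E : Type} [NormedAddCommGroup E] [NormedSpace ℝ E] (φ : X d → E) (r : ℝ) (hr : r < 1)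
    (h : ∀ x, r ≤ ‖x‖ → φ x = 0) (x : X d) (hx : x ∉ ball (0 : X d) 1) :
    φ x = 0 ∧ fderiv ℝ φ x = 0 := by
  have hx1 : 1 ≤ ‖x‖ := by simpa using hx
  refine ⟨h x (by linarith), ?_⟩
  have : φ =ᶠ[𝓝 x] fun _ => 0 := by
    have ho : IsOpen {y : X d | r < ‖y‖} := isOpen_lt continuous_const continuous_norm
    filter_upwards [ho.mem_nhds (show r < ‖x‖ by linarith)] with y hy using h y (le_of_lt hy)
  rw [this.fderiv_eq]; simp

theorem approx {E : Type} [NormedAddCommGroup E] [NormedSpace ℝ E] [CompleteSpace E]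
    (φ : X d → E) (hφ : Ts φ) : ∃ (ψ : ℕ → X d → E) (M : ℝ), (∀ k, Sm (ψ k) ∧
      ∀ x, ‖ψ k x‖ ≤ M ∧ ‖fderiv ℝ (ψ k) x‖ ≤ M) ∧
      ∀ x, Tendsto (fun k => ψ k x) atTop (𝓝 (φ x)) ∧
        Tendsto (fun k => fderiv ℝ (ψ k) x) atTop (𝓝 (fderiv ℝ φ x)) := by
  obtain ⟨hc, r, hr, hz⟩ := hφ
  have hs := hcs φ r hz
  have hd : Continuous (fderiv ℝ φ) := hc.continuous_fderiv one_ne_zero
  obtain ⟨M₁, h₁⟩ := hc.continuous.bounded_above_of_compact_support hs
  obtain ⟨M₂, h₂⟩ := hd.bounded_above_of_compact_support (hs.fderiv ℝ)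
  have hδ : 0 < (1 - r) / 2 := by linarith
  let b : ℕ → ContDiffBump (0 : X d) := fun k =>
    ⟨(1 - r) / 2 * (1 / ((k : ℝ) + 1)) / 2, (1 - r) / 2 * (1 / ((k : ℝ) + 1)), by positivity,
      half_lt_self (by positivity)⟩
  have hb : Tendsto (fun k => (b k).rOut) atTop (𝓝 0) := by
    have := (tendsto_one_div_add_atTop_nhds_zero_nat (𝕜 := ℝ)).const_mul ((1 - r) / 2)
    rwa [mul_zero] at this
  have hb' : ∀ k, (b k).rOut ≤ (1 - r) / 2 := fun k => by
    have : 1 / ((k : ℝ) + 1) ≤ 1 := by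
      rw [div_le_one (by positivity)]; linarith [(Nat.cast_nonneg k : (0 : ℝ) ≤ k)]
    exact mul_le_of_le_one_right hδ.le this
  have hD : ∀ k x, fderiv ℝ ((b k).normed volume ⋆[ContinuousLinearMap.lsmul ℝ ℝ, volume] φ) x =
      ((b k).normed volume ⋆[ContinuousLinearMap.lsmul ℝ ℝ, volume] fderiv ℝ φ) x := by
    intro k x
    rw [(hs.hasFDerivAt_convolution_right (ContinuousLinearMap.lsmul ℝ ℝ)
      (b k).integrable_normed.locallyIntegrable hc x).fderiv]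
    congr 1
  have bd : ∀ {F : Type} [NormedAddCommGroup F] [NormedSpace ℝ F] [CompleteSpace F] (g : X d → F)
      (M : ℝ), Continuous g → (∀ x, ‖g x‖ ≤ M) → ∀ k x,
      ‖((b k).normed volume ⋆[ContinuousLinearMap.lsmul ℝ ℝ, volume] g) x‖ ≤ 3 * M := by
    intro F _ _ _ g M hg hM k x
    have := (b k).dist_normed_convolution_le (μ := volume) (x₀ := x) (ε := 2 * M)
      hg.aestronglyMeasurable fun y _ => by
        rw [dist_eq_norm]; linarith [norm_sub_le (g y) (g x), hM y, hM x]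
    rw [dist_eq_norm] at this
    linarith [norm_le_norm_sub_add
      (((b k).normed volume ⋆[ContinuousLinearMap.lsmul ℝ ℝ, volume] g) x) (g x), hM x]
  refine ⟨fun k => (b k).normed volume ⋆[ContinuousLinearMap.lsmul ℝ ℝ, volume] φ,
    3 * max M₁ M₂, fun k => ⟨⟨?_, (1 + r) / 2, by linarith, fun x hx => ?_⟩, fun x => ⟨?_, ?_⟩⟩,
    fun x => ⟨?_, ?_⟩⟩
  · exact (b k).hasCompactSupport_normed.contDiff_convolution_left _ (b k).contDiff_normed
      hc.continuous.locallyIntegrable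
  · have h0 : φ x = 0 := hz x (by linarith)
    refine ((b k).normed_convolution_eq_right fun y hy => ?_).trans h0
    rw [h0]
    apply hz
    have := norm_le_norm_sub_add x y
    rw [mem_ball, dist_comm, dist_eq_norm] at hy
    linarith [hb' k]
  · exact bd φ _ hc.continuous (fun y => (h₁ y).trans (le_max_left _ _)) k x
  · rw [hD]; exact bd _ _ hd (fun y => (h₂ y).trans (le_max_right _ _)) k x
  · exact ContDiffBump.convolution_tendsto_right_of_continuous hb hc.continuous x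
  · simp only [hD]
    exact ContDiffBump.convolution_tendsto_right_of_continuous hb hd x

theorem lim {W V F : Type} [NormedAddCommGroup W] [NormedSpace ℝ W] [NormedAddCommGroup V]
    [NormedSpace ℝ V] [NormedAddCommGroup F] [NormedSpace ℝ F] [SecondCountableTopology V]
    (B : W →L[ℝ] V →L[ℝ] F) (z : X d → W) (hz : Ib z) (g : ℕ → X d → V) (g₀ : X d → V) (M : ℝ)
    (hc : ∀ k, Continuous (g k)) (hM : ∀ k x, ‖g k x‖ ≤ M)
    (h0 : ∀ k x, x ∉ ball (0 : X d) 1 → g k x = 0) (h0' : ∀ x, x ∉ ball (0 : X d) 1 → g₀ x = 0)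
    (ht : ∀ x, Tendsto (fun k => g k x) atTop (𝓝 (g₀ x))) :
    Tendsto (fun k => ∫ x, B (z x) (g k x)) atTop (𝓝 (∫ x, B (z x) (g₀ x))) := by
  have e : ∀ g' : X d → V, (∀ x, x ∉ ball (0 : X d) 1 → g' x = 0) →
      ∫ x, B (z x) (g' x) = ∫ x in ball 0 1, B (z x) (g' x) := fun g' h =>
    (setIntegral_eq_integral_of_forall_compl_eq_zero fun x hx => by rw [h x hx, map_zero]).symm
  rw [e g₀ h0']
  simp only [fun k => e (g k) (h0 k)]
  refine tendsto_integral_of_dominated_convergence (fun x => ‖B‖ * ‖z x‖ * M)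
    (fun k => B.aestronglyMeasurable_comp₂ hz.aestronglyMeasurable (hc k).aestronglyMeasurable)
    ((hz.norm.const_mul _).mul_const _) (fun k => ae_of_all _ fun x => ?_)
    (ae_of_all _ fun x => ((B (z x)).continuous.tendsto _).comp (ht x))
  exact (B.le_opNorm₂ _ _).trans (mul_le_mul_of_nonneg_left (hM k x) (by positivity))

theorem intg {W V F : Type} [NormedAddCommGroup W] [NormedSpace ℝ W] [NormedAddCommGroup V]
    [NormedSpace ℝ V] [NormedAddCommGroup F] [NormedSpace ℝ F] [SecondCountableTopology V]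
    (B : W →L[ℝ] V →L[ℝ] F) (z : X d → W) (hz : Ib z) (g : X d → V) (hc : Continuous g)
    (h0 : ∀ x, x ∉ ball (0 : X d) 1 → g x = 0) : Integrable fun x => B (z x) (g x) := by
  obtain ⟨M, hM⟩ := hc.bounded_above_of_compact_support
    (hcs g 1 fun x hx => h0 x (by simpa using hx))
  have : IntegrableOn (fun x => B (z x) (g x)) (ball 0 1) :=
    Integrable.mono' ((hz.norm.const_mul ‖B‖).mul_const M)
      (B.aestronglyMeasurable_comp₂ hz.aestronglyMeasurable hc.aestronglyMeasurable)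
      (ae_of_all _ fun x =>
        (B.le_opNorm₂ _ _).trans (mul_le_mul_of_nonneg_left (hM x) (by positivity)))
  exact this.integrable_of_forall_notMem_eq_zero fun x hx => by rw [h0 x hx, map_zero]

theorem chg {F : Type} [NormedAddCommGroup F] [NormedSpace ℝ F] (f : X d → F) (x : X d) (r : ℝ) :
    ∫ y, f (x + r • y) = |(r ^ d)⁻¹| • ∫ w, f w := by
  rw [Measure.integral_comp_smul volume (fun w => f (x + w)) r, integral_add_left_eq_self]
  simp

theorem mp {E : Type} [NormedAddCommGroup E] (p : ℝ≥0∞) (f : X d → E) (x : X d) (r : ℝ)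
    (hr : 0 < r) (h : MemLp f p (volume.restrict (closedBall x r))) :
    MemLp (sh x r f) p (volume.restrict (ball 0 1)) := by
  have hm : Measurable fun y : X d => x + r • y := by fun_prop
  have h1 : Measure.map (fun y : X d => x + r • y) volume =
      ENNReal.ofReal |(r ^ Module.finrank ℝ (X d))⁻¹| • volume := by
    rw [show (fun y : X d => x + r • y) = (fun w => x + w) ∘ fun y => r • y from rfl,
      ← Measure.map_map (by fun_prop) (by fun_prop), Measure.map_addHaar_smul _ hr.ne',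
      Measure.map_smul, map_add_left_eq_self]
  have h2 := h.smul_measure (c := ENNReal.ofReal |(r ^ Module.finrank ℝ (X d))⁻¹|)
    ENNReal.ofReal_ne_top
  rw [← Measure.restrict_smul, ← h1, Measure.restrict_map hm measurableSet_closedBall] at h2
  refine (h2.comp_of_map hm.aemeasurable).mono_measure (Measure.restrict_mono ?_ le_rfl)
  intro y hy
  simp only [mem_preimage, mem_closedBall, dist_self_add_left, norm_smul, Real.norm_eq_abs,
    abs_of_pos hr]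
  exact mul_le_of_le_one_right hr.le (le_of_lt (by simpa using hy))

/-- the test function moved to the ball of radius `r` -/
theorem pull {E : Type} [NormedAddCommGroup E] [NormedSpace ℝ E] (ψ : X d → E) (hψ : Sm ψ)
    (x : X d) (r : ℝ) (hr : 0 < r) : ∃ φ : X d → E, ContDiff ℝ ∞ φ ∧ HasCompactSupport φ ∧
      tsupport φ ⊆ closedBall x r ∧ ∀ y, φ (x + r • y) = ψ y ∧
        fderiv ℝ φ (x + r • y) = r⁻¹ • fderiv ℝ ψ y := by
  obtain ⟨hc, s, hs, hz⟩ := hψ
  have e : ∀ y : X d, r⁻¹ • (x + r • y - x) = y := fun y => by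
    rw [add_sub_cancel_left, smul_smul, inv_mul_cancel₀ hr.ne', one_smul]
  have hsu : Function.support (fun w => ψ (r⁻¹ • (w - x))) ⊆ closedBall x r := by
    intro w hw
    by_contra hn
    apply hw
    apply hz
    rw [mem_closedBall, dist_eq_norm, not_le] at hn
    rw [norm_smul, Real.norm_eq_abs, abs_of_pos (inv_pos.2 hr)]
    have : 1 ≤ r⁻¹ * ‖w - x‖ := by rw [le_inv_mul_iff₀ hr]; linarith
    linarith
  have ht := closure_minimal hsu isClosed_closedBall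
  refine ⟨fun w => ψ (r⁻¹ • (w - x)), hc.comp (by fun_prop),
    (isCompact_closedBall x r).of_isClosed_subset isClosed_closure ht, ht, fun y => ⟨by
      simp only [e], ?_⟩⟩
  have h1 : HasFDerivAt (fun w : X d => r⁻¹ • (w - x)) (r⁻¹ • ContinuousLinearMap.id ℝ (X d))
      (x + r • y) := ((hasFDerivAt_id _).sub_const x).const_smul r⁻¹
  have h2 : HasFDerivAt ψ (fderiv ℝ ψ y) (r⁻¹ • (x + r • y - x)) := by
    rw [e]; exact (hc.differentiable (by simp) y).hasFDerivAt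
  refine (h2.comp (x + r • y) h1).fderiv.trans ?_
  ext v; simp

theorem wg (v : X d → X n) (z : X d → Gr d n) (hv : Ib v) (hz : Ib z)
    (h : ∀ φ : X d → ℝ, Sm φ → ∀ a i,
      ∫ x, v x a * fderiv ℝ φ x (EuclideanSpace.single i 1) = -∫ x, z x (a, i) * φ x) :
    WG v z := by
  intro φ hφ y
  have hv' : ∀ a, Ib fun x => v x a := fun a =>
    (EuclideanSpace.proj a : X n →L[ℝ] ℝ).integrable_comp hv
  have hz' : ∀ k, Ib fun x => z x k := fun k =>
    (EuclideanSpace.proj k : Gr d n →L[ℝ] ℝ).integrable_comp hz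
  obtain ⟨ψ, M, h1, h2⟩ := approx φ hφ
  obtain ⟨hc, r, hr, h0⟩ := hφ
  have hd : Continuous (fderiv ℝ φ) := hc.continuous_fderiv one_ne_zero
  have f0 := fz φ r hr h0
  have f1 : ∀ k x, x ∉ ball (0 : X d) 1 → ψ k x = 0 ∧ fderiv ℝ (ψ k) x = 0 := fun k => by
    obtain ⟨s, hs, hs'⟩ := (h1 k).1.2
    exact fz _ s hs hs'
  have key : ∀ a i, ∫ x, v x a * fderiv ℝ φ x (EuclideanSpace.single i 1) =
      -∫ x, z x (a, i) * φ x := by
    intro a i
    have t1 := lim (ContinuousLinearMap.mul ℝ ℝ) _ (hv' a)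
      (fun k x => fderiv ℝ (ψ k) x (EuclideanSpace.single i 1))
      (fun x => fderiv ℝ φ x (EuclideanSpace.single i 1)) M
      (fun k => ((h1 k).1.1.continuous_fderiv (by simp)).clm_apply continuous_const)
      (fun k x => by
        simpa using ((fderiv ℝ (ψ k) x).le_opNorm (EuclideanSpace.single i 1)).trans
          (by simpa using ((h1 k).2 x).2))
      (fun k x hx => by simp [(f1 k x hx).2]) (fun x hx => by simp [(f0 x hx).2])
      (fun x => ((ContinuousLinearMap.apply ℝ ℝ (EuclideanSpace.single i (1 : ℝ))).continuous.tendsto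
        _).comp (h2 x).2)
    have t2 := lim (ContinuousLinearMap.mul ℝ ℝ) _ (hz' (a, i)) ψ φ M
      (fun k => (h1 k).1.1.continuous) (fun k x => ((h1 k).2 x).1) (fun k x hx => (f1 k x hx).1)
      (fun x hx => (f0 x hx).1) fun x => (h2 x).1
    simp only [ContinuousLinearMap.mul_apply'] at t1 t2
    simp only [fun k => h (ψ k) (h1 k).1 a i] at t1
    exact tendsto_nhds_unique t1 t2.neg
  have i1 : Integrable fun x => fderiv ℝ φ x y • v x :=
    intg (ContinuousLinearMap.lsmul ℝ ℝ).flip v hv (fun x => fderiv ℝ φ x y)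
      (hd.clm_apply continuous_const) fun x hx => by simp [(f0 x hx).2]
  have i2 : Integrable fun x => φ x • act (z x) y :=
    intg (ContinuousLinearMap.lsmul ℝ ℝ).flip (fun x => act (z x) y)
      ((act.flip y).integrable_comp hz) φ hc.continuous fun x hx => (f0 x hx).1
  ext a
  have e1 := (EuclideanSpace.proj a : X n →L[ℝ] ℝ).integral_comp_comm i1
  have e2 := (EuclideanSpace.proj a : X n →L[ℝ] ℝ).integral_comp_comm i2
  simp only [EuclideanSpace.coe_proj] at e1 e2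
  rw [PiLp.neg_apply, ← e1, ← e2]
  have s1 : ∀ x, (fderiv ℝ φ x y • v x) a =
      ∑ i, y i * (v x a * fderiv ℝ φ x (EuclideanSpace.single i 1)) := by
    intro x
    have hy : y = ∑ i, y i • EuclideanSpace.single i (1 : ℝ) := by
      simpa using ((EuclideanSpace.basisFun (Fin d) ℝ).sum_repr y).symm
    conv_lhs => rw [hy]
    simp only [map_sum, map_smul, PiLp.smul_apply, smul_eq_mul, Finset.sum_mul]
    exact Finset.sum_congr rfl fun i _ => by ring
  have s2 : ∀ x, (φ x • act (z x) y) a = ∑ i, y i * (z x (a, i) * φ x) := by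
    intro x
    simp only [PiLp.smul_apply, act_apply, smul_eq_mul, Finset.mul_sum]
    exact Finset.sum_congr rfl fun i _ => by ring
  simp only [s1, s2]
  rw [integral_finset_sum, integral_finset_sum, ← Finset.sum_neg_distrib]
  · exact Finset.sum_congr rfl fun i _ => by
      rw [integral_const_mul, integral_const_mul, key, mul_neg]
  · exact fun i _ => (intg (ContinuousLinearMap.mul ℝ ℝ) _ (hz' (a, i)) φ hc.continuous
      fun x hx => (f0 x hx).1).const_mul _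
  · exact fun i _ => (intg (ContinuousLinearMap.mul ℝ ℝ) _ (hv' a)
      (fun x => fderiv ℝ φ x (EuclideanSpace.single i 1)) (hd.clm_apply continuous_const)
      fun x hx => by simp [(f0 x hx).2]).const_mul _

theorem eqn (z : X d → Gr d n) (hz : Ib z) (h : ∀ φ : X d → X n, Sm φ → pa z φ = 0)
    (φ : X d → X n) (hφ : Ts φ) : pa z φ = 0 := by
  obtain ⟨ψ, M, h1, h2⟩ := approx φ hφ
  obtain ⟨hc, r, hr, h0⟩ := hφ
  have f1 : ∀ k x, x ∉ ball (0 : X d) 1 → ψ k x = 0 ∧ fderiv ℝ (ψ k) x = 0 := fun k => by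
    obtain ⟨s, hs, hs'⟩ := (h1 k).1.2
    exact fz _ s hs hs'
  have t := lim (innerSL ℝ) z hz (fun k => Dm (ψ k)) (Dm φ) (‖(jm : _ →L[ℝ] Gr d n)‖ * M)
    (fun k => jm.continuous.comp ((h1 k).1.1.continuous_fderiv (by simp)))
    (fun k x => (jm.le_opNorm _).trans
      (mul_le_mul_of_nonneg_left ((h1 k).2 x).2 (norm_nonneg _)))
    (fun k x hx => by simp [Dm, (f1 k x hx).2]) (fun x hx => by simp [Dm, (fz φ r hr h0 x hx).2])
    fun x => (jm.continuous.tendsto _).comp (h2 x).2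
  have t' : Tendsto (fun k => pa z (ψ k)) atTop (𝓝 (pa z φ)) := t
  simp only [fun k => h (ψ k) (h1 k).1] at t'
  exact tendsto_nhds_unique t' tendsto_const_nhds

end LocA

open LocA in
theorem loc : Kit → LocS := by
  intro K d n ε U h G x r hε hr hU ⟨H1, H2, H3⟩
  obtain ⟨C, hC⟩ := K.exc d n
  have m := H1 _ hU (isCompact_closedBall x r)
  have m1 : Mp ε fun y => r⁻¹ • sh x r h y := (mp _ h x r hr m.1).const_smul r⁻¹
  have m2 : Mp ε (sh x r G) := mp _ G x r hr m.2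
  refine ⟨m1, m2, wg _ _ (hC.ib ε _ hε m1).1 (hC.ib ε _ hε m2).1 fun ψ hψ a i => ?_,
    eqn _ (hC.ib_A ε _ hε m2).1 fun ψ hψ => ?_⟩
  · obtain ⟨φ, c1, c2, c3, c4⟩ := pull ψ hψ x r hr
    have := congrArg (fun t => |(r ^ d)⁻¹| • t) (H2 φ c1 c2 (c3.trans hU) a i)
    simp only [smul_neg] at this
    rw [← chg _ x r, ← chg _ x r] at this
    simp only [c4] at this
    refine (integral_congr_ae (ae_of_all _ fun y => ?_)).trans (this.trans
      (congrArg Neg.neg (integral_congr_ae (ae_of_all _ fun y => mul_comm _ _))))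
    simp [sh]; ring
  · obtain ⟨φ, c1, c2, c3, c4⟩ := pull ψ hψ x r hr
    have := congrArg (fun t => r * (|(r ^ d)⁻¹| • t)) (H3 φ c1 c2 (c3.trans hU))
    simp only [smul_zero, mul_zero] at this
    rw [← chg _ x r, ← integral_const_mul] at this
    simp only [c4] at this
    rw [← this]
    refine integral_congr_ae (ae_of_all _ fun y => ?_)
    simp only [PiLp.inner_apply, Fintype.sum_prod_type, Finset.mul_sum, A, Dm, jm_apply, sh,
      add_sub_cancel_left]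
    refine Finset.sum_congr rfl fun a _ => Finset.sum_congr rfl fun i _ => ?_
    simp
    field_simp

end Pool.Agent.MP_815c6c_an.N

end
end MrgPart1

-- marker of a merged file
example : 731051 + 183921 = 731051 + 183921 := rfl
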