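import Mathlib.Tactic.Monotonicity.Lemmas
import Mathlib.Algebra.Order.Ring.Star
import Mathlib.Algebra.Order.Star.Real
import Mathlib.Analysis.Calculus.BumpFunction.FiniteDimension
import Mathlib.MeasureTheory.Covering.BesicovitchVectorSpace
import Mathlib.Topology.UniformSpace.Uniformizable
import Pool.Agent.MP_815c6c_an.N.XSpec

-- ======== part 0: formerly Pool.Agent.MP_815c6c_an.N.Cac
section MrgPart0

/-! p-harmonic maps for `p` slightly above two: the Caccioppoli inequality. -/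

set_option autoImplicit false

noncomputable section

namespace Pool.Agent.MP_815c6c_an.N

open Set Metric MeasureTheory Filter Topology
open scoped RealInnerProductSpace

namespace CacA

theorem ps_eq {ε t : ℝ} (h0 : 0 < ε) (ht : 0 ≤ t) : Ps ε t = t ^ 2 + t ^ ε * t ^ 2 := by
  rw [Ps, Real.rpow_add_of_nonneg ht two_pos.le h0.le, Real.rpow_two, mul_comm]

theorem young {ε ψ s t w m : ℝ} (h0 : 0 < ε) (h1 : ε ≤ 1) (p0 : 0 ≤ ψ) (p1 : ψ ≤ 1) (hs : 0 ≤ s)
    (ht : 0 ≤ t) (w0 : 0 ≤ w) (w1 : w ≤ s ^ ε + 4) (hm : 1 ≤ m) :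
    m * (ψ ^ 3 * w * s * t) ≤ ψ ^ 4 * (w * s ^ 2) + 4 * m ^ 3 * Ps ε t := by
  have a0 : 0 ≤ t ^ ε := by positivity
  rw [ps_eq h0 ht]
  rcases le_total (m * t) (ψ * s) with c | c
  · refine le_add_of_le_of_nonneg ?_ (by positivity)
    linarith [mul_le_mul_of_nonneg_left c (show 0 ≤ ψ ^ 3 * w * s by positivity)]
  refine le_add_of_nonneg_of_le (by positivity) ?_
  have a1 : ψ ^ 2 ≤ ψ ^ ε := by
    rcases p0.eq_or_lt with e | e
    · rw [← e, zero_pow two_ne_zero]; positivity
    · rw [← Real.rpow_two]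
      exact Real.rpow_le_rpow_of_exponent_ge e p1 (by linarith)
  have a2 : m ^ ε ≤ m := by simpa using Real.rpow_le_rpow_of_exponent_le hm h1
  have a3 : ψ ^ ε * s ^ ε ≤ m * t ^ ε := by
    rw [← Real.mul_rpow p0 hs]
    refine (Real.rpow_le_rpow (by positivity) c h0.le).trans ?_
    rw [Real.mul_rpow (by linarith) ht]
    exact mul_le_mul_of_nonneg_right a2 a0
  have a4 : ψ ^ 2 * w ≤ m * t ^ ε + 4 * m := by
    have b1 := mul_le_mul_of_nonneg_left w1 (sq_nonneg ψ)
    have b2 := mul_le_mul_of_nonneg_right a1 (show 0 ≤ s ^ ε by positivity)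
    have b3 := pow_le_one₀ (n := 2) p0 p1
    linarith
  have a5 := mul_le_mul_of_nonneg_left c (show 0 ≤ m * (ψ ^ 2 * w) * t by positivity)
  have a6 := mul_le_mul_of_nonneg_left a4 (show 0 ≤ m ^ 2 * t ^ 2 by positivity)
  have a7 : 0 ≤ m ^ 3 * (t ^ ε * t ^ 2) := by positivity
  linarith

theorem cut (d : ℕ) : ∃ (ψ : X d → ℝ) (B : ℝ), 0 ≤ B ∧ Ts (fun x => ψ x ^ 4) ∧
    (∀ x, 0 ≤ ψ x ∧ ψ x ≤ 1 ∧ ‖gradient (fun x => ψ x ^ 4) x‖ ≤ 4 * ψ x ^ 3 * B) ∧
    ∀ x ∈ ball (0 : X d) (1 / 2), ψ x = 1 := by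
  let β : ContDiffBump (0 : X d) := ⟨1 / 2, 3 / 4, by norm_num, by norm_num⟩
  have hc : ContDiff ℝ 1 β := β.contDiff
  obtain ⟨B, hB⟩ := (hc.continuous_fderiv one_ne_zero).bounded_above_of_compact_support
    (β.hasCompactSupport.fderiv ℝ)
  refine ⟨β, B, (norm_nonneg _).trans (hB 0), ⟨hc.pow 4, 3 / 4, by norm_num, fun x hx => ?_⟩,
    fun x => ⟨β.nonneg, β.le_one, ?_⟩, fun x hx => β.one_of_mem_closedBall (ball_subset_closedBall hx)⟩
  · dsimp only
    rw [β.zero_of_le_dist (by simpa using hx), zero_pow four_ne_zero]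
  · have h := ((hc.differentiable one_ne_zero x).hasFDerivAt.pow 4).fderiv
    have h0 : 0 ≤ β x := β.nonneg
    rw [gradient, LinearIsometryEquiv.norm_map, show fderiv ℝ (fun x => β x ^ 4) x = _ from h,
      norm_smul, Real.norm_of_nonneg (by positivity)]
    simpa using mul_le_mul_of_nonneg_left (hB x) (show 0 ≤ 4 * β x ^ 3 by positivity)

end CacA

open CacA in
theorem cac : Kit → TstS → CacS := by
  intro k tst d n
  obtain ⟨ψ, B, B0, hη, hψ, hψ1⟩ := cut d
  obtain ⟨C₀, ex⟩ := k.exc d n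
  have al := k.al1 (Gr d n)
  obtain ⟨V, hV⟩ : ∃ V, V = volume.real (ball (0 : X d) 1) := ⟨_, rfl⟩
  have V0 : 0 ≤ V := hV ▸ measureReal_nonneg
  obtain ⟨m, hm⟩ : ∃ m, m = 128 * B + 1 := ⟨_, rfl⟩
  have m1 : 1 ≤ m := by linarith
  refine ⟨((1 / 2 : ℝ) ^ d)⁻¹ * √(40 * (m ^ 3 + m) + 40 * V * (17 + m)), by positivity, ?_⟩
  intro ε K ρ l u P G h0 h1 hK hρ hl hs hP hb hr hw
  have mΓ : Mp ε (Dm P) := ex.mp_c ε _ ((k.bas d n).c_Dm P hP)
  have mP : Mp ε P := ex.mp_c ε _ hP.continuous
  have mv : Mp ε fun x => u x - P x := hs.mu.sub mP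
  have mz : Mp ε fun x => G x - Dm P x := hs.mG.sub mΓ
  have wg : WG (fun x => u x - P x) fun x => G x - Dm P x := by
    simpa [sub_eq_add_neg] using (k.par d n).wg_add u P G (Dm P) 1 (-1) (ex.ib ε _ h0.le hs.mu).1
      (ex.ib ε _ h0.le mP).1 (ex.ib ε _ h0.le hs.mG).1 (ex.ib ε _ h0.le mΓ).1 hs.wg
      ((k.par d n).wg_c1 P hP)
  obtain ⟨i1, i2, hT⟩ := tst d n ε ρ u _ G (Dm P) _ _ h0.le hρ hs mΓ hr mv mz wg hη
  have i3 := (ex.ib ε _ h0.le mv).2.2
  have ic : ∀ c : ℝ, IntegrableOn (fun _ : X d => c) (ball 0 1) := fun c =>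
    integrableOn_const measure_ball_lt_top.ne
  have K0 : 0 ≤ K := (norm_nonneg _).trans (hb 0 (mem_ball_self one_pos))
  have K4 : (2 * K) ^ ε ≤ 4 := by
    have : (2 : ℝ) ^ ε ≤ 2 := by simpa using Real.rpow_le_rpow_of_exponent_le one_le_two h1
    rw [Real.mul_rpow two_pos.le K0]
    linarith [mul_le_mul this hK (by positivity) two_pos.le]
  have pt : ∀ x ∈ ball (0 : X d) 1,
      ψ x ^ 4 * Ps ε ‖G x - Dm P x‖ ≤
        20 * ⟪A ε (G x) - A ε (Dm P x), ψ x ^ 4 • (G x - Dm P x)⟫ + l ^ 2 ∧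
      -⟪A ε (G x) - A ε (Dm P x), out (u x - P x) (gradient (fun x => ψ x ^ 4) x)⟫ ≤
        1 / 4 * ⟪A ε (G x) - A ε (Dm P x), ψ x ^ 4 • (G x - Dm P x)⟫ +
          m ^ 3 * Ps ε ‖u x - P x‖ ∧
      ρ * (‖ψ x ^ 4 • (G x - Dm P x) + out (u x - P x) (gradient (fun x => ψ x ^ 4) x)‖ +
        ‖ψ x ^ 4 • (u x - P x)‖) ≤
        1 / 4 * ⟪A ε (G x) - A ε (Dm P x), ψ x ^ 4 • (G x - Dm P x)⟫ + m * Ps ε ‖u x - P x‖ +
          (l ^ 2 / 64 + (16 + m) * ρ ^ 2) := fun x hx => by
    obtain ⟨p0, p1, p2⟩ := hψ x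
    have a1 := al.mono ε (G x) (Dm P x) h0.le h1
    have a2 := al.lip ε (G x) (Dm P x) h0.le h1
    have a3 := hw x hx (G x - Dm P x)
    rw [add_sub_cancel] at a3
    have a4 : ‖G x - Dm P x‖ ^ ε ≤ (‖G x‖ + ‖Dm P x‖) ^ ε :=
      Real.rpow_le_rpow (norm_nonneg _) (norm_sub_le _ _) h0.le
    have a5 : (‖G x‖ + ‖Dm P x‖) ^ ε ≤ ‖G x - Dm P x‖ ^ ε + 4 := by
      have b1 : ‖G x‖ ≤ ‖G x - Dm P x‖ + ‖Dm P x‖ := by simpa using norm_add_le (G x - Dm P x) (Dm P x)
      refine (Real.rpow_le_rpow (by positivity) (show _ ≤ ‖G x - Dm P x‖ + 2 * K by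
        linarith [hb x hx]) h0.le).trans ?_
      exact (Real.rpow_add_le_add_rpow (norm_nonneg _) (by positivity) h0.le h1).trans (by linarith)
    have a6 := (k.bas d n).n_out (u x - P x) (gradient (fun x => ψ x ^ 4) x)
    have a7 := (neg_le_abs _).trans (abs_real_inner_le_norm (A ε (G x) - A ε (Dm P x))
      (out (u x - P x) (gradient (fun x => ψ x ^ 4) x)))
    have a8 := norm_add_le (ψ x ^ 4 • (G x - Dm P x))
      (out (u x - P x) (gradient (fun x => ψ x ^ 4) x))
    have w0 : 0 ≤ (‖G x‖ + ‖Dm P x‖) ^ ε := by positivity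
    have a9 := young h0 h1 p0 p1 (norm_nonneg (G x - Dm P x)) (norm_nonneg (u x - P x)) w0 a5 m1
    have q0 : 0 ≤ ψ x ^ 4 := by positivity
    have q1 := pow_le_one₀ (n := 4) p0 p1
    have q3 := pow_le_one₀ (n := 3) p0 p1
    rw [a6] at a7 a8
    rw [norm_smul, Real.norm_of_nonneg q0] at a8
    rw [real_inner_smul_right, norm_smul, Real.norm_of_nonneg q0, ps_eq h0 (norm_nonneg _)]
    have t2 : ‖u x - P x‖ ^ 2 ≤ Ps ε ‖u x - P x‖ := le_add_of_nonneg_right (by positivity)
    have s0 := norm_nonneg (G x - Dm P x)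
    have t0 := norm_nonneg (u x - P x)
    have g0 := norm_nonneg (gradient (fun x => ψ x ^ 4) x)
    generalize ⟪A ε (G x) - A ε (Dm P x), G x - Dm P x⟫ = j at *
    generalize ⟪A ε (G x) - A ε (Dm P x), out (u x - P x) (gradient (fun x => ψ x ^ 4) x)⟫ = j' at *
    generalize ‖ψ x ^ 4 • (G x - Dm P x) + out (u x - P x) (gradient (fun x => ψ x ^ 4) x)‖ = r at *
    generalize (‖G x‖ + ‖Dm P x‖) ^ ε = w at *
    generalize ‖A ε (G x) - A ε (Dm P x)‖ = a at *
    generalize ‖gradient (fun x => ψ x ^ 4) x‖ = g at *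
    generalize Ps ε ‖u x - P x‖ = E at *
    generalize ‖u x - P x‖ = t at *
    generalize ‖G x - Dm P x‖ = s at *
    generalize ψ x = p at *
    have c1 := mul_le_mul_of_nonneg_left a1 q0
    have c2 := mul_le_mul_of_nonneg_left a3 q0
    have c3 := mul_le_mul_of_nonneg_right q1 (sq_nonneg l)
    have E0 := (sq_nonneg t).trans t2
    refine ⟨?_, ?_, ?_⟩
    · linarith [mul_le_mul_of_nonneg_left a4 (show 0 ≤ p ^ 4 * s ^ 2 by positivity)]
    · have c4 := mul_le_mul a2 (mul_le_mul_of_nonneg_left p2 t0) (by positivity) (by positivity)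
      have c5 : 0 ≤ p ^ 3 * w * s * t := by positivity
      have c6 : 0 ≤ m ^ 3 * E := by positivity
      rw [hm] at a9 c6 ⊢
      linarith
    · have c4 : t * g ≤ t * (4 * B) := mul_le_mul_of_nonneg_left (p2.trans (by
        linarith [mul_le_mul_of_nonneg_right q3 B0])) t0
      have c5 := mul_le_mul_of_nonneg_right q1 t0
      have c6 : ρ * (r + p ^ 4 * t) ≤ ρ * (p ^ 4 * s + (4 * B + 1) * t) :=
        mul_le_mul_of_nonneg_left (by linarith) hρ
      have c7 : 0 ≤ p ^ 4 * (s - 32 * ρ) ^ 2 := by positivity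
      have c8 := mul_le_mul_of_nonneg_right q1 (sq_nonneg ρ)
      have c9 : (4 * B + 1) * (ρ * t) ≤ m * (ρ ^ 2 + E) :=
        mul_le_mul (by linarith) (by nlinarith [sq_nonneg (ρ - t), mul_nonneg hρ t0])
          (by positivity) (by positivity)
      linarith
  have E0 : 0 ≤ ∫ x in ball (0 : X d) 1, Ps ε ‖u x - P x‖ :=
    integral_nonneg fun x => by unfold Ps; positivity
  have f2 := setIntegral_mono_on i2.neg ((i1.const_mul (1 / 4)).add (i3.const_mul (m ^ 3)))
    measurableSet_ball fun x hx => (pt x hx).2.1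
  have f3 := integral_mono_of_nonneg (μ := volume.restrict (ball (0 : X d) 1))
    (.of_forall fun x => by positivity)
    (((i1.const_mul (1 / 4)).add (i3.const_mul m)).add (ic (l ^ 2 / 64 + (16 + m) * ρ ^ 2)))
    ((ae_restrict_mem measurableSet_ball).mono fun x hx => (pt x hx).2.2)
  have mz' := mz.indicator (s := ball 0 (1 / 2)) measurableSet_ball
  have f1 := integral_mono_of_nonneg (μ := volume.restrict (ball (0 : X d) 1))
    (f := fun x => Ps ε ‖(ball 0 (1 / 2)).indicator (fun x => G x - Dm P x) x‖)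
    (.of_forall fun x => by unfold Ps; positivity) ((i1.const_mul 20).add (ic (l ^ 2)))
    ((ae_restrict_mem measurableSet_ball).mono fun x hx => le_trans (by
      dsimp only
      by_cases c : x ∈ ball (0 : X d) (1 / 2)
      · rw [indicator_of_mem c, hψ1 x c, one_pow, one_mul]
      · rw [indicator_of_notMem c, norm_zero, ps_eq h0 le_rfl]
        have := (hψ x).1
        unfold Ps
        simp only [zero_pow two_ne_zero, mul_zero, add_zero]
        positivity) (pt x hx).1)
  simp only [Pi.add_apply, Pi.neg_apply] at f1 f2 f3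
  rw [integral_add (i1.const_mul _) (ic _), integral_const_mul, setIntegral_const, ← hV] at f1
  rw [integral_add (i1.const_mul _) (i3.const_mul _), integral_const_mul, integral_const_mul,
    integral_neg] at f2
  rw [integral_add ((i1.const_mul _).fun_add (i3.const_mul _)) (ic _),
    integral_add (i1.const_mul _) (i3.const_mul _), integral_const_mul, integral_const_mul,
    integral_const_mul, setIntegral_const, ← hV] at f3
  simp only [inner_add_right] at hT
  rw [integral_add i1 i2] at hT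
  have f4 := (le_abs_self _).trans hT
  have e1 : exc ε (sc (1 / 2) fun x => G x - Dm P x) =
      exc ε (sh 0 (1 / 2) ((ball 0 (1 / 2)).indicator fun x => G x - Dm P x)) := by
    unfold exc
    refine congrArg Real.sqrt (setIntegral_congr_fun measurableSet_ball fun x hx => ?_)
    have : (1 / 2 : ℝ) • x ∈ ball (0 : X d) (1 / 2) := by
      rw [mem_ball_zero_iff] at hx ⊢
      rw [norm_smul, Real.norm_of_nonneg (by norm_num)]
      linarith
    simp only [sc, sh, zero_add, indicator_of_mem this]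
  rw [e1, mul_assoc]
  refine (ex.sh_le ε _ 0 (1 / 2) h0.le (by norm_num) (by norm_num) mz').trans
    (mul_le_mul_of_nonneg_left ?_ (by positivity))
  have e2 := Real.sq_sqrt E0
  have e3 := Real.sqrt_nonneg (∫ x in ball (0 : X d) 1, Ps ε ‖u x - P x‖)
  unfold exc
  rw [Real.sqrt_le_iff, mul_pow, Real.sq_sqrt (by positivity)]
  refine ⟨by positivity, f1.trans ?_⟩
  rw [smul_eq_mul] at f3 ⊢
  generalize √(∫ x in ball (0 : X d) 1, Ps ε ‖u x - P x‖) = e at *
  have g1 : e ^ 2 ≤ (e + ρ + l) ^ 2 := pow_le_pow_left₀ e3 (by linarith) 2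
  have g2 : ρ ^ 2 ≤ (e + ρ + l) ^ 2 := pow_le_pow_left₀ hρ (by linarith) 2
  have g3 : l ^ 2 ≤ (e + ρ + l) ^ 2 := pow_le_pow_left₀ hl (by linarith) 2
  have g4 := mul_le_mul_of_nonneg_left g1 (show 0 ≤ m ^ 3 + m by positivity)
  have g5 := mul_le_mul_of_nonneg_left g2 (show 0 ≤ V * (16 + m) by positivity)
  have g6 := mul_le_mul_of_nonneg_left g3 V0
  have g7 := mul_nonneg V0 (sq_nonneg l)
  rw [← e2] at f2 f3
  linarith

end Pool.Agent.MP_815c6c_an.N

end
end MrgPart0

-- ======== part 1: formerly Pool.Agent.MP_815c6c_an.N.Mol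
section MrgPart1

/-! The mean values as mollifications. -/

set_option autoImplicit false

noncomputable section

namespace Pool.Agent.MP_815c6c_an.N

open Set Metric MeasureTheory Filter Topology ContinuousLinearMap
open scoped ContDiff RealInnerProductSpace ENNReal Convolution

namespace MolA

variable {d n : ℕ} {E F F' : Type} [NormedAddCommGroup E] [NormedSpace ℝ E] [NormedAddCommGroup F]
  [NormedSpace ℝ F] [NormedAddCommGroup F'] [NormedSpace ℝ F']

theorem conv (L : F →L[ℝ] E →L[ℝ] F') (K : X d → F) (g : X d → E) (y : X d) {s : ℝ} (hs : 0 < s) :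
    ∫ x, L (K x) (g (y + s • x)) =
      (s ^ d)⁻¹ • ((fun z => K ((-s)⁻¹ • z)) ⋆[L, volume] g) y := by
  have := Measure.integral_comp_smul volume (fun z => L (K ((-s)⁻¹ • z)) (g (y - z))) (-s)
  rw [finrank_euclideanSpace_fin, abs_inv, abs_pow, abs_neg, abs_of_pos hs] at this
  rw [convolution_def, ← this]
  simp only [inv_smul_smul₀ (neg_ne_zero.2 hs.ne')]
  simp only [neg_smul s, sub_neg_eq_add]

theorem cut (L : F →L[ℝ] E →L[ℝ] F') {K : X d → F} (hK : ∀ x, 1 / 2 ≤ ‖x‖ → K x = 0) (g : X d → E)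
    {y : X d} (hy : y ∈ ball (0 : X d) (1 / 2)) {t : ℝ} (h0 : 0 < t) (h1 : t ≤ 1) :
    ∫ x, L (K x) (sc t (sh y (1 / 2) g) x) = ((t / 2) ^ d)⁻¹ •
      ((fun z => K ((-(t / 2))⁻¹ • z)) ⋆[L, volume] (ball 0 1).indicator g) y := by
  rw [← conv L K _ y (half_pos h0)]
  refine integral_congr_ae (Eventually.of_forall fun x => ?_)
  by_cases h : 1 / 2 ≤ ‖x‖
  · simp [hK x h]
  · have e : y + (1 / 2 : ℝ) • t • x = y + (t / 2) • x := by
      rw [smul_smul]
      congr 2
      ring
    simp only [sc, sh, e]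
    rw [indicator_of_mem]
    rw [mem_ball_zero_iff] at hy ⊢
    refine (norm_add_le _ _).trans_lt ?_
    rw [norm_smul, Real.norm_of_nonneg (half_pos h0).le]
    nlinarith [norm_nonneg x]

omit [NormedSpace ℝ F] in
theorem far {K : X d → F} (hK : ∀ x, 1 / 2 ≤ ‖x‖ → K x = 0) {s : ℝ} (hs : 0 < s) {z : X d}
    (hz : s < ‖z‖) : K ((-s)⁻¹ • z) = 0 := by
  refine hK _ ?_
  rw [norm_smul, norm_inv, norm_neg, Real.norm_of_nonneg hs.le, le_inv_mul_iff₀ hs]
  linarith

omit [NormedSpace ℝ F] in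
theorem cpt {K : X d → F} (hK : ∀ x, 1 / 2 ≤ ‖x‖ → K x = 0) {s : ℝ} (hs : 0 < s) :
    HasCompactSupport fun z => K ((-s)⁻¹ • z) :=
  .intro (isCompact_closedBall 0 s) fun _ hz =>
    far hK hs (not_le.1 fun h => hz (mem_closedBall_zero_iff.2 h))

theorem ap_tens (g : Gr d n) (w v : X d) : ap (tens g w) v = ⟪w, v⟫ • g := by
  ext k
  simp [ap_apply, tens_apply, PiLp.inner_apply, Finset.mul_sum, mul_comm, mul_assoc]

end MolA

open MolA in
theorem mol : Kit → MolS := by
  intro kit d n G hG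
  have hk := kit.ker d n
  have hg : LocallyIntegrable ((ball (0 : X d) 1).indicator G) volume :=
    ((integrable_indicator_iff measurableSet_ball).2 hG).locallyIntegrable
  have z0 : ∀ x : X d, 1 / 2 ≤ ‖x‖ → kk x = 0 := fun x h => (hk.zero x h).1
  have z1 : ∀ x : X d, 1 / 2 ≤ ‖x‖ → gradient kk x = 0 := fun x h => (hk.zero x h).2
  have eb := fun (t : ℝ) (h0 : 0 < t) (h1 : t ≤ 1) y hy =>
    cut (lsmul ℝ ℝ) z0 G (y := y) hy h0 h1
  refine ⟨fun t h0 h1 => ?_, fun θ h0 h1 => ?_⟩
  · have eH := fun y hy => cut (tens (d := d) (n := n)).flip z1 G (y := y) hy h0 h1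
    have c1 : Continuous fun z : X d => gradient kk ((-(t / 2))⁻¹ • z) :=
      ((InnerProductSpace.toDual ℝ (X d)).symm.continuous.comp
        (hk.sm.continuous_fderiv (by simp))).comp (continuous_const_smul _)
    have s1 := cpt z1 (half_pos h0)
    refine ⟨fun x hx => ?_, ?_⟩
    · have s0 : ContDiff ℝ 1 fun z : X d => kk ((-(t / 2))⁻¹ • z) :=
        (hk.sm.of_le (by simp)).comp (contDiff_const_smul _)
      refine ((((cpt z0 (half_pos h0)).hasFDerivAt_convolution_left (lsmul ℝ ℝ) s0 hg x).const_smul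
        ((t / 2) ^ d)⁻¹).congr_of_eventuallyEq ?_).congr_fderiv ?_
      · filter_upwards [isOpen_ball.mem_nhds hx] with y hy
        exact eb t h0 h1 y hy
      · have i := (s1.convolutionExists_left (tens (d := d) (n := n)).flip c1 hg x).integrable
        have e : HH (sc t (sh x (1 / 2) G)) = -_ := congrArg Neg.neg (eH x hx)
        have e2 : ∀ z : X d, (lsmul ℝ ℝ).precompL (X d)
            (fderiv ℝ (fun z : X d => kk ((-(t / 2))⁻¹ • z)) z) ((ball 0 1).indicator G (x - z)) =
            (-(t / 2))⁻¹ • ap (tens.flip (gradient kk ((-(t / 2))⁻¹ • z))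
              ((ball 0 1).indicator G (x - z))) := fun z => by
          rw [fderiv_comp_smul]
          ext1 v
          simp only [precompL_apply, smul_apply, flip_apply, ap_tens, inner_gradient_left,
            lsmul_apply, smul_smul, smul_eq_mul]
        rw [Ht, e, convolution_def, convolution_def, map_smul, map_smul, map_neg, map_smul,
          ← ap.integral_comp_comm i]
        simp only [e2]
        rw [integral_smul]
        generalize ∫ a : X d, ap _ = I
        ext1 v
        simp only [smul_apply, neg_apply]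
        rw [← neg_smul, smul_smul, smul_smul, smul_smul]
        congr 1
        field_simp
    · refine (((s1.continuous_convolution_left (tens (d := d) (n := n)).flip c1 hg).const_smul
        ((t / 2) ^ d)⁻¹).neg.const_smul t⁻¹).continuousOn.congr fun y hy => ?_
      exact congrArg (fun w => t⁻¹ • -w) (eH y hy)
  · obtain ⟨B, hB⟩ := hk.sm.continuous.bounded_above_of_compact_support
      (.intro (isCompact_closedBall (0 : X d) 1) fun z hz => z0 z (by
        rw [mem_closedBall_zero_iff, not_le] at hz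
        linarith))
    have p : ∀ j : ℕ, 0 < θ ^ j / 2 := fun j => by positivity
    have l : Tendsto (fun j : ℕ => θ ^ j / 2) atTop (𝓝[>] 0) := tendsto_nhdsWithin_iff.2
      ⟨by simpa using (tendsto_pow_atTop_nhds_zero_of_lt_one h0.le h1).div_const 2,
        Eventually.of_forall p⟩
    filter_upwards [ae_restrict_of_ae ((Besicovitch.vitaliFamily volume).ae_tendsto_average_norm_sub
      hg), ae_restrict_mem measurableSet_ball] with x h hx
    have V : 0 < volume.real (ball (0 : X d) 1) :=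
      ENNReal.toReal_pos (measure_ball_pos _ _ one_pos).ne' measure_ball_lt_top.ne
    rw [← indicator_of_mem (ball_subset_ball (by norm_num) hx : x ∈ ball 0 1) G]
    refine (tendsto_integral_smul_of_tendsto_average_norm_sub
      (g := fun j w => ((θ ^ j / 2) ^ d)⁻¹ * kk ((-(θ ^ j / 2))⁻¹ • (x - w)))
      (B * volume.real (ball (0 : X d) 1)) ((h.comp (Besicovitch.tendsto_filterAt volume x)).comp l)
      (Eventually.of_forall fun j => hg.integrableOn_isCompact (isCompact_closedBall _ _))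
      (tendsto_const_nhds.congr fun j => ?_) (Eventually.of_forall fun j w hw => ?_)
      (Eventually.of_forall fun j w => ?_)).congr fun j => ?_
    · have := conv (lsmul ℝ ℝ) kk (fun _ => (1 : ℝ)) x (p j)
      rw [convolution_eq_swap] at this
      simpa [hk.one, integral_const_mul] using this
    · exact by_contra fun c => hw (mul_eq_zero_of_right _
        (far z0 (p j) (by simpa [dist_eq_norm'] using c)))
    · rw [Measure.addHaar_real_closedBall _ _ (p j).le,
        finrank_euclideanSpace_fin, mul_div_mul_right _ _ V.ne', abs_mul, abs_of_pos (by positivity),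
        div_eq_inv_mul B]
      exact mul_le_mul_of_nonneg_left (hB _) (by positivity)
    · refine Eq.trans ?_ (eb _ (pow_pos h0 j) (pow_le_one₀ h0.le h1.le) x hx).symm
      rw [convolution_eq_swap, ← integral_smul]
      simp only [lsmul_apply, smul_smul]

end Pool.Agent.MP_815c6c_an.N

end
end MrgPart1

-- marker of a merged file
example : 731051 + 121749 = 731051 + 121749 := rfl
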