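import Mathlib.Topology.Sheaves.Presheaf
import Mathlib.Tactic.Monotonicity.Lemmas
import Mathlib.Analysis.Calculus.BumpFunction.FiniteDimension
import Mathlib.Analysis.Calculus.BumpFunction.Normed
import Mathlib.Analysis.Calculus.LineDeriv.IntegrationByParts
import Mathlib.MeasureTheory.Function.L2Space
import Mathlib.MeasureTheory.Measure.RegularityCompacts
import Mathlib.MeasureTheory.Integral.CurveIntegral.Poincare
import Mathlib.Topology.UniformSpace.Uniformizable
import Pool.Agent.MP_815c6c_an.N.XSpec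

-- ======== part 0: formerly Pool.Agent.MP_815c6c_an.N.Avg
section MrgPart0

/-! Comparison of averages of the potential and their Taylor expansion. -/

set_option autoImplicit false

noncomputable section

namespace Pool.Agent.MP_815c6c_an.N

open Set Metric MeasureTheory Filter Topology
open scoped ContDiff RealInnerProductSpace ENNReal

namespace AvgA

variable {d n : ℕ}

theorem cs_of {E : Type} [NormedAddCommGroup E] {f : X d → E} {r : ℝ}
    (h : ∀ x, r ≤ ‖x‖ → f x = 0) : HasCompactSupport f :=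
  HasCompactSupport.intro (isCompact_closedBall (0 : X d) r) fun x hx =>
    h x (le_of_lt (by simpa using hx))

theorem int_smul {E : Type} [NormedAddCommGroup E] [NormedSpace ℝ E] {f : X d → ℝ}
    {v : X d → E} (hf : Continuous f) (h0 : ∀ x, 1 ≤ ‖x‖ → f x = 0) (hv : Ib v) :
    Integrable fun x => f x • v x := by
  obtain ⟨M, hM⟩ := hf.bounded_above_of_compact_support (cs_of h0)
  have h1 : IntegrableOn (fun x => f x • v x) (ball 0 1) :=
    Integrable.bdd_smul hv M hf.aestronglyMeasurable (Eventually.of_forall hM)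
  exact h1.integrable_of_forall_notMem_eq_zero fun x hx => by
    rw [h0 x (by simpa using hx), zero_smul]

theorem ib_act {z : X d → Gr d n} (hz : Ib z) (e : X d) : Ib fun y => act (z y) e :=
  (act.flip e).integrable_comp hz

theorem ts_zero {φ : X d → ℝ} (h : Ts φ) (x : X d) (hx : 1 ≤ ‖x‖) :
    φ x = 0 ∧ fderiv ℝ φ x = 0 := by
  obtain ⟨-, r, hr, h0⟩ := h
  refine ⟨h0 x (by linarith), ?_⟩
  have : φ =ᶠ[𝓝 x] fun _ => 0 := by
    have ho : ∀ᶠ y in 𝓝 x, r < ‖y‖ :=
      (isOpen_lt continuous_const continuous_norm).mem_nhds (show r < ‖x‖ by linarith)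
    exact ho.mono fun y hy => h0 y hy.le
  rw [this.fderiv_eq]; simp

theorem wg_div {v : X d → X n} {z : X d → Gr d n} (hv : Ib v) (hz : Ib z) (h : WG v z)
    (φ : Fin d → X d → ℝ) (hφ : ∀ i, Ts (φ i)) :
    ∫ y, (∑ i, fderiv ℝ (φ i) y (EuclideanSpace.single i 1)) • v y =
      -∫ y, ∑ i, φ i y • act (z y) (EuclideanSpace.single i 1) := by
  simp_rw [Finset.sum_smul]
  rw [integral_finsetSum, integral_finsetSum, ← Finset.sum_neg_distrib]
  · exact Finset.sum_congr rfl fun i _ => h _ (hφ i) _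
  · exact fun i _ => int_smul (hφ i).1.continuous (fun x hx => (ts_zero (hφ i) x hx).1)
      (ib_act hz _)
  · refine fun i _ => int_smul ?_ (fun x hx => by rw [(ts_zero (hφ i) x hx).2]; rfl) hv
    exact ((hφ i).1.continuous_fderiv (by simp)).clm_apply continuous_const

theorem hd_sq {g : ℝ → ℝ} (hg : Differentiable ℝ g) (x y : X d) :
    HasFDerivAt (fun y : X d => g (‖y - x‖ ^ 2))
      ((2 * deriv g (‖y - x‖ ^ 2)) • innerSL ℝ (y - x)) y := by
  have h1 := ((hasFDerivAt_id (𝕜 := ℝ) y).sub_const x).norm_sq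
  have h2 := (hg (‖y - x‖ ^ 2)).hasDerivAt.comp_hasFDerivAt y h1
  refine h2.congr_fderiv ?_
  ext u
  simp
  ring

theorem deriv_zero {g : ℝ → ℝ} (h0 : ∀ t, 1 / 4 ≤ t → g t = 0) (t : ℝ) (ht : 1 / 4 < t) :
    deriv g t = 0 := by
  have : g =ᶠ[𝓝 t] fun _ => 0 := (lt_mem_nhds ht).mono fun s hs => h0 s hs.le
  rw [this.deriv_eq]; simp

theorem far {x y : X d} (hx : ‖x‖ ≤ 1 / 4) (hy : 7 / 8 ≤ ‖y‖) : 1 / 4 < ‖y - x‖ ^ 2 := by
  have := norm_sub_norm_le y x
  nlinarith

theorem chg {E : Type} [NormedAddCommGroup E] [NormedSpace ℝ E] (v : X d → E) (x : X d) {θ : ℝ}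
    (hθ : 0 < θ) : ∫ y, kk y • v (x + θ • y) =
      ∫ y, ((θ ^ d)⁻¹ * ka d (‖y - x‖ ^ 2 / θ ^ 2)) • v y := by
  have h1 := Measure.integral_comp_smul (volume : Measure (X d))
    (fun y => ka d (‖y‖ ^ 2 / θ ^ 2) • v (x + y)) θ
  have h2 : ∀ y : X d, ka d (‖θ • y‖ ^ 2 / θ ^ 2) = kk y := fun y => by
    rw [norm_smul, Real.norm_of_nonneg hθ.le, kk]
    congr 1
    field_simp
  simp_rw [h2] at h1
  rw [h1, finrank_euclideanSpace_fin, abs_of_nonneg (by positivity), ← integral_smul,
    ← integral_sub_right_eq_self _ x]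
  simp [mul_smul]

end AvgA

open AvgA

theorem avg (K : Kit) (hS : ShlS) : AvgS := by
  intro d n θ hθ hθ1
  obtain ⟨W, hW⟩ := hS d θ hθ hθ1
  have B := K.bas d n
  have kr := K.ker d n
  have hW1 : ContDiff ℝ ∞ (deriv W) := (contDiff_infty_iff_deriv.1 hW.sm).2
  have hWd : Differentiable ℝ W := hW.sm.differentiable (by simp)
  have hWd1 : Differentiable ℝ (deriv W) := hW1.differentiable (by simp)
  obtain ⟨M₁, hM₁⟩ := (show Continuous fun y : X d => W (‖y‖ ^ 2) from
    hW.sm.continuous.comp (by fun_prop)).bounded_above_of_compact_support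
      (cs_of (r := 1) fun y hy => hW.zero _ (by nlinarith))
  obtain ⟨M₂, hM₂⟩ := (show Continuous fun y : X d => (2 * deriv W (‖y‖ ^ 2)) • y from
    (continuous_const.mul (hW1.continuous.comp (by fun_prop))).smul
      continuous_id).bounded_above_of_compact_support
      (cs_of (r := 1) fun y hy => by rw [deriv_zero hW.zero _ (by nlinarith)]; simp)
  have hM0 : 0 ≤ max M₁ M₂ := le_max_of_le_left ((norm_nonneg _).trans (hM₁ 0))
  refine ⟨max M₁ M₂, hM0, fun v z ρ hv hz hwg hρ hah x hx => ?_⟩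
  set D := (∫ y, kk y • v (x + θ • y)) - ∫ y, kk y • v (x + y) with hD
  have hsq : ContDiff ℝ 1 fun y : X d => ‖y - x‖ ^ 2 := (contDiff_id.sub contDiff_const).norm_sq ℝ
  have hts : ∀ i : Fin d, Ts fun y : X d => 2 * deriv W (‖y - x‖ ^ 2) * (y - x) i := fun i => by
    refine ⟨(contDiff_const.mul ((hW1.of_le (by simp)).comp hsq)).mul (by fun_prop), 7 / 8,
      by norm_num, fun y hy => ?_⟩
    simp only [deriv_zero hW.zero _ (far hx hy), mul_zero, zero_mul]
  have h1 := wg_div hv hz hwg _ hts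
  have h2 : ∀ y : X d, ∑ i, fderiv ℝ (fun y : X d => 2 * deriv W (‖y - x‖ ^ 2) * (y - x) i) y
      (EuclideanSpace.single i 1) =
      (θ ^ d)⁻¹ * ka d (‖y - x‖ ^ 2 / θ ^ 2) - ka d (‖y - x‖ ^ 2) := fun y => by
    rw [← hW.ode]
    have h3 : ∀ i : Fin d, fderiv ℝ (fun y : X d => 2 * deriv W (‖y - x‖ ^ 2) * (y - x) i) y
        (EuclideanSpace.single i 1) =
        2 * deriv W (‖y - x‖ ^ 2) + 4 * deriv (deriv W) (‖y - x‖ ^ 2) * (y - x) i ^ 2 := fun i => by
      have h4 : HasFDerivAt (fun y : X d => (y - x) i) (EuclideanSpace.proj (𝕜 := ℝ) i) y := by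
        simpa using (EuclideanSpace.proj i : X d →L[ℝ] ℝ).hasFDerivAt.sub_const (x i)
      rw [(((hd_sq hWd1 x y).const_mul 2).fun_mul h4).fderiv]
      simp [EuclideanSpace.inner_single_right]
      ring
    simp_rw [h3]
    rw [Finset.sum_add_distrib, Finset.sum_const, ← Finset.mul_sum,
      ← EuclideanSpace.real_norm_sq_eq]
    simp
    ring
  have h5 : ∀ y : X d, ∑ i, (2 * deriv W (‖y - x‖ ^ 2) * (y - x) i) •
      act (z y) (EuclideanSpace.single i 1) =
      act (z y) ((2 * deriv W (‖y - x‖ ^ 2)) • (y - x)) := fun y => by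
    generalize y - x = u
    ext a
    simp [act_apply, Finset.mul_sum, mul_comm, mul_left_comm, mul_assoc]
  have hk : ∀ s : ℝ, 0 < s → s ≤ 1 →
      Integrable fun y => ((s ^ d)⁻¹ * ka d (‖y - x‖ ^ 2 / s ^ 2)) • v y := fun s hs hs1 => by
    refine int_smul (continuous_const.mul (kr.sa.continuous.comp (by fun_prop))) (fun y hy => ?_) hv
    rw [kr.za _ ?_, mul_zero]
    have := far hx (show 7 / 8 ≤ ‖y‖ by linarith)
    rw [le_div_iff₀ (by positivity)]
    nlinarith
  have hi : Integrable fun y => act (z y) ((2 * deriv W (‖y - x‖ ^ 2)) • (y - x)) := by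
    simp_rw [← h5]
    exact integrable_finsetSum _ fun i _ =>
      int_smul (hts i).1.continuous (fun y hy => (ts_zero (hts i) y hy).1) (ib_act hz _)
  have h6 : D = -∫ y, act (z y) ((2 * deriv W (‖y - x‖ ^ 2)) • (y - x)) := by
    have e1 := chg v x one_pos
    simp only [one_smul] at e1
    rw [hD, chg v x hθ, e1, ← integral_sub (hk θ hθ hθ1.le) (hk 1 one_pos le_rfl)]
    simp_rw [h2, h5] at h1
    rw [← h1]
    simp [sub_smul]
  have h7 : ∀ y, Dm (fun y => W (‖y - x‖ ^ 2) • D) y =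
      out D ((2 * deriv W (‖y - x‖ ^ 2)) • (y - x)) := fun y => by
    rw [Dm, ((hd_sq hWd x y).smul_const D).fderiv]
    ext k
    simp [jm_apply, out_apply, EuclideanSpace.inner_single_right]
    ring
  have h8 : Ts fun y => W (‖y - x‖ ^ 2) • D := by
    refine ⟨((hW.sm.of_le (by simp)).comp hsq).smul contDiff_const, 7 / 8, by norm_num,
      fun y hy => ?_⟩
    simp only [hW.zero _ (far hx hy).le, zero_smul]
  have h9 := hah _ (max M₁ M₂ * ‖D‖) h8 (fun y => by
    rw [norm_smul]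
    exact mul_le_mul_of_nonneg_right ((hM₁ _).trans (le_max_left _ _)) (norm_nonneg _))
    (fun y => by
      rw [h7, B.n_out, mul_comm]
      exact mul_le_mul_of_nonneg_right ((hM₂ _).trans (le_max_right _ _)) (norm_nonneg _))
  have h10 : pa z (fun y => W (‖y - x‖ ^ 2) • D) = -‖D‖ ^ 2 := by
    rw [pa]
    simp_rw [h7, B.i_out, real_inner_comm D]
    rw [integral_inner hi, ← real_inner_self_eq_norm_sq, ← inner_neg_right]
    congr 1
    rw [h6, neg_neg]
  rw [h10, abs_neg, abs_of_nonneg (by positivity)] at h9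
  rcases (norm_nonneg D).eq_or_lt with h | h
  · rw [← h]; positivity
  · nlinarith

theorem tay (K : Kit) : TayS := by
  intro d n
  have B := K.bas d n
  have kr := K.ker d n
  have hcs : HasCompactSupport (kk : X d → ℝ) := cs_of fun x hx => (kr.zero x hx).1
  have hd : Differentiable ℝ (kk : X d → ℝ) := kr.sm.differentiable (by simp)
  have hc1 : ContDiff ℝ 1 (fderiv ℝ (kk : X d → ℝ)) := kr.sm.fderiv_right (by norm_cast)
  obtain ⟨M₁, hM₁⟩ := hc1.continuous.bounded_above_of_compact_support (hcs.fderiv ℝ)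
  obtain ⟨M, hM⟩ := hc1.lipschitzWith_of_hasCompactSupport (hcs.fderiv ℝ) (by simp)
  have htay : ∀ y h : X d, |kk (y + h) - kk y - fderiv ℝ kk y h| ≤ M * ‖h‖ ^ 2 := fun y h => by
    have := (convex_closedBall y ‖h‖).norm_image_sub_le_of_norm_fderiv_le' (f := kk)
      (φ := fderiv ℝ kk y) (C := M * ‖h‖) (x := y) (y := y + h) (fun u _ => hd u)
      (fun u hu => by
        refine (hM.norm_sub_le u y).trans (mul_le_mul_of_nonneg_left ?_ M.2)
        simpa [dist_eq_norm] using hu) (by simp) (by simp)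
    simpa [pow_two, mul_assoc] using this
  refine ⟨M, M.2, fun v z hv hz hwg hb hH x hx => ?_⟩
  have hfar : ∀ (t : ℝ) (y : X d), |t| ≤ 1 → 7 / 8 ≤ ‖y‖ → 1 / 2 ≤ ‖y - t • x‖ := fun t y ht hy => by
    have h1 := norm_sub_norm_le y (t • x)
    rw [norm_smul, Real.norm_eq_abs] at h1
    nlinarith [norm_nonneg x, abs_nonneg t]
  have hts : ∀ t : ℝ, |t| ≤ 1 → Ts fun y : X d => kk (y - t • x) := fun t ht =>
    ⟨(kr.sm.of_le (by simp)).comp (contDiff_id.sub contDiff_const), 7 / 8, by norm_num,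
      fun y hy => (kr.zero _ (hfar t y ht hy)).1⟩
  have hfd : ∀ (t : ℝ) (y : X d), fderiv ℝ (fun y : X d => kk (y - t • x)) y =
      fderiv ℝ kk (y - t • x) := fun t y => fderiv_comp_sub (t • x)
  have hres : ∀ (f : X d → ℝ) (w : X d → X n), (∀ y, 1 ≤ ‖y‖ → f y = 0) →
      ∫ y in ball 0 1, f y • w y = ∫ y, f y • w y := fun f w h0 =>
    setIntegral_eq_integral_of_forall_compl_eq_zero fun y hy => by
      rw [h0 y (by simpa using hy), zero_smul]
  have hder : ∀ t : ℝ, HasDerivAt (fun t : ℝ => ∫ y in ball 0 1, kk (y - t • x) • v y)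
      (∫ y in ball 0 1, (-fderiv ℝ kk (y - t • x) x) • v y) t := fun t => by
    refine (hasDerivAt_integral_of_dominated_loc_of_deriv_le (μ := volume.restrict (ball 0 1))
      (F := fun (t : ℝ) (y : X d) => kk (y - t • x) • v y)
      (F' := fun (t : ℝ) (y : X d) => (-fderiv ℝ kk (y - t • x) x) • v y)
      (bound := fun y => M₁ * ‖x‖ * ‖v y‖) (s := univ) univ_mem ?_ ?_ ?_ ?_ ?_ ?_).2
    · exact Eventually.of_forall fun s =>
        (hd.continuous.comp (by fun_prop)).aestronglyMeasurable.smul hv.aestronglyMeasurable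
    · obtain ⟨M₀, hM₀⟩ := hd.continuous.bounded_above_of_compact_support hcs
      exact Integrable.bdd_smul hv M₀ (hd.continuous.comp (by fun_prop)).aestronglyMeasurable
        (Eventually.of_forall fun y => hM₀ _)
    · exact (((hc1.continuous.comp (by fun_prop)).clm_apply
        continuous_const).neg).aestronglyMeasurable.smul hv.aestronglyMeasurable
    · refine Eventually.of_forall fun y s _ => ?_
      rw [norm_smul, norm_neg]
      exact mul_le_mul_of_nonneg_right (((fderiv ℝ kk _).le_opNorm x).trans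
        (mul_le_mul_of_nonneg_right (hM₁ _) (norm_nonneg _))) (norm_nonneg _)
    · exact (Integrable.norm hv).const_mul _
    · refine Eventually.of_forall fun y s _ => HasDerivAt.smul_const ?_ _
      have h1 : HasDerivAt (fun s : ℝ => y - s • x) (-x) s := by
        simpa using ((hasDerivAt_id s).smul_const x).const_sub y
      exact ((hd _).hasFDerivAt.comp_hasDerivAt s h1).congr_deriv (map_neg _ _)
  have hk0 : ∀ y : X d, 1 ≤ ‖y‖ → kk y = 0 := fun y hy => (kr.zero y (by linarith)).1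
  have hk1 : ∀ y : X d, 1 ≤ ‖y‖ → fderiv ℝ kk y x = 0 := fun y hy => by
    have := (ts_zero (hts 0 (by simp)) y hy).2
    rw [hfd] at this
    simp only [zero_smul, sub_zero] at this
    rw [this]; rfl
  have hck : Continuous fun y : X d => fderiv ℝ kk y x := hc1.continuous.clm_apply continuous_const
  have i0 := int_smul hd.continuous hk0 (ib_act hz x)
  have i1 := int_smul hck hk1 (ib_act hz x)
  have e0 : ∫ y, kk y • act (z y) x = 0 := by
    have := (act.flip x).integral_comp_comm (int_smul hd.continuous hk0 hz)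
    rw [show ∫ y, kk y • z y = 0 from hb] at this
    simpa using this
  have e1 : ∫ y, fderiv ℝ kk y x • act (z y) x = 0 := by
    have hg : Continuous (gradient (kk : X d → ℝ)) :=
      (InnerProductSpace.toDual ℝ (X d)).symm.continuous.comp hc1.continuous
    obtain ⟨M₂, hM₂⟩ := hg.bounded_above_of_compact_support (cs_of fun y hy => (kr.zero y hy).2)
    have i2 : IntegrableOn (fun y => tens (z y) (gradient kk y)) (ball 0 1) := by
      refine ((Integrable.norm hz).mul_const M₂).mono'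
        (tens.aestronglyMeasurable_comp₂ hz.aestronglyMeasurable hg.aestronglyMeasurable)
        (Eventually.of_forall fun y => ?_)
      rw [B.n_tens]
      exact mul_le_mul_of_nonneg_left (hM₂ _) (norm_nonneg _)
    have i3 := i2.integrable_of_forall_notMem_eq_zero fun y hy => by
      rw [(kr.zero y (by have : 1 ≤ ‖y‖ := by simpa using hy
                         linarith)).2, map_zero]
    have := ((act.flip x).comp (ap.flip x)).integral_comp_comm i3
    rw [show ∫ y, tens (z y) (gradient kk y) = 0 from neg_eq_zero.1 hH, map_zero] at this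
    rw [← this]
    refine integral_congr_ae (Eventually.of_forall fun y => ?_)
    have h2 : fderiv ℝ kk y x = ∑ j, gradient kk y j * x j := by
      rw [← inner_gradient_left, PiLp.inner_apply]
      simp [mul_comm]
    ext a
    show _ * ∑ i, z y (a, i) * x i = ∑ i, (∑ j, z y (a, i) * gradient kk y j * x j) * x i
    rw [h2, Finset.mul_sum]
    simp_rw [Finset.sum_mul]
    exact Finset.sum_congr rfl fun i _ => Finset.sum_congr rfl fun j _ => by ring
  have hbd : ∀ t ∈ Ico (0 : ℝ) 1, ‖∫ y in ball 0 1, (-fderiv ℝ kk (y - t • x) x) • v y‖ ≤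
      M * ‖x‖ ^ 3 * L1 z := fun t ht => by
    have ht1 : |t| ≤ 1 := abs_le.2 ⟨by linarith [ht.1], ht.2.le⟩
    have h1 := hwg _ (hts t ht1) x
    simp_rw [hfd] at h1
    have h0 : ∀ y : X d, 1 ≤ ‖y‖ → kk (y - t • x) = 0 := fun y hy => (ts_zero (hts t ht1) y hy).1
    have i2 := int_smul (hts t ht1).1.continuous h0 (ib_act hz x)
    rw [hres _ _ fun y hy => by rw [← hfd, (ts_zero (hts t ht1) y hy).2]; simp]
    simp_rw [neg_smul]
    rw [integral_neg, h1, neg_neg]
    have h2 : ∫ y, kk (y - t • x) • act (z y) x =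
        ∫ y, (kk (y - t • x) - kk y + t * fderiv ℝ kk y x) • act (z y) x := by
      simp_rw [add_smul, sub_smul, mul_smul]
      rw [integral_add (i2.sub' i0) (i1.fun_smul t), integral_sub i2 i0, integral_smul, e0, e1]
      simp
    rw [h2, ← hres _ _ fun y hy => by rw [h0 y hy, hk0 y hy, hk1 y hy]; simp, L1,
      ← integral_const_mul]
    refine norm_integral_le_of_norm_le ((Integrable.norm hz).const_mul _)
      (Eventually.of_forall fun y => ?_)
    have h3 := htay y (-(t • x))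
    rw [← sub_eq_add_neg, map_neg, map_smul, sub_neg_eq_add, smul_eq_mul, norm_neg, norm_smul,
      Real.norm_eq_abs] at h3
    have h4 : (|t| * ‖x‖) ^ 2 ≤ ‖x‖ ^ 2 := by
      have := abs_nonneg t
      have := norm_nonneg x
      gcongr
      nlinarith
    rw [norm_smul, Real.norm_eq_abs]
    calc _ ≤ (M * ‖x‖ ^ 2) * (‖z y‖ * ‖x‖) :=
          mul_le_mul (h3.trans (mul_le_mul_of_nonneg_left h4 M.2)) (B.n_act _ _) (norm_nonneg _)
            (by positivity)
      _ = _ := by ring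
  have hmv := norm_image_sub_le_of_norm_deriv_le_segment_01'
    (fun t _ => (hder t).hasDerivWithinAt) hbd
  rw [hres _ _ fun y hy => (ts_zero (hts 1 (by simp)) y hy).1,
    hres _ _ fun y hy => (ts_zero (hts 0 (by simp)) y hy).1] at hmv
  rw [← integral_sub_right_eq_self _ x]
  simpa [bb] using hmv

end Pool.Agent.MP_815c6c_an.N

end
end MrgPart0

-- ======== part 1: formerly Pool.Agent.MP_815c6c_an.N.XPot
section MrgPart1

/-! Potentials of weakly closed forms on balls. -/

set_option autoImplicit false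

noncomputable section

namespace Pool.Agent.MP_815c6c_an.N.XPotA

open Set Metric MeasureTheory Filter Topology
open scoped ContDiff ENNReal Convolution

variable {d : ℕ} {F : Type} [NormedAddCommGroup F] [NormedSpace ℝ F] [CompleteSpace F]

omit [CompleteSpace F] in
lemma prodLp {T : Type} [MeasurableSpace T] {ν : Measure T} [IsFiniteMeasure ν] {q : ℝ≥0∞}
    (hq : 1 ≤ q) (hq' : q ≠ ⊤) {Φ : T × X d → F} (h : MemLp Φ q (ν.prod volume)) :
    MemLp (fun x => ∫ τ, Φ (τ, x) ∂ν) q volume := by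
  have q0 : q ≠ 0 := (zero_lt_one.trans_le hq).ne'
  have q1 : 0 < q.toReal := ENNReal.toReal_pos q0 hq'
  have q2 : 1 ≤ q.toReal := by simpa using ENNReal.toReal_mono hq' hq
  refine ⟨h.1.prod_swap.integral_prod_right', ?_⟩
  rw [eLpNorm_lt_top_iff_lintegral_rpow_enorm_lt_top q0 hq']
  have h2 := (eLpNorm_lt_top_iff_lintegral_rpow_enorm_lt_top q0 hq').1 h.2
  rw [lintegral_prod_symm _ (h.1.enorm.pow_const _)] at h2
  obtain ⟨c, hc⟩ : ∃ c, c = (ν univ ^ (1 / (1 : ℝ≥0∞).toReal - 1 / q.toReal)) ^ q.toReal :=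
    ⟨_, rfl⟩
  have c1 : c ≠ ⊤ := hc ▸ ENNReal.rpow_ne_top_of_nonneg q1.le (ENNReal.rpow_ne_top_of_nonneg
    (by simpa using inv_le_one_of_one_le₀ q2) (measure_ne_top _ _))
  refine lt_of_le_of_lt (lintegral_mono_ae ?_) (?_ : ∫⁻ x, (∫⁻ τ, ‖Φ (τ, x)‖ₑ ^ q.toReal ∂ν) * c < ⊤)
  · filter_upwards [h.1.prodMk_right] with x hx
    have a := eLpNorm_le_eLpNorm_mul_rpow_measure_univ hq hx
    rw [eLpNorm_one_eq_lintegral_enorm, eLpNorm_eq_eLpNorm' q0 hq'] at a
    rw [lintegral_rpow_enorm_eq_rpow_eLpNorm' q1, hc, ← ENNReal.mul_rpow_of_nonneg _ _ q1.le]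
    exact ENNReal.rpow_le_rpow ((enorm_integral_le_lintegral_enorm _).trans a) q1.le
  · rw [lintegral_mul_const' _ _ c1]
    exact ENNReal.mul_lt_top h2 c1.lt_top

/-- test functions -/
def Te (U : Set (X d)) (φ : X d → ℝ) : Prop :=
  ContDiff ℝ ∞ φ ∧ HasCompactSupport φ ∧ tsupport φ ⊆ U

/-- weakly closed forms -/
def Cl (U : Set (X d)) (ϖ : X d → X d →L[ℝ] F) : Prop := ∀ φ, Te U φ → ∀ v w,
  ∫ x, fderiv ℝ φ x v • ϖ x w = ∫ x, fderiv ℝ φ x w • ϖ x v

lemma Te.bd {U : Set (X d)} {φ : X d → ℝ} (h : Te U φ) :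
    Continuous (fderiv ℝ φ) ∧ ∃ C, ∀ x, ‖fderiv ℝ φ x‖ ≤ C :=
  ⟨h.1.continuous_fderiv (by simp), (h.2.1.fderiv ℝ).exists_bound_of_continuous
    (h.1.continuous_fderiv (by simp))⟩

lemma Te.comp {x₀ a : X d} {r s : ℝ} {φ : X d → ℝ} (h : Te (ball x₀ r) φ) (e : X d ≃ₜ X d)
    (he : ContDiff ℝ ∞ e) (hb : ∀ w, e w ∈ ball x₀ r → w ∈ ball a s) :
    Te (ball a s) fun w => φ (e w) :=
  ⟨h.1.comp he, h.2.1.comp_homeomorph e, fun w hw =>
    hb w (h.2.2 (tsupport_comp_subset_preimage φ e.continuous hw))⟩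

lemma sing {q : ℝ≥0∞} (hq : 1 ≤ q) (hq' : q ≠ ⊤) {ϖ : X d → X d →L[ℝ] F} (h1 : MemLp ϖ q volume)
    (h2 : Integrable ϖ) {x₀ : X d} {r : ℝ} (hc : Cl (ball x₀ (2 * r)) ϖ) {k : X d → ℝ}
    (hk : Te (ball 0 r) k) (k1 : ∫ y, k y = 1) : ∃ S : X d → F, MemLp S q volume ∧
      ∀ φ, Te (ball x₀ r) φ → ∀ v, ∫ x, fderiv ℝ φ x v • S x =
        (∫ w, (∫ y, k y * φ (w + y)) • ϖ w v) - ∫ w, φ w • ϖ w v := by
  obtain ⟨ν, hν⟩ : ∃ ν : Measure (ℝ × X d),
    ν = (volume.restrict (Ioc 0 1)).prod (volume.restrict (ball 0 r)) := ⟨_, rfl⟩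
  have f1 : IsFiniteMeasure (volume.restrict (ball (0 : X d) r)) :=
    ⟨by simpa using measure_ball_lt_top⟩
  have : IsFiniteMeasure ν := by rw [hν]; infer_instance
  have kc := hk.1.continuous
  obtain ⟨C, hC⟩ := (hk.2.1.smul_right (f' := fun y : X d => y)).exists_bound_of_continuous
    (kc.smul continuous_id)
  have mp : MeasurePreserving (fun p : (ℝ × X d) × X d => (p.1, p.2 - p.1.1 • p.1.2))
      (ν.prod volume) (ν.prod volume) :=
    (MeasurePreserving.id ν).skew_product (g := fun τ x => x - τ.1 • τ.2)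
      (by unfold Function.uncurry; fun_prop) (ae_of_all _ fun τ => map_sub_right_eq_self _ _)
  have ev : ∀ {p : ℝ≥0∞} {Ψ : (ℝ × X d) × X d → X d →L[ℝ] F}, MemLp Ψ p (ν.prod volume) →
      MemLp (fun z => Ψ z (k z.1.2 • z.1.2)) p (ν.prod volume) := fun {p Ψ} h =>
    h.of_le_mul (c := C) (isBoundedBilinearMap_apply.continuous.comp_aestronglyMeasurable
      (h.1.prodMk (Continuous.aestronglyMeasurable (by fun_prop)))) (ae_of_all _ fun z =>
        ((Ψ z).le_opNorm _).trans (by rw [mul_comm]; gcongr; exact hC _))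
  have m1 := ev ((h1.comp_snd ν).comp_measurePreserving mp)
  have h2' := (memLp_one_iff_integrable.2 h2).comp_snd ν
  have m2 := memLp_one_iff_integrable.1 (ev (h2'.comp_measurePreserving mp))
  refine ⟨_, prodLp hq hq' m1, fun φ hφ v => ?_⟩
  obtain ⟨c1, D, hD⟩ := hφ.bd
  have i1 := m2.bdd_smul (φ := fun z => fderiv ℝ φ z.2 v) (D * ‖v‖)
    (Continuous.aestronglyMeasurable (by fun_prop)) (ae_of_all _ fun z =>
      ((fderiv ℝ φ z.2).le_opNorm _).trans (by gcongr; exact hD _))
  have i0 : Integrable fun w => ϖ w v := h2.apply_continuousLinearMap v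
  have i2 := (memLp_one_iff_integrable.1 ((memLp_one_iff_integrable.2 i0).comp_snd ν)).bdd_smul
    (φ := fun z => fderiv ℝ φ (z.2 + z.1.1 • z.1.2) (k z.1.2 • z.1.2)) (D * C)
    (Continuous.aestronglyMeasurable (by fun_prop)) (ae_of_all _ fun z =>
      ((fderiv ℝ φ _).le_opNorm _).trans
        (mul_le_mul (hD _) (hC _) (norm_nonneg _) ((norm_nonneg _).trans (hD 0))))
  have pc := hφ.1.continuous
  obtain ⟨B, hB⟩ := hφ.2.1.exists_bound_of_continuous pc
  have ik : Integrable k := kc.integrable_of_hasCompactSupport hk.2.1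
  have j1 : ∀ w, Integrable fun y => k y * φ (w + y) := fun w =>
    ik.mul_bdd (c := B) (Continuous.aestronglyMeasurable (by fun_prop)) (ae_of_all _ fun y => hB _)
  have inn : ∀ w, ∫ τ, fderiv ℝ φ (w + τ.1 • τ.2) (k τ.2 • τ.2) ∂ν =
      (∫ y, k y * φ (w + y)) - φ w := fun w => by
    have : Integrable (fun τ : ℝ × X d => fderiv ℝ φ (w + τ.1 • τ.2) (k τ.2 • τ.2)) ν :=
      (integrable_const (D * C)).mono' (Continuous.aestronglyMeasurable (by fun_prop))
        (ae_of_all _ fun z => ((fderiv ℝ φ _).le_opNorm _).trans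
          (mul_le_mul (hD _) (hC _) (norm_nonneg _) ((norm_nonneg _).trans (hD 0))))
    rw [hν] at this ⊢
    rw [integral_prod_symm _ this]
    have e : ∀ y : X d, ∫ t in Ioc (0 : ℝ) 1, fderiv ℝ φ (w + t • y) (k y • y) =
        k y * φ (w + y) - k y * φ w := fun y => by
      have hd : ∀ t : ℝ, HasDerivAt (fun t : ℝ => k y * φ (w + t • y))
          (fderiv ℝ φ (w + t • y) (k y • y)) t := fun t => by
        have a : HasDerivAt (fun t : ℝ => w + t • y) y t := by
          simpa using ((hasDerivAt_id t).smul_const y).const_add w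
        have b := ((hφ.1.differentiable (by simp) _).hasFDerivAt.comp_hasDerivAt t a).const_mul (k y)
        rwa [map_smul]
      rw [← intervalIntegral.integral_of_le zero_le_one,
        intervalIntegral.integral_eq_sub_of_hasDerivAt (fun t _ => hd t)
          (Continuous.intervalIntegrable (by fun_prop) _ _)]
      simp
    simp only [e]
    rw [setIntegral_eq_integral_of_forall_compl_eq_zero fun y hy => by
      rw [image_eq_zero_of_notMem_tsupport fun h => hy (hk.2.2 h)]; simp,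
      integral_sub (j1 w) (ik.mul_const _), integral_mul_const, k1, one_mul]
  have ca : Continuous fun w => ∫ y, k y * φ (w + y) :=
    continuous_of_dominated (bound := fun y => ‖k y‖ * B)
      (fun w => (j1 w).1) (fun w => ae_of_all _ fun y => by rw [norm_mul]; gcongr; exact hB _)
      (ik.norm.mul_const _) (ae_of_all _ fun y => by fun_prop)
  calc _ = ∫ x, ∫ τ, fderiv ℝ φ x v • ϖ (x - τ.1 • τ.2) (k τ.2 • τ.2) ∂ν := by
        simp only [integral_smul, Function.comp]
    _ = ∫ τ, (∫ x, fderiv ℝ φ x v • ϖ (x - τ.1 • τ.2) (k τ.2 • τ.2)) ∂ν :=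
        (integral_integral_swap i1).symm
    _ = ∫ τ, (∫ w, fderiv ℝ φ (w + τ.1 • τ.2) (k τ.2 • τ.2) • ϖ w v) ∂ν := by
        refine integral_congr_ae ?_
        have : ∀ᵐ τ ∂ν, τ ∈ Ioc (0 : ℝ) 1 ×ˢ ball (0 : X d) r := by
          rw [hν, Measure.prod_restrict]
          exact ae_restrict_mem (measurableSet_Ioc.prod measurableSet_ball)
        filter_upwards [this] with τ hτ
        have t1 : ‖τ.1 • τ.2‖ < r := by
          rw [norm_smul, Real.norm_of_nonneg hτ.1.1.le]
          exact (mul_le_of_le_one_left (norm_nonneg _) hτ.1.2).trans_lt (by simpa using hτ.2)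
        have := hc _ (hφ.comp (a := x₀) (s := 2 * r) (Homeomorph.addRight (τ.1 • τ.2))
          (contDiff_id.add contDiff_const) fun w hw => by
            have a := norm_sub_le (w + τ.1 • τ.2 - x₀) (τ.1 • τ.2)
            rw [mem_ball_iff_norm] at hw ⊢
            rw [show w + τ.1 • τ.2 - x₀ - τ.1 • τ.2 = w - x₀ by abel] at a
            exact a.trans_lt (by rw [two_mul]; exact add_lt_add hw t1)) v (k τ.2 • τ.2)
        simp only [Homeomorph.coe_addRight, fderiv_comp_add_right] at this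
        rw [← this, ← integral_add_right_eq_self _ (τ.1 • τ.2)]
        simp only [add_sub_cancel_right]
    _ = ∫ w, ∫ τ, fderiv ℝ φ (w + τ.1 • τ.2) (k τ.2 • τ.2) • ϖ w v ∂ν := integral_integral_swap i2
    _ = _ := by
        simp only [integral_smul_const, inn, sub_smul]
        refine integral_sub (i0.bdd_smul ((∫ y, ‖k y‖) * B) ca.aestronglyMeasurable
          (ae_of_all _ fun w => ?_)) (i0.bdd_smul B pc.aestronglyMeasurable (ae_of_all _ hB))
        rw [← integral_mul_const]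
        exact norm_integral_le_of_norm_le (ik.norm.mul_const _)
          (ae_of_all _ fun y => by rw [norm_mul]; gcongr; exact hB _)

lemma smo {ϖ : X d → X d →L[ℝ] F} (h2 : Integrable ϖ) {x₀ : X d} {r : ℝ}
    (hc : Cl (ball x₀ (2 * r)) ϖ) {k : X d → ℝ} (hk : Te (ball 0 r) k) :
    ∃ U : X d → F, ContinuousOn U (ball x₀ r) ∧ ∀ φ, Te (ball x₀ r) φ → ∀ v,
      ∫ x, fderiv ℝ φ x v • U x = -∫ w, (∫ y, k y * φ (w + y)) • ϖ w v := by
  obtain ⟨L, hL⟩ : ∃ L : (X d →L[ℝ] F) →L[ℝ] ℝ →L[ℝ] X d →L[ℝ] F,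
    L = (ContinuousLinearMap.lsmul ℝ ℝ).flip := ⟨_, rfl⟩
  have eL : ∀ a t, L a t = t • a := fun a t => by rw [hL]; rfl
  obtain ⟨c1, D, hD⟩ := hk.bd
  have kc := hk.1.continuous
  have dg := fun a => hk.2.1.hasFDerivAt_convolution_right L h2.locallyIntegrable
    (hk.1.of_le (by exact_mod_cast le_top)) a
  have gc : Continuous (ϖ ⋆[L, volume] k) := continuous_iff_continuousAt.2 fun a =>
    (dg a).continuousAt
  have fg : ∀ a x y, fderiv ℝ (ϖ ⋆[L, volume] k) a x y = ∫ t, fderiv ℝ k (a - t) x • ϖ t y := by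
    intro a x y
    rw [(dg a).fderiv, convolution_precompR_apply L h2.locallyIntegrable (hk.2.1.fderiv ℝ) c1,
      convolution_def]
    simp only [eL]
    exact ContinuousLinearMap.integral_apply (h2.bdd_smul (φ := fun t => fderiv ℝ k (a - t) x)
      (D * ‖x‖) (Continuous.aestronglyMeasurable (by fun_prop)) (ae_of_all _ fun t =>
        ((fderiv ℝ k _).le_opNorm _).trans (by gcongr; exact hD _))) y
  obtain ⟨U, hU⟩ := (convex_ball x₀ r).exists_forall_hasFDerivAt_of_fderiv_symmetric isOpen_ball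
    (fun a _ => (dg a).differentiableAt.differentiableWithinAt)
    fun a ha x y => by
      have := hc _ (hk.comp (a := x₀) (s := 2 * r) (Homeomorph.subLeft a)
        (contDiff_const.sub contDiff_id) fun w hw => by
          have b := norm_sub_le (a - x₀) (a - w)
          rw [mem_ball_iff_norm] at ha ⊢
          rw [show a - x₀ - (a - w) = w - x₀ by abel] at b
          exact b.trans_lt (by rw [two_mul]; exact add_lt_add ha (by simpa using hw))) x y
      have e : ∀ t z, fderiv ℝ (fun w => k (Homeomorph.subLeft a w)) t z =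
          -fderiv ℝ k (a - t) z := fun t z => by
        have b := (hk.1.differentiable (by simp) (a - t)).hasFDerivAt.comp t
          ((hasFDerivAt_id t).const_sub a)
        have b' : fderiv ℝ (fun w => k (Homeomorph.subLeft a w)) t = _ := b.fderiv
        rw [b']
        simp
      simp only [e, neg_smul, integral_neg, neg_inj] at this
      rw [fg, fg, this]
  have Uc : ContinuousOn U (ball x₀ r) := fun a ha => (hU a ha).continuousAt.continuousWithinAt
  refine ⟨U, Uc, fun φ hφ v => ?_⟩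
  obtain ⟨c2, -⟩ := hφ.bd
  have pc := hφ.1.continuous
  have z0 : ∀ x, x ∉ tsupport φ → φ x = 0 := fun x => image_eq_zero_of_notMem_tsupport
  have I : ∀ {ψ : X d → ℝ} {W : X d → F}, Continuous ψ → (∀ x, x ∉ tsupport φ → ψ x = 0) →
      ContinuousOn W (ball x₀ r) → Integrable fun x => ψ x • W x := fun {ψ W} a b c =>
    (integrableOn_iff_integrable_of_support_subset (s := tsupport φ) fun x hx => by
      by_contra h; exact hx (by simp [b x h])).1
      ((a.continuousOn.smul (c.mono hφ.2.2)).integrableOn_compact hφ.2.1)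
  have e1 : ∀ x, φ x • fderiv ℝ U x v = φ x • (ϖ ⋆[L, volume] k) x v := fun x => by
    by_cases h : x ∈ tsupport φ
    · rw [(hU x (hφ.2.2 h)).fderiv]
    · simp [z0 x h]
  have ibp := integral_smul_fderiv_eq_neg_fderiv_smul_of_integrable (μ := volume) (f := φ) (g := U)
    (v := v) (I (by fun_prop) (fun x h => by
      rw [image_eq_zero_of_notMem_tsupport fun h' => h (tsupport_fderiv_subset ℝ h')]; rfl) Uc)
    (by simp only [e1]; exact I pc z0 (Continuous.continuousOn (by fun_prop))) (I pc z0 Uc)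
    (fun x _ => hφ.1.differentiable (by simp) x) fun x h => (hU x (hφ.2.2 h)).differentiableAt
  rw [← neg_eq_iff_eq_neg, ← ibp]
  obtain ⟨B, hB⟩ := hk.2.1.exists_bound_of_continuous kc
  have i0 : Integrable fun w => ϖ w v := h2.apply_continuousLinearMap v
  have ip : Integrable φ := pc.integrable_of_hasCompactSupport hφ.2.1
  have i1 := (ip.smul_prod i0).bdd_smul (φ := fun z => k (z.1 - z.2)) B
    (Continuous.aestronglyMeasurable (by fun_prop)) (ae_of_all _ fun z => hB _)
  calc _ = ∫ x, ∫ t, k (x - t) • φ x • ϖ t v := by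
        simp only [e1, convolution_def, eL]
        refine integral_congr_ae (ae_of_all _ fun x => ?_)
        have : (∫ t, k (x - t) • ϖ t) v = ∫ t, k (x - t) • ϖ t v :=
          ContinuousLinearMap.integral_apply (h2.bdd_smul (φ := fun t => k (x - t)) B
            (Continuous.aestronglyMeasurable (by fun_prop)) (ae_of_all _ fun t => hB _)) v
        simp only
        rw [this, ← integral_smul]
        exact integral_congr_ae (ae_of_all _ fun t => smul_comm _ _ _)
    _ = ∫ t, ∫ x, k (x - t) • φ x • ϖ t v := integral_integral_swap i1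
    _ = _ := by
        refine integral_congr_ae (ae_of_all _ fun t => ?_)
        simp only [smul_smul, integral_smul_const]
        rw [← integral_add_left_eq_self _ t]
        simp only [add_sub_cancel_left]

theorem pot {q : ℝ≥0∞} (hq : 1 ≤ q) (hq' : q ≠ ⊤) {ϖ : X d → X d →L[ℝ] F} (h1 : MemLp ϖ q volume)
    (h2 : Integrable ϖ) {x₀ : X d} {r : ℝ} (hr : 0 < r) (hc : Cl (ball x₀ (2 * r)) ϖ) :
    ∃ u : X d → F, (∀ K ⊆ ball x₀ r, IsCompact K → MemLp u q (volume.restrict K)) ∧
      ∀ φ, Te (ball x₀ r) φ → ∀ v, ∫ x, fderiv ℝ φ x v • u x = -∫ x, φ x • ϖ x v := by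
  let b : ContDiffBump (0 : X d) := ⟨r / 4, r / 2, by positivity, by linarith⟩
  have hk : Te (ball 0 r) (b.normed volume) := ⟨b.contDiff_normed, b.hasCompactSupport_normed, by
    rw [b.tsupport_normed_eq]; exact closedBall_subset_ball (by simpa [b] using hr)⟩
  obtain ⟨S, s1, s2⟩ := sing hq hq' h1 h2 hc hk b.integral_normed
  obtain ⟨U, u1, u2⟩ := smo h2 hc hk
  have mU : ∀ K ⊆ ball x₀ r, IsCompact K → MemLp U q (volume.restrict K) := fun K hK hK' => by
    have : IsFiniteMeasure (volume.restrict K) := ⟨by simpa using hK'.measure_lt_top⟩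
    obtain ⟨C, hC⟩ := hK'.exists_bound_of_continuousOn (u1.mono hK)
    exact MemLp.of_bound ((u1.mono hK).aestronglyMeasurable hK'.measurableSet) C
      ((ae_restrict_iff' hK'.measurableSet).2 (ae_of_all _ hC))
  refine ⟨fun x => U x + S x, fun K hK hK' => (mU K hK hK').add (s1.restrict K), fun φ hφ v => ?_⟩
  obtain ⟨c1, D, hD⟩ := hφ.bd
  have : IsFiniteMeasure (volume.restrict (tsupport φ)) := ⟨by simpa using hφ.2.1.measure_lt_top⟩
  have I : ∀ W : X d → F, MemLp W q (volume.restrict (tsupport φ)) →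
      Integrable fun x => fderiv ℝ φ x v • W x := fun W hW =>
    (integrableOn_iff_integrable_of_support_subset (s := tsupport φ) fun x hx => by
      by_contra h
      exact hx (by simp [image_eq_zero_of_notMem_tsupport fun h' =>
        h (tsupport_fderiv_subset ℝ h')])).1
      ((hW.integrable hq).bdd_smul (φ := fun x => fderiv ℝ φ x v) (D * ‖v‖)
        (Continuous.aestronglyMeasurable (by fun_prop)) (ae_of_all _ fun x =>
          ((fderiv ℝ φ _).le_opNorm _).trans (by gcongr; exact hD _)))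
  simp only [smul_add]
  rw [integral_add (I U (mU _ hφ.2.2 hφ.2.1)) (I S (s1.restrict _)), u2 φ hφ, s2 φ hφ]
  abel

end Pool.Agent.MP_815c6c_an.N.XPotA

end
end MrgPart1

-- ======== part 2: formerly Pool.Agent.MP_815c6c_an.N.Poi
section MrgPart2

/-! A function with a weak gradient is close to its averages. -/

set_option autoImplicit false

noncomputable section

namespace Pool.Agent.MP_815c6c_an.N

open Set Metric MeasureTheory Filter Topology
open scoped ContDiff RealInnerProductSpace ENNReal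

namespace PoiA

open AvgA

variable {d n : ℕ}

theorem dif (K : Kit) {θ : ℝ} (hθ : 0 < θ) (hθ1 : θ < 1) {W : ℝ → ℝ} (hW : Shell d θ W)
    {v : X d → X n} {z : X d → Gr d n} (hv : Ib v) (hz : Ib z) (hwg : WG v z) {x : X d}
    (hx : ‖x‖ ≤ 1 / 4) : (∫ y, kk y • v (x + θ • y)) - ∫ y, kk y • v (x + y) =
      -∫ y, act (z y) ((2 * deriv W (‖y - x‖ ^ 2)) • (y - x)) := by
  have kr := K.ker d n
  have hW1 : ContDiff ℝ ∞ (deriv W) := (contDiff_infty_iff_deriv.1 hW.sm).2
  have hWd1 : Differentiable ℝ (deriv W) := hW1.differentiable (by simp)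
  have hsq : ContDiff ℝ 1 fun y : X d => ‖y - x‖ ^ 2 := (contDiff_id.sub contDiff_const).norm_sq ℝ
  have hts : ∀ i : Fin d, Ts fun y : X d => 2 * deriv W (‖y - x‖ ^ 2) * (y - x) i := fun i => by
    refine ⟨(contDiff_const.mul ((hW1.of_le (by simp)).comp hsq)).mul (by fun_prop), 7 / 8,
      by norm_num, fun y hy => ?_⟩
    simp only [deriv_zero hW.zero _ (far hx hy), mul_zero, zero_mul]
  have h1 := wg_div hv hz hwg _ hts
  have h2 : ∀ y : X d, ∑ i, fderiv ℝ (fun y : X d => 2 * deriv W (‖y - x‖ ^ 2) * (y - x) i) y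
      (EuclideanSpace.single i 1) =
      (θ ^ d)⁻¹ * ka d (‖y - x‖ ^ 2 / θ ^ 2) - ka d (‖y - x‖ ^ 2) := fun y => by
    rw [← hW.ode]
    have h3 : ∀ i : Fin d, fderiv ℝ (fun y : X d => 2 * deriv W (‖y - x‖ ^ 2) * (y - x) i) y
        (EuclideanSpace.single i 1) =
        2 * deriv W (‖y - x‖ ^ 2) + 4 * deriv (deriv W) (‖y - x‖ ^ 2) * (y - x) i ^ 2 := fun i => by
      have h4 : HasFDerivAt (fun y : X d => (y - x) i) (EuclideanSpace.proj (𝕜 := ℝ) i) y := by
        simpa using (EuclideanSpace.proj i : X d →L[ℝ] ℝ).hasFDerivAt.sub_const (x i)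
      rw [(((hd_sq hWd1 x y).const_mul 2).fun_mul h4).fderiv]
      simp [EuclideanSpace.inner_single_right]
      ring
    simp_rw [h3]
    rw [Finset.sum_add_distrib, Finset.sum_const, ← Finset.mul_sum,
      ← EuclideanSpace.real_norm_sq_eq]
    simp
    ring
  have h5 : ∀ y : X d, ∑ i, (2 * deriv W (‖y - x‖ ^ 2) * (y - x) i) •
      act (z y) (EuclideanSpace.single i 1) =
      act (z y) ((2 * deriv W (‖y - x‖ ^ 2)) • (y - x)) := fun y => by
    generalize y - x = u
    ext a
    simp [act_apply, Finset.mul_sum, mul_comm, mul_left_comm, mul_assoc]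
  have hk : ∀ s : ℝ, 0 < s → s ≤ 1 →
      Integrable fun y => ((s ^ d)⁻¹ * ka d (‖y - x‖ ^ 2 / s ^ 2)) • v y := fun s hs hs1 => by
    refine int_smul (continuous_const.mul (kr.sa.continuous.comp (by fun_prop))) (fun y hy => ?_) hv
    rw [kr.za _ ?_, mul_zero]
    have := far hx (show 7 / 8 ≤ ‖y‖ by linarith)
    rw [le_div_iff₀ (by positivity)]
    nlinarith
  have e1 := chg v x one_pos
  simp only [one_smul] at e1
  rw [chg v x hθ, e1, ← integral_sub (hk θ hθ hθ1.le) (hk 1 one_pos le_rfl)]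
  simp_rw [h2, h5] at h1
  rw [← h1]
  simp [sub_smul]

theorem jen {α : Type} [MeasurableSpace α] {μ : Measure α} {Z G : α → ℝ≥0∞}
    (hZ : AEMeasurable Z μ) (hG : AEMeasurable G μ) (h1 : ∫⁻ y, G y ∂μ ≤ 1) {P : ℝ} (hP : 1 ≤ P) :
    (∫⁻ y, Z y * G y ∂μ) ^ P ≤ ∫⁻ y, Z y ^ P * G y ∂μ := by
  have p0 : 0 < P := by linarith
  have p1 : 0 ≤ P⁻¹ := inv_nonneg.2 p0.le
  have p2 : 0 ≤ 1 - P⁻¹ := sub_nonneg.2 (inv_le_one_of_one_le₀ hP)
  have h := ENNReal.lintegral_mul_norm_pow_le ((hZ.pow_const P).mul hG) hG p1 p2 (by ring)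
  have e : ∀ y, (Z y ^ P * G y) ^ P⁻¹ * G y ^ (1 - P⁻¹) = Z y * G y := fun y => by
    rw [ENNReal.mul_rpow_of_nonneg _ _ p1, ENNReal.rpow_rpow_inv p0.ne', mul_assoc,
      ← ENNReal.rpow_add_of_nonneg _ _ p1 p2, add_sub_cancel, ENNReal.rpow_one]
  simp only [Pi.mul_apply, e] at h
  have h2 := h.trans (mul_le_of_le_one_right' (ENNReal.rpow_le_one h1 p2))
  simpa only [ENNReal.rpow_inv_rpow p0.ne'] using ENNReal.rpow_le_rpow h2 p0.le

/-- the energy density -/
def Pe (ε : ℝ) (t : ℝ≥0∞) : ℝ≥0∞ := t ^ (2 : ℝ) + t ^ (2 + ε)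

theorem Pe_cont (ε : ℝ) : Continuous (Pe ε) :=
  ENNReal.continuous_rpow_const.add ENNReal.continuous_rpow_const

theorem Pe_eq {E : Type} [NormedAddCommGroup E] {ε : ℝ} (hε : 0 ≤ ε) (a : E) :
    ENNReal.ofReal (Ps ε ‖a‖) = Pe ε ‖a‖ₑ := by
  rw [Ps, Pe, ENNReal.ofReal_add (by positivity) (by positivity), ← ofReal_norm,
    ENNReal.ofReal_rpow_of_nonneg (norm_nonneg a) (by norm_num),
    ENNReal.ofReal_rpow_of_nonneg (norm_nonneg a) (by linarith), Real.rpow_two]

theorem qmp (σ : ℝ) : Measure.QuasiMeasurePreserving (fun p : X d × X d => p.1 + σ • p.2)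
    ((volume : Measure (X d)).prod volume) volume :=
  QuasiMeasurePreserving.prod_of_left (by fun_prop) (Eventually.of_forall fun y =>
    (measurePreserving_add_right volume (σ • y)).quasiMeasurePreserving)

theorem mem {x y : X d} {σ : ℝ} (hx : x ∈ ball (0 : X d) (1 / 4)) (h0 : 0 ≤ σ) (h1 : σ ≤ 1 / 2)
    (hy : ‖y‖ < 1) : x + σ • y ∈ ball (0 : X d) 1 := by
  rw [mem_ball_zero_iff] at hx ⊢
  refine (norm_add_le _ _).trans_lt ?_
  rw [norm_smul, Real.norm_of_nonneg h0]
  nlinarith [norm_nonneg y]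

/-- the average of the function cut off outside the unit ball -/
def av (v : X d → X n) (σ : ℝ) (x : X d) : X n := ∫ y, kk y • (ball 0 1).indicator v (x + σ • y)

theorem cut (K : Kit) (v : X d → X n) {x : X d} {σ : ℝ} (hx : x ∈ ball (0 : X d) (1 / 4))
    (h0 : 0 ≤ σ) (h1 : σ ≤ 1 / 2) : av v σ x = ∫ y, kk y • v (x + σ • y) := by
  refine integral_congr_ae (Eventually.of_forall fun y => ?_)
  by_cases h : 1 / 2 ≤ ‖y‖
  · simp [((K.ker d n).zero y h).1]
  · simp only [indicator_of_mem (mem hx h0 h1 (show ‖y‖ < 1 by linarith [not_le.1 h]))]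

theorem av_meas (K : Kit) {v : X d → X n} (hv : Ib v) (σ : ℝ) :
    AEStronglyMeasurable (av v σ) volume :=
  AEStronglyMeasurable.integral_prod_right'
    (f := fun p : X d × X d => kk p.2 • (ball 0 1).indicator v (p.1 + σ • p.2))
    (((K.ker d n).sm.continuous.comp continuous_snd).aestronglyMeasurable.smul
      (((integrable_indicator_iff measurableSet_ball).2
        hv).aestronglyMeasurable.comp_quasiMeasurePreserving (qmp σ)))

theorem leb (K : Kit) {v : X d → X n} (hv : Ib v) :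
    ∀ᵐ x : X d, Tendsto (fun σ => av v σ x) (𝓝[>] 0) (𝓝 ((ball 0 1).indicator v x)) := by
  have hk := K.ker d n
  have hg : LocallyIntegrable ((ball (0 : X d) 1).indicator v) volume :=
    ((integrable_indicator_iff measurableSet_ball).2 hv).locallyIntegrable
  obtain ⟨B, hB⟩ := hk.sm.continuous.bounded_above_of_compact_support
    (cs_of fun x hx => (hk.zero x hx).1)
  have V : 0 < volume.real (ball (0 : X d) 1) :=
    ENNReal.toReal_pos (measure_ball_pos _ _ one_pos).ne' measure_ball_lt_top.ne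
  filter_upwards [(Besicovitch.vitaliFamily volume).ae_tendsto_average_norm_sub hg] with x h
  refine (tendsto_integral_smul_of_tendsto_average_norm_sub
    (g := fun σ w => (σ ^ d)⁻¹ * ka d (‖w - x‖ ^ 2 / σ ^ 2))
    (B * volume.real (ball (0 : X d) 1)) (h.comp (Besicovitch.tendsto_filterAt volume x))
    (Eventually.of_forall fun σ => hg.integrableOn_isCompact (isCompact_closedBall _ _))
    (tendsto_const_nhds.congr' ?_) ?_ ?_).congr' ?_ <;>
    filter_upwards [self_mem_nhdsWithin] with σ (hσ : 0 < σ)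
  · simpa [hk.one] using chg (fun _ => (1 : ℝ)) x hσ
  · refine fun w hw => by_contra fun c => hw (mul_eq_zero_of_right _ (hk.za _ ?_))
    have c' : σ < ‖w - x‖ := by simpa [dist_eq_norm] using c
    rw [le_div_iff₀ (by positivity)]
    nlinarith
  · intro w
    have := hB (σ⁻¹ • (w - x))
    rw [kk, norm_smul, mul_pow, norm_inv, Real.norm_of_nonneg hσ.le, inv_pow,
      ← div_eq_inv_mul] at this
    rw [Measure.addHaar_real_closedBall _ _ hσ.le, finrank_euclideanSpace_fin,
      mul_div_mul_right _ _ V.ne', abs_mul, abs_of_pos (by positivity), div_eq_inv_mul B]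
    exact mul_le_mul_of_nonneg_left this (by positivity)
  · exact (chg _ x hσ).symm

theorem step (K : Kit) (hS : ShlS) {ε ρ θ : ℝ} {v : X d → X n} {z : X d → Gr d n} (hε : 0 ≤ ε)
    (hρ : 0 < ρ) (hρ1 : ρ ≤ 1 / 2) (hv : Mp ε v) (hz : Mp ε z) (hwg : WG v z) (hθ : 0 < θ)
    (hθ1 : θ < 1) : ∫⁻ x in ball 0 (1 / 4), Pe ε ‖ρ⁻¹ • (av v (ρ * θ) x - av v ρ x)‖ₑ ≤
      ∫⁻ x in ball 0 1, Pe ε ‖z x‖ₑ := by
  obtain ⟨W, hW⟩ := hS d θ hθ hθ1
  obtain ⟨C, hE⟩ := K.exc d n
  have gc : Continuous fun y : X d => 2 * deriv W (‖y‖ ^ 2) * ‖y‖ :=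
    (continuous_const.mul ((contDiff_infty_iff_deriv.1 hW.sm).2.continuous.comp
      (by fun_prop))).mul continuous_norm
  have g0 : ∀ y : X d, 0 ≤ 2 * deriv W (‖y‖ ^ 2) := fun y => mul_nonneg zero_le_two (hW.d1 _)
  have g1 : ∀ y : X d, 1 ≤ ‖y‖ → deriv W (‖y‖ ^ 2) = 0 := fun y hy =>
    deriv_zero hW.zero _ (by nlinarith)
  set G : X d → ℝ≥0∞ := fun y => ENNReal.ofReal (2 * deriv W (‖y‖ ^ 2) * ‖y‖) with hG
  have Gm : Measurable G := gc.measurable.ennreal_ofReal
  have G1 : ∫⁻ y, G y ≤ 1 := by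
    rw [hG, ← ofReal_integral_eq_lintegral_ofReal (gc.integrable_of_hasCompactSupport
      (cs_of (r := 1) fun y hy => by simp [g1 y hy]))
      (Eventually.of_forall fun y => mul_nonneg (g0 y) (norm_nonneg y))]
    exact ENNReal.ofReal_le_one.2 hW.m1
  set Φ : X d → ℝ≥0∞ := (ball 0 1).indicator fun w => Pe ε ‖z w‖ₑ with hΦ
  have Φm : AEMeasurable Φ volume := (aemeasurable_indicator_iff measurableSet_ball).2
    ((Pe_cont ε).measurable.comp_aemeasurable hz.aestronglyMeasurable.enorm)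
  have pt : ∀ x ∈ ball (0 : X d) (1 / 4), Pe ε ‖ρ⁻¹ • (av v (ρ * θ) x - av v ρ x)‖ₑ ≤
      ∫⁻ y, Φ (x + ρ • y) * G y := fun x hx => by
    have hx1 : ‖x‖ + ρ ≤ 1 := by linarith [mem_ball_zero_iff.1 hx]
    have mz := hE.mp_sh ε z x ρ hρ hx1 hz
    have h1 := dif K hθ hθ1 hW (x := 0) (v := fun y => ρ⁻¹ • sh x ρ v y)
      (Integrable.smul ρ⁻¹ (hE.ib ε _ hε (hE.mp_sh ε v x ρ hρ hx1 hv)).1) (hE.ib ε _ hε mz).1
      ((K.sca d n).wg v z x ρ hρ hx1 hwg) (by simp)
    simp only [zero_add, sub_zero, sh, smul_comm (kk _) ρ⁻¹, integral_smul, smul_smul ρ θ,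
      ← smul_sub] at h1
    have mZ : AEMeasurable (fun y => ‖z (x + ρ • y)‖ₑ) (volume.restrict (ball 0 1)) :=
      mz.aestronglyMeasurable.enorm
    have h2 : ‖ρ⁻¹ • (av v (ρ * θ) x - av v ρ x)‖ₑ ≤
        ∫⁻ y in ball 0 1, ‖z (x + ρ • y)‖ₑ * G y := by
      rw [cut K v hx (by positivity) (by nlinarith), cut K v hx hρ.le hρ1, h1, enorm_neg,
        ← setIntegral_eq_integral_of_forall_compl_eq_zero (s := ball 0 1) fun y hy => by
          simp [g1 y (by simpa using hy)]]
      refine (enorm_integral_le_lintegral_enorm _).trans (lintegral_mono fun y => ?_)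
      simp only [hG, ← ofReal_norm, ← ENNReal.ofReal_mul (norm_nonneg _)]
      refine ENNReal.ofReal_le_ofReal (((K.bas d n).n_act _ _).trans_eq ?_)
      rw [norm_smul, Real.norm_of_nonneg (g0 y)]
    have G2 := (setLIntegral_le_lintegral (ball (0 : X d) 1) G).trans G1
    calc _ ≤ (∫⁻ y in ball 0 1, ‖z (x + ρ • y)‖ₑ ^ (2 : ℝ) * G y) +
          ∫⁻ y in ball 0 1, ‖z (x + ρ • y)‖ₑ ^ (2 + ε) * G y :=
          add_le_add ((ENNReal.rpow_le_rpow h2 zero_le_two).trans
            (jen mZ Gm.aemeasurable G2 one_le_two))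
            ((ENNReal.rpow_le_rpow h2 (by linarith)).trans
              (jen mZ Gm.aemeasurable G2 (by linarith)))
      _ = ∫⁻ y in ball 0 1, Φ (x + ρ • y) * G y := by
          rw [← lintegral_add_left' ((mZ.pow_const _).fun_mul Gm.aemeasurable)]
          refine setLIntegral_congr_fun measurableSet_ball fun y hy => ?_
          simp only [hΦ, indicator_of_mem (mem hx hρ.le hρ1 (mem_ball_zero_iff.1 hy)), Pe, add_mul]
      _ ≤ _ := setLIntegral_le_lintegral _ _
  calc _ ≤ ∫⁻ x in ball 0 (1 / 4), ∫⁻ y, Φ (x + ρ • y) * G y :=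
        setLIntegral_mono_ae' measurableSet_ball (Eventually.of_forall pt)
    _ ≤ ∫⁻ x, ∫⁻ y, Φ (x + ρ • y) * G y := setLIntegral_le_lintegral _ _
    _ = ∫⁻ y, ∫⁻ x, Φ (x + ρ • y) * G y := lintegral_lintegral_swap
        ((Φm.comp_quasiMeasurePreserving (qmp ρ)).mul (Gm.comp measurable_snd).aemeasurable)
    _ = ∫⁻ y, (∫⁻ x, Φ x) * G y := lintegral_congr fun y => by
        rw [lintegral_mul_const' _ _ ENNReal.ofReal_ne_top, lintegral_add_right_eq_self Φ]
    _ ≤ ∫⁻ x, Φ x := by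
        rw [lintegral_const_mul _ Gm]
        exact mul_le_of_le_one_right' G1
    _ = _ := lintegral_indicator measurableSet_ball _

end PoiA

open PoiA in
theorem poi (K : Kit) (hS : ShlS) : PoiS := by
  intro d n ε ρ v z hε hρ hρ1 hv hz hwg
  obtain ⟨C, hE⟩ := K.exc d n
  have iv := (hE.ib ε v hε hv).1
  have iz := (hE.ib ε z hε hz).2.2
  have P0 : ∀ t, 0 ≤ t → 0 ≤ Ps ε t := fun t ht => by unfold Ps; positivity
  have l : Tendsto (fun θ : ℝ => ρ * θ) (𝓝[>] 0) (𝓝[>] 0) := tendsto_nhdsWithin_iff.2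
    ⟨by simpa using (tendsto_nhdsWithin_of_tendsto_nhds (s := Ioi (0 : ℝ))
      (tendsto_id (x := 𝓝 (0 : ℝ)))).const_mul ρ,
      eventually_nhdsWithin_of_forall fun θ hθ => mul_pos hρ hθ⟩
  have sub : ball (0 : X d) (1 / 4) ⊆ ball 0 1 := ball_subset_ball (by norm_num)
  have h1 : ∫⁻ x in ball 0 (1 / 4), ENNReal.ofReal
      (Ps ε ‖ρ⁻¹ • (v x - ∫ y, kk y • v (x + ρ • y))‖) ≤
      ENNReal.ofReal (∫ x in ball 0 1, Ps ε ‖z x‖) := by
    rw [ofReal_integral_eq_lintegral_ofReal iz (Eventually.of_forall fun x => P0 _ (norm_nonneg _))]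
    simp only [Pe_eq hε]
    refine le_trans (le_of_eq (lintegral_congr_ae ?_)) ((lintegral_liminf_le' (u := 𝓝[>] (0 : ℝ))
      (f := fun θ x => Pe ε ‖ρ⁻¹ • (av v (ρ * θ) x - av v ρ x)‖ₑ) fun θ => ?_).trans
      (liminf_le_of_frequently_le' (Eventually.frequently ?_)))
    · filter_upwards [ae_restrict_of_ae (leb K iv), ae_restrict_mem measurableSet_ball] with x h hx
      rw [indicator_of_mem (sub hx)] at h
      rw [← cut K v hx hρ.le hρ1]
      exact (((Pe_cont ε).tendsto _).comp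
        (((h.comp l).sub_const _).const_smul ρ⁻¹).enorm).liminf_eq.symm
    · exact (Pe_cont ε).measurable.comp_aemeasurable
        ((((av_meas K iv _).sub (av_meas K iv _)).const_smul ρ⁻¹).restrict.enorm)
    · filter_upwards [Ioo_mem_nhdsGT zero_lt_one] with θ hθ
      exact step K hS hε hρ hρ1 hv hz hwg hθ.1 hθ.2
  have m1 : AEStronglyMeasurable (fun x => Ps ε ‖ρ⁻¹ • (v x - ∫ y, kk y • v (x + ρ • y))‖)
      (volume.restrict (ball 0 (1 / 4))) := by
    have c : Continuous (Ps ε) :=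
      (continuous_pow 2).add (Real.continuous_rpow_const (by linarith))
    refine (c.comp_aestronglyMeasurable (((iv.mono_set sub).aestronglyMeasurable.sub
      (av_meas K iv ρ).restrict).const_smul ρ⁻¹).norm).congr ?_
    filter_upwards [ae_restrict_mem measurableSet_ball] with x hx
    simp only [Pi.smul_apply, Pi.sub_apply, cut K v hx hρ.le hρ1]
  have n1 : 0 ≤ᵐ[volume.restrict (ball (0 : X d) (1 / 4))]
      fun x => Ps ε ‖ρ⁻¹ • (v x - ∫ y, kk y • v (x + ρ • y))‖ :=
    Eventually.of_forall fun x => P0 _ (norm_nonneg _)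
  have n2 : 0 ≤ ∫ x in ball 0 1, Ps ε ‖z x‖ := integral_nonneg fun x => P0 _ (norm_nonneg _)
  refine ⟨⟨m1, (hasFiniteIntegral_iff_ofReal n1).2 (h1.trans_lt ENNReal.ofReal_lt_top)⟩, ?_⟩
  rw [exc, Real.sq_sqrt n2, integral_eq_lintegral_of_nonneg_ae n1 m1]
  exact ENNReal.toReal_le_of_le_ofReal n2 h1

end Pool.Agent.MP_815c6c_an.N

end
end MrgPart2

-- marker of a merged file
example : 731051 + 793600 = 731051 + 793600 := rfl
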