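import Mathlib.MeasureTheory.SpecificCodomains.WithLp
import Pool.Agent.MP_815c6c_an.N.XSpec
import Pool.Agent.MP_815c6c_an.t3.One
import Pool.Agent.MP_815c6c_an.N.Fin
import Pool.Agent.MP_815c6c_an.N.Poi
import Pool.Agent.MP_815c6c_an.t3.Dich

-- ======== part 0: formerly Pool.Agent.MP_815c6c_an.N.X1
section MrgPart0

/-! Dimension one, maps into `ℝ^n`: the weak gradient is locally constant. -/

set_option autoImplicit false

noncomputable section

namespace Pool.Agent.MP_815c6c_an.N

open Set Filter Topology Metric MeasureTheory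
open scoped ContDiff

namespace X1

variable {n : ℕ}

/-- the row of a matrix with one column -/
def row (a : Fin n) : Gr 1 n →L[ℝ] X 1 := LinearMap.toContinuousLinearMap
  { toFun := fun G => WithLp.toLp 2 fun i => G (a, i)
    map_add' := fun _ _ => by ext; simp
    map_smul' := fun _ _ => by ext; simp }

theorem row_apply (a : Fin n) (G : Gr 1 n) (i : Fin 1) : row a G i = G (a, i) := rfl

theorem int_A {p : ℝ} (hp : 1 < p) {G : X 1 → Gr 1 n} {K : Set (X 1)} (hK' : IsCompact K)
    (hG : MemLp G (ENNReal.ofReal p) (volume.restrict K)) :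
    IntegrableOn (fun y => ‖G y‖ ^ (p - 2) • G y) K := by
  have : IsFiniteMeasure (volume.restrict K) := ⟨by simpa using hK'.measure_lt_top⟩
  have i1 := hG.integrable_norm_rpow'
  rw [ENNReal.toReal_ofReal (by linarith)] at i1
  refine ((integrable_const 1).add i1).mono'
    ((continuous_norm_rpow_smul (s := p - 2) (by linarith)).comp_aestronglyMeasurable hG.1)
    (Eventually.of_forall fun y => ?_)
  rw [norm_rpow_smul_norm (by linarith), Pi.add_apply]
  have h0 : 0 ≤ ‖G y‖ ^ p := by positivity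
  rcases le_total ‖G y‖ 1 with h1 | h1
  · have := Real.rpow_le_one (norm_nonneg _) h1 (z := p - 2 + 1) (by linarith)
    linarith
  · have := Real.rpow_le_rpow_of_exponent_le h1 (show p - 2 + 1 ≤ p by linarith)
    linarith

theorem row_const {p : ℝ} (hp : 1 < p) {U : Set (X 1)} {h : X 1 → X n} {G : X 1 → Gr 1 n}
    (H : Harm p U h G) {x : X 1} {r : ℝ} (hr : 0 < r) (hb : ball x r ⊆ U) (a : Fin n) :
    ∃ c, ∀ᵐ y, y ∈ ball x r → row a (‖G y‖ ^ (p - 2) • G y) = c := by
  refine T3.dbrE (A := fun y => row a (‖G y‖ ^ (p - 2) • G y)) hr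
    (fun K hK hK' => (row a).integrable_comp (int_A hp hK' (H.1 K (hK.trans hb) hK').2))
    fun φ h1 h2 h3 => ?_
  have hs : tsupport (fun y => φ y • (EuclideanSpace.single a 1 : X n)) ⊆ tsupport φ :=
    tsupport_smul_subset_left _ _
  have := H.2.2 (fun y => φ y • EuclideanSpace.single a 1) (h1.smul contDiff_const)
    (h2.of_isClosed_subset isClosed_closure hs) (hs.trans (h3.trans hb))
  rw [← this]
  congr 1; ext y
  rw [fderiv_smul_const (h1.differentiable (by simp) y), real_inner_comm, inner_gradient_left,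
    Finset.sum_eq_single a]
  · have e : row a (‖G y‖ ^ (p - 2) • G y) =
        (‖G y‖ ^ (p - 2) * G y (a, 0)) • EuclideanSpace.single (0 : Fin 1) (1 : ℝ) := by
      ext i
      rw [Subsingleton.elim i 0]
      simp [row_apply]
    rw [e, map_smul]
    simp
  · intro b _ hb
    simp [hb]
  · simp

theorem grad_const {p : ℝ} (hp : 1 < p) {U : Set (X 1)} {h : X 1 → X n} {G : X 1 → Gr 1 n}
    (H : Harm p U h G) {x : X 1} {r : ℝ} (hr : 0 < r) (hb : ball x r ⊆ U) :
    ∃ c, ∀ᵐ y, y ∈ ball x r → G y = c := by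
  choose c hc using row_const hp H hr hb
  set e : Gr 1 n := WithLp.toLp 2 fun k => c k.1 k.2
  refine ⟨‖e‖ ^ ((2 - p) / (p - 1)) • e, ?_⟩
  filter_upwards [ae_all_iff.2 hc] with y hy hy'
  have k : ‖G y‖ ^ (p - 2) • G y = e := by
    ext k
    exact congrArg (fun v : X 1 => v k.2) (hy k.1 hy')
  rw [← k]
  rcases eq_or_ne (G y) 0 with h0 | h0
  · simp [h0]
  have h1 := norm_pos_iff.2 h0
  have : p - 1 ≠ 0 := by linarith
  rw [norm_rpow_smul_norm (by linarith), ← Real.rpow_mul h1.le, smul_smul, ← Real.rpow_add h1,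
    show (p - 2 + 1) * ((2 - p) / (p - 1)) + (p - 2) = 0 by field_simp; ring]
  simp

theorem one {p : ℝ} (hp : 1 < p) (Ψ : Gr 1 n → Gr 1 n) {U : Set (X 1)} (hU : IsOpen U)
    {h : X 1 → X n} {G : X 1 → Gr 1 n} (H : Harm p U h G) :
    Rep U (fun x => Ψ (G x)) ∧ Dec 0 U fun x => Ψ (G x) := by
  constructor
  · have : ∀ x, ∃ r c, x ∈ U → 0 < r ∧ ball x r ⊆ U ∧ ∀ᵐ y, y ∈ ball x r → G y = c := by
      intro x
      by_cases hx : x ∈ U
      · obtain ⟨r, hr, hb⟩ := Metric.isOpen_iff.1 hU x hx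
        obtain ⟨c, hc⟩ := grad_const hp H hr hb
        exact ⟨r, c, fun _ => ⟨hr, hb, hc⟩⟩
      · exact ⟨0, 0, fun h => absurd h hx⟩
    choose r c hc using this
    have loc : ∀ x ∈ U, ∀ y ∈ ball x (r x), c y = c x := by
      intro x hx y hy
      obtain ⟨-, x2, x3⟩ := hc x hx
      obtain ⟨y1, -, y3⟩ := hc y (x2 hy)
      by_contra hn
      refine ((isOpen_ball.inter isOpen_ball).measure_pos volume
        ⟨y, hy, mem_ball_self y1⟩).ne' (measure_eq_zero_iff_ae_notMem.2 ?_)
      filter_upwards [x3, y3] with z z1 z2 hz using hn ((z2 hz.2).symm.trans (z1 hz.1))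
    refine ⟨fun x => Ψ (c x), fun x hx => ContDiffAt.contDiffWithinAt ?_, ?_⟩
    · refine (contDiffAt_const (c := Ψ (c x))).congr_of_eventuallyEq ?_
      filter_upwards [ball_mem_nhds x (hc x hx).1] with y hy
      rw [loc x hx y hy]
    · refine (ae_restrict_iff' hU.measurableSet).2 (measure_null_of_locally_null _ fun x hx => ?_)
      have hx' : x ∈ U := by by_contra hn; exact hx fun h => absurd h hn
      refine ⟨_, inter_mem_nhdsWithin _ (ball_mem_nhds x (hc x hx').1),
        measure_eq_zero_iff_ae_notMem.2 ?_⟩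
      filter_upwards [(hc x hx').2.2] with y hy hy'
      exact hy'.1 fun _ => by simp only [loc x hx' y hy'.2, hy hy'.2]
  · intro x r hr hb _ θ hθ
    obtain ⟨c, hc⟩ := grad_const hp H hr hb
    have h1 : 0 < θ * r := mul_pos hθ.1 hr
    have h2 : ∀ᵐ y, y ∈ ball x (θ * r) → Ψ (G y) = Ψ c := by
      filter_upwards [hc] with y hy hy'
      rw [hy (ball_subset_ball (by nlinarith [hθ.2]) hy')]
    have h3 : ⨍ y in ball x (θ * r), Ψ (G y) = Ψ c := by
      rw [setAverage_congr_fun measurableSet_ball h2]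
      exact setAverage_const (measure_ball_pos _ _ h1).ne' measure_ball_lt_top.ne _
    have h4 : ⨍ z in ball x (θ * r), ‖Ψ (G z) - Ψ c‖ ^ 2 = 0 := by
      rw [setAverage_congr_fun measurableSet_ball (g := fun _ => 0)]
      · simp
      · filter_upwards [h2] with y hy hy'
        simp [hy hy']
    simp [osc, h3, h4]

end X1

theorem x1 : X1S := fun _ p hp =>
  ⟨0, fun _ _ _ hU H => X1.one hp (fun ξ => ‖ξ‖ ^ (p / 2 - 1) • ξ) hU H⟩

end Pool.Agent.MP_815c6c_an.N

end
end MrgPart0

-- ======== part 1: formerly Pool.Agent.MP_815c6c_an.N.X2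
section MrgPart1

/-! The case `p = 2`. -/

set_option autoImplicit false

noncomputable section

namespace Pool.Agent.MP_815c6c_an.N

open Set Metric MeasureTheory Filter Topology
open scoped ContDiff RealInnerProductSpace ENNReal

namespace X2A

variable {d n : ℕ}

/-- the mean value property -/
theorem mean (k : Kit) (ev : EvS) {u : X d → X n} {z : X d → Gr d n} (S : Sol 0 u z) (j : ℕ) :
    bb (sc ((1 / 2) ^ j) z) = bb (sc 1 z) := by
  obtain ⟨Ce, ex⟩ := k.exc d n
  obtain ⟨f, C, -, -, -, -, hv⟩ := ev d n (1 / 2) (by norm_num) (by norm_num)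
  induction j with
  | zero => rw [pow_zero]
  | succ j ih =>
    obtain ⟨u', S'⟩ := (k.sca d n).solc 0 u z ((1 / 2) ^ j) 1 le_rfl (by positivity) one_pos
      (pow_le_one₀ (by norm_num) (by norm_num)) S
    simp only [one_smul] at S'
    have := ((hv u' _ (ex.ib 0 _ le_rfl S'.mu).1 (ex.ib 0 _ le_rfl S'.mG).1 S'.wg).2 0 le_rfl
      fun φ c hφ _ _ => by simpa [A] using S'.eq φ hφ).2.1
    rw [mul_zero, norm_le_zero_iff, sub_eq_zero] at this
    rw [← ih]
    refine Eq.trans (congrArg bb (funext fun x => ?_)) this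
    simp only [sc, smul_smul, pow_succ]

theorem exc0 (w : X d → Gr d n) : exc 0 w ≤ 2 * L2 w := by
  have p : 0 ≤ ∫ x in ball (0 : X d) 1, ‖w x‖ ^ 2 := integral_nonneg fun _ => sq_nonneg _
  refine Real.sqrt_le_iff.2 ⟨mul_nonneg zero_le_two (Real.sqrt_nonneg _), ?_⟩
  simp only [Ps, add_zero, Real.rpow_two, ← two_mul]
  rw [integral_const_mul, mul_pow, L2, Real.sq_sqrt p]
  linarith

theorem uni (k : Kit) (ev : EvS) (mol : MolS) : ∃ C : ℝ, 0 ≤ C ∧
    ∀ (u : X d → X n) (G : X d → Gr d n) (c : Gr d n), Sol 0 u G →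
    ∃ W : X d → Gr d n, ContDiffOn ℝ 1 W (ball 0 (1 / 2)) ∧
      W =ᵐ[volume.restrict (ball 0 (1 / 2))] G ∧
      ∀ x ∈ ball (0 : X d) (1 / 2), ∀ y ∈ ball (0 : X d) (1 / 2),
        ‖W x - W y‖ ≤ C * L2 (fun x => G x - c) * ‖x - y‖ := by
  have ke := k.ker d n
  obtain ⟨Ce, ex⟩ := k.exc d n
  obtain ⟨Cb, hCb, hb⟩ := ke.bd
  have := ex.pos
  refine ⟨2 * (Cb * (Ce * (((1 / 2) ^ d)⁻¹ * 2))), by positivity, fun u G c S => ?_⟩
  obtain ⟨m1, m2⟩ := mol d n G (ex.ib 0 _ le_rfl S.mG).1
  obtain ⟨m1, m3⟩ := m1 1 one_pos le_rfl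
  have hx : ∀ x ∈ ball (0 : X d) (1 / 2), ‖x‖ + 1 / 2 ≤ 1 := fun x h => by
    linarith [mem_ball_zero_iff.1 h]
  refine ⟨fun y => bb (sc 1 (sh y (1 / 2) G)), ?_, ?_, fun x h y h' => ?_⟩
  · rw [show (1 : WithTop ℕ∞) = 0 + 1 from (zero_add 1).symm,
      contDiffOn_succ_iff_fderiv_of_isOpen isOpen_ball]
    exact ⟨fun x h => (m1 x h).differentiableAt.differentiableWithinAt, by simp,
      contDiffOn_zero.2 ((ap.continuous.comp_continuousOn (m3.const_smul (2 : ℝ))).congr
        fun x h => (m1 x h).fderiv)⟩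
  · filter_upwards [m2 (1 / 2) (by norm_num) (by norm_num), ae_restrict_mem measurableSet_ball]
      with x t h
    have S' := (k.sca d n).sol 0 u G x (1 / 2) 1 le_rfl (by norm_num) one_pos (hx x h) S
    simp only [one_smul] at S'
    have e := mean k ev (z := sh x (1 / 2) G) S'
    simp only [e] at t
    exact tendsto_nhds_unique tendsto_const_nhds t
  · refine (convex_ball _ _).norm_image_sub_le_of_norm_hasFDerivWithin_le
      (fun x h => (m1 x h).hasFDerivWithinAt) (fun x h => ?_) h' h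
    have mc : Mp 0 fun x => G x - c := S.mG.sub (ex.mp_c 0 _ continuous_const)
    have ms := ex.mp_sh 0 _ x (1 / 2) (by norm_num) (hx x h) mc
    have is := (ex.ib 0 _ le_rfl ms).1
    have e := ke.HH_add _ _ 1 1 is ((k.par d n).ib_c (fun y => c + ap 0 y) (by fun_prop))
    rw [ke.HH_aff] at e
    have e' : Ht 1 (sh x (1 / 2) G) = HH (sh x (1 / 2) fun x => G x - c) := by
      rw [Ht, inv_one, one_smul, show sc 1 (sh x (1 / 2) G) = _ from funext fun y => ?_, e]
      · simp
      · simp [sc, sh]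
    obtain ⟨l1, l2⟩ := ex.l1 0 _ le_rfl ms
    have l3 := ex.sh_le 0 _ x (1 / 2) le_rfl (by norm_num) (hx x h) mc
    refine ((k.bas d n).n_apL _).trans ?_
    rw [norm_smul, Real.norm_two, e']
    simp only [mul_assoc]
    gcongr
    refine (hb _ is).2.trans ?_
    gcongr
    refine l1.trans ?_
    gcongr
    refine l2.trans (l3.trans ?_)
    gcongr
    exact exc0 _

end X2A

open FinA in
theorem x2 : Kit → EvS → MolS → LocS → GluS → OscS → X2S := by
  intro kit ev mol loc glue osc d n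
  obtain ⟨C, C0, hC⟩ := X2A.uni (d := d) (n := n) kit ev mol
  obtain ⟨c, hc⟩ := osc d n (2 * C) (by positivity)
  refine ⟨c, fun U h G hU H => ?_⟩
  rw [show (fun x => ‖G x‖ ^ ((2 : ℝ) / 2 - 1) • G x) = G from funext fun x => by norm_num]
  rw [← add_zero (2 : ℝ)] at H
  refine ⟨glue d n U _ hU fun x hx => ?_, fun x r r0 hr hX => ?_⟩
  · obtain ⟨r, r0, hr⟩ := (Metric.nhds_basis_closedBall.mem_iff).1 (hU.mem_nhds hx)
    obtain ⟨W, c1, e, -⟩ := hC _ _ 0 (loc d n 0 U h G x r le_rfl r0 hr H)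
    refine ⟨r * (1 / 2), by positivity, fun y => W (r⁻¹ • (y - x)),
      c1.comp (by fun_prop) fun y hy => mem_inv r0 hy, ae_sc x r0 ?_⟩
    filter_upwards [e] with z hz
    rw [inv_sc x r0, hz]
    rfl
  · have r2 : 0 < r / 2 := half_pos r0
    obtain ⟨W, -, e, l⟩ := hC _ _ (⨍ w in ball x r, G w) (loc d n 0 U h G x (r / 2) le_rfl r2
      ((closedBall_subset_ball (half_lt_self r0)).trans hr) H)
    have r4 : r / 4 = r / 2 * (1 / 2) := by ring
    refine hc _ (fun y => W ((r / 2)⁻¹ • (y - x))) x r r0 hX ?_ fun y hy y' hy' => ?_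
    · rw [r4]
      refine ae_sc x r2 ?_
      filter_upwards [e] with z hz
      rw [inv_sc x r2, hz]
      rfl
    · rw [r4] at hy hy'
      refine (l _ (mem_inv r2 hy) _ (mem_inv r2 hy')).trans_eq ?_
      rw [← smul_sub, sub_sub_sub_cancel_right, norm_smul, norm_inv, Real.norm_of_nonneg r2.le]
      field_simp

end Pool.Agent.MP_815c6c_an.N

end
end MrgPart1

-- ======== part 2: formerly Pool.Agent.MP_815c6c_an.N.Xd
section MrgPart2

/-! Planar duality: the exponents slightly below two. -/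

set_option autoImplicit false

noncomputable section

namespace Pool.Agent.MP_815c6c_an.N

open Set Metric MeasureTheory Filter Topology
open scoped ContDiff ENNReal

namespace XdA

open XPotA FinA

variable {n : ℕ}

/-- the rotation of the rows -/
def J : Gr 2 n →ₗᵢ[ℝ] Gr 2 n where
  toFun G := WithLp.toLp 2 fun k => if k.2 = 0 then -G (k.1, 1) else G (k.1, 0)
  map_add' _ _ := by ext k; by_cases h : k.2 = 0 <;> simp [h, add_comm]
  map_smul' _ _ := by ext k; by_cases h : k.2 = 0 <;> simp [h]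
  norm_map' G := by
    simp [EuclideanSpace.norm_eq, Fintype.sum_prod_type, Fin.sum_univ_two, add_comm]

lemma J0 (G : Gr 2 n) (a : Fin n) : J G (a, 0) = -G (a, 1) := rfl
lemma J1 (G : Gr 2 n) (a : Fin n) : J G (a, 1) = G (a, 0) := rfl

lemma JJ (G : Gr 2 n) : -J (J G) = G := by
  ext ⟨a, i⟩
  fin_cases i <;> simp [J0, J1]

lemma nA {s : ℝ} (hs : 0 < s + 1) (G : Gr 2 n) : ‖‖G‖ ^ s • G‖ = ‖G‖ ^ (s + 1) := by
  rw [norm_smul, Real.norm_of_nonneg (by positivity), Real.rpow_add_one' (norm_nonneg _) hs.ne']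

lemma cA {s : ℝ} (hs : 0 < s + 1) (t : ℝ) (G : Gr 2 n) :
    ‖J (‖G‖ ^ s • G)‖ ^ t • J (‖G‖ ^ s • G) = J (‖G‖ ^ ((s + 1) * t + s) • G) := by
  rw [J.norm_map, ← map_smul, nA hs, smul_smul, ← Real.rpow_mul (norm_nonneg _)]
  rcases eq_or_ne G 0 with rfl | h
  · simp
  · rw [Real.rpow_add (norm_pos_iff.2 h)]

lemma oscJ (f : X 2 → Gr 2 n) (x : X 2) (r : ℝ) : osc (fun y => J (f y)) x r = osc f x r := by
  have : ⨍ y in ball x r, J (f y) = J (⨍ y in ball x r, f y) := by
    rw [average_eq, average_eq, J.integral_comp_comm, map_smul]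
  simp only [osc, this, ← map_sub, J.norm_map]

lemma osc3 {f : X 2 → Gr 2 n} {x : X 2} {r ρ : ℝ} (h0 : 0 < ρ) (h1 : ρ ≤ r) (h2 : r ≤ 3 * ρ)
    (hf : MemLp f 2 (volume.restrict (ball x r))) : osc f x ρ ≤ 3 * osc f x r := by
  have sub : volume.restrict (ball x ρ) ≤ volume.restrict (ball x r) :=
    Measure.restrict_mono (ball_subset_ball h1) le_rfl
  have r0 := h0.trans_le h1
  have O0 : 0 ≤ osc f x r := Real.sqrt_nonneg _
  refine osc_le h0 (hf.mono_measure sub) (⨍ y in ball x r, f y) (by positivity) ?_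
  refine (integral_mono_measure sub (ae_of_all _ fun _ => sq_nonneg _) (sq_int hf _)).trans ?_
  rw [osc_sq f r0, vol_eq x r0, vol_eq x h0]
  have V0 := vol_pos (0 : X 2) one_pos
  have t : r ^ 2 ≤ (3 * ρ) ^ 2 := pow_le_pow_left₀ r0.le h2 2
  nlinarith [mul_le_mul_of_nonneg_right t (mul_nonneg V0.le (sq_nonneg (osc f x r)))]

lemma Te.der {U : Set (X 2)} {φ : X 2 → ℝ} (h : Te U φ) (v : X 2) :
    Te U fun x => fderiv ℝ φ x v :=
  ⟨(h.1.fderiv_right (m := ∞) (by simp)).clm_apply contDiff_const, h.2.1.fderiv_apply ℝ v,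
    (tsupport_fderiv_apply_subset ℝ v).trans h.2.2⟩

lemma ig {U : Set (X 2)} {g φ : X 2 → ℝ} (hg : ∀ K ⊆ U, IsCompact K → IntegrableOn g K)
    (h : Te U φ) : Integrable fun x => φ x * g x := by
  obtain ⟨B, hB⟩ := h.2.1.exists_bound_of_continuous h.1.continuous
  exact (integrableOn_iff_integrable_of_support_subset (s := tsupport φ) fun x hx => by
    by_contra h'
    exact hx (by simp [image_eq_zero_of_notMem_tsupport h'])).1
    ((hg _ h.2.2 h.2.1).bdd_mul (c := B) h.1.continuous.aestronglyMeasurable (ae_of_all _ hB))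

lemma dv (L : X 2 →L[ℝ] ℝ) (v : X 2) :
    L v = v 0 * L (EuclideanSpace.single 0 1) + v 1 * L (EuclideanSpace.single 1 1) := by
  conv_lhs => rw [show v = v 0 • EuclideanSpace.single 0 1 + v 1 • EuclideanSpace.single 1 1 by
    ext i; fin_cases i <;> simp]
  simp

lemma dual {p : ℝ} (p1 : 1 < p) {U : Set (X 2)} {h : X 2 → X n} {G : X 2 → Gr 2 n}
    (H : Harm p U h G) {x : X 2} {r : ℝ} (hr : 0 < r) (hU : ball x (3 * r) ⊆ U) :
    ∃ h', Harm (p / (p - 1)) (ball x r) h' fun y => J (‖G y‖ ^ (p - 2) • G y) := by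
  obtain ⟨H1, H2, H3⟩ := H
  have p0 : 0 < p - 1 := sub_pos.2 p1
  have s0 : 0 < p - 2 + 1 := by linarith
  obtain ⟨q, hq⟩ : ∃ q, q = ENNReal.ofReal (p / (p - 1)) := ⟨_, rfl⟩
  have q1 : 1 ≤ q := by
    rw [hq, ENNReal.one_le_ofReal, one_le_div p0]; linarith
  have q2 : q ≠ ⊤ := hq ▸ ENNReal.ofReal_ne_top
  have mG : ∀ K ⊆ U, IsCompact K →
      MemLp (fun y => J (‖G y‖ ^ (p - 2) • G y)) q (volume.restrict K) := fun K a b => by
    have m := (H1 K a b).2
    have := m.norm_rpow_div (ENNReal.ofReal (p - 1))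
    rw [← ENNReal.ofReal_div_of_pos p0, ← hq, ENNReal.toReal_ofReal p0.le] at this
    refine this.congr_norm (J.continuous.comp_aestronglyMeasurable
      (((m.1.norm.aemeasurable.pow_const _).smul m.1.aemeasurable).aestronglyMeasurable))
      (ae_of_all _ fun y => ?_)
    rw [J.norm_map, nA s0, Real.norm_of_nonneg (by positivity)]
    congr 1
    ring
  have s1 : closedBall x (2 * r) ⊆ U := (closedBall_subset_ball (by linarith)).trans hU
  have s2 : ball x r ⊆ closedBall x (2 * r) :=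
    (ball_subset_ball (by linarith)).trans ball_subset_closedBall
  obtain ⟨Γ, hΓ⟩ : ∃ Γ : X 2 → Gr 2 n,
    Γ = (closedBall x (2 * r)).indicator fun y => J (‖G y‖ ^ (p - 2) • G y) := ⟨_, rfl⟩
  have m0 := mG _ s1 (isCompact_closedBall _ _)
  have : IsFiniteMeasure (volume.restrict (closedBall x (2 * r))) :=
    isFiniteMeasure_restrict.2 measure_closedBall_lt_top.ne
  have m1 : MemLp Γ q volume := hΓ ▸ (memLp_indicator_iff_restrict measurableSet_closedBall).2 m0
  have m2 : Integrable Γ :=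
    hΓ ▸ (integrable_indicator_iff measurableSet_closedBall).2 (m0.integrable q1)
  have eΓ : ∀ y ∈ closedBall x (2 * r), Γ y = J (‖G y‖ ^ (p - 2) • G y) := fun y hy => by
    rw [hΓ, indicator_of_mem hy]
  obtain ⟨R, hR⟩ : ∃ R : Fin n → Gr 2 n →L[ℝ] X 2 →L[ℝ] ℝ, ∀ a A v, R a A v = act A v a :=
    ⟨fun a => (ContinuousLinearMap.compL ℝ _ _ _ (EuclideanSpace.proj a)).comp act,
      fun _ _ _ => rfl⟩
  have cl : ∀ a, Cl (ball x (2 * r)) fun y => R a (Γ y) := fun a φ hφ v w => by
    have i : ∀ v w, Integrable fun y => fderiv ℝ φ y v • R a (Γ y) w := fun v w =>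
      ig (fun K _ _ => (((R a).integrable_comp m2).apply_continuousLinearMap w).integrableOn)
        (Te.der hφ v)
    have := H3 (fun y => φ y • EuclideanSpace.single a 1) (hφ.1.smul contDiff_const)
      hφ.2.1.smul_right ((tsupport_smul_subset_left _ _).trans
        (hφ.2.2.trans (ball_subset_closedBall.trans s1)))
    rw [← sub_eq_zero, ← integral_sub (i v w) (i w v), ← mul_zero (v 0 * w 1 - v 1 * w 0), ← this,
      ← integral_const_mul]
    refine integral_congr_ae (ae_of_all _ fun y => ?_)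
    simp only [fderiv_smul_const (hφ.1.differentiable (by simp) y)]
    by_cases hy : y ∈ closedBall x (2 * r)
    · rw [eΓ y hy, hR, hR, dv _ v, dv _ w, Finset.sum_eq_single a (fun b _ hb => by simp [hb])
        (by simp)]
      simp [act_apply, J0, J1]
      ring
    · simp [image_eq_zero_of_notMem_tsupport fun h' =>
        hy (ball_subset_closedBall (hφ.2.2 (tsupport_fderiv_subset ℝ h')))]
  choose u u1 u2 using fun a => pot q1 q2 ((R a).comp_memLp' m1) ((R a).integrable_comp m2) hr (cl a)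
  have s3 := s2.trans s1
  refine ⟨fun y => WithLp.toLp 2 fun a => u a y, fun K a b => ?_, fun φ a b c k i => ?_,
    fun φ a b c => ?_⟩
  · rw [← hq]
    exact ⟨memLp_piLp_iff.2 fun k => u1 k K a b, mG K (a.trans s3) b⟩
  · have := u2 k φ ⟨a, b, c⟩ (EuclideanSpace.single i 1)
    simp only [smul_eq_mul, mul_comm (fderiv ℝ φ _ _), Function.comp] at this
    rw [this]
    congr 1
    refine integral_congr_ae (ae_of_all _ fun y => ?_)
    by_cases hy : y ∈ tsupport φ
    · simp only [hR, eΓ y (s2 (c hy)), act_apply]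
      rw [Finset.sum_eq_single i (fun b _ hb => by simp [hb]) (by simp)]
      simp
    · simp [image_eq_zero_of_notMem_tsupport hy]
  · have t : ∀ k, Te U fun y => φ y k := fun k =>
      ⟨(EuclideanSpace.proj k : X n →L[ℝ] ℝ).contDiff.comp a,
        b.comp_left (g := fun z : X n => z k) rfl,
        (tsupport_comp_subset (g := fun z : X n => z k) rfl φ).trans (c.trans s3)⟩
    have e : ∀ y v k, fderiv ℝ φ y v k = fderiv ℝ (fun y => φ y k) y v := fun y v k => by
      have := ((EuclideanSpace.proj k : X n →L[ℝ] ℝ).hasFDerivAt.comp y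
        (a.differentiable (by simp) y).hasFDerivAt).fderiv
      exact (congrArg (fun L => L v) this).symm
    have i : ∀ k v j, Integrable fun y => fderiv ℝ (fun y => φ y k) y v * G y (k, j) :=
      fun k v j => ig (fun K a b => by
        have : IsFiniteMeasure (volume.restrict K) :=
          isFiniteMeasure_restrict.2 b.measure_lt_top.ne
        exact (memLp_piLp_iff.1 (H1 K a b).2 (k, j)).integrable
          (ENNReal.one_le_ofReal.2 p1.le)) (Te.der (t k) v)
    have e2 : ∀ y k j, ‖J (‖G y‖ ^ (p - 2) • G y)‖ ^ (p / (p - 1) - 2) *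
        J (‖G y‖ ^ (p - 2) • G y) (k, j) = J (G y) (k, j) := fun y k j => by
      have := cA s0 (p / (p - 1) - 2) (G y)
      rw [show (p - 2 + 1) * (p / (p - 1) - 2) + (p - 2) = 0 by field_simp; ring, Real.rpow_zero,
        one_smul] at this
      rw [← this]
      rfl
    simp only [e2, Fin.sum_univ_two, J0, J1, e, neg_mul, mul_comm (G _ _), neg_add_eq_sub]
    rw [integral_finsetSum _ fun k _ => by exact (i k _ _).sub (i k _ _)]
    refine Finset.sum_eq_zero fun k _ => ?_
    have d0 := Te.der (t k) (EuclideanSpace.single 0 1)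
    have d1 := Te.der (t k) (EuclideanSpace.single 1 1)
    rw [integral_sub (i k _ _) (i k _ _), sub_eq_zero, ← neg_inj, ← H2 _ d0.1 d0.2.1 d0.2.2,
      ← H2 _ d1.1 d1.2.1 d1.2.2]
    refine integral_congr_ae (ae_of_all _ fun y => ?_)
    have df := ((t k).1.fderiv_right (m := ∞) (by simp)).differentiable (by simp) y
    have sy := ((t k).1.contDiffAt.isSymmSndFDerivAt (x := y) (by
      rw [minSmoothness_of_isRCLikeNormedField]; exact WithTop.coe_le_coe.2 le_top)).eq
      (EuclideanSpace.single 0 1) (EuclideanSpace.single 1 1)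
    simp only [fderiv_clm_apply df (differentiableAt_const _)]
    simp [sy]

end XdA

open XdA in
theorem xd : GluS → ∀ n, FinS 2 n → XdS n := by
  rintro glue n ⟨ε, e0, fin⟩
  refine ⟨min (1 / 2) (ε / 2), by positivity, fun p p1 p2 => ?_⟩
  have a1 := min_le_left (1 / 2) (ε / 2)
  have a2 := min_le_right (1 / 2) (ε / 2)
  have p0 : 0 < p - 1 := by linarith
  obtain ⟨c, hc⟩ := fin (p / (p - 1)) (p / (p - 1) / 2) (by rw [lt_div_iff₀ p0]; linarith)
    (by rw [div_lt_iff₀ p0]; nlinarith) le_rfl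
  refine ⟨9 * (|c| + 1), fun U h G hU H => ?_⟩
  have key : ∀ x r, 0 < r → ball x (3 * r) ⊆ U →
      Rep (ball x r) (fun y => J (‖G y‖ ^ (p / 2 - 1) • G y)) ∧
      Dec c (ball x r) fun y => J (‖G y‖ ^ (p / 2 - 1) • G y) := fun x r r0 hr => by
    obtain ⟨h', H'⟩ := dual (by linarith) H r0 hr
    have := hc _ _ _ isOpen_ball H'
    simp only [cA (show 0 < p - 2 + 1 by linarith)] at this
    rwa [show (p - 2 + 1) * (p / (p - 1) / 2 - 1) + (p - 2) = p / 2 - 1 by
      field_simp; ring] at this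
  refine ⟨glue 2 n U _ hU fun x hx => ?_, fun x r r0 hr hX θ hθ => ?_⟩
  · obtain ⟨r, r0, hr⟩ := Metric.isOpen_iff.1 hU x hx
    obtain ⟨W, w1, w2⟩ := (key x (r / 3) (by positivity) (by rwa [mul_div_cancel₀ _ three_ne_zero])).1
    refine ⟨r / 3, by positivity, fun y => -J (W y),
      (J.contDiff.comp_contDiffOn w1).neg, ?_⟩
    filter_upwards [w2] with y hy
    rw [hy, JJ]
  · have O0 : 0 ≤ osc (fun y => ‖G y‖ ^ (p / 2 - 1) • G y) x r := Real.sqrt_nonneg _
    have θ0 := hθ.1
    have c0 := abs_nonneg c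
    rcases le_total (3 * θ) 1 with t | t
    · have := (key x (r / 3) (by positivity) (by rwa [mul_div_cancel₀ _ three_ne_zero])).2 x (r / 3)
        (by positivity) Subset.rfl (J.toContinuousLinearMap.comp_memLp' (hX.mono_measure
          (Measure.restrict_mono (ball_subset_ball (by linarith)) le_rfl))) (3 * θ)
        ⟨by positivity, t⟩
      rw [oscJ, oscJ, show 3 * θ * (r / 3) = θ * r by ring] at this
      have b := osc3 (ρ := r / 3) (by positivity) (by linarith) (by linarith) hX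
      have O1 : 0 ≤ osc (fun y => ‖G y‖ ^ (p / 2 - 1) • G y) x (r / 3) := Real.sqrt_nonneg _
      refine this.trans ((mul_le_mul (mul_le_mul_of_nonneg_right (le_abs_self c) (by positivity))
        b O1 (by positivity)).trans ?_)
      nlinarith [mul_nonneg θ0.le O0]
    · refine (osc3 (by positivity) (mul_le_of_le_one_left r0.le hθ.2) (by nlinarith) hX).trans ?_
      nlinarith [mul_nonneg (mul_nonneg c0 θ0.le) O0]

end Pool.Agent.MP_815c6c_an.N

end
end MrgPart2

-- ======== part 3: formerly Pool.Agent.MP_815c6c_an.N.Xn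
section MrgPart3

/-! The scalar counterexample as a map with values in a space of any dimension. -/

set_option autoImplicit false

noncomputable section

namespace Pool.Agent.MP_815c6c_an.N

open Set Metric MeasureTheory Filter Topology
open scoped ContDiff RealInnerProductSpace ENNReal

namespace Xn

variable {d n : ℕ}

/-- one row of a matrix -/
def row (a : Fin n) : Gr d n →L[ℝ] X d := LinearMap.toContinuousLinearMap
  { toFun := fun G => WithLp.toLp 2 fun i => G (a, i)
    map_add' := fun _ _ => rfl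
    map_smul' := fun _ _ => rfl }

theorem row_out (a : Fin n) (v : X d) : row a (out (EuclideanSpace.single a 1) v) = v := by
  ext i
  show out (EuclideanSpace.single a 1) v (a, i) = v i
  simp [out_apply]

theorem osc_comp (J : X d →ₗᵢ[ℝ] Gr d n) (f : X d → X d) (x : X d) (r : ℝ) :
    osc (fun z => J (f z)) x r = T3.osc f x r := by
  have e : ⨍ y in ball x r, J (f y) = J (⨍ y in ball x r, f y) := J.integral_comp_comm f
  simp only [osc, T3.osc, e, ← map_sub, J.norm_map]

end Xn

theorem xn : BasS → XnS := by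
  intro bas d n p hd hn p1 p2
  obtain ⟨h, G, H⟩ := T3.three d p hd p1 p2
  let a0 : Fin n := ⟨0, hn⟩
  let e0 : X n := EuclideanSpace.single a0 1
  have nJ : ∀ v : X d, ‖out e0 v‖ = ‖v‖ := fun v => by simp [(bas d n).n_out, e0]
  let J : X d →ₗᵢ[ℝ] Gr d n := ⟨(out e0).toLinearMap, nJ⟩
  have eJ : (fun x => ‖out e0 (G x)‖ ^ (p / 2 - 1) • out e0 (G x)) =
      fun x => J (‖G x‖ ^ (p / 2 - 1) • G x) := funext fun x => by
    rw [nJ, map_smul]
    rfl
  refine ⟨fun x => h x • e0, fun x => out e0 (G x), fun U => ⟨⟨fun K a b => ⟨?_, ?_⟩,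
    fun φ a b c s i => ?_, fun φ a b c => ?_⟩, fun a b => ⟨?_, ?_⟩⟩⟩
  · exact (ContinuousLinearMap.toSpanSingleton ℝ e0).comp_memLp' ((H U).1.1 K a b).1
  · exact (out e0).comp_memLp' ((H U).1.1 K a b).2
  · have := congrArg (e0 s * ·) (((H U).1.2 φ a b c).1 (EuclideanSpace.single i 1))
    simp only [mul_neg, ← integral_const_mul] at this
    refine (integral_congr_ae (Eventually.of_forall fun x => ?_)).trans (this.trans
      (congrArg Neg.neg (integral_congr_ae (Eventually.of_forall fun x => ?_))))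
    · simp only [PiLp.smul_apply, smul_eq_mul]
      ring
    · simp only [out_apply, EuclideanSpace.inner_single_right, one_mul, conj_trivial]
      ring
  · let π : X n →L[ℝ] ℝ := EuclideanSpace.proj a0
    have s : tsupport (π ∘ φ) ⊆ tsupport φ := tsupport_comp_subset (map_zero π) φ
    rw [← ((H U).1.2 (π ∘ φ) (π.contDiff.comp a) (b.comp_left (map_zero π)) (s.trans c)).2]
    refine integral_congr_ae (Eventually.of_forall fun x => ?_)
    have g : ∀ i, gradient (π ∘ φ) x i = fderiv ℝ φ x (EuclideanSpace.single i 1) a0 := fun i => by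
      have := inner_gradient_left (f := π ∘ φ) (x := x) (y := EuclideanSpace.single i 1)
      rw [EuclideanSpace.inner_single_right, one_mul, conj_trivial,
        (π.hasFDerivAt.comp x (a.differentiable (by simp) x).hasFDerivAt).fderiv] at this
      exact this
    simp only [nJ, out_apply, PiLp.inner_apply, g]
    rw [Finset.sum_eq_single a0 (fun s _ hs => by simp [e0, hs]) (by simp)]
    refine Finset.sum_congr rfl fun i _ => ?_
    simp [e0]
    ring
  · rintro ⟨W, w1, w2⟩
    refine ((H U).2 a b).1 ⟨Xn.row a0 ∘ W, (Xn.row a0).contDiff.comp_contDiffOn w1,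
      w2.mono fun x hx => ?_⟩
    simp only [Function.comp, hx, nJ, map_smul]
    rw [Xn.row_out]
  · rintro ⟨c, hc⟩
    refine ((H U).2 a b).2 ⟨c, fun x r r0 hU m θ hθ => ?_⟩
    rw [eJ] at hc
    simpa only [Xn.osc_comp] using hc x r r0 hU (J.toContinuousLinearMap.comp_memLp' m) θ hθ

end Pool.Agent.MP_815c6c_an.N

end
end MrgPart3

-- ======== part 4: formerly Pool.Agent.MP_815c6c_an.N.Near
section MrgPart4

/-! The complete answer for `p` near two. -/

set_option autoImplicit false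

namespace Pool.Agent.MP_815c6c_an.N

theorem near (kit : Kit) (ev : EvS) (mol : MolS) (loc : LocS) (fin : ∀ d n, 1 ≤ d → FinS d n)
    (d n : ℕ) (hd : 1 ≤ d) (hn : 1 ≤ n) : ∃ ε : ℝ, 0 < ε ∧ ∀ p : ℝ, |p - 2| < ε →
      (d ≤ 2 ∨ 2 ≤ p → Yes d n p) ∧ (¬(d ≤ 2 ∨ 2 ≤ p) → No d n p) ∧
      (2 < p → ∀ b : ℝ, p / 2 ≤ b → ∃ c : ℝ,
        ∀ (U : Set (X d)) (h : X d → X n) (G : X d → Gr d n), IsOpen U → Harm p U h G →
          Rep U (fun x => ‖G x‖ ^ (b - 1) • G x) ∧ Dec c U fun x => ‖G x‖ ^ (b - 1) • G x) := by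
  obtain ⟨a, a0, ha⟩ := fin d n hd
  obtain ⟨b, b0, hb⟩ := xd glu n (fin 2 n one_le_two)
  refine ⟨min (3 / 10) (min a b), by positivity, fun p hp => ?_⟩
  simp only [lt_min_iff, abs_lt] at hp
  obtain ⟨⟨p1, p2⟩, ⟨-, p4⟩, p5, -⟩ := hp
  refine ⟨fun h => ?_, fun h => ?_, fun h c hc => ha p c h (by linarith) hc⟩
  · rcases lt_trichotomy p 2 with q | rfl | q
    · have : d = 1 ∨ d = 2 := by
        rcases h with h | h
        · omega
        · exact absurd q h.not_gt
      rcases this with rfl | rfl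
      · exact x1 n p (by linarith)
      · exact hb p (by linarith) q
    · exact x2 kit ev mol loc glu oscS d n
    · exact ha p _ q (by linarith) le_rfl
  · rw [not_or, not_le, not_le] at h
    exact xn kit.bas d n p h.1 hn (by linarith) h.2

end Pool.Agent.MP_815c6c_an.N

end MrgPart4

-- marker of a merged file
example : 731051 + 145470 = 731051 + 145470 := rfl
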