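import Mathlib.Algebra.Order.Star.Real
import Mathlib.Algebra.Ring.IsFormallyReal
import Pool.Agent.MP_815c6c_an.N.XSpec

/-! The algebra of planar Hessians. -/

set_option autoImplicit false

noncomputable section

namespace Pool.Agent.MP_815c6c_an.N

open scoped RealInnerProductSpace

namespace Pl0A

variable {d n : ℕ}

theorem inn (u v : X d) : ⟪u, v⟫ = ∑ i, u i * v i := by
  rw [PiLp.inner_apply]
  exact Finset.sum_congr rfl fun i _ => by simp [mul_comm]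

theorem inn_self (u : X d) (h : ‖u‖ = 1) : ⟪u, u⟫ = 1 := by
  rw [real_inner_self_eq_norm_sq, h]; norm_num

theorem st0 (Z : He d n) (h : Pln Z) : St0 Z := by
  rcases h with rfl | ⟨e₁, e₂, α, β, h1, h2, h12, hZ⟩
  · exact ⟨fun _ _ _ => rfl, map_zero _⟩
  · refine ⟨fun a i j => by rw [hZ, hZ]; ring, ?_⟩
    ext a
    have a1 := inn_self e₁ h1
    have a2 := inn_self e₂ h2
    rw [inn] at a1 a2 h12
    have : ∑ i, Z (a, i, i) = α a * (∑ i, e₁ i * e₁ i - ∑ i, e₂ i * e₂ i) +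
        β a * (2 * ∑ i, e₁ i * e₂ i) := by
      rw [← Finset.sum_sub_distrib, Finset.mul_sum, Finset.mul_sum, Finset.mul_sum,
        ← Finset.sum_add_distrib]
      exact Finset.sum_congr rfl fun i _ => by rw [hZ]; ring
    rw [trc_apply, this, a1, a2, h12]
    simp

theorem smul (Z : He d n) (t : ℝ) (h : Pln Z) : Pln (t • Z) := by
  rcases h with rfl | ⟨e₁, e₂, α, β, h1, h2, h12, hZ⟩
  · exact Or.inl (smul_zero t)
  · refine Or.inr ⟨e₁, e₂, t • α, t • β, h1, h2, h12, fun a i j => ?_⟩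
    simp only [PiLp.smul_apply, smul_eq_mul]
    rw [hZ]; ring

theorem row_zero (H : He d n) (k : Fin d) (h : sd H k = 0) (a : Fin n) (l : Fin d) :
    H (a, k, l) = 0 := by
  have h1 := (Finset.sum_eq_zero_iff_of_nonneg
    (fun a _ => Finset.sum_nonneg fun j _ => sq_nonneg (H (a, k, j)))).1 h a (Finset.mem_univ a)
  have h2 := (Finset.sum_eq_zero_iff_of_nonneg
    (fun j _ => sq_nonneg (H (a, k, j)))).1 h1 l (Finset.mem_univ l)
  exact pow_eq_zero_iff (two_ne_zero) |>.1 h2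

theorem supp (H : He d n) (i j : Fin d) (hH : St0 H) (hij : i ≠ j)
    (h : ∀ k, k ≠ i → k ≠ j → sd H k = 0) : Pln H := by
  have hr : ∀ a k l, k ≠ i → k ≠ j → H (a, k, l) = 0 := fun a k l h1 h2 =>
    row_zero H k (h k h1 h2) a l
  have hc : ∀ a k l, l ≠ i → l ≠ j → H (a, k, l) = 0 := fun a k l h1 h2 => by
    rw [hH.1 a k l]; exact hr a l k h1 h2
  have ht : ∀ a, H (a, j, j) = -H (a, i, i) := fun a => by
    have h0 : trc H a = 0 := by rw [hH.2]; rfl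
    rw [trc_apply, Finset.sum_eq_add i j hij (fun k _ hk => hr a k k hk.1 hk.2)
      (fun h => absurd (Finset.mem_univ i) h) (fun h => absurd (Finset.mem_univ j) h)] at h0
    linarith
  refine Or.inr ⟨EuclideanSpace.single i 1, EuclideanSpace.single j 1,
    WithLp.toLp 2 fun a => H (a, i, i), WithLp.toLp 2 fun a => H (a, i, j), by simp, by simp,
    by simp [EuclideanSpace.inner_single_left, hij], fun a k l => ?_⟩
  have hji : j ≠ i := hij.symm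
  have hs : H (a, j, i) = H (a, i, j) := hH.1 a j i
  by_cases hki : k = i
  · by_cases hli : l = i
    · subst hki; subst hli; simp [hij]
    · by_cases hlj : l = j
      · subst hki; subst hlj; simp [hij, hji]
      · rw [hc a k l hli hlj]; simp [hli, hlj]
  · by_cases hkj : k = j
    · by_cases hli : l = i
      · subst hkj; subst hli; simp [hij, hji, hs]
      · by_cases hlj : l = j
        · subst hkj; subst hlj; simp [hji, ht]
        · rw [hc a k l hli hlj]; simp [hli, hlj]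
    · rw [hr a k l hki hkj]; simp [hki, hkj]

theorem two (H : He d n) (hd : d ≤ 2) (hH : St0 H) : Pln H := by
  rcases Nat.lt_or_ge d 2 with h | h
  · left
    ext ⟨a, i, j⟩
    have hij : ∀ k : Fin d, k = i := fun k => Fin.ext (by have := k.2; have := i.2; omega)
    have h0 : trc H a = 0 := by rw [hH.2]; rfl
    rw [trc_apply, Finset.sum_eq_single i (fun k _ hk => absurd (hij k) hk)
      (fun h => absurd (Finset.mem_univ i) h)] at h0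
    rw [hij j]; exact h0
  · refine supp H ⟨0, by omega⟩ ⟨1, by omega⟩ hH (by simp [Fin.ext_iff]) fun k h0 h1 => ?_
    exfalso
    have := k.2
    simp only [ne_eq, Fin.ext_iff] at h0 h1
    omega

theorem inn_out (B : Bas d n) (y y' : X n) (v v' : X d) :
    ⟪out y v, out y' v'⟫ = ⟪v, v'⟫ * ⟪y, y'⟫ := by
  rw [B.i_out, B.act_out, real_inner_smul_left]

section
variable (Z : He d n) (e₁ e₂ : X d) (α β : X n)
  (hZ : ∀ a i j, Z (a, i, j) =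
    α a * (e₁ i * e₁ j - e₂ i * e₂ j) + β a * (e₁ i * e₂ j + e₂ i * e₁ j))
include hZ

theorem ap_form (x : X d) :
    ap Z x = out (⟪e₁, x⟫ • α + ⟪e₂, x⟫ • β) e₁ + out (⟪e₁, x⟫ • β - ⟪e₂, x⟫ • α) e₂ := by
  ext ⟨a, i⟩
  have : ∑ j, Z (a, i, j) * x j = (α a * e₁ i + β a * e₂ i) * (∑ j, e₁ j * x j) +
      (β a * e₁ i - α a * e₂ i) * ∑ j, e₂ j * x j := by
    rw [Finset.mul_sum, Finset.mul_sum, ← Finset.sum_add_distrib]
    exact Finset.sum_congr rfl fun j _ => by rw [hZ]; ring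
  rw [ap_apply, PiLp.add_apply, out_apply, out_apply, inn, inn]
  simp only [PiLp.add_apply, PiLp.sub_apply, PiLp.smul_apply, smul_eq_mul]
  rw [this]; ring

theorem act_form (B : Bas d n) (x v : X d) :
    act (ap Z x) v = ⟪e₁, v⟫ • (⟪e₁, x⟫ • α + ⟪e₂, x⟫ • β) +
      ⟪e₂, v⟫ • (⟪e₁, x⟫ • β - ⟪e₂, x⟫ • α) := by
  rw [ap_form Z e₁ e₂ α β hZ x, map_add, add_apply, B.act_out, B.act_out]

theorem inn_ap (B : Bas d n) (h1 : ‖e₁‖ = 1) (h2 : ‖e₂‖ = 1) (h12 : ⟪e₁, e₂⟫ = 0) (x v : X d) :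
    ⟪ap Z x, ap Z v⟫ = (⟪e₁, x⟫ * ⟪e₁, v⟫ + ⟪e₂, x⟫ * ⟪e₂, v⟫) * (‖α‖ ^ 2 + ‖β‖ ^ 2) := by
  have h21 : ⟪e₂, e₁⟫ = 0 := by rw [real_inner_comm]; exact h12
  rw [ap_form Z e₁ e₂ α β hZ x, ap_form Z e₁ e₂ α β hZ v, inner_add_left, inner_add_right,
    inner_add_right, inn_out B, inn_out B, inn_out B, inn_out B, h12, h21, inn_self e₁ h1,
    inn_self e₂ h2]
  simp only [inner_add_left, inner_add_right, inner_sub_left, inner_sub_right,
    real_inner_smul_left, real_inner_smul_right, real_inner_self_eq_norm_sq,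
    real_inner_comm α β]
  ring

theorem norm_sq (B : Bas d n) (h1 : ‖e₁‖ = 1) (h2 : ‖e₂‖ = 1) (h12 : ⟪e₁, e₂⟫ = 0) :
    ‖Z‖ ^ 2 = 2 * (‖α‖ ^ 2 + ‖β‖ ^ 2) := by
  have h21 : ⟪e₂, e₁⟫ = 0 := by rw [real_inner_comm]; exact h12
  have hd : tens (ap Z e₁) e₁ + tens (ap Z e₂) e₂ = Z := by
    ext ⟨a, i, j⟩
    rw [PiLp.add_apply, tens_apply, tens_apply, ap_form Z e₁ e₂ α β hZ e₁,
      ap_form Z e₁ e₂ α β hZ e₂, h12, h21, inn_self e₁ h1, inn_self e₂ h2, hZ]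
    simp only [PiLp.add_apply, out_apply, PiLp.sub_apply, PiLp.smul_apply, smul_eq_mul]
    ring
  have : ‖Z‖ ^ 2 = ⟪tens (ap Z e₁) e₁ + tens (ap Z e₂) e₂, Z⟫ := by
    rw [hd, real_inner_self_eq_norm_sq]
  rw [this, inner_add_left, B.i_tens, B.i_tens, inn_ap Z e₁ e₂ α β hZ B h1 h2 h12,
    inn_ap Z e₁ e₂ α β hZ B h1 h2 h12, h12, h21, inn_self e₁ h1, inn_self e₂ h2]
  ring

end

theorem form (B : Bas d n) (Z : He d n) (h : Pln Z) (h0 : Z ≠ 0) :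
    ∃ (e₁ e₂ : X d) (α β : X n), ‖e₁‖ = 1 ∧ ‖e₂‖ = 1 ∧
    ⟪e₁, e₂⟫ = 0 ∧ ‖Z‖ ^ 2 = 2 * (‖α‖ ^ 2 + ‖β‖ ^ 2) ∧ ∀ x,
    ap Z x = out (⟪e₁, x⟫ • α + ⟪e₂, x⟫ • β) e₁ + out (⟪e₁, x⟫ • β - ⟪e₂, x⟫ • α) e₂ ∧
    qf Z x = (⟪e₁, x⟫ ^ 2 - ⟪e₂, x⟫ ^ 2) • α + (2 * ⟪e₁, x⟫ * ⟪e₂, x⟫) • β ∧
    r2 Z x = ⟪e₁, x⟫ ^ 2 + ⟪e₂, x⟫ ^ 2 ∧ cH Z x = (r2 Z x)⁻¹ • qf Z x ∧
    sv Z x = (‖Z‖ ^ 2 / 2) • (⟪e₁, x⟫ • e₁ + ⟪e₂, x⟫ • e₂) := by
  rcases h with rfl | ⟨e₁, e₂, α, β, h1, h2, h12, hZ⟩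
  · exact absurd rfl h0
  have h21 : ⟪e₂, e₁⟫ = 0 := by rw [real_inner_comm]; exact h12
  have hN := norm_sq Z e₁ e₂ α β hZ B h1 h2 h12
  have hpos : 0 < ‖Z‖ ^ 2 := pow_pos (norm_pos_iff.2 h0) 2
  have hN0 : ‖α‖ ^ 2 + ‖β‖ ^ 2 ≠ 0 := by intro h; rw [h] at hN; linarith
  refine ⟨e₁, e₂, α, β, h1, h2, h12, hN, fun x => ?_⟩
  have hq : qf Z x = (⟪e₁, x⟫ ^ 2 - ⟪e₂, x⟫ ^ 2) • α + (2 * ⟪e₁, x⟫ * ⟪e₂, x⟫) • β := by
    rw [qf, act_form Z e₁ e₂ α β hZ B]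
    module
  have ha : ‖ap Z x‖ ^ 2 = (⟪e₁, x⟫ ^ 2 + ⟪e₂, x⟫ ^ 2) * (‖α‖ ^ 2 + ‖β‖ ^ 2) := by
    rw [← real_inner_self_eq_norm_sq, inn_ap Z e₁ e₂ α β hZ B h1 h2 h12]; ring
  have hr : r2 Z x = ⟪e₁, x⟫ ^ 2 + ⟪e₂, x⟫ ^ 2 := by
    rw [r2, ha, hN]; field_simp
  have hs : sv Z x = (‖Z‖ ^ 2 / 2) • (⟪e₁, x⟫ • e₁ + ⟪e₂, x⟫ • e₂) := by
    refine ext_inner_right ℝ fun v => ?_
    rw [B.i_sv, inn_ap Z e₁ e₂ α β hZ B h1 h2 h12, hN, real_inner_smul_left, inner_add_left,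
      real_inner_smul_left, real_inner_smul_left]
    ring
  refine ⟨ap_form Z e₁ e₂ α β hZ x, hq, hr, ?_, hs⟩
  have hp : act (ap Z x) (⟪e₁, x⟫ • e₁ + ⟪e₂, x⟫ • e₂) = qf Z x := by
    rw [hq, act_form Z e₁ e₂ α β hZ B, inner_add_right, inner_add_right, real_inner_smul_right,
      real_inner_smul_right, real_inner_smul_right, real_inner_smul_right, h12, h21,
      inn_self e₁ h1, inn_self e₂ h2]
    module
  rw [cH, hs, map_smul, hp, smul_smul, ha, hr, hN, mul_inv]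
  congr 1
  field_simp

end Pl0A

theorem pl0 : BasS → Pl0S := fun hB d n =>
  { st0 := Pl0A.st0
    smul := Pl0A.smul
    two := Pl0A.two
    supp := Pl0A.supp
    form := Pl0A.form (hB d n) }

end Pool.Agent.MP_815c6c_an.N
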