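import Mathlib.Topology.Sheaves.Presheaf
import Mathlib.Algebra.Order.Star.Real
import Mathlib.Algebra.Ring.IsFormallyReal
import Mathlib.Analysis.SpecialFunctions.Pow.Deriv
import Mathlib.Analysis.InnerProductSpace.Calculus
import Pool.Agent.MP_815c6c_an.N.XSpec

/-! The planar model is of class `C^1`; its gradient. -/

set_option autoImplicit false

noncomputable section

namespace Pool.Agent.MP_815c6c_an.N

open Set Metric MeasureTheory Filter Topology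
open scoped ContDiff RealInnerProductSpace ENNReal

namespace Pl1A

variable {d n : ℕ}

/-- the gradient of the planar model -/
def F (s : ℝ) (Z : He d n) (x : X d) : Gr d n :=
  r2 Z x ^ (-s / 2) • ap Z x - (s * r2 Z x ^ (-s / 2 - 1) / ‖Z‖ ^ 2) • out (qf Z x) (sv Z x)

theorem r2_nn (Z : He d n) (x : X d) : 0 ≤ r2 Z x := by unfold r2; positivity

theorem r2_smul (Z : He d n) (t : ℝ) (x : X d) : r2 Z (t • x) = t ^ 2 * r2 Z x := by
  unfold r2; rw [map_smul, norm_smul, mul_pow, Real.norm_eq_abs, sq_abs]; ring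

theorem qf_smul (Z : He d n) (t : ℝ) (x : X d) : qf Z (t • x) = t ^ 2 • qf Z x := by
  unfold qf; simp only [map_smul, smul_apply, smul_smul]; rw [sq]

theorem sv_smul (Z : He d n) (t : ℝ) (x : X d) : sv Z (t • x) = t • sv Z x := by
  ext j; simp [sv, Finset.mul_sum, mul_left_comm]

theorem c_sv (Z : He d n) : Continuous (sv Z) := by unfold sv; fun_prop

theorem c_r2 (Z : He d n) : Continuous (r2 Z) := by unfold r2; fun_prop

theorem UZ_smul (s t : ℝ) (ht : t ≠ 0) (Z : He d n) : UZ s (t • Z) = t • UZ s Z := by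
  funext x
  have h1 : r2 (t • Z) x = r2 Z x := by
    unfold r2
    rw [map_smul, smul_apply, norm_smul, norm_smul, mul_pow, mul_pow,
      Real.norm_eq_abs, sq_abs, mul_left_comm, mul_div_mul_left _ _ (pow_ne_zero 2 ht)]
  have h2 : qf (t • Z) x = t • qf Z x := by
    unfold qf; simp only [map_smul, smul_apply]
  simp only [UZ, h1, h2, Pi.smul_apply]
  exact smul_comm _ _ _

theorem d_r2 (B : Bas d n) (Z : He d n) (x : X d) :
    HasFDerivAt (r2 Z) ((4 / ‖Z‖ ^ 2) • innerSL ℝ (sv Z x)) x := by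
  have h := ((((ap Z).hasFDerivAt (x := x)).norm_sq).const_mul 2).mul_const (‖Z‖ ^ 2)⁻¹
  refine HasFDerivAt.congr_fderiv h ?_
  ext v
  simp [B.i_sv]
  ring

theorem d_qf (B : Bas d n) {Z : He d n} (hZ : Sy Z) (x : X d) :
    HasFDerivAt (qf Z) (act ((2 : ℝ) • ap Z x)) x := by
  have h := ((B.c_qf Z).differentiable (by simp) x).hasFDerivAt
  refine h.congr_fderiv ?_
  ext1 v
  rw [← B.D_qf Z hZ x, Dm, B.act_jm]

theorem d_pos (B : Bas d n) (s : ℝ) {Z : He d n} (hZ : Sy Z) (x : X d) (hx : r2 Z x ≠ 0) :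
    HasFDerivAt (UZ s Z) (act (F s Z x)) x := by
  have h := ((((d_r2 B Z x).rpow_const (p := -s / 2) (Or.inl hx)).mul_const
    (2 : ℝ)⁻¹).smul (d_qf B hZ x))
  refine HasFDerivAt.congr_fderiv h ?_
  ext1 v
  simp only [F, map_sub, map_smul, sub_apply, smul_apply, B.act_out, add_apply,
    ContinuousLinearMap.smulRight_apply, innerSL_apply_apply, smul_eq_mul]
  module

/-- what is used of a planar Hessian -/
structure Gd (Z : He d n) : Prop where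
  pos : 0 < ‖Z‖
  sy : Sy Z
  hq : ∀ x, ‖qf Z x‖ ≤ ‖Z‖ * r2 Z x
  hr : ∀ x, r2 Z x ≤ ‖x‖ ^ 2

theorem gd (P : Pl0 d n) {Z : He d n} (hZ : Pln Z) (h0 : Z ≠ 0) : Gd Z := by
  obtain ⟨e₁, e₂, α, β, h1, h2, h12, hn, hx⟩ := P.form Z hZ h0
  refine ⟨norm_pos_iff.2 h0, (P.st0 Z hZ).1, fun x => ?_, fun x => ?_⟩
  · obtain ⟨-, hq, hr, -, -⟩ := hx x
    rw [hq, hr]
    generalize ⟪e₁, x⟫ = a
    generalize ⟪e₂, x⟫ = b
    have k1 : |a ^ 2 - b ^ 2| ≤ a ^ 2 + b ^ 2 :=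
      abs_le.2 ⟨by nlinarith [sq_nonneg a], by nlinarith [sq_nonneg b]⟩
    have k2 : |2 * a * b| ≤ a ^ 2 + b ^ 2 :=
      abs_le.2 ⟨by nlinarith [sq_nonneg (a + b)], by nlinarith [sq_nonneg (a - b)]⟩
    have k3 : ‖α‖ + ‖β‖ ≤ ‖Z‖ := by
      refine (sq_le_sq₀ (by positivity) (norm_nonneg _)).1 ?_
      nlinarith [sq_nonneg (‖α‖ - ‖β‖)]
    calc _ ≤ ‖(a ^ 2 - b ^ 2) • α‖ + ‖(2 * a * b) • β‖ := norm_add_le _ _
      _ = |a ^ 2 - b ^ 2| * ‖α‖ + |2 * a * b| * ‖β‖ := by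
        rw [norm_smul, norm_smul, Real.norm_eq_abs, Real.norm_eq_abs]
      _ ≤ (a ^ 2 + b ^ 2) * ‖α‖ + (a ^ 2 + b ^ 2) * ‖β‖ := by gcongr
      _ = (‖α‖ + ‖β‖) * (a ^ 2 + b ^ 2) := by ring
      _ ≤ _ := by gcongr
  · obtain ⟨-, -, hr, -, -⟩ := hx x
    rw [hr]
    have k := sq_nonneg ‖x - (⟪e₁, x⟫ • e₁ + ⟪e₂, x⟫ • e₂)‖
    rw [norm_sub_sq_real, norm_add_sq_real, inner_add_right, inner_smul_right, inner_smul_right,
      inner_smul_left, inner_smul_right, h12, norm_smul, norm_smul, h1, h2, real_inner_comm e₁ x,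
      real_inner_comm e₂ x, Real.norm_eq_abs, Real.norm_eq_abs, mul_one, mul_one, sq_abs, sq_abs] at k
    simp only [mul_zero] at k
    nlinarith

theorem Gd.hA {Z : He d n} (G : Gd Z) (x : X d) : ‖ap Z x‖ ≤ ‖Z‖ * √(r2 Z x) := by
  have h0 := G.pos
  refine (sq_le_sq₀ (norm_nonneg _) (by positivity)).1 ?_
  rw [mul_pow, Real.sq_sqrt (r2_nn Z x), r2, mul_div_cancel₀ _ (by positivity)]
  nlinarith [sq_nonneg ‖ap Z x‖]

theorem pw1 {s r : ℝ} (hs : s ≤ 1 / 8) (hr : 0 ≤ r) : r ^ (-s / 2) * √r = r ^ ((1 - s) / 2) := by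
  rw [Real.sqrt_eq_rpow, ← Real.rpow_add' hr (by linarith)]
  congr 1; ring

theorem pw2 {s r : ℝ} (hs : 0 < s) (hr : 0 ≤ r) : r ^ (-s / 2 - 1) * r = r ^ (-s / 2) := by
  rw [← Real.rpow_add_one' hr (by linarith)]
  congr 1; ring

/-- the second term -/
theorem Gd.h2 (B : Bas d n) {Z : He d n} (G : Gd Z) {s : ℝ} (hs : 0 < s) (hs' : s ≤ 1 / 8)
    (x : X d) : ‖(s * r2 Z x ^ (-s / 2 - 1) / ‖Z‖ ^ 2) • out (qf Z x) (sv Z x)‖ ≤
      s * ‖Z‖ * r2 Z x ^ ((1 - s) / 2) := by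
  have h0 := G.pos
  have hr := r2_nn Z x
  have k : ‖sv Z x‖ ≤ ‖Z‖ * (‖Z‖ * √(r2 Z x)) :=
    (B.n_sv Z x).trans (mul_le_mul_of_nonneg_left (G.hA x) h0.le)
  rw [norm_smul, B.n_out, Real.norm_of_nonneg (by positivity), ← pw1 hs' hr, ← pw2 hs hr]
  calc _ ≤ s * r2 Z x ^ (-s / 2 - 1) / ‖Z‖ ^ 2 * (‖Z‖ * r2 Z x * (‖Z‖ * (‖Z‖ * √(r2 Z x)))) := by
        gcongr
        exact G.hq x
    _ = _ := by field_simp

theorem Gd.hF (B : Bas d n) {Z : He d n} (G : Gd Z) {s : ℝ} (hs : 0 < s) (hs' : s ≤ 1 / 8)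
    (x : X d) : ‖F s Z x‖ ≤ (1 + s) * ‖Z‖ * r2 Z x ^ ((1 - s) / 2) := by
  have hr := r2_nn Z x
  have k1 : ‖r2 Z x ^ (-s / 2) • ap Z x‖ ≤ ‖Z‖ * r2 Z x ^ ((1 - s) / 2) := by
    rw [norm_smul, Real.norm_of_nonneg (by positivity), ← pw1 hs' hr]
    calc _ ≤ r2 Z x ^ (-s / 2) * (‖Z‖ * √(r2 Z x)) := by gcongr; exact G.hA x
      _ = _ := by ring
  have k2 := G.h2 B hs hs' x
  have k3 := norm_sub_le (r2 Z x ^ (-s / 2) • ap Z x)
    ((s * r2 Z x ^ (-s / 2 - 1) / ‖Z‖ ^ 2) • out (qf Z x) (sv Z x))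
  unfold F
  linarith

theorem t_pw (Z : He d n) {s : ℝ} (hs' : s ≤ 1 / 8) (c : ℝ) {x : X d} (hx : r2 Z x = 0) :
    Tendsto (fun y => c * r2 Z y ^ ((1 - s) / 2)) (𝓝 x) (𝓝 0) := by
  have h : Continuous fun y => c * r2 Z y ^ ((1 - s) / 2) :=
    continuous_const.mul ((c_r2 Z).rpow_const fun _ => Or.inr (by linarith))
  have k := h.tendsto x
  rwa [hx, Real.zero_rpow (by linarith), mul_zero] at k

theorem Gd.F0 (B : Bas d n) {Z : He d n} (G : Gd Z) {s : ℝ} (hs : 0 < s) (hs' : s ≤ 1 / 8)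
    {x : X d} (hx : r2 Z x = 0) : F s Z x = 0 := by
  have k := G.hF B hs hs' x
  rw [hx, Real.zero_rpow (by linarith), mul_zero] at k
  exact norm_le_zero_iff.1 k

theorem Gd.der (B : Bas d n) {Z : He d n} (G : Gd Z) {s : ℝ} (hs : 0 < s) (hs' : s ≤ 1 / 8)
    (x : X d) : HasFDerivAt (UZ s Z) (act (F s Z x)) x := by
  by_cases hx : r2 Z x = 0
  swap
  · exact d_pos B s G.sy x hx
  have h0 := G.pos
  have hA : ap Z x = 0 := by
    have k := G.hA x
    rw [hx, Real.sqrt_zero, mul_zero] at k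
    exact norm_le_zero_iff.1 k
  have hU : UZ s Z x = 0 := by simp [UZ, qf, hA]
  rw [G.F0 B hs hs' hx, map_zero, hasFDerivAt_iff_isLittleO, hU]
  refine Asymptotics.IsLittleO.of_bound fun c hc => ?_
  filter_upwards [(t_pw Z hs' ‖Z‖ hx).eventually (gt_mem_nhds hc)] with y hy
  have hr := r2_nn Z y
  have k1 : r2 Z (y - x) = r2 Z y := by unfold r2; rw [map_sub, hA, sub_zero]
  have k2 : √(r2 Z y) ≤ ‖y - x‖ := by
    rw [← k1]; exact Real.sqrt_le_iff.2 ⟨norm_nonneg _, G.hr _⟩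
  have k3 : ‖UZ s Z y‖ ≤ ‖Z‖ * r2 Z y ^ ((1 - s) / 2) * √(r2 Z y) := by
    rw [UZ, norm_smul, Real.norm_of_nonneg (by positivity), ← pw1 hs' hr]
    calc _ ≤ r2 Z y ^ (-s / 2) / 1 * (‖Z‖ * r2 Z y) := by
          gcongr
          · norm_num
          · exact G.hq y
      _ = r2 Z y ^ (-s / 2) * (‖Z‖ * (√(r2 Z y) * √(r2 Z y))) := by
          rw [Real.mul_self_sqrt hr, div_one]
      _ = _ := by ring
  simp only [sub_zero, zero_apply]
  exact k3.trans (mul_le_mul hy.le k2 (Real.sqrt_nonneg _) hc.le)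

theorem Gd.cont (B : Bas d n) {Z : He d n} (G : Gd Z) {s : ℝ} (hs : 0 < s) (hs' : s ≤ 1 / 8) :
    Continuous (F s Z) := by
  refine continuous_iff_continuousAt.2 fun x => ?_
  by_cases hx : r2 Z x = 0
  · rw [ContinuousAt, G.F0 B hs hs' hx]
    exact squeeze_zero_norm (G.hF B hs hs') (t_pw Z hs' _ hx)
  · have k : ∀ p : ℝ, ContinuousAt (fun y => r2 Z y ^ p) x := fun p =>
      (c_r2 Z).continuousAt.rpow_const (Or.inl hx)
    have k2 : Continuous fun y => out (qf Z y) (sv Z y) :=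
      (out.continuous.comp (B.c_qf Z).continuous).clm_apply (c_sv Z)
    exact ((k _).smul (ap Z).continuous.continuousAt).sub
      (((continuousAt_const.mul (k _)).div_const _).smul k2.continuousAt)

theorem Gd.near (B : Bas d n) {Z : He d n} (G : Gd Z) {s : ℝ} (hs : 0 < s) (hs' : s ≤ 1 / 8)
    {x : X d} (hx : ‖x‖ < 1) : ‖F s Z x - ap Z x‖ ≤ 3 * s * ‖Z‖ := by
  have h0 := G.pos
  have hr := r2_nn Z x
  have hr1 : r2 Z x ≤ 1 := (G.hr x).trans (pow_le_one₀ (norm_nonneg _) hx.le)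
  have k2 := G.h2 B hs hs' x
  have k3 : r2 Z x ^ ((1 - s) / 2) ≤ 1 := Real.rpow_le_one hr hr1 (by linarith)
  have k4 : |r2 Z x ^ (-s / 2) - 1| * √(r2 Z x) ≤ 2 * s := by
    rcases hr.eq_or_lt with h | h
    · rw [← h, Real.sqrt_zero, mul_zero]; positivity
    generalize r2 Z x = r at *
    have a1 : 1 ≤ r ^ (-s / 2) := Real.one_le_rpow_of_pos_of_le_one_of_nonpos h hr1 (by linarith)
    have a2 : r ^ (-s / 2) - 1 ≤ -(Real.log r) * (s / 2) * r ^ (-s / 2) := by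
      rw [Real.rpow_def_of_pos h]
      have e1 := Real.add_one_le_exp (-(Real.log r * (-s / 2)))
      have e2 := Real.exp_pos (Real.log r * (-s / 2))
      have e3 : Real.exp (-(Real.log r * (-s / 2))) * Real.exp (Real.log r * (-s / 2)) = 1 := by
        rw [← Real.exp_add]; simp
      nlinarith [mul_le_mul_of_nonneg_right e1 e2.le]
    have a3 := (neg_le_abs _).trans
      (Real.abs_log_mul_self_rpow_lt r ((1 - s) / 2) h hr1 (by linarith)).le
    have a4 : 1 / ((1 - s) / 2) ≤ 4 := by rw [div_le_iff₀ (by linarith)]; linarith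
    rw [abs_of_nonneg (by linarith)]
    calc _ ≤ -(Real.log r) * (s / 2) * r ^ (-s / 2) * √r := by gcongr
      _ = s / 2 * -(Real.log r * (r ^ (-s / 2) * √r)) := by ring
      _ ≤ s / 2 * 4 := by rw [pw1 hs' hr]; gcongr; exact a3.trans a4
      _ = _ := by ring
  have k5 : ‖(r2 Z x ^ (-s / 2) - 1) • ap Z x‖ ≤ 2 * s * ‖Z‖ := by
    rw [norm_smul, Real.norm_eq_abs]
    calc _ ≤ |r2 Z x ^ (-s / 2) - 1| * (‖Z‖ * √(r2 Z x)) := by gcongr; exact G.hA x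
      _ = |r2 Z x ^ (-s / 2) - 1| * √(r2 Z x) * ‖Z‖ := by ring
      _ ≤ _ := by gcongr
  have k6 : F s Z x - ap Z x = (r2 Z x ^ (-s / 2) - 1) • ap Z x -
      (s * r2 Z x ^ (-s / 2 - 1) / ‖Z‖ ^ 2) • out (qf Z x) (sv Z x) := by
    unfold F; module
  have k7 : s * ‖Z‖ * r2 Z x ^ ((1 - s) / 2) ≤ s * ‖Z‖ * 1 := by gcongr
  rw [k6]
  refine (norm_sub_le _ _).trans ?_
  linarith

theorem F_hom (s : ℝ) (Z : He d n) {t : ℝ} (ht : 0 < t) (x : X d) :
    F s Z (t • x) = t ^ (1 - s) • F s Z x := by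
  have k : ∀ p : ℝ, (t ^ 2 * r2 Z x) ^ p = t ^ (2 * p) * r2 Z x ^ p := fun p => by
    rw [Real.mul_rpow (by positivity) (r2_nn Z x), Real.rpow_mul ht.le, Real.rpow_two]
  have k1 : t ^ (1 - s) = t ^ (2 * (-s / 2)) * t := by
    rw [← Real.rpow_add_one ht.ne']; congr 1; ring
  have k2 : t ^ (2 * (-s / 2)) = t ^ (2 * (-s / 2 - 1)) * t ^ 2 := by
    rw [← Real.rpow_add_natCast ht.ne']; congr 1; push_cast; ring
  simp only [F, r2_smul, qf_smul, sv_smul, map_smul, smul_apply, k, k1, k2]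
  module

theorem F_odd (s : ℝ) (Z : He d n) (x : X d) : F s Z (-x) = -F s Z x := by
  rw [← neg_one_smul ℝ x]
  simp only [F, r2_smul, qf_smul, sv_smul, map_smul, smul_apply, even_two,
    Even.neg_pow, one_pow, one_mul]
  module

theorem der (K : Kit) {Z : He d n} (hZ : Pln Z) {s : ℝ} (hs : 0 < s) (hs' : s ≤ 1 / 8) :
    (∀ x, HasFDerivAt (UZ s Z) (act (F s Z x)) x) ∧ Continuous (F s Z) ∧
      ∀ x : X d, ‖x‖ < 1 → ‖F s Z x - ap Z x‖ ≤ 3 * s * ‖Z‖ := by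
  by_cases h0 : Z = 0
  · subst h0
    have h1 : UZ s (0 : He d n) = fun _ => 0 := by funext x; simp [UZ, qf]
    have h2 : F s (0 : He d n) = fun _ => 0 := by funext x; simp [F, qf]
    rw [h1, h2]
    refine ⟨fun x => ?_, continuous_const, fun x _ => by simp⟩
    rw [map_zero]
    exact hasFDerivAt_const _ _
  · have G := gd (K.pl0 d n) hZ h0
    exact ⟨G.der (K.bas d n) hs hs', G.cont (K.bas d n) hs hs',
      fun x hx => G.near (K.bas d n) hs hs' hx⟩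

theorem form (K : Kit) {Z : He d n} (hZ : Pln Z) {s : ℝ} (hs : 0 < s) (hs' : s ≤ 1 / 8)
    (x : X d) : Dm (UZ s Z) x = F s Z x := by
  rw [Dm, ((der K hZ hs hs').1 x).fderiv, (K.bas d n).jm_act]

end Pl1A

open Pl1A in
theorem pl1 : Kit → Pl1S := fun K d n => by
  refine ⟨3, by norm_num, fun s Z hs hs' hZ => ?_, fun s Z x hs hs' hZ => form K hZ hs hs' x,
    fun s t Z x hs hs' ht hZ => ⟨?_, ?_⟩, fun s Z x hs hs' hZ => ?_, fun s Z hs hs' hZ x hx => ?_⟩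
  · obtain ⟨h1, h2, -⟩ := der K hZ hs hs'
    refine contDiff_one_iff_fderiv.2 ⟨fun x => (h1 x).differentiableAt, ?_⟩
    rw [show fderiv ℝ (UZ s Z) = fun x => act (F s Z x) from funext fun x => (h1 x).fderiv]
    exact act.continuous.comp h2
  · rw [form K hZ hs hs', form K hZ hs hs', F_hom s Z ht]
  · rw [UZ_smul s t ht.ne', Dm, Dm, (((der K hZ hs hs').1 x).const_smul t).fderiv,
      ((der K hZ hs hs').1 x).fderiv, map_smul]
  · rw [form K hZ hs hs', form K hZ hs hs', F_odd]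
  · rw [form K hZ hs hs']
    exact (der K hZ hs hs').2.2 x (mem_ball_zero_iff.1 hx)

end Pool.Agent.MP_815c6c_an.N
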