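import Pool.Agent.MP_815c6c_an.N.Tst

/-! The planar model solves the equation up to second order. -/

set_option autoImplicit false

noncomputable section

namespace Pool.Agent.MP_815c6c_an.N

open Set Metric MeasureTheory Filter Topology
open scoped ContDiff RealInnerProductSpace ENNReal

namespace Pl2A

open EllA

variable {d n : ℕ}

/-- the regularised field -/
def DD (σ η : ℝ) (Z : He d n) (Q : X d →L[ℝ] X d) (x : X d) : Gr d n :=
  (‖Q x‖ ^ 2 + η) ^ σ • ap Z x - (σ * (‖Q x‖ ^ 2 + η) ^ (σ - 1)) • out (act (ap Z x) x) (Q x)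

theorem sum_e (v : X d) :
    ∑ i, ⟪v, EuclideanSpace.single i 1⟫ • (EuclideanSpace.single i 1 : X d) = v := by
  ext j
  simp [Pi.single_apply, EuclideanSpace.inner_single_right]

theorem cpow (Q : X d →L[ℝ] X d) {η : ℝ} (hη : 0 < η) (p : ℝ) :
    Continuous fun x => (‖Q x‖ ^ 2 + η) ^ p :=
  Continuous.rpow_const (by fun_prop) fun x => Or.inl (by positivity)

theorem DD_c (σ : ℝ) {η : ℝ} (hη : 0 < η) (Z : He d n) (Q : X d →L[ℝ] X d) :
    Continuous (DD σ η Z Q) := by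
  have c1 := cpow Q hη σ
  have c2 := cpow Q hη (σ - 1)
  unfold DD
  fun_prop

theorem div (B : Bas d n) {Z : He d n} (hZ : St0 Z) {Q : X d →L[ℝ] X d}
    (hQ : ∀ x v, ⟪Q x, Q v⟫ = ⟪Q x, v⟫)
    (ht : ∑ i, ⟪Q (EuclideanSpace.single i 1), EuclideanSpace.single i 1⟫ = 2)
    (σ : ℝ) {η : ℝ} (hη : 0 < η)
    {φ : X d → X n} (hφ : Ts φ) : pa (DD σ η Z Q) φ =
      -∫ x, ⟪(-2 * σ * (‖Q x‖ ^ 2 + η) ^ (σ - 1 - 1) * (η + σ * ‖Q x‖ ^ 2)) • act (ap Z x) x,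
        φ x⟫ := by
  have hp : ∀ x, ‖Q x‖ ^ 2 + η ≠ 0 := fun x => by positivity
  have h1 : ∀ (p : ℝ) x, HasFDerivAt (fun x => (‖Q x‖ ^ 2 + η) ^ p)
      ((2 * p * (‖Q x‖ ^ 2 + η) ^ (p - 1)) • innerSL ℝ (Q x)) x := fun p x => by
    refine (((Q.hasFDerivAt (x := x)).norm_sq.add_const η).rpow_const
      (Or.inl (hp x))).congr_fderiv ?_
    ext v
    simp [hQ]
    ring
  have h2 : ∀ x, HasFDerivAt (fun x => act (ap Z x) x) ((2 : ℝ) • act (ap Z x)) x := fun x => by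
    refine (((act.comp (ap Z)).hasFDerivAt (x := x)).clm_apply (hasFDerivAt_id x)).congr_fderiv ?_
    refine ContinuousLinearMap.ext fun v => ?_
    simp [B.act_sy Z hZ.1 v x, two_smul]
  have h3 : ∀ x, HasFDerivAt (fun x => out (act (ap Z x) x) (Q x))
      ((out (act (ap Z x) x)).comp Q + (out.flip (Q x)).comp ((2 : ℝ) • act (ap Z x))) x :=
    fun x => by
      refine ((out.hasFDerivAt.comp x (h2 x)).clm_apply (Q.hasFDerivAt (x := x))).congr_fderiv ?_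
      refine ContinuousLinearMap.ext fun v => ?_
      simp
  have h4 := fun x => ((h1 σ x).fun_smul (ap Z).hasFDerivAt).fun_sub
    (((h1 (σ - 1) x).const_mul σ).fun_smul (h3 x))
  have e := parts B h4 ?_ hφ
  · refine e.trans ?_
    congr 2
    funext x
    congr 1
    have e1 : ∑ i, act (ap Z (EuclideanSpace.single i 1)) (EuclideanSpace.single i 1) = 0 := by
      rw [← hZ.2]
      ext a
      simp [act_apply, ap_apply, trc_apply]
    have e3 : ∑ i, ⟪Q x, EuclideanSpace.single i 1⟫ * ⟪Q x, EuclideanSpace.single i 1⟫ =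
        ‖Q x‖ ^ 2 := by
      simp only [← real_inner_smul_right, ← inner_sum, sum_e, real_inner_self_eq_norm_sq]
    obtain ⟨u, hu⟩ : ∃ u, u = (‖Q x‖ ^ 2 + η) ^ (σ - 1 - 1) := ⟨_, rfl⟩
    have e4 : (‖Q x‖ ^ 2 + η) ^ (σ - 1) = u * (‖Q x‖ ^ 2 + η) := by
      rw [hu, ← Real.rpow_add_one (hp x), sub_add_cancel]
    rw [Finset.sum_congr rfl (g := fun i => (‖Q x‖ ^ 2 + η) ^ σ •
      act (ap Z (EuclideanSpace.single i 1)) (EuclideanSpace.single i 1) -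
      ((σ * (u * (‖Q x‖ ^ 2 + η))) * ⟪Q (EuclideanSpace.single i 1), EuclideanSpace.single i 1⟫ +
        (2 * σ * (σ - 1) * u) *
        (⟪Q x, EuclideanSpace.single i 1⟫ * ⟪Q x, EuclideanSpace.single i 1⟫)) • act (ap Z x) x)
      fun i _ => ?_]
    · rw [Finset.sum_sub_distrib, ← Finset.smul_sum, e1, ← Finset.sum_smul, Finset.sum_add_distrib,
        ← Finset.mul_sum, ← Finset.mul_sum, ht, e3, ← hu]
      module
    · simp only [add_apply, sub_apply, smul_apply, ContinuousLinearMap.smulRight_apply,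
        ContinuousLinearMap.comp_apply, innerSL_apply_apply, ContinuousLinearMap.flip_apply,
        map_add, map_sub, map_smul, B.act_out, e4, ← hu]
      module
  · have c1 := cpow Q hη σ
    have c2 := cpow Q hη (σ - 1)
    have c3 := cpow Q hη (σ - 1 - 1)
    fun_prop

theorem sc1 {R η σ : ℝ} (hR : 0 < R) (hη : 0 < η) (h0 : 0 ≤ σ) (h1 : σ ≤ 1) :
    |R ^ σ - (R + η) ^ σ| ≤ η ^ σ ∧ |R ^ σ - R * (R + η) ^ (σ - 1)| ≤ η ^ σ := by
  have a1 : R ^ σ ≤ (R + η) ^ σ := Real.rpow_le_rpow hR.le (by linarith) h0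
  have a2 : (R + η) ^ σ ≤ R ^ σ + η ^ σ := Real.rpow_add_le_add_rpow hR.le hη.le h0 h1
  have a3 : (R + η) ^ (σ - 1) ≤ η ^ (σ - 1) :=
    Real.rpow_le_rpow_of_nonpos hη (by linarith) (by linarith)
  have a4 : (R + η) ^ σ = (R + η) ^ (σ - 1) * (R + η) := by
    rw [← Real.rpow_add_one (by positivity), sub_add_cancel]
  have a5 : η ^ σ = η ^ (σ - 1) * η := by rw [← Real.rpow_add_one hη.ne', sub_add_cancel]
  have a6 := mul_le_mul_of_nonneg_right a3 hη.le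
  have a7 : 0 ≤ (R + η) ^ (σ - 1) * η := by positivity
  constructor <;> rw [abs_le] <;> constructor <;> linarith

theorem sc2 {s ε : ℝ} (hs : 0 ≤ s) (hs' : s ≤ 1 / 2) (hε : 0 ≤ ε) :
    1 - 2 * ε * s ≤ (1 - s) ^ ε := by
  have p : 0 < 1 - s := by linarith
  have a1 := Real.one_sub_inv_le_log_of_pos p
  have a2 : (1 - s)⁻¹ ≤ 1 + 2 * s := by
    rw [inv_le_iff_one_le_mul₀ p]
    nlinarith
  have a3 := Real.add_one_le_exp (Real.log (1 - s) * ε)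
  rw [Real.rpow_def_of_pos p]
  nlinarith

theorem sc3 {R η σ : ℝ} (hR : 0 ≤ R) (hR' : R ≤ 2) (hη : 0 < η) (hη' : η ≤ 1) (h0 : 0 ≤ σ)
    (h1 : σ ≤ 1) : (R + η) ^ (σ - 1 - 1) * (η + σ * R) * R ≤ η ^ σ + 3 * σ := by
  have p : 0 < R + η := by linarith
  have a3 : (R + η) ^ (σ - 1) ≤ η ^ (σ - 1) :=
    Real.rpow_le_rpow_of_nonpos hη (by linarith) (by linarith)
  have a4 : ∀ t : ℝ, (R + η) ^ t = (R + η) ^ (t - 1) * (R + η) := fun t => by
    rw [← Real.rpow_add_one p.ne', sub_add_cancel]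
  have a5 : η ^ σ = η ^ (σ - 1) * η := by rw [← Real.rpow_add_one hη.ne', sub_add_cancel]
  have a6 : (R + η) ^ σ ≤ 3 :=
    (Real.rpow_le_rpow p.le (by linarith : R + η ≤ 3) h0).trans
      (Real.rpow_le_self_of_one_le (by norm_num) h1)
  have a7 : (R + η) ^ (σ - 1 - 1) * R ≤ (R + η) ^ (σ - 1) := by
    rw [a4 (σ - 1)]
    gcongr
    linarith
  have a8 : (R + η) ^ (σ - 1) * R ≤ 3 := by
    refine le_trans ?_ a6
    rw [a4 σ]
    gcongr
    linarith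
  calc _ = (R + η) ^ (σ - 1 - 1) * R * (η + σ * R) := by ring
    _ ≤ (R + η) ^ (σ - 1) * (η + σ * R) := by gcongr
    _ = (R + η) ^ (σ - 1) * η + σ * ((R + η) ^ (σ - 1) * R) := by ring
    _ ≤ η ^ (σ - 1) * η + σ * 3 := by gcongr
    _ = _ := by rw [a5]; ring

theorem pt (B : Bas d n) {L : Gr d n} {P : X d} {g R η σ ε : ℝ} (hR : 0 < R) (hR' : R ≤ 2)
    (hη : 0 < η) (h0 : 0 ≤ σ) (h1 : σ ≤ 1 / 4) (hε : 0 ≤ ε) (hP : ‖P‖ ^ 2 = R) (hg : 0 ≤ g)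
    (hL : ‖L‖ ^ ε = g * R ^ (ε / 2)) (he : -σ * ε + ε / 2 + -σ = σ) :
    ‖A ε (R ^ (-σ) • (L - σ • R⁻¹ • out (act L P) P)) -
      g • ((R + η) ^ σ • L - (σ * (R + η) ^ (σ - 1)) • out (act L P) P)‖ ≤
      2 * (g * (8 * ε * σ + η ^ σ)) * ‖L‖ := by
  obtain ⟨W, hW⟩ : ∃ W, W = R⁻¹ • out (act L P) P := ⟨_, rfl⟩
  have eW : out (act L P) P = R • W := by rw [hW, smul_smul, mul_inv_cancel₀ hR.ne', one_smul]
  have nW : ‖W‖ ≤ ‖L‖ := by
    rw [hW, norm_smul, B.n_out, Real.norm_eq_abs, abs_of_pos (inv_pos.2 hR),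
      inv_mul_le_iff₀ hR, ← hP]
    nlinarith [mul_le_mul_of_nonneg_right (B.n_act L P) (norm_nonneg P)]
  have iW : ⟪L, W⟫ = ‖W‖ ^ 2 := by
    rw [hW, real_inner_smul_right, B.i_out, real_inner_self_eq_norm_sq, norm_smul, B.n_out,
      mul_pow, mul_pow, hP, Real.norm_eq_abs, sq_abs]
    field_simp
  rw [← hW, eW]
  obtain ⟨M, hM⟩ : ∃ M, M = L - σ • W := ⟨_, rfl⟩
  have m1 : ‖M‖ ≤ ‖L‖ := by
    refine abs_le_of_sq_le_sq' ?_ (norm_nonneg _) |>.2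
    rw [hM, norm_sub_sq_real, real_inner_smul_right, iW, norm_smul, mul_pow, Real.norm_eq_abs,
      sq_abs]
    nlinarith [mul_nonneg h0 (sq_nonneg ‖W‖)]
  have m2 : (1 - σ) * ‖L‖ ≤ ‖M‖ := by
    have := norm_sub_norm_le L (σ • W)
    rw [norm_smul, Real.norm_eq_abs, abs_of_nonneg h0, ← hM] at this
    nlinarith [mul_le_mul_of_nonneg_left nW h0]
  have m3 : ‖M‖ ^ ε ≤ g * R ^ (ε / 2) := hL ▸ Real.rpow_le_rpow (norm_nonneg _) m1 hε
  have m4 : (1 - 2 * ε * σ) * (g * R ^ (ε / 2)) ≤ ‖M‖ ^ ε := by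
    refine le_trans ?_ (Real.rpow_le_rpow (mul_nonneg (by linarith) (norm_nonneg _)) m2 hε)
    rw [Real.mul_rpow (by linarith) (norm_nonneg _), hL]
    exact mul_le_mul_of_nonneg_right (sc2 h0 (by linarith) hε) (by positivity)
  obtain ⟨c, hc⟩ : ∃ c, c = R ^ (-σ * ε) * ‖M‖ ^ ε * R ^ (-σ) := ⟨_, rfl⟩
  have eA : A ε (R ^ (-σ) • M) = c • M := by
    rw [A, norm_smul, Real.norm_eq_abs, abs_of_pos (Real.rpow_pos_of_pos hR _),
      Real.mul_rpow (by positivity) (norm_nonneg _), ← Real.rpow_mul hR.le, smul_smul, hc]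
  have eR : R ^ (-σ * ε) * (g * R ^ (ε / 2)) * R ^ (-σ) = g * R ^ σ := by
    conv_rhs => rw [← he, Real.rpow_add hR, Real.rpow_add hR]
    ring
  have r2 : R ^ σ ≤ 2 := (Real.rpow_le_rpow hR.le hR' h0).trans
    (Real.rpow_le_self_of_one_le (by norm_num) (by linarith))
  have c1 : c ≤ g * R ^ σ := by rw [hc, ← eR]; gcongr
  have c2 : (1 - 2 * ε * σ) * (g * R ^ σ) ≤ c := by
    rw [hc, ← eR, ← mul_assoc, mul_left_comm]
    gcongr
  have c3 : |c - g * R ^ σ| ≤ g * (8 * ε * σ) := by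
    have := mul_le_mul_of_nonneg_left r2 (by positivity : 0 ≤ g * (2 * ε * σ))
    have := mul_nonneg hg (mul_nonneg hε h0)
    rw [abs_le]
    constructor <;> nlinarith
  obtain ⟨s1, s2⟩ := sc1 hR hη h0 (by linarith)
  have k : ∀ t : ℝ, |R ^ σ - t| ≤ η ^ σ → |c - g * t| ≤ g * (8 * ε * σ + η ^ σ) := fun t ht => by
    have := abs_add_le (c - g * R ^ σ) (g * (R ^ σ - t))
    rw [abs_mul, abs_of_nonneg hg, show c - g * R ^ σ + g * (R ^ σ - t) = c - g * t by ring] at this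
    nlinarith [mul_le_mul_of_nonneg_left ht hg]
  have e : c • M - g • ((R + η) ^ σ • L - (σ * (R + η) ^ (σ - 1)) • R • W) =
      (c - g * (R + η) ^ σ) • L - σ • (c - g * (R * (R + η) ^ (σ - 1))) • W := by
    rw [hM]
    module
  rw [← hM, eA, e]
  refine (norm_sub_le _ _).trans ?_
  simp only [norm_smul, Real.norm_eq_abs, abs_of_nonneg h0]
  have k1 := mul_le_mul_of_nonneg_right (k _ s1) (norm_nonneg L)
  have k2 := mul_le_mul (k _ s2) nW (norm_nonneg _) (by positivity)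
  have k3 := mul_le_of_le_one_left (mul_nonneg (abs_nonneg (c - g * (R * (R + η) ^ (σ - 1))))
    (norm_nonneg W)) (by linarith : σ ≤ 1)
  linarith

end Pl2A

open Pl2A EllA in
theorem pl2 : Kit → Pl1S → Pl2S := by
  intro K h1 d n
  have B := K.bas d n
  have Pa := K.par d n
  obtain ⟨C, P1⟩ := h1 d n
  refine ⟨5000, by norm_num, fun ε Z hε hε' hZ hn φ hφ => ?_⟩
  obtain ⟨σ, hσ⟩ : ∃ σ, ss ε = 2 * σ := ⟨ss ε / 2, by ring⟩
  have s0 : 0 < ss ε := by rw [ss]; positivity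
  have s1 : ss ε ≤ ε := by rw [ss, div_le_iff₀ (by positivity)]; nlinarith
  have s3 : -σ * ε + ε / 2 + -σ = σ := by
    rw [ss, div_eq_iff (by positivity)] at hσ
    linarith
  have σ0 : 0 < σ := by linarith
  have σ1 : σ ≤ ε := by linarith
  have hG := fun x => P1.form (ss ε) Z x s0 (s1.trans hε') hZ
  have cG : Continuous fun x => A ε (GZ ε Z x) :=
    ((K.al1 _).cont ε hε.le).comp (B.c_Dm _ (P1.c1 _ Z s0 (s1.trans hε') hZ))
  have i1 : Integrable fun x => ‖φ x‖ := int_c hφ.1.continuous.norm fun x hx => by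
    rw [(out1 B hφ hx).1, norm_zero]
  have i2 : Integrable fun x => ‖Dm φ x‖ := int_c (B.c_Dm φ hφ.1).norm fun x hx => by
    rw [(out1 B hφ hx).2, norm_zero]
  have p1 : 0 ≤ ∫ x, ‖φ x‖ := integral_nonneg fun _ => norm_nonneg _
  have p2 : 0 ≤ ∫ x, ‖Dm φ x‖ := integral_nonneg fun _ => norm_nonneg _
  rw [integral_add i2 i1]
  by_cases Z0 : Z = 0
  · refine (Pa.sup _ φ 0 (Pa.ib_c _ cG) hφ fun x _ => ?_).trans (by rw [zero_mul]; positivity)
    rw [GZ, hG]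
    simp [Z0, qf, A]
  obtain ⟨e₁, e₂, α, β, n1, n2, o, -, hx⟩ := (K.pl0 d n).form Z hZ Z0
  have nZ : 0 < ‖Z‖ := norm_pos_iff.2 Z0
  obtain ⟨Q, hQ⟩ : ∃ Q : X d →L[ℝ] X d, ∀ x, Q x = ⟪e₁, x⟫ • e₁ + ⟪e₂, x⟫ • e₂ :=
    ⟨(innerSL ℝ e₁).smulRight e₁ + (innerSL ℝ e₂).smulRight e₂, fun _ => rfl⟩
  have o' : ⟪e₂, e₁⟫ = 0 := by rw [real_inner_comm, o]
  have j1 : ⟪e₁, e₁⟫ = 1 := by rw [real_inner_self_eq_norm_sq, n1, one_pow]
  have j2 : ⟪e₂, e₂⟫ = 1 := by rw [real_inner_self_eq_norm_sq, n2, one_pow]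
  have q1 : ∀ x, ⟪e₁, Q x⟫ = ⟪e₁, x⟫ := fun x => by
    simp only [hQ, inner_add_right, real_inner_smul_right, j1, o, mul_one, mul_zero, add_zero]
  have q2 : ∀ x, ⟪e₂, Q x⟫ = ⟪e₂, x⟫ := fun x => by
    simp only [hQ, inner_add_right, real_inner_smul_right, j2, o', mul_one, mul_zero, zero_add]
  have q0 : ∀ x v, ⟪Q x, v⟫ = ⟪e₁, x⟫ * ⟪e₁, v⟫ + ⟪e₂, x⟫ * ⟪e₂, v⟫ := fun x v => by
    rw [hQ, inner_add_left, real_inner_smul_left, real_inner_smul_left]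
  have q3 : ∀ x v, ⟪Q x, Q v⟫ = ⟪Q x, v⟫ := fun x v => by rw [q0, q0, q1, q2]
  have q4 : ∑ i, ⟪Q (EuclideanSpace.single i 1), EuclideanSpace.single i 1⟫ = 2 := by
    simp only [q0, Finset.sum_add_distrib, ← real_inner_smul_right, ← inner_sum, sum_e, j1, j2]
    norm_num
  have q5 : ∀ x, ‖Q x‖ ^ 2 = r2 Z x := fun x => by
    rw [← real_inner_self_eq_norm_sq, q0, q1, q2, (hx x).2.2.1]
    ring
  have q6 : ∀ x, act (ap Z x) x = act (ap Z x) (Q x) := fun x => by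
    rw [(hx x).1]
    simp only [map_add, add_apply, B.act_out, q1, q2]
  have q7 : ∀ x, ‖ap Z x‖ ^ 2 = ‖Z‖ ^ 2 / 2 * ‖Q x‖ ^ 2 := fun x => by
    rw [q5, r2]
    field_simp
  have q8 : ∀ x, ‖ap Z x‖ ≤ 8 * ‖Q x‖ := fun x => by
    refine (abs_le_of_sq_le_sq' ?_ (by positivity)).2
    have : ‖Z‖ ^ 2 ≤ 8 ^ 2 := by gcongr
    rw [q7, mul_pow]
    gcongr
    linarith
  have q9 : ∀ x : X d, ‖x‖ < 1 → ‖ap Z x‖ ≤ ‖Z‖ ∧ ‖Q x‖ ^ 2 ≤ 2 := fun x h => by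
    have a := (B.n_ap Z x).trans (mul_le_of_le_one_right nZ.le h.le)
    have b := pow_le_pow_left₀ (norm_nonneg _) a 2
    refine ⟨a, le_of_mul_le_mul_left (a := ‖Z‖ ^ 2 / 2) ?_ (by positivity)⟩
    rw [← q7]
    linarith
  obtain ⟨η, hη⟩ : ∃ η, η = (ε ^ 2) ^ σ⁻¹ := ⟨_, rfl⟩
  have η0 : 0 < η := by rw [hη]; positivity
  have η1 : η ≤ 1 := hη ▸ Real.rpow_le_one (by positivity) (by nlinarith) (by positivity)
  have η2 : η ^ σ = ε ^ 2 := by rw [hη, Real.rpow_inv_rpow (by positivity) σ0.ne']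
  obtain ⟨g, hg⟩ : ∃ g, g = (‖Z‖ ^ 2 / 2) ^ (ε / 2) := ⟨_, rfl⟩
  have g0 : 0 ≤ g := by rw [hg]; positivity
  have g1 : g ≤ 32 := hg ▸ (Real.rpow_le_rpow (by positivity) (by nlinarith) (by positivity)).trans
    (Real.rpow_le_self_of_one_le (by norm_num) (by linarith))
  have cD := DD_c σ η0 Z Q
  have b1 : |pa (fun x => (1 : ℝ) • A ε (GZ ε Z x) + (-g) • DD σ η Z Q x) φ| ≤
      4608 * ε ^ 2 * ∫ x, ‖Dm φ x‖ := by
    refine Pa.sup _ φ _ (Pa.ib_c _ (by fun_prop)) hφ fun x hx1 => ?_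
    obtain ⟨a1, a2⟩ := q9 x (mem_ball_zero_iff.1 hx1)
    rw [one_smul, neg_smul, ← sub_eq_add_neg, GZ, hG, DD, qf, ← q5, (hx x).2.2.2.2, ← hQ, q6]
    rcases (sq_nonneg ‖Q x‖).eq_or_lt with h | h
    · have : ap Z x = 0 := by
        rw [← norm_eq_zero, ← pow_eq_zero_iff two_ne_zero, q7, ← h, mul_zero]
      simp only [this, A, map_zero, zero_apply, smul_zero, sub_zero, norm_zero]
      positivity
    · have := pt B (L := ap Z x) (g := g) h a2 η0 σ0.le (by linarith) hε.le rfl g0 (by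
        rw [hg, ← Real.mul_rpow (by positivity) (by positivity), ← q7, ← Real.rpow_natCast,
          ← Real.rpow_mul (norm_nonneg _)]
        congr 1
        push_cast
        ring) s3
      have e : (‖Q x‖ ^ 2) ^ (-ss ε / 2) • ap Z x - (ss ε * (‖Q x‖ ^ 2) ^ (-ss ε / 2 - 1) / ‖Z‖ ^ 2) •
          out (act (ap Z x) (Q x)) ((‖Z‖ ^ 2 / 2) • Q x) = (‖Q x‖ ^ 2) ^ (-σ) • (ap Z x -
            σ • (‖Q x‖ ^ 2)⁻¹ • out (act (ap Z x) (Q x)) (Q x)) := by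
        rw [hσ, show -(2 * σ) / 2 = -σ by ring, Real.rpow_sub_one h.ne', map_smul, smul_sub,
          smul_smul, smul_smul, smul_smul]
        congr 2
        field_simp
      rw [e]
      refine this.trans ?_
      rw [η2]
      calc _ ≤ 2 * (32 * (8 * ε * ε + ε ^ 2)) * 8 := by gcongr; exact a1.trans hn
        _ = _ := by ring
  have b2 : |pa (DD σ η Z Q) φ| ≤ 64 * ε ^ 2 * ∫ x, ‖φ x‖ := by
    rw [div B ((K.pl0 d n).st0 Z hZ) q3 q4 σ η0 hφ, abs_neg, ← integral_const_mul]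
    rw [← Real.norm_eq_abs]
    refine norm_integral_le_of_norm_le (i1.const_mul _) (ae_of_all _ fun x => ?_)
    rcases lt_or_ge ‖x‖ 1 with h | h
    · refine (abs_real_inner_le_norm _ _).trans (mul_le_mul_of_nonneg_right ?_ (norm_nonneg _))
      have a1 := sc3 (sq_nonneg _) (q9 x h).2 η0 η1 σ0.le (by linarith)
      have a2 : ‖act (ap Z x) x‖ ≤ 8 * ‖Q x‖ ^ 2 := by
        rw [q6]
        nlinarith [B.n_act (ap Z x) (Q x), mul_le_mul_of_nonneg_right (q8 x) (norm_nonneg (Q x))]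
      rw [η2] at a1
      rw [norm_smul, Real.norm_eq_abs, neg_mul, neg_mul, neg_mul, abs_neg,
        abs_of_nonneg (by positivity)]
      calc _ ≤ 2 * σ * (‖Q x‖ ^ 2 + η) ^ (σ - 1 - 1) * (η + σ * ‖Q x‖ ^ 2) * (8 * ‖Q x‖ ^ 2) := by
            gcongr
        _ = 16 * σ * ((‖Q x‖ ^ 2 + η) ^ (σ - 1 - 1) * (η + σ * ‖Q x‖ ^ 2) * ‖Q x‖ ^ 2) := by ring
        _ ≤ 16 * ε * (ε ^ 2 + 3 * ε) := by gcongr; exact a1.trans (by linarith)
        _ ≤ _ := by nlinarith [mul_nonneg (sq_nonneg ε) (by linarith : 0 ≤ 1 - ε)]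
    · rw [(out1 B hφ h).1, inner_zero_right, norm_zero, norm_zero, mul_zero]
  rw [Pa.add _ _ _ _ φ (Pa.ib_c _ cG) (Pa.ib_c _ cD) hφ] at b1
  have b3 := abs_add_le (1 * pa (fun x => A ε (GZ ε Z x)) φ + -g * pa (DD σ η Z Q) φ)
    (g * pa (DD σ η Z Q) φ)
  rw [neg_mul, neg_add_cancel_right, one_mul, abs_mul, abs_of_nonneg g0] at b3
  rw [neg_mul, one_mul] at b1
  have b4 := mul_le_mul g1 b2 (abs_nonneg _) (by norm_num)
  nlinarith [mul_nonneg (sq_nonneg ε) p1, mul_nonneg (sq_nonneg ε) p2]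

end Pool.Agent.MP_815c6c_an.N
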