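import Mathlib.Algebra.Order.Ring.Star
import Mathlib.Algebra.Order.Star.Real
import Pool.Agent.MP_815c6c_an.N.XSpec
import Mathlib.Topology.Sheaves.Presheaf
import Mathlib.Tactic.Monotonicity.Lemmas
import Mathlib.Analysis.InnerProductSpace.Calculus
import Mathlib.MeasureTheory.Integral.IntegralEqImproper
import Mathlib.Analysis.Real.Pi.Bounds
import Mathlib.Topology.UniformSpace.Uniformizable

-- ======== part 0: formerly Pool.Agent.MP_815c6c_an.N.Pk1
section MrgPart0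

/-! p-harmonic maps for `p` slightly above two, row PK1: first order bounds. -/

set_option autoImplicit false

noncomputable section

namespace Pool.Agent.MP_815c6c_an.N

open Set Metric MeasureTheory Filter Topology
open scoped ContDiff RealInnerProductSpace ENNReal

namespace Pk1A

variable {d n : ℕ}

theorem ss_pos {ε : ℝ} (h : 0 < ε) : 0 < ss ε := by unfold ss; positivity

theorem ss_le {ε : ℝ} (h : 0 < ε) : ss ε ≤ ε := by
  unfold ss
  rw [div_le_iff₀ (by positivity)]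
  nlinarith

theorem le_ss {ε : ℝ} (h : 0 < ε) : ε / 2 - ε ^ 2 / 4 ≤ ss ε := by
  unfold ss
  rw [le_div_iff₀ (by positivity)]
  nlinarith [pow_pos h 3]

theorem mp_add {ε : ℝ} {z w : X d → Gr d n} (hz : Mp ε z) (hw : Mp ε w) :
    Mp ε fun x => z x + w x := MemLp.add hz hw

theorem mp_sub {ε : ℝ} {z w : X d → Gr d n} (hz : Mp ε z) (hw : Mp ε w) :
    Mp ε fun x => z x - w x := MemLp.sub hz hw

theorem split (K : Kit) {G Γ : X d → Gr d n} {Z : He d n} (iG : Ib G) (iZ : Ib Γ)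
    (o : ∀ x, Γ (-x) = -Γ x) (H : He d n) (x : X d) :
    G x - ap H x = pr (fun x => G x - Γ x) x +
      (bb G + pr (fun x => Γ x - ap Z x) x + ap (HH G - H) x) := by
  have hK := K.ker d n
  have ia : Ib fun x => ap Z x := (K.par d n).ib_c _ (ap Z).continuous
  have sub : ∀ z w : X d → Gr d n, (fun x => z x - w x) = fun x => (1 : ℝ) • z x + (-1 : ℝ) • w x :=
    fun z w => funext fun x => by simp [sub_eq_add_neg]
  have bZ : bb Γ = 0 := hK.bb_odd _ o
  have ba : bb (fun x => ap Z x) = 0 := hK.bb_odd _ fun x => map_neg _ _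
  have Ha : HH (fun x => ap Z x) = Z := by simpa using hK.HH_aff 0 Z
  have b0 : bb (fun x => G x - Γ x) = bb G := by
    rw [sub, hK.bb_add _ _ _ _ iG iZ, bZ]
    simp
  have H0 : HH (fun x => G x - Γ x) = HH G - HH Γ := by
    rw [sub, hK.HH_add _ _ _ _ iG iZ]
    simp [sub_eq_add_neg]
  have b1 : bb (fun x => Γ x - ap Z x) = 0 := by
    rw [sub, hK.bb_add _ _ _ _ iZ ia, bZ, ba]
    simp
  have H1 : HH (fun x => Γ x - ap Z x) = HH Γ - Z := by
    rw [sub, hK.HH_add _ _ _ _ iZ ia, Ha]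
    simp [sub_eq_add_neg]
  simp only [pr, b0, H0, b1, H1, map_sub, sub_apply]
  abel

/-- the distance to the linear field -/
theorem eta (K : Kit) {Cx C1 Cp ε : ℝ} (hx : Exc d n Cx) (h1 : Pl1 d n C1) {u : X d → X n}
    {G : X d → Gr d n} {Z : He d n} (h0 : 0 < ε) (h8 : ε ≤ 1 / 8) (hP : Pre ε u G Z)
    (hp : ‖trc (HH G)‖ ≤ Cp * ε) :
    L2 (fun x => G x - ap (tl (HH G)) x) ≤ ez ε G Z + Cx * (‖bb G‖ + (4 * Cx * C1 + Cp) * ε) := by
  have hB := K.bas d n
  have hs := ss_pos h0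
  have hs8 := (ss_le h0).trans h8
  have cZ : Continuous (GZ ε Z) := hB.c_Dm _ (h1.c1 _ Z hs hs8 hP.pl)
  have iG : Ib G := (hx.ib ε G h0.le hP.sol.mG).1
  have iZ : Ib (GZ ε Z) := (K.par d n).ib_c _ cZ
  have o : ∀ x, GZ ε Z (-x) = -GZ ε Z x := fun x => h1.odd _ Z x hs hs8 hP.pl
  have near : ∀ x ∈ ball (0 : X d) 1, ‖GZ ε Z x - ap Z x‖ ≤ C1 * ss ε * ‖Z‖ :=
    h1.near _ Z hs hs8 hP.pl
  have a4 := hB.n_sub_tl (HH G)
  unfold ez
  generalize GZ ε Z = Γ at cZ iZ o near ⊢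
  generalize tl (HH G) = H at a4 ⊢
  rw [funext (split K (Z := Z) iG iZ o H)]
  have m0 := hx.mp_pr ε _ (mp_sub hP.sol.mG (hx.mp_c ε _ cZ))
  have c1 : Continuous fun x => Γ x - ap Z x := cZ.sub (ap Z).continuous
  have hsup := hx.pr_sup (C1 * ss ε * ‖Z‖) _ ((K.par d n).ib_c _ c1) near
  have m1 := hx.mp_pr ε _ (hx.mp_c ε _ c1)
  generalize (pr fun x => G x - Γ x) = z at m0 ⊢
  generalize (pr fun x => Γ x - ap Z x) = w at m1 hsup ⊢
  generalize HH G - H = M at a4 ⊢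
  have mw : Mp ε fun x => bb G + w x + ap M x :=
    mp_add (mp_add (hx.mp_c ε (fun _ => bb G) continuous_const) m1) (hx.mp_c ε _ (ap M).continuous)
  have a0 := (hx.l1 ε _ h0.le m0).2
  have := hx.l2_add ε (‖bb G‖ + (4 * Cx * C1 + Cp) * ε) _ _ h0.le m0 mw fun x hx' => by
    have a1 := hsup x hx'
    have a2 : ‖ap M x‖ ≤ Cp * ε := by
      have a3 := hB.n_ap M x
      have a5 : ‖x‖ ≤ 1 := (mem_ball_zero_iff.1 hx').le
      nlinarith [norm_nonneg M, norm_nonneg x]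
    have a6 : Cx * (C1 * ss ε * ‖Z‖) ≤ Cx * (C1 * ε * 4) := by
      have := hx.pos
      have := h1.pos
      have := ss_le h0
      have := hP.nZ
      gcongr
    have a7 := norm_add₃_le (a := bb G) (b := w x) (c := ap M x)
    linarith
  linarith

theorem sq_bd {l D m : ℝ} (h0 : 0 ≤ l) (h : l ≤ D * m) (hD : 0 ≤ D) (hm0 : 0 ≤ m) (hm : m ≤ 5) :
    l + l ^ 2 ≤ D * (1 + 5 * D) * m := by
  have h1 : l ≤ 5 * D := by nlinarith
  nlinarith [mul_le_mul h h1 h0 (mul_nonneg hD hm0)]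

end Pk1A

open Pk1A in
theorem pk1 : Kit → EvS → EllS → GapS → MixS → Pl1S → Pk0S → Pk1S := by
  intro K hEv hEll hGap hMix hPl hPk d n hd hFo θ hθ hθ8
  have hB := K.bas d n
  have hK := K.ker d n
  have hR := K.par d n
  have hA := K.al1 (Gr d n)
  obtain ⟨Cx, hx⟩ := K.exc d n
  obtain ⟨C1, h1⟩ := hPl d n
  obtain ⟨f, Ce, hf, hCe, hmo, hN, hE⟩ := hEv d n θ hθ (by linarith)
  obtain ⟨C0, hC0, hM, -⟩ := hMix d n
  obtain ⟨_, -, hPk'⟩ := hPk d n hd
  obtain ⟨Cp, ε₀, hCp, hε₀, hP0⟩ := hPk' θ hθ hθ8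
  obtain ⟨Cq, hCq, hq⟩ := hB.ts_tq f hf
  set Λ := Real.log θ⁻¹ with hΛ
  have hΛ0 : 0 < Λ := Real.log_pos ((one_lt_inv₀ hθ).2 (by linarith))
  have hd0 : (0 : ℝ) < d := by exact_mod_cast hd
  have hx1 := hx.pos
  have h10 := h1.pos
  set D := Cx * (1 + (4 * Cx * C1 + Cp)) with hD
  have hD0 : 0 ≤ D := by positivity
  set D2 := D * (1 + 5 * D) with hD2
  have hD20 : 0 ≤ D2 := by positivity
  refine ⟨Ce * C0 * D2 + 4 * Cq * C0 * D2, by positivity, fun δ hδ => ?_⟩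
  obtain ⟨g, hg, hG⟩ := hGap d n hFo f hf (by rw [hmo]; positivity) δ hδ
  set E := 4 * Λ + 4 * Cq * C0 * (1 + D2) with hEd
  have hE0 : 0 < E := by positivity
  refine ⟨g / 2, min (min ε₀ (1 / 8)) (g / (2 * E)), by positivity, by positivity,
    fun ε u G Z h0 hε hP hH => ?_⟩
  have h8 : ε ≤ 1 / 8 := hε.trans ((min_le_left _ _).trans (min_le_right _ _))
  have hεE : ε * (2 * E) ≤ g := (le_div_iff₀ (by positivity)).1 (hε.trans (min_le_right _ _))
  have hp := (hP0 ε u G Z h0 (hε.trans ((min_le_left _ _).trans (min_le_left _ _))) hP).2.2.2.1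
  have hl := eta K hx h1 h0 h8 hP hp
  set H := tl (HH G) with hH0
  have iu : Ib u := (hx.ib ε u h0.le hP.sol.mu).1
  have iG : Ib G := (hx.ib ε G h0.le hP.sol.mG).1
  have hst : St0 H := hB.tl_st0 _ hd (hK.sy u G iu iG hP.sol.wg)
  have hH4 : ‖H‖ ≤ 4 := (hB.n_tl _).trans hP.nH
  have ca : Continuous fun x => ap H x := (ap H).continuous
  have mη : Mp ε fun x => G x - ap H x := hP.sol.mG.sub (hx.mp_c ε _ ca)
  have hez : 0 ≤ ez ε G Z := Real.sqrt_nonneg _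
  have hb := norm_nonneg (bb G)
  have hl2 := sq_bd (D := D) (m := ε + ‖bb G‖ + ez ε G Z) (Real.sqrt_nonneg _) (hl.trans (by
    have a1 : 0 ≤ 4 * Cx * C1 + Cp := by positivity
    have a2 : 0 ≤ Cx * (4 * Cx * C1 + Cp) := by positivity
    rw [hD]
    nlinarith [mul_nonneg a2 hb, mul_nonneg a2 hez, mul_nonneg (sub_nonneg.2 hx1) hez,
      mul_nonneg (sub_nonneg.2 hx1) h0.le])) hD0 (by positivity)
    (by linarith [hP.nb, hP.ne])
  obtain ⟨hM1, hM2⟩ := hM ε H _ h0 h8 (by linarith) (by linarith) mη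
  simp only [add_sub_cancel] at hM1 hM2
  change L2 (fun x => G x - ap H x) + L2 (fun x => G x - ap H x) ^ 2 ≤ D2 * _ at hl2
  set l := L2 fun x => G x - ap H x
  obtain ⟨iA, iT⟩ := hx.ib_A ε G h0.le hP.sol.mG
  have iT' := (hx.ib_A ε _ h0.le (hx.mp_c ε _ ca)).2
  have iel : Ib fun x => el (ap H x) := hR.ib_c _ (hA.el_cont.comp ca)
  have hT : ∀ φ, Ts φ → pa G φ = pa (fun x => T ε (G x)) φ := fun φ hφ => by
    have := hR.add G (fun x => A ε (G x)) 1 (-1) φ iG iA hφ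
    rw [hP.sol.eq φ hφ] at this
    simp only [one_smul, neg_smul, one_mul, mul_zero, add_zero, ← sub_eq_add_neg] at this
    exact this.symm
  refine ⟨?_, fun hfar => ?_⟩
  · obtain ⟨φ, hφ, ho, hbd, he⟩ := hN (bb (sc θ G) - bb G)
    have e1 := he u G iu iG hP.sol.wg
    have e2 := hR.add _ _ 1 (-1) φ iT iT' hφ
    rw [hR.odd (fun x => T ε (ap H x)) φ hφ ho fun x => by
      simp only [T, map_neg, hA.neg]
      abel] at e2
    simp only [one_smul, neg_smul, one_mul, mul_zero, add_zero, ← sub_eq_add_neg] at e2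
    have e3 := hR.ah _ (iT.sub iT') φ _ hφ (fun x => (hbd x).1) fun x => (hbd x).2
    change |pa (fun x => T ε (G x) - T ε (ap H x)) φ| ≤
      L1 (fun x => T ε (G x) - T ε (ap H x)) * _ at e3
    rw [e2, ← hT φ hφ, ← e1, real_inner_self_eq_norm_sq] at e3
    set N := ‖bb (sc θ G) - bb G‖
    have hN0 : 0 ≤ N := norm_nonneg _
    have e4 : N * N ≤ (C0 * ε * (D2 * (ε + ‖bb G‖ + ez ε G Z)) * Ce) * N := by
      have a1 : L1 (fun x => T ε (G x) - T ε (ap H x)) ≤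
          C0 * ε * (D2 * (ε + ‖bb G‖ + ez ε G Z)) := hM1.trans (by gcongr)
      have a2 := mul_le_mul_of_nonneg_right a1 (mul_nonneg hCe hN0)
      have a3 := le_abs_self (N ^ 2)
      linarith
    have e5 : N ≤ C0 * ε * (D2 * (ε + ‖bb G‖ + ez ε G Z)) * Ce := by
      rcases hN0.eq_or_lt with c | c
      · rw [← c]
        positivity
      · exact le_of_mul_le_mul_right e4 c
    have e6 : 0 ≤ 4 * Cq * C0 * D2 * ε * (ε + ‖bb G‖ + ez ε G Z) := by positivity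
    linarith
  · obtain ⟨hψ, hbd⟩ := hq H
    have e1 := (hE u G iu iG hP.sol.wg).1 H hst
    have e2 := hR.add _ _ 1 ε _ iT iel hψ
    rw [hEll d n H _ hst hψ] at e2
    simp only [one_smul, one_mul] at e2
    have e3 := hR.ah _ (iT.add (iel.smul ε)) _ _ hψ (fun x => (hbd x).1) fun x => (hbd x).2
    change |pa (fun x => T ε (G x) + ε • el (ap H x)) (tq f H)| ≤
      L1 (fun x => T ε (G x) + ε • el (ap H x)) * _ at e3
    rw [e2, ← hT _ hψ, ← e1] at e3
    have e4 := hG H hst (by linarith) hfar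
    have e5 : ‖H‖ ^ 2 / (2 * d) * mo2 d f = ‖H‖ ^ 2 * Λ / 2 := by
      rw [hmo]
      field_simp
    rw [e5] at e4
    change |_ + ε * -lam f H H| ≤ _ at e3
    have e6 : ⟪HH G, H⟫ = ‖H‖ ^ 2 := by
      rw [← hB.i_tl _ _ hst.2, ← hH0, real_inner_self_eq_norm_sq]
    rw [inner_sub_left, e6] at e3
    rw [inner_sub_left, hB.i_tl _ _ hst.2, real_inner_smul_left, real_inner_self_eq_norm_sq]
    have e7 : 1 + (ε / 2 - ε ^ 2 / 4) * Λ ≤ θ ^ (-ss ε) := by
      rw [Real.rpow_def_of_pos hθ]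
      have a1 := Real.add_one_le_exp (Real.log θ * -ss ε)
      have a2 := mul_le_mul_of_nonneg_right (le_ss h0) hΛ0.le
      have a3 : Λ = -Real.log θ := Real.log_inv θ
      rw [a3] at a2 ⊢
      linarith
    have e8 : L1 (fun x => T ε (G x) + ε • el (ap H x)) * (Cq * ‖H‖) ≤
        C0 * ε * (ε + D2 * (ε + ‖bb G‖ + ez ε G Z)) * (Cq * 4) := by
      refine mul_le_mul (hM2.trans ?_) (by gcongr) (by positivity) (by positivity)
      exact mul_le_mul_of_nonneg_left (by linarith) (by positivity)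
    have e9 := (le_abs_self _).trans (e3.trans e8)
    have f1 := mul_le_mul_of_nonneg_right e7 (sq_nonneg ‖H‖)
    have f2 := mul_le_mul_of_nonneg_left e4 h0.le
    have f3 : ‖H‖ ^ 2 ≤ 4 ^ 2 := pow_le_pow_left₀ (norm_nonneg H) hH4 2
    have f4 := mul_le_mul_of_nonneg_left f3 (show 0 ≤ ε ^ 2 * Λ by positivity)
    have f5 := mul_le_mul_of_nonneg_left hεE h0.le
    have f6 : 0 ≤ Ce * C0 * D2 * ε * (‖bb G‖ + ez ε G Z) := by positivity
    rw [hEd] at f5
    linarith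

end Pool.Agent.MP_815c6c_an.N

end
end MrgPart0

-- ======== part 1: formerly Pool.Agent.MP_815c6c_an.N.Pl3
section MrgPart1

/-! The sign of the second order term of the planar model. -/

set_option autoImplicit false

noncomputable section

namespace Pool.Agent.MP_815c6c_an.N

open Set Metric MeasureTheory Filter Topology
open scoped ContDiff RealInnerProductSpace ENNReal

namespace Pl3A

variable {d n m : ℕ}

def yy (α β : X n) (t : ℝ) : ℝ :=
  ‖(Real.cos t ^ 2 - Real.sin t ^ 2) • α + (2 * Real.cos t * Real.sin t) • β‖ ^ 2 / 4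

def gam (N s ε y : ℝ) : ℝ := (N / 2 - (4 * s - s ^ 2) * y) ^ (ε / 2)

lemma yy_eq (α β : X n) (t : ℝ) : yy α β t = (‖α‖ ^ 2 + ‖β‖ ^ 2) / 8 +
    (Real.cos (4 * t) * ((‖α‖ ^ 2 - ‖β‖ ^ 2) / 8) + Real.sin (4 * t) * (⟪α, β⟫ / 4)) := by
  have e : (4 : ℝ) * t = 2 * (2 * t) := by ring
  have h := Real.sin_sq_add_cos_sq t
  rw [yy, norm_add_sq_real, norm_smul, norm_smul, mul_pow, mul_pow, Real.norm_eq_abs,
    Real.norm_eq_abs, sq_abs, sq_abs, real_inner_smul_left, real_inner_smul_right, e,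
    Real.cos_two_mul' (2 * t), Real.sin_two_mul (2 * t), Real.cos_two_mul' t, Real.sin_two_mul t]
  have h2 : (Real.cos t ^ 2 - Real.sin t ^ 2) ^ 2 + (2 * Real.cos t * Real.sin t) ^ 2 = 1 := by
    have : (Real.cos t ^ 2 - Real.sin t ^ 2) ^ 2 + (2 * Real.cos t * Real.sin t) ^ 2 =
      (Real.sin t ^ 2 + Real.cos t ^ 2) ^ 2 := by ring
    rw [this, h, one_pow]
  linear_combination ((‖α‖ ^ 2 + ‖β‖ ^ 2) / 8) * h2

lemma yy_nonneg (α β : X n) (t : ℝ) : 0 ≤ yy α β t := by unfold yy; positivity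

lemma yy_le (α β : X n) (t : ℝ) : yy α β t ≤ (‖α‖ ^ 2 + ‖β‖ ^ 2) / 4 := by
  have h := Real.sin_sq_add_cos_sq t
  obtain ⟨a, ha⟩ : ∃ a, a = Real.cos t ^ 2 - Real.sin t ^ 2 := ⟨_, rfl⟩
  obtain ⟨b, hb⟩ : ∃ b, b = 2 * Real.cos t * Real.sin t := ⟨_, rfl⟩
  have h2 : |a| ^ 2 + |b| ^ 2 = 1 := by
    have : a ^ 2 + b ^ 2 = (Real.sin t ^ 2 + Real.cos t ^ 2) ^ 2 := by rw [ha, hb]; ring
    rw [sq_abs, sq_abs, this, h, one_pow]
  have h3 : ‖a • α + b • β‖ ≤ |a| * ‖α‖ + |b| * ‖β‖ := by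
    simpa only [norm_smul, Real.norm_eq_abs] using norm_add_le (a • α) (b • β)
  have h4 := pow_le_pow_left₀ (norm_nonneg _) h3 2
  rw [yy, ← ha, ← hb]
  nlinarith [sq_nonneg (|a| * ‖β‖ - |b| * ‖α‖)]

lemma yy_cont (α β : X n) : Continuous (yy α β) := by unfold yy; fun_prop

lemma intOn {k : ℝ → ℝ} (h : Continuous k) : IntegrableOn k (Ioo (-Real.pi) Real.pi) :=
  (h.continuousOn.integrableOn_Icc).mono_set Ioo_subset_Icc_self

lemma yy_int (α β : X n) :
    ∫ t in Ioo (-Real.pi) Real.pi, yy α β t = 2 * Real.pi * ((‖α‖ ^ 2 + ‖β‖ ^ 2) / 8) := by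
  obtain ⟨a, ha⟩ : ∃ a, a = (‖α‖ ^ 2 + ‖β‖ ^ 2) / 8 := ⟨_, rfl⟩
  obtain ⟨b, hb⟩ : ∃ b, b = (‖α‖ ^ 2 - ‖β‖ ^ 2) / 8 := ⟨_, rfl⟩
  obtain ⟨c, hc⟩ : ∃ c, c = ⟪α, β⟫ / 4 := ⟨_, rfl⟩
  have hd : ∀ t, HasDerivAt (fun t => a * t + (Real.sin (4 * t) * (b / 4) -
      Real.cos (4 * t) * (c / 4))) (yy α β t) t := fun t => by
    have h4 : HasDerivAt (fun t : ℝ => 4 * t) 4 t := by simpa using (hasDerivAt_id t).const_mul 4
    have := ((hasDerivAt_id t).const_mul a).add ((h4.sin.mul_const (b / 4)).sub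
      (h4.cos.mul_const (c / 4)))
    refine this.congr_deriv ?_
    rw [yy_eq, ← ha, ← hb, ← hc]
    ring
  rw [← integral_Ioc_eq_integral_Ioo, ← intervalIntegral.integral_of_le (by linarith [Real.pi_pos]),
    intervalIntegral.integral_eq_sub_of_hasDerivAt (fun t _ => hd t)
      ((yy_cont α β).intervalIntegrable _ _), ← ha]
  have e : Real.sin (4 * Real.pi) = 0 := by exact_mod_cast Real.sin_nat_mul_pi 4
  rw [mul_neg, mul_neg, Real.sin_neg, Real.cos_neg, e]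
  ring

lemma base {N s y : ℝ} (hN : 1 / 64 ≤ N) (hs : 0 < s) (hs' : s ≤ 1 / 8) (h0 : 0 ≤ y)
    (h1 : y ≤ N / 8) : 1 / 256 ≤ N / 2 - (4 * s - s ^ 2) * y := by
  have : (4 * s - s ^ 2) * y ≤ 1 / 2 * (N / 8) :=
    mul_le_mul (by nlinarith) h1 h0 (by norm_num)
  linarith

lemma pt {N s ε y : ℝ} (hN : 1 / 64 ≤ N) (hs : 0 < s) (hs' : s ≤ 1 / 8) (hε : 0 < ε)
    (hε' : ε ≤ 1 / 8) (h0 : 0 ≤ y) (h1 : y ≤ N / 8) :
    gam N s ε (N / 16) * (N - 16 * y) + s ^ 2 * y ≤ gam N s ε y * (N - 16 * y + 2 * s ^ 2 * y) := by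
  have b1 := base hN hs hs' h0 h1
  have b2 := base hN hs hs' (y := N / 16) (by linarith) (by linarith)
  have k : 0 ≤ 4 * s - s ^ 2 := by nlinarith
  have g1 : 1 / 2 ≤ gam N s ε y := by
    have e : (1 / 2 : ℝ) = (1 / 256 : ℝ) ^ ((8 : ℕ) : ℝ)⁻¹ := by
      rw [show (1 / 256 : ℝ) = (1 / 2) ^ 8 by norm_num,
        Real.pow_rpow_inv_natCast (by norm_num) (by norm_num)]
    rw [e]
    refine le_trans (Real.rpow_le_rpow_of_exponent_ge (by norm_num) (by norm_num) ?_)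
      (Real.rpow_le_rpow (by norm_num) b1 (by positivity))
    push_cast
    linarith
  have g2 : gam N s ε (N / 16) * (N - 16 * y) ≤ gam N s ε y * (N - 16 * y) := by
    rcases le_total y (N / 16) with h | h
    · exact mul_le_mul_of_nonneg_right (Real.rpow_le_rpow (by linarith)
        (by nlinarith [mul_le_mul_of_nonneg_left h k]) (by positivity)) (by linarith)
    · exact mul_le_mul_of_nonpos_right (Real.rpow_le_rpow (by linarith)
        (by nlinarith [mul_le_mul_of_nonneg_left h k]) (by positivity)) (by linarith)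
  nlinarith [mul_nonneg (sq_nonneg s) h0]

lemma gam_cont (N s : ℝ) {ε : ℝ} (hε : 0 < ε) (α β : X n) :
    Continuous fun t => gam N s ε (yy α β t) := by
  have := yy_cont α β
  exact (Real.continuous_rpow_const (by positivity)).comp (by fun_prop)

lemma ang {N s ε : ℝ} {α β : X n} (hN : 1 / 64 ≤ N) (hs : 0 < s) (hs' : s ≤ 1 / 8) (hε : 0 < ε)
    (hε' : ε ≤ 1 / 8) (e : N = 2 * (‖α‖ ^ 2 + ‖β‖ ^ 2)) :
    s ^ 2 / 256 ≤ ∫ t in Ioo (-Real.pi) Real.pi,
      gam N s ε (yy α β t) * (N - 16 * yy α β t + 2 * s ^ 2 * yy α β t) := by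
  have c1 := yy_cont α β
  have c2 := gam_cont N s hε α β
  refine le_trans ?_ (setIntegral_mono (intOn (by fun_prop)) (intOn (by fun_prop)) fun t =>
    pt hN hs hs' hε hε' (yy_nonneg α β t) ((yy_le α β t).trans (by linarith)))
  have v : volume.real (Ioo (-Real.pi) Real.pi) = 2 * Real.pi := by
    rw [Real.volume_real_Ioo_of_le (by linarith [Real.pi_pos])]
    ring
  rw [integral_add (intOn (by fun_prop)) (intOn (by fun_prop)), integral_const_mul,
    integral_const_mul, integral_sub (intOn (by fun_prop)) (intOn (by fun_prop)),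
    integral_const_mul, yy_int, setIntegral_const, v, smul_eq_mul]
  have h : ‖α‖ ^ 2 + ‖β‖ ^ 2 = N / 2 := by linarith
  have h2 : 2 * Real.pi * N - 16 * (2 * Real.pi * (N / 2 / 8)) = 0 := by ring
  rw [h, h2]
  have h3 : 1 / 256 ≤ 2 * Real.pi * (N / 2 / 8) := by nlinarith [Real.pi_gt_three]
  nlinarith [sq_nonneg s]

lemma dz {f : ℝ → ℝ} (hf : Rad f) {t : ℝ} (ht : 1 ≤ t) : deriv f t = 0 := by
  have : f =ᶠ[𝓝 t] fun _ => 0 :=
    (eventually_gt_nhds (by linarith : 1 / 4 < t)).mono fun u hu => hf.2.1 u hu.le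
  rw [this.deriv_eq, deriv_const]

lemma int1 {g k : ℝ → ℝ} (hg : Continuous g) (hk : Continuous k) (h : ∀ t, 1 ≤ t → g t = 0)
    {c : ℝ} (hc : 0 ≤ c) : IntegrableOn (fun r => k r * g (r ^ 2 + c)) (Ioi 0) := by
  refine (Continuous.integrable_of_hasCompactSupport (by fun_prop)
    (HasCompactSupport.intro (isCompact_closedBall 0 1) fun r hr => ?_)).integrableOn
  rw [mem_closedBall_zero_iff, not_le, Real.norm_eq_abs] at hr
  rw [h _ (by nlinarith [sq_abs r]), mul_zero]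

lemma parts {f : ℝ → ℝ} (hf : Rad f) {s c : ℝ} (hs : 0 < s) (hc : 0 ≤ c) :
    ∫ r in Ioi (0 : ℝ), r ^ (s + 5) * deriv f (r ^ 2 + c) =
      -((s + 4) / 2) * ∫ r in Ioi (0 : ℝ), r ^ (s + 3) * f (r ^ 2 + c) := by
  have c0 := hf.1.continuous
  have c1 := hf.1.continuous_deriv (by simp)
  have p : ∀ σ : ℝ, 0 ≤ σ → Continuous fun r : ℝ => r ^ σ := fun σ h => Real.continuous_rpow_const h
  have i1 := int1 c0 (p (s + 3) (by linarith)) (fun t h => hf.2.1 t (by linarith)) hc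
  have i2 := int1 c1 (p (s + 5) (by linarith)) (fun t h => dz hf h) hc
  have p4 := p (s + 4) (by linarith)
  have h := integral_Ioi_of_hasDerivAt_of_tendsto (a := 0) (m := 0)
    (f := fun r : ℝ => r ^ (s + 4) * f (r ^ 2 + c))
    (f' := fun r => (s + 4) * (r ^ (s + 3) * f (r ^ 2 + c)) + 2 * (r ^ (s + 5) * deriv f (r ^ 2 + c)))
    (Continuous.continuousWithinAt (by fun_prop)) (fun r hr => ?_)
    ((i1.const_mul _).add (i2.const_mul _)) ?_
  · rw [integral_add (i1.const_mul _) (i2.const_mul _), integral_const_mul, integral_const_mul,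
      Real.zero_rpow (by linarith)] at h
    linarith
  · have hr : (0 : ℝ) < r := hr
    have a1 := Real.hasDerivAt_rpow_const (x := r) (p := s + 4) (Or.inl hr.ne')
    have a2 : HasDerivAt (fun r : ℝ => r ^ 2 + c) (2 * r) r := by
      simpa using (hasDerivAt_pow 2 r).add_const c
    have a3 := ((hf.1.differentiable (by simp)) (r ^ 2 + c)).hasDerivAt.comp r a2
    refine (a1.mul a3).congr_deriv ?_
    rw [show s + 4 - 1 = s + 3 by ring, show s + 5 = s + 4 + 1 by ring, Real.rpow_add_one hr.ne']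
    simp only [Function.comp]
    ring
  · refine tendsto_const_nhds.congr' ((eventually_ge_atTop 1).mono fun r hr => ?_)
    simp only
    rw [hf.2.1 _ (by nlinarith), mul_zero]

def FF (m : ℕ) (f : ℝ → ℝ) (σ : ℝ) (p : X m × ℝ) : ℝ := max p.2 0 ^ σ * f (p.2 ^ 2 + ‖p.1‖ ^ 2)

lemma FF_c {f : ℝ → ℝ} (hf : Rad f) {σ : ℝ} (h : 0 ≤ σ) :
    Continuous (FF m f σ) ∧ HasCompactSupport (FF m f σ) := by
  have c0 := hf.1.continuous
  refine ⟨((Real.continuous_rpow_const h).comp (by fun_prop)).mul (by fun_prop),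
    HasCompactSupport.intro (isCompact_closedBall 0 1) fun p hp => ?_⟩
  rw [mem_closedBall_zero_iff, not_le, Prod.norm_def, lt_max_iff, Real.norm_eq_abs] at hp
  rw [FF, hf.2.1, mul_zero]
  rcases hp with h | h
  · nlinarith [sq_nonneg p.2]
  · nlinarith [sq_abs p.2, sq_nonneg ‖p.1‖]

lemma FF_nn {f : ℝ → ℝ} (hf : Rad f) (σ : ℝ) (p : X m × ℝ) : 0 ≤ FF m f σ p :=
  mul_nonneg (Real.rpow_nonneg (le_max_right _ _) _) (hf.2.2 _ (by positivity))

lemma FF_int {f : ℝ → ℝ} (hf : Rad f) {σ : ℝ} (h : 0 < σ) : ∫ p, FF m f σ p =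
    ∫ w : X m, ∫ r in Ioi (0 : ℝ), r ^ σ * f (r ^ 2 + ‖w‖ ^ 2) := by
  obtain ⟨a, b⟩ := FF_c (m := m) hf h.le
  rw [Measure.volume_eq_prod, integral_prod _ (a.integrable_of_hasCompactSupport b)]
  refine integral_congr_ae (Eventually.of_forall fun w => ?_)
  simp only
  rw [← setIntegral_eq_integral_of_forall_compl_eq_zero (s := Ioi 0) fun r hr => by
    rw [FF, max_eq_right (not_lt.1 hr), Real.zero_rpow h.ne', zero_mul]]
  exact setIntegral_congr_fun measurableSet_Ioi fun r hr => by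
    simp only [FF, max_eq_left (mem_Ioi.1 hr).le]

lemma FF_mono {f : ℝ → ℝ} (hf : Rad f) {σ : ℝ} (h : 0 < σ) (h' : σ ≤ 4) :
    ∫ p, FF m f 4 p ≤ ∫ p, FF m f σ p := by
  obtain ⟨a, b⟩ := FF_c (m := m) hf h.le
  obtain ⟨a', b'⟩ := FF_c (m := m) hf (by norm_num : (0 : ℝ) ≤ 4)
  refine integral_mono (a'.integrable_of_hasCompactSupport b')
    (a.integrable_of_hasCompactSupport b) fun p => ?_
  by_cases hp : p.2 ≤ 1
  · exact mul_le_mul_of_nonneg_right (Real.rpow_le_rpow_of_exponent_ge' (le_max_right _ _)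
      (max_le hp zero_le_one) h.le h') (hf.2.2 _ (by positivity))
  · simp only [FF]
    rw [hf.2.1 _ (by nlinarith [sq_nonneg ‖p.1‖]), mul_zero, mul_zero]

lemma FF_pos {f : ℝ → ℝ} (hf : Rad f) (h : 0 < mo2 d f) : 0 < ∫ p, FF m f 4 p := by
  obtain ⟨a, b⟩ := FF_c (m := m) hf (by norm_num : (0 : ℝ) ≤ 4)
  obtain ⟨x, hx⟩ : ∃ x : X d, f (‖x‖ ^ 2) * ‖x‖ ^ 2 ≠ 0 := by
    by_contra! H
    simp only [mo2, H, integral_zero, lt_self_iff_false] at h
  refine a.integral_pos_of_hasCompactSupport_nonneg_nonzero b (FF_nn hf 4) (x := (0, ‖x‖)) ?_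
  have h1 : 0 < ‖x‖ := (norm_nonneg x).lt_of_ne' fun e => hx (by simp [e])
  simp only [FF, norm_zero, max_eq_left h1.le]
  exact mul_ne_zero (Real.rpow_pos_of_pos h1 _).ne' (by simpa using left_ne_zero_of_mul hx)

lemma grad {f : ℝ → ℝ} (hf : Rad f) (x : X d) :
    HasGradientAt (fun y : X d => f (‖y‖ ^ 2)) ((2 * deriv f (‖x‖ ^ 2)) • x) x := by
  have a := ((hf.1.differentiable (by simp)) (‖x‖ ^ 2)).hasDerivAt.comp_hasFDerivAt x
    (hasStrictFDerivAt_norm_sq x).hasFDerivAt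
  rw [hasGradientAt_iff_hasFDerivAt]
  refine a.congr_fderiv ?_
  ext v
  simp
  ring

lemma alg (B : Bas d n) {L : Gr d n} {q : X n} {P x : X d} {N r y s a b : ℝ} (hr : 0 < r)
    (h1 : ‖L‖ ^ 2 = N * r ^ 2 / 2) (h2 : act L P = q) (h3 : act L x = q)
    (h4 : ‖q‖ ^ 2 = 4 * y * r ^ 4) (h5 : ⟪P, P⟫ = r ^ 2) (h6 : ⟪P, x⟫ = r ^ 2) :
    ‖L - (s / (2 * r ^ 2)) • out q P‖ ^ 2 = r ^ 2 * (N / 2 - (4 * s - s ^ 2) * y) ∧
    ⟪L - (s / (2 * r ^ 2)) • out q P, a • (2 : ℝ) • L + out q ((2 * b) • x)⟫ =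
      r ^ 2 * a * (N - 4 * s * y) + r ^ 4 * b * (8 * y * (1 - s / 2)) := by
  have e1 : ⟪L, L⟫ = N * r ^ 2 / 2 := by rw [real_inner_self_eq_norm_sq, h1]
  have e0 : ⟪q, q⟫ = 4 * y * r ^ 4 := by rw [real_inner_self_eq_norm_sq, h4]
  have e2 : ⟪L, out q P⟫ = 4 * y * r ^ 4 := by rw [B.i_out, h2, e0]
  have e3 : ⟪L, out q x⟫ = 4 * y * r ^ 4 := by rw [B.i_out, h3, e0]
  have e4 : ⟪out q P, out q P⟫ = r ^ 2 * (4 * y * r ^ 4) := by
    rw [B.i_out, B.act_out, real_inner_smul_left, h5, e0]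
  have e5 : ⟪out q P, out q x⟫ = r ^ 2 * (4 * y * r ^ 4) := by
    rw [B.i_out, B.act_out, real_inner_smul_left, h6, e0]
  have e6 : ⟪out q P, L⟫ = 4 * y * r ^ 4 := by rw [real_inner_comm, e2]
  rw [← real_inner_self_eq_norm_sq, map_smul]
  simp only [inner_sub_left, inner_sub_right, inner_add_right, real_inner_smul_left,
    real_inner_smul_right, e1, e2, e3, e4, e5, e6]
  constructor <;> field_simp <;> ring

end Pl3A

open Pl3A in
theorem pl3 : Kit → Pl1S → PlaS → Pl4S → Pl3S := by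
  intro K h1 hA _ d n f hf hm
  have B := K.bas d n
  have Pa := K.par d n
  obtain ⟨C, P1⟩ := h1 d n
  have J0 := FF_pos (m := d - 2) hf hm
  refine ⟨(∫ p, FF (d - 2) f 4 p) / (256 * 9), by positivity, fun ε Z hε hε' hZ hn => ?_⟩
  have Z0 : Z ≠ 0 := fun e => by rw [e, norm_zero] at hn; linarith
  obtain ⟨e₁, e₂, α, β, n1, n2, o, hN, hx⟩ := (K.pl0 d n).form Z hZ Z0
  obtain ⟨m, L, rfl, hL, hF⟩ := hA d e₁ e₂ n1 n2 o
  rw [Nat.add_sub_cancel] at J0 ⊢
  obtain ⟨s, hs⟩ : ∃ s, s = ss ε := ⟨_, rfl⟩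
  have s0 : 0 < s := by rw [hs, ss]; positivity
  have s1 : s ≤ 1 / 8 := by rw [hs, ss, div_le_iff₀ (by positivity)]; linarith
  have s2 : ε / 3 ≤ s := by rw [hs, ss]; gcongr; linarith
  have s3 : (1 - s) * ε = 2 * s := by rw [hs, ss]; field_simp; ring
  obtain ⟨N, eN⟩ : ∃ N, N = ‖Z‖ ^ 2 := ⟨_, rfl⟩
  have N0 : 1 / 64 ≤ N := by rw [eN]; nlinarith
  rw [← eN] at hN hx
  obtain ⟨_, _, hT⟩ := B.ts_tq f hf
  have cG : Continuous (GZ ε Z) := B.c_Dm _ (hs ▸ P1.c1 s Z s0 s1 hZ)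
  have iF := Pa.int (fun x => A ε (GZ ε Z x)) (tq f Z)
    (Pa.ib_c _ (((K.al1 _).cont ε hε.le).comp cG)) (hT Z).1
  have o' : ⟪e₂, e₁⟫ = 0 := by rw [real_inner_comm, o]
  have i1 : ⟪e₁, e₁⟫ = 1 := by rw [real_inner_self_eq_norm_sq, n1, one_pow]
  have i2 : ⟪e₂, e₂⟫ = 1 := by rw [real_inner_self_eq_norm_sq, n2, one_pow]
  have key : ∀ (w : X m) (r t : ℝ), 0 < r →
      r * ⟪A ε (GZ ε Z ((r * Real.cos t) • e₁ + (r * Real.sin t) • e₂ + L w)),
        Dm (tq f Z) ((r * Real.cos t) • e₁ + (r * Real.sin t) • e₂ + L w)⟫ =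
      r ^ (s + 3) * f (r ^ 2 + ‖w‖ ^ 2) * (gam N s ε (yy α β t) * (N - 4 * s * yy α β t)) +
      r ^ (s + 5) * deriv f (r ^ 2 + ‖w‖ ^ 2) *
        (gam N s ε (yy α β t) * (8 * yy α β t * (1 - s / 2))) := by
    intro w r t hr
    obtain ⟨P, hP⟩ : ∃ P, P = (r * Real.cos t) • e₁ + (r * Real.sin t) • e₂ := ⟨_, rfl⟩
    obtain ⟨x, ex⟩ : ∃ x, x = P + L w := ⟨_, rfl⟩
    rw [← hP, ← ex]
    have tr := Real.sin_sq_add_cos_sq t
    have p1 : ⟪e₁, P⟫ = r * Real.cos t := by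
      simp only [hP, inner_add_right, real_inner_smul_right, i1, o, mul_one, mul_zero, add_zero]
    have p2 : ⟪e₂, P⟫ = r * Real.sin t := by
      simp only [hP, inner_add_right, real_inner_smul_right, i2, o', mul_one, mul_zero, zero_add]
    have x1 : ⟪e₁, x⟫ = r * Real.cos t := by rw [ex, inner_add_right, p1, (hL w).1, add_zero]
    have x2 : ⟪e₂, x⟫ = r * Real.sin t := by rw [ex, inner_add_right, p2, (hL w).2, add_zero]
    have pv : ∀ v, ⟪P, v⟫ = r * Real.cos t * ⟪e₁, v⟫ + r * Real.sin t * ⟪e₂, v⟫ := fun v => by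
      rw [hP, inner_add_left, real_inner_smul_left, real_inner_smul_left]
    have pp : ⟪P, P⟫ = r ^ 2 := by rw [pv, p1, p2]; linear_combination r ^ 2 * tr
    have px : ⟪P, x⟫ = r ^ 2 := by rw [pv, x1, x2]; linear_combination r ^ 2 * tr
    have nx : ‖x‖ ^ 2 = r ^ 2 + ‖w‖ ^ 2 := by
      rw [ex, norm_add_sq_real, pv, (hL w).1, (hL w).2, L.norm_map, ← real_inner_self_eq_norm_sq, pp]
      ring
    obtain ⟨f1, f2, f3, -, f5⟩ := hx x
    rw [x1, x2] at f1 f2 f3 f5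
    have r2e : r2 Z x = r ^ 2 := by rw [f3]; linear_combination r ^ 2 * tr
    have nL : ‖ap Z x‖ ^ 2 = N * r ^ 2 / 2 := by
      rw [← r2e, r2, ← eN]
      field_simp
    have aP : act (ap Z x) P = qf Z x := by
      rw [qf, f1]
      simp only [map_add, add_apply, B.act_out, p1, p2, x1, x2]
    have nq : ‖qf Z x‖ ^ 2 = 4 * yy α β t * r ^ 4 := by
      have : qf Z x = r ^ 2 • ((Real.cos t ^ 2 - Real.sin t ^ 2) • α +
          (2 * Real.cos t * Real.sin t) • β) := by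
        rw [f2, smul_add, smul_smul, smul_smul]
        congr 2 <;> ring
      rw [this, norm_smul, mul_pow, Real.norm_eq_abs, sq_abs, yy]
      ring
    obtain ⟨a1, a2⟩ := alg B (s := s) (a := f (r ^ 2 + ‖w‖ ^ 2)) (b := deriv f (r ^ 2 + ‖w‖ ^ 2))
      hr nL aP rfl nq pp px
    obtain ⟨D, hD⟩ : ∃ D, D = ap Z x - (s / (2 * r ^ 2)) • out (qf Z x) P := ⟨_, rfl⟩
    have q0 : (r ^ 2) ^ (-s / 2) = r ^ (-s) := by
      rw [← Real.rpow_natCast, ← Real.rpow_mul hr.le]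
      congr 1
      push_cast
      ring
    have eG : GZ ε Z x = r ^ (-s) • D := by
      rw [GZ, ← hs, P1.form s Z x s0 s1 hZ, r2e, f5, ← hP, ← eN,
        Real.rpow_sub_one (by positivity), q0, map_smul, hD, smul_sub, smul_smul, smul_smul]
      congr 2
      field_simp
    have eD : Dm (tq f Z) x = f (r ^ 2 + ‖w‖ ^ 2) • (2 : ℝ) • ap Z x +
        out (qf Z x) ((2 * deriv f (r ^ 2 + ‖w‖ ^ 2)) • x) := by
      have := B.D_smul (fun y => f (‖y‖ ^ 2)) (qf Z) x (grad hf x).differentiableAt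
        (((B.c_qf Z).differentiable (by simp)) x)
      rw [(grad hf x).gradient, B.D_qf Z ((K.pl0 _ _).st0 Z hZ).1, nx] at this
      exact this
    rw [← hD] at a1 a2
    have b0 := base N0 s0 s1 (yy_nonneg α β t) ((yy_le α β t).trans (by linarith))
    have nD : ‖D‖ ^ ε = r ^ ε * gam N s ε (yy α β t) := by
      have u : ∀ v : ℝ, 0 ≤ v → (v ^ 2) ^ (ε / 2) = v ^ ε := fun v hv => by
        rw [← Real.rpow_natCast, ← Real.rpow_mul hv]
        congr 1
        push_cast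
        ring
      rw [← u _ (norm_nonneg D), a1, Real.mul_rpow (by positivity) (by linarith), u r hr.le, gam]
    have w0 : (r ^ (-s)) ^ ε * r ^ (-s) * r ^ ε = r ^ s := by
      rw [← Real.rpow_mul hr.le, ← Real.rpow_add hr, ← Real.rpow_add hr]
      congr 1
      linarith
    have w3 : r ^ (s + 3) = r ^ s * r ^ 3 := by
      rw [Real.rpow_add hr]; norm_cast
    have w5 : r ^ (s + 5) = r ^ s * r ^ 5 := by
      rw [Real.rpow_add hr]; norm_cast
    rw [eG, (K.al1 _).smul ε _ D (Real.rpow_nonneg hr.le _), A, eD, real_inner_smul_left,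
      real_inner_smul_left, a2, nD, w3, w5, ← w0]
    ring
  have c1 := yy_cont α β
  have c2 := gam_cont N s hε α β
  have c0 := hf.1.continuous
  have c0' := hf.1.continuous_deriv (by simp)
  have p : ∀ σ : ℝ, 0 ≤ σ → Continuous fun r : ℝ => r ^ σ := fun σ h => Real.continuous_rpow_const h
  obtain ⟨Q, hQ⟩ : ∃ Q, Q = ∫ t in Ioo (-Real.pi) Real.pi,
    gam N s ε (yy α β t) * (N - 16 * yy α β t + 2 * s ^ 2 * yy α β t) := ⟨_, rfl⟩
  have hQ1 : s ^ 2 / 256 ≤ Q := hQ ▸ ang N0 s0 s1 hε hε' hN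
  have fin : pa (fun x => A ε (GZ ε Z x)) (tq f Z) = (∫ p, FF m f (s + 3) p) * Q := by
    rw [pa, (hF _ iF).2, FF_int hf (by linarith), ← integral_mul_const]
    refine integral_congr_ae (Eventually.of_forall fun w => ?_)
    have j1 := int1 c0 (p (s + 3) (by linarith)) (fun t h => hf.2.1 t (by linarith)) (sq_nonneg ‖w‖)
    have j2 := int1 c0' (p (s + 5) (by linarith)) (fun t h => dz hf h) (sq_nonneg ‖w‖)
    have k1 := intOn (k := fun t => gam N s ε (yy α β t) * (N - 4 * s * yy α β t)) (by fun_prop)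
    have k2 := intOn (k := fun t => gam N s ε (yy α β t) * (8 * yy α β t * (1 - s / 2)))
      (by fun_prop)
    have eQ : Q = (∫ t in Ioo (-Real.pi) Real.pi, gam N s ε (yy α β t) * (N - 4 * s * yy α β t)) +
        -((s + 4) / 2) * ∫ t in Ioo (-Real.pi) Real.pi,
          gam N s ε (yy α β t) * (8 * yy α β t * (1 - s / 2)) := by
      rw [← integral_const_mul, ← integral_add k1 (k2.const_mul _), hQ]
      exact integral_congr_ae (Eventually.of_forall fun t => by ring)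
    simp only
    rw [setIntegral_congr_fun measurableSet_Ioi fun r hr => by
      simp only [key w r _ hr]
      rw [integral_add (k1.const_mul _) (k2.const_mul _), integral_const_mul, integral_const_mul],
      integral_add (j1.mul_const _) (j2.mul_const _), integral_mul_const, integral_mul_const,
      parts hf s0 (sq_nonneg _), eQ]
    ring
  have mo := FF_mono (m := m) hf (σ := s + 3) (by linarith) (by linarith)
  rw [fin]
  have : ε ^ 2 / (256 * 9) ≤ Q := by nlinarith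
  calc _ = (∫ p, FF m f 4 p) * (ε ^ 2 / (256 * 9)) := by ring
    _ ≤ _ := mul_le_mul mo this (by positivity) (J0.le.trans mo)

end Pool.Agent.MP_815c6c_an.N

end
end MrgPart1

-- marker of a merged file
example : 731051 + 765705 = 731051 + 765705 := rfl
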