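import Mathlib.Algebra.Order.Star.Real
import Mathlib.Topology.UniformSpace.Uniformizable
import Pool.Agent.MP_815c6c_an.N.XSpec

/-! Row PK2, first half: bounds near planar Hessians. -/

set_option autoImplicit false

noncomputable section

namespace Pool.Agent.MP_815c6c_an.N

open Set Metric MeasureTheory Filter Topology
open scoped ContDiff RealInnerProductSpace ENNReal

namespace Pk2A

variable {d n : ℕ} {Ce C2 C1 : ℝ}

theorem ss_bd {ε : ℝ} (h0 : 0 < ε) (h1 : ε ≤ 1 / 8) :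
    0 < ss ε ∧ ss ε ≤ ε / 2 ∧ ss ε ≤ 1 / 8 ∧ ε / 2 - ε ^ 2 / 4 ≤ ss ε := by
  have h2 : 0 < 2 + ε := by linarith
  have h3 : ss ε ≤ ε / 2 := by unfold ss; rw [div_le_iff₀ h2]; nlinarith
  refine ⟨div_pos h0 h2, h3, by linarith, ?_⟩
  unfold ss; rw [le_div_iff₀ h2]; nlinarith [pow_pos h0 3]

theorem L2_nn {E : Type} [NormedAddCommGroup E] (z : X d → E) : 0 ≤ L2 z := Real.sqrt_nonneg _
theorem exc_nn {E : Type} [NormedAddCommGroup E] (ε : ℝ) (z : X d → E) : 0 ≤ exc ε z :=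
  Real.sqrt_nonneg _
theorem L1_nn {E : Type} [NormedAddCommGroup E] (z : X d → E) : 0 ≤ L1 z :=
  integral_nonneg fun _ => norm_nonneg _

theorem sup_le (E : Exc d n Ce) {ε t : ℝ} {w : X d → Gr d n} (h0 : 0 ≤ ε) (hw : Mp ε w)
    (h : ∀ x ∈ ball (0 : X d) 1, ‖w x‖ ≤ t) : L2 w ≤ Ce * t ∧ L1 w ≤ Ce * (Ce * t) := by
  have h1 := E.l2_add ε t (fun _ => 0) w h0 (E.mp_c ε _ continuous_const) hw h
  have h2 : L2 w ≤ Ce * t := by simpa [L2] using h1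
  exact ⟨h2, (E.l1 ε w h0 hw).1.trans (mul_le_mul_of_nonneg_left h2 (by linarith [E.pos]))⟩

theorem tau_le (E : Exc d n Ce) (A2 : Al2 (Gr d n) C2) {ε κ : ℝ} {Γ G : X d → Gr d n} (h0 : 0 < ε)
    (h1 : ε ≤ 1 / 8) (hκ : 0 < κ) (hw : Mp ε fun x => G x - Γ x)
    (h : ∀ x ∈ ball (0 : X d) 1, ‖Γ x‖ ≤ 32) :
    L1 (fun x => T ε (G x) - T ε (Γ x)) ≤ C2 * ε * (Ce * κ + κ⁻¹ * (Ce * L2 fun x => G x - Γ x) +
      L2 (fun x => G x - Γ x) ^ 2) := by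
  obtain ⟨i1, i2⟩ := E.sqrt_le ε κ _ h0.le hκ hw
  obtain ⟨-, i3, -⟩ := E.ib ε _ h0.le hw
  have hc : 0 ≤ C2 * ε := mul_nonneg (by linarith [A2.pos]) h0.le
  have e : L2 (fun x => G x - Γ x) ^ 2 = ∫ x in ball 0 1, ‖G x - Γ x‖ ^ 2 :=
    Real.sq_sqrt (integral_nonneg fun _ => sq_nonneg _)
  calc _ ≤ ∫ x in ball 0 1, C2 * ε * (√‖G x - Γ x‖ + ‖G x - Γ x‖ ^ 2) := by
        refine integral_mono_of_nonneg (Eventually.of_forall fun _ => norm_nonneg _)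
          ((i1.add i3).const_mul _) ((ae_restrict_iff' measurableSet_ball).2
            (Eventually.of_forall fun x hx => ?_))
        simpa using A2.t3 ε (Γ x) (G x - Γ x) h0 h1 (h x hx)
    _ ≤ _ := by
        rw [integral_const_mul, integral_add i1 i3, e]
        have := mul_le_mul_of_nonneg_left (E.l1 ε _ h0.le hw).1 (inv_pos.2 hκ).le
        exact mul_le_mul_of_nonneg_left (by linarith) hc

theorem pa_split (P : Par d n) (E : Exc d n Ce) {ε : ℝ} {u : X d → X n} {G Γ : X d → Gr d n}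
    (h0 : 0 ≤ ε) (hs : Sol ε u G) (hΓ : Mp ε Γ) {φ : X d → X n} (hφ : Ts φ) :
    pa (fun x => G x - Γ x) φ =
      pa (fun x => T ε (G x) - T ε (Γ x)) φ - pa (fun x => A ε (Γ x)) φ := by
  obtain ⟨a1, t1⟩ := E.ib_A ε G h0 hs.mG
  obtain ⟨a2, t2⟩ := E.ib_A ε Γ h0 hΓ
  have e1 := P.add _ _ 1 (-1) φ a1 a2 hφ
  have e2 := P.add (fun x => T ε (G x) - T ε (Γ x)) _ 1 1 φ (t1.sub t2)
    ((a1.smul (1 : ℝ)).add (a2.smul (-1 : ℝ))) hφ
  have e3 : (fun x => G x - Γ x) = fun x => (1 : ℝ) • (T ε (G x) - T ε (Γ x)) +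
      (1 : ℝ) • ((1 : ℝ) • A ε (G x) + (-1 : ℝ) • A ε (Γ x)) := by
    funext x; simp only [T]; module
  rw [e3]
  refine e2.trans ?_
  rw [show pa (((1 : ℝ) • fun x => A ε (G x)) + (-1 : ℝ) • fun x => A ε (Γ x)) φ = _ from e1,
    hs.eq φ hφ]
  ring

theorem ah_of (P : Par d n) (E : Exc d n Ce) {ε ρ τ : ℝ} {u : X d → X n} {G Γ : X d → Gr d n}
    (h0 : 0 ≤ ε) (hs : Sol ε u G) (hΓ : Mp ε Γ) (hr : AH ρ fun x => A ε (Γ x))
    (ht : L1 (fun x => T ε (G x) - T ε (Γ x)) ≤ τ) : AH (τ + ρ) fun x => G x - Γ x := by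
  intro φ c hφ h1 h2
  have hc : 0 ≤ c := (norm_nonneg _).trans (h1 0)
  rw [pa_split P E h0 hs hΓ hφ]
  have a := P.ah _ ((E.ib_A ε G h0 hs.mG).2.sub (E.ib_A ε Γ h0 hΓ).2) φ c hφ h1 h2
  have b := hr φ c hφ h1 h2
  have := mul_le_mul_of_nonneg_right ht hc
  refine (abs_sub _ _).trans ?_
  have a' : |pa (fun x => T ε (G x) - T ε (Γ x)) φ| ≤
    L1 (fun x => T ε (G x) - T ε (Γ x)) * c := a
  linarith

theorem ts_int {E : Type} [NormedAddCommGroup E] {g : X d → E} {r : ℝ} (hc : Continuous g)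
    (h : ∀ x, r ≤ ‖x‖ → g x = 0) : Integrable g :=
  hc.integrable_of_hasCompactSupport (HasCompactSupport.intro (isCompact_closedBall 0 r)
    fun x hx => h x (by simpa using (le_of_lt (by simpa using hx))))

theorem res_aff (B : Bas d n) (P : Par d n) (E : Exc d n Ce) (A2 : Al2 (Gr d n) C2) {ε ρ t : ℝ}
    {Γ : X d → Gr d n} (h0 : 0 < ε) (h1 : ε ≤ 1 / 8) (hΓ : Continuous Γ) (hr : Res ε ρ Γ)
    (h : ∀ x ∈ ball (0 : X d) 1, ‖Γ x‖ ≤ 32) (b : Gr d n) (a : He d n) (ht0 : 0 ≤ t) (ht1 : t ≤ 1)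
    (ht : ‖b‖ + ‖a‖ ≤ t ^ 2) :
    Res ε (ρ + ‖trc a‖ + 2 * C2 * ε * t) fun x => Γ x + b + ap a x := by
  intro φ hφ
  have cf : Continuous fun x => b + ap a x := by fun_prop
  have cg : Continuous fun x => Γ x + b + ap a x := by fun_prop
  obtain ⟨a1, t1⟩ := E.ib_A ε _ h0.le (E.mp_c ε _ cg)
  obtain ⟨a2, t2⟩ := E.ib_A ε _ h0.le (E.mp_c ε _ hΓ)
  obtain ⟨r, -, hr0⟩ := B.ts_Dm φ hφ
  have i1 : Integrable φ := ts_int hφ.1.continuous fun x hx => (hr0 x hx).1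
  have i2 : Integrable (Dm φ) := ts_int (B.c_Dm φ hφ.1) fun x hx => (hr0 x hx).2
  have e1 := P.add _ _ 1 (-1) φ (P.ib_c _ cf) (t1.sub t2) hφ
  have e2 := P.add _ _ 1 1 φ a2 (((P.ib_c _ cf).smul (1 : ℝ)).add ((t1.sub t2).smul (-1 : ℝ))) hφ
  have e3 : (fun x => A ε (Γ x + b + ap a x)) = fun x => (1 : ℝ) • A ε (Γ x) + (1 : ℝ) •
      ((1 : ℝ) • (b + ap a x) + (-1 : ℝ) • (T ε (Γ x + b + ap a x) - T ε (Γ x))) := by
    funext x; simp only [T]; module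
  have hc : 0 ≤ C2 * ε := mul_nonneg (by linarith [A2.pos]) h0.le
  have s1 := P.sup _ φ (2 * C2 * ε * t) (t1.sub t2) hφ fun x hx => by
    have hx1 : ‖x‖ ≤ 1 := le_of_lt (by simpa using hx)
    have hn : ‖b + ap a x‖ ≤ t ^ 2 := by
      have := B.n_ap a x
      have := norm_add_le b (ap a x)
      nlinarith [norm_nonneg a]
    have h3 := A2.t3 ε (Γ x) (b + ap a x) h0 h1 (h x hx)
    have h4 : √‖b + ap a x‖ ≤ t := Real.sqrt_le_iff.2 ⟨ht0, hn⟩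
    have h5 : ‖b + ap a x‖ ^ 2 ≤ t := by
      have : t ^ 2 ≤ t := by nlinarith
      nlinarith [norm_nonneg (b + ap a x)]
    rw [← add_assoc] at h3
    have := mul_le_mul_of_nonneg_left (add_le_add h4 h5) hc
    show ‖T ε (Γ x + b + ap a x) - T ε (Γ x)‖ ≤ _
    linarith
  have s2 : |∫ x, ⟪trc a, φ x⟫| ≤ ‖trc a‖ * ∫ x, ‖φ x‖ := by
    rw [← integral_const_mul, ← Real.norm_eq_abs]
    exact norm_integral_le_of_norm_le (i1.norm.const_mul _)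
      (Eventually.of_forall fun x => norm_inner_le_norm _ _)
  have s3 := hr φ hφ
  have e4 := P.aff b a φ hφ
  have p1 : 0 ≤ ∫ x, ‖φ x‖ := integral_nonneg fun _ => norm_nonneg _
  have p2 : 0 ≤ ∫ x, ‖Dm φ x‖ := integral_nonneg fun _ => norm_nonneg _
  rw [integral_add i2.norm i1.norm] at s3 ⊢
  have e5 : pa (fun x => A ε (Γ x + b + ap a x)) φ = pa (fun x => A ε (Γ x)) φ - (∫ x, ⟪trc a, φ x⟫) -
      pa ((fun x => T ε (Γ x + b + ap a x)) - fun x => T ε (Γ x)) φ := by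
    rw [e3]
    refine e2.trans ?_
    rw [show pa (((1 : ℝ) • fun x => b + ap a x) + (-1 : ℝ) •
      ((fun x => T ε (Γ x + b + ap a x)) - fun x => T ε (Γ x))) φ = _ from e1, e4]
    ring
  rw [e5]
  have q1 := mul_nonneg (norm_nonneg (trc a)) p2
  have q2 : 0 ≤ 2 * C2 * ε * t * ∫ x, ‖φ x‖ := by
    have := mul_nonneg (mul_nonneg hc ht0) p1
    linarith
  rw [abs_le] at s1 s2 s3 ⊢
  constructor <;> nlinarith [s1.1, s1.2, s2.1, s2.2, s3.1, s3.2]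

/-- the planar model -/
theorem gz (B : Bas d n) (P : Par d n) (K : Ker d n) (L : Pl1 d n C1) {ε : ℝ} {Z : He d n}
    (h0 : 0 < ε) (h1 : ε ≤ 1 / 8) (hZ : Pln Z) (nZ : ‖Z‖ ≤ 4) :
    Continuous (GZ ε Z) ∧ bb (GZ ε Z) = 0 ∧
    (∀ x ∈ ball (0 : X d) 1, ‖GZ ε Z x - ap Z x‖ ≤ 2 * C1 * ε) ∧
    HH (GZ ε Z) = Z + HH (fun x => GZ ε Z x - ap Z x) ∧
    ∀ θ : ℝ, 0 < θ → Ht θ (GZ ε Z) = θ ^ (-ss ε) • HH (GZ ε Z) := by
  obtain ⟨s0, s1, s2, -⟩ := ss_bd h0 h1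
  have c := B.c_Dm _ (L.c1 _ Z s0 s2 hZ)
  refine ⟨c, K.bb_odd _ fun x => L.odd _ Z x s0 s2 hZ, fun x hx => ?_, ?_, fun θ hθ => ?_⟩
  · refine (L.near _ Z s0 s2 hZ x hx).trans ?_
    have := mul_le_mul s1 nZ (norm_nonneg _) (by linarith)
    nlinarith [L.pos]
  · have c2 : Continuous fun x => (0 : Gr d n) + ap Z x := by fun_prop
    have := K.HH_add _ _ 1 (-1) (P.ib_c _ c) (P.ib_c _ c2)
    rw [K.HH_aff] at this
    have e : (fun x => GZ ε Z x - ap Z x) =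
        fun x => (1 : ℝ) • Dm (UZ (ss ε) Z) x + (-1 : ℝ) • (0 + ap Z x) := by
      funext x; simp only [GZ]; module
    rw [e, this, GZ]; module
  · have e : sc θ (GZ ε Z) = fun x => θ ^ (1 - ss ε) • GZ ε Z x :=
      funext fun x => (L.hom _ θ Z x s0 s2 hθ hZ).1
    rw [Ht, e, K.HH_smul, smul_smul, sub_eq_add_neg, Real.rpow_add hθ, Real.rpow_one,
      inv_mul_cancel_left₀ hθ.ne']

theorem pow_bd {θ ε : ℝ} (h0 : 0 < ε) (h1 : ε ≤ 1 / 8) (hθ : 0 < θ) (hθ1 : θ < 1)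
    (h : ε * Real.log θ⁻¹ ≤ 1) : 0 ≤ θ ^ (-ss ε) - 1 ∧ θ ^ (-ss ε) - 1 ≤ ε * Real.log θ⁻¹ ∧
    |ε * Real.log θ⁻¹ / 2 - (θ ^ (-ss ε) - 1)| ≤ (Real.log θ⁻¹ ^ 2 + Real.log θ⁻¹) * ε ^ 2 := by
  obtain ⟨s0, s1, -, s3⟩ := ss_bd h0 h1
  have hl : 0 < Real.log θ⁻¹ := Real.log_pos ((one_lt_inv₀ hθ).2 hθ1)
  have e : θ ^ (-ss ε) = Real.exp (ss ε * Real.log θ⁻¹) := by
    rw [Real.rpow_def_of_pos hθ, Real.log_inv]; congr 1; ring
  rw [e]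
  generalize Real.log θ⁻¹ = l at *
  have x0 : 0 < ss ε * l := mul_pos s0 hl
  have x1 : ss ε * l ≤ ε * l / 2 := by nlinarith
  have x2 : ε * l / 2 - ε ^ 2 * l / 4 ≤ ss ε * l := by nlinarith
  have h2 := Real.abs_exp_sub_one_sub_id_le (x := ss ε * l) (by rw [abs_of_pos x0]; linarith)
  have h3 := Real.add_one_le_exp (ss ε * l)
  rw [abs_le] at h2
  have x3 : (ss ε * l) ^ 2 ≤ (ε * l / 2) ^ 2 := pow_le_pow_left₀ x0.le x1 2
  have x4 : 0 < ε * l := mul_pos h0 hl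
  have x5 : 0 ≤ ε ^ 2 * l := by positivity
  refine ⟨by linarith, by nlinarith, abs_le.2 ⟨by nlinarith [sq_nonneg (ε * l)], ?_⟩⟩
  nlinarith [sq_nonneg (ε * l)]

theorem z_facts (B : Bas d n) (P : Par d n) (K : Ker d n) (E : Exc d n Ce) (L : Pl1 d n C1) {ε : ℝ}
    {u : X d → X n} {G : X d → Gr d n} {Z : He d n} (h0 : 0 < ε) (h1 : ε ≤ 1 / 8)
    (hp : Pre ε u G Z) : Mp ε (fun x => G x - GZ ε Z x) ∧ Ib (fun x => G x - GZ ε Z x) ∧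
    Ib (fun x => u x - UZ (ss ε) Z x) ∧
    WG (fun x => u x - UZ (ss ε) Z x) (fun x => G x - GZ ε Z x) ∧
    bb (fun x => G x - GZ ε Z x) = bb G ∧
    HH (fun x => G x - GZ ε Z x) = HH G - HH (GZ ε Z) ∧
    ∀ θ : ℝ, 0 < θ → θ ≤ 1 → Ht θ (fun x => G x - GZ ε Z x) = Ht θ G - Ht θ (GZ ε Z) := by
  obtain ⟨s0, -, s2, -⟩ := ss_bd h0 h1
  obtain ⟨c, b0, -⟩ := gz B P K L h0 h1 hp.pl hp.nZ
  have cU := L.c1 _ Z s0 s2 hp.pl
  have m : Mp ε (fun x => G x - GZ ε Z x) := hp.sol.mG.sub (E.mp_c ε _ c)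
  have iG := (E.ib ε _ h0.le hp.sol.mG).1
  have iu := (E.ib ε _ h0.le hp.sol.mu).1
  have e : (fun x => G x - GZ ε Z x) = fun x => (1 : ℝ) • G x + (-1 : ℝ) • GZ ε Z x := by
    funext x; module
  have e' : (fun x => u x - UZ (ss ε) Z x) =
      fun x => (1 : ℝ) • u x + (-1 : ℝ) • UZ (ss ε) Z x := by
    funext x; module
  refine ⟨m, (E.ib ε _ h0.le m).1, iu.sub (P.ib_c _ cU.continuous), ?_, ?_, ?_, fun θ t0 t1 => ?_⟩
  · rw [e, e']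
    exact P.wg_add _ _ _ _ 1 (-1) iu (P.ib_c _ cU.continuous) iG (P.ib_c _ c) hp.sol.wg
      (P.wg_c1 _ cU)
  · rw [e, K.bb_add _ _ _ _ iG (P.ib_c _ c), b0]; module
  · rw [e, K.HH_add _ _ _ _ iG (P.ib_c _ c)]; module
  · have i1 : Ib (sc θ G) := by
      have := (E.ib ε _ h0.le (E.mp_sh ε G 0 θ t0 (by simpa using t1) hp.sol.mG)).1
      have e : sc θ G = sh 0 θ G := by funext x; simp [sc, sh]
      rw [e]; exact this
    have i2 : Ib (sc θ (GZ ε Z)) := P.ib_c _ (c.comp (continuous_const_smul θ))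
    have := K.HH_add _ _ 1 (-1) i1 i2
    have e2 : sc θ (fun x => G x - GZ ε Z x) =
        fun x => (1 : ℝ) • sc θ G x + (-1 : ℝ) • sc θ (GZ ε Z) x := by
      funext x; simp only [sc]; module
    rw [Ht, Ht, Ht, e2, this]; module

theorem core (B : Bas d n) (P : Par d n) (K : Ker d n) (E : Exc d n Ce) (A2 : Al2 (Gr d n) C2)
    (L : Pl1 d n C1) (Q : Pl0 d n) {Cp θ Cv : ℝ} (Cp0 : 0 ≤ Cp) (Cv0 : 0 ≤ Cv)
    (hp2 : ∀ (ε : ℝ) (Z : He d n), 0 < ε → ε ≤ 1 / 8 → Pln Z → ‖Z‖ ≤ 8 →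
      Res ε (Cp * ε ^ 2) (GZ ε Z))
    (hev : ∀ (v : X d → X n) z (ρ : ℝ), Ib v → Ib z → WG v z → 0 ≤ ρ → AH ρ z →
      ‖Ht θ z - HH z‖ ≤ Cv * ρ ∧ ‖trc (HH z)‖ ≤ Cv * ρ) :
    ∃ N : ℝ, 8 ≤ N ∧ 2 * C1 ≤ N ∧ ∀ (κ δ ε R : ℝ) (u : X d → X n) (G : X d → Gr d n)
      (Z a : He d n), 0 < κ → κ ≤ 1 → N * δ ≤ κ ^ 2 → 0 < ε → ε ≤ δ → Pre ε u G Z →
      ‖tl (HH G) - Z‖ ≤ δ → ‖bb G‖ ≤ δ → a = HH (fun x => G x - GZ ε Z x) →
      R = N * ε * (κ + κ⁻¹ * ez ε G Z) →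
      ‖trc a‖ ≤ R ∧ ‖Ht θ (fun x => G x - GZ ε Z x) - a‖ ≤ R ∧ ‖bb G‖ + ‖a‖ ≤ κ ^ 2 ∧
      ‖tl a + Z - tl (HH G)‖ ≤ N * ε ∧ Res ε R (fun x => GZ ε Z x + bb G + ap a x) ∧
      L1 (fun x => T ε (G x) - T ε (GZ ε Z x + bb G + ap a x)) ≤ R ∧
      ∀ x ∈ ball (0 : X d) 1, ‖GZ ε Z x + bb G + ap a x‖ ≤ 32 := by
  obtain ⟨Ck, Ck0, hk⟩ := K.bd
  obtain ⟨Cr, Cr0, hr⟩ := P.res_ah
  have e1 := E.pos
  have c2 := A2.pos
  have c1 := L.pos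
  obtain ⟨Cg, hg⟩ : ∃ Cg, Cg = Ck * (Ce * (Ce * (2 * C1))) := ⟨_, rfl⟩
  have g0 : 0 ≤ Cg := by rw [hg]; positivity
  obtain ⟨Q0, hQ⟩ : ∃ Q0, Q0 = 3 + Ce * (9 + Cg) := ⟨_, rfl⟩
  have q0 : 0 ≤ Q0 := by rw [hQ]; positivity
  obtain ⟨Ca, hA⟩ : ∃ Ca, Ca = Cv * (C2 * (Ce + Ce * Q0 + Q0 ^ 2) + Cr * Cp) := ⟨_, rfl⟩
  have a0 : 0 ≤ Ca := by rw [hA]; positivity
  obtain ⟨N2, hN2⟩ : ∃ N2, N2 = C2 * (Ce + Ce * Ce + (3 + Ce) * Ce) := ⟨_, rfl⟩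
  have n2 : 0 ≤ N2 := by rw [hN2]; positivity
  obtain ⟨N3, hN3⟩ : ∃ N3, N3 = Cv * (N2 + Cr * Cp) := ⟨_, rfl⟩
  have n3 : 0 ≤ N3 := by rw [hN3]; positivity
  refine ⟨8 + 2 * C1 + Cg + Ca + N2 + N3 + Cp + 2 * C2, by linarith, by linarith, ?_⟩
  generalize hN : 8 + 2 * C1 + Cg + Ca + N2 + N3 + Cp + 2 * C2 = N
  intro κ δ ε R u G Z a k0 k1 hδ h0 hε hp hZ hb ha hR
  have δ0 : 0 < δ := h0.trans_le hε
  have k2 : κ ^ 2 ≤ κ := by nlinarith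
  have hNε : N * ε ≤ κ ^ 2 := (mul_le_mul_of_nonneg_left hε (by linarith)).trans hδ
  have sm : ∀ c, 0 ≤ c → c ≤ N → c * ε ≤ κ ^ 2 := fun c _ h =>
    (mul_le_mul_of_nonneg_right h h0.le).trans hNε
  have h1 : ε ≤ 1 / 8 := by have := sm 8 (by norm_num) (by linarith); linarith
  obtain ⟨c, -, nγ, eH, -⟩ := gz B P K L h0 h1 hp.pl hp.nZ
  obtain ⟨m, iz, iv, wg, eb, ea, -⟩ := z_facts B P K E L h0 h1 hp
  have cγ : Continuous fun x => GZ ε Z x - ap Z x := c.sub (by fun_prop)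
  have hγ : ‖HH fun x => GZ ε Z x - ap Z x‖ ≤ Cg * ε := by
    refine (hk _ (P.ib_c _ cγ)).2.trans ?_
    have := mul_le_mul_of_nonneg_left (sup_le E h0.le (E.mp_c ε _ cγ) nγ).2 Ck0
    rw [hg]; linarith
  generalize (HH fun x => GZ ε Z x - ap Z x) = Hγ at eH hγ
  have ea' : a = HH G - Z - Hγ := by rw [ha, ea, eH]; abel
  have nG : ∀ x ∈ ball (0 : X d) 1, ‖GZ ε Z x‖ ≤ 5 := fun x hx => by
    have hx1 : ‖x‖ ≤ 1 := le_of_lt (by simpa using hx)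
    have := norm_le_insert' (GZ ε Z x) (ap Z x)
    have := B.n_ap Z x
    have := nγ x hx
    have := sm (2 * C1) (by linarith) (by linarith)
    nlinarith [hp.nZ, norm_nonneg Z]
  have nG' : ∀ x ∈ ball (0 : X d) 1, ‖GZ ε Z x‖ ≤ 32 := fun x hx => (nG x hx).trans (by norm_num)
  have aff : ∀ x ∈ ball (0 : X d) 1, ‖bb G + ap a x‖ ≤ ‖bb G‖ + ‖a‖ := fun x hx => by
    have hx1 : ‖x‖ ≤ 1 := le_of_lt (by simpa using hx)
    have := norm_add_le (bb G) (ap a x)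
    have := B.n_ap a x
    nlinarith [norm_nonneg a]
  have E0 : 0 ≤ ez ε G Z := exc_nn _ _
  have E3 := hp.ne
  have mp := E.mp_pr ε _ m
  have l2p : L2 (pr fun x => G x - GZ ε Z x) ≤ ez ε G Z := (E.l1 ε _ h0.le mp).2
  have l2 : ∀ t, ‖bb G‖ + ‖a‖ ≤ t → L2 (fun x => G x - GZ ε Z x) ≤ ez ε G Z + Ce * t := fun t ht => by
    have := E.l2_add ε t _ (fun x => bb G + ap a x) h0.le mp (E.mp_c ε _ (by fun_prop))
      fun x hx => (aff x hx).trans ht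
    have e : (fun x => pr (fun x => G x - GZ ε Z x) x + (bb G + ap a x)) =
        fun x => G x - GZ ε Z x := by
      funext x; rw [pr, eb, ← ha]; abel
    rw [e] at this; linarith
  have ev : ∀ τ, 0 ≤ τ → L1 (fun x => T ε (G x) - T ε (GZ ε Z x)) ≤ τ →
      ‖Ht θ (fun x => G x - GZ ε Z x) - a‖ ≤ Cv * (τ + Cr * (Cp * ε ^ 2)) ∧
      ‖trc a‖ ≤ Cv * (τ + Cr * (Cp * ε ^ 2)) := fun τ t0 ht => by
    rw [ha]
    exact hev _ _ _ iv iz wg (by positivity) (ah_of P E h0.le hp.sol (E.mp_c ε _ c)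
      (hr ε _ _ (by positivity) (hp2 ε Z h0 h1 hp.pl (hp.nZ.trans (by norm_num)))) ht)
  have z0 := L2_nn fun x => G x - GZ ε Z x
  have ce : 0 ≤ C2 * ε := by positivity
  have tl0 : tl Z = Z := B.tl_of Z (Q.st0 Z hp.pl).2
  have eS : tl a + Z - tl (HH G) = -tl Hγ := by rw [ea', map_sub, map_sub, tl0]; abel
  have nS : ‖tl a + Z - tl (HH G)‖ ≤ Cg * ε := by rw [eS, norm_neg]; exact (B.n_tl _).trans hγ
  have cr : ‖trc a‖ ≤ Ca * ε := by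
    have na : ‖a‖ ≤ 8 + Cg := by
      rw [ea']
      have := norm_sub_le (HH G - Z) Hγ
      have := norm_sub_le (HH G) Z
      nlinarith [hp.nH, hp.nZ]
    have b1 : L2 (fun x => G x - GZ ε Z x) ≤ Q0 := by
      have := l2 (9 + Cg) (by linarith [hp.nb]); rw [hQ]; linarith
    have b2 := tau_le E A2 h0 h1 one_pos m nG'
    have b3 : L1 (fun x => T ε (G x) - T ε (GZ ε Z x)) ≤ C2 * ε * (Ce + Ce * Q0 + Q0 ^ 2) := by
      refine b2.trans (mul_le_mul_of_nonneg_left ?_ ce)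
      have := pow_le_pow_left₀ z0 b1 2
      have := mul_le_mul_of_nonneg_left b1 (by linarith : 0 ≤ Ce)
      rw [inv_one]; linarith
    refine (ev _ (by positivity) b3).2.trans ?_
    rw [hA, mul_assoc Cv]
    refine mul_le_mul_of_nonneg_left ?_ Cv0
    have : Cr * Cp * ε ^ 2 ≤ Cr * Cp * ε := mul_le_mul_of_nonneg_left (by nlinarith) (by positivity)
    linarith
  have nt : ‖bb G‖ + ‖a‖ ≤ κ ^ 2 := by
    have t1 := norm_le_insert' a (tl a)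
    have t2 := B.n_sub_tl a
    have t3 : ‖tl a‖ ≤ Cg * ε + δ := by
      have : tl a = (tl a + Z - tl (HH G)) + (tl (HH G) - Z) := by abel
      rw [this]; exact (norm_add_le _ _).trans (add_le_add nS hZ)
    have t4 := mul_le_mul_of_nonneg_left hε g0
    have t5 := mul_le_mul_of_nonneg_left hε a0
    have t6 : (2 + Cg + Ca) * δ ≤ N * δ := mul_le_mul_of_nonneg_right (by linarith) δ0.le
    linarith
  obtain ⟨w, hw⟩ : ∃ w, w = κ + κ⁻¹ * ez ε G Z := ⟨_, rfl⟩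
  have ki : 1 ≤ κ⁻¹ := (one_le_inv₀ k0).2 k1
  have kE : ez ε G Z ≤ κ⁻¹ * ez ε G Z := le_mul_of_one_le_left E0 ki
  have wk : κ ≤ w := by linarith
  have w0 : 0 ≤ ε * w := mul_nonneg h0.le (by linarith)
  have εw : ε ^ 2 ≤ ε * w := by
    have := sm 1 zero_le_one (by linarith); nlinarith
  have up : ∀ c, c ≤ N → c * (ε * w) ≤ R := fun c h => by
    rw [hR, ← hw, mul_assoc]; exact mul_le_mul_of_nonneg_right h w0
  have ta : ∀ {Γ : X d → Gr d n}, Mp ε (fun x => G x - Γ x) → (∀ x ∈ ball (0 : X d) 1, ‖Γ x‖ ≤ 32) →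
      L2 (fun x => G x - Γ x) ≤ ez ε G Z + Ce * κ ^ 2 →
      L1 (fun x => T ε (G x) - T ε (Γ x)) ≤ N2 * (ε * w) := fun {Γ} hm hΓ hl => by
    refine (tau_le E A2 h0 h1 k0 hm hΓ).trans ?_
    have y0 := L2_nn fun x => G x - Γ x
    generalize L2 (fun x => G x - Γ x) = y at hl y0
    have y1 : κ⁻¹ * y ≤ Ce * w := by
      have i1 := mul_le_mul_of_nonneg_left hl (by linarith : 0 ≤ κ⁻¹)
      have i2 : κ⁻¹ * (Ce * κ ^ 2) = Ce * κ := by field_simp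
      have i3 : κ⁻¹ * ez ε G Z ≤ Ce * (κ⁻¹ * ez ε G Z) := le_mul_of_one_le_left (by linarith) e1
      rw [hw]; linarith
    have y2 : y ≤ Ce * w := (le_mul_of_one_le_left y0 ki).trans y1
    have y3 : y ≤ 3 + Ce := by nlinarith
    have y4 : y ^ 2 ≤ (3 + Ce) * (Ce * w) := by rw [sq]; exact mul_le_mul y3 y2 y0 (by linarith)
    have y5 : Ce * (κ⁻¹ * y) ≤ Ce * (Ce * w) := mul_le_mul_of_nonneg_left y1 (by linarith)
    have y6 : Ce * κ ≤ Ce * w := mul_le_mul_of_nonneg_left wk (by linarith)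
    have y7 : Ce * κ + κ⁻¹ * (Ce * y) + y ^ 2 ≤ (Ce + Ce * Ce + (3 + Ce) * Ce) * w := by linarith
    have := mul_le_mul_of_nonneg_left y7 ce
    rw [hN2]; linarith
  have rf := ev _ (by positivity) (ta m nG' (l2 _ nt))
  have r1 : Cv * (N2 * (ε * w) + Cr * (Cp * ε ^ 2)) ≤ N3 * (ε * w) := by
    rw [hN3, mul_assoc Cv]
    refine mul_le_mul_of_nonneg_left ?_ Cv0
    have := mul_le_mul_of_nonneg_left εw (by positivity : 0 ≤ Cr * Cp)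
    linarith
  have nΓ : ∀ x ∈ ball (0 : X d) 1, ‖GZ ε Z x + bb G + ap a x‖ ≤ 32 := fun x hx => by
    rw [add_assoc]
    have := norm_add_le (GZ ε Z x) (bb G + ap a x)
    linarith [nG x hx, aff x hx]
  have u3 := up N3 (by linarith)
  refine ⟨by linarith [rf.2], by linarith [rf.1], nt,
    nS.trans (mul_le_mul_of_nonneg_right (by linarith) h0.le), fun φ hφ => ?_, ?_, nΓ⟩
  · refine (res_aff B P E A2 h0 h1 c (hp2 ε Z h0 h1 hp.pl (hp.nZ.trans (by norm_num))) nG' _ a k0.le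
      k1 nt φ hφ).trans (mul_le_mul_of_nonneg_right ?_
        (integral_nonneg fun _ => add_nonneg (norm_nonneg _) (norm_nonneg _)))
    have i1 := mul_le_mul_of_nonneg_left εw Cp0
    have i2 := mul_le_mul_of_nonneg_left wk ce
    have := up (Cp + N3 + 2 * C2) (by linarith)
    linarith [rf.2]
  · have e : (fun x => G x - (GZ ε Z x + bb G + ap a x)) = pr fun x => G x - GZ ε Z x := by
      funext x; rw [pr, eb, ← ha]; abel
    refine (ta (Γ := fun x => GZ ε Z x + bb G + ap a x) (by rw [e]; exact mp) nΓ ?_).trans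
      (up N2 (by linarith))
    rw [e]
    have : 0 ≤ Ce * κ ^ 2 := by positivity
    linarith

end Pk2A

end Pool.Agent.MP_815c6c_an.N
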