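import Mathlib.Topology.Sheaves.Presheaf
import Mathlib.Algebra.Order.Ring.Star
import Pool.Agent.MP_815c6c_an.N.Pk2a

/-! Row PK2, second part: the sign of the second order term. -/

set_option autoImplicit false

noncomputable section

namespace Pool.Agent.MP_815c6c_an.N

open Set Metric MeasureTheory Filter Topology
open scoped ContDiff RealInnerProductSpace ENNReal

namespace Pk2A

variable {d n : ℕ} {Ce C2 C1 : ℝ}

theorem tq_add (B : Bas d n) (P : Par d n) {f : ℝ → ℝ} {z : X d → Gr d n} (iz : Ib z)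
    {M M' : He d n} (h1 : Ts (tq f M)) (h2 : Ts (tq f M')) :
    pa z (tq f (M + M')) = pa z (tq f M) + pa z (tq f M') := by
  have e : tq f (M + M') = fun x => tq f M x + tq f M' x := by
    funext x; simp [tq, qf]
  rw [e, pa, pa, pa, ← integral_add (P.int _ _ iz h1) (P.int _ _ iz h2)]
  congr 1; funext x
  rw [B.D_add _ _ x (h1.1.differentiable one_ne_zero x) (h2.1.differentiable one_ne_zero x),
    inner_add_right]

theorem first (B : Bas d n) (P : Par d n) (E : Exc d n Ce) (A1 : Al1 (Gr d n)) (hd : 1 ≤ d)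
    (hF : FoS d n) (hell : EllS) (h4 : Pl4S) {f : ℝ → ℝ} {l ε Ct ρ c w : ℝ} {u : X d → X n}
    {G Γ : X d → Gr d n} {Z S : He d n} (hf : Rad f) (hmo : mo2 d f = d * l) (h0 : 0 < ε)
    (hs : Sol ε u G) (hZ : Pln Z) (sZ : St0 Z) (hS : St0 S) (cΓ : Continuous Γ) (Ct0 : 0 ≤ Ct)
    (ht : ∀ M : He d n, Ts (tq f M) ∧ ∀ x, ‖tq f M x‖ ≤ Ct * ‖M‖ ∧ ‖Dm (tq f M) x‖ ≤ Ct * ‖M‖)
    (hr : AH ρ fun x => A ε (Γ x)) (h3 : c ≤ pa (fun x => A ε (Γ x)) (tq f Z))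
    (hw : L1 (fun x => T ε (G x) - T ε (Γ x) + ε • (el (ap S x) - el (ap Z x))) ≤ w) :
    pa (fun x => G x - Γ x) (tq f S) ≤
      w * (Ct * ‖S‖) + ε * l / 2 * ⟪S - Z, S⟫ - c + ρ * (Ct * ‖S - Z‖) := by
  obtain ⟨a2, t2⟩ := E.ib_A ε Γ h0.le (E.mp_c ε _ cΓ)
  have t1 := (E.ib_A ε G h0.le hs.mG).2
  have iS : Ib fun x => el (ap S x) := P.ib_c _ (A1.el_cont.comp (ap S).continuous)
  have iZ : Ib fun x => el (ap Z x) := P.ib_c _ (A1.el_cont.comp (ap Z).continuous)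
  have it : Ib fun x => T ε (G x) - T ε (Γ x) := t1.sub t2
  have ie : Ib fun x => el (ap S x) - el (ap Z x) := iS.sub iZ
  have e1 := tq_add B P a2 (ht (S - Z)).1 (ht Z).1
  rw [sub_add_cancel] at e1
  have b1 := hr _ _ (ht (S - Z)).1 (fun x => ((ht _).2 x).1) fun x => ((ht _).2 x).2
  have e2 := P.add _ _ 1 ε _ it ie (ht S).1
  have e3 := P.add _ _ 1 (-1) _ iS iZ (ht S).1
  simp only [one_smul, neg_smul, ← sub_eq_add_neg] at e2 e3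
  have b2 := P.ah (fun x => T ε (G x) - T ε (Γ x) + ε • (el (ap S x) - el (ap Z x)))
    (it.add (ie.smul ε)) _ _ (ht S).1 (fun x => ((ht _).2 x).1) fun x => ((ht _).2 x).2
  have b3 := mul_le_mul_of_nonneg_right hw (mul_nonneg Ct0 (norm_nonneg S))
  have e4 : pa (fun x => el (ap S x)) (tq f S) = -lam f S S := hell d n S _ hS (ht S).1
  have e5 : pa (fun x => el (ap Z x)) (tq f S) = -lam f Z S := hell d n Z _ sZ (ht S).1
  have d0 : (d : ℝ) ≠ 0 := by positivity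
  have b4 := (hF S hS f hf).1
  have e6 := h4 d n f Z S hf hZ hS
  rw [hmo] at b4 e6
  have e7 : ∀ t : ℝ, t / (2 * d) * (d * l) = t * l / 2 := fun t => by field_simp
  rw [e7] at b4 e6
  have b5 := mul_le_mul_of_nonneg_left b4 h0.le
  rw [pa_split P E h0.le hs (E.mp_c ε _ cΓ) (ht S).1, inner_sub_left, real_inner_self_eq_norm_sq]
  rw [e3, e4, e5, e6] at e2
  rw [abs_le] at b1 b2
  linarith [b1.1, b2.2]

theorem pr_sc (P : Par d n) (K : Ker d n) {θ : ℝ} {z : X d → Gr d n} (i : Ib (sc θ z)) :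
    pr (sc θ (pr z)) = pr (sc θ z) := by
  have c : Ib fun x => bb z + ap (θ • HH z) x := P.ib_c _ (by fun_prop)
  have e : sc θ (pr z) = fun x => (1 : ℝ) • sc θ z x + (-1 : ℝ) • (bb z + ap (θ • HH z) x) := by
    funext x; simp only [sc, pr, map_smul, smul_apply]; module
  funext x
  rw [pr, pr, e, K.bb_add _ _ _ _ i c, K.HH_add _ _ _ _ i c, K.bb_aff, K.HH_aff]
  simp only [map_add, map_smul, add_apply, smul_apply]
  module

theorem pot (B : Bas d n) {U : X d → X n} (cU : ContDiff ℝ 1 U) (b : Gr d n) {a : He d n}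
    (ha : Sy a) : ∃ P : X d → X n, ContDiff ℝ 1 P ∧ Dm P = fun x => Dm U x + b + ap a x := by
  have c1 : ContDiff ℝ 1 fun y => act b y := (act b).contDiff
  have c2 : ContDiff ℝ 1 (qf ((1 / 2 : ℝ) • a)) := (B.c_qf _).of_le (by exact_mod_cast le_top)
  have s : Sy ((1 / 2 : ℝ) • a) := by simpa using B.sy_add a a (1 / 2) 0 ha ha
  refine ⟨fun y => (U y + act b y) + qf ((1 / 2 : ℝ) • a) y, (cU.add c1).add c2, funext fun x => ?_⟩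
  rw [B.D_add _ _ x ((cU.add c1).differentiable one_ne_zero x) (c2.differentiable one_ne_zero x),
    B.D_add _ _ x (cU.differentiable one_ne_zero x) (c1.differentiable one_ne_zero x), B.D_act,
    B.D_qf _ s]
  simp only [map_smul, smul_apply]
  module

theorem small {M t t' : ℝ} (hM : 0 ≤ M) (ht : 0 < t) (ht' : 0 < t') :
    ∃ k : ℝ, 0 < k ∧ k ≤ 1 ∧ k ≤ t' ∧ M * k ≤ t := by
  have h : 0 < M + 1 := by linarith
  refine ⟨min 1 (min t' (t / (M + 1))), by positivity, min_le_left _ _,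
    (min_le_right _ _).trans (min_le_left _ _), ?_⟩
  refine (mul_le_mul_of_nonneg_left ((min_le_right _ _).trans (min_le_right _ _)) hM).trans ?_
  rw [← mul_div_assoc, div_le_iff₀ h]; nlinarith

theorem rr {N k ε e : ℝ} (N0 : 0 ≤ N) (k0 : 0 < k) (k1 : k ≤ 1) (h0 : 0 < ε) (h : N * ε ≤ k ^ 2)
    (e0 : 0 ≤ e) (e3 : e ≤ 3) : 0 ≤ N * ε * (k + k⁻¹ * e) ∧ N * ε * (k + k⁻¹ * e) ≤ N * k * ε + e ∧
    N * ε * (k + k⁻¹ * e) ≤ 4 * k := by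
  have h1 : N * ε * k⁻¹ ≤ k := by rw [← div_eq_mul_inv, div_le_iff₀ k0]; linarith
  have h2 := mul_le_mul_of_nonneg_right h1 e0
  have h3 := mul_le_mul_of_nonneg_right h k0.le
  refine ⟨by positivity, by nlinarith, by nlinarith [mul_pos k0 k0]⟩

/-- the outcome of `core` -/
def Core (d n : ℕ) (θ N : ℝ) : Prop := ∀ (κ δ ε R : ℝ) (u : X d → X n) (G : X d → Gr d n)
  (Z a : He d n), 0 < κ → κ ≤ 1 → N * δ ≤ κ ^ 2 → 0 < ε → ε ≤ δ → Pre ε u G Z →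
  ‖tl (HH G) - Z‖ ≤ δ → ‖bb G‖ ≤ δ → a = HH (fun x => G x - GZ ε Z x) →
  R = N * ε * (κ + κ⁻¹ * ez ε G Z) →
  ‖trc a‖ ≤ R ∧ ‖Ht θ (fun x => G x - GZ ε Z x) - a‖ ≤ R ∧ ‖bb G‖ + ‖a‖ ≤ κ ^ 2 ∧
  ‖tl a + Z - tl (HH G)‖ ≤ N * ε ∧ Res ε R (fun x => GZ ε Z x + bb G + ap a x) ∧
  L1 (fun x => T ε (G x) - T ε (GZ ε Z x + bb G + ap a x)) ≤ R ∧
  ∀ x ∈ ball (0 : X d) 1, ‖GZ ε Z x + bb G + ap a x‖ ≤ 32

theorem del (B : Bas d n) (P : Par d n) (K : Ker d n) (E : Exc d n Ce) (L : Pl1 d n C1) {θ ε : ℝ}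
    {u : X d → X n} {G : X d → Gr d n} {Z a : He d n} (t0 : 0 < θ) (t1 : θ ≤ 1) (h0 : 0 < ε)
    (h1 : ε ≤ 1 / 8) (hp : Pre ε u G Z) (ha : a = HH fun x => G x - GZ ε Z x) :
    tl (Ht θ G) - θ ^ (-ss ε) • tl (HH G) =
      tl (Ht θ (fun x => G x - GZ ε Z x) - a) - (θ ^ (-ss ε) - 1) • tl a := by
  obtain ⟨-, -, -, -, -, e1, e2⟩ := z_facts B P K E L h0 h1 hp
  obtain ⟨-, -, -, -, e3⟩ := gz B P K L h0 h1 hp.pl hp.nZ
  rw [ha, e1, e2 θ t0 t1, e3 θ t0]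
  simp only [map_sub, map_smul]
  module

theorem nd (B : Bas d n) {y a : He d n} {q R t t' : ℝ} (q0 : 0 ≤ q) (q1 : q ≤ t) (h : ‖y‖ ≤ R)
    (ha : ‖a‖ ≤ t') : ‖tl y - q • tl a‖ ≤ R + t * t' := by
  refine (norm_sub_le _ _).trans (add_le_add ((B.n_tl _).trans h) ?_)
  rw [norm_smul, Real.norm_of_nonneg q0]
  exact mul_le_mul q1 ((B.n_tl _).trans ha) (norm_nonneg _) (q0.trans q1)

theorem sm {N l δ ε k : ℝ} (N8 : 8 ≤ N) (l0 : 0 < l) (k0 : 0 < k) (k1 : k ≤ 1) (h0 : 0 < ε)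
    (hε : ε ≤ δ) (h : (N + l) * δ ≤ k ^ 2) : N * δ ≤ k ^ 2 ∧ N * ε ≤ k ^ 2 ∧ ε * l ≤ 1 ∧ δ ≤ 1 / 8 ∧
    δ ≤ k ∧ k ^ 2 ≤ k := by
  have δ0 : 0 < δ := h0.trans_le hε
  have k2 : k ^ 2 ≤ k := by nlinarith
  have a1 := mul_pos l0 δ0
  have a2 := mul_le_mul_of_nonneg_right N8 δ0.le
  have a3 := mul_le_mul_of_nonneg_left hε (by linarith : 0 ≤ N)
  have a4 := mul_le_mul_of_nonneg_left hε l0.le
  exact ⟨by linarith, by linarith, by linarith, by linarith, by linarith, k2⟩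

theorem part1 (B : Bas d n) (P : Par d n) (K : Ker d n) (E : Exc d n Ce) (L : Pl1 d n C1)
    (Q : Pl0 d n) (A1 : Al1 (Gr d n)) (hd : 1 ≤ d) (hF : FoS d n) (hell : EllS) (hmix : MixS)
    (h3 : Pl3S) (h4 : Pl4S) {f : ℝ → ℝ} {θ N Cp : ℝ} (t0 : 0 < θ) (t1 : θ < 1) (N8 : 8 ≤ N)
    (hc : Core d n θ N) (Cp0 : 0 ≤ Cp) (hp2 : ∀ (ε : ℝ) (Z : He d n), 0 < ε → ε ≤ 1 / 8 → Pln Z →
      ‖Z‖ ≤ 8 → Res ε (Cp * ε ^ 2) (GZ ε Z)) (hf : Rad f) (hmo : mo2 d f = d * Real.log θ⁻¹)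
    (hev : ∀ (v : X d → X n) z, Ib v → Ib z → WG v z → ∀ M, St0 M →
      ⟪Ht θ z - HH z, M⟫ = pa z (tq f M)) :
    ∃ c C k : ℝ, 0 < c ∧ 0 ≤ C ∧ 0 < k ∧ ∀ (δ ε : ℝ) (u : X d → X n) (G : X d → Gr d n)
      (Z : He d n), (N + Real.log θ⁻¹) * δ ≤ k ^ 2 → 0 < ε → ε ≤ δ → Pre ε u G Z →
      1 / 2 ≤ ‖tl (HH G)‖ → ‖tl (HH G) - Z‖ ≤ δ → ‖bb G‖ ≤ δ →
      ⟪tl (Ht θ G) - θ ^ (-ss ε) • tl (HH G), tl (HH G)⟫ ≤
        -(c * ε ^ 2) + C * ε * (‖bb G‖ + ez ε G Z) := by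
  have l0 : 0 < Real.log θ⁻¹ := Real.log_pos ((one_lt_inv₀ t0).2 t1)
  obtain ⟨c, c0, h3⟩ := h3 d n f hf (by rw [hmo]; positivity)
  obtain ⟨Ct, Ct0, ht⟩ := B.ts_tq f hf
  obtain ⟨Cr, Cr0, hr⟩ := P.res_ah
  obtain ⟨-, -, -, hm⟩ := hmix d n
  have e1 := E.pos
  obtain ⟨κ, κ0, -, -, hκ⟩ := small (M := 5 * Ct) (t := c / 4) (by positivity) (by positivity) one_pos
  obtain ⟨Cx, δm, Cx0, δ0, hm⟩ := hm (2 * C1) κ (by linarith [L.pos]) κ0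
  have pw := fun {ε : ℝ} (h0 : 0 < ε) (h1 : ε ≤ 1 / 8) => pow_bd h0 h1 t0 t1
  generalize Real.log θ⁻¹ = l at *
  obtain ⟨Y, hY⟩ : ∃ Y, Y = 5 * Ct * Cx * (4 + 5 * Ce) := ⟨_, rfl⟩
  have Y0 : 0 ≤ Y := by rw [hY]; positivity
  obtain ⟨k, k0, k1, km, hk⟩ := small (M := Y * Ce * N + 5 * (l ^ 2 + l) + Cr * Cp * Ct + N * (N + l))
    (t := c / 4) (by positivity) (by positivity) δ0
  refine ⟨c / 2, Y * (1 + Ce) + N, k, by positivity, by positivity, k0, ?_⟩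
  intro δ ε u G Z hδ h0 hε hp hH hZ hb
  obtain ⟨s1, s2, s3, s4, s5, s6⟩ := sm N8 l0 k0 k1 h0 hε hδ
  have h1 : ε ≤ 1 / 8 := hε.trans s4
  obtain ⟨a, ha⟩ : ∃ a, a = HH fun x => G x - GZ ε Z x := ⟨_, rfl⟩
  obtain ⟨r1, r2, r3, r4, -⟩ := hc k δ ε _ u G Z a k0 k1 s1 h0 hε hp hZ hb ha rfl
  have E0 : 0 ≤ ez ε G Z := exc_nn _ _
  obtain ⟨R0, R1, R2⟩ := rr (by linarith : 0 ≤ N) k0 k1 h0 s2 E0 hp.ne
  generalize N * ε * (k + k⁻¹ * ez ε G Z) = R at r1 r2 R0 R1 R2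
  obtain ⟨q0, q1, q2⟩ := pw h0 h1 s3
  obtain ⟨cΓ, -, nγ, -⟩ := gz B P K L h0 h1 hp.pl hp.nZ
  obtain ⟨m, iz, iv, wg, eb, -⟩ := z_facts B P K E L h0 h1 hp
  have sZ := Q.st0 Z hp.pl
  have sa := B.tl_st0 a hd (ha ▸ K.sy _ _ iv iz wg)
  have sS : St0 (tl a + Z) := ⟨by simpa using B.sy_add _ _ 1 1 sa.1 sZ.1,
    by rw [map_add, sa.2, sZ.2, add_zero]⟩
  have b0 := norm_nonneg (bb G)
  have na : ‖a‖ ≤ k := by linarith
  have nt : ‖tl a‖ ≤ k := (B.n_tl a).trans na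
  have nS : ‖tl a + Z‖ ≤ 5 := by linarith [norm_add_le (tl a) Z, hp.nZ]
  have nZ : 1 / 4 ≤ ‖Z‖ := by linarith [norm_le_insert' (tl (HH G)) Z]
  have mp := E.mp_pr ε _ m
  have mw : Mp ε fun x => bb G + ap (a - tl a) x := E.mp_c ε _ (by fun_prop)
  have y1 := E.l2_add ε (‖bb G‖ + R) _ _ h0.le mp mw fun x hx => by
    have hx1 : ‖x‖ ≤ 1 := le_of_lt (by simpa using hx)
    have := mul_le_mul (B.n_sub_tl a) hx1 (norm_nonneg _) (norm_nonneg _)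
    linarith [norm_add_le (bb G) (ap (a - tl a) x), B.n_ap (a - tl a) x]
  have y2 : L2 (pr fun x => G x - GZ ε Z x) ≤ ez ε G Z := (E.l1 ε _ h0.le mp).2
  have hw := hm ε Z (tl a + Z) (fun x => GZ ε Z x - ap Z x) _ h0 (by linarith) h1 nZ
    (hp.nZ.trans (by norm_num)) (by rw [add_sub_cancel_right]; linarith) (cΓ.sub (by fun_prop)) nγ
    (show Mp ε fun x => pr (fun x => G x - GZ ε Z x) x + (bb G + ap (a - tl a) x) from mp.add mw)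
  have y0 := L2_nn fun x => pr (fun x => G x - GZ ε Z x) x + (bb G + ap (a - tl a) x)
  generalize L2 (fun x => pr (fun x => G x - GZ ε Z x) x + (bb G + ap (a - tl a) x)) = y at hw y1 y0
  have e : ∀ x, ap (tl a + Z) x + (GZ ε Z x - ap Z x) +
      (pr (fun x => G x - GZ ε Z x) x + (bb G + ap (a - tl a) x)) = G x := fun x => by
    rw [pr, eb, ← ha]; simp only [map_add, map_sub, add_apply, sub_apply]; abel
  simp only [e, add_sub_cancel] at hw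
  have f1 := first B P E A1 hd hF hell h4 hf hmo h0 hp.sol hp.pl sZ sS cΓ Ct0 ht
    (hr ε _ _ (by positivity) (hp2 ε Z h0 h1 hp.pl (hp.nZ.trans (by norm_num))))
    (h3 ε Z h0 h1 hp.pl (by linarith)) hw
  rw [← hev _ _ iv iz wg _ sS, ← ha, add_sub_cancel_right] at f1
  rw [del B P K E L t0 t1.le h0 h1 hp ha]
  have n1 := nd B q0 q1 r2 na
  have f2 : ⟪tl (Ht θ (fun x => G x - GZ ε Z x) - a) - (θ ^ (-ss ε) - 1) • tl a, tl a + Z⟫ =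
      ⟪Ht θ (fun x => G x - GZ ε Z x) - a, tl a + Z⟫ - (θ ^ (-ss ε) - 1) * ⟪tl a, tl a + Z⟫ := by
    rw [inner_sub_left, B.i_tl _ _ sS.2, real_inner_smul_left]
  generalize tl (Ht θ (fun x => G x - GZ ε Z x) - a) - (θ ^ (-ss ε) - 1) • tl a = D at n1 f2 ⊢
  have f3 := abs_real_inner_le_norm D (tl a + Z - tl (HH G))
  rw [inner_sub_right] at f3
  have f4 := mul_le_mul n1 r4 (norm_nonneg _) ((norm_nonneg _).trans n1)
  have f5 : |(ε * l / 2 - (θ ^ (-ss ε) - 1)) * ⟪tl a, tl a + Z⟫| ≤ (l ^ 2 + l) * ε ^ 2 * (k * 5) := by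
    rw [abs_mul]
    exact mul_le_mul q2 ((abs_real_inner_le_norm _ _).trans
      (mul_le_mul nt nS (norm_nonneg _) k0.le)) (abs_nonneg _) (by positivity)
  have y3 : y ≤ 3 + 5 * Ce := by
    have := mul_le_mul_of_nonneg_left (by linarith [hp.nb] : ‖bb G‖ + R ≤ 5) (by linarith : 0 ≤ Ce)
    linarith [hp.ne]
  have y4 : y ≤ (1 + Ce) * (‖bb G‖ + ez ε G Z) + Ce * N * k * ε := by
    have := mul_le_mul_of_nonneg_left R1 (by linarith : 0 ≤ Ce)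
    linarith
  have y5 : y + y ^ 2 ≤ (4 + 5 * Ce) * y := by nlinarith
  have g1 := mul_le_mul_of_nonneg_left (mul_le_mul_of_nonneg_left nS Ct0)
    (by positivity : 0 ≤ κ * ε ^ 2 + Cx * ε * (y + y ^ 2))
  have g2 := mul_le_mul_of_nonneg_left y5 (by positivity : 0 ≤ 5 * Ct * Cx * ε)
  have g3 := mul_le_mul_of_nonneg_left y4 (by positivity : 0 ≤ Y * ε)
  have g4 := mul_le_mul_of_nonneg_left (mul_le_mul_of_nonneg_left nt Ct0)
    (by positivity : 0 ≤ Cr * (Cp * ε ^ 2))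
  have g5 := mul_le_mul_of_nonneg_right R1 (by positivity : 0 ≤ N * ε)
  have g6 := mul_le_mul_of_nonneg_right hk (sq_nonneg ε)
  have g7 := mul_le_mul_of_nonneg_right hκ (sq_nonneg ε)
  have g8 : 0 ≤ N * ε * ‖bb G‖ := by positivity
  have g9 : 5 * Ct * Cx * ε * ((4 + 5 * Ce) * y) = Y * ε * y := by rw [hY]; ring
  rw [abs_le] at f3 f5
  linarith [f3.1, f5.2]

end Pk2A

end Pool.Agent.MP_815c6c_an.N
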