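import Mathlib.Topology.Sheaves.Presheaf
import Mathlib.Algebra.Order.Ring.Star
import Mathlib.Algebra.Order.Star.Real
import Mathlib.Topology.UniformSpace.Uniformizable
import Pool.Agent.MP_815c6c_an.N.XSpec
import Pool.Agent.MP_815c6c_an.N.Pk2b
import Mathlib.Tactic.Monotonicity.Lemmas
import Mathlib.RingTheory.Finiteness.Prod
import Mathlib.MeasureTheory.Integral.IntervalIntegral.FundThmCalculus
import Mathlib.MeasureTheory.Integral.Prod
import Mathlib.MeasureTheory.Function.StronglyMeasurable.Inner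
import Mathlib.Analysis.SpecialFunctions.PolarCoord

-- ======== part 0: formerly Pool.Agent.MP_815c6c_an.N.Pk0
section MrgPart0

/-! Crude bounds for one step. -/

set_option autoImplicit false

noncomputable section

namespace Pool.Agent.MP_815c6c_an.N

open Set Metric MeasureTheory Filter Topology
open scoped ContDiff RealInnerProductSpace ENNReal

namespace Pk0A

variable {d n : ℕ}

theorem L1_le {w : X d → Gr d n} {t : ℝ} (h : ∀ x ∈ ball (0 : X d) 1, ‖w x‖ ≤ t) :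
    L1 w ≤ volume.real (ball (0 : X d) 1) * t := by
  rw [mul_comm]
  exact (le_abs_self _).trans (norm_setIntegral_le_of_norm_le_const (f := fun x => ‖w x‖)
    measure_ball_lt_top fun x hx => by rw [norm_norm]; exact h x hx)

theorem L1_sub {z w : X d → Gr d n} (hz : Ib z) (hw : Ib w) :
    L1 (fun x => z x - w x) ≤ L1 z + L1 w := by
  rw [L1, L1, L1, ← integral_add hz.norm hw.norm]
  exact integral_mono (hz.sub hw).norm (hz.norm.add hw.norm) fun x => norm_sub_le _ _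

theorem bb_add (K : Ker d n) {z w : X d → Gr d n} (hz : Ib z) (hw : Ib w) :
    bb (fun x => z x + w x) = bb z + bb w := by simpa using K.bb_add z w 1 1 hz hw

theorem HH_add (K : Ker d n) {z w : X d → Gr d n} (hz : Ib z) (hw : Ib w) :
    HH (fun x => z x + w x) = HH z + HH w := by simpa using K.HH_add z w 1 1 hz hw

theorem pr_add (K : Ker d n) {z w : X d → Gr d n} (hz : Ib z) (hw : Ib w) :
    pr (fun x => z x + w x) = fun x => pr z x + pr w x := by
  funext x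
  simp only [pr, bb_add K hz hw, HH_add K hz hw, map_add, add_apply]
  abel

theorem pr_aff (K : Kit) {z : X d → Gr d n} (hz : Ib z) (b : Gr d n) (H : He d n) :
    pr (fun x => z x + (b + ap H x)) = pr z := by
  rw [pr_add (K.ker d n) hz ((K.par d n).ib_c _ (by fun_prop))]
  funext x
  simp [pr, (K.ker d n).bb_aff, (K.ker d n).HH_aff]

theorem exc_le (K : Kit) {C ε t : ℝ} (hx : Exc d n C) (h0 : 0 ≤ ε) (h1 : ε ≤ 1)
    {z w y : X d → Gr d n} (hz : Mp ε z) (hw : Continuous w) (H : He d n)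
    (ht : ∀ x ∈ ball (0 : X d) 1, ‖w x‖ ≤ t) (h2 : C * t ≤ 1)
    (e : ∀ x, y x = z x + w x + ap H x) : exc ε (pr y) ≤ 2 * exc ε (pr z) + C * (C * t) := by
  have iz := (hx.ib ε z h0 hz).1
  have iw := (K.par d n).ib_c w hw
  rw [show y = fun x => z x + w x + (0 + ap H x) from funext fun x => by rw [e, zero_add],
    pr_aff K (z := fun x => z x + w x) (iz.add iw), pr_add (K.ker d n) iz iw]
  exact hx.add_le ε _ _ _ h0 h1 (hx.mp_pr ε z hz) (hx.mp_pr ε w (hx.mp_c ε w hw)) h2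
    (hx.pr_sup t w iw ht)

theorem ts_int (B : Bas d n) {φ : X d → X n} (h : Ts φ) : Integrable φ ∧ Integrable (Dm φ) := by
  obtain ⟨r, h1, h2⟩ := B.ts_Dm φ h
  have e : ∀ x : X d, x ∉ closedBall (0 : X d) 1 → r ≤ ‖x‖ := fun x hx =>
    h1.le.trans (not_le.1 (mt mem_closedBall_zero_iff.2 hx)).le
  exact ⟨h.1.continuous.integrable_of_hasCompactSupport
      (.intro (isCompact_closedBall 0 1) fun x hx => (h2 x (e x hx)).1),
    (B.c_Dm φ h.1).integrable_of_hasCompactSupport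
      (.intro (isCompact_closedBall 0 1) fun x hx => (h2 x (e x hx)).2)⟩

theorem res (K : Kit) {ε r₁ r₂ : ℝ} {Γ w : X d → Gr d n} (b : Gr d n) (H : He d n)
    (hw : Continuous w) (e : ∀ x, A ε (Γ x) = b + ap H x + w x) (h1 : ‖trc H‖ ≤ r₁) (h0 : 0 ≤ r₂)
    (h2 : ∀ x ∈ ball (0 : X d) 1, ‖w x‖ ≤ r₂) : Res ε (r₁ + r₂) Γ := by
  intro φ hφ
  obtain ⟨i1, i2⟩ := ts_int (K.bas d n) hφ
  have P := K.par d n
  have iw := P.ib_c w hw
  have a1 := P.add (fun x => b + ap H x) w 1 1 φ (P.ib_c _ (by fun_prop)) iw hφ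
  have a2 := P.sup w φ r₂ iw hφ h2
  have a3 : |pa (fun x => b + ap H x) φ| ≤ r₁ * ∫ x, ‖φ x‖ := by
    rw [P.aff b H φ hφ, abs_neg, ← integral_const_mul]
    exact norm_integral_le_of_norm_le (f := fun x => ⟪trc H, φ x⟫) (i1.norm.const_mul _)
      (Eventually.of_forall fun x => (abs_real_inner_le_norm _ _).trans
        (mul_le_mul_of_nonneg_right h1 (norm_nonneg _)))
  simp only [one_smul, one_mul] at a1
  simp only [e]
  rw [a1, integral_add i2.norm i1.norm]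
  have a4 : 0 ≤ ∫ x, ‖φ x‖ := integral_nonneg fun _ => norm_nonneg _
  have a5 : 0 ≤ ∫ x, ‖Dm φ x‖ := integral_nonneg fun _ => norm_nonneg _
  have a6 := (norm_nonneg _).trans h1
  nlinarith [abs_add_le (pa (fun x => b + ap H x) φ) (pa w φ), mul_nonneg a6 a5, mul_nonneg h0 a4]

theorem L1_T {C Ca ε R : ℝ} (hx : Exc d n C) (ha : Al2 (Gr d n) Ca) (h0 : 0 < ε) (h1 : ε ≤ 1 / 8)
    {z : X d → Gr d n} (hz : Mp ε z) (h : L2 z ≤ R) :
    L1 (fun x => T ε (z x)) ≤ Ca * (volume.real (ball (0 : X d) 1) + R ^ 2) * ε := by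
  have i1 := (hx.ib ε z h0.le hz).2.1
  have i0 : IntegrableOn (fun _ : X d => (1 : ℝ)) (ball 0 1) :=
    integrableOn_const measure_ball_lt_top.ne
  have a := integral_mono (hx.ib_A ε z h0.le hz).2.norm ((i0.add i1).const_mul (Ca * ε))
    fun x => ha.t1 ε (z x) h0 h1
  simp only [Pi.add_apply] at a
  rw [integral_const_mul, integral_add i0 i1, setIntegral_const, smul_eq_mul, mul_one] at a
  have b := mul_le_mul_of_nonneg_left (Real.sqrt_le_iff.1 h).2
    (mul_pos (one_pos.trans_le ha.pos) h0).le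
  unfold L1
  nlinarith

theorem ah_sol (K : Kit) {C ε : ℝ} (hx : Exc d n C) (h0 : 0 ≤ ε) {u : X d → X n}
    {G : X d → Gr d n} (hs : Sol ε u G) : AH (L1 fun x => T ε (G x)) G := by
  intro φ c hφ h1 h2
  obtain ⟨i1, i2⟩ := hx.ib_A ε G h0 hs.mG
  have a := (K.par d n).add _ _ 1 1 φ i1 i2 hφ
  simp only [one_smul, one_mul, hs.eq φ hφ, zero_add] at a
  rw [show G = fun x => A ε (G x) + T ε (G x) from funext fun x => by simp [T], a]
  simpa [T] using (K.par d n).ah _ i2 φ c hφ h1 h2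

theorem gam {C ε : ℝ} (B : Bas d n) (hp : Pl1 d n C) (h0 : 0 < ε) (h1 : ε ≤ 1 / 8) {Z : He d n}
    (hZ : Pln Z) (h4 : ‖Z‖ ≤ 4) : ContDiff ℝ 1 (UZ (ss ε) Z) ∧ Continuous (GZ ε Z) ∧
      (∀ x, GZ ε Z (-x) = -GZ ε Z x) ∧
      ∀ x ∈ ball (0 : X d) 1, ‖GZ ε Z x - ap Z x‖ ≤ 2 * C * ε := by
  have s0 : 0 < ss ε := div_pos h0 (by positivity)
  have s1 : ss ε ≤ ε / 2 := div_le_div_of_nonneg_left h0.le two_pos (by linarith)
  have c := hp.c1 _ Z s0 (by linarith) hZ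
  refine ⟨c, B.c_Dm _ c, fun x => hp.odd _ Z x s0 (by linarith) hZ, fun x hx =>
    (hp.near _ Z s0 (by linarith) hZ x hx).trans ?_⟩
  have := hp.pos
  calc _ ≤ C * (ε / 2) * 4 := by gcongr
    _ = _ := by ring

end Pk0A

open Pk0A

theorem pk0 (K : Kit) (ev : EvS) (dec : DecS) (pl1 : Pl1S) (_pl2 : Pl2S) : Pk0S := by
  intro d n _
  obtain ⟨C₀, C0, hdec⟩ := dec d n
  refine ⟨C₀, C0, fun θ θ0 θ1 => ?_⟩
  obtain ⟨Cd, d0, hdec⟩ := hdec θ θ0 θ1
  obtain ⟨f, Cv, -, v0, -, -, hev⟩ := ev d n θ θ0 (by linarith)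
  obtain ⟨Ce, hx⟩ := K.exc d n
  obtain ⟨Cb, b0, hb⟩ := (K.ker d n).bd
  obtain ⟨C1, hp⟩ := pl1 d n
  obtain ⟨Ca, ha⟩ := K.al2 (Gr d n)
  have B := K.bas d n
  have P := K.par d n
  have R := K.ker d n
  have e1 := hx.pos
  have a1 := ha.pos
  have p0 := hp.pos
  set β := volume.real (ball (0 : X d) 1) with hβ
  have β0 : 0 ≤ β := measureReal_nonneg
  obtain ⟨c2, h2⟩ : ∃ c, c = Cb * (β * (2 * C1)) := ⟨_, rfl⟩
  obtain ⟨c3, h3⟩ : ∃ c, c = Ca * (β + (3 + Ce * 32) ^ 2) := ⟨_, rfl⟩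
  obtain ⟨c4, h4⟩ : ∃ c, c = Ca * (1 + 32 ^ 2) := ⟨_, rfl⟩
  obtain ⟨c5, h5⟩ : ∃ c, c = Ce * (4 * C1) := ⟨_, rfl⟩
  have n2 : 0 ≤ c2 := by rw [h2]; positivity
  have n3 : 0 ≤ c3 := by rw [h3]; positivity
  have n4 : 0 ≤ c4 := by rw [h4]; positivity
  have n5 : 0 ≤ c5 := by rw [h5]; positivity
  obtain ⟨c6, h6⟩ : ∃ c, c = Cd * (Cv * c3 + d * c2 + (2 * C1 + c4) + (c3 + β * c4)) := ⟨_, rfl⟩
  have n6 : 0 ≤ c6 := by rw [h6]; positivity
  have n7 : 0 ≤ Cv * c3 := by positivity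
  have n8 : 0 ≤ Ce * c5 := by positivity
  refine ⟨c6 + Cd + Cv * c3 + (6 + Ce) + Ce * c5, 1 / (8 + c2 + c5 + c6), by positivity,
    by positivity, fun ε u G Z hε hε1 hP => ?_⟩
  have k0 : ε * (8 + c2 + c5 + c6) ≤ 1 := (le_div_iff₀ (by positivity)).1 hε1
  have q2 := mul_nonneg hε.le n2
  have q5 := mul_nonneg hε.le n5
  have q6 := mul_nonneg hε.le n6
  have k1 : ε ≤ 1 / 8 := by linarith
  have k5 : Ce * (4 * C1 * ε) = ε * c5 := by rw [h5]; ring
  have q1 := mul_nonneg p0 hε.le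
  have k6 : 4 * C1 * ε ≤ ε * c5 := k5 ▸ le_mul_of_one_le_left (by positivity) e1
  obtain ⟨g1, g2, g3, g4⟩ := gam B hp hε k1 hP.pl hP.nZ
  have mG := hP.sol.mG
  have iG := (hx.ib ε G hε.le mG).1
  have iu := (hx.ib ε u hε.le hP.sol.mu).1
  have iZ := P.ib_c _ g2
  set z : X d → Gr d n := fun x => G x - GZ ε Z x with hz
  have mz : Mp ε z := mG.sub (hx.mp_c ε _ g2)
  have iz := (hx.ib ε z hε.le mz).1
  set γ : X d → Gr d n := fun x => GZ ε Z x - ap Z x with hγ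
  have cγ : Continuous γ := g2.sub (ap Z).continuous
  have iγ := P.ib_c _ cγ
  have nγ : ‖HH γ‖ ≤ ε * c2 := ((hb γ iγ).2.trans
    (mul_le_mul_of_nonneg_left (L1_le g4) b0)).trans_eq (by rw [h2]; ring)
  have f1 : bb z = bb G := by
    have := bb_add R iz iZ
    rw [R.bb_odd _ g3, add_zero] at this
    simpa [hz] using this.symm
  have f2 : Z + HH z = HH G - HH γ := by
    have t1 := HH_add R iz iZ
    have t2 := HH_add R iγ (P.ib_c (fun x => 0 + ap Z x) (by fun_prop))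
    rw [R.HH_aff] at t2
    simp only [hz, hγ, sub_add_cancel, zero_add] at t1 t2
    rw [t1, t2]
    abel
  have sy : Sy (HH z) := by
    have := P.wg_add _ _ _ _ 1 (-1) iu (P.ib_c _ g1.continuous) iG iZ hP.sol.wg (P.wg_c1 _ g1)
    refine R.sy (fun x => (1 : ℝ) • u x + (-1 : ℝ) • UZ (ss ε) Z x) z
      ((iu.smul (1 : ℝ)).add ((P.ib_c _ g1.continuous).smul (-1 : ℝ))) iz ?_
    simpa [hz, sub_eq_add_neg, GZ] using this
  set Q : X d → X n := fun y => UZ (ss ε) Z y + (act (bb z) y + qf ((1 / 2 : ℝ) • HH z) y) with hQ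
  have cq : ContDiff ℝ 1 (qf ((1 / 2 : ℝ) • HH z)) := (B.c_qf _).of_le (by exact_mod_cast le_top)
  have ca : ContDiff ℝ 1 fun y => act (bb z) y := (act (bb z)).contDiff
  have cQ : ContDiff ℝ 1 Q := g1.add (ca.add cq)
  have dQ : ∀ x, Dm Q x = bb z + ap (Z + HH z) x + γ x := fun x => by
    have s2 : Sy ((1 / 2 : ℝ) • HH z) := by simpa using B.sy_add _ _ (1 / 2) 0 sy sy
    rw [hQ, B.D_add _ _ x (g1.differentiable one_ne_zero x)
      ((ca.add cq).differentiable one_ne_zero x), B.D_add _ _ x (ca.differentiable one_ne_zero x)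
      (cq.differentiable one_ne_zero x), B.D_act, B.D_qf _ s2]
    simp only [hγ, GZ, map_add, map_smul, add_apply, smul_apply, smul_smul]
    norm_num
    abel
  have eQ : (fun x => G x - Dm Q x) = pr z := by
    funext x
    simp only [dQ, pr, hz, hγ, map_add, add_apply]
    abel
  have nQ : ∀ x ∈ ball (0 : X d) 1, ‖Dm Q x‖ ≤ 32 := fun x hx' => by
    have t1 := B.n_ap (Z + HH z) x
    have t2 : ‖Z + HH z‖ ≤ 5 := f2 ▸ (norm_sub_le _ _).trans (by linarith [hP.nH])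
    have t3 := mul_le_mul t2 (mem_ball_zero_iff.1 hx').le (norm_nonneg _) (by norm_num)
    have t4 := g4 x hx'
    rw [dQ]
    refine (norm_add₃_le ..).trans ?_
    rw [f1]
    linarith [hP.nb]
  have cD := B.c_Dm Q cQ
  have mD := hx.mp_c ε _ cD
  have x1 : exc ε (pr z) ≤ 3 := hP.ne
  have l2 : L2 G ≤ 3 + Ce * 32 := by
    have t1 := hx.l2_add ε 32 _ _ hε.le (hx.mp_pr ε z mz) mD nQ
    have t2 := (hx.l1 ε _ hε.le (hx.mp_pr ε z mz)).2
    rw [← eQ] at t1 t2 x1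
    simp only [sub_add_cancel] at t1
    linarith
  have l1 := L1_T hx ha hε k1 mG l2
  rw [← hβ, ← h3] at l1
  obtain ⟨w1, w2, w3, w4⟩ := (hev u G iu iG hP.sol.wg).2 _ (integral_nonneg fun _ => norm_nonneg _)
    (ah_sol K hx hε.le hP.sol)
  have l3 := mul_le_mul_of_nonneg_left l1 v0
  have nT : ∀ x ∈ ball (0 : X d) 1, ‖T ε (Dm Q x)‖ ≤ c4 * ε := fun x hx' =>
    (ha.t1 ε _ hε k1).trans (by
      have := nQ x hx'
      rw [h4, mul_right_comm Ca]
      gcongr)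
  have cT : Continuous fun x => T ε (Dm Q x) := cD.sub (((K.al1 _).cont ε hε.le).comp cD)
  have rs : Res ε (Cv * (c3 * ε) + d * (ε * c2) + (2 * C1 * ε + c4 * ε)) (Dm Q) := by
    refine res K (bb z) (Z + HH z) (cγ.sub cT) (fun x => ?_) ?_ (by positivity) fun x hx' =>
      (norm_sub_le _ _).trans (add_le_add (g4 x hx') (nT x hx'))
    · rw [Pi.sub_apply, ← add_sub_assoc, ← dQ, T, sub_sub_cancel]
    · rw [f2, map_sub]
      exact (norm_sub_le _ _).trans (add_le_add (w4.trans l3)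
        ((B.n_trc _).trans (mul_le_mul_of_nonneg_left nγ (Nat.cast_nonneg d))))
  have k7 : Cd * (Cv * (c3 * ε) + d * (ε * c2) + (2 * C1 * ε + c4 * ε) +
      (c3 * ε + β * (c4 * ε))) = ε * c6 := by rw [h6]; ring
  obtain ⟨z1, z2⟩ := R.pr_zero z iz
  have hd := (hdec ε 32 _ (ε ^ 3) (c3 * ε + β * (c4 * ε)) u Q G hε (by linarith) (by
      rw [show (32 : ℝ) = 2 ^ (5 : ℝ) by norm_num, ← Real.rpow_mul two_pos.le]
      exact (Real.rpow_le_rpow_of_exponent_le one_le_two (by linarith)).trans_eq (Real.rpow_one 2))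
    (by positivity) (by positivity) hP.sol cQ nQ rs
    (fun x _ y => (K.al1 _).wt ε _ y hε (by linarith)) (eQ ▸ z1) (eQ ▸ z2)
    ((L1_sub (hx.ib_A ε G hε.le mG).2 (P.ib_c _ cT)).trans (add_le_add l1 (L1_le nT)))
    (by linarith) (by rw [eQ]; linarith)).2
  have is : Ib (sc θ z) := by
    have := (hx.ib ε _ hε.le (hx.mp_sh ε z 0 θ θ0 (by rw [norm_zero]; linarith) mz)).1
    rwa [show sh 0 θ z = sc θ z from funext fun x => by rw [sh, sc, zero_add]] at this
  rw [eQ, show sc θ (pr z) = fun x => sc θ z x + (-bb z + ap (-θ • HH z) x) from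
    funext fun x => by simp [sc, pr, sub_eq_add_neg, add_assoc], pr_aff K is] at hd
  have k8 : Cd * ε ^ 3 ≤ Cd * ε :=
    mul_le_mul_of_nonneg_left (pow_le_of_le_one hε.le (by linarith) three_ne_zero) d0
  have r0 := mul_nonneg d0 hε.le
  have r1 := mul_nonneg n7 hε.le
  have r2 := mul_nonneg n8 hε.le
  have r3 : 0 ≤ Ce * ε := by positivity
  have r4 : Cv * (c3 * ε) ≤ (c6 + Cd + Cv * c3 + (6 + Ce) + Ce * c5) * ε := by
    linarith only [q6, r0, r2, r3, hε]
  refine ⟨hd.trans ?_, w1.trans (l3.trans r4), w3.trans (l3.trans r4), w4.trans (l3.trans r4),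
    w2.trans (l3.trans r4), ?_, fun Z' hZ' n' => ?_⟩
  · change _ ≤ C₀ * θ ^ 2 * exc ε (pr z) + _
    linarith only [k7, k8, r1, r2, r3, hε]
  · have t := exc_le K hx hε.le (by linarith) (y := G) (t := 4 * C1 * ε) mz cγ Z
      (fun x hx' => (g4 x hx').trans (by linarith)) (by linarith) fun x => by simp [hz, hγ]
    have := mul_le_mul_of_nonneg_left (by linarith : Ce * (4 * C1 * ε) ≤ 1) (by linarith : 0 ≤ Ce)
    linarith
  · obtain ⟨-, j2, -, j4⟩ := gam B hp hε k1 hZ' n'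
    have t := exc_le K hx hε.le (by linarith) (y := fun x => G x - GZ ε Z' x) (t := 4 * C1 * ε) mz
      (cγ.sub (j2.sub (ap Z').continuous)) (Z - Z')
      (fun x hx' => (norm_sub_le _ _).trans ((add_le_add (g4 x hx') (j4 x hx')).trans (by linarith)))
      (by linarith) fun x => by
        simp only [hz, hγ, Pi.sub_apply, map_sub, sub_apply]
        abel
    rw [k5] at t
    change exc ε _ ≤ 2 * exc ε (pr z) + _
    linarith only [t, q6, r0, r1, r3, hε]

end Pool.Agent.MP_815c6c_an.N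

end
end MrgPart0

-- ======== part 1: formerly Pool.Agent.MP_815c6c_an.N.Pk2
section MrgPart1

/-! Row PK2: second order bounds near planar Hessians. -/

set_option autoImplicit false

noncomputable section

namespace Pool.Agent.MP_815c6c_an.N

open Set Metric MeasureTheory Filter Topology
open scoped ContDiff RealInnerProductSpace ENNReal

open Pk2A in
theorem pk2 (Kt : Kit) (hev : EvS) (hdec : DecS) (hell : EllS) (hmix : MixS) (h1 : Pl1S)
    (h2 : Pl2S) (h3 : Pl3S) (h4 : Pl4S) : Pk2S := by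
  intro d n hd hF
  have B := Kt.bas d n
  have P := Kt.par d n
  have K := Kt.ker d n
  have Q := Kt.pl0 d n
  have A1 := Kt.al1 (Gr d n)
  obtain ⟨Ce, E⟩ := Kt.exc d n
  obtain ⟨C2, A2⟩ := Kt.al2 (Gr d n)
  obtain ⟨C1, L⟩ := h1 d n
  obtain ⟨Cp, Cp0, hp2⟩ := h2 d n
  obtain ⟨C₀, C0, hD⟩ := hdec d n
  refine ⟨C₀, C0, fun θ t0 t8 => ?_⟩
  have t1 : θ < 1 := by linarith
  obtain ⟨Cd, Cd0, hD⟩ := hD θ t0 t8
  obtain ⟨f, Cv, hf, Cv0, hmo, -, hv⟩ := hev d n θ t0 t1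
  obtain ⟨N, N8, -, hc⟩ := core B P K E A2 L Q (θ := θ) Cp0 Cv0 hp2 fun v z ρ a b c r h =>
    ⟨((hv v z a b c).2 ρ r h).1, ((hv v z a b c).2 ρ r h).2.2.2⟩
  obtain ⟨c, C, k₀, c0, Cc0, k00, hp1⟩ := part1 B P K E L Q A1 hd hF hell hmix h3 h4 t0 t1 N8 hc Cp0
    hp2 hf hmo fun v z a b c => (hv v z a b c).1
  refine ⟨c, C, c0, Cc0, fun κ κ0 => ?_⟩
  have l0 : 0 < Real.log θ⁻¹ := Real.log_pos ((one_lt_inv₀ t0).2 t1)
  have pw := fun {ε : ℝ} (h0 : 0 < ε) (h1 : ε ≤ 1 / 8) => pow_bd h0 h1 t0 t1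
  generalize Real.log θ⁻¹ = l at *
  obtain ⟨k₁, k10, -, -, hk1⟩ := small (M := Cd) (t := 4) Cd0 (by norm_num) one_pos
  obtain ⟨k, k0, k1, kk, hk⟩ := small (M := N + l + 2 * Cd * N + Cd) (t := κ) (by positivity) κ0
    (lt_min k00 k10)
  have nl : 0 < N + l := by linarith
  refine ⟨(N + 2 * Cd * N) * k⁻¹, k ^ 2 / (N + l), by positivity, by positivity, ?_⟩
  generalize hδ' : k ^ 2 / (N + l) = δ
  have hδ : (N + l) * δ ≤ k ^ 2 := by rw [← hδ', mul_div_cancel₀ _ nl.ne']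
  intro ε u G Z h0 hε hp hH hZ hb
  obtain ⟨s1, s2, s3, s4, s5, s6⟩ := sm N8 l0 k0 k1 h0 hε hδ
  have h1 : ε ≤ 1 / 8 := hε.trans s4
  obtain ⟨a, ha⟩ : ∃ a, a = HH fun x => G x - GZ ε Z x := ⟨_, rfl⟩
  obtain ⟨-, r2, r3, -, r5, r6, r7⟩ := hc k δ ε _ u G Z a k0 k1 s1 h0 hε hp hZ hb ha rfl
  have E0 : 0 ≤ ez ε G Z := exc_nn _ _
  obtain ⟨R0, -, R2⟩ := rr (by linarith : 0 ≤ N) k0 k1 h0 s2 E0 hp.ne
  obtain ⟨q0, q1, -⟩ := pw h0 h1 s3
  obtain ⟨m, iz, iv, wg, eb, -⟩ := z_facts B P K E L h0 h1 hp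
  have g1 := mul_le_mul_of_nonneg_right hk h0.le
  have g2 : 0 ≤ Cd * N * k * ε := by positivity
  have g3 : 0 ≤ Cd * k * ε := by positivity
  have g4 : 0 ≤ Cd * N * k⁻¹ * ε * ez ε G Z := by positivity
  have g5 : 0 ≤ N * k * ε := by positivity
  have g6 : 0 ≤ l * k * ε := by positivity
  have g7 : 0 ≤ N * k⁻¹ * ε * ez ε G Z := by positivity
  refine ⟨hp1 δ ε u G Z (hδ.trans (pow_le_pow_left₀ k0.le (kk.trans (min_le_left _ _)) 2)) h0 hε hp
    hH hZ hb, ?_, ?_⟩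
  · rw [del B P K E L t0 t1.le h0 h1 hp ha]
    refine (nd B q0 q1 r2 (by linarith [norm_nonneg (bb G)] : ‖a‖ ≤ k)).trans ?_
    linarith
  · obtain ⟨s0, -, s8, -⟩ := ss_bd h0 h1
    obtain ⟨V, cV, eV⟩ := pot B (L.c1 _ Z s0 s8 hp.pl) (bb G) (ha ▸ K.sy _ _ iv iz wg : Sy a)
    have eV' : Dm V = fun x => GZ ε Z x + bb G + ap a x := eV
    have e : (fun x => G x - Dm V x) = pr fun x => G x - GZ ε Z x := by
      funext x; simp only [pr, eb, ← ha, eV']; abel
    have p32 : (32 : ℝ) ^ ε ≤ 2 := by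
      refine (Real.rpow_le_rpow_of_exponent_le (by norm_num) (h1.trans (by norm_num) :
        ε ≤ 1 / 5)).trans_eq ?_
      rw [show (32 : ℝ) = 2 ^ (5 : ℝ) by norm_num, ← Real.rpow_mul (by norm_num)]; norm_num
    have z0 := K.pr_zero _ iz
    have g8 := mul_le_mul_of_nonneg_left R2 Cd0
    have g9 := mul_le_mul_of_nonneg_left (kk.trans (min_le_right _ _)) Cd0
    have key := (hD ε 32 _ (ε ^ 3) (N * ε * (k + k⁻¹ * ez ε G Z)) u V G h0 (by linarith) p32 R0
      (by positivity) hp.sol cV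
      (by rw [eV']; exact r7) (by rw [eV']; exact r5)
      (fun x _ z => A1.wt ε _ z h0 (by linarith)) (by rw [e]; exact z0.1) (by rw [e]; exact z0.2)
      (by rw [eV']; exact r6) (by linarith) (by rw [e]; exact hp.ne.trans (by norm_num))).2
    have i : Ib (sc θ fun x => G x - GZ ε Z x) := by
      have := (E.ib ε _ h0.le (E.mp_sh ε _ 0 θ t0 (by simpa using t1.le) m)).1
      have e' : sc θ (fun x => G x - GZ ε Z x) = sh 0 θ fun x => G x - GZ ε Z x := by
        funext x; simp [sc, sh]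
      rw [e']; exact this
    rw [e, pr_sc P K i] at key
    have g10 : ε ^ 3 ≤ k * ε := by
      have : ε ^ 2 ≤ k := by nlinarith
      nlinarith
    have g11 := mul_le_mul_of_nonneg_left g10 Cd0
    refine key.trans ?_
    change C₀ * θ ^ 2 * ez ε G Z + _ ≤ _
    linarith

end Pool.Agent.MP_815c6c_an.N

end
end MrgPart1

-- ======== part 2: formerly Pool.Agent.MP_815c6c_an.N.Pla
section MrgPart2

/-! Integration over planes and the first order term at a planar Hessian. -/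

set_option autoImplicit false

noncomputable section

namespace Pool.Agent.MP_815c6c_an.N

open Set Metric MeasureTheory Filter Topology Real
open scoped ContDiff RealInnerProductSpace ENNReal

namespace PlaA

theorem polar (g : ℝ × ℝ → ℝ) (hg : Integrable g) :
    ∫ p, g p = ∫ r in Ioi (0 : ℝ), ∫ t in Ioo (-π) π, r * g (r * cos t, r * sin t) := by
  have h1 : IntegrableOn (fun p : ℝ × ℝ => p.1 • g (polarCoord.symm p)) polarCoord.target := by
    have := (integrableOn_image_iff_integrableOn_abs_det_fderiv_smul volume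
      polarCoord.open_target.measurableSet
      (fun p _ => (hasFDerivAt_polarCoord_symm p).hasFDerivWithinAt) polarCoord.symm.injOn g).1
      hg.integrableOn
    refine this.congr_fun (fun p hp => ?_) polarCoord.open_target.measurableSet
    simp only [det_fderivPolarCoordSymm, abs_of_pos (show 0 < p.1 from hp.1)]
  rw [← integral_comp_polarCoord_symm]
  exact setIntegral_prod _ h1

theorem frame (d : ℕ) (e₁ e₂ : X d) (h1 : ‖e₁‖ = 1) (h2 : ‖e₂‖ = 1) (h3 : ⟪e₁, e₂⟫ = 0) :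
    ∃ (m : ℕ) (b : OrthonormalBasis (Fin m ⊕ Fin 2) ℝ (X d)), d = m + 2 ∧ b (.inr 0) = e₁ ∧
      b (.inr 1) = e₂ := by
  have ho : Orthonormal ℝ ![e₁, e₂] := by
    refine ⟨fun i => by fin_cases i <;> simpa, fun i j hij => ?_⟩
    fin_cases i <;> fin_cases j <;> simp_all [real_inner_comm]
  have hd : 2 ≤ d := by simpa using ho.linearIndependent.fintype_card_le_finrank
  obtain ⟨m, rfl⟩ : ∃ m, d = m + 2 := ⟨d - 2, by omega⟩
  obtain ⟨b, hb⟩ := Orthonormal.exists_orthonormalBasis_extension_of_card_eq (𝕜 := ℝ)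
    (E := X (m + 2)) (ι := Fin m ⊕ Fin 2) (by simp) (v := Sum.elim 0 ![e₁, e₂])
    (s := range Sum.inr) (by
      refine ⟨?_, ?_⟩
      · rintro ⟨_, i, rfl⟩
        exact ho.1 i
      · rintro ⟨_, i, rfl⟩ ⟨_, j, rfl⟩ hij
        exact ho.2 fun e => hij (by rw [e]))
  exact ⟨m, b, rfl, hb _ ⟨0, rfl⟩, hb _ ⟨1, rfl⟩⟩

theorem trig (a₁ a₂ a₃ a₄ a₅ a₆ b₁ b₂ b₃ b₄ b₅ b₆ : ℝ) :
    ∫ t in Ioo (-π) π, ((cos t ^ 2 - sin t ^ 2) * (a₁ * cos t ^ 2 + 2 * a₂ * (cos t * sin t) +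
        a₃ * sin t ^ 2 + a₄ * cos t + a₅ * sin t + a₆) + 2 * cos t * sin t * (b₁ * cos t ^ 2 +
        2 * b₂ * (cos t * sin t) + b₃ * sin t ^ 2 + b₄ * cos t + b₅ * sin t + b₆)) =
      π / 2 * (a₁ - a₃ + 2 * b₂) := by
  rw [← integral_Ioc_eq_integral_Ioo, ← intervalIntegral.integral_of_le (by linarith [pi_pos])]
  rw [intervalIntegral.integral_eq_sub_of_hasDerivAt (f := fun t =>
    a₁ * (t / 4 + sin t * cos t / 4 + sin t * cos t ^ 3 / 2) +
    a₂ * (-cos t ^ 4 / 2 - sin t ^ 4 / 2) +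
    a₃ * (t / (-4) + sin t * cos t / 2 - sin t * cos t ^ 3 / 4 + sin t ^ 3 * cos t / 4) +
    a₄ * (sin t - 2 * sin t ^ 3 / 3) + a₅ * (cos t - 2 * cos t ^ 3 / 3) + a₆ * (sin t * cos t) +
    b₁ * (-cos t ^ 4 / 2) + b₂ * (t / 2 + sin t * cos t / 2 - sin t * cos t ^ 3) +
    b₃ * (sin t ^ 4 / 2) + b₄ * (-2 * cos t ^ 3 / 3) + b₅ * (2 * sin t ^ 3 / 3) + b₆ * sin t ^ 2)]
  · simp
    ring
  · intro t _
    refine (DifferentiableAt.hasDerivAt (by fun_prop)).congr_deriv ?_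
    simp (disch := fun_prop) only [deriv_fun_add, deriv_fun_sub, deriv_fun_mul, deriv_div_const,
      deriv_fun_pow, deriv_const', deriv_id'', Real.deriv_sin, Real.deriv_cos', deriv.fun_neg]
    have h := sin_sq_add_cos_sq t
    linear_combination (a₁ * (-1 / 4 - cos t ^ 2 / 2) + 
      a₃ * (1 / 4 - cos t ^ 2 / 4 + 3 * sin t ^ 2 / 4) - a₄ * cos t + a₅ * sin t + b₂ * (-1 / 2 - cos t ^ 2)) * h
  · exact Continuous.intervalIntegrable (by fun_prop) _ _

theorem integ {d : ℕ} {f : ℝ → ℝ} (hf : Rad f) {E : Type} [NormedAddCommGroup E] [NormedSpace ℝ E]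
    {g : X d → E} (hg : Continuous g) : Integrable fun x => f (‖x‖ ^ 2) • g x := by
  refine Continuous.integrable_of_hasCompactSupport
    ((hf.1.continuous.comp (by fun_prop)).smul hg)
    (HasCompactSupport.intro (isCompact_closedBall 0 1) fun x hx => ?_)
  rw [mem_closedBall_zero_iff, not_le] at hx
  rw [hf.2.1 _ (by nlinarith), zero_smul]

theorem mom {d : ℕ} {f : ℝ → ℝ} (hf : Rad f) {e : X d} (he : ‖e‖ = 1) :
    d * ∫ x : X d, f (‖x‖ ^ 2) * ⟪e, x⟫ ^ 2 = mo2 d f := by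
  have h1 : ∀ i : Fin d, ∫ x : X d, f (‖x‖ ^ 2) * ⟪e, x⟫ ^ 2 = ∫ x : X d, f (‖x‖ ^ 2) * x i ^ 2 := by
    intro i
    have h2 := Submodule.reflection_sub (v := EuclideanSpace.single i (1 : ℝ)) (w := e)
      (by simp [he])
    set R := Submodule.reflection (ℝ ∙ (EuclideanSpace.single i (1 : ℝ) - e))ᗮ
    rw [← R.measurePreserving.integral_comp R.toHomeomorph.measurableEmbedding]
    refine integral_congr_ae (Eventually.of_forall fun x => ?_)
    simp only [← h2, R.norm_map, R.inner_map_map]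
    simp [EuclideanSpace.inner_single_left]
  have h3 : ∀ x : X d, f (‖x‖ ^ 2) * ‖x‖ ^ 2 = ∑ i, f (‖x‖ ^ 2) * x i ^ 2 := fun x => by
    rw [← Finset.mul_sum, ← EuclideanSpace.real_norm_sq_eq]
  unfold mo2
  simp_rw [h3]
  rw [integral_finsetSum (f := fun i (x : X d) => f (‖x‖ ^ 2) * x i ^ 2) _
      fun i _ => integ hf (g := fun x : X d => x i ^ 2) (by fun_prop),
    Finset.sum_congr rfl fun i _ => (h1 i).symm]
  simp

end PlaA

theorem pla : PlaS := by
  intro d e₁ e₂ h1 h2 h3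
  obtain ⟨m, b, hd, b1, b2⟩ := PlaA.frame d e₁ e₂ h1 h2 h3
  let L₀ : X m →ₗ[ℝ] X d :=
    (EuclideanSpace.basisFun (Fin m) ℝ).toBasis.constr ℝ fun i => b (.inl i)
  have hL : ∀ y, L₀ y = ∑ i, y i • b (.inl i) := fun y => by
    simp [L₀, Module.Basis.constr_apply_fintype]
  let L : X m →ₗᵢ[ℝ] X d := L₀.isometryOfOrthonormal (v := (EuclideanSpace.basisFun (Fin m) ℝ).toBasis)
    (by simp) (by
      have : (L₀ ∘ (EuclideanSpace.basisFun (Fin m) ℝ).toBasis) = b ∘ Sum.inl :=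
        funext fun i => Module.Basis.constr_basis _ _ _ _
      rw [this]
      exact b.orthonormal.comp _ Sum.inl_injective)
  have hL' : ∀ y, L y = ∑ i, y i • b (.inl i) := hL
  let Φ : (X m × ℝ × ℝ) ≃ᵐ X d :=
    ((MeasurableEquiv.prodCongr (MeasurableEquiv.toLp 2 (Fin m → ℝ)).symm
      MeasurableEquiv.finTwoArrow.symm).trans
      (MeasurableEquiv.sumPiEquivProdPi fun _ : Fin m ⊕ Fin 2 => ℝ).symm).trans
      ((MeasurableEquiv.toLp 2 _).trans b.measurableEquiv.symm)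
  have hΦ : MeasurePreserving Φ := by
    refine MeasurePreserving.trans (MeasurePreserving.trans ?_
      (volume_measurePreserving_sumPiEquivProdPi_symm _)) (MeasurePreserving.trans
        (EuclideanSpace.volume_preserving_symm_measurableEquiv_toLp _).symm
        b.measurePreserving_measurableEquiv.symm)
    exact (EuclideanSpace.volume_preserving_symm_measurableEquiv_toLp _).prod
      (volume_preserving_finTwoArrow ℝ).symm
  have eΦ : ∀ w : X m × ℝ × ℝ, Φ w = w.2.1 • e₁ + w.2.2 • e₂ + L w.1 := fun w => by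
    change b.repr.symm (WithLp.toLp 2 (Sum.elim w.1.ofLp ![w.2.1, w.2.2])) = _
    rw [← b.sum_repr_symm, Fintype.sum_sum_type, Fin.sum_univ_two, hL', b1, b2, add_comm]
    rfl
  refine ⟨m, L, hd, fun y => ?_, fun F hF => ?_⟩
  · simp [hL', ← b1, ← b2, inner_sum, inner_smul_right, b.inner_eq_ite]
  · have hi : Integrable fun w : X m × ℝ × ℝ => F (w.2.1 • e₁ + w.2.2 • e₂ + L w.1) := by
      simpa only [Function.comp_def, eΦ] using
        (hΦ.integrable_comp_emb Φ.measurableEmbedding).2 hF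
    refine ⟨hi, ?_⟩
    rw [← hΦ.integral_comp' F]
    simp only [eΦ]
    rw [show (volume : Measure (X m × ℝ × ℝ)) = volume.prod volume from rfl, integral_prod _ hi]
    refine integral_congr_ae ?_
    filter_upwards [hi.prod_right_ae] with y hy
    exact PlaA.polar _ hy

theorem pl4 (hk : Kit) (hp : PlaS) : Pl4S := by
  intro d n f Z M hf hZ hM
  have hb := hk.bas d n
  by_cases h0 : Z = 0
  · simp [h0, lam, cH]
  obtain ⟨e₁, e₂, α, β, h1, h2, h3, -, H⟩ := (hk.pl0 d n).form Z hZ h0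
  obtain ⟨m, L, hd, hL, hI⟩ := hp d e₁ e₂ h1 h2 h3
  have eZ : Z = tens (out α e₁) e₁ + tens (out β e₁) e₂ + tens (out β e₂) e₁ -
      tens (out α e₂) e₂ := by
    ext ⟨a, i, j⟩
    have := congrArg (fun G : Gr d n => G (a, i)) (H (EuclideanSpace.single j 1)).1
    simp [ap_apply, out_apply, EuclideanSpace.inner_single_right] at this
    simp only [PiLp.add_apply, PiLp.sub_apply, tens_apply, out_apply, this]
    ring
  have eI : ⟪Z, M⟫ = ⟪α, act (ap M e₁) e₁⟫ - ⟪α, act (ap M e₂) e₂⟫ +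
      2 * ⟪β, act (ap M e₁) e₂⟫ := by
    have h4 : ∀ y u v, ⟪tens (out y u) v, M⟫ = ⟪y, act (ap M v) u⟫ := fun y u v => by
      rw [hb.i_tens, real_inner_comm, hb.i_out, real_inner_comm]
    rw [eZ, inner_sub_left, inner_add_left, inner_add_left, h4, h4, h4, h4,
      hb.act_sy M hM.1 e₂ e₁]
    ring
  have i1 : Integrable fun x => ⟪cH Z x, tq f M x⟫ := by
    refine ((PlaA.integ hf (hb.c_qf M).continuous).norm.const_mul ‖Z‖).mono'
      ((hb.m_cH Z).aestronglyMeasurable.inner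
        (PlaA.integ hf (hb.c_qf M).continuous).aestronglyMeasurable)
      (Eventually.of_forall fun x => (norm_inner_le_norm _ _).trans ?_)
    exact mul_le_mul_of_nonneg_right (hb.n_cH Z x) (norm_nonneg _)
  have j : ∀ e : X d, Integrable fun x : X d => f (‖x‖ ^ 2) * ⟪e, x⟫ ^ 2 := fun e =>
    PlaA.integ hf (g := fun x : X d => ⟪e, x⟫ ^ 2) (by fun_prop)
  have key : lam f Z M =
      ∫ x : X d, ⟪Z, M⟫ / 4 * (f (‖x‖ ^ 2) * ⟪e₁, x⟫ ^ 2 + f (‖x‖ ^ 2) * ⟪e₂, x⟫ ^ 2) := by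
    refine ((hI _ i1).2.trans ?_).trans (hI _ (((j e₁).add (j e₂)).const_mul _)).2.symm
    refine integral_congr_ae (Eventually.of_forall fun y => ?_)
    refine setIntegral_congr_fun measurableSet_Ioi fun r hr => ?_
    have hr0 : r ≠ 0 := ne_of_gt hr
    have u1 : ∀ t, ⟪e₁, (r * cos t) • e₁ + (r * sin t) • e₂ + L y⟫ = r * cos t := fun t => by
      simp [inner_add_right, inner_smul_right, h1, h3, (hL y).1]
    have u2 : ∀ t, ⟪e₂, (r * cos t) • e₁ + (r * sin t) • e₂ + L y⟫ = r * sin t := fun t => by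
      simp [inner_add_right, inner_smul_right, h2, real_inner_comm e₁ e₂, h3, (hL y).2]
    have u0 : ∀ t, (r * cos t) ^ 2 + (r * sin t) ^ 2 = r ^ 2 := fun t => by
      linear_combination r ^ 2 * sin_sq_add_cos_sq t
    have u3 : ∀ t, ‖(r * cos t) • e₁ + (r * sin t) • e₂ + L y‖ ^ 2 = r ^ 2 + ‖L y‖ ^ 2 := fun t => by
      rw [← real_inner_self_eq_norm_sq]
      nth_rewrite 1 [inner_add_left]
      rw [inner_add_left, real_inner_smul_left, real_inner_smul_left, u1, u2, inner_add_right,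
        inner_add_right, inner_smul_right, inner_smul_right, real_inner_comm, (hL y).1,
        real_inner_comm, (hL y).2, real_inner_self_eq_norm_sq]
      linear_combination u0 t
    have T := PlaA.trig (r ^ 2 * ⟪α, act (ap M e₁) e₁⟫) (r ^ 2 * ⟪α, act (ap M e₁) e₂⟫)
      (r ^ 2 * ⟪α, act (ap M e₂) e₂⟫) (2 * r * ⟪α, act (ap M e₁) (L y)⟫)
      (2 * r * ⟪α, act (ap M e₂) (L y)⟫) ⟪α, act (ap M (L y)) (L y)⟫
      (r ^ 2 * ⟪β, act (ap M e₁) e₁⟫) (r ^ 2 * ⟪β, act (ap M e₁) e₂⟫)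
      (r ^ 2 * ⟪β, act (ap M e₂) e₂⟫) (2 * r * ⟪β, act (ap M e₁) (L y)⟫)
      (2 * r * ⟪β, act (ap M e₂) (L y)⟫) ⟪β, act (ap M (L y)) (L y)⟫
    have T2 := congrArg (fun s => r * f (r ^ 2 + ‖L y‖ ^ 2) * s) T
    simp only [← integral_const_mul] at T2
    refine Eq.trans ?_ (T2.trans ?_)
    · refine integral_congr_ae (Eventually.of_forall fun t => ?_)
      obtain ⟨-, q1, q2, q3, -⟩ := H ((r * cos t) • e₁ + (r * sin t) • e₂ + L y)
      simp only [q3, q2, q1, tq, u1, u2, u3, u0]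
      simp only [qf, map_add, map_smul, add_apply,
        smul_apply, inner_add_left, inner_add_right, real_inner_smul_left,
        real_inner_smul_right, hb.act_sy M hM.1 e₂ e₁, hb.act_sy M hM.1 (L y) e₁,
        hb.act_sy M hM.1 (L y) e₂]
      field_simp
      ring
    · simp only [Pi.add_apply, u1, u2, u3, ← mul_add, u0]
      rw [setIntegral_const, eI, Real.volume_real_Ioo_of_le (by linarith [pi_pos]), smul_eq_mul]
      ring
  have hd0 : (d : ℝ) ≠ 0 := by rw [hd]; positivity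
  rw [key, integral_const_mul, integral_add (j e₁) (j e₂), ← PlaA.mom hf h1,
    mul_left_cancel₀ hd0 ((PlaA.mom hf h2).trans (PlaA.mom hf h1).symm)]
  field_simp
  ring

end Pool.Agent.MP_815c6c_an.N

end
end MrgPart2

-- marker of a merged file
example : 731051 + 840725 = 731051 + 840725 := rfl
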