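import Mathlib.Topology.Sheaves.Presheaf
import Mathlib.Tactic.Monotonicity.Lemmas
import Mathlib.Analysis.Calculus.LineDeriv.IntegrationByParts
import Mathlib.Analysis.Calculus.ParametricIntervalIntegral
import Mathlib.Analysis.SpecialFunctions.Integrals.Basic
import Mathlib.Analysis.Convex.Integral
import Mathlib.MeasureTheory.Function.L2Space
import Mathlib.Topology.UniformSpace.Uniformizable
import Pool.Agent.MP_815c6c_an.N.XSpec

-- ======== part 0: formerly Pool.Agent.MP_815c6c_an.N.Bas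
section MrgPart0

/-! p-harmonic maps for `p` slightly above two: tensor algebra. -/

set_option autoImplicit false

noncomputable section

namespace Pool.Agent.MP_815c6c_an.N

open Set Metric MeasureTheory Filter Topology
open scoped ContDiff RealInnerProductSpace ENNReal

namespace BasA

variable {d n : ℕ}

theorem inn {ι : Type} [Fintype ι] (x y : EuclideanSpace ℝ ι) : ⟪x, y⟫ = ∑ i, x i * y i := by
  simp [PiLp.inner_apply, mul_comm]

theorem nsq {ι : Type} [Fintype ι] (x : EuclideanSpace ℝ ι) : ‖x‖ ^ 2 = ∑ i, x i ^ 2 := by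
  simp [EuclideanSpace.norm_sq_eq]

theorem le_of {E : Type} [NormedAddCommGroup E] [InnerProductSpace ℝ E] {x : E} {c : ℝ}
    (hc : 0 ≤ c) (h : ⟪x, x⟫ ≤ c * ‖x‖) : ‖x‖ ≤ c := by
  rw [real_inner_self_eq_norm_sq] at h
  by_contra k
  nlinarith [not_le.1 k]

theorem n_out (y : X n) (v : X d) : ‖out y v‖ = ‖y‖ * ‖v‖ := by
  rw [← sq_eq_sq₀ (norm_nonneg _) (by positivity), mul_pow, nsq, nsq, nsq, Fintype.sum_prod_type,
    Finset.sum_mul_sum]
  simp only [out_apply, mul_pow]

theorem n_tens (G : Gr d n) (v : X d) : ‖tens G v‖ = ‖G‖ * ‖v‖ := by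
  rw [← sq_eq_sq₀ (norm_nonneg _) (by positivity), mul_pow, nsq, nsq, nsq, Finset.sum_mul_sum]
  simp only [Fintype.sum_prod_type, tens_apply, mul_pow]

theorem i_out (G : Gr d n) (y : X n) (v : X d) : ⟪G, out y v⟫ = ⟪act G v, y⟫ := by
  simp only [inn, Fintype.sum_prod_type, out_apply, act_apply, Finset.sum_mul]
  exact Finset.sum_congr rfl fun _ _ => Finset.sum_congr rfl fun _ _ => by ring

theorem i_tens (M : He d n) (G : Gr d n) (v : X d) : ⟪tens G v, M⟫ = ⟪G, ap M v⟫ := by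
  simp only [inn, Fintype.sum_prod_type, tens_apply, ap_apply, Finset.mul_sum]
  exact Finset.sum_congr rfl fun _ _ => Finset.sum_congr rfl fun _ _ =>
    Finset.sum_congr rfl fun _ _ => by ring

theorem n_act (G : Gr d n) (v : X d) : ‖act G v‖ ≤ ‖G‖ * ‖v‖ := by
  refine le_of (by positivity) ?_
  rw [← i_out]
  refine (real_inner_le_norm _ _).trans_eq ?_
  rw [n_out]; ring

theorem n_ap (H : He d n) (x : X d) : ‖ap H x‖ ≤ ‖H‖ * ‖x‖ := by
  refine le_of (by positivity) ?_
  rw [← i_tens]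
  refine (real_inner_le_norm _ _).trans_eq ?_
  rw [n_tens]; ring

theorem n_qf (H : He d n) (x : X d) : ‖qf H x‖ ≤ ‖H‖ * ‖x‖ ^ 2 := by
  refine (n_act _ _).trans ?_
  rw [sq, ← mul_assoc]
  exact mul_le_mul_of_nonneg_right (n_ap H x) (norm_nonneg _)

theorem dsq (d : ℕ) {a b : ℝ} (hb : 0 ≤ b) (h : a ^ 2 ≤ d * b ^ 2) : a ≤ d * b := by
  refine abs_le_of_sq_le_sq' (h.trans ?_) (by positivity) |>.2
  rw [mul_pow]
  have : (d : ℝ) ≤ d ^ 2 := by exact_mod_cast Nat.le_self_pow two_ne_zero d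
  exact mul_le_mul_of_nonneg_right this (sq_nonneg b)

theorem n_jm (L : X d →L[ℝ] X n) : ‖jm L‖ ≤ d * ‖L‖ := by
  refine dsq d (norm_nonneg _) ?_
  rw [nsq, Fintype.sum_prod_type_right]
  simp only [jm_apply, ← nsq]
  refine (Finset.sum_le_card_nsmul _ _ (‖L‖ ^ 2) fun i _ => ?_).trans_eq (by simp)
  refine pow_le_pow_left₀ (norm_nonneg _) ((L.le_opNorm _).trans_eq ?_) 2
  simp

theorem i_idt (H : He d n) (y : X n) : ⟪H, idt y⟫ = ⟪trc H, y⟫ := by
  simp [inn, Fintype.sum_prod_type, idt_apply, trc_apply, Finset.sum_mul]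

theorem trc_idt (y : X n) : trc (idt y : He d n) = (d : ℝ) • y := by
  ext a
  simp [trc_apply, idt_apply]

theorem n_idt (y : X n) : ‖(idt y : He d n)‖ ^ 2 = d * ‖y‖ ^ 2 := by
  rw [← real_inner_self_eq_norm_sq, i_idt, trc_idt, real_inner_smul_left,
    real_inner_self_eq_norm_sq]

theorem n_trc (H : He d n) : ‖trc H‖ ≤ d * ‖H‖ := by
  refine le_of (by positivity) ?_
  rw [← i_idt]
  refine (real_inner_le_norm _ _).trans ?_
  have := mul_le_mul_of_nonneg_left (dsq d (norm_nonneg _) (n_idt (d := d) (trc H)).le)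
    (norm_nonneg H)
  linarith

theorem inv_sq (d : ℕ) : ((d : ℝ)⁻¹) ^ 2 * d = (d : ℝ)⁻¹ := by
  rcases eq_or_ne (d : ℝ) 0 with h | h
  · simp [h]
  · field_simp

theorem n_part (H : He d n) :
    ‖(d : ℝ)⁻¹ • (idt (trc H) : He d n)‖ ^ 2 = (d : ℝ)⁻¹ * ‖trc H‖ ^ 2 := by
  rw [norm_smul, mul_pow, n_idt, Real.norm_eq_abs, sq_abs, ← mul_assoc, inv_sq]

theorem n_tl (H : He d n) : ‖tl H‖ ≤ ‖H‖ := by
  refine (abs_le_of_sq_le_sq' ?_ (norm_nonneg _)).2
  rw [tl_apply, norm_sub_sq_real, n_part, real_inner_smul_right, i_idt,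
    real_inner_self_eq_norm_sq]
  have : 0 ≤ (d : ℝ)⁻¹ * ‖trc H‖ ^ 2 := by positivity
  linarith

theorem n_sub_tl (H : He d n) : ‖H - tl H‖ ≤ ‖trc H‖ := by
  refine (abs_le_of_sq_le_sq' ?_ (norm_nonneg _)).2
  rw [tl_apply, sub_sub_cancel, n_part]
  exact mul_le_of_le_one_left (sq_nonneg _) (Nat.cast_inv_le_one d)

theorem i_sv (H : He d n) (x v : X d) : ⟪sv H x, v⟫ = ⟪ap H x, ap H v⟫ := by
  rw [inn, inn]
  simp only [sv, ap_apply H v, Finset.sum_mul, Finset.mul_sum]
  rw [Finset.sum_comm]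
  exact Finset.sum_congr rfl fun _ _ => Finset.sum_congr rfl fun _ _ => by ring

theorem n_sv (H : He d n) (x : X d) : ‖sv H x‖ ≤ ‖H‖ * ‖ap H x‖ := by
  refine le_of (by positivity) ?_
  rw [i_sv]
  refine (real_inner_le_norm _ _).trans ?_
  have := mul_le_mul_of_nonneg_left (n_ap H (sv H x)) (norm_nonneg (ap H x))
  linarith

theorem n_cH (H : He d n) (x : X d) : ‖cH H x‖ ≤ ‖H‖ := by
  rw [cH, norm_smul, norm_inv, norm_pow, norm_norm]
  refine inv_mul_le_of_le_mul₀ (sq_nonneg _) (norm_nonneg _) ((n_act _ _).trans ?_)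
  have := mul_le_mul_of_nonneg_left (n_sv H x) (norm_nonneg (ap H x))
  linarith

theorem i_tl (H M : He d n) (h : trc M = 0) : ⟪tl H, M⟫ = ⟪H, M⟫ := by
  rw [tl_apply, inner_sub_left, real_inner_smul_left, real_inner_comm M (idt _), i_idt, h]
  simp

theorem act_e (G : Gr d n) (i : Fin d) (a : Fin n) :
    act G (EuclideanSpace.single i 1) a = G (a, i) := by
  simp [act_apply]

theorem i_sum (G : Gr d n) (L : X d →L[ℝ] X n) :
    ⟪G, jm L⟫ = ∑ i, ⟪act G (EuclideanSpace.single i 1), L (EuclideanSpace.single i 1)⟫ := by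
  simp only [inn, Fintype.sum_prod_type_right, act_e, jm_apply]

theorem act_jm (L : X d →L[ℝ] X n) (v : X d) : act (jm L) v = L v := by
  ext a
  have e : v = ∑ i, v i • EuclideanSpace.single i (1 : ℝ) := by
    ext j
    simp [Pi.single_apply]
  conv_rhs => rw [e]
  simp [act_apply, jm_apply, mul_comm]

theorem jm_act (G : Gr d n) : jm (act G) = G := by
  ext k
  rw [jm_apply, act_e]

theorem act_out (y : X n) (v w : X d) : act (out y v) w = ⟪v, w⟫ • y := by
  ext a
  simp only [act_apply, out_apply, inn, PiLp.smul_apply, smul_eq_mul, Finset.sum_mul]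
  exact Finset.sum_congr rfl fun _ _ => by ring

theorem act_sy (H : He d n) (h : Sy H) (x y : X d) : act (ap H x) y = act (ap H y) x := by
  ext a
  simp only [act_apply, ap_apply, Finset.sum_mul]
  rw [Finset.sum_comm]
  exact Finset.sum_congr rfl fun i _ => Finset.sum_congr rfl fun j _ => by rw [h a j i]; ring

theorem tl_st0 (H : He d n) (hd : 1 ≤ d) (h : Sy H) : St0 (tl H) := by
  have h0 : (d : ℝ) ≠ 0 := Nat.cast_ne_zero.2 (by omega)
  refine ⟨fun a i j => ?_, ?_⟩
  · simp only [tl_apply, PiLp.sub_apply, PiLp.smul_apply, idt_apply, h a i j, eq_comm (a := i)]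
  · rw [tl_apply, map_sub, map_smul, trc_idt, smul_smul, inv_mul_cancel₀ h0, one_smul, sub_self]

theorem n_sq (H : He d n) : ‖H‖ ^ 2 = ∑ i, sd H i := by
  simp only [nsq, Fintype.sum_prod_type, sd]
  rw [Finset.sum_comm]

theorem c_qf (H : He d n) : ContDiff ℝ ∞ (qf H) :=
  (act.contDiff.comp (ap H).contDiff).clm_apply contDiff_id

theorem m_cH (H : He d n) : Measurable (cH H) := by
  have h1 : Continuous (sv H) :=
    (PiLp.continuous_toLp 2 _).comp (continuous_pi fun j => by fun_prop)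
  have h2 : Continuous fun x => act (ap H x) (sv H x) :=
    (act.continuous.comp (ap H).continuous).clm_apply h1
  have h3 : Continuous fun x => ‖ap H x‖ ^ 2 := by fun_prop
  exact h3.measurable.inv.smul h2.measurable

theorem c_Dm (φ : X d → X n) (h : ContDiff ℝ 1 φ) : Continuous (Dm φ) :=
  jm.continuous.comp (h.continuous_fderiv one_ne_zero)

theorem f_qf (H : He d n) (x v : X d) :
    fderiv ℝ (qf H) x v = act (ap H x) v + act (ap H v) x := by
  have h := ((act.hasFDerivAt.comp x (ap H).hasFDerivAt).clm_apply (hasFDerivAt_id x)).fderiv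
  rw [show fderiv ℝ (qf H) x = _ from h]
  simp [add_comm]

theorem D_qf (H : He d n) (h : Sy H) (x : X d) : Dm (qf H) x = (2 : ℝ) • ap H x := by
  have e : fderiv ℝ (qf H) x = (2 : ℝ) • act (ap H x) := by
    ext1 v
    rw [f_qf, act_sy H h v x, smul_apply, two_smul]
  rw [Dm, e, map_smul, jm_act]

theorem n_Dq (H : He d n) (x : X d) : ‖Dm (qf H) x‖ ≤ d * (2 * ‖H‖ * ‖x‖) := by
  refine (n_jm _).trans (mul_le_mul_of_nonneg_left ?_ d.cast_nonneg)
  refine ContinuousLinearMap.opNorm_le_bound _ (by positivity) fun v => ?_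
  rw [f_qf]
  have h1 := (n_act _ v).trans (mul_le_mul_of_nonneg_right (n_ap H x) (norm_nonneg v))
  have h2 := (n_act _ x).trans (mul_le_mul_of_nonneg_right (n_ap H v) (norm_nonneg x))
  refine (norm_add_le _ _).trans ?_
  linarith

theorem D_smul (f : X d → ℝ) (φ : X d → X n) (x : X d) (hf : DifferentiableAt ℝ f x)
    (hφ : DifferentiableAt ℝ φ x) :
    Dm (fun y => f y • φ y) x = f x • Dm φ x + out (φ x) (gradient f x) := by
  rw [Dm, fderiv_fun_smul hf hφ, map_add, map_smul, Dm]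
  congr 1
  ext k
  have e : gradient f x k.2 = fderiv ℝ f x (EuclideanSpace.single k.2 1) := by
    rw [← InnerProductSpace.toDual_symm_apply, ← gradient, inn]
    simp
  simp [jm_apply, out_apply, e, mul_comm]

theorem D_sh (φ : X d → X n) (x₀ : X d) (t m : ℝ) (x : X d)
    (h : DifferentiableAt ℝ φ (x₀ + t • x)) :
    Dm (fun y => m • φ (x₀ + t • y)) x = (m * t) • Dm φ (x₀ + t • x) := by
  have h1 := ((h.hasFDerivAt.comp x (((hasFDerivAt_id x).const_smul t).const_add x₀)).const_smul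
    m).fderiv
  rw [Dm, Dm, show fderiv ℝ (fun y => m • φ (x₀ + t • y)) x = _ from h1, ← map_smul, mul_smul]
  congr 2
  ext1 v
  simp

theorem D_odd (φ : X d → X n) (h : Differentiable ℝ φ) (ho : ∀ x, φ (-x) = -φ x) (x : X d) :
    Dm φ (-x) = Dm φ x := by
  have h1 := D_sh φ 0 (-1) (-1) x (h _)
  simp only [zero_add, neg_smul, one_smul, ho, neg_neg, mul_neg, mul_one] at h1
  exact h1.symm

theorem ts_Dm (φ : X d → X n) (h : Ts φ) :
    ∃ r : ℝ, r < 1 ∧ ∀ x, r ≤ ‖x‖ → φ x = 0 ∧ Dm φ x = 0 := by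
  obtain ⟨-, r, h1, h2⟩ := h
  refine ⟨(r + 1) / 2, by linarith, fun x hx => ⟨h2 x (by linarith), ?_⟩⟩
  have e : φ =ᶠ[𝓝 x] fun _ => 0 :=
    (continuous_norm.continuousAt.eventually (lt_mem_nhds (by linarith : r < ‖x‖))).mono
      fun y hy => h2 y hy.le
  rw [Dm, e.fderiv_eq]
  simp

theorem ts_tq (f : ℝ → ℝ) (hf : Rad f) : ∃ C : ℝ, 0 ≤ C ∧ ∀ M : He d n,
    Ts (tq f M) ∧ ∀ x, ‖tq f M x‖ ≤ C * ‖M‖ ∧ ‖Dm (tq f M) x‖ ≤ C * ‖M‖ := by
  have hg : ContDiff ℝ 1 fun x : X d => f (‖x‖ ^ 2) :=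
    (hf.1.of_le (by exact_mod_cast le_top)).comp (contDiff_norm_sq ℝ)
  obtain ⟨a, ha⟩ := (isCompact_closedBall (0 : X d) 1).exists_bound_of_continuousOn
    hg.continuous.continuousOn
  obtain ⟨b, hb⟩ := (isCompact_closedBall (0 : X d) 1).exists_bound_of_continuousOn
    (hg.continuous_fderiv one_ne_zero).continuousOn
  have a0 : 0 ≤ a := (norm_nonneg _).trans (ha 0 (by simp))
  have b0 : 0 ≤ b := (norm_nonneg _).trans (hb 0 (by simp))
  refine ⟨a + 2 * d * a + b, by positivity, fun M => ?_⟩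
  have hq : ContDiff ℝ 1 (qf M) := (c_qf M).of_le (by exact_mod_cast le_top)
  have ht : Ts (tq f M) := ⟨hg.smul hq, 1 / 2, by norm_num, fun x hx => by
    rw [tq, hf.2.1 _ (by nlinarith), zero_smul]⟩
  refine ⟨ht, fun x => ?_⟩
  obtain ⟨r, hr, h0⟩ := ts_Dm _ ht
  rcases le_total 1 ‖x‖ with c | c
  · rw [(h0 x (by linarith)).1, (h0 x (by linarith)).2, norm_zero, norm_zero]
    exact ⟨by positivity, by positivity⟩
  have m0 := norm_nonneg M
  have k1 := ha x (mem_closedBall_zero_iff.2 c)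
  have k2 : ‖gradient (fun x : X d => f (‖x‖ ^ 2)) x‖ ≤ b := by
    rw [gradient, LinearIsometryEquiv.norm_map]
    exact hb x (mem_closedBall_zero_iff.2 c)
  have k3 : ‖qf M x‖ ≤ ‖M‖ :=
    (n_qf M x).trans (mul_le_of_le_one_right m0 (pow_le_one₀ (norm_nonneg _) c))
  have k4 : ‖Dm (qf M) x‖ ≤ d * (2 * ‖M‖) := (n_Dq M x).trans
    (mul_le_mul_of_nonneg_left (mul_le_of_le_one_right (by positivity) c) d.cast_nonneg)
  have p1 : 0 ≤ d * a * ‖M‖ := by positivity
  have p2 := mul_nonneg a0 m0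
  have p3 := mul_nonneg b0 m0
  constructor
  · rw [tq, norm_smul]
    have := mul_le_mul k1 k3 (norm_nonneg _) a0
    linarith
  · rw [show Dm (tq f M) x = _ from D_smul _ _ x (hg.differentiable one_ne_zero x)
      (hq.differentiable one_ne_zero x)]
    refine (norm_add_le _ _).trans ?_
    rw [norm_smul, n_out]
    have e1 := mul_le_mul k1 k4 (norm_nonneg _) a0
    have e2 := mul_le_mul k3 k2 (norm_nonneg _) m0
    linarith

end BasA

open BasA in
theorem bas : BasS := fun _ _ =>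
  { n_act := n_act
    n_ap := n_ap
    n_apL := fun H => ContinuousLinearMap.opNorm_le_bound _ (norm_nonneg _) (n_ap H)
    n_qf := n_qf
    n_out := n_out
    n_tens := n_tens
    n_jm := n_jm
    n_trc := n_trc
    n_tl := n_tl
    n_sub_tl := n_sub_tl
    n_sv := n_sv
    n_cH := n_cH
    i_out := i_out
    i_tens := i_tens
    i_sv := i_sv
    i_tl := i_tl
    i_sum := i_sum
    act_jm := act_jm
    jm_act := jm_act
    act_out := act_out
    act_sy := act_sy
    trc_tens := fun _ _ => rfl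
    tl_st0 := tl_st0
    tl_of := fun H h => by rw [tl_apply, h, map_zero, smul_zero, sub_zero]
    sy_add := fun H M s t h k a i j => by
      simp only [PiLp.add_apply, PiLp.smul_apply, h a i j, k a i j]
    n_sq := n_sq
    c_qf := c_qf
    m_cH := m_cH
    c_Dm := c_Dm
    D_qf := D_qf
    D_act := fun b x => by rw [Dm, show (fun y => act b y) = act b from rfl,
      ContinuousLinearMap.fderiv, jm_act]
    D_add := fun φ ψ x h k => by rw [Dm, fderiv_fun_add h k, map_add, Dm, Dm]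
    D_smul := D_smul
    D_sh := D_sh
    D_odd := D_odd
    ts_Dm := ts_Dm
    ts_tq := ts_tq }

end Pool.Agent.MP_815c6c_an.N

end
end MrgPart0

-- ======== part 1: formerly Pool.Agent.MP_815c6c_an.N.Exc
section MrgPart1

/-! The excess: integrability, Jensen, scaling. -/

set_option autoImplicit false

noncomputable section

namespace Pool.Agent.MP_815c6c_an.N

open Set Metric MeasureTheory Filter Topology
open scoped ContDiff RealInnerProductSpace ENNReal

namespace ExcA

variable {d n : ℕ} {E : Type} [NormedAddCommGroup E] {ε : ℝ}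

instance fm : IsFiniteMeasure (volume.restrict (ball (0 : X d) 1)) :=
  isFiniteMeasure_restrict.2 measure_ball_lt_top.ne

/-- the volume of the unit ball -/
def V (d : ℕ) : ℝ := volume.real (ball (0 : X d) 1)

theorem V_pos : 0 < V d :=
  ENNReal.toReal_pos (measure_ball_pos _ _ one_pos).ne' measure_ball_lt_top.ne

theorem i_c (c : ℝ) : ∫ _ in ball (0 : X d) 1, c = V d * c := by
  rw [setIntegral_const, smul_eq_mul, V]

theorem mono {f g : X d → ℝ} (h0 : ∀ x, 0 ≤ f x) (hg : IntegrableOn g (ball 0 1))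
    (h : ∀ x ∈ ball (0 : X d) 1, f x ≤ g x) : ∫ x in ball 0 1, f x ≤ ∫ x in ball 0 1, g x :=
  integral_mono_of_nonneg (Eventually.of_forall h0) hg
    ((ae_restrict_mem measurableSet_ball).mono h)

theorem sqle {a b : ℝ} (hb : 0 ≤ b) (h : a ^ 2 ≤ b ^ 2) : a ≤ b := (abs_le_of_sq_le_sq' h hb).2

theorem ps0 (ε : ℝ) {t : ℝ} (h : 0 ≤ t) : 0 ≤ Ps ε t :=
  add_nonneg (sq_nonneg _) (Real.rpow_nonneg h _)

theorem ps_cv (hε : 0 ≤ ε) : ConvexOn ℝ (Ici 0) (Ps ε) :=
  (convexOn_pow 2).add (convexOn_rpow (p := 2 + ε) (by linarith))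

theorem ps_cont (hε : 0 ≤ ε) : Continuous (Ps ε) :=
  (continuous_pow 2).add (Real.continuous_rpow_const (by linarith))

theorem ps_mono (hε : 0 ≤ ε) {s t : ℝ} (h0 : 0 ≤ s) (h : s ≤ t) : Ps ε s ≤ Ps ε t :=
  add_le_add (pow_le_pow_left₀ h0 h 2) (Real.rpow_le_rpow h0 h (by linarith))

theorem rp2 (hε : 0 ≤ ε) {t : ℝ} (h : 0 ≤ t) : t ^ (2 + ε) = t ^ 2 * t ^ ε := by
  rw [Real.rpow_add_of_nonneg h two_pos.le hε, Real.rpow_two]

theorem ps_mul (hε : 0 ≤ ε) {t s k : ℝ} (ht : 0 ≤ t) (hs : 0 ≤ s) (h1 : 1 ≤ k) (h : t ^ ε ≤ k) :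
    Ps ε (t * s) ≤ k * t ^ 2 * Ps ε s := by
  have a := Real.rpow_nonneg hs (2 + ε)
  have b := mul_le_mul_of_nonneg_right h (mul_nonneg (sq_nonneg t) a)
  have c := mul_le_mul_of_nonneg_right h1 (mul_nonneg (sq_nonneg t) (sq_nonneg s))
  rw [Ps, Ps, Real.mul_rpow ht hs, rp2 hε ht]
  nlinarith

theorem ps_k (hε : 0 ≤ ε) (h1 : ε ≤ 1) {k s : ℝ} (hk : 1 ≤ k) (hs : 0 ≤ s) :
    Ps ε (k * s) ≤ k ^ 3 * Ps ε s := by
  have := ps_mul hε (one_pos.le.trans hk) hs hk
    ((Real.rpow_le_rpow_of_exponent_le hk h1).trans_eq (Real.rpow_one k))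
  rwa [← pow_succ'] at this

theorem ps_add (hε : 0 ≤ ε) (h1 : ε ≤ 1) {a b : ℝ} (ha : 0 ≤ a) (hb : 0 ≤ b) :
    Ps ε (a + b) ≤ 4 * Ps ε a + 4 * Ps ε b := by
  have c := (ps_cv hε).2 ha hb one_half_pos.le one_half_pos.le (add_halves 1)
  have e := ps_k hε h1 one_le_two (s := 1 / 2 * a + 1 / 2 * b) (by positivity)
  rw [show 2 * (1 / 2 * a + 1 / 2 * b) = a + b by ring] at e
  simp only [smul_eq_mul] at c
  linarith

theorem ps_small (hε : 0 ≤ ε) {t : ℝ} (h0 : 0 ≤ t) (h : t ≤ 1) : Ps ε t ≤ 2 * t ^ 2 := by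
  have := mul_le_mul_of_nonneg_left (Real.rpow_le_one h0 h hε) (sq_nonneg t)
  rw [Ps, rp2 hε h0]
  linarith

theorem ib (hε : 0 ≤ ε) {z : X d → E} (h : Mp ε z) :
    Ib z ∧ IntegrableOn (fun x => ‖z x‖ ^ 2) (ball 0 1) ∧
      IntegrableOn (fun x => Ps ε ‖z x‖) (ball 0 1) := by
  have a : (2 : ℝ≥0∞) ≤ ENNReal.ofReal (2 + ε) := by
    rw [← ENNReal.ofReal_ofNat]
    exact ENNReal.ofReal_le_ofReal (by linarith)
  have b := (memLp_two_iff_integrable_sq_norm h.1).1 (h.mono_exponent a)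
  have c := MemLp.integrable_norm_rpow' h
  rw [ENNReal.toReal_ofReal (by linarith)] at c
  exact ⟨MemLp.integrable (one_le_two.trans a) h, b, b.add c⟩

theorem mp_c (ε : ℝ) {z : X d → E} (h : Continuous z) : Mp ε z := by
  obtain ⟨C, hC⟩ := (isCompact_closedBall (0 : X d) 1).exists_bound_of_continuousOn h.continuousOn
  exact MemLp.of_bound h.aestronglyMeasurable C
    ((ae_restrict_mem measurableSet_ball).mono fun x hx => hC x (ball_subset_closedBall hx))

theorem mp_pr (ε : ℝ) {z : X d → Gr d n} (h : Mp ε z) : Mp ε (pr z) :=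
  MemLp.sub (MemLp.sub h (mp_c ε continuous_const)) (mp_c ε (ap (HH z)).continuous)

theorem map_le {x₀ : X d} {t : ℝ} (ht : 0 < t) (h : ‖x₀‖ + t ≤ 1) :
    Measure.map (fun x => x₀ + t • x) (volume.restrict (ball (0 : X d) 1)) ≤
      ENNReal.ofReal (t ^ d)⁻¹ • volume.restrict (ball 0 1) := by
  have m : Measurable fun x : X d => x₀ + t • x := by fun_prop
  have e : Measure.map (fun x : X d => x₀ + t • x) volume = ENNReal.ofReal (t ^ d)⁻¹ • volume := by
    have := Measure.map_map (μ := (volume : Measure (X d))) (measurable_const_add x₀)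
      (measurable_const_smul t)
    rw [Measure.map_addHaar_smul _ ht.ne', Measure.map_smul, map_add_left_eq_self,
      finrank_euclideanSpace_fin, abs_of_pos (by positivity)] at this
    exact this.symm
  rw [← Measure.restrict_smul, ← e, Measure.restrict_map m measurableSet_ball]
  refine Measure.map_mono (Measure.restrict_mono (fun x hx => ?_) le_rfl) m
  rw [mem_preimage, mem_ball_zero_iff] at *
  refine (norm_add_le _ _).trans_lt ?_
  rw [norm_smul, Real.norm_of_nonneg ht.le]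
  nlinarith

theorem mp_sh (ε : ℝ) {z : X d → E} {x₀ : X d} {t : ℝ} (ht : 0 < t) (h : ‖x₀‖ + t ≤ 1)
    (hz : Mp ε z) : Mp ε (sh x₀ t z) :=
  (MemLp.of_measure_le_smul ENNReal.ofReal_ne_top (map_le ht h) hz).comp_of_map (by fun_prop)

theorem exc_sq (ε : ℝ) (z : X d → E) : exc ε z ^ 2 = ∫ x in ball 0 1, Ps ε ‖z x‖ :=
  Real.sq_sqrt (integral_nonneg fun _ => ps0 ε (norm_nonneg _))

theorem L2_sq (z : X d → E) : L2 z ^ 2 = ∫ x in ball 0 1, ‖z x‖ ^ 2 :=
  Real.sq_sqrt (integral_nonneg fun _ => sq_nonneg _)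

theorem exc0 (ε : ℝ) (z : X d → E) : 0 ≤ exc ε z := Real.sqrt_nonneg _

theorem L20 (z : X d → E) : 0 ≤ L2 z := Real.sqrt_nonneg _

theorem L10 (z : X d → E) : 0 ≤ L1 z := integral_nonneg fun _ => norm_nonneg _

theorem sh_le (hε : 0 ≤ ε) {z : X d → E} {x₀ : X d} {t : ℝ} (ht : 0 < t) (h : ‖x₀‖ + t ≤ 1)
    (hz : Mp ε z) : exc ε (sh x₀ t z) ≤ (t ^ d)⁻¹ * exc ε z := by
  have i : Integrable (fun x => Ps ε ‖z x‖) (ENNReal.ofReal (t ^ d)⁻¹ •
      volume.restrict (ball (0 : X d) 1)) :=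
    Integrable.smul_measure (ib hε hz).2.2 ENNReal.ofReal_ne_top
  have a := integral_mono_measure (map_le ht h)
    (Eventually.of_forall fun x => ps0 ε (norm_nonneg (z x))) i
  rw [integral_map (by fun_prop) (i.mono_measure (map_le ht h)).1, integral_smul_measure,
    ENNReal.toReal_ofReal (by positivity), smul_eq_mul, ← exc_sq ε z] at a
  have b : 1 ≤ (t ^ d)⁻¹ :=
    (one_le_inv₀ (by positivity)).2 (pow_le_one₀ ht.le (by linarith [norm_nonneg x₀]))
  refine Real.sqrt_le_iff.2 ⟨mul_nonneg (one_pos.le.trans b) (exc0 _ _), a.trans ?_⟩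
  rw [mul_pow]
  exact mul_le_mul_of_nonneg_right (by nlinarith) (sq_nonneg _)

theorem jen {g : ℝ → ℝ} (hg : ConvexOn ℝ (Ici 0) g) (hc : Continuous g) {z : X d → E} (h : Ib z)
    (k : IntegrableOn (fun x => g ‖z x‖) (ball 0 1)) :
    V d * g ((V d)⁻¹ * L1 z) ≤ ∫ x in ball 0 1, g ‖z x‖ := by
  have a := hg.map_set_average_le (μ := volume) (t := ball (0 : X d) 1) (f := fun x => ‖z x‖)
    hc.continuousOn isClosed_Ici (measure_ball_pos _ _ one_pos).ne' measure_ball_lt_top.ne
    (Eventually.of_forall fun x => norm_nonneg (z x)) h.norm k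
  rw [setAverage_eq, setAverage_eq, smul_eq_mul, smul_eq_mul] at a
  exact (le_inv_mul_iff₀ V_pos).1 a

theorem l1 (hε : 0 ≤ ε) {z : X d → E} (h : Mp ε z) {C : ℝ} (h0 : 0 ≤ C) (hC : V d ≤ C ^ 2) :
    L1 z ≤ C * L2 z := by
  have a := jen (convexOn_pow 2) (continuous_pow 2) (ib hε h).1 (ib hε h).2.1
  have v := V_pos (d := d)
  rw [← L2_sq, show V d * ((V d)⁻¹ * L1 z) ^ 2 = (V d)⁻¹ * L1 z ^ 2 by field_simp,
    inv_mul_le_iff₀ v] at a
  refine sqle (mul_nonneg h0 (L20 z)) (a.trans ?_)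
  rw [mul_pow]
  exact mul_le_mul_of_nonneg_right hC (sq_nonneg _)

theorem l2 (hε : 0 ≤ ε) {z : X d → E} (h : Mp ε z) : L2 z ≤ exc ε z :=
  Real.sqrt_le_sqrt (mono (fun _ => sq_nonneg _) (ib hε h).2.2 fun _ _ =>
    le_add_of_nonneg_right (Real.rpow_nonneg (norm_nonneg _) _))

theorem add_sq (hε : 0 ≤ ε) (h1 : ε ≤ 1) {z y : X d → E} (h : Mp ε z) {t : ℝ} (ht : 0 ≤ t)
    (hy : ∀ x ∈ ball (0 : X d) 1, ‖y x‖ ≤ ‖z x‖ + t) :
    exc ε y ^ 2 ≤ 4 * exc ε z ^ 2 + V d * (4 * Ps ε t) := by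
  have i := (ib hε h).2.2
  rw [exc_sq, exc_sq, ← integral_const_mul, ← i_c,
    ← integral_add (i.const_mul 4) (integrable_const _)]
  exact mono (fun _ => ps0 ε (norm_nonneg _)) ((i.const_mul 4).add (integrable_const _))
    fun x hx => (ps_mono hε (norm_nonneg _) (hy x hx)).trans (ps_add hε h1 (norm_nonneg _) ht)

theorem pr_pt (hB : Bas d n) {k : ℝ} {z : X d → Gr d n} (h1 : ‖bb z‖ ≤ k) (h2 : ‖HH z‖ ≤ k) :
    ∀ x ∈ ball (0 : X d) 1, ‖pr z x‖ ≤ ‖z x‖ + 2 * k := fun x hx => by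
  have a := norm_sub_le (z x - bb z) (ap (HH z) x)
  have b := norm_sub_le (z x) (bb z)
  have c := (hB.n_ap (HH z) x).trans
    (mul_le_of_le_one_right (norm_nonneg _) (mem_ball_zero_iff.1 hx).le)
  rw [pr]
  linarith

theorem sup0 {w : X d → E} {t : ℝ} (h : ∀ x ∈ ball (0 : X d) 1, ‖w x‖ ≤ t) : 0 ≤ t :=
  (norm_nonneg _).trans (h 0 (mem_ball_self one_pos))

theorem ib_A (hA : Al1 (Gr d n)) (hε : 0 ≤ ε) {z : X d → Gr d n} (h : Mp ε z) :
    Ib fun x => A ε (z x) := by
  refine Integrable.mono' ((integrable_const 1).add (ib hε h).2.2)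
    ((hA.cont ε hε).comp_aestronglyMeasurable h.1) (Eventually.of_forall fun x => ?_)
  have a := sq_nonneg ‖z x‖
  have b := Real.rpow_nonneg (norm_nonneg (z x)) (2 + ε)
  rw [hA.norm ε _ hε, Pi.add_apply, Ps]
  rcases le_total ‖z x‖ 1 with c | c
  · linarith [Real.rpow_le_one (norm_nonneg _) c (by linarith : 0 ≤ 1 + ε)]
  · linarith [Real.rpow_le_rpow_of_exponent_le c (by linarith : 1 + ε ≤ 2 + ε)]

theorem sq_pt {κ s : ℝ} (hκ : 0 < κ) (hs : 0 ≤ s) : √s ≤ κ + κ⁻¹ * s := by
  have a := Real.sq_sqrt hs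
  have b := Real.sqrt_nonneg s
  rw [← sub_le_iff_le_add', le_inv_mul_iff₀ hκ]
  nlinarith [sq_nonneg (√s - κ)]

end ExcA

open ExcA in
theorem excS : BasS → KerS → Al1S → ExcS := by
  intro hB hK hA d n
  obtain ⟨k, k0, hk⟩ := (hK d n).bd
  have v := V_pos (d := d)
  obtain ⟨K, hK⟩ : ∃ K, K = 1 + 2 * (k * V d) := ⟨_, rfl⟩
  have K1 : 1 ≤ K := by rw [hK]; nlinarith [mul_nonneg k0 v.le]
  have K3 : K ≤ K ^ 3 := le_self_pow₀ K1 three_ne_zero
  obtain ⟨C, hC⟩ : ∃ C, C = 8 + V d + K ^ 3 := ⟨_, rfl⟩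
  have C8 : 8 ≤ C := by linarith
  have CV : V d ≤ C := by linarith
  have C0 : 0 ≤ C := by linarith
  have CV2 : 8 * V d ≤ C ^ 2 := by nlinarith
  have CK : 4 + 4 * K ^ 3 ≤ C ^ 2 := by nlinarith
  refine ⟨C, by linarith, fun ε z h => ib h, fun ε z => mp_c ε, fun ε z x₀ t => mp_sh ε,
    fun ε z => mp_pr ε, fun ε z hε h => ⟨ib_A (hA _) hε h, (ib hε h).1.sub (ib_A (hA _) hε h)⟩,
    fun ε z hε h => ⟨l1 hε h C0 (by linarith), l2 hε h⟩, fun ε z hε h1 h => ?_,
    fun ε t z w hε h1 h _ ht hw => ?_, fun t w h hw x hx => ?_, fun ε t z w hε h _ hw => ?_,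
    fun ε t c z hε ht hc htc h => ?_, fun ε z x₀ t hε => sh_le hε, fun ε κ z hε hκ h => ?_⟩
  · have i := ib hε h
    have m : 0 ≤ (V d)⁻¹ * L1 z := mul_nonneg (inv_nonneg.2 v.le) (L10 z)
    have e : 2 * (k * L1 z) ≤ K * ((V d)⁻¹ * L1 z) := by
      rw [hK, add_mul, show 2 * (k * V d) * ((V d)⁻¹ * L1 z) = 2 * (k * L1 z) by field_simp]
      linarith
    have a := add_sq hε h1 h (mul_nonneg (one_pos.le.trans K1) m) fun x hx =>
      (pr_pt (hB d n) (hk z i.1).1 (hk z i.1).2 x hx).trans (add_le_add le_rfl e)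
    have b := mul_le_mul_of_nonneg_left (ps_k hε h1 K1 m) v.le
    have c := mul_le_mul_of_nonneg_left (jen (ps_cv hε) (ps_cont hε) i.1 i.2.2)
      (pow_nonneg (one_pos.le.trans K1) 3)
    rw [← exc_sq] at c
    refine sqle (mul_nonneg C0 (exc0 _ _)) ?_
    have := mul_le_mul_of_nonneg_right CK (sq_nonneg (exc ε z))
    rw [mul_pow]
    linarith
  · have t0 := sup0 hw
    have a := add_sq (y := fun x => z x + w x) hε h1 h t0 fun x hx =>
      (norm_add_le _ _).trans (add_le_add le_rfl (hw x hx))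
    have b := mul_le_mul_of_nonneg_left (ps_small hε t0 ht) v.le
    have c := mul_le_mul_of_nonneg_right CV2 (sq_nonneg t)
    have e := exc0 ε z
    refine sqle (by positivity) ?_
    nlinarith [mul_nonneg e (mul_nonneg C0 t0)]
  · have t0 := sup0 hw
    have a : L1 w ≤ V d * t := by
      rw [← i_c]
      exact mono (fun _ => norm_nonneg _) (integrable_const _) hw
    have b := pr_pt (hB d n) (hk w h).1 (hk w h).2 x hx
    have c := mul_le_mul_of_nonneg_left a k0
    have e := mul_le_mul_of_nonneg_right (show K ≤ C by linarith) t0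
    have := hw x hx
    rw [hK] at e
    linarith
  · have t0 := sup0 hw
    have i := ib hε h
    have j : IntegrableOn (fun x => ‖z x‖ ^ 2 + 2 * t * ‖z x‖) (ball 0 1) :=
      i.2.1.add (i.1.norm.const_mul (2 * t))
    have a : L2 (fun x => z x + w x) ^ 2 ≤ L2 z ^ 2 + 2 * t * L1 z + V d * t ^ 2 := by
      rw [L2_sq, L2_sq, L1, ← integral_const_mul, ← i_c,
        ← integral_add i.2.1 (i.1.norm.const_mul _), ← integral_add j (integrable_const _)]
      refine mono (fun _ => sq_nonneg _) (j.add (integrable_const _)) fun x hx => ?_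
      have := pow_le_pow_left₀ (norm_nonneg _)
        ((norm_add_le (z x) (w x)).trans (add_le_add le_rfl (hw x hx))) 2
      linarith
    have b := mul_le_mul_of_nonneg_left (l1 hε h C0 (by linarith)) t0
    have c := mul_le_mul_of_nonneg_right (show V d ≤ C ^ 2 by linarith) (sq_nonneg t)
    have e := L20 z
    refine sqle (by positivity) ?_
    nlinarith
  · have e := exc0 ε z
    have c0 := one_pos.le.trans hc
    refine sqle (by positivity) ?_
    rw [mul_pow, mul_pow, exc_sq, exc_sq, ← integral_const_mul]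
    refine mono (fun _ => ps0 ε (norm_nonneg _)) ((ib hε h).2.2.const_mul _) fun x _ => ?_
    rw [norm_smul, Real.norm_of_nonneg ht]
    exact ps_mul hε ht (norm_nonneg _) (one_le_pow₀ hc) htc
  · have i := (ib hε h).1.norm.const_mul κ⁻¹
    have j := (integrable_const κ).add i
    refine ⟨j.mono' (Real.continuous_sqrt.comp_aestronglyMeasurable h.1.norm)
      (Eventually.of_forall fun x => ?_), ?_⟩
    · rw [Real.norm_of_nonneg (Real.sqrt_nonneg _)]
      exact sq_pt hκ (norm_nonneg _)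
    · refine (mono (fun _ => Real.sqrt_nonneg _) j fun x _ => sq_pt hκ (norm_nonneg _)).trans ?_
      simp only [Pi.add_apply]
      rw [integral_add (integrable_const _) i, i_c, integral_const_mul, L1]
      exact add_le_add (mul_le_mul_of_nonneg_right CV hκ.le) le_rfl

end Pool.Agent.MP_815c6c_an.N

end
end MrgPart1

-- ======== part 2: formerly Pool.Agent.MP_815c6c_an.N.Shl
section MrgPart2

/-! The potential of the difference of two kernels. -/

set_option autoImplicit false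

noncomputable section

namespace Pool.Agent.MP_815c6c_an.N

open Set Metric MeasureTheory Filter Topology Real
open scoped ContDiff RealInnerProductSpace

namespace ShlA

/-- superposition of dilations -/
def J (a c : ℝ) (F : ℝ → ℝ) (t : ℝ) : ℝ := ∫ s in a..0, exp (c * s) * F (t * exp (-2 * s))

variable {a c : ℝ} {F : ℝ → ℝ}

theorem der (hF : ContDiff ℝ ∞ F) (t : ℝ) :
    HasDerivAt (J a c F) (J a (c - 2) (deriv F) t) t := by
  have c0 := hF.continuous
  have c1 := hF.continuous_deriv (by simp)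
  have c2 : Continuous fun z : ℝ × ℝ => exp ((c - 2) * z.2) * deriv F (z.1 * exp (-2 * z.2)) := by
    fun_prop
  obtain ⟨C, hC⟩ := ((isCompact_closedBall t 1).prod
    (isCompact_uIcc (a := a) (b := 0))).exists_bound_of_continuousOn c2.continuousOn
  refine (intervalIntegral.hasDerivAt_integral_of_dominated_loc_of_deriv_le
    (F := fun x s => exp (c * s) * F (x * exp (-2 * s)))
    (F' := fun x s => exp ((c - 2) * s) * deriv F (x * exp (-2 * s))) (bound := fun _ => C)
    (closedBall_mem_nhds t one_pos) (.of_forall fun x => Continuous.aestronglyMeasurable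
      (by fun_prop)) (Continuous.intervalIntegrable (by fun_prop) _ _)
    (Continuous.aestronglyMeasurable (by fun_prop))
    (.of_forall fun s hs x hx => hC (x, s) ⟨hx, uIoc_subset_uIcc hs⟩) intervalIntegrable_const
    (.of_forall fun s _ x _ => ?_)).2
  refine (((hF.differentiable (by simp) _).hasDerivAt.comp x
    (hasDerivAt_mul_const (exp (-2 * s)))).const_mul (exp (c * s))).congr_deriv ?_
  rw [show (c - 2) * s = c * s + -2 * s by ring, exp_add]
  ring

theorem der' (hF : ContDiff ℝ ∞ F) : deriv (J a c F) = J a (c - 2) (deriv F) :=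
  funext fun t => (der hF t).deriv

theorem smooth (hF : ContDiff ℝ ∞ F) : ContDiff ℝ ∞ (J a c F) := by
  refine contDiff_infty.2 fun k => ?_
  induction k generalizing c F with
  | zero => exact contDiff_zero.2 (continuous_iff_continuousAt.2 fun t => (der hF t).continuousAt)
  | succ k ih =>
    rw [Nat.cast_succ, contDiff_succ_iff_deriv, der' hF]
    exact ⟨fun t => (der hF t).differentiableAt, by simp, ih (contDiff_infty_iff_deriv.1 hF).2⟩

theorem big {s t : ℝ} (hs : s ≤ 0) (ht : 1 / 4 ≤ t) : 1 / 4 ≤ t * exp (-2 * s) :=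
  ht.trans (le_mul_of_one_le_right (by linarith) (one_le_exp (by linarith)))

theorem swap (d m : ℕ) (ha : a ≤ 0) (hF : Continuous F) (h0 : ∀ t, 1 / 4 ≤ t → F t = 0) :
    ∫ x : X d, J a c F (‖x‖ ^ 2) * ‖x‖ ^ m =
      (∫ s in a..0, exp ((c + d + m) * s)) * ∫ y : X d, F (‖y‖ ^ 2) * ‖y‖ ^ m := by
  simp only [J, ← intervalIntegral.integral_mul_const]
  rw [← intervalIntegral_integral_swap]
  · refine intervalIntegral.integral_congr fun s _ => ?_
    have e := Measure.integral_comp_smul volume (fun y : X d => F (‖y‖ ^ 2) * ‖y‖ ^ m) (exp (-s))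
    have e1 : ∀ k : ℕ, exp (-s) ^ k = (exp (k * s))⁻¹ := fun k => by
      rw [← exp_nat_mul, ← exp_neg, mul_neg]
    have e2 : exp (-s) ^ 2 = exp (-2 * s) := by rw [← exp_nat_mul]; congr 1; push_cast; ring
    simp only [norm_smul, norm_of_nonneg (exp_pos _).le, mul_pow, e2, finrank_euclideanSpace,
      Fintype.card_fin, e1 d, e1 m, inv_inv, abs_of_pos (exp_pos _), smul_eq_mul] at e
    simp only [add_mul, exp_add]
    rw [mul_assoc, mul_assoc, mul_left_comm (exp (d * s)), ← e, ← integral_const_mul,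
      ← integral_const_mul]
    refine integral_congr_ae (.of_forall fun x => ?_)
    have := exp_ne_zero (m * s)
    simp only [mul_comm (‖x‖ ^ 2)]
    field_simp
  · rw [Measure.restrict_prod_eq_prod_univ]
    refine IntegrableOn.of_forall_sdiff_eq_zero (s := uIcc a 0 ×ˢ closedBall 0 1)
      (ContinuousOn.integrableOn_compact (isCompact_uIcc.prod (isCompact_closedBall _ _))
        (Continuous.continuousOn (by unfold Function.uncurry; fun_prop)))
      (measurableSet_uIoc.prod .univ) fun z hz => ?_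
    have h1 : 1 < ‖z.2‖ := by
      by_contra k
      exact hz.2 ⟨uIoc_subset_uIcc hz.1.1, mem_closedBall_zero_iff.2 (not_lt.1 k)⟩
    have h2 := hz.1.1
    rw [uIoc_of_le ha] at h2
    simp only [Function.uncurry, h0 _ (big h2.2 (by nlinarith : 1 / 4 ≤ ‖z.2‖ ^ 2)), mul_zero,
      zero_mul]

theorem zero' (hF : ContDiff ℝ ∞ F) (h0 : ∀ t, 1 / 4 ≤ t → F t = 0) (t : ℝ) (ht : 1 / 4 ≤ t) :
    deriv F t = 0 :=
  (uniqueDiffOn_Ici t t self_mem_Ici).eq_deriv _
    (hF.differentiable (by simp) t).hasDerivAt.hasDerivWithinAt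
    ((hasDerivWithinAt_const t _ 0).congr (fun y hy => h0 y (ht.trans hy)) (h0 t ht))

theorem mom {d : ℕ} (K : Ker d 1) : ∫ y : X d, deriv (ka d) (‖y‖ ^ 2) * ‖y‖ ^ 2 = -(d / 2) := by
  have cs : HasCompactSupport (kk : X d → ℝ) := .intro (isCompact_closedBall 0 1) fun x hx =>
    (K.zero x (by have := not_le.1 (mt mem_closedBall_zero_iff.2 hx); linarith)).1
  have c0 := K.sm.continuous
  have c1 := K.sm.continuous_fderiv (by simp)
  have e : ∀ (i : Fin d) (x : X d), fderiv ℝ (fun y : X d => y i) x (EuclideanSpace.single i 1) =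
      1 := fun i x => by
    rw [show (fun y : X d => y i) = EuclideanSpace.proj (𝕜 := ℝ) i from rfl,
      ContinuousLinearMap.fderiv]
    simp
  have i1 : ∀ i : Fin d, Integrable fun x : X d =>
      x i * fderiv ℝ kk x (EuclideanSpace.single i 1) := fun i =>
    Continuous.integrable_of_hasCompactSupport (by fun_prop) (cs.fderiv_apply (𝕜 := ℝ) _).mul_left
  have k : ∀ i : Fin d, ∫ x : X d, x i * fderiv ℝ kk x (EuclideanSpace.single i 1) = -1 :=
    fun i => by
      rw [integral_mul_fderiv_eq_neg_fderiv_mul_of_integrable _ (i1 i)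
        (Continuous.integrable_of_hasCompactSupport (by fun_prop) cs.mul_left)
        (fun x _ => by fun_prop) fun x _ => K.sm.differentiable (by simp) x]
      · simp only [e, one_mul, K.one]
      · simpa only [e, one_mul] using c0.integrable_of_hasCompactSupport cs
  have s := integral_finsetSum Finset.univ fun i _ => i1 i
  have e' : ∀ x : X d, ∑ i, x i * fderiv ℝ kk x (EuclideanSpace.single i 1) =
      2 * (deriv (ka d) (‖x‖ ^ 2) * ‖x‖ ^ 2) := fun x => by
    simp only [← inner_gradient_left, K.grad, PiLp.smul_apply, smul_eq_mul,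
      EuclideanSpace.inner_single_right, conj_trivial, one_mul]
    rw [← mul_assoc]
    generalize 2 * deriv (ka d) (‖x‖ ^ 2) = r
    rw [EuclideanSpace.real_norm_sq_eq, Finset.mul_sum]
    exact Finset.sum_congr rfl fun i _ => by ring
  simp only [e', k, integral_const_mul, Finset.sum_const, Finset.card_univ, Fintype.card_fin,
    nsmul_eq_mul] at s
  linarith

end ShlA

open ShlA in
theorem shl : Kit → ShlS := by
  intro kit d θ h0 h1
  have K := kit.ker d 1
  have ha : log θ ≤ 0 := log_nonpos h0.le h1.le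
  have c0 := K.sa.continuous
  have s1 := (contDiff_infty_iff_deriv.1 K.sa).2
  have c1 := s1.continuous
  have p0 : ∀ t, HasDerivAt (fun t => ∫ u in (1 / 4 : ℝ)..t, 2⁻¹ * ka d u) (2⁻¹ * ka d t) t :=
    fun t => ((c0.const_mul _).integral_hasStrictDerivAt _ t).hasDerivAt
  have p1 : deriv (fun t => ∫ u in (1 / 4 : ℝ)..t, 2⁻¹ * ka d u) = fun t => 2⁻¹ * ka d t :=
    funext fun t => (p0 t).deriv
  have p2 : ContDiff ℝ ∞ fun t => 2⁻¹ * ka d t := contDiff_const.mul K.sa
  have p3 : ContDiff ℝ ∞ fun t => ∫ u in (1 / 4 : ℝ)..t, 2⁻¹ * ka d u :=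
    contDiff_infty_iff_deriv.2 ⟨fun t => (p0 t).differentiableAt, by rw [p1]; exact p2⟩
  have p4 : deriv (fun t => 2⁻¹ * ka d t) = fun t => 2⁻¹ * deriv (ka d) t :=
    funext fun t => deriv_const_mul_field _
  have e1 := der' (a := log θ) (c := 2 - d) p3
  rw [p1] at e1
  have e2 := der' (a := log θ) (c := 2 - d - 2) p2
  rw [p4] at e2
  refine ⟨_, smooth (a := log θ) (c := 2 - d) p3, fun t ht => ?_, fun t => ?_, fun t => ?_,
    fun t => ?_, ?_, ?_⟩
  · refine intervalIntegral.integral_zero_ae (.of_forall fun s hs => mul_eq_zero_of_right _ ?_)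
    rw [uIoc_of_le ha] at hs
    refine intervalIntegral.integral_zero_ae (.of_forall fun u hu => ?_)
    rw [uIoc_of_le (big hs.2 ht)] at hu
    rw [K.za u hu.1.le, mul_zero]
  · have k : ∀ s, HasDerivAt (fun s => -(exp (-d * s) * ka d (t * exp (-2 * s))))
        (2 * d * (exp ((2 - d - 2) * s) * (2⁻¹ * ka d (t * exp (-2 * s)))) +
          4 * t * (exp ((2 - d - 2 - 2) * s) * (2⁻¹ * deriv (ka d) (t * exp (-2 * s))))) s :=
      fun s => by
        refine (((hasDerivAt_const_mul _).exp.mul ((K.sa.differentiable (by simp) _).hasDerivAt.comp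
          s ((hasDerivAt_const_mul _).exp.const_mul t))).neg).congr_deriv ?_
        rw [show (2 - d - 2 - 2) * s = -d * s + -2 * s by ring, exp_add,
          show (2 - d - 2) * s = -d * s by ring, Function.comp_apply]
        ring
    rw [e1, e2, J, J, ← intervalIntegral.integral_const_mul, ← intervalIntegral.integral_const_mul,
      ← intervalIntegral.integral_add (Continuous.intervalIntegrable (by fun_prop) _ _)
        (Continuous.intervalIntegrable (by fun_prop) _ _),
      intervalIntegral.integral_eq_sub_of_hasDerivAt (fun s _ => k s)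
        (Continuous.intervalIntegrable (by fun_prop) _ _), neg_mul (d : ℝ) (log θ), exp_neg,
      exp_nat_mul, show -2 * log θ = -((2 : ℕ) * log θ) by push_cast; ring, exp_neg, exp_nat_mul,
      exp_log h0, div_eq_mul_inv]
    simp only [mul_zero, exp_zero, mul_one, one_mul]
    ring
  · rw [e1]
    refine intervalIntegral.integral_nonneg ha fun s _ => ?_
    have := K.nn (t * exp (-2 * s))
    positivity
  · rw [e1, e2, ← neg_nonneg, J, ← intervalIntegral.integral_neg]
    refine intervalIntegral.integral_nonneg ha fun s _ => ?_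
    have := mul_nonneg (exp_pos ((2 - d - 2 - 2) * s)).le (neg_nonneg.2 (K.anti (t * exp (-2 * s))))
    linarith
  · have k := swap (c := 2 - d - 2) d 1 ha p2.continuous fun t ht => by rw [K.za t ht, mul_zero]
    have cs : HasCompactSupport (kk : X d → ℝ) := .intro (isCompact_closedBall 0 1) fun x hx =>
      (K.zero x (by have := not_le.1 (mt mem_closedBall_zero_iff.2 hx); linarith)).1
    have i0 : Integrable (kk : X d → ℝ) := K.sm.continuous.integrable_of_hasCompactSupport cs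
    have k1 : ∫ y : X d, 2⁻¹ * ka d (‖y‖ ^ 2) * ‖y‖ ≤ ∫ y : X d, 2⁻¹ * kk y :=
      integral_mono_of_nonneg (.of_forall fun y => by have := K.nn (‖y‖ ^ 2); positivity)
        (i0.const_mul _) (.of_forall fun y => by
          have := K.nn (‖y‖ ^ 2)
          rcases le_total ‖y‖ 1 with h | h
          · exact mul_le_of_le_one_right (by positivity) h
          · simp only [kk, K.za _ (by nlinarith : 1 / 4 ≤ ‖y‖ ^ 2), mul_zero, zero_mul, le_refl])
    have k2 : 0 ≤ ∫ y : X d, 2⁻¹ * ka d (‖y‖ ^ 2) * ‖y‖ :=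
      integral_nonneg fun y => by have := K.nn (‖y‖ ^ 2); positivity
    rw [integral_const_mul _ kk, K.one] at k1
    simp only [pow_one, show (2 : ℝ) - d - 2 + d + (1 : ℕ) = 1 by push_cast; ring, one_mul,
      integral_exp, exp_zero, exp_log h0] at k
    simp only [e1, mul_assoc (2 : ℝ), integral_const_mul, k]
    nlinarith
  · have k := swap (c := 2 - d - 2 - 2) d 2 ha (c1.const_mul 2⁻¹) fun t ht => by
      rw [zero' K.sa K.za t ht, mul_zero]
    simp only [show (2 : ℝ) - d - 2 - 2 + d + (2 : ℕ) = 0 by push_cast; ring, zero_mul, exp_zero,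
      intervalIntegral.integral_const, mul_assoc, integral_const_mul, mom K, smul_eq_mul] at k
    simp only [mo2, e1, e2, mul_assoc, integral_const_mul, k, log_inv]
    ring

end Pool.Agent.MP_815c6c_an.N

end
end MrgPart2

-- marker of a merged file
example : 731051 + 401039 = 731051 + 401039 := rfl
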