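import Mathlib.Algebra.Order.Star.Real
import Pool.Agent.MP_815c6c_an.N.XSpec

/-! The step in the degenerate regime. -/

set_option autoImplicit false

noncomputable section

namespace Pool.Agent.MP_815c6c_an.N

open Set Metric MeasureTheory Filter Topology
open scoped ContDiff RealInnerProductSpace ENNReal

namespace StdA

variable {d n : ℕ}

theorem pw {θ t : ℝ} (h0 : 0 < θ) (h1 : θ ≤ 1) (ht : 0 ≤ t) (h : θ⁻¹ * t ≤ 1) :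
    1 ≤ θ ^ (-t) ∧ θ ^ (-t) ≤ 1 + 2 * (θ⁻¹ * t) := by
  refine ⟨Real.one_le_rpow_of_pos_of_le_one_of_nonpos h0 h1 (by linarith), ?_⟩
  have p : 0 ≤ θ⁻¹ * t := by positivity
  have e : θ ^ (-t) ≤ Real.exp (θ⁻¹ * t) := by
    rw [Real.rpow_def_of_pos h0]
    refine Real.exp_le_exp.2 ?_
    have := Real.log_le_sub_one_of_pos (inv_pos.2 h0)
    rw [Real.log_inv] at this
    nlinarith
  have := Real.abs_exp_sub_one_le (x := θ⁻¹ * t) (by rw [abs_of_nonneg p]; exact h)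
  rw [abs_of_nonneg p] at this
  linarith [le_abs_self (Real.exp (θ⁻¹ * t) - 1)]

theorem ss_bd {ε : ℝ} (h0 : 0 < ε) (h1 : ε ≤ 1) : ε / 3 ≤ ss ε ∧ ss ε ≤ ε / 2 :=
  ⟨div_le_div_of_nonneg_left h0.le (by linarith) (by linarith),
    div_le_div_of_nonneg_left h0.le two_pos (by linarith)⟩

/-- the scale factors -/
structure Sc (θ ε c g τ ρ σ : ℝ) : Prop where
  e1 : θ ^ g = τ
  e2 : θ ^ (g - 1) = τ * θ⁻¹
  e3 : θ ^ (-ss ε) = ρ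
  e4 : θ ^ (g - ss ε) = σ
  e5 : τ * ρ = σ
  t1 : 1 / 2 ≤ τ
  t2 : τ ≤ 1
  r1 : 1 ≤ ρ
  r2 : ρ ≤ 1 + θ⁻¹ * ε
  s1 : 1 ≤ σ
  s2 : σ ≤ 1 + c * ε ^ 2 / 32
  m : (τ * θ⁻¹) ^ ε ≤ 2 ^ 2

theorem scales {θ ε c : ℝ} (h0 : 0 < θ) (h1 : θ ≤ 1 / 8) (hε : 0 < ε) (hT : θ⁻¹ * ε ≤ 1 / 8)
    (hc : 0 < c) (hcε : c * ε ≤ 1) : ∃ τ ρ σ, Sc θ ε c (ss ε - c * θ / 64 * ε ^ 2) τ ρ σ := by
  have T8 : 8 ≤ θ⁻¹ := by rw [le_inv_comm₀ (by norm_num) h0]; linarith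
  have ε1 : ε ≤ 1 := by nlinarith
  have θ1 : θ ≤ 1 := by linarith
  obtain ⟨s1, s2⟩ := ss_bd hε ε1
  have a0 : 0 ≤ c * θ / 64 * ε ^ 2 := by positivity
  have a1 : c * θ / 64 * ε ^ 2 ≤ ε / 4 := by
    have : c * ε * (θ * ε) ≤ 1 * (1 * ε) := by gcongr
    nlinarith
  have a2 : θ⁻¹ * (c * θ / 64 * ε ^ 2) = c * ε ^ 2 / 64 := by field_simp
  have a3 : c * ε ^ 2 ≤ 1 := by nlinarith
  obtain ⟨g, hg⟩ : ∃ g, g = ss ε - c * θ / 64 * ε ^ 2 := ⟨_, rfl⟩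
  have b1 : θ⁻¹ * g ≤ θ⁻¹ * ε := mul_le_mul_of_nonneg_left (by linarith) (by linarith)
  have b2 : θ⁻¹ * ss ε ≤ θ⁻¹ * (ε / 2) := mul_le_mul_of_nonneg_left s2 (by linarith)
  obtain ⟨-, g2⟩ := pw h0 θ1 (t := g) (by linarith) (by linarith)
  obtain ⟨r1, r2⟩ := pw h0 θ1 (t := ss ε) (by linarith) (by linarith)
  obtain ⟨q1, q2⟩ := pw h0 θ1 a0 (by linarith)
  obtain ⟨-, m2⟩ := pw h0 θ1 hε.le (by linarith)
  have t2 : θ ^ g ≤ 1 := Real.rpow_le_one h0.le θ1 (by linarith)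
  have t0 : 0 < θ ^ g := Real.rpow_pos_of_pos h0 g
  have e : g - ss ε = -(c * θ / 64 * ε ^ 2) := by linarith
  rw [← hg]
  refine ⟨_, _, _, rfl, by rw [Real.rpow_sub_one h0.ne', div_eq_mul_inv], rfl, rfl,
    by rw [← Real.rpow_add h0, sub_eq_add_neg], ?_, t2, r1, by linarith, e ▸ q1,
    by rw [e]; linarith, ?_⟩
  · have p : 0 ≤ θ⁻¹ * g := mul_nonneg (by linarith) (by linarith)
    rw [Real.rpow_neg h0.le, inv_le_comm₀ t0 (by linarith)] at g2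
    refine le_trans ?_ g2
    rw [one_div]
    exact inv_anti₀ (by linarith) (by linarith)
  · refine (Real.rpow_le_rpow (by positivity) (mul_le_of_le_one_left (by linarith) t2)
      hε.le).trans ?_
    rw [Real.inv_rpow h0.le, ← Real.rpow_neg h0.le]
    linarith

theorem geo {E : Type} [NormedAddCommGroup E] [InnerProductSpace ℝ E] {H Δ : E} {τ ρ a y D : ℝ}
    (h1 : 1 / 2 ≤ ‖H‖) (h2 : ‖H‖ ≤ 2) (t1 : 1 / 2 ≤ τ) (t2 : τ ≤ 1) (r1 : 1 ≤ ρ) (ha : 0 ≤ a)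
    (hy : 0 ≤ y) (hi : ⟪Δ, H⟫ ≤ -a + y) (hD : ‖Δ‖ ≤ D) :
    τ * ‖ρ • H + Δ‖ ≤ τ * ρ * ‖H‖ - a / 4 + 2 * y + D ^ 2 := by
  have e := norm_add_sq_real (ρ • H) Δ
  rw [norm_smul, Real.norm_of_nonneg (by linarith), real_inner_smul_left, real_inner_comm] at e
  have hd : ‖Δ‖ ^ 2 ≤ D ^ 2 := pow_le_pow_left₀ (norm_nonneg _) hD 2
  generalize ‖ρ • H + Δ‖ = N, ‖H‖ = h, ⟪Δ, H⟫ = i, ‖Δ‖ ^ 2 = w at *
  have D0 := sq_nonneg D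
  have p : 1 / 2 ≤ ρ * h := by nlinarith
  have k : N ≤ ρ * h - a / 2 + 2 * y + D ^ 2 := by
    refine le_of_mul_le_mul_left ?_ (show 0 < 2 * (ρ * h) by linarith)
    have k1 : ρ * i ≤ ρ * (-a + y) := mul_le_mul_of_nonneg_left hi (by linarith)
    have k2 : 0 ≤ ρ * a * (2 - h) := by have : 0 ≤ 2 - h := by linarith
                                        positivity
    have k3 : 0 ≤ ρ * y * (2 * h - 1) := by have : 0 ≤ 2 * h - 1 := by linarith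
                                            positivity
    have k4 : 0 ≤ D ^ 2 * (2 * (ρ * h) - 1) := mul_nonneg D0 (by linarith)
    nlinarith [sq_nonneg (N - ρ * h)]
  have k5 := mul_le_mul_of_nonneg_left k (show 0 ≤ τ by linarith)
  nlinarith [mul_nonneg ha (sub_nonneg.2 t1), mul_nonneg hy (sub_nonneg.2 t2),
    mul_nonneg D0 (sub_nonneg.2 t2)]

theorem nb {C ε b e b' : ℝ} (h0 : 0 ≤ C * ε) (h1 : C * ε ≤ 1 / 128) (hb : 0 ≤ b) (he : 0 ≤ e)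
    (h : 2 * (b - C * ε * (ε + b + e)) ≤ b') :
    -(4 * C * ε * b') ≤ -(7 * C * ε * b) + 8 * C ^ 2 * ε * ε ^ 2 + C * ε * e := by
  have k1 := mul_le_mul_of_nonneg_left h h0
  have k2 := mul_le_mul_of_nonneg_right h1 (mul_nonneg h0 hb)
  have k3 := mul_le_mul_of_nonneg_right h1 (mul_nonneg h0 he)
  nlinarith [mul_nonneg h0 hb, mul_nonneg h0 he]

theorem GZ0 (ε : ℝ) (x : X d) : GZ ε (0 : He d n) x = 0 := by
  have : UZ (ss ε) (0 : He d n) = fun _ => 0 := by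
    funext y
    simp [UZ, qf]
  simp [GZ, Dm, this]

theorem ez0 (ε : ℝ) (G : X d → Gr d n) : ez ε G 0 = exc ε (pr G) := by
  simp only [ez, GZ0, sub_zero]

theorem res (K : Kit) {C₁ θ ε c g τ ρ σ : ℝ} (P : Pl1 d n C₁) (S : Sc θ ε c g τ ρ σ) (h0 : 0 < θ)
    (h1 : θ ≤ 1) (hε : 0 < ε) (hε' : ε ≤ 1 / 8) {G : X d → Gr d n} (hG : Mp ε G) {Z : He d n}
    (hZ : Pln Z) : ez ε (fun x => (τ * θ⁻¹) • sc θ G x) (σ • Z) ≤
      2 * θ⁻¹ * exc ε (pr (sc θ fun x => G x - GZ ε Z x)) := by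
  obtain ⟨s1, s2⟩ := ss_bd hε (by linarith)
  have s3 : 0 < ss ε := by linarith
  have s4 : ss ε ≤ 1 / 8 := by linarith
  have t0 : 0 < τ := by linarith [S.t1]
  obtain ⟨C, E⟩ := K.exc d n
  have k := K.ker d n
  have e : (fun x => (τ * θ⁻¹) • sc θ G x - GZ ε (σ • Z) x) =
      fun x => (τ * θ⁻¹) • sc θ (fun x => G x - GZ ε Z x) x := by
    funext x
    simp only [sc, GZ, smul_sub]
    rw [(P.hom _ θ Z x s3 s4 h0 hZ).1, (P.hom _ σ Z x s3 s4 (by linarith [S.s1]) hZ).2, smul_smul,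
      ← S.e2, ← Real.rpow_add h0, ← S.e4]
    congr 3
    ring
  have e' : ∀ z : X d → Gr d n, pr (fun x => (τ * θ⁻¹) • z x) = fun x => (τ * θ⁻¹) • pr z x :=
    fun z => by
      funext x
      simp only [pr, k.bb_smul, k.HH_smul, map_smul, smul_apply, smul_sub]
  have m1 : Mp ε fun x => G x - GZ ε Z x :=
    MemLp.sub hG (E.mp_c ε _ ((K.bas d n).c_Dm _ (P.c1 _ Z s3 s4 hZ)))
  have m2 : Mp ε (sc θ fun x => G x - GZ ε Z x) := by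
    have := E.mp_sh ε _ 0 θ h0 (by simpa using h1) m1
    rwa [show sh 0 θ (fun x => G x - GZ ε Z x) = sc θ (fun x => G x - GZ ε Z x) from
      funext fun x => by simp [sh, sc]] at this
  rw [ez, e, e']
  refine (E.smul_le ε _ 2 _ hε.le (by positivity) one_le_two S.m (E.mp_pr ε _ m2)).trans ?_
  exact mul_le_mul_of_nonneg_right (mul_le_mul_of_nonneg_left
    (mul_le_of_le_one_left (by positivity) S.t2) two_pos.le) (Real.sqrt_nonneg _)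

/-- the invariant -/
def St (ε C M T : ℝ) (G : X d → Gr d n) : Prop := ez ε G 0 ≤ 1 ∧ ‖HH G‖ ≤ 4 ∧ ‖bb G‖ ≤ 2 * T ∧
  ∃ Z, Pln Z ∧ ‖Z‖ ≤ 4 ∧ ez ε G Z ≤ 1 ∧
    ‖tl (HH G)‖ + 16 * C * ε * ez ε G Z + M * ε ^ 2 * ‖tl (HH G) - Z‖ - 4 * C * ε * ‖bb G‖ ≤ 1

/-- the one step bounds with common constants -/
structure Dat (d n : ℕ) (θ C c κ C' δ g M ε : ℝ) : Prop where
  p0 : ∀ (u : X d → X n) G Z, Pre ε u G Z →
    2 * θ⁻¹ * exc ε (pr (sc θ fun x => G x - GZ ε Z x)) ≤ ez ε G Z / 8 + 2 * (θ⁻¹ * (C * ε)) ∧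
    ‖Ht θ G - HH G‖ ≤ C * ε ∧ ‖trc (HH G)‖ ≤ C * ε ∧ ‖bb (sc θ G) - bb G‖ ≤ C * ε ∧
    ∀ Z', Pln Z' → ‖Z'‖ ≤ 4 → ez ε G Z' ≤ 2 * ez ε G Z + C * ε
  p1 : ∀ (u : X d → X n) G Z, Pre ε u G Z → 1 / 2 ≤ ‖tl (HH G)‖ →
    ‖bb (sc θ G) - bb G‖ ≤ C * ε * (ε + ‖bb G‖ + ez ε G Z) ∧
    ((∀ Z', Pln Z' → δ / 2 ≤ ‖tl (HH G) - Z'‖) →
      ⟪tl (Ht θ G) - θ ^ (-ss ε) • tl (HH G), tl (HH G)⟫ ≤
        -(g * ε) + C * ε * (‖bb G‖ + ez ε G Z))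
  p2 : ∀ (u : X d → X n) G Z, Pre ε u G Z → 1 / 2 ≤ ‖tl (HH G)‖ → ‖tl (HH G) - Z‖ ≤ δ →
    ‖bb G‖ ≤ δ → ⟪tl (Ht θ G) - θ ^ (-ss ε) • tl (HH G), tl (HH G)⟫ ≤
      -(c * ε ^ 2) + C * ε * (‖bb G‖ + ez ε G Z) ∧
    ‖tl (Ht θ G) - θ ^ (-ss ε) • tl (HH G)‖ ≤ κ * ε + C' * ε * ez ε G Z ∧
    2 * θ⁻¹ * exc ε (pr (sc θ fun x => G x - GZ ε Z x)) ≤
      ez ε G Z / 8 + 2 * (θ⁻¹ * κ * ε) + 2 * (θ⁻¹ * C' * ε) * ez ε G Z
  θ0 : 0 < θ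
  θ1 : θ ≤ 1 / 8
  C1 : 1 ≤ C
  c0 : 0 < c
  κ0 : 0 < κ
  κ1 : κ ≤ 1
  κ2 : 2 * κ ≤ c / 16
  κ3 : 32 * C * θ⁻¹ * κ ≤ c / 16
  C0 : 0 ≤ C'
  δ1 : δ ≤ 1
  g0 : 0 < g
  M0 : 0 ≤ M
  M1 : 12 * C ^ 2 ≤ M * δ
  ε0 : 0 < ε
  n1 : θ⁻¹ * C * ε ≤ 1 / 16
  n2 : C * ε ≤ 1 / 128
  n3 : c * ε ≤ 1
  n4 : M * ε ≤ 1 / 8
  n5 : 6 * C' ^ 2 * ε ≤ 1
  n6 : θ⁻¹ * C' * ε ≤ 1 / 32
  n7 : M * (c + C + 2 * θ⁻¹) * ε ≤ c / 32
  n8 : 8 * C ^ 2 * ε ≤ c / 32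
  n9 : (c / 16 + (C + 2 * θ⁻¹) ^ 2 + 48 * θ⁻¹ * C ^ 2 + 3 * M + c / 32) * ε ≤ g / 4

theorem far {T C c g M ε b b' e e' h h' z z' : ℝ} (hε : 0 < ε) (hC : 1 ≤ C) (hM : 0 ≤ M)
    (hb : 0 ≤ b) (he : 0 ≤ e) (hz : 0 ≤ z) (n8 : 8 * C ^ 2 * ε ≤ c / 32)
    (n9 : (c / 16 + (C + 2 * T) ^ 2 + 48 * T * C ^ 2 + 3 * M + c / 32) * ε ≤ g / 4)
    (a1 : h' ≤ h + c * ε ^ 2 / 16 - g * ε / 4 + 2 * (C * ε * (b + e)) + ((C + 2 * T) * ε) ^ 2)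
    (a2 : e' ≤ e / 4 + 3 * (T * (C * ε))) (a3 : z' ≤ 3)
    (a4 : -(4 * C * ε * b') ≤ -(7 * C * ε * b) + 8 * C ^ 2 * ε * ε ^ 2 + C * ε * e) :
    h' + 16 * C * ε * e' + M * ε ^ 2 * z' - 4 * C * ε * b' ≤
      h + 16 * C * ε * e + M * ε ^ 2 * z - 4 * C * ε * b := by
  have x0 : 0 ≤ C * ε := by positivity
  have k1 := mul_le_mul_of_nonneg_left a2 x0
  have k2 := mul_le_mul_of_nonneg_left a3 (show 0 ≤ M * ε ^ 2 by positivity)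
  have k3 := mul_le_mul_of_nonneg_right n8 (sq_nonneg ε)
  have k4 := mul_le_mul_of_nonneg_right n9 hε.le
  have k5 : 0 ≤ M * ε ^ 2 * z := by positivity
  have k6 := mul_nonneg x0 hb
  have k7 := mul_nonneg x0 he
  linarith

theorem near {T C c κ C' M ε b b' e e₁ e' h h' z z₁ z' : ℝ} (hε : 0 < ε) (hC : 1 ≤ C) (hM : 0 ≤ M)
    (hb : 0 ≤ b) (he : 0 ≤ e) (he₁ : 0 ≤ e₁) (he₃ : e₁ ≤ 3) (κ0 : 0 < κ) (κ1 : κ ≤ 1)
    (κ2 : 2 * κ ≤ c / 16) (κ3 : 32 * C * T * κ ≤ c / 16) (n5 : 6 * C' ^ 2 * ε ≤ 1)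
    (n7 : M * (c + C + 2 * T) * ε ≤ c / 32) (n8 : 8 * C ^ 2 * ε ≤ c / 32)
    (a0 : 6 * C * ε * e₁ + M * ε ^ 2 * z₁ ≤ 12 * C * ε * e + M * ε ^ 2 * z)
    (a1 : h' ≤ h + c * ε ^ 2 / 16 - c * ε ^ 2 / 4 + 2 * (C * ε * (b + e₁)) +
      (κ * ε + C' * ε * e₁) ^ 2)
    (a2 : e' ≤ 3 / 16 * e₁ + 2 * (T * κ * ε)) (a3 : z' ≤ z₁ + (c + C + 2 * T) * ε)
    (a4 : -(4 * C * ε * b') ≤ -(7 * C * ε * b) + 8 * C ^ 2 * ε * ε ^ 2 + C * ε * e) :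
    h' + 16 * C * ε * e' + M * ε ^ 2 * z' - 4 * C * ε * b' ≤
      h + 16 * C * ε * e + M * ε ^ 2 * z - 4 * C * ε * b := by
  have x0 : 0 ≤ C * ε := by positivity
  have q := sq_nonneg ε
  have k1 := mul_le_mul_of_nonneg_left a2 x0
  have k2 := mul_le_mul_of_nonneg_left a3 (show 0 ≤ M * ε ^ 2 by positivity)
  have k3 := mul_le_mul_of_nonneg_right n8 q
  have k4 := mul_le_mul_of_nonneg_right n7 q
  have k5 := mul_le_mul_of_nonneg_right κ3 q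
  have k6 := mul_nonneg x0 hb
  have k7 := mul_nonneg x0 he
  have k8 := mul_le_mul_of_nonneg_right κ2 q
  have k9 := mul_le_mul_of_nonneg_right κ1 (mul_nonneg κ0.le q)
  have l1 := mul_le_mul_of_nonneg_right he₃ (show 0 ≤ C' ^ 2 * ε ^ 2 * e₁ by positivity)
  have l2 := mul_le_mul_of_nonneg_right (n5.trans hC) (mul_nonneg hε.le he₁)
  have l3 := sq_nonneg (κ * ε - C' * ε * e₁)
  linarith

theorem step (K : Kit) {C₁ θ C c κ C' δ g M ε : ℝ} (P : Pl1 d n C₁)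
    (D : Dat d n θ C c κ C' δ g M ε) {u : X d → X n} {G : X d → Gr d n} (hs : Sol ε u G)
    (h : St ε C M θ⁻¹ G) (hb : ‖bb G‖ ≤ δ) :
    St ε C M θ⁻¹ fun x => θ ^ (ss ε - c * θ / 64 * ε ^ 2 - 1) • sc θ G x := by
  obtain ⟨-, hH, -, Z, hZ, nZ, eZ, hP⟩ := h
  have B := K.bas d n
  have k := K.ker d n
  have θ0 := D.θ0
  have ε0 := D.ε0
  have C1 := D.C1
  have M0 := D.M0
  have δ1 := D.δ1
  have n2 := D.n2
  have x0 : 0 ≤ C * ε := by positivity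
  have T8 : 8 ≤ θ⁻¹ := by rw [le_inv_comm₀ (by norm_num) θ0]; linarith [D.θ1]
  have n1 : θ⁻¹ * (C * ε) ≤ 1 / 16 := by linarith [D.n1]
  have ε1 : ε ≤ C * ε := le_mul_of_one_le_left ε0.le C1
  have hT : θ⁻¹ * ε ≤ 1 / 16 := (mul_le_mul_of_nonneg_left ε1 (by linarith)).trans n1
  have x1 : C * ε ≤ θ⁻¹ * (C * ε) := le_mul_of_one_le_left x0 (by linarith)
  obtain ⟨τ, ρ, σ, S⟩ := scales θ0 D.θ1 ε0 (by linarith) D.c0 D.n3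
  have t1 := S.t1
  have t2 := S.t2
  have s1 := S.s1
  have s2 := S.s2
  have rs := fun Z' hZ' => res K P S θ0 (by linarith [D.θ1]) ε0 (by linarith) hs.mG (Z := Z') hZ'
  rw [S.e2]
  have eH : HH (fun x => (τ * θ⁻¹) • sc θ G x) = τ • Ht θ G := by rw [k.HH_smul, Ht, smul_smul]
  have eb : ‖bb fun x => (τ * θ⁻¹) • sc θ G x‖ = τ * θ⁻¹ * ‖bb (sc θ G)‖ := by
    rw [k.bb_smul, norm_smul, Real.norm_of_nonneg (by positivity)]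
  generalize (fun x => (τ * θ⁻¹) • sc θ G x) = G' at *
  have en : ∀ (G : X d → Gr d n) Z, 0 ≤ ez ε G Z := fun _ _ => Real.sqrt_nonneg _
  have pre : ∀ Z', Pln Z' → ‖Z'‖ ≤ 4 → ez ε G Z' ≤ 3 → Pre ε u G Z' :=
    fun Z' a b c => ⟨hs, a, b, hH, hb.trans δ1, c⟩
  have p0 : Pln (0 : He d n) := Or.inl rfl
  have q0 : ‖(0 : He d n)‖ ≤ 4 := by simp
  obtain ⟨-, a2, a3, a4, a5⟩ := D.p0 u G Z (pre Z hZ nZ (by linarith))
  have z0 := a5 0 p0 q0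
  have z1 := (rs 0 p0).trans (D.p0 u G 0 (pre 0 p0 q0 (by linarith))).1
  rw [smul_zero] at z1
  have z3 : ez ε G' 0 ≤ ez ε G Z / 4 + 3 * (θ⁻¹ * (C * ε)) := by linarith
  have z4 : ez ε G' 0 ≤ 1 := by linarith
  have h2 : ‖tl (HH G)‖ ≤ 3 / 2 := by
    have := mul_le_mul_of_nonneg_left (hb.trans δ1) x0
    have := mul_nonneg x0 (en G Z)
    have : 0 ≤ M * ε ^ 2 * ‖tl (HH G) - Z‖ := by positivity
    linarith
  have sm : ∀ H : He d n, ‖τ • H‖ = τ * ‖H‖ := fun H => by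
    rw [norm_smul, Real.norm_of_nonneg (by linarith)]
  have sm' : ∀ H : He d n, ‖τ • H‖ ≤ ‖H‖ := fun H =>
    (sm H).trans_le (mul_le_of_le_one_left (norm_nonneg _) t2)
  have a6 : ‖tl (Ht θ G) - tl (HH G)‖ ≤ C * ε := by
    rw [← map_sub]; exact (B.n_tl _).trans a2
  have c1 : ‖tl (HH G')‖ ≤ ‖tl (HH G)‖ + C * ε := by
    rw [eH, map_smul]
    linarith [sm' (tl (Ht θ G)), norm_sub_norm_le (tl (Ht θ G)) (tl (HH G))]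
  refine ⟨z4, ?_, ?_, ?_⟩
  · rw [eH]
    linarith [sm' (Ht θ G), norm_sub_norm_le (Ht θ G) (HH G), B.n_sub_tl (HH G),
      norm_sub_norm_le (HH G) (tl (HH G))]
  · rw [eb, mul_comm 2]
    exact mul_le_mul (mul_le_of_le_one_left (by linarith) t2)
      (by linarith [norm_sub_norm_le (bb (sc θ G)) (bb G)]) (norm_nonneg _) (by linarith)
  rcases le_total ‖tl (HH G)‖ (1 / 2) with h1 | h1
  · refine ⟨0, p0, q0, z4, ?_⟩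
    rw [sub_zero]
    have k1 := mul_le_mul_of_nonneg_left z4 x0
    have k2 : M * ε * (ε * ‖tl (HH G')‖) ≤ 1 / 8 * (1 * 1) :=
      mul_le_mul D.n4 (mul_le_mul (by linarith) (by linarith) (norm_nonneg _) one_pos.le)
        (by positivity) (by norm_num)
    have k3 := mul_nonneg x0 (norm_nonneg (bb G'))
    linarith
  obtain ⟨b1, b2⟩ := D.p1 u G Z (pre Z hZ nZ (by linarith)) h1
  have b3 := nb (b' := ‖bb G'‖) x0 n2 (norm_nonneg (bb G)) (en G Z) (by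
    have m2 : 2 ≤ τ * θ⁻¹ := by nlinarith
    have := mul_le_mul_of_nonneg_right m2 (norm_nonneg (bb (sc θ G)))
    have := norm_sub_norm_le (bb G) (bb (sc θ G))
    rw [norm_sub_rev] at this
    linarith)
  have p2 := D.p2 u G
  rw [S.e3] at b2 p2
  obtain ⟨Δ, hΔ⟩ : ∃ Δ, Δ = tl (Ht θ G) - ρ • tl (HH G) := ⟨_, rfl⟩
  have eΔ : tl (HH G') = τ • (ρ • tl (HH G) + Δ) := by rw [eH, map_smul, hΔ, add_sub_cancel]
  have nΔ : ‖Δ‖ ≤ (C + 2 * θ⁻¹) * ε := by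
    rw [show Δ = tl (Ht θ G) - tl (HH G) - (ρ - 1) • tl (HH G) by rw [hΔ, sub_smul, one_smul]; abel]
    refine (norm_sub_le _ _).trans ?_
    rw [norm_smul, Real.norm_of_nonneg (by linarith [S.r1])]
    have := mul_le_mul (show ρ - 1 ≤ θ⁻¹ * ε by linarith [S.r2]) (show ‖tl (HH G)‖ ≤ 2 by linarith)
      (norm_nonneg _) (by positivity)
    linarith
  rw [← hΔ] at b2 p2
  have cε : 0 ≤ c * ε ^ 2 := by have := D.c0; positivity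
  have sh : τ * ρ * ‖tl (HH G)‖ ≤ ‖tl (HH G)‖ + c * ε ^ 2 / 16 := by
    rw [S.e5]
    have := mul_le_mul_of_nonneg_right s2 (norm_nonneg (tl (HH G)))
    have := mul_le_mul_of_nonneg_left (show ‖tl (HH G)‖ ≤ 2 by linarith) cε
    linarith
  by_cases fr : ∀ Z', Pln Z' → δ / 2 ≤ ‖tl (HH G) - Z'‖
  · refine ⟨0, p0, q0, z4, le_trans (far ε0 C1 M0 (norm_nonneg _) (en G Z) (norm_nonneg _) D.n8
      D.n9 ?_ z3 (by rw [sub_zero]; linarith) b3) hP⟩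
    have := geo h1 (by linarith) t1 t2 S.r1 (mul_nonneg D.g0.le ε0.le)
      (mul_nonneg x0 (add_nonneg (norm_nonneg _) (en G Z))) (b2 fr) nΔ
    rw [eΔ, sm]
    linarith
  have nz : ∀ Z₁, ‖tl (HH G) - Z₁‖ ≤ δ → ‖Z₁‖ ≤ 5 / 2 := fun Z₁ h => by
    have := norm_sub_norm_le Z₁ (tl (HH G))
    rw [norm_sub_rev] at this
    linarith
  obtain ⟨Z₁, y1, y2, y3, y4⟩ : ∃ Z₁, Pln Z₁ ∧ ‖tl (HH G) - Z₁‖ ≤ δ ∧ ez ε G Z₁ ≤ 3 ∧
      6 * C * ε * ez ε G Z₁ + M * ε ^ 2 * ‖tl (HH G) - Z₁‖ ≤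
        12 * C * ε * ez ε G Z + M * ε ^ 2 * ‖tl (HH G) - Z‖ := by
    rcases le_total ‖tl (HH G) - Z‖ δ with c | c
    · exact ⟨Z, hZ, c, by linarith, by linarith [mul_nonneg x0 (en G Z)]⟩
    push Not at fr
    obtain ⟨Z₁, y1, y2⟩ := fr
    have y3 : ‖tl (HH G) - Z₁‖ ≤ δ := by linarith [norm_nonneg (tl (HH G) - Z₁)]
    have y4 := a5 Z₁ y1 (by linarith [nz Z₁ y3])
    refine ⟨Z₁, y1, y3, by linarith, ?_⟩
    have k1 := mul_le_mul_of_nonneg_left y4 x0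
    have k2 := mul_le_mul_of_nonneg_left (show ‖tl (HH G) - Z₁‖ + δ / 2 ≤ ‖tl (HH G) - Z‖ by
      linarith) (show 0 ≤ M * ε ^ 2 by positivity)
    have k3 := mul_le_mul_of_nonneg_right D.M1 (sq_nonneg ε)
    linarith
  have y5 := nz Z₁ y2
  obtain ⟨w1, w2, w3⟩ := p2 Z₁ (pre Z₁ y1 (by linarith) y3) h1 y2 hb
  have cε1 : c * ε ^ 2 ≤ c * ε := by
    rw [sq, ← mul_assoc]
    exact mul_le_of_le_one_right (mul_nonneg D.c0.le ε0.le) (by linarith)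
  have w4 : ez ε G' (σ • Z₁) ≤ 3 / 16 * ez ε G Z₁ + 2 * (θ⁻¹ * κ * ε) := by
    have := mul_le_mul_of_nonneg_right D.n6 (en G Z₁)
    linarith [rs Z₁ y1]
  refine ⟨σ • Z₁, (K.pl0 d n).smul _ _ y1, ?_, ?_, le_trans (near ε0 C1 M0 (norm_nonneg _) (en G Z)
    (en G Z₁) y3 D.κ0 D.κ1 D.κ2 D.κ3 D.n5 D.n7 D.n8 y4 ?_ w4 ?_ b3) hP⟩
  · rw [norm_smul, Real.norm_of_nonneg (by linarith)]
    have := mul_le_mul (show σ ≤ 3 / 2 by linarith [D.n3]) y5 (norm_nonneg _) (by norm_num)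
    linarith
  · have := mul_le_mul_of_nonneg_left D.κ1 (show 0 ≤ θ⁻¹ * ε by positivity)
    linarith
  · have := geo h1 (by linarith) t1 t2 S.r1 cε
      (mul_nonneg x0 (add_nonneg (norm_nonneg _) (en G Z₁))) w1 w2
    rw [eΔ, sm]
    linarith
  · rw [show tl (HH G') - σ • Z₁ = σ • (tl (HH G) - Z₁) + τ • Δ by
      rw [eΔ, smul_add, smul_smul, S.e5, smul_sub]; abel]
    refine (norm_add_le _ _).trans ?_
    rw [norm_smul, Real.norm_of_nonneg (by linarith)]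
    have := mul_le_mul_of_nonneg_right s2 (norm_nonneg (tl (HH G) - Z₁))
    have := mul_le_mul_of_nonneg_left (y2.trans δ1) cε
    linarith [sm' Δ]

theorem small (K : ℝ) {r : ℝ} (hr : 0 < r) : ∀ᶠ ε in 𝓝[>] (0 : ℝ), K * ε ≤ r := by
  have : Tendsto (fun ε : ℝ => K * ε) (𝓝 0) (𝓝 (K * 0)) := (continuous_const_mul K).tendsto 0
  rw [mul_zero] at this
  exact (this.eventually (ge_mem_nhds hr)).filter_mono nhdsWithin_le_nhds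

theorem small' {r : ℝ} (hr : 0 < r) : ∀ᶠ ε in 𝓝[>] (0 : ℝ), ε ≤ r := by
  simpa using small 1 hr

theorem pos : ∀ᶠ ε in 𝓝[>] (0 : ℝ), 0 < ε := self_mem_nhdsWithin

theorem wk {θ C₀ e r x : ℝ} (h0 : 0 < θ) (h1 : C₀ * θ ≤ 1 / 16) (he : 0 ≤ e)
    (h : x ≤ C₀ * θ ^ 2 * e + r) : 2 * θ⁻¹ * x ≤ e / 8 + 2 * (θ⁻¹ * r) := by
  have k1 := mul_le_mul_of_nonneg_left h (inv_pos.2 h0).le
  have k2 := mul_le_mul_of_nonneg_right h1 he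
  have k3 : θ⁻¹ * (C₀ * θ ^ 2 * e) = C₀ * θ * e := by field_simp
  linarith

end StdA

open StdA in
theorem std (K : Kit) (h1 : Pl1S) (k0 : Pk0S) (k1 : Pk1S) (k2 : Pk2S) (d n : ℕ) (hd : 1 ≤ d)
    (hf : FoS d n) : StdS d n := by
  obtain ⟨C₁, P⟩ := h1 d n
  obtain ⟨A₀, hA₀, P0⟩ := k0 d n hd
  obtain ⟨A₂, hA₂, P2⟩ := k2 d n hd hf
  obtain ⟨θ₀, t0, t1, t2⟩ := (pos.and ((small' (r := 1 / 8) (by norm_num)).and
    (small (A₀ + A₂) (r := 1 / 16) (by norm_num)))).exists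
  refine ⟨θ₀, t0, fun θ θ0 hθ => ?_⟩
  have θ1 : θ ≤ 1 / 8 := hθ.trans t1
  have θ2 := mul_le_mul_of_nonneg_left hθ (add_nonneg hA₀ hA₂)
  have θ3 : A₀ * θ ≤ 1 / 16 := by linarith [mul_nonneg hA₂ θ0.le]
  have θ4 : A₂ * θ ≤ 1 / 16 := by linarith [mul_nonneg hA₀ θ0.le]
  have T8 : 8 ≤ θ⁻¹ := by rw [le_inv_comm₀ (by norm_num) θ0]; linarith
  obtain ⟨Ca, ε₁, hCa, hε₁, Q0⟩ := P0 θ θ0 θ1
  obtain ⟨Cb, hCb, Q1⟩ := k1 d n hd hf θ θ0 θ1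
  obtain ⟨c, Cc, hc, hCc, Q2⟩ := P2 θ θ0 θ1
  obtain ⟨C, C1, Ca1, Cb1, Cc1⟩ : ∃ C : ℝ, 1 ≤ C ∧ Ca ≤ C ∧ Cb ≤ C ∧ Cc ≤ C :=
    ⟨1 + Ca + Cb + Cc, by linarith, by linarith, by linarith, by linarith⟩
  obtain ⟨κ, κ0, κ1, κ2, κ3⟩ := (pos.and ((small' one_pos).and
    ((small 2 (r := c / 16) (by linarith)).and
      (small (32 * C * θ⁻¹) (r := c / 16) (by linarith))))).exists
  obtain ⟨C', δ₂, hC', hδ₂, R2⟩ := Q2 κ κ0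
  obtain ⟨δ, δ0, δ1, δ2⟩ : ∃ δ : ℝ, 0 < δ ∧ δ ≤ 1 ∧ δ ≤ δ₂ :=
    ⟨min 1 δ₂, lt_min one_pos hδ₂, min_le_left _ _, min_le_right _ _⟩
  obtain ⟨g, ε₂, g0, hε₂, R1⟩ := Q1 (δ / 2) (by linarith)
  obtain ⟨M, M0, M1⟩ : ∃ M : ℝ, 0 ≤ M ∧ 12 * C ^ 2 ≤ M * δ :=
    ⟨12 * C ^ 2 / δ, by positivity, (div_mul_cancel₀ _ δ0.ne').ge⟩
  have ev : ∀ᶠ ε in 𝓝[>] (0 : ℝ), Dat d n θ C c κ C' δ g M ε := by
    filter_upwards [pos, small' hε₁, small' hε₂, small' hδ₂,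
      small (θ⁻¹ * C) (r := 1 / 16) (by norm_num), small C (r := 1 / 128) (by norm_num),
      small c one_pos, small M (r := 1 / 8) (by norm_num), small (6 * C' ^ 2) one_pos,
      small (θ⁻¹ * C') (r := 1 / 32) (by norm_num),
      small (M * (c + C + 2 * θ⁻¹)) (r := c / 32) (by linarith),
      small (8 * C ^ 2) (r := c / 32) (by linarith),
      small (c / 16 + (C + 2 * θ⁻¹) ^ 2 + 48 * θ⁻¹ * C ^ 2 + 3 * M + c / 32) (r := g / 4)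
        (by linarith)] with ε ε0 e1 e2 e3 n1 n2 n3 n4 n5 n6 n7 n8 n9
    have en : ∀ (G : X d → Gr d n) Z, 0 ≤ ez ε G Z := fun _ _ => Real.sqrt_nonneg _
    have xa := mul_le_mul_of_nonneg_right Ca1 ε0.le
    have xb := mul_le_mul_of_nonneg_right Cb1 ε0.le
    have xc := mul_le_mul_of_nonneg_right Cc1 ε0.le
    refine ⟨fun u G Z h => ?_, fun u G Z h h' => ?_, fun u G Z h h' hz hb => ?_, θ0, θ1, C1, hc,
      κ0, κ1, κ2, κ3, hC', δ1, g0, M0, M1, ε0, n1, n2, n3, n4, n5, n6, n7, n8, n9⟩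
    · obtain ⟨a1, a2, -, a3, a4, -, a5⟩ := Q0 ε u G Z ε0 e1 h
      exact ⟨wk θ0 θ3 (en G Z) (by linarith), a2.trans xa, a3.trans xa, a4.trans xa,
        fun Z' p q => by linarith [a5 Z' p q]⟩
    · obtain ⟨a1, a2⟩ := R1 ε u G Z ε0 e2 h h'
      have := add_nonneg (norm_nonneg (bb G)) (en G Z)
      exact ⟨a1.trans (mul_le_mul_of_nonneg_right xb (by linarith)), fun p => (a2 p).trans
        (add_le_add_right (mul_le_mul_of_nonneg_right xb this) _)⟩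
    · obtain ⟨a1, a2, a3⟩ := R2 ε u G Z ε0 e3 h h' (hz.trans δ2) (hb.trans δ2)
      have := wk (r := κ * ε + C' * ε * ez ε G Z) θ0 θ4 (en G Z) (a3.trans_eq (add_assoc _ _ _))
      exact ⟨a1.trans (add_le_add_right (mul_le_mul_of_nonneg_right xc
        (add_nonneg (norm_nonneg _) (en G Z))) _), a2, by linarith⟩
  obtain ⟨ε₀, hε₀, hs⟩ := mem_nhdsGT_iff_exists_Ioc_subset.1 ev
  refine ⟨δ, c * θ / 64, 2 * θ⁻¹, ε₀, δ0, δ1, by positivity, by linarith, hε₀, fun ε ε0 e0 =>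
    ⟨St ε C M θ⁻¹, fun u G hG => ⟨fun hb h => ?_, fun h => ⟨h.2.2.1, ?_⟩,
      step K P (hs ⟨ε0, e0⟩) hG⟩⟩⟩
  · have D : Dat d n θ C c κ C' δ g M ε := hs ⟨ε0, e0⟩
    rw [← ez0] at h
    have a1 : 0 ≤ ez ε G 0 := Real.sqrt_nonneg _
    have a2 := norm_nonneg (HH G)
    have a3 := (K.bas d n).n_tl (HH G)
    have x0 : 0 ≤ C * ε := by positivity
    refine ⟨by linarith, by linarith, by linarith, 0, Or.inl rfl, by simp, by linarith, ?_⟩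
    rw [sub_zero]
    have b1 := mul_le_mul_of_nonneg_left (show ez ε G 0 ≤ 1 by linarith) x0
    have b2 : M * ε * (ε * ‖tl (HH G)‖) ≤ 1 / 8 * (1 * 1) :=
      mul_le_mul D.n4 (mul_le_mul (by linarith [le_mul_of_one_le_left ε0.le C1, D.n2])
        (by linarith) (norm_nonneg _) one_pos.le) (by positivity) (by norm_num)
    have b3 := mul_nonneg x0 (norm_nonneg (bb G))
    linarith [D.n2]
  · rw [← ez0]
    linarith [h.1, h.2.1]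

end Pool.Agent.MP_815c6c_an.N
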