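import Mathlib.Topology.Sheaves.Presheaf
import Mathlib.Tactic.Monotonicity.Lemmas
import Mathlib.Algebra.Order.Star.Real
import Pool.Agent.MP_815c6c_an.N.XSpec
import Mathlib.MeasureTheory.Function.Holder
import Mathlib.MeasureTheory.Function.L2Space
import Mathlib.Analysis.SpecialFunctions.Log.Base
import Mathlib.Topology.UniformSpace.Uniformizable

-- ======== part 0: formerly Pool.Agent.MP_815c6c_an.N.Mix
section MrgPart0

/-! Expansions of the nonlinearity near linear fields. -/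

set_option autoImplicit false

noncomputable section

namespace Pool.Agent.MP_815c6c_an.N

open Set Metric MeasureTheory Filter Topology
open scoped ContDiff RealInnerProductSpace ENNReal

namespace MixA

theorem small (a κ : ℝ) (ha : 0 ≤ a) (hκ : 0 < κ) : ∃ t : ℝ, 0 < t ∧ t ≤ 1 ∧ a * t ≤ κ := by
  refine ⟨min 1 (κ / (a + 1)), by positivity, min_le_left _ _, ?_⟩
  calc _ ≤ (a + 1) * (κ / (a + 1)) :=
        mul_le_mul (by linarith) (min_le_right _ _) (by positivity) (by positivity)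
    _ = κ := by field_simp

theorem opt {x a c L W : ℝ} (hc : 0 ≤ c) (hL : 0 ≤ L) (hW : 0 ≤ W)
    (h : ∀ t, 0 < t → x ≤ a + c * (L ^ 2 / t + t * W)) : x ≤ a + c * (L * (1 + W)) := by
  rcases hL.eq_or_lt with h0 | h0
  · subst h0
    refine le_of_forall_pos_le_add fun τ hτ => ?_
    obtain ⟨t, ht, -, h2⟩ := small (c * W) τ (by positivity) hτ
    have := h t ht
    simp only [ne_eq, OfNat.ofNat_ne_zero, not_false_eq_true, zero_pow, zero_div, zero_add,
      zero_mul, mul_zero, add_zero] at this ⊢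
    nlinarith
  · refine (h L h0).trans_eq ?_
    field_simp

theorem amgm (e w t : ℝ) (ht : 0 < t) : e * w ≤ e ^ 2 / t + t * w ^ 2 := by
  have h : e ^ 2 / t + t * w ^ 2 - e * w = ((e - t * w) ^ 2 + e ^ 2 + (t * w) ^ 2) / (2 * t) := by
    field_simp
    ring
  have : 0 ≤ ((e - t * w) ^ 2 + e ^ 2 + (t * w) ^ 2) / (2 * t) := by positivity
  linarith

theorem wsq (a : ℝ) (ha : 0 ≤ a) : (a ^ (-(1 / 4) : ℝ)) ^ 2 = a ^ (-(1 / 2) : ℝ) := by
  rw [← Real.rpow_natCast, ← Real.rpow_mul ha]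
  norm_num

variable {d n : ℕ}

/-- the volume of the unit ball -/
def vb (d : ℕ) : ℝ := volume.real (ball (0 : X d) 1)

theorem vb_nonneg : 0 ≤ vb d := measureReal_nonneg

theorem core {Ce a c R W ε : ℝ} (ex : Exc d n Ce) (F η : X d → Gr d n) (w u : X d → ℝ)
    (hε : 0 ≤ ε) (hη : Mp ε η) (hc : 0 ≤ c) (hR : 0 ≤ R) (hW : 0 ≤ W)
    (hw : IntegrableOn (fun x => w x ^ 2) (ball 0 1)) (hw2 : ∫ x in ball 0 1, w x ^ 2 ≤ W)
    (hu : IntegrableOn u (ball 0 1))
    (h : ∀ᵐ x ∂volume.restrict (ball 0 1),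
      ‖F x‖ ≤ a + c * (‖η x‖ * (R + ‖η x‖ + w x)) + u x) :
    L1 F ≤ a * vb d + c * ((R * Ce + 1 + W) * (L2 η + L2 η ^ 2)) + ∫ x in ball 0 1, u x := by
  obtain ⟨i1, i2, -⟩ := ex.ib ε η hε hη
  have i1' : IntegrableOn (fun x => ‖η x‖) (ball 0 1) := i1.norm
  have l1 : ∫ x in ball 0 1, ‖η x‖ ≤ Ce * L2 η := (ex.l1 ε η hε hη).1
  have hL : 0 ≤ L2 η := Real.sqrt_nonneg _
  have l2 : ∫ x in ball 0 1, ‖η x‖ ^ 2 = L2 η ^ 2 :=
    (Real.sq_sqrt (integral_nonneg fun _ => sq_nonneg _)).symm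
  have hCe := ex.pos
  have key : L1 F ≤ (a * vb d + c * (R * (Ce * L2 η) + L2 η ^ 2) + ∫ x in ball 0 1, u x) +
      c * (L2 η * (1 + W)) := by
    refine opt hc hL hW fun t ht => ?_
    have j0 : IntegrableOn (fun _ : X d => a) (ball 0 1) := integrableOn_const measure_ball_lt_top.ne
    have j1 := i1'.const_mul (c * R)
    have j2 := i2.const_mul (c + c / t)
    have j3 := hw.const_mul (c * t)
    have a1 : Integrable (fun x => a + c * R * ‖η x‖) (volume.restrict (ball 0 1)) := j0.add j1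
    have a2 : Integrable (fun x => a + c * R * ‖η x‖ + (c + c / t) * ‖η x‖ ^ 2)
      (volume.restrict (ball 0 1)) := a1.add j2
    have a3 : Integrable (fun x => a + c * R * ‖η x‖ + (c + c / t) * ‖η x‖ ^ 2 + c * t * w x ^ 2)
      (volume.restrict (ball 0 1)) := a2.add j3
    have hb : L1 F ≤ ∫ x in ball 0 1,
        (a + c * R * ‖η x‖ + (c + c / t) * ‖η x‖ ^ 2 + c * t * w x ^ 2 + u x) := by
      refine integral_mono_of_nonneg (Eventually.of_forall fun _ => norm_nonneg _) (a3.add hu) ?_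
      filter_upwards [h] with x hx
      have := mul_le_mul_of_nonneg_left (amgm ‖η x‖ (w x) t ht) hc
      have e : c / t * ‖η x‖ ^ 2 = c * (‖η x‖ ^ 2 / t) := by ring
      nlinarith
    rw [integral_add a3 hu, integral_add a2 j3, integral_add a1 j2, integral_add j0 j1,
      integral_const_mul, integral_const_mul, integral_const_mul, l2, setIntegral_const,
      smul_eq_mul] at hb
    have b1 := mul_le_mul_of_nonneg_left l1 (mul_nonneg hc hR)
    have b2 := mul_le_mul_of_nonneg_left hw2 (mul_nonneg hc ht.le)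
    have e : c / t * L2 η ^ 2 = c * (L2 η ^ 2 / t) := by ring
    unfold vb
    nlinarith
  have : 0 ≤ c * ((R * Ce + W) * L2 η ^ 2) := by
    have : 0 ≤ Ce := by linarith
    positivity
  nlinarith

theorem nap (ba : Bas d n) (H : He d n) {x : X d} (hx : x ∈ ball (0 : X d) 1) :
    ‖ap H x‖ ≤ ‖H‖ :=
  (ba.n_ap H x).trans (mul_le_of_le_one_right (norm_nonneg _) (mem_ball_zero_iff.1 hx).le)

/-- the pointwise bound -/
theorem pt {E : Type} [NormedAddCommGroup E] [InnerProductSpace ℝ E] {C₂ C₃ ε k δ b : ℝ}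
    (a2 : Al2 E C₂) (a3 : Al3 E C₃) (h z γ η : E) (hε : 0 < ε) (hε8 : ε ≤ 1 / 8) (hk : 0 < k)
    (hk1 : k ≤ 1) (hz : ‖z‖ ≤ 8) (hd : ‖h - z‖ ≤ δ) (hδ : δ ≤ k / 4) (hγ : ‖γ‖ ≤ b)
    (hb : b ≤ k / 4) (h0 : h ≠ 0) (z0 : z ≠ 0) :
    ‖T ε (h + γ + η) - T ε (z + γ) + ε • (el h - el z)‖ ≤
      (C₃ * ε * (b * δ / k) + C₃ * ε ^ 2 * √δ) +
      C₂ * ε * (‖η‖ * ((3 + (k / 2) ^ (-(1 / 4) : ℝ)) + ‖η‖ + ‖h‖ ^ (-(1 / 4) : ℝ))) +
      (if ‖z‖ ≤ k then C₂ * ε * b * (4 + ‖h‖ ^ (-(1 / 4) : ℝ) + ‖z‖ ^ (-(1 / 4) : ℝ)) else 0) := by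
  have p2 : 0 ≤ C₂ * ε := by have := a2.pos; positivity
  have p3 : 0 ≤ C₃ * ε := by have := a3.pos; positivity
  have hb0 : 0 ≤ b := (norm_nonneg _).trans hγ
  have hδ0 : 0 ≤ δ := (norm_nonneg _).trans hd
  have hh : ‖h‖ ≤ 9 := by
    have := norm_le_norm_add_norm_sub' h z
    linarith
  have t6 := (a3.t6 ε h z hε hε8 (by linarith) (by linarith)).trans
    (mul_le_mul_of_nonneg_left (Real.sqrt_le_sqrt hd) (by have := a3.pos; positivity))
  have wh : 0 ≤ ‖h‖ ^ (-(1 / 4) : ℝ) := by positivity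
  have wz : 0 ≤ ‖z‖ ^ (-(1 / 4) : ℝ) := by positivity
  have wk : 0 ≤ (k / 2) ^ (-(1 / 4) : ℝ) := by positivity
  have he := norm_nonneg η
  have hg := norm_nonneg γ
  split_ifs with hzk
  · have e : T ε (h + γ + η) - T ε (z + γ) + ε • (el h - el z) =
        (T ε (h + (γ + η)) - T ε h) - (T ε (z + γ) - T ε z) +
          ((T ε h + ε • el h) - (T ε z + ε • el z)) := by
      rw [← add_assoc, smul_sub]
      abel
    have s1 := a2.t2 ε h (γ + η) hε hε8 (by linarith) h0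
    have s2 := a2.t2 ε z γ hε hε8 (by linarith) z0
    have n1 : ‖γ + η‖ ≤ b + ‖η‖ := (norm_add_le _ _).trans (by linarith)
    have m1 : ‖γ + η‖ * (1 + ‖γ + η‖ + ‖h‖ ^ (-(1 / 4) : ℝ)) ≤
        (b + ‖η‖) * (1 + (b + ‖η‖) + ‖h‖ ^ (-(1 / 4) : ℝ)) := by gcongr
    have m2 : ‖γ‖ * (1 + ‖γ‖ + ‖z‖ ^ (-(1 / 4) : ℝ)) ≤ b * (1 + b + ‖z‖ ^ (-(1 / 4) : ℝ)) := by
      gcongr
    have m3 : (b + ‖η‖) * (1 + (b + ‖η‖) + ‖h‖ ^ (-(1 / 4) : ℝ)) +
        b * (1 + b + ‖z‖ ^ (-(1 / 4) : ℝ)) ≤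
        ‖η‖ * ((3 + (k / 2) ^ (-(1 / 4) : ℝ)) + ‖η‖ + ‖h‖ ^ (-(1 / 4) : ℝ)) +
          b * (4 + ‖h‖ ^ (-(1 / 4) : ℝ) + ‖z‖ ^ (-(1 / 4) : ℝ)) := by
      have q1 : b * ‖η‖ ≤ 1 * ‖η‖ := mul_le_mul_of_nonneg_right (by linarith) he
      have q2 : b * b ≤ 1 * b := mul_le_mul_of_nonneg_right (by linarith) hb0
      have q3 := mul_nonneg he wk
      nlinarith
    have m4 := mul_le_mul_of_nonneg_left ((add_le_add m1 m2).trans m3) p2
    have m5 : 0 ≤ C₃ * ε * (b * δ / k) := by positivity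
    rw [e]
    refine (norm_add_le _ _).trans ((add_le_add (norm_sub_le _ _) t6).trans ?_)
    nlinarith
  · have hzk' : k ≤ ‖z‖ := (not_le.1 hzk).le
    have e : T ε (h + γ + η) - T ε (z + γ) + ε • (el h - el z) =
        (T ε (h + γ + η) - T ε (h + γ)) +
          (T ε (z + γ + (h - z)) - T ε (z + γ) - T ε (z + (h - z)) + T ε z) +
          ((T ε h + ε • el h) - (T ε z + ε • el z)) := by
      rw [show z + γ + (h - z) = h + γ by abel, show z + (h - z) = h by abel, smul_sub]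
      abel
    have lo : k / 2 ≤ ‖h + γ‖ := by
      have q : ‖z‖ ≤ ‖h + γ‖ + ‖h - z‖ + ‖γ‖ := by
        calc ‖z‖ = ‖h + γ - (h - z) - γ‖ := by rw [show h + γ - (h - z) - γ = z by abel]
          _ ≤ _ := (norm_sub_le _ _).trans (add_le_add (norm_sub_le _ _) le_rfl)
      linarith
    have s1 := a2.t2 ε (h + γ) η hε hε8 ((norm_add_le _ _).trans (by linarith))
      (norm_pos_iff.1 (by linarith))
    have s2 := a3.t5 ε k z γ (h - z) hε hε8 hk hk1 hzk' (by linarith) (by linarith) (by linarith)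
    have w1 : ‖h + γ‖ ^ (-(1 / 4) : ℝ) ≤ (k / 2) ^ (-(1 / 4) : ℝ) :=
      Real.rpow_le_rpow_of_nonpos (by positivity) lo (by norm_num)
    have m1 : ‖η‖ * (1 + ‖η‖ + ‖h + γ‖ ^ (-(1 / 4) : ℝ)) ≤
        ‖η‖ * ((3 + (k / 2) ^ (-(1 / 4) : ℝ)) + ‖η‖ + ‖h‖ ^ (-(1 / 4) : ℝ)) :=
      mul_le_mul_of_nonneg_left (by linarith) he
    have m2 : ‖γ‖ * ‖h - z‖ / k ≤ b * δ / k := by gcongr
    have m3 := mul_le_mul_of_nonneg_left m1 p2
    have m4 := mul_le_mul_of_nonneg_left m2 p3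
    rw [e]
    refine (norm_add_le _ _).trans ((add_le_add (norm_add_le _ _) t6).trans ?_)
    linarith

end MixA

open MixA in
theorem mix (K : Kit) (wg : WgtS) : MixS := by
  intro d n
  have ba := K.bas d n
  obtain ⟨Ce, ex⟩ := K.exc d n
  obtain ⟨C₂, a2⟩ := K.al2 (Gr d n)
  obtain ⟨C₃, a3⟩ := K.al3 (Gr d n)
  obtain ⟨W, hW, wg⟩ := wg d n
  have p2 := a2.pos
  have p3 := a3.pos
  have pe := ex.pos
  have pv : 0 ≤ vb d := vb_nonneg
  have wt : ∀ H : He d n, 1 / 8 ≤ ‖H‖ →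
      IntegrableOn (fun x => (‖ap H x‖ ^ (-(1 / 4) : ℝ)) ^ 2) (ball 0 1) ∧
      ∫ x in ball 0 1, (‖ap H x‖ ^ (-(1 / 4) : ℝ)) ^ 2 ≤ W := fun H hH => by
    simp only [wsq _ (norm_nonneg _)]
    exact ⟨(wg H hH).2.1, (wg H hH).2.2.1⟩
  refine ⟨C₂ * (Ce + 1 + W) + 4 * C₃ * vb d, by positivity, fun ε H η hε hε8 h1 h2 hη => ?_,
    fun B κ hB hκ => ?_⟩
  · have hL : 0 ≤ L2 η := Real.sqrt_nonneg _
    have pt1 : ∀ᵐ x ∂volume.restrict (ball 0 1), ‖ap H x‖ ≤ 16 ∧ ‖T ε (ap H x + η x) - T ε (ap H x)‖ ≤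
        C₂ * ε * (‖η x‖ * (1 + ‖η x‖ + ‖ap H x‖ ^ (-(1 / 4) : ℝ))) := by
      filter_upwards [ae_restrict_of_ae (wg H h1).1, ae_restrict_mem measurableSet_ball] with x a b
      have := (nap ba H b).trans h2
      exact ⟨this, a2.t2 ε _ _ hε hε8 (by linarith) a⟩
    have q1 : 0 ≤ 4 * C₃ * vb d * ε * (L2 η + L2 η ^ 2) := by positivity
    have q2 : 0 ≤ C₂ * (Ce + 1 + W) * ε * ε := by positivity
    constructor
    · have := core (a := 0) ex (fun x => T ε (ap H x + η x) - T ε (ap H x)) η _ (fun _ => 0) hε.le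
        hη (by positivity : 0 ≤ C₂ * ε) zero_le_one hW (wt H h1).1 (wt H h1).2 integrableOn_zero
        (pt1.mono fun x hx => by simpa only [zero_add, add_zero] using hx.2)
      rw [integral_zero] at this
      nlinarith
    · have := core (a := 4 * C₃ * ε ^ 2) ex (fun x => T ε (ap H x + η x) + ε • el (ap H x)) η _
        (fun _ => 0) hε.le hη (by positivity : 0 ≤ C₂ * ε) zero_le_one hW (wt H h1).1 (wt H h1).2
        integrableOn_zero (pt1.mono fun x hx => by
          have t6 := a3.t6 ε (ap H x) 0 hε hε8 (by linarith [hx.1]) (by simp)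
          have z : T ε (0 : Gr d n) + ε • el (0 : Gr d n) = 0 := by simp [T, A, el]
          rw [z, sub_zero, sub_zero] at t6
          have s4 : √‖ap H x‖ ≤ 4 := Real.sqrt_le_iff.2 ⟨by norm_num, by linarith [hx.1]⟩
          have s5 := mul_le_mul_of_nonneg_left s4 (by positivity : 0 ≤ C₃ * ε ^ 2)
          have e : T ε (ap H x + η x) + ε • el (ap H x) = (T ε (ap H x + η x) - T ε (ap H x)) +
              (T ε (ap H x) + ε • el (ap H x)) := by abel
          rw [e]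
          refine (norm_add_le _ _).trans ?_
          linarith [hx.2])
      rw [integral_zero] at this
      nlinarith
  · obtain ⟨t, ht, -, ht2⟩ := small (C₂ * B * (2 * W)) (κ / 4) (by positivity) (by positivity)
    obtain ⟨r, hr, hr1, hr2⟩ := small (C₂ * B * ((4 + 2 / t) * W)) (κ / 4) (by positivity)
      (by positivity)
    have hk : 0 < r ^ 2 := by positivity
    have hk1 : r ^ 2 ≤ 1 := pow_le_one₀ hr.le hr1
    obtain ⟨q, hq, hq1, hq2⟩ := small (C₃ * (B / r ^ 2 + 1) * vb d) (κ / 2) (by positivity)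
      (by positivity)
    obtain ⟨δ, hδ, d1, d2, d3⟩ : ∃ δ : ℝ, 0 < δ ∧ δ ≤ q ^ 2 ∧ δ ≤ 1 / 8 ∧
        (B + 1) * δ ≤ r ^ 2 / 4 := by
      obtain ⟨s, hs, -, hs2⟩ := small (B + 1) (r ^ 2 / 4) (by positivity) (by positivity)
      exact ⟨min (min (q ^ 2) (1 / 8)) s, by positivity, (min_le_left _ _).trans (min_le_left _ _),
        (min_le_left _ _).trans (min_le_right _ _),
        (mul_le_mul_of_nonneg_left (min_le_right _ _) (by positivity)).trans hs2⟩
    refine ⟨C₂ * ((3 + (r ^ 2 / 2) ^ (-(1 / 4) : ℝ)) * Ce + 1 + W), δ, by positivity, hδ,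
      fun ε Z H γ η hε hεδ hε8 z1 z2 hHZ _ hγ hη => ?_⟩
    have hH : 1 / 8 ≤ ‖H‖ := by
      have := norm_le_norm_add_norm_sub H Z
      linarith
    have hZ : 1 / 8 ≤ ‖Z‖ := by linarith
    set S : Set (X d) := {x | x ∈ ball (0 : X d) 1 ∧ ‖ap Z x‖ ≤ r ^ 2} with hS
    have mS : MeasurableSet S := measurableSet_ball.inter
      (isClosed_le (ap Z).continuous.norm continuous_const).measurableSet
    have i0 : IntegrableOn (fun x => (4 + 2 / t) * S.indicator (1 : X d → ℝ) x) (ball 0 1) :=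
      ((integrableOn_const (C := (1 : ℝ)) measure_ball_lt_top.ne).indicator mS).const_mul _
    have i1 := (wt H hH).1.const_mul t
    have i2 := (wt Z hZ).1.const_mul t
    have i3 : Integrable (fun x => (4 + 2 / t) * S.indicator (1 : X d → ℝ) x +
      t * (‖ap H x‖ ^ (-(1 / 4) : ℝ)) ^ 2) (volume.restrict (ball 0 1)) := i0.add i1
    have i4 : Integrable (fun x => (4 + 2 / t) * S.indicator (1 : X d → ℝ) x +
      t * (‖ap H x‖ ^ (-(1 / 4) : ℝ)) ^ 2 + t * (‖ap Z x‖ ^ (-(1 / 4) : ℝ)) ^ 2)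
      (volume.restrict (ball 0 1)) := i3.add i2
    have pB : 0 ≤ C₂ * ε * (B * ε) := by positivity
    have hBε : B * ε ≤ B * δ := mul_le_mul_of_nonneg_left hεδ hB
    have hBδ : 0 ≤ B * δ := by positivity
    have := core (a := C₃ * ε * (B * ε * δ / r ^ 2) + C₃ * ε ^ 2 * √δ) ex
      (fun x => T ε (ap H x + γ x + η x) - T ε (ap Z x + γ x) + ε • (el (ap H x) - el (ap Z x))) η _
      _ hε.le hη (by positivity : 0 ≤ C₂ * ε)
      (by positivity : 0 ≤ 3 + (r ^ 2 / 2) ^ (-(1 / 4) : ℝ)) hW (wt H hH).1 (wt H hH).2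
      (i4.const_mul (C₂ * ε * (B * ε))) (by
        filter_upwards [ae_restrict_of_ae (wg H hH).1, ae_restrict_of_ae (wg Z hZ).1,
          ae_restrict_mem measurableSet_ball] with x a b c
        refine (pt a2 a3 (ap H x) (ap Z x) (γ x) (η x) hε hε8 hk hk1 ((nap ba Z c).trans z2)
          (δ := δ) (b := B * ε) ?_ (by linarith) (hγ x c) (by linarith) a b).trans
          (add_le_add le_rfl ?_)
        · rw [← sub_apply, ← map_sub]
          exact (nap ba _ c).trans hHZ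
        · split_ifs with hx
          · refine mul_le_mul_of_nonneg_left ?_ pB
            rw [indicator_of_mem (show x ∈ S from ⟨c, hx⟩)]
            have u1 := amgm 1 (‖ap H x‖ ^ (-(1 / 4) : ℝ)) t ht
            have u2 := amgm 1 (‖ap Z x‖ ^ (-(1 / 4) : ℝ)) t ht
            have e : 2 / t = 1 ^ 2 / t + 1 ^ 2 / t := by ring
            simp only [Pi.one_apply]
            linarith
          · have : 0 ≤ S.indicator (1 : X d → ℝ) x := indicator_nonneg (fun _ _ => zero_le_one) x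
            positivity)
    rw [integral_const_mul, integral_add i3 i2, integral_add i0 i1, integral_const_mul,
      integral_const_mul, integral_const_mul, integral_indicator_one mS,
      measureReal_restrict_apply mS, inter_eq_left.2 (show S ⊆ ball 0 1 from fun x hx => hx.1)]
      at this
    have v1 : volume.real S ≤ W * r := by
      have := (wg Z hZ).2.2.2 (r ^ 2) hk
      rwa [Real.sqrt_sq hr.le] at this
    have v2 := mul_le_mul_of_nonneg_left v1 (by positivity : 0 ≤ 4 + 2 / t)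
    have v3 := mul_le_mul_of_nonneg_left (wt H hH).2 ht.le
    have v4 := mul_le_mul_of_nonneg_left (wt Z hZ).2 ht.le
    have v5 := mul_le_mul_of_nonneg_left ((add_le_add (add_le_add v2 v3) v4)) pB
    have w1 : √δ ≤ q := Real.sqrt_le_iff.2 ⟨hq.le, d1⟩
    have w2 : δ ≤ q := d1.trans (by nlinarith)
    have w3 : (C₃ * ε * (B * ε * δ / r ^ 2) + C₃ * ε ^ 2 * √δ) * vb d ≤
        (C₃ * ε * (B * ε * q / r ^ 2) + C₃ * ε ^ 2 * q) * vb d := by gcongr
    have w4 : (C₃ * ε * (B * ε * q / r ^ 2) + C₃ * ε ^ 2 * q) * vb d =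
        C₃ * (B / r ^ 2 + 1) * vb d * q * ε ^ 2 := by ring
    have w5 : C₂ * ε * (B * ε) * ((4 + 2 / t) * (W * r) + t * W + t * W) =
        (C₂ * B * ((4 + 2 / t) * W) * r + C₂ * B * (2 * W) * t) * ε ^ 2 := by ring
    have w6 := mul_le_mul_of_nonneg_right hq2 (sq_nonneg ε)
    have w7 := mul_le_mul_of_nonneg_right (add_le_add hr2 ht2) (sq_nonneg ε)
    have w8 : C₂ * ε * (((3 + (r ^ 2 / 2) ^ (-(1 / 4) : ℝ)) * Ce + 1 + W) * (L2 η + L2 η ^ 2)) =
        C₂ * ((3 + (r ^ 2 / 2) ^ (-(1 / 4) : ℝ)) * Ce + 1 + W) * ε * (L2 η + L2 η ^ 2) := by ring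
    linarith

end Pool.Agent.MP_815c6c_an.N

end
end MrgPart0

-- ======== part 1: formerly Pool.Agent.MP_815c6c_an.N.Stn
section MrgPart1

/-! The step in the nondegenerate regime. -/

set_option autoImplicit false

noncomputable section

namespace Pool.Agent.MP_815c6c_an.N

open Set Metric MeasureTheory Filter Topology
open scoped ContDiff RealInnerProductSpace ENNReal

namespace StnA

variable {d n : ℕ}

theorem exH (M : X d →L[ℝ] Gr d n) : ∃ H : He d n, ∀ x, ap H x = M x := by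
  refine ⟨WithLp.toLp 2 fun k => M (EuclideanSpace.single k.2.2 1) (k.1, k.2.1), fun x => ?_⟩
  ext k
  conv_rhs => rw [← (EuclideanSpace.basisFun (Fin d) ℝ).sum_repr x]
  simp [ap_apply, map_sum, mul_comm]

theorem int_ts {E : Type} [NormedAddCommGroup E] {f : X d → E} (hc : Continuous f) {r : ℝ}
    (h : ∀ x, r ≤ ‖x‖ → f x = 0) : Integrable f :=
  hc.integrable_of_hasCompactSupport (HasCompactSupport.intro (isCompact_closedBall 0 r)
    fun x hx => h x (by simpa using (not_le.1 (mt mem_closedBall_zero_iff.2 hx)).le))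

theorem cg (ke : Ker d n) : Continuous (gradient (kk : X d → ℝ)) :=
  (InnerProductSpace.toDual ℝ (X d)).symm.continuous.comp (ke.sm.continuous_fderiv (by simp))

theorem int_tens (ke : Ker d n) {w : X d → Gr d n} (hw : Ib w) :
    Integrable fun x => tens (w x) (gradient kk x) := by
  obtain ⟨c, hc⟩ := (isCompact_closedBall (0 : X d) 1).exists_bound_of_continuousOn
    (cg ke).continuousOn
  refine IntegrableOn.integrable_of_forall_notMem_eq_zero (s := ball 0 1)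
    (tens.integrable_of_bilin_of_bdd_right c hw (cg ke).aestronglyMeasurable
      (ae_restrict_of_forall_mem measurableSet_ball fun x hx => hc x (ball_subset_closedBall hx)))
    fun x hx => ?_
  rw [(ke.zero x (by have := not_lt.1 (mt mem_ball_zero_iff.2 hx); linarith)).2, map_zero]

theorem ts_k (ke : Ker d n) (y : X n) : Ts fun x : X d => kk x • y :=
  ⟨(ke.sm.of_le (by simp)).smul contDiff_const, 1 / 2, by norm_num, fun x hx => by
    simp only [(ke.zero x hx).1, zero_smul]⟩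

theorem pa_k (ba : Bas d n) (ke : Ker d n) {w : X d → Gr d n} (hw : Ib w) (y : X n) :
    pa w (fun x => kk x • y) = -⟪y, trc (HH w)⟫ := by
  have e : ∀ x : X d, Dm (fun x => kk x • y) x = out y (gradient kk x) := fun x => by
    rw [ba.D_smul kk (fun _ => y) x (ke.sm.differentiable (by simp) x) (differentiableAt_const _)]
    simp [Dm]
  rw [pa, HH, map_neg, inner_neg_right, neg_neg, ← trc.integral_comp_comm (int_tens ke hw),
    ← integral_inner (trc.integrable_comp (int_tens ke hw))]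
  simp only [e, ba.i_out, ba.trc_tens, real_inner_comm]

theorem l1_le {ε a c C : ℝ} (ex : Exc d n C) {z w : X d → Gr d n} (hε : 0 ≤ ε) (hz : Mp ε z)
    (hc : 0 ≤ c) (h : ∀ x ∈ ball (0 : X d) 1, ‖w x‖ ≤ c * (a + ‖z x‖ + 2 * ‖z x‖ ^ 2)) :
    L1 w ≤ c * (a * volume.real (ball (0 : X d) 1) + C * exc ε z + 2 * exc ε z ^ 2) := by
  obtain ⟨i1, i2, -⟩ := ex.ib ε z hε hz
  obtain ⟨l1, l2⟩ := ex.l1 ε z hε hz
  have i0 : IntegrableOn (fun _ => a) (ball (0 : X d) 1) := integrableOn_const measure_ball_ne_top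
  have i3 : IntegrableOn (fun x => a + ‖z x‖) (ball (0 : X d) 1) := i0.add i1.norm
  have := integral_mono_of_nonneg (Eventually.of_forall fun x => norm_nonneg (w x))
    ((i3.add (i2.const_mul 2)).const_mul c) (ae_restrict_of_forall_mem measurableSet_ball h)
  refine this.trans ?_
  simp only [Pi.add_apply]
  rw [integral_const_mul, integral_add i3 (i2.const_mul 2), integral_add i0 i1.norm,
    integral_const_mul, setIntegral_const, smul_eq_mul, mul_comm _ a]
  have e : ∫ x in ball (0 : X d) 1, ‖z x‖ ^ 2 = L2 z ^ 2 :=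
    (Real.sq_sqrt (integral_nonneg fun _ => sq_nonneg _)).symm
  have p : 0 ≤ L2 z := Real.sqrt_nonneg _
  have := ex.pos
  rw [e]
  gcongr
  exact l1.trans (by gcongr)

theorem add' (ke : Ker d n) {z w : X d → Gr d n} (hz : Ib z) (hw : Ib w) :
    bb (fun x => z x + w x) = bb z + bb w ∧ HH (fun x => z x + w x) = HH z + HH w :=
  ⟨by simpa using ke.bb_add z w 1 1 hz hw, by simpa using ke.HH_add z w 1 1 hz hw⟩

/-- the residual and the nonlinear error -/
theorem lin (k : Kit) : ∃ C : ℝ, 0 ≤ C ∧ ∀ (ε L : ℝ) (u : X d → X n) (G : X d → Gr d n), 0 < ε →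
    ε ≤ 1 / 8 → Sol ε u G → 1 / 2 ≤ ‖bb G‖ → ‖bb G‖ ≤ 2 → ‖HH G‖ + exc ε (pr G) ≤ L →
    Res ε (C * (ε * (exc ε (pr G) + L ^ 2))) (fun x => bb G + ap (HH G) x) ∧
    L1 (fun x => T ε (G x) - T ε (bb G + ap (HH G) x)) ≤ C * (ε * (exc ε (pr G) + L ^ 2)) := by
  have ba := k.bas d n
  have pp := k.par d n
  have ke := k.ker d n
  have a1 := k.al1 (Gr d n)
  obtain ⟨Ce, ex⟩ := k.exc d n
  obtain ⟨Ca, al⟩ := k.al2 (Gr d n)
  obtain ⟨Cb, hCb, hb⟩ := ke.bd
  have hCe := ex.pos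
  have hCa := al.pos
  obtain ⟨V, hV⟩ : ∃ V, V = volume.real (ball (0 : X d) 1) := ⟨_, rfl⟩
  have V0 : 0 ≤ V := hV ▸ measureReal_nonneg
  refine ⟨(d * Cb + 1) * (Ca * (3 * V + Ce + 2)), by positivity, ?_⟩
  intro ε L u G h0 h8 sol b1 b2 hL
  obtain ⟨D, hD, hR⟩ := al.t4 ε (bb G) h0 h8 b1 b2
  have mz := ex.mp_pr ε G sol.mG
  have iz := (ex.ib ε _ h0.le mz).1
  have hz0 := (ke.pr_zero G (ex.ib ε _ h0.le sol.mG).1).2
  obtain ⟨iA, iT⟩ := ex.ib_A ε G h0.le sol.mG
  have hG : ∀ x, G x = bb G + (ap (HH G) x + pr G x) := fun x => by simp [pr]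
  generalize bb G = b at *
  generalize HH G = H at *
  generalize pr G = z at *
  have e0 : 0 ≤ exc ε z := Real.sqrt_nonneg _
  have n0 := norm_nonneg H
  have hx : ∀ x ∈ ball (0 : X d) 1, ‖ap H x‖ ≤ L := fun x hx =>
    (ba.n_ap H x).trans (by have := mem_ball_zero_iff.1 hx; nlinarith)
  have r3 : ∀ x ∈ ball (0 : X d) 1, ‖T ε (b + ap H x) - (T ε b + D (ap H x))‖ ≤ Ca * ε * L ^ 2 :=
    fun x h => by
      rw [← sub_sub]
      exact (hR _).trans (by have := hx x h; gcongr)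
  have r2 : ∀ x ∈ ball (0 : X d) 1, ‖T ε (G x) - (T ε b + D (ap H x))‖ ≤
      Ca * ε * (2 * L ^ 2 + ‖z x‖ + 2 * ‖z x‖ ^ 2) := fun x h => by
    have h1 := hR (ap H x + z x)
    have h2 : ‖D (z x)‖ ≤ Ca * ε * ‖z x‖ := (D.le_opNorm _).trans (by gcongr)
    have h3 : ‖ap H x + z x‖ ^ 2 ≤ 2 * L ^ 2 + 2 * ‖z x‖ ^ 2 := by
      have := (norm_add_le (ap H x) (z x)).trans (add_le_add_left (hx x h) _)
      nlinarith [norm_nonneg (ap H x + z x), sq_nonneg (L - ‖z x‖)]
    rw [hG, show T ε (b + (ap H x + z x)) - (T ε b + D (ap H x)) =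
      (T ε (b + (ap H x + z x)) - T ε b - D (ap H x + z x)) + D (z x) by rw [map_add]; abel]
    have := mul_le_mul_of_nonneg_left h3 (show 0 ≤ Ca * ε by positivity)
    linarith [norm_add_le (T ε (b + (ap H x + z x)) - T ε b - D (ap H x + z x)) (D (z x))]
  obtain ⟨Y, hY⟩ : ∃ Y, Y = ε * (exc ε z + L ^ 2) := ⟨_, rfl⟩
  have Y0 : 0 ≤ Y := by rw [hY]; positivity
  have fin : ∀ w : X d → Gr d n, (∀ x ∈ ball (0 : X d) 1,
      ‖w x‖ ≤ Ca * ε * (3 * L ^ 2 + ‖z x‖ + 2 * ‖z x‖ ^ 2)) →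
      L1 w ≤ Ca * (3 * V + Ce + 2) * Y := fun w hw => by
    refine (l1_le ex h0.le mz (by positivity) hw).trans ?_
    rw [← hV, hY, show Ca * (3 * V + Ce + 2) * (ε * (exc ε z + L ^ 2)) =
      Ca * ε * ((3 * V + Ce + 2) * (exc ε z + L ^ 2)) by ring]
    have : exc ε z ^ 2 ≤ L ^ 2 := by gcongr; linarith
    gcongr
    nlinarith [mul_nonneg V0 e0, sq_nonneg L]
  rw [← hY]
  have p1 : 0 ≤ Ca * ε * L ^ 2 := by positivity
  refine ⟨fun φ hφ => ?_, (fin _ fun x h => ?_).trans ?_⟩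
  · obtain ⟨M, hM⟩ := exH (ap H - D.comp (ap H))
    have cl : Continuous fun x => T ε b + D (ap H x) := by fun_prop
    have ca : Continuous fun x => (b - T ε b) + ap M x := by fun_prop
    have i2 : Ib fun x => T ε (G x) - (T ε b + D (ap H x)) := iT.sub (pp.ib_c _ cl)
    have t0 : trc (HH fun x => A ε (G x)) = 0 := by
      have := sol.eq _ (ts_k ke (trc (HH fun x => A ε (G x))))
      rwa [pa_k ba ke iA, neg_eq_zero, inner_self_eq_zero] at this
    have e1 := (add' ke iA i2).2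
    rw [show (fun x => A ε (G x) + (T ε (G x) - (T ε b + D (ap H x)))) =
      fun x => ((b - T ε b) + ap M x) + z x from funext fun x => by
        rw [hM, T, hG x]; simp only [sub_apply,
          ContinuousLinearMap.comp_apply]; abel,
      (add' ke (pp.ib_c _ ca) iz).2, ke.HH_aff, hz0, add_zero] at e1
    have t1 : ‖trc M‖ ≤ d * Cb * (Ca * (3 * V + Ce + 2)) * Y := by
      rw [e1, map_add, t0, zero_add]
      refine (ba.n_trc _).trans ?_
      rw [mul_assoc, mul_assoc]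
      gcongr
      refine (hb _ i2).2.trans (mul_le_mul_of_nonneg_left (fin _ fun x h => ?_) hCb)
      linarith [r2 x h]
    have c3 : Continuous fun x => T ε (b + ap H x) - (T ε b + D (ap H x)) := by
      have := a1.cont ε h0.le
      unfold T
      fun_prop
    have e2 := pp.add _ _ 1 (-1) φ (pp.ib_c _ ca) (pp.ib_c _ c3) hφ
    rw [show (fun x => (1 : ℝ) • ((b - T ε b) + ap M x) +
      (-1 : ℝ) • (T ε (b + ap H x) - (T ε b + D (ap H x)))) = fun x => A ε (b + ap H x) from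
        funext fun x => by
          rw [hM, T, T]; simp only [sub_apply,
            ContinuousLinearMap.comp_apply, one_smul, neg_smul]; abel, pp.aff _ _ _ hφ] at e2
    have s3 := pp.sup _ φ _ (pp.ib_c _ c3) hφ r3
    obtain ⟨r, -, hr⟩ := ba.ts_Dm φ hφ
    have j1 := (int_ts hφ.1.continuous fun x h => (hr x h).1).norm
    have j2 := (int_ts (ba.c_Dm φ hφ.1) fun x h => (hr x h).2).norm
    have s4 : |∫ x, ⟪trc M, φ x⟫| ≤ ‖trc M‖ * ∫ x, ‖φ x‖ := by
      rw [← integral_const_mul, ← Real.norm_eq_abs]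
      exact norm_integral_le_of_norm_le (j1.const_mul _)
        (Eventually.of_forall fun x => norm_inner_le_norm _ _)
    have q1 : 0 ≤ ∫ x, ‖φ x‖ := integral_nonneg fun _ => norm_nonneg _
    have q2 : 0 ≤ ∫ x, ‖Dm φ x‖ := integral_nonneg fun _ => norm_nonneg _
    have q3 : Ca * ε * L ^ 2 ≤ Ca * (3 * V + Ce + 2) * Y := by
      rw [mul_assoc, mul_assoc]
      refine mul_le_mul_of_nonneg_left ?_ (by positivity)
      have : ε * L ^ 2 ≤ Y := by rw [hY]; nlinarith [mul_nonneg h0.le e0]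
      nlinarith [mul_nonneg V0 Y0]
    have q4 : 0 ≤ d * Cb * (Ca * (3 * V + Ce + 2)) * Y := by positivity
    have q5 : 0 ≤ Ca * (3 * V + Ce + 2) * Y := by positivity
    rw [e2, integral_add j2 j1, add_mul, add_mul, one_mul, one_mul, neg_one_mul]
    refine (abs_add_le _ _).trans ?_
    rw [abs_neg, abs_neg]
    nlinarith [mul_le_mul_of_nonneg_right t1 q1, mul_le_mul_of_nonneg_right q3 q2,
      mul_nonneg q4 q2, mul_nonneg q5 q1]
  · have := norm_sub_le (T ε (G x) - (T ε b + D (ap H x)))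
      (T ε (b + ap H x) - (T ε b + D (ap H x)))
    rw [sub_sub_sub_cancel_right] at this
    linarith [r2 x h, r3 x h]
  · have : (0 : ℝ) ≤ d * Cb * (Ca * (3 * V + Ce + 2) * Y) := by positivity
    linarith

end StnA

open StnA in
theorem stn : Kit → EvS → DecS → ∀ d n, StnS d n := by
  intro k ev dec d n
  have ba := k.bas d n
  have pp := k.par d n
  have ke := k.ker d n
  have a1 := k.al1 (Gr d n)
  obtain ⟨Ce, ex⟩ := k.exc d n
  obtain ⟨C₀, hC₀, hdec⟩ := dec d n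
  obtain ⟨C₁, hC₁, hl⟩ := lin (d := d) (n := n) k
  refine ⟨min (1 / 8) (1 / (4 * (C₀ + 1))), by positivity, fun θ h0 h1 => ?_⟩
  obtain ⟨h1, h2⟩ := le_min_iff.1 h1
  obtain ⟨Cd, hCd, hd⟩ := hdec θ h0 h1
  obtain ⟨f, Cv, -, hCv, -, -, hv⟩ := ev d n θ h0 (by linarith)
  refine ⟨(Cv + 1) * (Cd * (2 * C₁ + 16)), by positivity, fun K hK => ?_⟩
  have k2 : 1 < K + 2 := by linarith
  refine ⟨min (min (1 / 8) (Real.logb (K + 2) 2)) (1 / (Cd * (2 * C₁) * (K + K ^ 2) + 1)),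
    lt_min (lt_min (by norm_num) (Real.logb_pos k2 one_lt_two)) (by positivity), ?_⟩
  intro ε L u G e0 e1 sol b1 b2 hL hLK
  obtain ⟨e1, e3⟩ := le_min_iff.1 e1
  obtain ⟨e1, e2⟩ := le_min_iff.1 e1
  obtain ⟨res, l1⟩ := hl ε L u G e0 e1 sol b1 b2 hL
  have iu := (ex.ib ε _ e0.le sol.mu).1
  have iG := (ex.ib ε _ e0.le sol.mG).1
  have sy := ke.sy u G iu iG sol.wg
  have mz := ex.mp_pr ε G sol.mG
  obtain ⟨z1, z2⟩ := ke.pr_zero G iG
  have hG : ∀ x, G x = bb G + ap (HH G) x + pr G x := fun x => by simp [pr]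
  generalize bb G = b at *
  generalize HH G = H at *
  generalize pr G = z at *
  have x0 : 0 ≤ exc ε z := Real.sqrt_nonneg _
  have n0 := norm_nonneg H
  obtain ⟨Y, hY⟩ : ∃ Y, Y = ε * (exc ε z + L ^ 2) := ⟨_, rfl⟩
  have Y0 : 0 ≤ Y := by rw [hY]; positivity
  rw [← hY] at res l1 ⊢
  have cq := ba.c_qf H
  have cP : ContDiff ℝ 1 fun x => act b x + (1 / 2 : ℝ) • qf H x :=
    (act b).contDiff.add ((cq.of_le (by simp)).const_smul _)
  have hP : Dm (fun x => act b x + (1 / 2 : ℝ) • qf H x) = fun x => b + ap H x := by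
    funext x
    have dq := cq.differentiable (by simp)
    have := ba.D_sh (qf H) 0 1 (1 / 2) x (dq _)
    simp only [one_smul, zero_add, mul_one] at this
    rw [ba.D_add (fun y => act b y) (fun y => (1 / 2 : ℝ) • qf H y) x (act b).differentiableAt
      ((dq x).const_smul (1 / 2 : ℝ)), ba.D_act, this,
      ba.D_qf H sy, smul_smul]
    norm_num
  have hz : (fun x => G x - (b + ap H x)) = z := funext fun x => by rw [hG x]; abel
  have hx : ∀ x ∈ ball (0 : X d) 1, ‖ap H x‖ ≤ ‖H‖ := fun x hx =>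
    (ba.n_ap H x).trans (by have := mem_ball_zero_iff.1 hx; nlinarith)
  have wt : Wt ε (16 * Y) fun x => b + ap H x := fun x h w => by
    by_cases c : ‖H‖ ≤ 1 / 4
    · refine (a1.wt0 ε _ w e0 (by linarith) ?_).trans (le_add_of_nonneg_right (sq_nonneg _))
      have := norm_sub_le (b + ap H x) (ap H x)
      rw [add_sub_cancel_right] at this
      linarith [hx x h]
    · refine (a1.wt ε (b + ap H x) w e0 (by linarith)).trans (add_le_add le_rfl ?_)
      have l4 : 1 / 4 ≤ L := by linarith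
      have l5 : 1 / 16 ≤ L ^ 2 := by nlinarith
      have l6 : ε ^ 3 ≤ ε := pow_le_of_le_one e0.le (by linarith) (by norm_num)
      refine pow_le_pow_left₀ (by positivity) (l6.trans ?_) 2
      rw [hY]
      nlinarith [mul_nonneg e0.le x0, mul_le_mul_of_nonneg_left l5 e0.le]
  have hs : Cd * (C₁ * Y + C₁ * Y) ≤ K + 2 := by
    have : Y ≤ ε * (K + K ^ 2) := by
      rw [hY]
      gcongr
      · linarith
      · linarith
    rw [le_div_iff₀ (by positivity)] at e3
    nlinarith [mul_le_mul_of_nonneg_left this (show 0 ≤ Cd * (2 * C₁) by positivity)]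
  have := hd ε (K + 2) (C₁ * Y) (16 * Y) (C₁ * Y) u _ G e0 (by linarith)
    ((Real.rpow_le_rpow_of_exponent_le k2.le e2).trans_eq
      (Real.rpow_logb (by linarith) k2.ne' two_pos)) (by positivity) (by positivity) sol cP
  rw [hP] at this
  simp only [hz] at this
  obtain ⟨ah, dc⟩ := this (fun x h => (norm_add_le _ _).trans (by linarith [hx x h])) res wt z1 z2
    l1 hs (by linarith)
  have wg := pp.wg_add _ _ _ _ 1 (-1) iu (pp.ib_c _ cP.continuous) iG
    (pp.ib_c _ (ba.c_Dm _ cP)) sol.wg (pp.wg_c1 _ cP)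
  rw [hP] at wg
  simp only [one_smul, neg_smul, ← sub_eq_add_neg, hz] at wg
  obtain ⟨v1, v2, -⟩ := (hv _ z (iu.sub (pp.ib_c _ cP.continuous)) (ex.ib ε _ e0.le mz).1 wg).2 _
    (by positivity) ah
  have is : Ib (sc θ z) := by
    have := (ex.ib ε _ e0.le (ex.mp_sh ε z 0 θ h0 (by simp; linarith) mz)).1
    rwa [show sh 0 θ z = sc θ z from funext fun x => by rw [sh, sc, zero_add]] at this
  have hs : sc θ G = fun x => (b + ap (θ • H) x) + sc θ z x := funext fun x => by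
    simp only [sc, hG (θ • x), map_smul, smul_apply]
  obtain ⟨s1, s2⟩ := add' ke (pp.ib_c (fun x => b + ap (θ • H) x) (by fun_prop)) is
  rw [← hs] at s1 s2
  rw [ke.bb_aff] at s1
  rw [ke.HH_aff] at s2
  have s3 : pr (sc θ G) = pr (sc θ z) := funext fun x => by
    rw [pr, pr, s1, s2, hs, map_add, add_apply]
    beta_reduce
    abel
  have q : Cv * (Cd * (C₁ * Y + C₁ * Y)) ≤ (Cv + 1) * (Cd * (2 * C₁ + 16)) * Y := by
    have := mul_nonneg hCd Y0
    nlinarith [mul_nonneg hCv this, mul_nonneg hC₁ this]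
  rw [z1, sub_zero] at v2
  rw [z2, sub_zero] at v1
  refine ⟨?_, ?_, ?_⟩
  · rw [s1, add_sub_cancel_left]
    exact v2.trans q
  · rw [Ht, s2, smul_add, smul_smul, inv_mul_cancel₀ h0.ne', one_smul, add_sub_cancel_left]
    exact v1.trans q
  · rw [s3]
    refine dc.trans (add_le_add ?_ ?_)
    · rw [le_div_iff₀ (by positivity)] at h2
      gcongr
      nlinarith
    · have := mul_nonneg hCd Y0
      nlinarith [mul_nonneg hCv this, mul_nonneg hC₁ (mul_nonneg hCv this)]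

end Pool.Agent.MP_815c6c_an.N

end
end MrgPart1

-- marker of a merged file
example : 731051 + 585560 = 731051 + 585560 := rfl
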