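import Mathlib.RingTheory.Flat.TorsionFree
import Mathlib.Algebra.Ring.IsFormallyReal
import Pool.Agent.MP_815c6c_an.N.Poi
import Pool.Agent.MP_815c6c_an.lam.Dual
import Pool.Agent.MP_815c6c_an.N.XSpec

-- ======== part 0: formerly Pool.Agent.MP_815c6c_an.N.Ev
section MrgPart0

/-! The exact change of the means between two scales. -/

set_option autoImplicit false

noncomputable section

namespace Pool.Agent.MP_815c6c_an.N

open Set Metric MeasureTheory Filter Topology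
open scoped ContDiff RealInnerProductSpace ENNReal

namespace EvA

open AvgA

variable {d n : ℕ}

/-- coordinate derivatives -/
def P (j : Fin d) (ψ : X d → ℝ) (x : X d) : ℝ := fderiv ℝ ψ x (EuclideanSpace.single j 1)

/-- smooth functions on the half ball -/
def Sm (ψ : X d → ℝ) : Prop := ContDiff ℝ ∞ ψ ∧ ∀ x, 1 / 2 < ‖x‖ → ψ x = 0

theorem Sm.fd {ψ : X d → ℝ} (h : Sm ψ) : ContDiff ℝ ∞ (fderiv ℝ ψ) :=
  h.1.fderiv_right (by simp)

theorem Sm.dif {ψ : X d → ℝ} (h : Sm ψ) : Differentiable ℝ ψ := h.1.differentiable (by simp)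

theorem Sm.p {ψ : X d → ℝ} (h : Sm ψ) (j : Fin d) : Sm (P j ψ) := by
  refine ⟨h.fd.clm_apply contDiff_const, fun x hx => ?_⟩
  have : ψ =ᶠ[𝓝 x] fun _ => 0 :=
    Filter.Eventually.mono ((isOpen_lt continuous_const continuous_norm).mem_nhds hx) h.2
  rw [P, this.fderiv_eq]; simp

theorem Sm.ts {ψ : X d → ℝ} (h : Sm ψ) : Ts ψ :=
  ⟨h.1.of_le (by simp), 3 / 4, by norm_num, fun x hx => h.2 x (by linarith)⟩

theorem Sm.int {ψ : X d → ℝ} (h : Sm ψ) {E : Type} [NormedAddCommGroup E] [NormedSpace ℝ E]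
    {z : X d → E} (hz : Ib z) : Integrable fun x => ψ x • z x :=
  int_smul h.1.continuous (fun x hx => h.2 x (by linarith)) hz

theorem Sm.co {ψ : X d → ℝ} (h : Sm ψ) {z : X d → Gr d n} (hz : Ib z) (k : Fin n × Fin d) :
    Integrable fun x => ψ x * z x k :=
  h.int (z := fun x => z x k) ((EuclideanSpace.proj k : Gr d n →L[ℝ] ℝ).integrable_comp hz)

theorem Sm.comm {ψ : X d → ℝ} (h : Sm ψ) (i j : Fin d) : P i (P j ψ) = P j (P i ψ) := by
  funext x
  have key : ∀ (k : Fin d) (y : X d), fderiv ℝ (P k ψ) x y =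
      fderiv ℝ (fderiv ℝ ψ) x y (EuclideanSpace.single k 1) := fun k y => by
    have : P k ψ = fun x => fderiv ℝ ψ x (EuclideanSpace.single k 1) := rfl
    rw [this, fderiv_clm_apply (h.fd.differentiable (by simp) x) (differentiableAt_const _)]
    simp
  rw [P, P, key, key]
  exact ((contDiff_infty.1 h.1 2).contDiffAt.isSymmSndFDerivAt (by simp)) _ _

theorem P_sum {ι : Type} [Fintype ι] (c : ι → ℝ) {ψ : ι → X d → ℝ} (h : ∀ k, Sm (ψ k))
    (j : Fin d) (x : X d) : P j (fun y => ∑ k, c k * ψ k y) x = ∑ k, c k * P j (ψ k) x := by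
  rw [P, (HasFDerivAt.fun_sum fun k _ => ((h k).dif x).hasFDerivAt.const_mul (c k)).fderiv]
  simp [P]

theorem comp_int {ι : Type} [Fintype ι] {f : X d → EuclideanSpace ℝ ι} (hf : Integrable f)
    (k : ι) : (∫ x, f x) k = ∫ x, f x k :=
  ((EuclideanSpace.proj k : EuclideanSpace ℝ ι →L[ℝ] ℝ).integral_comp_comm hf).symm

theorem curl {v : X d → X n} {z : X d → Gr d n} (hz : Ib z) (h : WG v z) {ψ : X d → ℝ}
    (hψ : Sm ψ) (a : Fin n) (i l : Fin d) :
    ∫ x, P l ψ x * z x (a, i) = ∫ x, P i ψ x * z x (a, l) := by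
  have key : ∀ i l, -∫ x, P l ψ x * z x (a, i) = (∫ x, P i (P l ψ) x • v x) a := fun i l => by
    have := h _ (hψ.p l).ts (EuclideanSpace.single i 1)
    change ∫ x, P i (P l ψ) x • v x = _ at this
    rw [this, PiLp.neg_apply, comp_int ((hψ.p l).int (ib_act hz _))]
    simp [act_apply]
  rw [← neg_inj, key, key, hψ.comm]

/-- the pairing of one row with a gradient -/
def J (z : X d → Gr d n) (ψ : X d → ℝ) (a : Fin n) : ℝ := ∑ l, ∫ x, P l ψ x * z x (a, l)

theorem lap {v : X d → X n} {z : X d → Gr d n} (hz : Ib z) (h : WG v z) {ψ γ : X d → ℝ}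
    (hψ : Sm ψ) (e : ∀ x, γ x = ∑ l, P l (P l ψ) x) (a : Fin n) (i : Fin d) :
    ∫ x, γ x * z x (a, i) = J z (P i ψ) a := by
  simp_rw [e, Finset.sum_mul]
  rw [integral_finsetSum _ fun l _ => ((hψ.p l).p l).co hz _]
  exact Finset.sum_congr rfl fun l _ => by rw [curl hz h (hψ.p l), hψ.comm]

theorem pa_eq {ι : Type} [Fintype ι] (c : Fin n → ι → ℝ) {ψ : ι → X d → ℝ} (h : ∀ k, Sm (ψ k))
    {φ : X d → X n} (hφ : Ts φ) (e : ∀ x a, φ x a = ∑ k, c a k * ψ k x) {z : X d → Gr d n}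
    (hz : Ib z) : pa z φ = ∑ a, ∑ k, c a k * J z (ψ k) a := by
  have h1 : ∀ x a l, Dm φ x (a, l) = ∑ k, c a k * P l (ψ k) x := fun x a l => by
    rw [← P_sum (c a) h, ← funext fun y => e y a, P]
    have := ((EuclideanSpace.proj a : X n →L[ℝ] ℝ).hasFDerivAt.comp x
      (hφ.1.differentiable (by simp) x).hasFDerivAt).fderiv
    exact (congrArg (fun L : X d →L[ℝ] ℝ => L (EuclideanSpace.single l 1)) this).symm
  have h2 : ∀ x, ⟪z x, Dm φ x⟫ = ∑ a, ∑ k, ∑ l, c a k * (P l (ψ k) x * z x (a, l)) := fun x => by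
    rw [PiLp.inner_apply, Fintype.sum_prod_type]
    refine Finset.sum_congr rfl fun a _ => ?_
    rw [Finset.sum_comm]
    refine Finset.sum_congr rfl fun l _ => ?_
    simp [h1, Finset.sum_mul, mul_assoc]
  have h3 : ∀ a k l, Integrable fun x => c a k * (P l (ψ k) x * z x (a, l)) := fun a k l =>
    (((h k).p l).co hz _).const_mul _
  simp_rw [pa, h2]
  rw [integral_finsetSum _ fun a _ => integrable_finsetSum _ fun k _ =>
    integrable_finsetSum _ fun l _ => h3 a k l]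
  refine Finset.sum_congr rfl fun a _ => ?_
  rw [integral_finsetSum _ fun k _ => integrable_finsetSum _ fun l _ => h3 a k l]
  refine Finset.sum_congr rfl fun k _ => ?_
  rw [integral_finsetSum _ fun l _ => h3 a k l, J, Finset.mul_sum]
  exact Finset.sum_congr rfl fun l _ => integral_const_mul _ _

/-- test functions that depend linearly on a parameter -/
theorem bd (B : Bas d n) {E : Type} [NormedAddCommGroup E] [NormedSpace ℝ E]
    (L : X d → E →L[ℝ] X n) (hL : ContDiff ℝ 1 L) (h0 : ∀ x, 3 / 4 ≤ ‖x‖ → L x = 0) :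
    ∃ C : ℝ, 0 ≤ C ∧ ∀ N, Ts (fun x => L x N) ∧
      ∀ x, ‖L x N‖ ≤ C * ‖N‖ ∧ ‖Dm (fun x => L x N) x‖ ≤ C * ‖N‖ := by
  obtain ⟨M₁, h1⟩ := hL.continuous.bounded_above_of_compact_support (cs_of h0)
  obtain ⟨M₂, h2⟩ := (hL.continuous_fderiv (by simp)).bounded_above_of_compact_support
    ((cs_of h0).fderiv ℝ)
  have p1 : 0 ≤ M₁ := (norm_nonneg _).trans (h1 0)
  have p2 : 0 ≤ M₂ := (norm_nonneg _).trans (h2 0)
  refine ⟨M₁ + d * M₂, by positivity, fun N => ⟨⟨hL.clm_apply contDiff_const, 3 / 4, by norm_num,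
    fun x hx => by simp [h0 x hx]⟩, fun x => ⟨((L x).le_opNorm N).trans ?_,
      (B.n_jm _).trans ?_⟩⟩⟩
  · have := h1 x
    have : (0 : ℝ) ≤ d * M₂ := by positivity
    gcongr; linarith
  · have : fderiv ℝ (fun x => L x N) x = (fderiv ℝ L x).flip N := by
      rw [fderiv_clm_apply (hL.differentiable (by simp) x) (differentiableAt_const _)]
      simp
    calc (d : ℝ) * _ ≤ d * (M₂ * ‖N‖) := by
          rw [this]
          gcongr
          refine (ContinuousLinearMap.le_opNorm _ _).trans ?_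
          rw [ContinuousLinearMap.opNorm_flip]
          gcongr; exact h2 x
      _ ≤ _ := by nlinarith [mul_nonneg p1 (norm_nonneg N)]

theorem dual {E : Type} [NormedAddCommGroup E] [InnerProductSpace ℝ E] {z : X d → Gr d n}
    {ρ c C : ℝ} (hρ : 0 ≤ ρ) (hc : 0 ≤ c) (hC : c ≤ C) (h : AH ρ z) {D : E} {φ : X d → X n}
    (hφ : Ts φ ∧ ∀ x, ‖φ x‖ ≤ c * ‖D‖ ∧ ‖Dm φ x‖ ≤ c * ‖D‖) (e : |pa z φ| = ⟪D, D⟫) :
    ‖D‖ ≤ C * ρ := by
  have h1 := h φ _ hφ.1 (fun x => (hφ.2 x).1) fun x => (hφ.2 x).2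
  rw [e, real_inner_self_eq_norm_sq] at h1
  refine le_trans ?_ (mul_le_mul_of_nonneg_right hC hρ)
  rcases (norm_nonneg D).eq_or_lt with h | h
  · rw [← h]; positivity
  · nlinarith

theorem dz {g : ℝ → ℝ} (hg : ContDiff ℝ ∞ g) (h0 : ∀ t, 1 / 4 ≤ t → g t = 0) :
    ContDiff ℝ ∞ (deriv g) ∧ ∀ t, 1 / 4 ≤ t → deriv g t = 0 := by
  refine ⟨(contDiff_infty_iff_deriv.1 hg).2, fun t ht => ?_⟩
  exact (uniqueDiffOn_Ici (1 / 4) t ht).eq_deriv _
    (hg.differentiable (by simp) t).hasDerivAt.hasDerivWithinAt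
    ((hasDerivWithinAt_const t _ 0).congr h0 (h0 t ht))

theorem sm_rad {g : ℝ → ℝ} (hg : ContDiff ℝ ∞ g) (h0 : ∀ t, 1 / 4 ≤ t → g t = 0) :
    Sm fun x : X d => g (‖x‖ ^ 2) :=
  ⟨hg.comp (contDiff_norm_sq ℝ), fun x hx => h0 _ (by nlinarith)⟩

theorem hd_rad {g : ℝ → ℝ} (hg : ContDiff ℝ ∞ g) (x : X d) :
    HasFDerivAt (fun x : X d => g (‖x‖ ^ 2)) ((2 * deriv g (‖x‖ ^ 2)) • innerSL ℝ x) x := by
  simpa using hd_sq (hg.differentiable (by simp)) (0 : X d) x

theorem P_rad {g : ℝ → ℝ} (hg : ContDiff ℝ ∞ g) (i : Fin d) :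
    P i (fun x : X d => g (‖x‖ ^ 2)) = fun x => 2 * deriv g (‖x‖ ^ 2) * x i := by
  funext x
  rw [P, (hd_rad hg x).fderiv]
  simp [EuclideanSpace.inner_single_right]

theorem PP_rad {g : ℝ → ℝ} (hg : ContDiff ℝ ∞ g) (i j : Fin d) (x : X d) :
    P i (P j fun x : X d => g (‖x‖ ^ 2)) x = 4 * deriv (deriv g) (‖x‖ ^ 2) * (x i * x j) +
      if i = j then 2 * deriv g (‖x‖ ^ 2) else 0 := by
  have h4 : HasFDerivAt (fun y : X d => y j) (EuclideanSpace.proj (𝕜 := ℝ) j) x :=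
    (EuclideanSpace.proj j : X d →L[ℝ] ℝ).hasFDerivAt
  rw [P_rad hg, P, (((hd_rad (contDiff_infty_iff_deriv.1 hg).2 x).const_mul 2).fun_mul h4).fderiv]
  by_cases h : i = j
  · subst h
    simp [EuclideanSpace.inner_single_right]
    ring
  · simp [EuclideanSpace.inner_single_right, h, Ne.symm h]
    ring

theorem alg (M : He d n) (x : X d) (a : Fin n) (s t : ℝ) :
    ((-4 * s) • (act.flip x).comp (ap.flip x) - t • trc : He d n →L[ℝ] X n) M a =
      ∑ q : Fin d × Fin d, -M (a, q) * (4 * s * (x q.1 * x q.2) + if q.1 = q.2 then t else 0) := by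
  change -4 * s * (∑ i, (∑ j, M (a, i, j) * x j) * x i) - t * ∑ i, M (a, i, i) = _
  rw [Fintype.sum_prod_type, Finset.mul_sum, Finset.mul_sum, ← Finset.sum_sub_distrib]
  refine Finset.sum_congr rfl fun i _ => ?_
  simp only [mul_add, Finset.sum_add_distrib, mul_ite, mul_zero, Finset.sum_ite_eq,
    Finset.mem_univ, if_true]
  rw [Finset.sum_mul, Finset.mul_sum, sub_eq_add_neg]
  exact congrArg₂ _ (Finset.sum_congr rfl fun j _ => by ring) (by ring)

/-- the kernel at the scale `s` -/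
def ks (d : ℕ) (s t : ℝ) : ℝ := (s ^ d)⁻¹ * ka d (t / s ^ 2)

theorem ks_sm (k : Ker d n) (s : ℝ) : ContDiff ℝ ∞ (ks d s) :=
  contDiff_const.mul (k.sa.comp (contDiff_id.div_const _))

theorem ks_zero (k : Ker d n) {s : ℝ} (hs : 0 < s) (hs' : s ≤ 1) (t : ℝ) (ht : 1 / 4 ≤ t) :
    ks d s t = 0 := by
  rw [ks, k.za, mul_zero]
  rw [le_div_iff₀ (by positivity)]
  nlinarith

theorem ks_der (k : Ker d n) (s t : ℝ) :
    deriv (ks d s) t = (s ^ d)⁻¹ * (deriv (ka d) (t / s ^ 2) * (1 / s ^ 2)) :=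
  (((k.sa.differentiable (by simp) _).hasDerivAt.comp t
    ((hasDerivAt_id t).div_const (s ^ 2))).const_mul _).deriv

theorem bb_sc (k : Ker d n) {s : ℝ} (hs : 0 < s) (hs' : s ≤ 1) {z : X d → Gr d n} (hz : Ib z)
    (q : Fin n × Fin d) : bb (sc s z) q = ∫ x, ks d s (‖x‖ ^ 2) * z x q := by
  have := chg z 0 hs
  simp only [zero_add, sub_zero] at this
  exact (congrArg (fun G : Gr d n => G q) this).trans
    (comp_int ((sm_rad (ks_sm k s) (ks_zero k hs hs')).int hz) q)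

theorem Ht_eq (k : Ker d n) {s : ℝ} (hs : 0 < s) (hs' : s ≤ 1) {z : X d → Gr d n} (hz : Ib z)
    (a : Fin n) (i j : Fin d) :
    Ht s z (a, i, j) = -∫ x, P j (fun x => ks d s (‖x‖ ^ 2)) x * z x (a, i) := by
  have hd := dz (ks_sm k s) (ks_zero k hs hs')
  have h0 : Ib fun x => tens (z x) x := by
    refine ((Integrable.norm hz).mul_const ‖(tens : Gr d n →L[ℝ] _)‖).mono'
      (tens.aestronglyMeasurable_comp₂ hz.1 continuous_id.aestronglyMeasurable)
      ((ae_restrict_mem measurableSet_ball).mono fun x hx => (tens.le_opNorm₂ _ _).trans ?_)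
    rw [mul_comm ‖z x‖]
    exact mul_le_of_le_one_right (by positivity) (mem_ball_zero_iff.1 hx).le
  have h1 := Measure.integral_comp_smul (volume : Measure (X d))
    (fun y => deriv (ks d s) (‖y‖ ^ 2) • tens (z y) y) s
  have h2 : ∀ y : X d, deriv (ks d s) (‖s • y‖ ^ 2) • tens (z (s • y)) (s • y) =
      ((s ^ d)⁻¹ * (2 * s)⁻¹) • tens (sc s z y) (gradient kk y) := fun y => by
    have : ‖s • y‖ ^ 2 / s ^ 2 = ‖y‖ ^ 2 := by
      rw [norm_smul, Real.norm_of_nonneg hs.le]; field_simp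
    rw [ks_der k, this, k.grad, map_smul, map_smul, smul_smul, smul_smul, sc]
    congr 1
    field_simp
  simp_rw [h2] at h1
  rw [integral_smul, finrank_euclideanSpace_fin, abs_of_nonneg (by positivity), mul_smul,
    smul_right_inj (by positivity)] at h1
  have h3 : Ht s z = -((2 : ℝ) • ∫ y, deriv (ks d s) (‖y‖ ^ 2) • tens (z y) y) := by
    rw [← h1, smul_smul, Ht, HH, smul_neg]
    congr 2
    field_simp
  rw [h3, PiLp.neg_apply, PiLp.smul_apply, comp_int ((sm_rad hd.1 hd.2).int h0), P_rad (ks_sm k s),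
    smul_eq_mul, ← integral_const_mul]
  refine congrArg _ (integral_congr_ae (Eventually.of_forall fun x => ?_))
  simp only [PiLp.smul_apply, tens_apply, smul_eq_mul]
  ring

end EvA

open EvA

theorem evS (K : Kit) (hS : ShlS) : EvS := by
  intro d n θ hθ hθ1
  obtain ⟨W, hW⟩ := hS d θ hθ hθ1
  have B := K.bas d n
  have k := K.ker d n
  have d1 := dz hW.sm hW.zero
  have d2 := dz d1.1 d1.2
  have hw : Sm fun x : X d => W (‖x‖ ^ 2) := sm_rad hW.sm hW.zero
  have hk : ∀ {s : ℝ}, 0 < s → s ≤ 1 → Sm fun x : X d => ks d s (‖x‖ ^ 2) := fun hs hs' =>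
    sm_rad (ks_sm k _) (ks_zero k hs hs')
  have r1 : ContDiff ℝ 1 fun x : X d => deriv W (‖x‖ ^ 2) := (sm_rad d1.1 d1.2).ts.1
  have r2 : ContDiff ℝ 1 fun x : X d => deriv (deriv W) (‖x‖ ^ 2) := (sm_rad d2.1 d2.2).ts.1
  have q : ∀ x : X d, 3 / 4 ≤ ‖x‖ → 1 / 4 ≤ ‖x‖ ^ 2 := fun x hx => by nlinarith
  have e0 : ∀ x : X d, ks d θ (‖x‖ ^ 2) - ks d 1 (‖x‖ ^ 2) =
      ∑ l, P l (P l fun x : X d => W (‖x‖ ^ 2)) x := fun x => by
    simp only [PP_rad hW.sm, if_true, Finset.sum_add_distrib, ← Finset.mul_sum, ← pow_two,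
      ← EuclideanSpace.real_norm_sq_eq, ks, one_pow, inv_one, one_mul, div_one, ← hW.ode]
    simp
    ring
  have e1 : ∀ (j : Fin d) (x : X d), P j (fun x => ks d θ (‖x‖ ^ 2)) x -
      P j (fun x => ks d 1 (‖x‖ ^ 2)) x = ∑ l, P l (P l (P j fun x : X d => W (‖x‖ ^ 2))) x := by
    intro j x
    have h1 := P_sum (fun _ => 1) (fun l => (hw.p l).p l) j x
    simp only [one_mul, ← e0] at h1
    rw [P, fderiv_fun_sub ((hk hθ hθ1.le).dif x) ((hk one_pos le_rfl).dif x)] at h1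
    refine h1.trans (Finset.sum_congr rfl fun l _ => ?_)
    rw [(hw.p l).comm, hw.comm j]
  obtain ⟨C₁, c1, b1⟩ := bd B (fun x => (2 * deriv W (‖x‖ ^ 2)) • act.flip x)
    ((contDiff_const.mul r1).smul act.flip.contDiff) fun x hx => by simp [d1.2 _ (q x hx)]
  obtain ⟨C₂, c2, b2⟩ := bd B (fun x => (-4 * deriv (deriv W) (‖x‖ ^ 2)) •
      (act.flip x).comp (ap.flip x) - (2 * deriv W (‖x‖ ^ 2)) • trc)
    (((contDiff_const.mul r2).smul (act.flip.contDiff.clm_comp ap.flip.contDiff)).sub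
      ((contDiff_const.mul r1).smul contDiff_const))
    fun x hx => by ext M a; simp [d1.2 _ (q x hx), d2.2 _ (q x hx)]
  have tr : ∀ s : ℝ, 0 < s → s ≤ 1 → ∃ C : ℝ, 0 ≤ C ∧ ∀ C', C ≤ C' → ∀ z : X d → Gr d n, Ib z →
      ∀ ρ, 0 ≤ ρ → AH ρ z → ‖trc (Ht s z)‖ ≤ C' * ρ := fun s hs hs' => by
    obtain ⟨C, c, b⟩ := bd B (fun x => ks d s (‖x‖ ^ 2) • ContinuousLinearMap.id ℝ (X n))
      ((hk hs hs').ts.1.smul contDiff_const) fun x hx => by simp [ks_zero k hs hs' _ (q x hx)]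
    refine ⟨C, c, fun C' hC z hz ρ hρ h => dual hρ c hC h (b _) ?_⟩
    rw [pa_eq (ι := Unit) (fun a _ => trc (Ht s z) a) (fun _ => hk hs hs') (b _).1
      (fun x a => by simp [mul_comm]) hz, ← abs_neg, ← abs_of_nonneg real_inner_self_nonneg,
      PiLp.inner_apply, ← Finset.sum_neg_distrib]
    refine congrArg _ (Finset.sum_congr rfl fun a _ => ?_)
    have : trc (Ht s z) a = -J z (fun x => ks d s (‖x‖ ^ 2)) a := by
      simp only [trc_apply, Ht_eq k hs hs' hz, J, Finset.sum_neg_distrib]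
    simp [this, pow_two]
  obtain ⟨C₃, c3, b3⟩ := tr θ hθ hθ1.le
  obtain ⟨C₄, c4, b4⟩ := tr 1 one_pos le_rfl
  have s1 : ∀ z : X d → Gr d n, sc 1 z = z := fun z => by funext x; simp [sc]
  have s2 : ∀ z : X d → Gr d n, Ht 1 z = HH z := fun z => by simp [Ht, s1]
  have i1 : ∀ (N : Gr d n) (v : X d → X n) z, Ib z → WG v z → ⟪bb (sc θ z) - bb z, N⟫ =
      pa z fun x => ((2 * deriv W (‖x‖ ^ 2)) • act.flip x) N := fun N v z hz h => by
    rw [pa_eq (fun a i => N (a, i)) hw.p (b1 N).1 (fun x a => by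
      simp [P_rad hW.sm, act_apply, Finset.mul_sum, mul_left_comm]) hz, PiLp.inner_apply,
      Fintype.sum_prod_type]
    refine Finset.sum_congr rfl fun a _ => Finset.sum_congr rfl fun i _ => ?_
    rw [← lap hz h hw e0, ← s1 z, PiLp.sub_apply, bb_sc k one_pos le_rfl hz, s1,
      bb_sc k hθ hθ1.le hz, ← integral_sub ((hk hθ hθ1.le).co hz _) ((hk one_pos le_rfl).co hz _)]
    simp [sub_mul]
  have i2 : ∀ (M : He d n) (v : X d → X n) z, Ib z → WG v z → ⟪Ht θ z - HH z, M⟫ =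
      pa z fun x => ((-4 * deriv (deriv W) (‖x‖ ^ 2)) • (act.flip x).comp (ap.flip x) -
        (2 * deriv W (‖x‖ ^ 2)) • trc : He d n →L[ℝ] X n) M := fun M v z hz h => by
    rw [pa_eq (ι := Fin d × Fin d) (fun a q => -M (a, q)) (fun q => (hw.p q.2).p q.1) (b2 M).1
      (fun x a => by simp only [PP_rad hW.sm]; exact alg M x a _ _) hz, PiLp.inner_apply, Fintype.sum_prod_type]
    refine Finset.sum_congr rfl fun a _ => Finset.sum_congr rfl fun ⟨i, j⟩ _ => ?_
    rw [← lap hz h (hw.p j) (e1 j), ← s2, PiLp.sub_apply, Ht_eq k one_pos le_rfl hz,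
      Ht_eq k hθ hθ1.le hz, neg_sub_neg,
      ← integral_sub (((hk one_pos le_rfl).p j).co hz _) (((hk hθ hθ1.le).p j).co hz _)]
    simp only [neg_mul, ← mul_neg, ← integral_neg, sub_mul, neg_sub]
    simp
  refine ⟨fun t => -4 * deriv (deriv W) t, C₁ + C₂ + C₃ + C₄, ⟨contDiff_const.mul d2.1,
    fun t ht => by simp [d2.2 t ht], fun t _ => by linarith [hW.d2 t]⟩, by positivity, hW.m2,
    fun N => ⟨_, (b1 N).1, fun x => by simp, fun x => ?_, fun v z _ hz h => i1 N v z hz h⟩,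
    fun v z _ hz h => ⟨fun M hM => ?_, fun ρ hρ ha => ⟨?_, ?_, b3 _ (by linarith) z hz ρ hρ ha,
      s2 z ▸ b4 _ (by linarith) z hz ρ hρ ha⟩⟩⟩
  · have : C₁ * ‖N‖ ≤ (C₁ + C₂ + C₃ + C₄) * ‖N‖ := by gcongr; linarith
    exact ⟨((b1 N).2 x).1.trans this, ((b1 N).2 x).2.trans this⟩
  · rw [i2 M v z hz h]
    congr 1
    funext x
    simp [tq, qf, hM.2]
  · exact dual hρ c2 (by linarith) ha (b2 _)
      (by rw [← i2 _ v z hz h, abs_of_nonneg real_inner_self_nonneg])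
  · exact dual hρ c1 (by linarith) ha (b1 _)
      (by rw [← i1 _ v z hz h, abs_of_nonneg real_inner_self_nonneg])

end Pool.Agent.MP_815c6c_an.N

end
end MrgPart0

-- ======== part 1: formerly Pool.Agent.MP_815c6c_an.lam.Tau
section MrgPart1

/-! The first order inequality for systems: integration in the parameter. -/

set_option autoImplicit false

noncomputable section

namespace Pool.Agent.MP_815c6c_an.Lam

open Finset MeasureTheory Filter Topology

variable {ι κ : Type*} [Fintype ι] [DecidableEq ι] [Fintype κ]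

/-- the determinant factor -/
def DD (s : ι → ℝ) (τ : ℝ) : ℝ := Real.exp (-(∑ i, Real.log (1 + τ * s i)) / 2)

/-- the integrand -/
def FF (s : ι → ℝ) (B : ι → ι → ℝ) (h : κ → ι → ℝ) (τ : ℝ) : ℝ :=
  DD s τ * (∑ i, ww s τ i ^ 2 + τ * Br B h (ww s τ))

/-- the gap constant -/
def cc (d : ℕ) : ℝ := Real.exp (-(d : ℝ) / 2) / 19200

theorem cc_pos (d : ℕ) : 0 < cc d := by unfold cc; positivity

theorem frac_der {a τ : ℝ} (hτ : 0 ≤ τ) (ha : 0 ≤ a) :
    HasDerivAt (fun t : ℝ => a / (1 + t * a)) (-(a / (1 + τ * a)) ^ 2) τ := by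
  have p := den_pos hτ ha
  refine ((hasDerivAt_const τ a).div (((hasDerivAt_id τ).mul_const a).const_add 1) p.ne').congr_deriv ?_
  simp only [id]
  field_simp
  ring

omit [DecidableEq ι] in
theorem DD_der {s : ι → ℝ} (hs : ∀ i, 0 ≤ s i) {τ : ℝ} (hτ : 0 ≤ τ) :
    HasDerivAt (DD s) (-(DD s τ * (∑ i, ww s τ i) / 2)) τ := by
  have a : HasDerivAt (fun t : ℝ => ∑ i, Real.log (1 + t * s i)) (∑ i, ww s τ i) τ :=
    HasDerivAt.fun_sum fun i _ => ((((hasDerivAt_id τ).mul_const (s i)).const_add 1).log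
      (den_pos hτ (hs i)).ne').congr_deriv (by simp [ww])
  exact (a.fun_neg.div_const 2).exp.congr_deriv (by unfold DD; ring)

variable {i₀ : ι} {s : ι → ℝ} {B : ι → ι → ℝ} {h : κ → ι → ℝ}

theorem Dat.DD_lim (H : Dat i₀ s B h) : Tendsto (DD s) atTop (𝓝 0) := by
  have a : Tendsto (fun τ : ℝ => Real.exp (-Real.log (1 + τ) / 2)) atTop (𝓝 0) :=
    Real.tendsto_exp_atBot.comp ((tendsto_neg_atTop_atBot.comp (Real.tendsto_log_atTop.comp
      (tendsto_atTop_add_const_left _ _ tendsto_id))).atBot_div_const two_pos)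
  refine squeeze_zero' (Eventually.of_forall fun _ => (Real.exp_pos _).le) ?_ a
  filter_upwards [eventually_ge_atTop 0] with τ hτ
  refine Real.exp_le_exp.2 (div_le_div_of_nonneg_right (neg_le_neg ?_) two_pos.le)
  have := single_le_sum (f := fun i => Real.log (1 + τ * s i)) (fun i _ => Real.log_nonneg
    (le_add_of_nonneg_right (mul_nonneg hτ (H.nonneg i)))) (mem_univ i₀)
  rwa [H.one, mul_one] at this

theorem Dat.DD_ge (H : Dat i₀ s B h) {τ : ℝ} (h0 : 0 ≤ τ) (h1 : τ ≤ 1) :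
    Real.exp (-(Fintype.card ι : ℝ) / 2) ≤ DD s τ := by
  refine Real.exp_le_exp.2 (div_le_div_of_nonneg_right (neg_le_neg ?_) two_pos.le)
  refine (sum_le_card_nsmul _ _ 1 fun i _ => ?_).trans_eq (by simp)
  have := Real.log_le_sub_one_of_pos (den_pos h0 (H.nonneg i))
  nlinarith [H.le i, H.nonneg i]

/-- integration of a pointwise inequality with a null term. -/
theorem Dat.null (H : Dat i₀ s B h) {ψ ψ' : ℝ → ℝ} {C ρ : ℝ} (hρ : 0 ≤ ρ)
    (hd : ∀ τ, 0 ≤ τ → HasDerivAt ψ (ψ' τ) τ) (hb : ∀ τ, 0 ≤ τ → ψ τ ≤ C)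
    (h1 : ∀ τ, 0 ≤ τ → τ * Br B h (ww s τ) ≤
      ψ' τ + (∑ i, ww s τ i) * (∑ i, ww s τ i - ψ τ) / 2)
    (h2 : ∀ τ, 0 ≤ τ → τ ≤ 1 → τ * Br B h (ww s τ) + τ * ρ / 9600 ≤
      ψ' τ + (∑ i, ww s τ i) * (∑ i, ww s τ i - ψ τ) / 2)
    (hi : IntegrableOn (FF s B h) (Set.Ioi 0)) :
    ∫ τ in Set.Ioi 0, FF s B h τ ≤ ∑ i, s i - ψ 0 - cc (Fintype.card ι) * ρ := by
  let N : ℝ → ℝ := fun τ => -(DD s τ * (∑ i, ww s τ i - ψ τ))
  let N' : ℝ → ℝ := fun τ => DD s τ * (∑ i, ww s τ i ^ 2 +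
    (ψ' τ + (∑ i, ww s τ i) * (∑ i, ww s τ i - ψ τ) / 2))
  have dN : ∀ τ, 0 ≤ τ → HasDerivAt N (N' τ) τ := fun τ hτ => by
    have a : HasDerivAt (fun t => ∑ i, ww s t i) (∑ i, -ww s τ i ^ 2) τ :=
      HasDerivAt.fun_sum fun i _ => frac_der hτ (H.nonneg i)
    refine ((DD_der H.nonneg hτ).fun_mul (a.fun_sub (hd τ hτ))).fun_neg.congr_deriv ?_
    simp only [N', sum_neg_distrib]
    ring
  have D0 : ∀ τ, 0 ≤ DD s τ := fun _ => (Real.exp_pos _).le
  have ic : ∀ a b : ℝ, 0 ≤ a → IntegrableOn (FF s B h) (Set.Icc a b) := fun a b ha => by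
    rcases le_or_gt a b with hab | hab
    · exact (integrableOn_Icc_iff_integrableOn_Ioc).2 (hi.mono_set fun x hx => ha.trans_lt hx.1)
    · simp [Set.Icc_eq_empty_of_lt hab]
  set c := cc (Fintype.card ι) * ρ with hc
  have A : ∫ τ in (0 : ℝ)..1, FF s B h τ ≤ (N 1 - c * 1 ^ 2) - (N 0 - c * 0 ^ 2) := by
    have d : ∀ τ, 0 ≤ τ → HasDerivAt (fun t => N t - c * t ^ 2) (N' τ - c * (2 * τ)) τ :=
      fun τ hτ => (dN τ hτ).fun_sub (((hasDerivAt_pow 2 τ).const_mul c).congr_deriv (by simp))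
    refine intervalIntegral.integral_le_sub_of_hasDeriv_right_of_le
      (g := fun t => N t - c * t ^ 2) zero_le_one
      (fun τ hτ => (d τ hτ.1).continuousAt.continuousWithinAt)
      (fun τ hτ => (d τ hτ.1.le).hasDerivWithinAt) (ic 0 1 le_rfl) fun τ hτ => ?_
    have a := mul_le_mul_of_nonneg_left (h2 τ hτ.1.le hτ.2.le) (D0 τ)
    have b := mul_le_mul_of_nonneg_right (H.DD_ge hτ.1.le hτ.2.le) (mul_nonneg hτ.1.le hρ)
    simp only [FF, N', hc, cc]
    linarith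
  have Bd : ∀ T, 1 ≤ T → ∫ τ in (0 : ℝ)..T, FF s B h τ ≤ DD s T * C - N 0 - c := fun T hT => by
    have a : ∫ τ in (1 : ℝ)..T, FF s B h τ ≤ N T - N 1 := by
      refine intervalIntegral.integral_le_sub_of_hasDeriv_right_of_le hT
        (fun τ hτ => (dN τ (zero_le_one.trans hτ.1)).continuousAt.continuousWithinAt)
        (fun τ hτ => (dN τ (zero_le_one.trans hτ.1.le)).hasDerivWithinAt) (ic 1 T zero_le_one)
        fun τ hτ => ?_
      have a := mul_le_mul_of_nonneg_left (h1 τ (zero_le_one.trans hτ.1.le)) (D0 τ)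
      simp only [FF, N']
      linarith
    have T0 := zero_le_one.trans hT
    have b : N T ≤ DD s T * C := by
      have u : 0 ≤ ∑ i, ww s T i :=
        sum_nonneg fun i _ => div_nonneg (H.nonneg i) (den_pos T0 (H.nonneg i)).le
      have := mul_le_mul_of_nonneg_left (show ψ T - ∑ i, ww s T i ≤ C by linarith [hb T T0]) (D0 T)
      simp only [N]
      linarith
    rw [← intervalIntegral.integral_add_adjacent_intervals (b := 1)
      ((intervalIntegrable_iff_integrableOn_Icc_of_le zero_le_one).2 (ic 0 1 le_rfl))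
      ((intervalIntegrable_iff_integrableOn_Icc_of_le hT).2 (ic 1 T zero_le_one))]
    linarith
  have L := le_of_tendsto_of_tendsto (intervalIntegral_tendsto_integral_Ioi 0 hi tendsto_id)
    (((H.DD_lim.mul_const C).sub_const (N 0)).sub_const c) ((eventually_ge_atTop 1).mono Bd)
  simp only [N, DD, ww, zero_mul, add_zero, Real.log_one, sum_const_zero, neg_zero, zero_div,
    Real.exp_zero, div_one] at L
  linarith

/-- the inequality in the parameter form, with the gap. -/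
theorem Dat.tau (H : Dat i₀ s B h) {a : ℝ} (ha : ∀ j, j ≠ i₀ → s j ≤ a) (ha0 : 0 ≤ a)
    (ha1 : a ≤ 1) (haσ : 1 + a ≤ ∑ i, s i) (hi : IntegrableOn (FF s B h) (Set.Ioi 0)) :
    ∫ τ in Set.Ioi 0, FF s B h τ ≤
      (∑ i, s i) / 2 - cc (Fintype.card ι) * (∑ i, s i - 1 - a) := by
  obtain ⟨σ, hσ⟩ : ∃ σ, σ = ∑ j ∈ univ.erase i₀, s j := ⟨_, rfl⟩
  have tr : ∑ i, s i = 1 + σ := by rw [← add_sum_erase _ _ (mem_univ i₀), H.one, hσ]
  have W0 : ∀ τ, ∑ i, ww s τ i = 1 / (1 + τ) + ∑ j ∈ univ.erase i₀, ww s τ j := fun τ => by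
    rw [← add_sum_erase _ _ (mem_univ i₀), H.w0]
  have dw : ∀ τ : ℝ, 0 ≤ τ → HasDerivAt (fun t : ℝ => 1 / (1 + t)) (-(1 / (1 + τ)) ^ 2) τ :=
    fun τ hτ => by simpa using frac_der hτ zero_le_one
  have wb : ∀ τ : ℝ, 0 ≤ τ → 0 < 1 / (1 + τ) ∧ 1 / (1 + τ) ≤ 1 := fun τ hτ =>
    ⟨by positivity, div_le_self zero_le_one (by linarith)⟩
  have w8 : ∀ τ : ℝ, 0 ≤ τ → τ ≤ 1 → 1 / 8 ≤ (1 / (1 + τ)) ^ 3 := fun τ h0 h1 =>
    le_trans (by norm_num) (pow_le_pow_left₀ (by norm_num)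
      (one_div_le_one_div_of_le (by linarith) (show 1 + τ ≤ 2 by linarith)) 3)
  have ρ0 : 0 ≤ σ - a := by linarith
  rw [tr, show 1 + σ - 1 - a = σ - a by ring]
  rcases le_total 1 σ with h1 | h1
  · have := H.null (ψ := fun t => (1 + σ) * (1 / (1 + t)) / 2)
      (ψ' := fun t => -((1 + σ) * (1 / (1 + t)) ^ 2 / 2)) (C := (1 + σ) * 1 / 2) ρ0
      (fun τ hτ => (((dw τ hτ).const_mul (1 + σ)).div_const 2).congr_deriv (by ring))
      (fun τ hτ => div_le_div_of_nonneg_right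
        (mul_le_mul_of_nonneg_left (wb τ hτ).2 (by linarith)) two_pos.le)
      (fun τ hτ => by
        have := (H.big ha ha1 hτ hσ rfl rfl h1).1
        have : 0 ≤ τ * (1 / (1 + τ)) ^ 3 * (σ - a) / 2 := by positivity
        rw [W0]
        linarith)
      (fun τ hτ hτ1 => by
        have := (H.big ha ha1 hτ hσ rfl rfl h1).1
        have := mul_le_mul_of_nonneg_left (w8 τ hτ hτ1) (mul_nonneg hτ ρ0)
        have := mul_nonneg hτ ρ0
        rw [W0]
        linarith) hi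
    rw [tr] at this
    norm_num at this
    linarith
  · have σ0 : 0 ≤ σ := by linarith
    have := H.null (ψ := fun t => ps (1 - σ) (1 / (1 + t)) (σ / (1 + t * σ)))
      (ψ' := fun t => ps' (1 - σ) (1 / (1 + t)) (σ / (1 + t * σ))) (C := 2) ρ0
      (fun τ hτ => by
        have u := dw τ hτ
        have v := frac_der hτ σ0
        refine (((u.fun_add v).div_const 2).fun_add ((((u.const_sub 1).fun_mul
          ((u.const_mul (1 - σ)).fun_add v)).fun_mul
          ((u.div_const 5).const_sub (1 / 2))).const_mul ((1 - σ) ^ 2))).congr_deriv ?_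
        unfold ps'
        ring)
      (fun τ hτ => by
        obtain ⟨u0, u1⟩ := wb τ hτ
        have v0 : 0 ≤ σ / (1 + τ * σ) := by positivity
        have v1 : σ / (1 + τ * σ) ≤ 1 :=
          (div_le_self σ0 (le_add_of_nonneg_right (mul_nonneg hτ σ0))).trans h1
        unfold ps
        generalize 1 / (1 + τ) = w at *
        generalize σ / (1 + τ * σ) = x at *
        have t1 : (1 - σ) * w + x ≤ 2 := by nlinarith
        have t0 : 0 ≤ (1 - σ) * w + x := by nlinarith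
        have t2 : (1 - w) * ((1 - σ) * w + x) ≤ 1 * 2 :=
          mul_le_mul (by linarith) t1 t0 zero_le_one
        have t3 : (1 - w) * ((1 - σ) * w + x) * (1 / 2 - w / 5) ≤ 1 * 2 * (1 / 2) :=
          mul_le_mul t2 (by linarith) (by linarith) (by norm_num)
        have t4 : 0 ≤ (1 - w) * ((1 - σ) * w + x) * (1 / 2 - w / 5) :=
          mul_nonneg (mul_nonneg (by linarith) t0) (by linarith)
        have t5 : (1 - σ) ^ 2 ≤ 1 := by nlinarith
        nlinarith [mul_le_mul t5 t3 t4 zero_le_one])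
      (fun τ hτ => by
        obtain ⟨u, v, -⟩ := H.small ha hτ hσ rfl rfl rfl h1
        have : 0 ≤ (1 - σ) ^ 2 * (1 / (1 + τ)) ^ 3 + σ ^ 2 * (1 / (1 + τ)) *
          (∑ j ∈ univ.erase i₀, ww s τ j - σ / (1 + τ * σ)) := by positivity
        rw [W0]
        linarith)
      (fun τ hτ hτ1 => by
        obtain ⟨u, -, v⟩ := H.small ha hτ hσ rfl rfl rfl h1
        have w3 := w8 τ hτ hτ1
        obtain ⟨u0, u1⟩ := wb τ hτ
        rw [W0]
        generalize 1 / (1 + τ) = w at *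
        have t0 := mul_nonneg hτ ρ0
        have t1 : τ * (σ - a) ≤ 1 := by nlinarith
        have t2 := mul_le_mul_of_nonneg_left v (show 0 ≤ σ ^ 2 * w by positivity)
        have t3 := mul_le_mul_of_nonneg_left t1 (show 0 ≤ (1 - σ) ^ 2 * w ^ 3 by positivity)
        have t4 : 1 / 3 ≤ (1 - σ) ^ 2 + σ ^ 3 := by
          nlinarith [mul_nonneg σ0 (sq_nonneg (σ - 11 / 20)), sq_nonneg (σ - 11 / 20)]
        have t5 := mul_le_mul_of_nonneg_left (mul_le_mul t4 w3 (by norm_num) (by positivity)) t0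
        nlinarith) hi
    rw [tr] at this
    simp only [ps] at this
    norm_num at this
    linarith

end Pool.Agent.MP_815c6c_an.Lam

end
end MrgPart1

-- ======== part 2: formerly Pool.Agent.MP_815c6c_an.N.Tau
section MrgPart2

/-! The one dimensional inequality. -/

set_option autoImplicit false

noncomputable section

namespace Pool.Agent.MP_815c6c_an.N

open Set MeasureTheory Finset Lam

namespace TauA

theorem two_FF {ι κ : Type*} [Fintype ι] [DecidableEq ι] [Fintype κ] {i₀ : ι} {s : ι → ℝ}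
    {B : ι → ι → ℝ} {h : κ → ι → ℝ} (H : Dat i₀ s B h) {τ : ℝ} (hτ : 0 ≤ τ) :
    2 * FF s B h τ = (√(∏ i, (1 + τ * s i)))⁻¹ *
      (∑ i, ∑ j, B i j * (s i + s j) / ((1 + τ * s i) * (1 + τ * s j)) -
        τ * ∑ a, (∑ i, h a i * (s i / (1 + τ * s i))) ^ 2) := by
  have p := fun i => den_pos hτ (H.nonneg i)
  have e1 : DD s τ = (√(∏ i, (1 + τ * s i)))⁻¹ := by
    rw [DD, ← Real.log_prod fun i _ => (p i).ne', neg_div, Real.exp_neg, Real.exp_half,
      Real.exp_log (prod_pos fun i _ => p i)]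
  have e2 : ∀ i j, B i j * (s i + s j) / ((1 + τ * s i) * (1 + τ * s j)) =
      τ * (B i j * (ww s τ i - ww s τ j) ^ 2) + B i j * (ww s τ i / (1 + τ * s i)) +
        B j i * (ww s τ j / (1 + τ * s j)) := fun i j => by
    have a := mul_inv_cancel₀ (p i).ne'
    have b := mul_inv_cancel₀ (p j).ne'
    rw [H.sym j i]
    simp only [ww, div_eq_mul_inv, mul_inv]
    generalize (1 + τ * s i)⁻¹ = u at *
    generalize (1 + τ * s j)⁻¹ = v at *
    linear_combination B i j * (s j * v - s i * u) * a + B i j * (s i * u - s j * v) * b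
  have e3 : ∑ i, ∑ j, B i j * (ww s τ i / (1 + τ * s i)) = ∑ i, ww s τ i ^ 2 :=
    sum_congr rfl fun i _ => by
      rw [← sum_mul, H.sum]
      unfold ww
      ring
  have e4 : ∑ a, (∑ i, h a i * (s i / (1 + τ * s i))) ^ 2 = ∑ a, (∑ i, ww s τ i * h a i) ^ 2 := by
    simp only [ww, mul_comm]
  simp only [e2, sum_add_distrib, ← mul_sum]
  rw [sum_comm (f := fun i j => B j i * (ww s τ j / (1 + τ * s j))), e3, e4, FF, e1, Br]
  ring

variable {d n : ℕ}

theorem nsq (H : He d n) : ‖H‖ ^ 2 = ∑ i, sd H i := by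
  rw [EuclideanSpace.real_norm_sq_eq, Fintype.sum_prod_type]
  simp only [Fintype.sum_prod_type, sd]
  exact sum_comm

theorem sd_nonneg (H : He d n) (i : Fin d) : 0 ≤ sd H i := by
  unfold sd
  positivity

theorem dat {H : He d n} (hs : Sy H) {i₀ : Fin d} (h0 : 0 < sd H i₀)
    (hm : ∀ i, sd H i ≤ sd H i₀) : Dat i₀ (fun i => sd H i / sd H i₀)
      (fun i j => (∑ a, H (a, i, j) ^ 2) / sd H i₀) fun a i => H (a, i, i) / √(sd H i₀) where
  one := div_self h0.ne'
  le i := (div_le_one h0).2 (hm i)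
  sym i j := by simp only [hs _ i j]
  pos i j := by positivity
  sum i := by rw [← sum_div, sum_comm]; rfl
  diag i := by simp only [div_pow, Real.sq_sqrt h0.le, sum_div]

theorem Jt_eq {H : He d n} (hs : Sy H) {i₀ : Fin d} (h0 : 0 < sd H i₀)
    (hm : ∀ i, sd H i ≤ sd H i₀) {τ : ℝ} (hτ : 0 ≤ τ) : Jt H τ = 2 * sd H i₀ ^ 2 *
      FF (fun i => sd H i / sd H i₀) (fun i j => (∑ a, H (a, i, j) ^ 2) / sd H i₀)
        (fun a i => H (a, i, i) / √(sd H i₀)) (sd H i₀ * τ) := by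
  have e := two_FF (dat hs h0 hm) (mul_nonneg h0.le hτ)
  have e0 : ∀ i, 1 + sd H i₀ * τ * (sd H i / sd H i₀) = 1 + τ * sd H i := fun i => by
    field_simp
  simp only [e0] at e
  have hq := Real.sq_sqrt h0.le
  have hq0 := Real.sqrt_pos.2 h0
  have e1 : ∑ a, ∑ i, ∑ j, H (a, i, j) ^ 2 * (sd H i + sd H j) /
      ((1 + τ * sd H i) * (1 + τ * sd H j)) = sd H i₀ ^ 2 * ∑ i, ∑ j,
        (∑ a, H (a, i, j) ^ 2) / sd H i₀ * (sd H i / sd H i₀ + sd H j / sd H i₀) /
          ((1 + τ * sd H i) * (1 + τ * sd H j)) := by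
    rw [sum_comm, mul_sum]
    refine sum_congr rfl fun i _ => ?_
    rw [sum_comm, mul_sum]
    refine sum_congr rfl fun j _ => ?_
    rw [← sum_div, ← sum_mul]
    generalize (1 + τ * sd H i) * (1 + τ * sd H j) = z
    field_simp
  have e2 : ∀ a, ∑ i, H (a, i, i) * (sd H i / (1 + τ * sd H i)) = sd H i₀ * √(sd H i₀) *
      ∑ i, H (a, i, i) / √(sd H i₀) * (sd H i / sd H i₀ / (1 + τ * sd H i)) := fun a => by
    rw [mul_sum]
    refine sum_congr rfl fun i _ => ?_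
    generalize 1 + τ * sd H i = z
    field_simp
  rw [mul_comm 2, mul_assoc, e, Jt, e1]
  simp only [e2, mul_pow, hq, ← mul_sum]
  ring

end TauA

open TauA

theorem tau : BasS → TauS := by
  intro _ d n H ⟨hs, ht⟩ _ hi
  by_cases hz : ∀ i, sd H i = 0
  · have h0 : H = 0 := by
      have := nsq H
      simpa [hz] using this
    subst h0
    exact ⟨by simp [Jt], fun _ => .inl rfl⟩
  obtain ⟨k, hk⟩ := not_forall.1 hz
  obtain ⟨i₀, -, hm⟩ := exists_max_image univ (sd H) ⟨k, mem_univ k⟩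
  replace hm := fun i => hm i (mem_univ i)
  have h0 : 0 < sd H i₀ := ((sd_nonneg H k).lt_of_ne' hk).trans_le (hm k)
  have hne : (univ.erase i₀).Nonempty := by
    by_contra h
    have hu : (univ : Finset (Fin d)) = {i₀} := eq_singleton_iff_unique_mem.2
      ⟨mem_univ _, fun j _ => by_contra fun hj => h ⟨j, mem_erase.2 ⟨hj, mem_univ _⟩⟩⟩
    have h1 : ∀ a, H (a, i₀, i₀) = 0 := fun a => by
      have := trc_apply H a
      rw [ht, hu, sum_singleton] at this
      exact this.symm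
    rw [sd, hu] at h0
    simp [h1] at h0
  obtain ⟨j₀, hj, hm'⟩ := exists_max_image _ (sd H) hne
  have D := dat hs h0 hm
  have hs2 : ∑ i, sd H i = sd H i₀ + (sd H j₀ + ∑ i ∈ (univ.erase i₀).erase j₀, sd H i) := by
    rw [add_sum_erase _ _ hj, add_sum_erase _ _ (mem_univ i₀)]
  have hr : 0 ≤ ∑ i ∈ (univ.erase i₀).erase j₀, sd H i := sum_nonneg fun i _ => sd_nonneg H i
  have hs3 : ∑ i, sd H i / sd H i₀ - 1 - sd H j₀ / sd H i₀ =
      (∑ i ∈ (univ.erase i₀).erase j₀, sd H i) / sd H i₀ := by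
    rw [← sum_div, hs2]
    field_simp
    ring
  have hc := (hi.congr_fun (fun τ hτ => Jt_eq hs h0 hm (le_of_lt hτ)) measurableSet_Ioi)
  have h2 : (2 * sd H i₀ ^ 2) ≠ 0 := by positivity
  rw [IntegrableOn, integrable_const_mul_iff h2.isUnit, ← IntegrableOn,
    integrableOn_Ioi_comp_mul_left_iff _ _ h0, mul_zero] at hc
  have key := D.tau (a := sd H j₀ / sd H i₀)
    (fun j h => div_le_div_of_nonneg_right (hm' j (mem_erase.2 ⟨h, mem_univ _⟩)) h0.le)
    (D.nonneg j₀) (D.le j₀) (by linarith [div_nonneg hr h0.le]) hc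
  rw [hs3, ← sum_div, ← nsq] at key
  have hI := setIntegral_congr_fun (μ := volume) measurableSet_Ioi
    fun τ (hτ : τ ∈ Ioi (0 : ℝ)) => Jt_eq hs h0 hm (le_of_lt hτ)
  rw [integral_const_mul, integral_comp_mul_left_Ioi _ _ h0, mul_zero, smul_eq_mul] at hI
  have hc0 := cc_pos (Fintype.card (Fin d))
  have fin : ∫ τ in Ioi (0 : ℝ), Jt H τ ≤ ‖H‖ ^ 2 -
      2 * (cc (Fintype.card (Fin d)) * ∑ i ∈ (univ.erase i₀).erase j₀, sd H i) := by
    rw [hI]
    refine (mul_le_mul_of_nonneg_left (mul_le_mul_of_nonneg_left key (inv_pos.2 h0).le)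
      (by positivity)).trans (le_of_eq ?_)
    field_simp
  refine ⟨by linarith [mul_nonneg hc0.le hr], fun e => .inr ⟨i₀, j₀, (mem_erase.1 hj).1.symm,
    fun k h1 h2 => ?_⟩⟩
  have h3 : ∑ i ∈ (univ.erase i₀).erase j₀, sd H i = 0 :=
    le_antisymm (le_of_mul_le_mul_left (by linarith) hc0) hr
  exact (sum_eq_zero_iff_of_nonneg fun i _ => sd_nonneg H i).1 h3 k (by simp [h1, h2])

end Pool.Agent.MP_815c6c_an.N

end
end MrgPart2

-- marker of a merged file
example : 731051 + 279108 = 731051 + 279108 := rfl
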