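import Pool.Agent.MP_815c6c_an.N.Fin
import Pool.Agent.MP_815c6c_an.N.Tst
import Pool.Agent.MP_815c6c_an.N.Al2
import Pool.Agent.MP_815c6c_an.N.Al3
import Pool.Agent.MP_815c6c_an.N.Poi
import Pool.Agent.MP_815c6c_an.N.Shl
import Pool.Agent.MP_815c6c_an.N.Mol
import Pool.Agent.MP_815c6c_an.N.Dec
import Pool.Agent.MP_815c6c_an.N.Tau
import Pool.Agent.MP_815c6c_an.N.Loc
import Pool.Agent.MP_815c6c_an.N.Stn
import Pool.Agent.MP_815c6c_an.N.Near
import Pool.Agent.MP_815c6c_an.N.Wgt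
import Pool.Agent.MP_815c6c_an.N.Pla
import Pool.Agent.MP_815c6c_an.N.Pl3
import Pool.Agent.MP_815c6c_an.N.Pl0
import Pool.Agent.MP_815c6c_an.N.Pl1
import Pool.Agent.MP_815c6c_an.N.Pl2
import Pool.Agent.MP_815c6c_an.N.Std

/-! Assembly. -/

set_option autoImplicit false

namespace Pool.Agent.MP_815c6c_an.N

theorem kit : Kit :=
  have e := excS bas (ker bas) al1
  ⟨bas, par bas, ker bas, e, sca bas e al1, al1, al2, al3, pl0 bas⟩

theorem finS (d n : ℕ) (hd : 1 ≤ d) : FinS d n :=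
  have s := shl kit
  have ev := evS kit s
  have de := dec kit (ha kit (avg kit s) (poi kit s) (tay kit)) (cac kit (tst kit (adm kit)))
  have p1 := pl1 kit
  have p2 := pl2 kit p1
  have p4 := pl4 kit pla
  have el := ell kit
  have mx := mix kit (wgt kit)
  have k0 := pk0 kit ev de p1 p2
  fin kit (loc kit) glu oscS d n (uni kit (lim kit) (mol kit) (ent kit) d n (ite kit d n
    (std kit p1 k0 (pk1 kit ev el (gap kit el) mx p1 k0)
      (pk2 kit ev de el mx p1 p2 (pl3 kit p1 pla p4) p4) d n hd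
      (fo kit pol (gau kit) (tau bas) (rot kit) d n)) (itn kit d n (stn kit ev de d n))))

theorem nearAll (d n : ℕ) (hd : 1 ≤ d) (hn : 1 ≤ n) : ∃ ε : ℝ, 0 < ε ∧ ∀ p : ℝ, |p - 2| < ε →
    (d ≤ 2 ∨ 2 ≤ p → Yes d n p) ∧ (¬(d ≤ 2 ∨ 2 ≤ p) → No d n p) ∧
    (2 < p → ∀ b : ℝ, p / 2 ≤ b → ∃ c : ℝ,
      ∀ (U : Set (X d)) (h : X d → X n) (G : X d → Gr d n), IsOpen U → Harm p U h G →
        Rep U (fun x => ‖G x‖ ^ (b - 1) • G x) ∧ Dec c U fun x => ‖G x‖ ^ (b - 1) • G x) :=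
  near kit (evS kit (shl kit)) (mol kit) (loc kit) finS d n hd hn

end Pool.Agent.MP_815c6c_an.N
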