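import Mathlib.Topology.Sheaves.Presheaf
import Mathlib.Tactic.Monotonicity.Lemmas
import Mathlib.Algebra.Order.Ring.Star
import Mathlib.Algebra.Order.Star.Real
import Mathlib.Algebra.Ring.IsFormallyReal
import Mathlib.Analysis.Calculus.LineDeriv.IntegrationByParts
import Mathlib.MeasureTheory.Integral.Pi
import Mathlib.Analysis.SpecialFunctions.Pow.Integral
import Mathlib.MeasureTheory.Order.Group.Lattice
import Mathlib.Tactic.NormNum.RealSqrt
import Pool.Agent.MP_815c6c_an.N.XSpec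

-- ======== part 0: formerly Pool.Agent.MP_815c6c_an.N.Par
section MrgPart0

/-! Row PAR: the pairing, weak gradients, odd fields. -/

set_option autoImplicit false

noncomputable section

namespace Pool.Agent.MP_815c6c_an.N

open Set Metric MeasureTheory Filter Topology
open scoped ContDiff RealInnerProductSpace ENNReal

namespace ParA

variable {d n : ℕ}

theorem ib_c {E : Type} [NormedAddCommGroup E] (z : X d → E) (hz : Continuous z) : Ib z :=
  (hz.continuousOn.integrableOn_compact (isCompact_closedBall (0 : X d) 1)).mono_set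
    ball_subset_closedBall

theorem out_ball {x : X d} (hx : x ∉ ball (0 : X d) 1) {r : ℝ} (hr : r < 1) : r ≤ ‖x‖ := by
  rw [mem_ball_zero_iff, not_lt] at hx
  linarith

/-- a test function and its derivative vanish near the unit sphere -/
theorem ts_fd {E : Type} [NormedAddCommGroup E] [NormedSpace ℝ E] {φ : X d → E} (h : Ts φ) :
    ∀ x, x ∉ ball (0 : X d) 1 → φ x = 0 ∧ fderiv ℝ φ x = 0 := by
  obtain ⟨-, r, hr, h0⟩ := h
  intro x hx
  refine ⟨h0 x (out_ball hx hr), ?_⟩
  have h1 : r < ‖x‖ := by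
    rw [mem_ball_zero_iff, not_lt] at hx
    linarith
  have h2 : φ =ᶠ[𝓝 x] fun _ => 0 := by
    filter_upwards [(isOpen_lt continuous_const continuous_norm).mem_nhds h1] with y hy
    exact h0 y (le_of_lt hy)
  rw [h2.fderiv_eq]
  simp

/-- products with a continuous function that vanishes outside the unit ball -/
theorem intB {E F W : Type} [NormedAddCommGroup E] [NormedSpace ℝ E] [NormedAddCommGroup F]
    [NormedSpace ℝ F] [NormedAddCommGroup W] [NormedSpace ℝ W] (B : F →L[ℝ] E →L[ℝ] W)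
    {z : X d → E} {g : X d → F} (hz : Ib z) (hg : Continuous g)
    (h0 : ∀ x, x ∉ ball (0 : X d) 1 → g x = 0) : Integrable fun x => B (g x) (z x) := by
  obtain ⟨C, hC⟩ := (isCompact_closedBall (0 : X d) 1).exists_bound_of_continuousOn hg.continuousOn
  have h1 : IntegrableOn (fun x => B (g x) (z x)) (ball (0 : X d) 1) := by
    refine Integrable.mono' (g := fun x => ‖B‖ * C * ‖z x‖) (Integrable.const_mul hz.norm _)
      (B.aestronglyMeasurable_comp₂ hg.aestronglyMeasurable hz.1) ?_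
    filter_upwards [ae_restrict_mem measurableSet_ball] with x hx
    refine (B.le_opNorm₂ _ _).trans ?_
    have := hC x (ball_subset_closedBall hx)
    gcongr
  exact h1.integrable_of_forall_notMem_eq_zero fun x hx => by simp [h0 x hx]

theorem int0 {F : Type} [NormedAddCommGroup F] {g : X d → F} (hg : Continuous g)
    (h0 : ∀ x, x ∉ ball (0 : X d) 1 → g x = 0) : Integrable g :=
  (ib_c g hg).integrable_of_forall_notMem_eq_zero h0

theorem dm0 {φ : X d → X n} (h : Ts φ) (x : X d) (hx : x ∉ ball (0 : X d) 1) : Dm φ x = 0 := by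
  simp [Dm, (ts_fd h x hx).2]

theorem int (b : Bas d n) (z : X d → Gr d n) (φ : X d → X n) (hz : Ib z) (h : Ts φ) :
    Integrable fun x => ⟪z x, Dm φ x⟫ := by
  have := intB (innerSL ℝ) hz (b.c_Dm φ h.1) (dm0 h)
  exact this.congr (Eventually.of_forall fun x => real_inner_comm (z x) (Dm φ x))

theorem cfd {E : Type} [NormedAddCommGroup E] [NormedSpace ℝ E] {φ : X d → E}
    (h : ContDiff ℝ 1 φ) (y : X d) : Continuous fun x => fderiv ℝ φ x y :=
  (h.continuous_fderiv (by simp)).clm_apply continuous_const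

theorem aff (b : Bas d n) (c : Gr d n) (H : He d n) (φ : X d → X n) (h : Ts φ) :
    pa (fun x => c + ap H x) φ = -∫ x, ⟪trc H, φ x⟫ := by
  have hd : Differentiable ℝ φ := h.1.differentiable (by simp)
  have hc : ∀ v : X d, Continuous fun x : X d => act (c + ap H x) v := fun v => by fun_prop
  have i1 : ∀ v : X d, Integrable fun x => ⟪act (c + ap H x) v, fderiv ℝ φ x v⟫ := fun v =>
    int0 ((hc v).inner (cfd h.1 v)) fun x hx => by simp [(ts_fd h x hx).2]
  have i2 : ∀ w : X n, Integrable fun x => ⟪w, φ x⟫ := fun w =>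
    int0 (continuous_const.inner h.1.continuous) fun x hx => by simp [(ts_fd h x hx).1]
  have i3 : ∀ v : X d, Integrable fun x => ⟪act (c + ap H x) v, φ x⟫ := fun v =>
    int0 ((hc v).inner h.1.continuous) fun x hx => by simp [(ts_fd h x hx).1]
  have key : ∀ v : X d, ∫ x, ⟪act (c + ap H x) v, fderiv ℝ φ x v⟫ =
      -∫ x, ⟪act (ap H v) v, φ x⟫ := fun v => by
    have := integral_bilinear_hasFDerivAt_right_eq_neg_left_of_integrable
      (μ := (volume : Measure (X d))) (B := innerSL ℝ) (f := fun x => act (c + ap H x) v)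
      (f' := fun _ => (act.flip v).comp (ap H)) (g := φ) (g' := fun x => fderiv ℝ φ x) (v := v)
      (i2 _) (i1 v) (i3 v)
      (fun x _ => (act.flip v).hasFDerivAt.comp x ((ap H).hasFDerivAt.const_add c))
      (fun x _ => (hd x).hasFDerivAt)
    exact this
  have tr : trc H = ∑ i, act (ap H (EuclideanSpace.single i 1)) (EuclideanSpace.single i 1) := by
    ext a
    simp [trc_apply, act_apply, ap_apply]
  unfold pa
  simp only [Dm, b.i_sum]
  rw [integral_finsetSum _ fun i _ => i1 _, tr]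
  simp only [sum_inner, key]
  rw [integral_finsetSum _ fun i _ => i2 _, Finset.sum_neg_distrib]

theorem wg_c1 (b : Bas d n) (P : X d → X n) (hP : ContDiff ℝ 1 P) : WG P (Dm P) := by
  intro φ h y
  have := integral_smul_fderiv_eq_neg_fderiv_smul_of_integrable (μ := (volume : Measure (X d)))
    (f := φ) (g := P) (v := y)
    (int0 ((cfd h.1 y).smul hP.continuous) fun x hx => by simp [(ts_fd h x hx).2])
    (int0 (h.1.continuous.smul (cfd hP y)) fun x hx => by simp [(ts_fd h x hx).1])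
    (int0 (h.1.continuous.smul hP.continuous) fun x hx => by simp [(ts_fd h x hx).1])
    (fun x _ => h.1.differentiable (by simp) x) (fun x _ => hP.differentiable (by simp) x)
  simp only [Dm, b.act_jm]
  rw [this, neg_neg]

theorem wg_add (v v' : X d → X n) (z z' : X d → Gr d n) (s t : ℝ) (hv : Ib v) (hv' : Ib v')
    (hz : Ib z) (hz' : Ib z') (h : WG v z) (h' : WG v' z') :
    WG (fun x => s • v x + t • v' x) fun x => s • z x + t • z' x := by
  intro φ hφ y
  have i1 : ∀ w : X d → X n, Ib w → Integrable fun x => fderiv ℝ φ x y • w x := fun w hw =>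
    intB (ContinuousLinearMap.lsmul ℝ ℝ) hw (cfd hφ.1 y) fun x hx => by simp [(ts_fd hφ x hx).2]
  have i2 : ∀ w : X d → Gr d n, Ib w → Integrable fun x => φ x • act (w x) y := fun w hw =>
    intB (ContinuousLinearMap.lsmul ℝ ℝ) (z := fun x => act (w x) y)
      ((act.flip y).integrable_comp hw) hφ.1.continuous fun x hx => (ts_fd hφ x hx).1
  have e1 : (fun x => fderiv ℝ φ x y • (s • v x + t • v' x)) =
      fun x => s • (fderiv ℝ φ x y • v x) + t • (fderiv ℝ φ x y • v' x) := by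
    funext x
    rw [smul_add, smul_comm _ s, smul_comm _ t]
  have e2 : (fun x => φ x • act (s • z x + t • z' x) y) =
      fun x => s • (φ x • act (z x) y) + t • (φ x • act (z' x) y) := by
    funext x
    simp only [map_add, map_smul, add_apply, smul_apply]
    rw [smul_add, smul_comm _ s, smul_comm _ t]
  rw [e1, e2, integral_add ((i1 v hv).fun_smul s) ((i1 v' hv').fun_smul t),
    integral_add ((i2 z hz).fun_smul s) ((i2 z' hz').fun_smul t), integral_smul, integral_smul,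
    integral_smul, integral_smul, h φ hφ y, h' φ hφ y]
  simp only [smul_neg, neg_add]

end ParA

open ParA in
theorem par : BasS → ParS := by
  intro hb d n
  have b := hb d n
  refine ⟨int b, ?_, ?_, ?_, ?_, aff b, ?_, ?_, wg_c1 b, wg_add, fun z hz => ib_c z hz⟩
  · intro z w s t φ hz hw h
    unfold pa
    simp only [inner_add_left, real_inner_smul_left]
    rw [integral_add ((int b z φ hz h).const_mul s) ((int b w φ hw h).const_mul t),
      integral_const_mul, integral_const_mul]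
  · intro z w φ h e
    unfold pa
    congr 1
    funext x
    by_cases hx : x ∈ ball (0 : X d) 1
    · rw [e x hx]
    · simp [dm0 h x hx]
  · intro z hz φ c h _ hc
    unfold pa L1
    rw [← setIntegral_eq_integral_of_forall_compl_eq_zero (s := ball (0 : X d) 1)
      (fun x hx => by simp [dm0 h x hx]), ← integral_mul_const, ← Real.norm_eq_abs]
    refine norm_integral_le_of_norm_le (Integrable.mul_const hz.norm c)
      (Eventually.of_forall fun x => (norm_inner_le_norm _ _).trans ?_)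
    exact mul_le_mul_of_nonneg_left (hc x) (norm_nonneg _)
  · intro z φ c _ h hc
    unfold pa
    rw [← integral_const_mul, ← Real.norm_eq_abs]
    refine norm_integral_le_of_norm_le
      (Integrable.const_mul (int0 (b.c_Dm φ h.1) (dm0 h)).norm c)
      (Eventually.of_forall fun x => (norm_inner_le_norm _ _).trans ?_)
    by_cases hx : x ∈ ball (0 : X d) 1
    · exact mul_le_mul_of_nonneg_right (hc x hx) (norm_nonneg _)
    · simp [dm0 h x hx]
  · intro z φ h ho hz
    have h1 := integral_neg_eq_self (fun x => ⟪z x, Dm φ x⟫) (volume : Measure (X d))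
    simp only [hz, b.D_odd φ (h.1.differentiable (by simp)) ho, inner_neg_left, integral_neg] at h1
    unfold pa
    linarith
  · refine ⟨2 * volume.real (ball (0 : X d) 1), by positivity, ?_⟩
    intro ε ρ Γ hρ hR φ c h h1 h2
    refine (hR φ h).trans ?_
    have h3 : ∫ x, (‖Dm φ x‖ + ‖φ x‖) ≤ 2 * volume.real (ball (0 : X d) 1) * c := by
      rw [← setIntegral_eq_integral_of_forall_compl_eq_zero (s := ball (0 : X d) 1)
        (fun x hx => by simp [dm0 h x hx, (ts_fd h x hx).1])]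
      refine (le_abs_self _).trans ?_
      rw [← Real.norm_eq_abs]
      refine (norm_setIntegral_le_of_norm_le_const (C := 2 * c) measure_ball_lt_top
        fun x _ => ?_).trans (le_of_eq (by ring))
      rw [Real.norm_of_nonneg (by positivity)]
      linarith [h1 x, h2 x]
    calc ρ * ∫ x, (‖Dm φ x‖ + ‖φ x‖) ≤ ρ * (2 * volume.real (ball (0 : X d) 1) * c) := by gcongr
      _ = _ := by ring

end Pool.Agent.MP_815c6c_an.N

end
end MrgPart0

-- ======== part 1: formerly Pool.Agent.MP_815c6c_an.N.Sca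
section MrgPart1

/-! Row SCA: scaling. -/

set_option autoImplicit false

noncomputable section

namespace Pool.Agent.MP_815c6c_an.N

open Set Metric MeasureTheory Filter Topology
open scoped ContDiff RealInnerProductSpace ENNReal

namespace ScaA

variable {d n : ℕ}

/-- change of variables, for every integrand -/
theorem cov {E : Type} [NormedAddCommGroup E] [NormedSpace ℝ E] (F : X d → E) (x₀ : X d) {t : ℝ}
    (ht : 0 < t) : ∫ x, F (x₀ + t • x) = (t ^ d)⁻¹ • ∫ x, F x := by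
  have h := Measure.integral_comp_smul (volume : Measure (X d)) (fun y => F (x₀ + y)) t
  rw [integral_add_left_eq_self F x₀, finrank_euclideanSpace_fin,
    abs_of_pos (by positivity)] at h
  exact h

/-- transport of test functions -/
theorem tr {E : Type} [NormedAddCommGroup E] [NormedSpace ℝ E] {φ : X d → E} (h : Ts φ) (x₀ : X d)
    {t : ℝ} (ht : 0 < t) (hx : ‖x₀‖ + t ≤ 1) :
    ∃ ψ : X d → E, Ts ψ ∧ φ = fun x => ψ (x₀ + t • x) := by
  obtain ⟨h1, r, hr, h0⟩ := h
  refine ⟨fun y => φ (t⁻¹ • (y - x₀)), ⟨h1.comp (by fun_prop), ‖x₀‖ + t * r, ?_, ?_⟩, ?_⟩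
  · nlinarith
  · intro y hy
    refine h0 _ ?_
    rw [norm_smul, Real.norm_of_nonneg (by positivity), le_inv_mul_iff₀ ht]
    linarith [norm_sub_norm_le y x₀]
  · funext x
    simp [smul_smul, inv_mul_cancel₀ ht.ne']

theorem fd {E : Type} [NormedAddCommGroup E] [NormedSpace ℝ E] {ψ : X d → E} (h : Ts ψ) (x₀ : X d)
    (t : ℝ) (x y : X d) :
    fderiv ℝ (fun x => ψ (x₀ + t • x)) x y = t • fderiv ℝ ψ (x₀ + t • x) y := by
  have h1 : HasFDerivAt (fun x : X d => x₀ + t • x) (t • ContinuousLinearMap.id ℝ (X d)) x :=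
    ((hasFDerivAt_id x).const_smul t).const_add x₀
  have h2 := ((h.1.differentiable (by simp)) (x₀ + t • x)).hasFDerivAt.comp x h1
  have h3 : fderiv ℝ (fun x => ψ (x₀ + t • x)) x = _ := h2.fderiv
  rw [h3]
  simp

theorem wg (v : X d → X n) (z : X d → Gr d n) (x₀ : X d) (t m : ℝ) (ht : 0 < t)
    (hx : ‖x₀‖ + t ≤ 1) (h : WG v z) :
    WG (fun x => (m * t⁻¹) • sh x₀ t v x) fun x => m • sh x₀ t z x := by
  intro φ hφ y
  obtain ⟨ψ, hψ, rfl⟩ := tr hφ x₀ ht hx
  have e1 : (fun x => fderiv ℝ (fun x => ψ (x₀ + t • x)) x y • (m * t⁻¹) • sh x₀ t v x) =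
      fun x => m • (fun w => fderiv ℝ ψ w y • v w) (x₀ + t • x) := by
    funext x
    simp only [fd hψ, sh, smul_smul, smul_eq_mul]
    congr 1
    field_simp
  have e2 : (fun x => ψ (x₀ + t • x) • act (m • sh x₀ t z x) y) =
      fun x => m • (fun w => ψ w • act (z w) y) (x₀ + t • x) := by
    funext x
    simp only [sh, map_smul, smul_apply]
    rw [smul_comm]
  rw [e1, e2, integral_smul, integral_smul, cov (fun w => fderiv ℝ ψ w y • v w) x₀ ht,
    cov (fun w => ψ w • act (z w) y) x₀ ht, h ψ hψ y]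
  simp only [smul_neg]

theorem dm (b : Bas d n) {ψ : X d → X n} (h : Ts ψ) (x₀ : X d) (t : ℝ) (x : X d) :
    Dm (fun x => ψ (x₀ + t • x)) x = t • Dm ψ (x₀ + t • x) := by
  simpa using b.D_sh ψ x₀ t 1 x (h.1.differentiable (by simp) _)

theorem pa_sh (b : Bas d n) (F : X d → Gr d n) {ψ : X d → X n} (h : Ts ψ) (x₀ : X d) {t : ℝ}
    (ht : 0 < t) (c : ℝ) : pa (fun x => c • F (x₀ + t • x)) (fun x => ψ (x₀ + t • x)) =
      c * t * (t ^ d)⁻¹ * pa F ψ := by
  unfold pa
  simp only [dm b h, real_inner_smul_left, real_inner_smul_right, ← mul_assoc]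
  rw [integral_const_mul, cov (fun w => ⟪F w, Dm ψ w⟫) x₀ ht, smul_eq_mul]
  ring

end ScaA

open ScaA in
theorem sca : BasS → ExcS → Al1S → ScaS := by
  intro hb he ha d n
  have b := hb d n
  obtain ⟨C, e⟩ := he d n
  have sol : ∀ (ε : ℝ) (u : X d → X n) (G : X d → Gr d n) (x₀ : X d) (t m : ℝ), 0 ≤ ε → 0 < t →
      0 < m → ‖x₀‖ + t ≤ 1 → Sol ε u G →
      Sol ε (fun x => (m * t⁻¹) • sh x₀ t u x) fun x => m • sh x₀ t G x := by
    intro ε u G x₀ t m _ ht hm hx h
    refine ⟨MemLp.const_smul (e.mp_sh ε u x₀ t ht hx h.mu) (m * t⁻¹),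
      MemLp.const_smul (e.mp_sh ε G x₀ t ht hx h.mG) m, wg u G x₀ t m ht hx h.wg, ?_⟩
    intro φ hφ
    obtain ⟨ψ, hψ, rfl⟩ := tr hφ x₀ ht hx
    simp only [(ha (Gr d n)).smul ε m _ hm.le, sh]
    rw [pa_sh b (fun w => A ε (G w)) hψ x₀ ht, h.eq ψ hψ, mul_zero]
  refine ⟨fun v z x₀ t ht hx h => ?_, sol, ?_, ?_⟩
  · simpa using wg v z x₀ t 1 ht hx h
  · intro ε ρ t Γ ht h1 hρ h φ hφ
    obtain ⟨ψ, hψ, rfl⟩ := tr hφ 0 ht (by simpa using h1)
    have h2 := pa_sh b (fun w => A ε (Γ w)) hψ 0 ht 1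
    have h3 : (fun x => A ε (sc t Γ x)) = fun x => (1 : ℝ) • A ε (Γ (0 + t • x)) := by
      funext x
      simp [sc]
    have h4 := cov (fun w => ‖Dm ψ w‖ + ‖ψ w‖) 0 ht
    have h5 : ∫ x, t * (‖Dm ψ (0 + t • x)‖ + ‖ψ (0 + t • x)‖) ≤
        ∫ x, (‖Dm (fun x => ψ (0 + t • x)) x‖ + ‖ψ (0 + t • x)‖) := by
      refine integral_mono_of_nonneg (Eventually.of_forall fun x => by positivity)
        ((ParA.int0 (b.c_Dm _ hφ.1) (ParA.dm0 hφ)).norm.add
          (ParA.int0 hφ.1.continuous fun x hx => (ParA.ts_fd hφ x hx).1).norm)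
        (Eventually.of_forall fun x => ?_)
      simp only [dm b hψ, norm_smul, Real.norm_of_nonneg ht.le]
      nlinarith [norm_nonneg (ψ (0 + t • x))]
    rw [integral_const_mul, h4, smul_eq_mul] at h5
    rw [h3, h2, abs_mul, abs_of_pos (by positivity)]
    calc 1 * t * (t ^ d)⁻¹ * |pa (fun w => A ε (Γ w)) ψ|
        ≤ 1 * t * (t ^ d)⁻¹ * (ρ * ∫ x, (‖Dm ψ x‖ + ‖ψ x‖)) := by
          gcongr
          exact h ψ hψ
      _ = ρ * (t * ((t ^ d)⁻¹ * ∫ x, (‖Dm ψ x‖ + ‖ψ x‖))) := by ring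
      _ ≤ _ := by gcongr
  · intro ε u G t m hε ht hm h1 h
    have := sol ε u G 0 t m hε ht hm (by simpa using h1) h
    exact ⟨_, by simpa only [sh, sc, zero_add] using this⟩

end Pool.Agent.MP_815c6c_an.N

end
end MrgPart1

-- ======== part 2: formerly Pool.Agent.MP_815c6c_an.N.Uni
section MrgPart2

/-! The initial excess and the estimate on the unit ball. -/

set_option autoImplicit false

noncomputable section

namespace Pool.Agent.MP_815c6c_an.N

open Set Metric MeasureTheory Filter Topology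
open scoped ContDiff RealInnerProductSpace ENNReal

namespace UniA

variable {d n : ℕ}

theorem ps_le {ε a t s D C₀ o r : ℝ} (hε : 0 < ε) (ha : ε ≤ 2 * a) (ht : 0 ≤ t) (hts : t ≤ s)
    (hrs : r ≤ s) (hC : 1 ≤ C₀) (hD : 0 ≤ D) (h : s ^ a * t ≤ C₀ * D) (ho : 0 ≤ o)
    (hr : r + o ^ (1 / (1 + a)) = 1) :
    Ps ε t ≤ 2 * (2 ^ (1 + a) * o) ^ 2 + 2 * (2 ^ a * C₀) ^ 2 * D ^ 2 := by
  have a0 : 0 ≤ a := by linarith
  have h2 : (1 : ℝ) ≤ 2 ^ a := Real.one_le_rpow one_le_two a0
  have h3 : C₀ * D ≤ 2 ^ a * C₀ * D := by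
    rw [mul_assoc]
    exact le_mul_of_one_le_left (by positivity) h2
  have h4 := sq_nonneg (2 ^ (1 + a) * o)
  have h5 := sq_nonneg (2 ^ a * C₀ * D)
  rw [mul_assoc 2 _ (D ^ 2), ← mul_pow _ D]
  unfold Ps
  rcases le_total 1 t with h1 | h1
  · have e1 : t ^ a * t ≤ 2 ^ a * C₀ * D :=
      ((mul_le_mul_of_nonneg_right (Real.rpow_le_rpow ht hts a0) ht).trans h).trans h3
    have e2 : (t ^ a * t) ^ 2 = t ^ (2 + 2 * a) := by
      rw [Real.rpow_add (by linarith), mul_comm 2 a, Real.rpow_mul ht, Real.rpow_two,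
        Real.rpow_two]
      ring
    have e3 := pow_le_pow_left₀ (by positivity) e1 2
    have e4 := Real.rpow_le_rpow_of_exponent_le h1 (by linarith : 2 + ε ≤ 2 + 2 * a)
    have e5 := Real.rpow_le_rpow_of_exponent_le h1 (by linarith : 2 ≤ 2 + 2 * a)
    rw [Real.rpow_two] at e5
    linarith
  · have e1 := Real.rpow_le_rpow_of_exponent_ge' ht h1 (by norm_num) (by linarith : 2 ≤ 2 + ε)
    rw [Real.rpow_two] at e1
    rcases le_total (1 / 2) r with h6 | h6
    · have e2 : 1 ≤ 2 ^ a * s ^ a := by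
        rw [← Real.mul_rpow two_pos.le (ht.trans hts)]
        exact Real.one_le_rpow (by linarith) a0
      have e3 : t ≤ 2 ^ a * C₀ * D := by
        have := mul_le_mul_of_nonneg_left h (zero_le_one.trans h2)
        nlinarith
      have := pow_le_pow_left₀ ht e3 2
      linarith
    · have e2 : 1 ≤ 2 ^ (1 + a) * o := by
        have e3 : o = (o ^ (1 / (1 + a))) ^ (1 + a) := by
          rw [one_div, Real.rpow_inv_rpow ho (by linarith)]
        rw [e3, ← Real.mul_rpow two_pos.le (by positivity)]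
        exact Real.one_le_rpow (by linarith) (by linarith)
      nlinarith

theorem L2_smul (κ : ℝ) (hκ : 0 ≤ κ) (z : X d → Gr d n) : L2 (fun x => κ • z x) = κ * L2 z := by
  simp only [L2, norm_smul, mul_pow, integral_const_mul, Real.norm_of_nonneg hκ]
  rw [Real.sqrt_mul (sq_nonneg κ), Real.sqrt_sq hκ]

theorem it_map (B : Bas d n) {θ g C L : ℝ} {b : ℕ → Gr d n} {H : ℕ → He d n} (hθ : 0 < θ)
    (hC : 0 ≤ C) (hL : 0 ≤ L) (h : It θ g C L b H) :
    It θ g (2 * C) L b fun j => ap ((2 : ℝ) • H j) := by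
  have e : ∀ M : He d n, ‖ap ((2 : ℝ) • M)‖ ≤ 2 * ‖M‖ := fun M =>
    (B.n_apL _).trans (by rw [norm_smul, Real.norm_two])
  refine ⟨fun j => (e _).trans (by linarith [h.u1 j]), fun j => (h.u2 j).trans ?_,
    h.u3.imp_right fun ⟨k, hk⟩ => ⟨k, fun j hj => ⟨(hk j hj).1.trans ?_,
      (e _).trans (by linarith [(hk j hj).2.1]), ?_⟩⟩⟩
  · gcongr
    linarith
  · gcongr
    linarith
  · rw [← map_sub, ← smul_sub]
    exact (e _).trans (by linarith [(hk j hj).2.2])

/-- the two entries of the iteration -/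
def En (ε L : ℝ) (G : X d → Gr d n) : Prop :=
  (3 / 4 ≤ ‖bb G‖ ∧ ‖bb G‖ ≤ 3 / 2 ∧ ‖HH G‖ + exc ε (pr G) ≤ L ∧ L ≤ 1) ∨
    (‖bb G‖ ≤ 1 ∧ ‖HH G‖ + exc ε (pr G) ≤ 1 / 2 ∧ L = 1)

theorem core (K : Kit) (lim : LimS) (mol : MolS) (hI : IteS d n) : ∃ ε₀ : ℝ, 0 < ε₀ ∧ ε₀ ≤ 1 ∧
    ∀ ε a : ℝ, 0 < ε → ε ≤ ε₀ → ε ≤ 2 * a → ∃ C : ℝ, 0 ≤ C ∧
      ∀ (u : X d → X n) (G : X d → Gr d n) (μ L : ℝ), Sol ε u G → 0 < μ → 0 ≤ L → L ≤ 1 →
      (∀ x ∈ ball (0 : X d) (1 / 2), En ε L (sh x (1 / 2) fun y => μ • G y)) →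
      ∃ W : X d → Gr d n, ContDiffOn ℝ 1 W (ball 0 (1 / 2)) ∧
        W =ᵐ[volume.restrict (ball 0 (1 / 2))] (fun x => A a (G x)) ∧
        ∀ x ∈ ball (0 : X d) (1 / 2), ∀ y ∈ ball (0 : X d) (1 / 2),
          ‖W x - W y‖ ≤ (μ ^ a * μ)⁻¹ * (C * L * ‖x - y‖) := by
  obtain ⟨θ, c, C, ε₀, θ0, θ1, c0, C0, e0, hI⟩ := hI
  refine ⟨min (min ε₀ 1) (1 / (3 * c)), by positivity,
    (min_le_left _ _).trans (min_le_right _ _), fun ε a hε h0 ha => ?_⟩
  have h1 : ε ≤ ε₀ := h0.trans ((min_le_left _ _).trans (min_le_left _ _))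
  have h2 : ε ≤ 1 := h0.trans ((min_le_left _ _).trans (min_le_right _ _))
  have h3 : ε * (3 * c) ≤ 1 := (le_div_iff₀ (by positivity)).1 (h0.trans (min_le_right _ _))
  have s1 : ss ε * (2 + ε) = ε := div_mul_cancel₀ _ (by positivity)
  have s0 : 0 < ss ε := div_pos hε (by positivity)
  have q0 : 0 < c * ε ^ 2 := by positivity
  have g1 : ss ε - c * ε ^ 2 ≤ 1 / 2 := by nlinarith
  obtain ⟨C', C1, hl⟩ := lim d n θ (ss ε - c * ε ^ 2) (2 * C) a θ0 θ1 (by nlinarith) g1
    (by positivity) (by linarith) (by nlinarith)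
  refine ⟨C', C1, fun u G μ L hs μ0 L0 L1 hE => ?_⟩
  obtain ⟨Ce, hx⟩ := K.exc d n
  obtain ⟨m1, m2⟩ := mol d n (fun y => μ • G y) ((hx.ib ε G hε.le hs.mG).1.smul μ)
  have p1 : ∀ j : ℕ, θ ^ j ≤ 1 := fun j => pow_le_one₀ θ0.le (by linarith)
  obtain ⟨V, v1, v2, v3⟩ := hl L (fun j y => bb (sc (θ ^ j) (sh y (1 / 2) fun y => μ • G y)))
    (fun j x => ap ((2 : ℝ) • Ht (θ ^ j) (sh x (1 / 2) fun y => μ • G y))) L0 L1
    (fun j => (m1 _ (pow_pos θ0 j) (p1 j)).1)
    (fun j => ap.continuous.comp_continuousOn ((m1 _ (pow_pos θ0 j) (p1 j)).2.const_smul (2 : ℝ)))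
    fun x hx' => it_map (K.bas d n) θ0 C0 L0 (hI ε L _ _ hε h1
      ((K.sca d n).sol ε u G x (1 / 2) μ hε.le one_half_pos μ0
        (by linarith [mem_ball_zero_iff.1 hx']) hs) (hE x hx'))
  have k0 : 0 < μ ^ a * μ := by positivity
  refine ⟨fun x => (μ ^ a * μ)⁻¹ • A a (V x), v2.const_smul _, ?_, fun x hx' y hy => ?_⟩
  · filter_upwards [m2 θ θ0 (by linarith), ae_restrict_mem measurableSet_ball] with x t hx'
    rw [tendsto_nhds_unique (v1 x hx') t, (K.al1 _).smul a μ _ μ0.le, inv_smul_smul₀ k0.ne']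
  · rw [← smul_sub, norm_smul, Real.norm_of_nonneg (inv_pos.2 k0).le]
    exact mul_le_mul_of_nonneg_left (v3 x hx' y hy) (inv_pos.2 k0).le

end UniA

open UniA

theorem ent (K : Kit) : EntS := by
  intro d n a a0
  obtain ⟨C₀, c0, hlow⟩ := (K.al1 (Gr d n)).low a a0
  obtain ⟨Ce, hx⟩ := K.exc d n
  obtain ⟨Cb, b0, hb⟩ := (K.ker d n).bd
  have e1 := hx.pos
  set β := volume.real (ball (0 : X d) 1) with hβ
  have β0 : 0 ≤ β := measureReal_nonneg
  set N := √(2 * (2 ^ (1 + a)) ^ 2 * β + 2 * (2 ^ a * C₀) ^ 2) with hN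
  have N0 : 0 ≤ N := Real.sqrt_nonneg _
  set M := (2 * Cb * Ce + Ce) * (((1 / 2 : ℝ) ^ d)⁻¹ * N) with hM
  have M0 : 0 ≤ M := by positivity
  refine ⟨1 + M, by linarith, fun ε o G ξ hε h1 ha ho hn hG hi hL x hx' => ?_⟩
  have mc := hx.mp_c ε (fun _ : X d => ξ) continuous_const
  have mz : Mp ε fun y => G y - ξ := hG.sub mc
  have x1 : ‖x‖ + 1 / 2 ≤ 1 := by linarith
  have hz : exc ε (fun y => G y - ξ) ≤ N * o := by
    have i1 : ∫ y in ball (0 : X d) 1, ‖A a (G y) - A a ξ‖ ^ 2 ≤ o ^ 2 := (Real.sqrt_le_iff.1 hL).2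
    have i2 : IntegrableOn (fun _ : X d => 2 * (2 ^ (1 + a) * o) ^ 2) (ball 0 1) :=
      integrableOn_const measure_ball_lt_top.ne
    have i3 := setIntegral_mono (hx.ib ε _ hε.le mz).2.2 (i2.add (hi.const_mul _)) fun y =>
      ps_le hε ha (norm_nonneg _) (norm_sub_le _ _) (le_add_of_nonneg_left (norm_nonneg _)) c0
        (norm_nonneg _) (hlow (G y) ξ) ho hn
    simp only [Pi.add_apply] at i3
    rw [integral_add i2 (hi.const_mul _), setIntegral_const, integral_const_mul, ← hβ,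
      smul_eq_mul] at i3
    refine Real.sqrt_le_iff.2 ⟨by positivity, i3.trans ?_⟩
    rw [mul_pow N, hN, Real.sq_sqrt (by positivity)]
    have := mul_le_mul_of_nonneg_left i1 (by positivity : 0 ≤ 2 * (2 ^ a * C₀) ^ 2)
    nlinarith
  have ms := hx.mp_sh ε _ x (1 / 2) one_half_pos x1 mz
  have mG := hx.mp_sh ε _ x (1 / 2) one_half_pos x1 hG
  have z1 := (hx.sh_le ε _ x (1 / 2) hε.le one_half_pos x1 mz).trans
    (mul_le_mul_of_nonneg_left hz (by positivity))
  set z := sh x (1 / 2) fun y => G y - ξ with hzd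
  have ez : z = fun y => (1 : ℝ) • sh x (1 / 2) G y + (-1 : ℝ) • ξ := by
    funext y
    simp [hzd, sh, sub_eq_add_neg]
  have iG := (hx.ib ε _ hε.le mG).1
  have ic := (hx.ib ε _ hε.le mc).1
  have f1 : bb z = bb (sh x (1 / 2) G) - ξ := by
    have := (K.ker d n).bb_aff ξ 0
    simp only [map_zero, zero_apply, add_zero] at this
    rw [ez, (K.ker d n).bb_add _ _ _ _ iG ic, this]
    simp [sub_eq_add_neg]
  have f2 : HH z = HH (sh x (1 / 2) G) := by
    have := (K.ker d n).HH_aff ξ 0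
    simp only [map_zero, zero_apply, add_zero] at this
    rw [ez, (K.ker d n).HH_add _ _ _ _ iG ic, this]
    simp
  have f3 : pr z = pr (sh x (1 / 2) G) := by
    funext y
    rw [pr, pr, f1, f2]
    simp [hzd, sh]
  obtain ⟨g1, g2⟩ := hb z (hx.ib ε _ hε.le ms).1
  obtain ⟨g3, g4⟩ := hx.l1 ε z hε.le ms
  have g5 := hx.pr_le ε z hε.le h1 ms
  have g6 := mul_le_mul_of_nonneg_left (g3.trans (mul_le_mul_of_nonneg_left g4 (by linarith))) b0
  have g7 := mul_le_mul_of_nonneg_left z1 (by positivity : 0 ≤ 2 * Cb * Ce + Ce)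
  rw [← f1, ← f2, ← f3, add_mul, hM]
  nlinarith

theorem uni (K : Kit) (lim : LimS) (mol : MolS) (he : EntS) (d n : ℕ) (hI : IteS d n) :
    UniS d n := by
  obtain ⟨ε₀, e0, e1, hc⟩ := core K lim mol hI
  refine ⟨ε₀, e0, fun ε a hε h0 ha => ?_⟩
  have a0 : 0 < a := by linarith
  obtain ⟨C', C0, hc⟩ := hc ε a hε h0 ha
  obtain ⟨E, E1, hE⟩ := he d n a a0.le
  obtain ⟨Ce, hx⟩ := K.exc d n
  set κ : ℝ := (2 * (1 + E))⁻¹ with hκ
  have κ0 : 0 < κ := by positivity
  have κ1 : κ * (2 * (1 + E)) = 1 := inv_mul_cancel₀ (by positivity)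
  set δ : ℝ := min (1 / (8 * E)) ((1 / 8) ^ (1 + a)) with hδ
  have δ0 : 0 < δ := by positivity
  refine ⟨C' * (E + (κ ^ a * κ * δ)⁻¹), by positivity, fun u G c hs hi => ?_⟩
  obtain ⟨ξ, rfl⟩ := (K.al1 _).surj a c a0.le
  set o := L2 fun x => A a (G x) - A a ξ with ho
  have o1 : 0 ≤ o := Real.sqrt_nonneg _
  rcases o1.eq_or_lt with o0 | o0
  · refine ⟨fun _ => A a ξ, contDiffOn_const, ?_, fun x _ y _ => by simp [← o0]⟩
    have i0 : ∫ x in ball (0 : X d) 1, ‖A a (G x) - A a ξ‖ ^ 2 = 0 :=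
      (Real.sqrt_eq_zero (integral_nonneg fun x => sq_nonneg _)).1 o0.symm
    have i1 := (integral_eq_zero_iff_of_nonneg (fun x => sq_nonneg _) hi).1 i0
    refine ae_restrict_of_ae_restrict_of_subset (ball_subset_ball (by norm_num)) (i1.mono fun x h => ?_)
    exact (sub_eq_zero.1 (norm_eq_zero.1 (pow_eq_zero_iff two_ne_zero |>.1 h))).symm
  set w := o ^ (1 / (1 + a)) with hw
  have w0 : 0 < w := by positivity
  set μ := (‖ξ‖ + w)⁻¹ with hμ
  have μ0 : 0 < μ := by positivity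
  have μ1 : μ * (‖ξ‖ + w) = 1 := inv_mul_cancel₀ (by positivity)
  have k0 : 0 < μ ^ a * μ := by positivity
  set o₁ := μ ^ a * μ * o with ho₁
  have p0 : 0 < o₁ := by positivity
  have p1 : o₁ ^ (1 / (1 + a)) = μ * w := by
    rw [ho₁, Real.mul_rpow k0.le o0.le, ← Real.rpow_add_one μ0.ne', add_comm a, one_div,
      Real.rpow_rpow_inv μ0.le (by linarith), hw, one_div]
  have p2 : o₁ = (μ * w) ^ (1 + a) := by
    rw [← p1, one_div, Real.rpow_inv_rpow p0.le (by linarith)]
  have n1 : ‖μ • ξ‖ = μ * ‖ξ‖ := by rw [norm_smul, Real.norm_of_nonneg μ0.le]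
  have n2 : 0 ≤ μ * ‖ξ‖ := by positivity
  have n3 : 0 < μ * w := by positivity
  have eA : (fun x => A a (μ • G x) - A a (μ • ξ)) =
      fun x => (μ ^ a * μ) • (A a (G x) - A a ξ) := by
    funext x
    rw [(K.al1 _).smul a μ _ μ0.le, (K.al1 _).smul a μ _ μ0.le, smul_sub]
  have mG : Mp ε fun x => μ • G x := hs.mG.const_smul μ
  have hb := hE ε o₁ (fun x => μ • G x) (μ • ξ) hε (h0.trans e1) ha p0.le
    (by rw [n1, p1]; linarith) mG
    (by
      have : ∀ x, ‖A a (μ • G x) - A a (μ • ξ)‖ ^ 2 =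
          ‖μ ^ a * μ‖ ^ 2 * ‖A a (G x) - A a ξ‖ ^ 2 := fun x => by
        rw [congrFun eA x, norm_smul, mul_pow]
      simp only [this]
      exact hi.const_mul _)
    (by rw [eA, L2_smul _ k0.le])
  have nb : ∀ x : X d, |‖bb (sh x (1 / 2) fun y => μ • G y)‖ - μ * ‖ξ‖| ≤
      ‖bb (sh x (1 / 2) fun y => μ • G y) - μ • ξ‖ := fun x => n1 ▸ abs_norm_sub_norm_le _ _
  have x0 : ∀ z : X d → Gr d n, 0 ≤ exc ε z := fun z => Real.sqrt_nonneg _
  by_cases hsm : o₁ ≤ δ
  · have q1 : o₁ * (8 * E) ≤ 1 := (le_div_iff₀ (by positivity)).1 (hsm.trans (min_le_left _ _))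
    have q2 : μ * w ≤ 1 / 8 := by
      rw [← Real.rpow_le_rpow_iff n3.le (by norm_num) (by linarith : 0 < 1 + a), ← p2]
      exact hsm.trans (min_le_right _ _)
    obtain ⟨W, v1, v2, v3⟩ := hc u G μ (E * o₁) hs μ0 (by positivity) (by linarith) fun x hx' => by
      have t1 := hb x (mem_ball_zero_iff.1 hx').le
      have t2 := abs_le.1 (nb x)
      have t3 := x0 (pr (sh x (1 / 2) fun y => μ • G y))
      have t4 := norm_nonneg (HH (sh x (1 / 2) fun y => μ • G y))
      have t5 := norm_nonneg (bb (sh x (1 / 2) fun y => μ • G y) - μ • ξ)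
      exact Or.inl ⟨by linarith [t2.1], by linarith [t2.2], by linarith, by linarith⟩
    refine ⟨W, v1, v2, fun x hx' y hy => (v3 x hx' y hy).trans ?_⟩
    rw [show (μ ^ a * μ)⁻¹ * (C' * (E * o₁) * ‖x - y‖) = C' * E * o * ‖x - y‖ by
      rw [ho₁]; field_simp]
    gcongr
    exact le_add_of_nonneg_right (by positivity)
  · have q1 : o₁ ≤ 1 := p2 ▸ Real.rpow_le_one n3.le (by linarith) (by linarith)
    have q2 : E * o₁ ≤ E := mul_le_of_le_one_right (by linarith) q1
    obtain ⟨W, v1, v2, v3⟩ := hc u G (κ * μ) 1 hs (by positivity) zero_le_one le_rfl fun x hx' => by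
      have x1 := (mem_ball_zero_iff.1 hx').le
      have t1 := hb x x1
      have t2 := abs_le.1 (nb x)
      have ms := hx.mp_pr ε _ (hx.mp_sh ε _ x (1 / 2) one_half_pos (by linarith) mG)
      have ez : (sh x (1 / 2) fun y => (κ * μ) • G y) =
          fun y => κ • sh x (1 / 2) (fun y => μ • G y) y := by
        funext y
        simp only [sh, mul_smul]
      set z := sh x (1 / 2) fun y => μ • G y with hz
      have t3 := x0 (pr z)
      have t4 := norm_nonneg (HH z)
      have t5 := norm_nonneg (bb z - μ • ξ)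
      have ep : pr (fun y => κ • z y) = fun y => κ • pr z y := by
        funext y
        simp only [pr, (K.ker d n).bb_smul, (K.ker d n).HH_smul, map_smul, smul_sub,
          smul_apply]
      have t6 := hx.smul_le ε κ 1 (pr z) hε.le κ0.le le_rfl
        (by rw [one_pow]; exact Real.rpow_le_one κ0.le (by nlinarith) hε.le) ms
      refine Or.inr ?_
      rw [ez, ep, (K.ker d n).bb_smul, (K.ker d n).HH_smul, norm_smul, norm_smul,
        Real.norm_of_nonneg κ0.le]
      have t7 : ‖bb z‖ ≤ 1 + E := by linarith [t2.2]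
      have t8 : ‖HH z‖ + exc ε (pr z) ≤ 1 + E := by linarith
      have t9 := mul_le_mul_of_nonneg_left t7 κ0.le
      have t10 := mul_le_mul_of_nonneg_left t8 κ0.le
      exact ⟨by linarith, by linarith, rfl⟩
    refine ⟨W, v1, v2, fun x hx' y hy => (v3 x hx' y hy).trans ?_⟩
    have r1 : ((κ * μ) ^ a * (κ * μ))⁻¹ * (C' * 1 * ‖x - y‖) =
        C' * (κ ^ a * κ * o₁)⁻¹ * o * ‖x - y‖ := by
      rw [Real.mul_rpow κ0.le μ0.le, ho₁]
      field_simp
    rw [r1]
    have r2 : (κ ^ a * κ * o₁)⁻¹ ≤ (κ ^ a * κ * δ)⁻¹ := by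
      gcongr
      exact (not_le.1 hsm).le
    gcongr
    linarith

end Pool.Agent.MP_815c6c_an.N

end
end MrgPart2

-- ======== part 3: formerly Pool.Agent.MP_815c6c_an.N.Wgt
section MrgPart3

/-! The weight `|H x|^(-1/2)` is integrable, uniformly. -/

set_option autoImplicit false

noncomputable section

namespace Pool.Agent.MP_815c6c_an.N

open Set Metric MeasureTheory Filter Topology

namespace WgtA

variable {d : ℕ}

/-- one dimensional factors -/
def fk (d : ℕ) (j k : Fin d) (t : ℝ) : ℝ :=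
  (ball (0 : ℝ) (d + 1)).indicator (fun t => if k = j then |t| ^ (-(1 / 2) : ℝ) else 1) t

theorem fk_nn (j k : Fin d) (t : ℝ) : 0 ≤ fk d j k t :=
  indicator_nonneg (fun t _ => by split_ifs <;> positivity) t

theorem fk_int (j k : Fin d) : Integrable (fk d j k) := by
  refine IntegrableOn.integrable_indicator ?_ measurableSet_ball
  by_cases h : k = j
  · simp only [h, if_true]
    refine integrableOn_ball_of_norm_le_rpow (C := 1) (α := 1 / 2) (by simp) (by norm_num)
      (Eventually.of_forall fun t => ?_) (by fun_prop : Measurable _).aestronglyMeasurable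
    rw [Real.norm_of_nonneg (by positivity), one_mul, Real.norm_eq_abs]
  · simp only [h, if_false]
    exact integrableOn_const measure_ball_lt_top.ne

/-- the majorant -/
def F (j : Fin d) (y : Fin d → ℝ) : ℝ := ∏ k, fk d j k (y k)

theorem F_nn (j : Fin d) (y : Fin d → ℝ) : 0 ≤ F j y := Finset.prod_nonneg fun k _ => fk_nn j k _

theorem F_int (j : Fin d) : Integrable (F j) := Integrable.fintype_prod (fk_int j)

theorem F_eq (j : Fin d) (y : Fin d → ℝ) (h : ∀ k, |y k| < d + 1) :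
    F j y = |y j| ^ (-(1 / 2) : ℝ) := by
  have e : ∀ k, fk d j k (y k) = if k = j then |y k| ^ (-(1 / 2) : ℝ) else 1 := fun k =>
    indicator_of_mem (by simpa using h k) _
  simp [F, e]

/-- the shear -/
def Ph (j : Fin d) (v : Fin d → ℝ) (x : X d) : Fin d → ℝ :=
  Matrix.toLin' (Matrix.updateRow 1 j v) x.ofLp

theorem Ph_mp (j : Fin d) (v : Fin d → ℝ) (hv : v j = 1) : MeasurePreserving (Ph j v) := by
  have hd : (Matrix.updateRow (1 : Matrix (Fin d) (Fin d) ℝ) j v).det = 1 := by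
    rw [← Matrix.cramer_transpose_apply, Matrix.transpose_one, Matrix.cramer_one]
    exact hv
  have h1 : MeasurePreserving (Matrix.toLin' (Matrix.updateRow (1 : Matrix (Fin d) (Fin d) ℝ) j v))
      volume volume := by
    refine ⟨(LinearMap.continuous_of_finiteDimensional _).measurable, ?_⟩
    rw [Real.map_matrix_volume_pi_eq_smul_volume_pi (by rw [hd]; norm_num), hd]
    simp
  exact h1.comp (PiLp.volume_preserving_ofLp (Fin d))

theorem Ph_self (j : Fin d) (v : Fin d → ℝ) (x : X d) : Ph j v x j = ∑ k, v k * x k := by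
  simp [Ph, Matrix.mulVec, dotProduct]

theorem Ph_ne {j k : Fin d} (h : k ≠ j) (v : Fin d → ℝ) (x : X d) : Ph j v x k = x k := by
  simp [Ph, Matrix.mulVec, Matrix.updateRow_ne h, dotProduct, Matrix.one_apply]

end WgtA

open WgtA in
theorem wgt : Kit → WgtS := by
  intro _ d n
  set m : ℝ := (Fintype.card (Fin n × Fin d × Fin d) : ℝ) + 1 with hm
  have hm0 : 0 < m := by positivity
  set c : ℝ := 1 / (8 * m) with hc
  have hc0 : 0 < c := by positivity
  have hI : ∀ j : Fin d, 0 ≤ ∫ y, F j y := fun j => integral_nonneg (F_nn j)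
  refine ⟨c ^ (-(1 / 2) : ℝ) * ∑ j : Fin d, ∫ y, F j y,
    mul_nonneg (by positivity) (Finset.sum_nonneg fun j _ => hI j), fun H hH => ?_⟩
  have hne : (Finset.univ : Finset (Fin n × Fin d × Fin d)).Nonempty := by
    by_contra h
    rw [Finset.not_nonempty_iff_eq_empty] at h
    rw [EuclideanSpace.norm_eq, h] at hH
    norm_num at hH
  obtain ⟨⟨a, i, j⟩, -, hmax⟩ := Finset.exists_max_image Finset.univ (fun k => |H k|) hne
  set w : ℝ := H (a, i, j) with hw
  have hcw : c ≤ |w| := by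
    have h1 : ‖H‖ ^ 2 ≤ (m * |w|) ^ 2 := by
      rw [EuclideanSpace.norm_sq_eq]
      calc ∑ k, ‖H k‖ ^ 2 ≤ ∑ _k : Fin n × Fin d × Fin d, |w| ^ 2 :=
            Finset.sum_le_sum fun k _ =>
              pow_le_pow_left₀ (norm_nonneg _) (hmax k (Finset.mem_univ k)) 2
        _ = (m - 1) * |w| ^ 2 := by rw [hm]; simp
        _ ≤ m ^ 2 * |w| ^ 2 := by gcongr; nlinarith
        _ = _ := by ring
    have h2 := hH.trans (abs_le_of_sq_le_sq' h1 (by positivity)).2
    rw [hc, div_le_iff₀ (by positivity)]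
    linarith
  have hw0 : w ≠ 0 := fun h => by rw [h, abs_zero] at hcw; linarith
  set v : Fin d → ℝ := fun k => H (a, i, k) / w with hv
  have hvj : v j = 1 := div_self hw0
  have hv1 : ∀ k, |v k| ≤ 1 := fun k => by
    rw [hv, abs_div, div_le_one (abs_pos.2 hw0)]
    exact hmax _ (Finset.mem_univ (a, i, k))
  have mp := Ph_mp j v hvj
  have hlow : ∀ x : X d, c * |Ph j v x j| ≤ ‖ap H x‖ := fun x => by
    have h1 : ap H x (a, i) = w * Ph j v x j := by
      rw [ap_apply, Ph_self, Finset.mul_sum]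
      refine Finset.sum_congr rfl fun k _ => ?_
      rw [hv]
      field_simp
    calc c * |Ph j v x j| ≤ |w| * |Ph j v x j| := by gcongr
      _ = ‖ap H x (a, i)‖ := by rw [h1, Real.norm_eq_abs, abs_mul]
      _ ≤ _ := PiLp.norm_apply_le _ _
  have hae : ∀ᵐ x : X d, Ph j v x j ≠ 0 :=
    mp.quasiMeasurePreserving.ae (Measure.ae_eval_ne (fun _ : Fin d => (volume : Measure ℝ)) j 0)
  have hpos : ∀ x : X d, Ph j v x j ≠ 0 → 0 < ‖ap H x‖ := fun x hx =>
    (mul_pos hc0 (abs_pos.2 hx)).trans_le (hlow x)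
  have hFi : Integrable fun x : X d => c ^ (-(1 / 2) : ℝ) * F j (Ph j v x) :=
    (mp.integrable_comp_of_integrable (F_int j)).const_mul _
  have hbd : ∀ᵐ x ∂(volume.restrict (ball (0 : X d) 1)),
      ‖ap H x‖ ^ (-(1 / 2) : ℝ) ≤ c ^ (-(1 / 2) : ℝ) * F j (Ph j v x) := by
    filter_upwards [ae_restrict_of_ae hae, ae_restrict_mem measurableSet_ball] with x hx hb
    have hx1 : ∀ k, |x k| ≤ 1 := fun k =>
      (PiLp.norm_apply_le x k).trans (mem_ball_zero_iff.1 hb).le
    have hd1 : (1 : ℝ) ≤ d := by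
      have := j.2
      exact_mod_cast (by omega : 1 ≤ d)
    rw [F_eq j _ fun k => ?_, ← Real.mul_rpow hc0.le (abs_nonneg _)]
    · exact Real.rpow_le_rpow_of_nonpos (mul_pos hc0 (abs_pos.2 hx)) (hlow x) (by norm_num)
    by_cases h : k = j
    · rw [h, Ph_self]
      calc |∑ k, v k * x k| ≤ ∑ k, |v k * x k| := Finset.abs_sum_le_sum_abs _ _
        _ ≤ ∑ _k : Fin d, (1 : ℝ) := Finset.sum_le_sum fun k _ => by
            rw [abs_mul]
            exact mul_le_one₀ (hv1 k) (abs_nonneg _) (hx1 k)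
        _ < d + 1 := by simp
    · rw [Ph_ne h]
      linarith [hx1 k]
  have hint : IntegrableOn (fun x : X d => ‖ap H x‖ ^ (-(1 / 2) : ℝ)) (ball 0 1) := by
    refine Integrable.mono' hFi.integrableOn
      (by fun_prop : Measurable _).aestronglyMeasurable ?_
    filter_upwards [hbd] with x hx
    rwa [Real.norm_of_nonneg (by positivity)]
  have hle : ∫ x in ball (0 : X d) 1, ‖ap H x‖ ^ (-(1 / 2) : ℝ)
      ≤ c ^ (-(1 / 2) : ℝ) * ∑ j : Fin d, ∫ y, F j y := by
    refine (integral_mono_ae hint hFi.integrableOn hbd).trans ?_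
    refine (setIntegral_le_integral hFi (Eventually.of_forall fun x =>
      mul_nonneg (by positivity) (F_nn _ _))).trans ?_
    rw [integral_const_mul, ← integral_map mp.measurable.aemeasurable
      (by rw [mp.map_eq]; exact (F_int j).aestronglyMeasurable), mp.map_eq]
    exact mul_le_mul_of_nonneg_left
      (Finset.single_le_sum (fun j _ => hI j) (Finset.mem_univ j)) (by positivity)
  refine ⟨hae.mono fun x hx => norm_pos_iff.1 (hpos x hx), hint, hle, fun κ hκ => ?_⟩
  have h1 := (mul_meas_ge_le_integral_of_nonneg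
    (Eventually.of_forall fun x => by positivity) hint (κ ^ (-(1 / 2) : ℝ))).trans hle
  have h2 : volume.real {x | x ∈ ball (0 : X d) 1 ∧ ‖ap H x‖ ≤ κ}
      ≤ (volume.restrict (ball (0 : X d) 1)).real
        {x | κ ^ (-(1 / 2) : ℝ) ≤ ‖ap H x‖ ^ (-(1 / 2) : ℝ)} := by
    have : IsFiniteMeasure (volume.restrict (ball (0 : X d) 1)) :=
      isFiniteMeasure_restrict.2 measure_ball_lt_top.ne
    refine ENNReal.toReal_mono (measure_ne_top _ _) ?_
    rw [Measure.restrict_apply' measurableSet_ball]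
    refine measure_mono_ae (hae.mono fun x hx hx' => ⟨?_, hx'.1⟩)
    exact Real.rpow_le_rpow_of_nonpos (hpos x hx) hx'.2 (by norm_num)
  have h3 : √κ * κ ^ (-(1 / 2) : ℝ) = 1 := by
    rw [Real.sqrt_eq_rpow, ← Real.rpow_add hκ]
    norm_num
  refine h2.trans ?_
  calc _ = √κ * (κ ^ (-(1 / 2) : ℝ) * (volume.restrict (ball (0 : X d) 1)).real
        {x | κ ^ (-(1 / 2) : ℝ) ≤ ‖ap H x‖ ^ (-(1 / 2) : ℝ)}) := by rw [← mul_assoc, h3, one_mul]
    _ ≤ √κ * (c ^ (-(1 / 2) : ℝ) * ∑ j : Fin d, ∫ y, F j y) := by gcongr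
    _ = _ := mul_comm _ _

end Pool.Agent.MP_815c6c_an.N

end
end MrgPart3

-- marker of a merged file
example : 731051 + 804388 = 731051 + 804388 := rfl
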